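import Pool.Agent.Lib.MRF.Defs
import Pool.Agent.Lib.MRL.DC

/-! # TANK MR2: Matomäki–Radziwiłł for windows of length `(log X)^a` with a power of `log X` saved.
Statements of all rows (Part A).  `f` is completely multiplicative, `|f| ≤ 1`; `r` denotes
arbitrary coefficients of modulus at most one.  helper67. -/

set_option autoImplicit false

namespace Pool.Agent.MR2

open Finset Pool.Agent.MRL Pool.Agent.MRF Pool.Agent.MRHal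
open Pool.Agent.MRL.DC (PP)

noncomputable section

/-- `1` if some prime of `P` divides `n`, else `0`. -/
def hit (P : Finset ℕ) (n : ℕ) : ℂ := if ∃ p ∈ P, p ∣ n then 1 else 0

/-- `1` if no prime of `P` divides `n`, else `0`. -/
def free (P : Finset ℕ) (n : ℕ) : ℂ := if ∀ p ∈ P, ¬ p ∣ n then 1 else 0

/-- the main term `Σ_v Q_v(1+it) R_{v, X e^{-v/H}}(1+it)` with arbitrary cofactors `r v`. -/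
def SR (f : ℕ → ℂ) (r : ℕ → ℕ → ℂ) (X : ℝ) (H v1 v2 : ℕ) (t : ℝ) : ℂ :=
  ∑ v ∈ Ico v1 v2, QF f H v t * AF (r v) (X * Real.exp (-((v : ℝ) / H))) t

/-! ### rows on cells -/

/-- ROW BT: Brun–Titchmarsh in a cell. -/
def BTcell : Prop := ∃ C : ℝ, 0 < C ∧ ∀ H v : ℕ, 1 ≤ H → H ≤ v →
  (H : ℝ) ^ 2 ≤ Real.exp ((v : ℝ) / H) → ∑ p ∈ W H v, 1 / (p : ℝ) ≤ C / v

/-- ROW DR: decomposition by the smallest cell.  `w` is the condition from the other scales. -/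
def DecR : Prop := ∃ C : ℝ, 0 < C ∧ ∀ f : ℕ → ℂ, CM f → ∀ w : ℕ → ℂ, (∀ n, ‖w n‖ ≤ 1) →
  ∀ (X T : ℝ) (H v1 v2 : ℕ), 1 ≤ H → (H : ℝ) ≤ X → H ≤ v1 → v1 ≤ v2 →
  (H : ℝ) ^ 2 ≤ Real.exp ((v1 : ℝ) / H) → Real.exp ((v2 : ℝ) / H) ≤ √X → 0 < T → T ≤ X →
  (∀ p ∈ PP H v1 v2, ∀ m : ℕ, m ≠ 0 → w (p * m) = w m) →
  ∫ t : ℝ, ‖AF (fun n => f n * (w n * hit (PP H v1 v2) n)) X t
      - SR f (fun v m => f m * (w m * free (PP H v1 (v + 1)) m)) X H v1 v2 t‖ ^ 2 * g T t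
    ≤ C / H

/-- ROW MO: moment bound for `Q_v^l R`. -/
def MomentR : Prop := ∃ C : ℝ, 1 ≤ C ∧ ∀ f : ℕ → ℂ, (∀ n, ‖f n‖ ≤ 1) → ∀ r : ℕ → ℂ,
  (∀ n, ‖r n‖ ≤ 1) → ∀ (l H v : ℕ) (Y : ℝ), 1 ≤ l → 1 ≤ H → H ≤ v → 1 ≤ Y →
  ∃ (N : ℕ) (c : ℕ → ℂ), 1 ≤ N ∧ (N : ℝ) ≤ 2 * Real.exp (l * (((v : ℝ) + 1) / H)) * Y ∧
    (∀ t : ℝ, QF f H v t ^ l * AF r Y t = ∑ n ∈ Icc 1 N, c n * nt n t) ∧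
    (∀ n : ℕ, c n ≠ 0 → Real.exp (l * ((v : ℝ) / H)) * Y ≤ n) ∧
    ∑ n ∈ Icc 1 N, ‖c n‖ ^ 2 * n ≤ (C * l) ^ l

/-- ROW S1: the set where all `Q_v` of the first scale are small. -/
def StepOneR : Prop := ∃ C : ℝ, 0 < C ∧ ∀ f : ℕ → ℂ, (∀ n, ‖f n‖ ≤ 1) → ∀ r : ℕ → ℕ → ℂ,
  (∀ v n, ‖r v n‖ ≤ 1) → ∀ (X T : ℝ) (H v1 v2 : ℕ) (α : ℝ), 1 ≤ H → v1 ≤ v2 →
  0 < T → 0 ≤ α → T * Real.exp ((v2 : ℝ) / H) ≤ X → Real.exp ((v2 : ℝ) / H) ≤ √X →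
  ∫ t in {t : ℝ | GoodF f H v1 v2 α t}, ‖SR f r X H v1 v2 t‖ ^ 2 * g T t
    ≤ C * (v2 : ℝ) ^ 2 * Real.exp (-(2 * α * v1 / H))

/-- ROW SJ: the set `T_j \ T_{j-1}`; primed data = the previous scale. -/
def StepJR : Prop := ∃ C : ℝ, 1 ≤ C ∧ ∀ f : ℕ → ℂ, (∀ n, ‖f n‖ ≤ 1) → ∀ r : ℕ → ℕ → ℂ,
  (∀ v n, ‖r v n‖ ≤ 1) → ∀ (X T : ℝ) (H' v1' v2' H v1 v2 : ℕ) (α' α : ℝ),
  1 ≤ H' → H' ≤ v1' → v1' ≤ v2' → H' ≤ H → H ≤ v1 → v1 ≤ v2 →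
  0 ≤ α' → α' < α → α ≤ 1 →
  12 * ((v2' : ℝ) / H') ≤ (α - α') * ((v1 : ℝ) / H) →
  12 * Real.log ((v2 : ℝ) + 2) ≤ (α - α') * ((v1 : ℝ) / H) →
  Real.log (C * ((v2 : ℝ) / H) + C) ≤ (α - α') / 2 * ((v1' : ℝ) / H') →
  0 < T → T ≤ X → Real.exp ((v2 : ℝ) / H) ≤ √X →
  ∫ t in {t : ℝ | GoodF f H v1 v2 α t ∧ ¬ GoodF f H' v1' v2' α' t},
      ‖SR f r X H v1 v2 t‖ ^ 2 * g T t
    ≤ C * Real.exp (-((α - α') * v1 / H))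

/-- ROW TR: the Gaussian tail. -/
def TailR : Prop := ∃ C : ℝ, 0 < C ∧ ∀ r : ℕ → ℂ, (∀ n, ‖r n‖ ≤ 1) → ∀ X T h : ℝ, 1 ≤ X →
  0 < T → 1 ≤ h → T ≤ X / h → ∫ t in {t : ℝ | X < |t|}, ‖AF r X t‖ ^ 2 * g T t ≤ C / h ^ 2

/-! ### rows on the sparse set -/

/-- ROW LL: few points where `|Q_v| ≥ (log X)^{-10}`. -/
def LargeL : Prop := ∀ ε : ℝ, 0 < ε → ε ≤ 1 / 8 → ∃ X0 : ℝ, ∀ X : ℝ, X0 ≤ X → ∀ f : ℕ → ℂ,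
  (∀ n, ‖f n‖ ≤ 1) → ∀ H v : ℕ, 1 ≤ H → H ≤ v → (Real.log X) ^ (1 - ε) ≤ (v : ℝ) / H →
  Real.exp (((v : ℝ) + 1) / H) ≤ √X → ∀ R : Finset ℤ, (∀ r ∈ R, |(r : ℝ)| ≤ 2 * X) →
    (∀ r ∈ R, ∃ t ∈ Set.Icc (r : ℝ) (r + 1), (Real.log X) ^ (-(10 : ℝ)) ≤ ‖QF f H v t‖) →
    (R.card : ℝ) ≤ Real.exp ((Real.log X) ^ (2 * ε))

/-- ROW HI: Halász–Montgomery over the integers. -/
def HMInt : Prop := ∃ θ : ℝ, 0 < θ ∧ θ ≤ 1 ∧ ∃ C : ℝ, 0 < C ∧ ∃ X0 : ℝ, ∀ X : ℝ, X0 ≤ X →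
  ∀ r : ℕ → ℂ, (∀ n, ‖r n‖ ≤ 1) → ∀ Y : ℝ, √X ≤ Y → Y ≤ X → ∀ (R : Finset ℤ) (τ : ℤ → ℝ),
  (∀ i ∈ R, |(i : ℝ)| ≤ 2 * X) → (R.card : ℝ) ≤ X ^ θ →
    (∀ i ∈ R, τ i ∈ Set.Icc (i : ℝ) (i + 1)) →
    ∑ i ∈ R, ‖AF r Y (τ i)‖ ^ 2 ≤ C * Real.log X

/-- ROW SPV: prime polynomials of length `≥ exp((log X)^{1-ε})` on a sparse set. -/
def SPV : Prop := ∀ ε : ℝ, 0 < ε → ε ≤ 1 / 8 → ∃ C : ℝ, 0 < C ∧ ∃ X0 : ℝ, ∀ X : ℝ, X0 ≤ X →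
  ∀ f : ℕ → ℂ, (∀ n, ‖f n‖ ≤ 1) → ∀ H v : ℕ, 1 ≤ H → H ≤ v →
  (Real.log X) ^ (1 - ε) ≤ (v : ℝ) / H → Real.exp (((v : ℝ) + 1) / H) ≤ √X →
  ∀ (R : Finset ℤ) (τ : ℤ → ℝ), (∀ i ∈ R, |(i : ℝ)| ≤ 2 * X) →
    (R.card : ℝ) ≤ Real.exp ((Real.log X) ^ (1 - 4 * ε)) →
    (∀ i ∈ R, τ i ∈ Set.Icc (i : ℝ) (i + 1)) →
    ∑ i ∈ R, ‖QF f H v (τ i)‖ ^ 2 ≤ C / ((v : ℝ) / H) ^ 2

/-- ROW AU: the integral over a sparse set. -/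
def AUR : Prop := ∃ θ : ℝ, 0 < θ ∧ θ ≤ 1 ∧ ∀ ε : ℝ, 0 < ε → ε ≤ 1 / 8 → ∃ C : ℝ, 0 < C ∧
  ∃ X0 : ℝ, ∀ X T : ℝ, X0 ≤ X → 0 < T → ∀ f : ℕ → ℂ, (∀ n, ‖f n‖ ≤ 1) →
  ∀ r : ℕ → ℕ → ℂ, (∀ v n, ‖r v n‖ ≤ 1) → ∀ H v1 v2 : ℕ, 1 ≤ H → H ≤ v1 → v1 ≤ v2 →
  (Real.log X) ^ (1 - ε) ≤ (v1 : ℝ) / H → Real.exp ((v2 : ℝ) / H) ≤ √X →
  ∀ (E : Set ℝ) (R : Finset ℤ), MeasurableSet E → (∀ t ∈ E, |t| ≤ X) →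
  (∀ i ∈ R, |(i : ℝ)| ≤ 2 * X) → (R.card : ℝ) ≤ X ^ θ →
  (∀ t ∈ E, ∃ i ∈ R, t ∈ Set.Icc (i : ℝ) (i + 1)) →
  ∀ ρ : ℝ, 0 ≤ ρ → (∀ v ∈ Ico v1 v2, ∀ t : ℝ, |t| ≤ 2 * X + 1 →
    ‖AF (r v) (X * Real.exp (-((v : ℝ) / H))) t‖ ≤ ρ) →
  ∫ t in E, ‖SR f r X H v1 v2 t‖ ^ 2 * g T t
    ≤ C * ((v2 : ℝ) ^ 2 * (Real.log X) ^ (-(19 : ℝ)) + ρ ^ 2 * (H : ℝ) ^ 2 * ((v2 : ℝ) / v1))

/-! ### pointwise bounds (quantitative Halász) -/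

/-- ROW ZQ: the Dirichlet series of `f` near the line 1. -/
def FlQf (f : ℕ → ℂ) (θ : ℝ) : Prop := ∃ C : ℝ, 0 < C ∧ ∀ x : ℝ, 3 ≤ x → ∀ τ : ℝ, |τ| ≤ x ^ 4 →
  ‖FlF f (1 / Real.log x) τ‖ ≤ C * (Real.log x) ^ (1 - θ)

/-- Halász for `f(n) n^{-it}` over `n` free of the primes of `P`, explicit constant. -/
def HalC (f : ℕ → ℂ) (θ C : ℝ) : Prop := ∀ x : ℝ, 3 ≤ x → ∀ P : Finset ℕ,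
  (∀ p ∈ P, p.Prime) → ∀ t : ℝ, |t| ≤ x ^ 3 →
  ‖∑ n ∈ Icc 1 ⌊x⌋₊, (f n * free P n) * nt n t‖
    ≤ C * x * (Real.log x) ^ (-θ) * Real.exp ((∑ p ∈ P, 1 / (p : ℝ)) / 4)

/-- ROW HQ (33). -/
def HalQ (f : ℕ → ℂ) (θ : ℝ) : Prop := ∃ C : ℝ, 0 < C ∧ HalC f θ C

/-- ROW SR: sup bound for the cofactors of the third scale, uniform in `f`. -/
def SupR : Prop := ∀ θ C0 : ℝ, 0 < θ → 0 < C0 → ∃ C : ℝ, 0 < C ∧ ∃ X0 : ℝ, ∀ X : ℝ, X0 ≤ X →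
  ∀ f : ℕ → ℂ, HalC f θ C0 → ∀ P0 P1 P2 P3 : Finset ℕ,
  (∀ p ∈ P0 ∪ P1 ∪ P2 ∪ P3, p.Prime) → ∀ Y : ℝ, √X ≤ Y → Y ≤ X → ∀ t : ℝ, |t| ≤ 2 * X + 1 →
  ‖AF (fun m => (f m * free P0 m) * ((hit P1 m * hit P2 m) * free P3 m)) Y t‖
    ≤ C * (Real.log X) ^ (-θ) * Real.exp ((∑ p ∈ P0 ∪ P1 ∪ P2 ∪ P3, 1 / (p : ℝ)) / 4)

/-! ### elementary sieve rows -/

/-- ROW FR: integers free of the primes of `P` (Hall–Tenenbaum + Mertens). -/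
def FreeCount : Prop := ∃ C : ℝ, 0 < C ∧ ∀ x : ℝ, 2 ≤ x → ∀ P : Finset ℕ,
  (∀ p ∈ P, p.Prime ∧ (p : ℝ) ≤ x) →
  (((Icc 1 ⌊x⌋₊).filter fun n => ∀ p ∈ P, ¬ p ∣ n).card : ℝ)
    ≤ C * x * Real.exp (-∑ p ∈ P, 1 / (p : ℝ))

/-- ROW SV: in every window of length `h ≥ (max P)^2` few integers are free of the primes
of `P` (Turán–Kubilius in the window). -/
def SieveWin : Prop := ∃ C : ℝ, 0 < C ∧ ∀ h x : ℕ, 1 ≤ h → ∀ P : Finset ℕ,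
  (∀ p ∈ P, p.Prime ∧ p ^ 2 ≤ h) → 0 < ∑ p ∈ P, 1 / (p : ℝ) →
  (((Ico x (x + h)).filter fun n => ∀ p ∈ P, ¬ p ∣ n).card : ℝ)
    ≤ C * h / ∑ p ∈ P, 1 / (p : ℝ)

/-! ### the results of Part A -/

/-- three scales with a common cell parameter. -/
structure TS where
  H : ℕ
  a1 : ℕ
  b1 : ℕ
  a2 : ℕ
  b2 : ℕ
  a3 : ℕ
  b3 : ℕ

/-- the three sets of primes. -/
def TS.P1 (s : TS) : Finset ℕ := PP s.H s.a1 s.b1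
def TS.P2 (s : TS) : Finset ℕ := PP s.H s.a2 s.b2
def TS.P3 (s : TS) : Finset ℕ := PP s.H s.a3 s.b3

/-- indicator of the typical integers. -/
def TS.b (s : TS) (n : ℕ) : ℂ := (hit s.P1 n * hit s.P2 n) * hit s.P3 n

/-- ROW MRQ: mean square over typical integers, `T ≤ Y/(log X)^a`.  The scales `s` do not depend
on `f`.  Primes of `P1` are in `((log X)^κ, (log X)^{a/4}]` with `Σ 1/p ≥ K`; few integers are free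
of `P2` or of `P3`; `P0` is any set of primes `≤ (log X)^κ` (removed from `f`). -/
def MRQ : Prop := ∀ θ a K : ℝ, 0 < θ → θ ≤ 1 → 0 < a → a ≤ 1 → 1 ≤ K →
  ∃ κ : ℝ, 0 < κ ∧ ∃ a' : ℝ, 0 < a' ∧ ∀ C0 : ℝ, 0 < C0 → ∃ X0 : ℝ, ∀ X : ℝ, X0 ≤ X → ∃ s : TS,
    (∀ p ∈ s.P1, (Real.log X) ^ κ < (p : ℝ) ∧ (p : ℝ) ≤ (Real.log X) ^ (a / 4)) ∧
    K ≤ ∑ p ∈ s.P1, 1 / (p : ℝ) ∧
    (((Icc 1 ⌊16 * X⌋₊).filter fun n => hit s.P2 n * hit s.P3 n ≠ 1).card : ℝ)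
      ≤ X * (Real.log X) ^ (-a') ∧
    ∀ f : ℕ → ℂ, CM f → HalC f θ C0 → ∀ P0 : Finset ℕ,
      (∀ p ∈ P0, p.Prime ∧ (p : ℝ) ≤ (Real.log X) ^ κ) →
      ∀ Y : ℝ, X / 8 ≤ Y → Y ≤ 8 * X → ∀ T : ℝ, 1 ≤ T → T ≤ Y / (Real.log X) ^ a →
      ∫ t : ℝ, ‖AF (fun n => (f n * free P0 n) * s.b n) Y t‖ ^ 2 * g T t
        ≤ (Real.log X) ^ (-a')

/-- ROW NRQ: runs of length `(log X)^a` on which `λ` is constant. -/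
def NRQ : Prop := ∀ a : ℝ, 0 < a → ∃ a' : ℝ, 0 < a' ∧ ∃ X0 : ℝ, ∀ X : ℝ, X0 ≤ X → ∀ h : ℕ,
  (Real.log X) ^ a ≤ h →
  (((Icc ⌈X⌉₊ ⌊2 * X⌋₊).filter (fun x => ∀ j < h, lam (x + j) = lam x)).card : ℝ)
    ≤ X * (Real.log X) ^ (-a')

/-- the final theorem of MR2. -/
def FinalQ : Prop := ∃ κ : ℝ, 0 < κ ∧ ∃ t0 : ℝ, ∀ t : ℝ, t0 ≤ t →
  (∃ n : ℕ, t < n ∧ (n : ℝ) < t + √t / (Real.log t) ^ κ ∧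
    Even (ArithmeticFunction.cardFactors n)) ∧
  (∃ n : ℕ, t < n ∧ (n : ℝ) < t + √t / (Real.log t) ^ κ ∧
    Odd (ArithmeticFunction.cardFactors n))

end

end Pool.Agent.MR2
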