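import Pool.Agent.Lib.MR2.Defs
import Pool.Agent.Lib.MRL.SP

/-!
# Row HI of tank MR2: Halász–Montgomery over the integers, `VDC → HMInt`
-/

set_option autoImplicit false
open Finset Complex

namespace Pool.Agent.MR2.HIr

open Pool.Agent.MRL Pool.Agent.MRL.HM

/-- the trivial sieve weight. -/
noncomputable def one1 : ℕ → ℝ := fun d => if d = 1 then 1 else 0

lemma sw_one : SW one1 1 1 := by
  refine ⟨by simp [one1], ?_, ?_, ?_⟩
  · intro d; unfold one1; split_ifs <;> simp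
  · simp [one1]
  · simp [one1]

lemma nu_one (P p : ℕ) (hP : 0 < P) (h1 : P ≤ p) (h2 : p ≤ 2 * P) : nu one1 P 1 p = 1 := by
  unfold nu
  rw [ww_one P p hP h1 h2, one_mul]
  unfold sw
  have : (Icc 1 1).filter (fun d => d ∣ p) = {1} := by
    ext d
    simp only [mem_filter, mem_Icc, mem_singleton]
    constructor
    · rintro ⟨⟨h1, h2⟩, h3⟩
      omega
    · rintro rfl
      exact ⟨⟨le_refl _, le_refl _⟩, one_dvd _⟩
  rw [this, Finset.sum_singleton]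
  simp [one1]

theorem hi_core (hW : VDC) (A : ℝ) (hA : 1 ≤ A) : ∃ η : ℝ, 0 < η ∧ ∃ C : ℝ, 0 < C ∧
    ∀ P : ℕ, 3 ≤ P → ∀ (T : Finset ℝ), (∀ s ∈ T, ∀ t ∈ T, s ≠ t → 1 ≤ |s - t|) →
    (∀ s ∈ T, ∀ t ∈ T, |s - t| ≤ (P : ℝ) ^ A) → ∀ (S : Finset ℕ),
    (∀ p ∈ S, P ≤ p ∧ p ≤ 2 * P) → ∀ a : ℕ → ℂ,
    ∑ t ∈ T, ‖∑ p ∈ S, a p * ee (-t) p‖ ^ 2
      ≤ C * (P + T.card * (P : ℝ) ^ (1 - η)) * ∑ p ∈ S, ‖a p‖ ^ 2 := by
  obtain ⟨η0, hη0, hη0', C0, hC0, hZ⟩ := ZZ_bound hW A hA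
  obtain ⟨C2, hC2, hsp⟩ := exists_spaced
  refine ⟨η0, hη0, 14 * C2 + (72 + 2 * C0), by positivity, ?_⟩
  intro P hP T hT1 hT2 S hS a
  have hPr : (3 : ℝ) ≤ P := by exact_mod_cast hP
  have hP1 : (1 : ℝ) ≤ P := by linarith
  have hPpos : (0 : ℝ) < P := by linarith
  set E : ℝ := (P : ℝ) ^ (1 - η0) with hE
  have hE0 : 0 ≤ E := by positivity
  -- pointwise bound
  have hV : ∀ u : ℝ, |u| ≤ (P : ℝ) ^ A → ‖VV one1 P 1 u‖
      ≤ 14 * P * (1 / (1 + u ^ 2)) + (72 + 2 * C0) * E := by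
    intro u hu
    have hmain : 0 ≤ 14 * (P : ℝ) * (1 / (1 + u ^ 2)) := by positivity
    rcases le_or_gt (2 * (P : ℝ) ^ (1 / 2 : ℝ)) |u| with h | h
    · have h1 := VV_large sw_one P (by omega) u (C0 * (P : ℝ) ^ (1 - η0))
        (fun N hN => hZ P N u (by omega) hN h hu)
      rw [← hE] at h1
      have h4 : 0 ≤ 72 * E := by positivity
      have h5 : ((1 : ℕ) : ℝ) ^ 2 * (2 * (C0 * E)) = 2 * C0 * E := by push_cast; ring
      rw [h5] at h1
      linarith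
    · have h1 := VV_small sw_one P (by omega) u
      have h3 : (8 + 2 * (|u| * Real.log (3 * P + 1))) ≤ 72 * E := by
        have a1 : Real.log (3 * P + 1) ≤ 16 * (P : ℝ) ^ (1 / 8 : ℝ) := by
          have b1 : Real.log (3 * P + 1) ≤ Real.log (4 * P) :=
            Real.log_le_log (by positivity) (by linarith)
          have b2 : Real.log (4 * P) ≤ (4 * P : ℝ) ^ (1 / 8 : ℝ) / (1 / 8) :=
            Real.log_le_rpow_div (by positivity) (by norm_num)
          have b3 : (4 * P : ℝ) ^ (1 / 8 : ℝ) = 4 ^ (1 / 8 : ℝ) * (P : ℝ) ^ (1 / 8 : ℝ) :=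
            Real.mul_rpow (by norm_num) hPpos.le
          have b4 : (4 : ℝ) ^ (1 / 8 : ℝ) ≤ 2 := by
            have : (4 : ℝ) ^ (1 / 8 : ℝ) ≤ 4 ^ (1 / 2 : ℝ) :=
              Real.rpow_le_rpow_of_exponent_le (by norm_num) (by norm_num)
            refine this.trans (le_of_eq ?_)
            rw [← Real.sqrt_eq_rpow, show (4 : ℝ) = 2 ^ 2 by norm_num]
            exact Real.sqrt_sq (by norm_num)
          have b5 : 0 ≤ (P : ℝ) ^ (1 / 8 : ℝ) := by positivity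
          rw [b3] at b2
          nlinarith
        have a2 : |u| * Real.log (3 * P + 1) ≤ 32 * (P : ℝ) ^ (5 / 8 : ℝ) := by
          have c1 : |u| * Real.log (3 * P + 1)
              ≤ (2 * (P : ℝ) ^ (1 / 2 : ℝ)) * (16 * (P : ℝ) ^ (1 / 8 : ℝ)) :=
            mul_le_mul h.le a1 (Real.log_nonneg (by linarith)) (by positivity)
          have c2 : (P : ℝ) ^ (1 / 2 : ℝ) * (P : ℝ) ^ (1 / 8 : ℝ) = (P : ℝ) ^ (5 / 8 : ℝ) := by
            rw [← Real.rpow_add hPpos]; norm_num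
          calc _ ≤ _ := c1
            _ = 32 * ((P : ℝ) ^ (1 / 2 : ℝ) * (P : ℝ) ^ (1 / 8 : ℝ)) := by ring
            _ = _ := by rw [c2]
        have a3 : (1 : ℝ) ≤ (P : ℝ) ^ (5 / 8 : ℝ) := Real.one_le_rpow hP1 (by norm_num)
        have a4 : 8 + 2 * (|u| * Real.log (3 * P + 1)) ≤ 72 * (P : ℝ) ^ (5 / 8 : ℝ) := by
          linarith
        have a6 : (P : ℝ) ^ (5 / 8 : ℝ) ≤ E := by
          rw [hE]
          exact Real.rpow_le_rpow_of_exponent_le hP1 (by linarith)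
        linarith
      have h4 : 0 ≤ 2 * C0 * E := by positivity
      have h5 : (1 : ℝ) * (14 * P / (1 + u ^ 2)) + ((1 : ℕ) : ℝ) ^ 2 * (8 + 2 * (|u| * Real.log (3 * P + 1)))
          = 14 * P * (1 / (1 + u ^ 2)) + (8 + 2 * (|u| * Real.log (3 * P + 1))) := by
        push_cast; ring
      rw [h5] at h1
      linarith
  -- row sums
  set K : ℝ := (14 * C2 + (72 + 2 * C0)) * (P + T.card * E) with hK
  have hK0 : 0 ≤ K := by positivity
  have hrow : ∀ t ∈ T, ∑ s ∈ T, ‖VV one1 P 1 (t - s)‖ ≤ K := by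
    intro t ht
    have h1 : ∀ s ∈ T, ‖VV one1 P 1 (t - s)‖
        ≤ 14 * P * (1 / (1 + (t - s) ^ 2)) + (72 + 2 * C0) * E :=
      fun s hs => hV (t - s) (hT2 t ht s hs)
    refine (Finset.sum_le_sum h1).trans ?_
    rw [Finset.sum_add_distrib, ← Finset.mul_sum, Finset.sum_const, nsmul_eq_mul]
    have h2 := hsp T hT1 t
    have h3 : (0 : ℝ) ≤ 14 * P := by positivity
    have h4 := mul_le_mul_of_nonneg_left h2 h3
    have h5 : 0 ≤ (72 + 2 * C0) * (P : ℝ) := by positivity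
    have h6 : 0 ≤ 14 * C2 * (T.card * E) := by positivity
    rw [hK]
    nlinarith
  exact dual one1 P 1 T K hK0 hrow S (fun p hp => by
    obtain ⟨h2, h3⟩ := hS p hp
    refine ⟨by omega, by omega, ?_⟩
    rw [nu_one P p (by omega) h2 h3]) a

end Pool.Agent.MR2.HIr

namespace Pool.Agent.MR2

open Pool.Agent.MRL Pool.Agent.MRF Pool.Agent.MRL.HM HIr

/-- **Row HI.** -/
theorem hmInt (hW : VDC) : HMInt := by
  obtain ⟨η, hη, C, hC, hcore⟩ := hi_core hW 3 (by norm_num)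
  set θ : ℝ := min 1 (η / 2) with hθ
  have hθ0 : 0 < θ := lt_min one_pos (by positivity)
  have hθ1 : θ ≤ η / 2 := min_le_right _ _
  refine ⟨θ, hθ0, min_le_left _ _, 4 * C, by positivity, 100, ?_⟩
  intro X hX r hr Y hY1 hY2 R τ hR hcard hτ
  have hXpos : 0 < X := by linarith
  have hX1 : 1 ≤ X := by linarith
  have hsq : √X ^ 2 = X := Real.sq_sqrt hXpos.le
  have hsq10 : 10 ≤ √X := by
    apply Real.le_sqrt_of_sq_le; norm_num; linarith
  have hlogX : 1 ≤ Real.log X := by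
    rw [Real.le_log_iff_exp_le hXpos]
    have := Real.exp_one_lt_d9
    linarith
  set P : ℕ := ⌊Y⌋₊ + 1 with hP
  have hYP : Y < P := by
    have := Nat.lt_floor_add_one Y
    rw [hP]; push_cast; exact this
  have hsP : √X < P := lt_of_le_of_lt hY1 hYP
  have hP10 : (10 : ℝ) ≤ P := by linarith
  have hP3 : 3 ≤ P := by
    have : (3 : ℝ) ≤ P := by linarith
    exact_mod_cast this
  have hPpos : (0 : ℝ) < P := by linarith
  have hXP : X ≤ (P : ℝ) ^ 2 := by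
    rw [← hsq]
    exact pow_le_pow_left₀ (Real.sqrt_nonneg _) hsP.le 2
  set S := Ioc ⌊Y⌋₊ ⌊2 * Y⌋₊ with hS
  have h2Y : ⌊2 * Y⌋₊ ≤ 2 * ⌊Y⌋₊ + 1 := by
    have h1 : (⌊2 * Y⌋₊ : ℝ) ≤ 2 * Y := Nat.floor_le (by linarith [Real.sqrt_nonneg X])
    have h2 : Y < ⌊Y⌋₊ + 1 := Nat.lt_floor_add_one Y
    have h3 : (⌊2 * Y⌋₊ : ℝ) < 2 * ⌊Y⌋₊ + 2 := by linarith
    have h4 : ⌊2 * Y⌋₊ < 2 * ⌊Y⌋₊ + 2 := by exact_mod_cast h3
    omega
  have hSmem : ∀ p ∈ S, P ≤ p ∧ p ≤ 2 * P := by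
    intro p hp
    rw [hS, mem_Ioc] at hp
    omega
  have hScard : (S.card : ℝ) ≤ P := by
    rw [hS, Nat.card_Ioc]
    have : ⌊2 * Y⌋₊ - ⌊Y⌋₊ ≤ P := by omega
    exact_mod_cast this
  set a : ℕ → ℂ := fun m => ((1 / (m : ℝ) : ℝ) : ℂ) * r m with ha
  have hsum : ∑ p ∈ S, ‖a p‖ ^ 2 ≤ 1 / P := by
    have a1 : ∀ p ∈ S, ‖a p‖ ^ 2 ≤ 1 / (P : ℝ) ^ 2 := by
      intro p hp
      obtain ⟨h4, _⟩ := hSmem p hp
      have h4' : (P : ℝ) ≤ p := by exact_mod_cast h4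
      refine (pow_le_pow_left₀ (norm_nonneg _) (MRF.norm_coef hr p) 2).trans ?_
      rw [div_pow, one_pow]
      exact one_div_le_one_div_of_le (by positivity) (pow_le_pow_left₀ hPpos.le h4' 2)
    refine (Finset.sum_le_sum a1).trans ?_
    rw [Finset.sum_const, nsmul_eq_mul, mul_one_div, div_le_div_iff₀ (by positivity) (by positivity)]
    nlinarith
  have hA : ∀ t : ℝ, AF r Y t = ∑ p ∈ S, a p * ee (-t) p := by
    intro t
    unfold AF
    refine Finset.sum_congr rfl fun p _ => ?_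
    rw [nt_eq_ee]
  -- one parity class
  have hclass : ∀ R' : Finset ℤ, R' ⊆ R → (∀ r ∈ R', ∀ s ∈ R', r ≠ s → 2 ≤ |r - s|) →
      ∑ i ∈ R', ‖AF r Y (τ i)‖ ^ 2 ≤ 2 * C := by
    intro R' hR' hpar
    obtain ⟨hsep, hc, hsumm⟩ := parity R' τ (fun r hr => hτ r (hR' hr)) hpar
      (fun t => ‖AF r Y t‖ ^ 2)
    rw [hsumm]
    set T := R'.image τ with hT
    have hTb : ∀ s ∈ T, |s| ≤ 2 * X + 1 := by
      intro s hs
      rw [hT, mem_image] at hs
      obtain ⟨i, hi, rfl⟩ := hs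
      have h1 := hR i (hR' hi)
      have h2 := hτ i (hR' hi)
      rw [abs_le] at h1 ⊢
      constructor
      · linarith [h2.1]
      · linarith [h2.2]
    have hTdist : ∀ s ∈ T, ∀ t ∈ T, |s - t| ≤ (P : ℝ) ^ (3 : ℝ) := by
      intro s hs t ht
      have h1 := hTb s hs
      have h2 := hTb t ht
      have h3 : |s - t| ≤ |s| + |t| := abs_sub s t
      have h4 : (P : ℝ) ^ (3 : ℝ) = (P : ℝ) ^ 2 * P := by
        rw [show (3 : ℝ) = ((3 : ℕ) : ℝ) by norm_num, Real.rpow_natCast]; ring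
      rw [h4]
      have h5 : X * 10 ≤ (P : ℝ) ^ 2 * P := mul_le_mul hXP hP10 (by norm_num) (by positivity)
      linarith
    have hTcard : (T.card : ℝ) ≤ (P : ℝ) ^ η := by
      have h1 : (T.card : ℝ) ≤ X ^ θ := by
        refine le_trans ?_ hcard
        exact_mod_cast hc.trans (Finset.card_le_card hR')
      refine h1.trans ?_
      have h2 : X ^ θ ≤ X ^ (η / 2) := Real.rpow_le_rpow_of_exponent_le hX1 hθ1
      have h3 : X ^ (η / 2) ≤ ((P : ℝ) ^ 2) ^ (η / 2) :=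
        Real.rpow_le_rpow hXpos.le hXP (by positivity)
      rw [← Real.rpow_natCast, ← Real.rpow_mul hPpos.le] at h3
      have e : ((2 : ℕ) : ℝ) * (η / 2) = η := by push_cast; ring
      rw [e] at h3
      exact h2.trans h3
    have hA1 := hcore P hP3 T hsep hTdist S hSmem a
    have hA2 : ∑ t ∈ T, ‖AF r Y t‖ ^ 2 = ∑ t ∈ T, ‖∑ p ∈ S, a p * ee (-t) p‖ ^ 2 :=
      Finset.sum_congr rfl fun t _ => by rw [hA t]
    rw [hA2]
    refine hA1.trans ?_
    have hB1 : (T.card : ℝ) * (P : ℝ) ^ (1 - η) ≤ P := by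
      refine (mul_le_mul_of_nonneg_right hTcard (by positivity)).trans (le_of_eq ?_)
      rw [← Real.rpow_add hPpos]
      have : η + (1 - η) = 1 := by ring
      rw [this, Real.rpow_one]
    have hB2 : C * (P + T.card * (P : ℝ) ^ (1 - η)) ≤ C * (2 * P) :=
      mul_le_mul_of_nonneg_left (by linarith) hC.le
    refine (mul_le_mul hB2 hsum (Finset.sum_nonneg fun p _ => sq_nonneg _) (by positivity)).trans
      (le_of_eq ?_)
    field_simp
  have hsplit : ∑ i ∈ R, ‖AF r Y (τ i)‖ ^ 2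
      = ∑ i ∈ R.filter (fun i => Even i), ‖AF r Y (τ i)‖ ^ 2
        + ∑ i ∈ R.filter (fun i => ¬ Even i), ‖AF r Y (τ i)‖ ^ 2 := by
    rw [Finset.sum_filter_add_sum_filter_not]
  have hpar2 : ∀ r s : ℤ, Even (r - s) → r ≠ s → 2 ≤ |r - s| := by
    intro r s hev hne
    obtain ⟨k, hk⟩ := hev
    have hk0 : k ≠ 0 := by rintro rfl; omega
    rw [hk]
    have : 1 ≤ |k| := Int.one_le_abs hk0
    have e : |k + k| = 2 * |k| := by
      rw [← two_mul, abs_mul]; norm_num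
    rw [e]; omega
  rw [hsplit]
  have h1 := hclass (R.filter (fun r => Even r)) (Finset.filter_subset _ _) (by
    intro r hr s hs hne
    rw [mem_filter] at hr hs
    exact hpar2 r s (hr.2.sub hs.2) hne)
  have h2 := hclass (R.filter (fun r => ¬ Even r)) (Finset.filter_subset _ _) (by
    intro r hr s hs hne
    rw [mem_filter, Int.not_even_iff_odd] at hr hs
    exact hpar2 r s (hr.2.sub_odd hs.2) hne)
  have e : 4 * C ≤ 4 * C * Real.log X := le_mul_of_one_le_right (by positivity) hlogX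
  linarith

end Pool.Agent.MR2
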