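import Pool.Agent.Lib.MRL.ZU
import Pool.Agent.Lib.MRL.VD
import Pool.Agent.Lib.VMV.Defs

/-!
# MR2, row ZV: `|ζ(1+a+iτ)| ≤ C (log(2+|τ|))^{4/5}` from the Vinogradov estimate `VMV.Zsum`.
helper65
-/

set_option autoImplicit false

namespace Pool.Agent.MR2

open Finset Complex Pool.Agent.MRL

noncomputable section

namespace ZV

theorem norm_nt_sum (S : Finset ℕ) (τ : ℝ) :
    ‖∑ n ∈ S, nt n τ‖ = ‖∑ n ∈ S, Complex.exp (((|τ| * Real.log n : ℝ)) * Complex.I)‖ := by
  rcases le_total 0 τ with h | h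
  · rw [abs_of_nonneg h]
    have h1 : ∑ n ∈ S, nt n τ =
        (starRingEnd ℂ) (∑ n ∈ S, Complex.exp (((τ * Real.log n : ℝ)) * Complex.I)) := by
      rw [map_sum]
      refine sum_congr rfl fun n _ => ?_
      rw [← Complex.exp_conj, map_mul, Complex.conj_I, Complex.conj_ofReal, nt]
      congr 1
      ring
    rw [h1, Complex.norm_conj]
  · rw [abs_of_nonpos h]
    congr 1
    refine sum_congr rfl fun n _ => ?_
    rw [nt]
    congr 1
    push_cast
    ring

/-- dyadic summation, all blocks with the same bound. -/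
theorem dyadic_count (z : ℕ → ℂ) {b : ℝ} (hb : 0 ≤ b) {M N : ℕ}
    (h : ∀ K K' : ℕ, M ≤ K → K < N → K ≤ K' → K' ≤ 2 * K → ‖∑ n ∈ Ioc K K', z n‖ ≤ b) :
    ∀ d K : ℕ, M ≤ K → N ≤ 2 ^ d * K → ‖∑ n ∈ Ioc K N, z n‖ ≤ d * b := by
  intro d
  induction d with
  | zero =>
    intro K _ hN
    rw [Ioc_eq_empty (by omega), sum_empty, norm_zero]
    simp
  | succ d ih =>
    intro K hMK hN
    have hd : (0 : ℝ) ≤ d * b := by positivity
    by_cases hKN : K < N
    · by_cases hN2 : N ≤ 2 * K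
      · have h1 := h K N hMK hKN hKN.le hN2
        push_cast
        linarith
      · push Not at hN2
        have e : ∑ n ∈ Ioc K N, z n = ∑ n ∈ Ioc K (2 * K), z n + ∑ n ∈ Ioc (2 * K) N, z n := by
          rw [← Finset.sum_union]
          · congr 1
            ext x; simp only [Finset.mem_Ioc, Finset.mem_union]; omega
          · rw [Finset.disjoint_left]
            intro x hx hx'
            simp only [Finset.mem_Ioc] at hx hx'
            omega
        rw [e]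
        refine (norm_add_le _ _).trans ?_
        have h4 := h K (2 * K) hMK hKN (by omega) le_rfl
        have h5 := ih (2 * K) (by omega) (by
          calc N ≤ 2 ^ (d + 1) * K := hN
            _ = 2 ^ d * (2 * K) := by ring)
        push_cast
        linarith
    · rw [Ioc_eq_empty hKN, sum_empty, norm_zero]
      positivity

/-- the saving in the middle range -/
theorem saving {c C0 t : ℝ} (hC : 1 ≤ C0) (hc : 0 < c) (ht : 2 ≤ t) {y : ℝ}
    (hy : C0 * (Real.log t) ^ (4 / 5 : ℝ) ≤ y) :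
    c * (Real.log t) ^ (2 / 5 : ℝ) ≤ c * y ^ 3 / (Real.log t) ^ 2 := by
  have hx : 0 < Real.log t := Real.log_pos (by linarith)
  have h1 : (Real.log t) ^ (4 / 5 : ℝ) ≤ y := by
    refine le_trans ?_ hy
    have : (0 : ℝ) ≤ (Real.log t) ^ (4 / 5 : ℝ) := by positivity
    nlinarith
  have h2 : (Real.log t) ^ (12 / 5 : ℝ) ≤ y ^ 3 := by
    calc (Real.log t) ^ (12 / 5 : ℝ) = ((Real.log t) ^ (4 / 5 : ℝ)) ^ (3 : ℕ) := by
          rw [← Real.rpow_natCast, ← Real.rpow_mul hx.le]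
          norm_num
      _ ≤ y ^ 3 := by gcongr
  have h3 : (Real.log t) ^ (12 / 5 : ℝ) = (Real.log t) ^ (2 / 5 : ℝ) * (Real.log t) ^ 2 := by
    rw [← Real.rpow_natCast (Real.log t) 2, ← Real.rpow_add hx]
    norm_num
  rw [le_div_iff₀ (by positivity)]
  rw [h3] at h2
  nlinarith

end ZV

open ZV ZU in
/-- **Row ZV** -/
theorem zetaV (hZ : VMV.Zsum) (hV : VDC) : ∃ C : ℝ, 0 < C ∧ ∀ a τ : ℝ, 0 < a → a ≤ 1 →
    1 / 2 ≤ |τ| → ‖riemannZeta (1 + a + τ * Complex.I)‖ ≤
      C * (Real.log (2 + |τ|)) ^ (4 / 5 : ℝ) := by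
  obtain ⟨c, C0, hc, hC0, hZ⟩ := hZ
  obtain ⟨C1, hC1, hup⟩ := zetaUp hV 1 one_pos
  obtain ⟨δ, hδ, CV, hCV, hVD⟩ := hV 1 le_rfl
  have h2 : (2 : ℝ) ^ (-δ) < 1 := Real.rpow_lt_one_of_one_lt_of_neg (by norm_num) (by linarith)
  set E : ℝ := CV / (1 - (2 : ℝ) ^ (-δ)) with hE
  have hE0 : 0 < E := div_pos hCV (by linarith)
  refine ⟨2 * (2 + C1) + (C0 + 8 * C0 / c + E + 60), by positivity, ?_⟩
  intro a τ ha ha1 hτ
  set L : ℝ := Real.log (2 + |τ|) with hL
  by_cases hτ2 : |τ| < 2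
  · -- small `τ`
    have h3 := hup a τ ha ha1 hτ
    have hL1 : L ≤ 2 := by
      calc L ≤ Real.log 4 := Real.log_le_log (by positivity) (by linarith)
        _ = 2 * Real.log 2 := by
            rw [show (4 : ℝ) = 2 ^ 2 by norm_num, Real.log_pow]
            norm_num
        _ ≤ 2 := by linarith [Real.log_two_lt_d9]
    have hL2 : 1 / 2 ≤ L := by
      calc (1 : ℝ) / 2 ≤ Real.log 2 := by linarith [Real.log_two_gt_d9]
        _ ≤ L := Real.log_le_log (by norm_num) (by linarith)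
    have hL3 : 1 / 2 ≤ L ^ (4 / 5 : ℝ) := by
      calc (1 : ℝ) / 2 = (1 / 2) ^ (1 : ℝ) := by rw [Real.rpow_one]
        _ ≤ (1 / 2 : ℝ) ^ (4 / 5 : ℝ) :=
            Real.rpow_le_rpow_of_exponent_ge (by norm_num) (by norm_num) (by norm_num)
        _ ≤ L ^ (4 / 5 : ℝ) := Real.rpow_le_rpow (by norm_num) hL2 (by norm_num)
    have h4 : 0 < C0 + 8 * C0 / c + E + 60 := by positivity
    calc ‖riemannZeta (1 + a + τ * Complex.I)‖ ≤ 1 * L + C1 := h3
      _ ≤ 2 + C1 := by linarith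
      _ ≤ (2 * (2 + C1)) * L ^ (4 / 5 : ℝ) := by nlinarith
      _ ≤ (2 * (2 + C1) + (C0 + 8 * C0 / c + E + 60)) * L ^ (4 / 5 : ℝ) := by
          gcongr
          linarith
  push Not at hτ2
  set t : ℝ := |τ| with ht
  have ht0 : 0 < t := by linarith
  have hx : 0 < Real.log t := Real.log_pos (by linarith)
  have hL1 : 1 ≤ L := by
    rw [hL, Real.le_log_iff_exp_le (by positivity)]
    have := Real.exp_one_lt_d9
    linarith
  have hxL : Real.log t ≤ L := Real.log_le_log ht0 (by linarith)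
  have hLx : L ≤ 2 * Real.log t := by
    have h3 : L ≤ Real.log (t ^ 2) := by
      apply Real.log_le_log (by positivity)
      nlinarith
    rw [Real.log_pow] at h3
    exact_mod_cast h3
  have hLp : 1 ≤ L ^ (4 / 5 : ℝ) := Real.one_le_rpow hL1 (by norm_num)
  -- lengths
  set N : ℕ := ⌈τ ^ 2⌉₊ with hN
  have hτt : τ ^ 2 = t ^ 2 := by rw [ht, sq_abs]
  have hN1 : 1 ≤ N := Nat.one_le_iff_ne_zero.mpr (by
    rw [hN]; exact (Nat.ceil_pos.mpr (by rw [hτt]; positivity)).ne')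
  have hN0 : (0 : ℝ) < N := by exact_mod_cast hN1
  have hNτ : t ^ 2 ≤ N := by rw [← hτt]; exact Nat.le_ceil _
  have h3 := zeta_sub_le ha ha1 hτ hN1
  have h4 : (t + 3) ^ 2 / N ≤ 49 := by
    rw [div_le_iff₀ hN0]
    nlinarith
  set M1 : ℕ := ⌈t⌉₊ with hM1
  have hM11 : 1 ≤ M1 := Nat.one_le_iff_ne_zero.mpr (Nat.ceil_pos.mpr ht0).ne'
  have hM1N : M1 ≤ N := Nat.ceil_le_ceil (by rw [hτt]; nlinarith)
  have htM1 : t ≤ M1 := Nat.le_ceil _
  have hM1t : (M1 : ℝ) ≤ 2 * t := by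
    have := Nat.ceil_lt_add_one ht0.le
    rw [← hM1] at this
    linarith
  set y : ℝ := Real.exp (C0 * (Real.log t) ^ (4 / 5 : ℝ)) with hy
  have hy1 : 1 ≤ y := Real.one_le_exp (by positivity)
  set M0 : ℕ := ⌈y⌉₊ with hM0
  have hM01 : 1 ≤ M0 := Nat.one_le_iff_ne_zero.mpr (Nat.ceil_pos.mpr (by linarith)).ne'
  have hyM : y ≤ M0 := Nat.le_ceil _
  have hM02 : (M0 : ℝ) ≤ 2 * y := by
    have := Nat.ceil_lt_add_one (by linarith : 0 ≤ y)
    rw [← hM0] at this
    linarith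
  have hlogM : Real.log M0 ≤ 1 + C0 * L ^ (4 / 5 : ℝ) := by
    calc Real.log M0 ≤ Real.log (2 * y) := Real.log_le_log (by exact_mod_cast hM01) hM02
      _ = Real.log 2 + C0 * (Real.log t) ^ (4 / 5 : ℝ) := by
          rw [Real.log_mul (by norm_num) (by linarith), hy, Real.log_exp]
      _ ≤ 1 + C0 * L ^ (4 / 5 : ℝ) := by
          have : (Real.log t) ^ (4 / 5 : ℝ) ≤ L ^ (4 / 5 : ℝ) :=
            Real.rpow_le_rpow hx.le hxL (by norm_num)
          have := Real.log_two_lt_d9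
          nlinarith
  -- the middle range
  set b : ℝ := C0 * Real.exp (-(c * (Real.log t) ^ (2 / 5 : ℝ))) with hb
  have hb0 : 0 < b := by positivity
  have hmid : ∀ K K' : ℕ, M0 ≤ K → K < M1 → K ≤ K' → K' ≤ 2 * K →
      ‖∑ n ∈ Ioc K K', (n : ℂ) ^ (-(1 + a + τ * Complex.I))‖ ≤ b := by
    intro K K' hMK hKM hKK' hK'
    have hK0 : (0 : ℝ) < K := by exact_mod_cast (by omega : 0 < K)
    have hKt : (K : ℝ) ≤ t := (Nat.lt_ceil.mp hKM).le
    have hyK : y ≤ K := hyM.trans (by exact_mod_cast hMK)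
    have hlK : C0 * (Real.log t) ^ (4 / 5 : ℝ) ≤ Real.log K := by
      rw [Real.le_log_iff_exp_le hK0]
      exact hyK
    refine (block (B := C0 * K * Real.exp (-(c * (Real.log t) ^ (2 / 5 : ℝ)))) ha (by omega) hKK'
      ?_).trans (le_of_eq ?_)
    · intro n hKn hn
      rw [norm_nt_sum]
      refine (hZ K n t hτ2 hKn (by omega) hKt hlK).trans ?_
      gcongr
      exact saving hC0 hc hτ2 hlK
    · rw [hb]
      field_simp
  set d : ℕ := ⌈2 * Real.log t⌉₊ + 1 with hd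
  have hdle : (d : ℝ) ≤ 2 * Real.log t + 2 := by
    have := Nat.ceil_lt_add_one (by positivity : 0 ≤ 2 * Real.log t)
    rw [hd]
    push_cast
    linarith
  have hM1d : M1 ≤ 2 ^ d := by
    have h5 : (M1 : ℝ) ≤ 2 ^ d := by
      calc (M1 : ℝ) ≤ 2 * t := hM1t
        _ = 2 * Real.exp (Real.log t) := by rw [Real.exp_log ht0]
        _ ≤ 2 * Real.exp (Real.log 2 * (⌈2 * Real.log t⌉₊ : ℝ)) := by
            gcongr
            have h6 : 2 * Real.log t ≤ (⌈2 * Real.log t⌉₊ : ℝ) := Nat.le_ceil _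
            have h7 := Real.log_two_gt_d9
            nlinarith
        _ = 2 ^ d := by
            rw [hd, pow_succ, mul_comm (Real.log 2), Real.exp_nat_mul,
              Real.exp_log (by norm_num), mul_comm]
    exact_mod_cast h5
  have hbd : (d : ℝ) * b ≤ 8 * C0 / c * L ^ (4 / 5 : ℝ) := by
    have hL0 : (0 : ℝ) < L := by linarith
    have h5 : (d : ℝ) ≤ 4 * L := by linarith
    have h6 : L ^ (2 / 5 : ℝ) ≤ 2 * (Real.log t) ^ (2 / 5 : ℝ) := by
      calc L ^ (2 / 5 : ℝ) ≤ (2 * Real.log t) ^ (2 / 5 : ℝ) :=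
            Real.rpow_le_rpow hL0.le hLx (by norm_num)
        _ = 2 ^ (2 / 5 : ℝ) * (Real.log t) ^ (2 / 5 : ℝ) := Real.mul_rpow (by norm_num) hx.le
        _ ≤ 2 * (Real.log t) ^ (2 / 5 : ℝ) := by
            gcongr
            calc (2 : ℝ) ^ (2 / 5 : ℝ) ≤ 2 ^ (1 : ℝ) :=
                  Real.rpow_le_rpow_of_exponent_le (by norm_num) (by norm_num)
              _ = 2 := Real.rpow_one _
    set z : ℝ := c * (Real.log t) ^ (2 / 5 : ℝ) with hz
    have hz0 : 0 < z := by positivity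
    have h7 : Real.exp (-z) ≤ 1 / z := by
      rw [Real.exp_neg, one_div]
      apply inv_anti₀ hz0
      linarith [Real.add_one_le_exp z]
    have h8 : 1 / z ≤ 2 / (c * L ^ (2 / 5 : ℝ)) := by
      rw [div_le_div_iff₀ hz0 (by positivity), hz]
      nlinarith
    calc (d : ℝ) * b ≤ 4 * L * (C0 * (2 / (c * L ^ (2 / 5 : ℝ)))) := by
          rw [hb]
          gcongr
          exact h7.trans h8
      _ = 8 * C0 / c * (L / L ^ (2 / 5 : ℝ)) := by
          field_simp
          ring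
      _ = 8 * C0 / c * L ^ (3 / 5 : ℝ) := by
          congr 1
          rw [div_eq_iff (by positivity), ← Real.rpow_add hL0]
          norm_num
      _ ≤ 8 * C0 / c * L ^ (4 / 5 : ℝ) :=
          mul_le_mul_of_nonneg_left (Real.rpow_le_rpow_of_exponent_le hL1 (by norm_num))
            (by positivity)
  have hsum : ‖∑ n ∈ Finset.Icc 1 N, (n : ℂ) ^ (-(1 + a + τ * Complex.I))‖
      ≤ 2 + C0 * L ^ (4 / 5 : ℝ) + 8 * C0 / c * L ^ (4 / 5 : ℝ) + E := by
    set z : ℕ → ℂ := fun n => (n : ℂ) ^ (-(1 + a + τ * Complex.I)) with hz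
    have s1 : ∀ A B : ℕ, A ≤ B → ∑ n ∈ Icc 1 B, z n = ∑ n ∈ Icc 1 A, z n + ∑ n ∈ Ioc A B, z n := by
      intro A B hAB
      rw [← Finset.sum_union]
      · congr 1
        ext x; simp only [Finset.mem_Ioc, Finset.mem_Icc, Finset.mem_union]; omega
      · rw [Finset.disjoint_left]
        intro x hx hx'
        simp only [Finset.mem_Ioc, Finset.mem_Icc] at hx hx'
        omega
    -- up to `M1`
    have hA : ‖∑ n ∈ Icc 1 M1, z n‖ ≤ 2 + C0 * L ^ (4 / 5 : ℝ) + 8 * C0 / c * L ^ (4 / 5 : ℝ) := by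
      by_cases hM : M0 ≤ M1
      · rw [s1 M0 M1 hM]
        refine (norm_add_le _ _).trans ?_
        have h5 := head a τ ha M0
        have h6 := dyadic_count z hb0.le hmid d M0 le_rfl (hM1d.trans (by nlinarith))
        linarith
      · push Not at hM
        have h5 := head a τ ha M1
        have h6 : Real.log M1 ≤ Real.log M0 :=
          Real.log_le_log (by exact_mod_cast hM11) (by exact_mod_cast hM.le)
        have h7 : 0 ≤ 8 * C0 / c * L ^ (4 / 5 : ℝ) := by positivity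
        linarith
    -- from `M1` to `N`
    have hB : ‖∑ n ∈ Ioc M1 N, z n‖ ≤ E := by
      by_cases hMN : M1 < N
      · have h6 := dyadic (a := a) (τ := τ) (C := CV) (δ := δ) ha hCV hδ (M := M1) (N := N) hM11 ?_
          (N - M1) M1 le_rfl hMN le_rfl
        · have h7 : (M1 : ℝ) ^ (-δ) ≤ 1 :=
            Real.rpow_le_one_of_one_le_of_nonpos (by exact_mod_cast hM11) (by linarith)
          have h8 : E * (M1 : ℝ) ^ (-δ) ≤ E := by nlinarith
          exact h6.trans h8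
        · intro K N' hMK hKN hN'
          have hK1 : 1 ≤ K := by omega
          refine hVD K N' hK1 hN' τ ?_ ?_
          · have h9 : (K : ℝ) < τ ^ 2 := Nat.lt_ceil.mp hKN
            rw [← sq_abs] at h9
            exact Real.sqrt_le_iff.mpr ⟨ht0.le, h9.le⟩
          · rw [Real.rpow_one]
            exact htM1.trans (by exact_mod_cast hMK)
      · rw [Ioc_eq_empty hMN, sum_empty, norm_zero]
        exact hE0.le
    rw [s1 M1 N hM1N]
    refine (norm_add_le _ _).trans ?_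
    linarith
  have h12 : ‖riemannZeta (1 + a + τ * Complex.I)‖
      ≤ ‖∑ n ∈ Finset.Icc 1 N, (n : ℂ) ^ (-(1 + a + τ * Complex.I))‖
        + ‖riemannZeta (1 + a + τ * Complex.I)
          - ∑ n ∈ Finset.Icc 1 N, (n : ℂ) ^ (-(1 + a + τ * Complex.I))‖ := by
    have := norm_add_le (∑ n ∈ Finset.Icc 1 N, (n : ℂ) ^ (-(1 + a + τ * Complex.I)))
      (riemannZeta (1 + a + τ * Complex.I)
          - ∑ n ∈ Finset.Icc 1 N, (n : ℂ) ^ (-(1 + a + τ * Complex.I)))
    rwa [add_sub_cancel] at this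
  have h13 : ‖riemannZeta (1 + a + τ * Complex.I)‖ ≤
      (C0 + 8 * C0 / c) * L ^ (4 / 5 : ℝ) + (E + 54) := by linarith
  have h14 : (E + 54) ≤ (E + 60) * L ^ (4 / 5 : ℝ) := by nlinarith
  have h15 : 0 ≤ 2 * (2 + C1) * L ^ (4 / 5 : ℝ) := by positivity
  linarith

end

end Pool.Agent.MR2
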