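import Pool.Agent.Lib.MR2.Defs
import Pool.Agent.Lib.MRF.AU

/-! TANK MR2, row AU: the mean square of the main term over a set covered by few unit intervals.
helper26 (after helper71's MRF/AU). -/

set_option autoImplicit false

namespace Pool.Agent.MR2

open Finset MeasureTheory Pool.Agent.MRL Pool.Agent.MRF Pool.Agent.MRHal

namespace AU

/-- integral over a set covered by unit intervals. -/
theorem int_cover {F : ℝ → ℝ} (hF : Continuous F) (hF0 : ∀ t, 0 ≤ F t) {B : ℝ} (R : Finset ℤ)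
    (hR : ∀ τ : ℤ → ℝ, (∀ i ∈ R, τ i ∈ Set.Icc (i : ℝ) (i + 1)) → ∑ i ∈ R, F (τ i) ≤ B)
    (E : Set ℝ) (hE : MeasurableSet E) (hcov : ∀ t ∈ E, ∃ i ∈ R, t ∈ Set.Icc (i : ℝ) (i + 1)) :
    ∫ t in E, F t ≤ B := by
  have hmax : ∀ i : ℤ, ∃ x ∈ Set.Icc (i : ℝ) (i + 1),
      ∀ t ∈ Set.Icc (i : ℝ) (i + 1), F t ≤ F x := by
    intro i
    have h := isCompact_Icc.exists_isMaxOn (s := Set.Icc (i : ℝ) (i + 1))
      ⟨i, Set.left_mem_Icc.mpr (by linarith)⟩ hF.continuousOn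
    obtain ⟨x, hx, hmax⟩ := h
    exact ⟨x, hx, fun t ht => hmax ht⟩
  choose τ hτ hτmax using hmax
  set G : ℝ → ℝ := fun t => ∑ i ∈ R, (Set.Icc (i : ℝ) (i + 1)).indicator
    (fun _ => F (τ i)) t with hG
  have hG0 : ∀ t, 0 ≤ G t := fun t =>
    Finset.sum_nonneg fun i _ => Set.indicator_nonneg (fun _ _ => hF0 _) _
  have hGi : ∀ i ∈ R, Integrable ((Set.Icc (i : ℝ) (i + 1)).indicator
      (fun _ => F (τ i))) := by
    intro i _
    rw [integrable_indicator_iff measurableSet_Icc]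
    exact integrableOn_const (by simp)
  have hGint : Integrable G := integrable_finsetSum _ hGi
  have hpt : ∀ t ∈ E, F t ≤ G t := by
    intro t ht
    obtain ⟨i, hi, hti⟩ := hcov t ht
    calc F t ≤ F (τ i) := hτmax i t hti
      _ = (Set.Icc (i : ℝ) (i + 1)).indicator (fun _ => F (τ i)) t := by
          rw [Set.indicator_of_mem hti]
      _ ≤ G t := Finset.single_le_sum (f := fun i : ℤ => (Set.Icc (i : ℝ) (i + 1)).indicator
          (fun _ => F (τ i)) t)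
          (fun i _ => Set.indicator_nonneg (fun _ _ => hF0 _) _) hi
  calc ∫ t in E, F t ≤ ∫ t in E, G t := by
        refine integral_mono_of_nonneg ?_ hGint.integrableOn ?_
        · exact Filter.Eventually.of_forall fun t => hF0 t
        · exact (ae_restrict_iff' hE).mpr (Filter.Eventually.of_forall hpt)
    _ ≤ ∫ t, G t := setIntegral_le_integral hGint (Filter.Eventually.of_forall hG0)
    _ = ∑ i ∈ R, F (τ i) := by
        rw [hG, integral_finsetSum _ hGi]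
        refine Finset.sum_congr rfl fun i _ => ?_
        rw [integral_indicator measurableSet_Icc, setIntegral_const]
        simp
    _ ≤ B := hR τ fun i _ => hτ i

end AU

/-- ROW AU. -/
theorem aur (hLL : LargeL) (hHI : HMInt) (hSP : SPV) : AUR := by
  classical
  obtain ⟨θ, hθ, hθ1, C1, hC1, X1, hHI⟩ := hHI
  refine ⟨θ, hθ, hθ1, ?_⟩
  intro ε hε hε8
  obtain ⟨X2, hLL⟩ := hLL ε hε hε8
  obtain ⟨C2, hC2, X3, hSP⟩ := hSP ε hε hε8
  refine ⟨C1 + 2 * C2, by positivity, max (max X1 X2) (max X3 3), ?_⟩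
  intro X T hX hT f hf r hr H v1 v2 hH hHv1 hv12 hL hv2 E R hE hEX hRX hRc hcov ρ hρ hρA
  have hXa := le_trans (le_max_left (max X1 X2) (max X3 3)) hX
  have hXb := le_trans (le_max_right (max X1 X2) (max X3 3)) hX
  have hX1 : X1 ≤ X := le_trans (le_max_left _ _) hXa
  have hX2 : X2 ≤ X := le_trans (le_max_right _ _) hXa
  have hX3 : X3 ≤ X := le_trans (le_max_left _ _) hXb
  have hX4 : 3 ≤ X := le_trans (le_max_right _ _) hXb
  have hX0 : 0 < X := by linarith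
  have hl1 : 1 ≤ Real.log X := by
    rw [Real.le_log_iff_exp_le hX0]
    have := Real.exp_one_lt_d9
    linarith
  obtain ⟨l, hl⟩ : ∃ l : ℝ, l = Real.log X := ⟨_, rfl⟩
  rw [← hl] at hl1 hL
  have hl0 : 0 < l := by linarith
  have hH0 : (0 : ℝ) < H := by exact_mod_cast hH
  -- one `v`
  have hmain : ∀ v ∈ Ico v1 v2, ∫ t in E, ‖QF f H v t‖ ^ 2 *
      ‖AF (r v) (X * Real.exp (-((v : ℝ) / H))) t‖ ^ 2 ≤
      C1 * l ^ (-(19 : ℝ)) + ρ ^ 2 * (C2 * (H : ℝ) ^ 2) * ((v : ℝ) ^ 2)⁻¹ := by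
    intro v hv
    have hv' := Finset.mem_Ico.mp hv
    have hv0 : (0 : ℝ) < v := by
      have : 0 < v := by omega
      exact_mod_cast this
    have hHv : H ≤ v := by omega
    have hvr1 : (v1 : ℝ) ≤ v := by exact_mod_cast hv'.1
    have hvr2 : (v : ℝ) + 1 ≤ v2 := by exact_mod_cast hv'.2
    have hev1 : Real.exp (((v : ℝ) + 1) / H) ≤ √X := by
      refine le_trans ?_ hv2
      rw [Real.exp_le_exp]
      gcongr
    have hev : Real.exp ((v : ℝ) / H) ≤ √X := by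
      refine le_trans ?_ hev1
      rw [Real.exp_le_exp]
      gcongr
      linarith
    obtain ⟨Y, hY⟩ : ∃ Y : ℝ, Y = X * Real.exp (-((v : ℝ) / H)) := ⟨_, rfl⟩
    have hYX : Y ≤ X := by
      rw [hY]
      have : Real.exp (-((v : ℝ) / H)) ≤ 1 := Real.exp_le_one_iff.mpr (by
        have : 0 ≤ (v : ℝ) / H := by positivity
        linarith)
      nlinarith
    have hYs : √X ≤ Y := by
      rw [hY, Real.exp_neg, ← div_eq_mul_inv, le_div_iff₀ (Real.exp_pos _)]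
      calc √X * Real.exp ((v : ℝ) / H) ≤ √X * √X := by gcongr
        _ = X := Real.mul_self_sqrt hX0.le
    rw [← hY]
    have hcont : Continuous fun t => ‖QF f H v t‖ ^ 2 * ‖AF (r v) Y t‖ ^ 2 :=
      ((continuous_QF f H v).norm.pow 2).mul ((continuous_AF (r v) Y).norm.pow 2)
    refine AU.int_cover hcont (fun t => by positivity) R ?_ E hE hcov
    intro τ hτ
    have hτX : ∀ i ∈ R, |τ i| ≤ 2 * X + 1 := by
      intro i hi
      have h1 := hRX i hi
      have h2 := hτ i hi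
      rw [abs_le] at h1 ⊢
      constructor
      · linarith [h2.1, h1.1]
      · linarith [h2.2, h1.2]
    rw [← Finset.sum_filter_add_sum_filter_not R (fun i => ‖QF f H v (τ i)‖ ≤ l ^ (-(10 : ℝ)))]
    refine add_le_add ?_ ?_
    · -- the small values
      have h1 : ∑ i ∈ R.filter (fun i => ‖QF f H v (τ i)‖ ≤ l ^ (-(10 : ℝ))),
          ‖AF (r v) Y (τ i)‖ ^ 2 ≤ C1 * Real.log X := by
        refine hHI X hX1 (r v) (hr v) Y hYs hYX _ τ ?_ ?_ ?_
        · intro i hi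
          exact hRX i (Finset.mem_filter.mp hi).1
        · refine le_trans ?_ hRc
          exact_mod_cast Finset.card_le_card (Finset.filter_subset _ _)
        · intro i hi
          exact hτ i (Finset.mem_filter.mp hi).1
      have h2 : (l ^ (-(10 : ℝ))) ^ 2 * (C1 * l) = C1 * l ^ (-(19 : ℝ)) := by
        have h3 : (l ^ (-(10 : ℝ))) ^ 2 * l = l ^ (-(19 : ℝ)) := by
          rw [← Real.rpow_natCast (l ^ (-(10 : ℝ))) 2, ← Real.rpow_mul hl0.le]
          conv_lhs => rw [← Real.rpow_one l]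
          rw [← Real.rpow_mul hl0.le, ← Real.rpow_add hl0]
          congr 1
          push_cast
          norm_num
        rw [← h3]
        ring
      rw [← h2]
      rw [← hl] at h1
      calc ∑ i ∈ R.filter (fun i => ‖QF f H v (τ i)‖ ≤ l ^ (-(10 : ℝ))),
            ‖QF f H v (τ i)‖ ^ 2 * ‖AF (r v) Y (τ i)‖ ^ 2
          ≤ ∑ i ∈ R.filter (fun i => ‖QF f H v (τ i)‖ ≤ l ^ (-(10 : ℝ))),
            (l ^ (-(10 : ℝ))) ^ 2 * ‖AF (r v) Y (τ i)‖ ^ 2 := by
            refine Finset.sum_le_sum fun i hi => ?_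
            have h4 := (Finset.mem_filter.mp hi).2
            gcongr
        _ = (l ^ (-(10 : ℝ))) ^ 2 * ∑ i ∈ R.filter (fun i => ‖QF f H v (τ i)‖ ≤ l ^ (-(10 : ℝ))),
            ‖AF (r v) Y (τ i)‖ ^ 2 := by rw [Finset.mul_sum]
        _ ≤ (l ^ (-(10 : ℝ))) ^ 2 * (C1 * l) := by gcongr
    · -- the large values
      have hvH : l ^ (1 - ε) ≤ (v : ℝ) / H := hL.trans (by gcongr)
      have hcard : (((R.filter (fun i => ¬ ‖QF f H v (τ i)‖ ≤ l ^ (-(10 : ℝ)))).card : ℕ) : ℝ)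
          ≤ Real.exp (l ^ (2 * ε)) := by
        rw [hl]
        rw [hl] at hvH
        refine hLL X hX2 f hf H v hH hHv hvH hev1 _ ?_ ?_
        · intro i hi
          exact hRX i (Finset.mem_filter.mp hi).1
        · intro i hi
          have h4 := Finset.mem_filter.mp hi
          exact ⟨τ i, hτ i h4.1, (not_le.mp h4.2).le⟩
      have hcard2 : (((R.filter (fun i => ¬ ‖QF f H v (τ i)‖ ≤ l ^ (-(10 : ℝ)))).card : ℕ) : ℝ)
          ≤ Real.exp (l ^ (1 - 4 * ε)) := by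
        refine hcard.trans ?_
        rw [Real.exp_le_exp]
        exact Real.rpow_le_rpow_of_exponent_le hl1 (by linarith)
      have h5 : ∑ i ∈ R.filter (fun i => ¬ ‖QF f H v (τ i)‖ ≤ l ^ (-(10 : ℝ))),
          ‖QF f H v (τ i)‖ ^ 2 ≤ C2 / ((v : ℝ) / H) ^ 2 := by
        rw [hl] at hcard2 hvH ⊢
        refine hSP X hX3 f hf H v hH hHv hvH hev1 _ τ ?_ hcard2 ?_
        · intro i hi
          exact hRX i (Finset.mem_filter.mp hi).1
        · intro i hi
          exact hτ i (Finset.mem_filter.mp hi).1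
      calc ∑ i ∈ R.filter (fun i => ¬ ‖QF f H v (τ i)‖ ≤ l ^ (-(10 : ℝ))),
            ‖QF f H v (τ i)‖ ^ 2 * ‖AF (r v) Y (τ i)‖ ^ 2
          ≤ ∑ i ∈ R.filter (fun i => ¬ ‖QF f H v (τ i)‖ ≤ l ^ (-(10 : ℝ))),
            ρ ^ 2 * ‖QF f H v (τ i)‖ ^ 2 := by
            refine Finset.sum_le_sum fun i hi => ?_
            have h4 := (Finset.mem_filter.mp hi).1
            have h6 := hρA v hv (τ i) (hτX i h4)
            rw [← hY] at h6
            rw [mul_comm (ρ ^ 2)]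
            gcongr
        _ = ρ ^ 2 * ∑ i ∈ R.filter (fun i => ¬ ‖QF f H v (τ i)‖ ≤ l ^ (-(10 : ℝ))),
            ‖QF f H v (τ i)‖ ^ 2 := by rw [Finset.mul_sum]
        _ ≤ ρ ^ 2 * (C2 / ((v : ℝ) / H) ^ 2) := by gcongr
        _ = ρ ^ 2 * (C2 * (H : ℝ) ^ 2) * ((v : ℝ) ^ 2)⁻¹ := by
            field_simp
  -- the sum over `v`
  have hsub : E ⊆ Set.Icc (-X) X := fun t ht => abs_le.mp (hEX t ht)
  have hQi : ∀ v ∈ Ico v1 v2, IntegrableOn
      (fun t => (v2 : ℝ) * (‖QF f H v t‖ ^ 2 *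
        ‖AF (r v) (X * Real.exp (-((v : ℝ) / H))) t‖ ^ 2)) E := by
    intro v _
    refine IntegrableOn.mono_set ?_ hsub
    exact (continuous_const.mul (((continuous_QF f H v).norm.pow 2).mul
      ((continuous_AF (r v) _).norm.pow 2))).integrableOn_Icc
  have hpt : ∀ t ∈ E, ‖SR f r X H v1 v2 t‖ ^ 2 * g T t ≤
      ∑ v ∈ Ico v1 v2, (v2 : ℝ) * (‖QF f H v t‖ ^ 2 *
        ‖AF (r v) (X * Real.exp (-((v : ℝ) / H))) t‖ ^ 2) := by
    intro t ht
    have hs : ‖SR f r X H v1 v2 t‖ ^ 2 ≤ ∑ v ∈ Ico v1 v2, (v2 : ℝ) * (‖QF f H v t‖ ^ 2 *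
        ‖AF (r v) (X * Real.exp (-((v : ℝ) / H))) t‖ ^ 2) := by
      unfold SR
      calc ‖∑ v ∈ Ico v1 v2, QF f H v t * AF (r v) (X * Real.exp (-((v : ℝ) / H))) t‖ ^ 2
          ≤ (∑ v ∈ Ico v1 v2, ‖QF f H v t * AF (r v) (X * Real.exp (-((v : ℝ) / H))) t‖) ^ 2 :=
            pow_le_pow_left₀ (norm_nonneg _) (norm_sum_le _ _) 2
        _ ≤ (Ico v1 v2).card * ∑ v ∈ Ico v1 v2,
              ‖QF f H v t * AF (r v) (X * Real.exp (-((v : ℝ) / H))) t‖ ^ 2 :=
            sq_sum_le_card_mul_sum_sq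
        _ ≤ (v2 : ℝ) * ∑ v ∈ Ico v1 v2, (‖QF f H v t‖ ^ 2 *
              ‖AF (r v) (X * Real.exp (-((v : ℝ) / H))) t‖ ^ 2) := by
            have hcard : (((Ico v1 v2).card : ℕ) : ℝ) ≤ v2 := by
              rw [Nat.card_Ico]
              exact_mod_cast Nat.sub_le _ _
            refine mul_le_mul hcard (Finset.sum_le_sum fun v hv' => ?_) (by positivity)
              (by positivity)
            rw [norm_mul, mul_pow]
        _ = _ := by
            rw [Finset.mul_sum]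
    calc ‖SR f r X H v1 v2 t‖ ^ 2 * g T t ≤ ‖SR f r X H v1 v2 t‖ ^ 2 * 1 :=
          mul_le_mul_of_nonneg_left (g_le_one T t) (by positivity)
      _ ≤ _ := by rw [mul_one]; exact hs
  have hv10 : (0 : ℝ) < v1 := by
    have : 0 < v1 := by omega
    exact_mod_cast this
  have hinv : ∑ v ∈ Ico v1 v2, ((v : ℝ) ^ 2)⁻¹ ≤ 2 / v1 := by
    have h7 := sum_Ioo_inv_sq_le (α := ℝ) (v1 - 1) v2
    have h8 : Ico v1 v2 = Ioo (v1 - 1) v2 := by
      ext x
      simp only [Finset.mem_Ico, Finset.mem_Ioo]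
      omega
    rw [h8]
    refine h7.trans (le_of_eq ?_)
    have h9 : ((v1 - 1 : ℕ) : ℝ) + 1 = v1 := by
      have : v1 - 1 + 1 = v1 := by omega
      exact_mod_cast this
    rw [h9]
  calc ∫ t in E, ‖SR f r X H v1 v2 t‖ ^ 2 * g T t
      ≤ ∫ t in E, ∑ v ∈ Ico v1 v2, (v2 : ℝ) * (‖QF f H v t‖ ^ 2 *
        ‖AF (r v) (X * Real.exp (-((v : ℝ) / H))) t‖ ^ 2) := by
        refine integral_mono_of_nonneg ?_ (integrable_finsetSum _ hQi) ?_
        · exact Filter.Eventually.of_forall fun t => by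
            have := g_pos T t
            positivity
        · exact (ae_restrict_iff' hE).mpr (Filter.Eventually.of_forall hpt)
    _ = ∑ v ∈ Ico v1 v2, (v2 : ℝ) * ∫ t in E, (‖QF f H v t‖ ^ 2 *
        ‖AF (r v) (X * Real.exp (-((v : ℝ) / H))) t‖ ^ 2) := by
        rw [integral_finsetSum _ hQi]
        exact Finset.sum_congr rfl fun v _ => integral_const_mul _ _
    _ ≤ ∑ v ∈ Ico v1 v2, (v2 : ℝ) * (C1 * l ^ (-(19 : ℝ)) +
        ρ ^ 2 * (C2 * (H : ℝ) ^ 2) * ((v : ℝ) ^ 2)⁻¹) := by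
        refine Finset.sum_le_sum fun v hv' => ?_
        exact mul_le_mul_of_nonneg_left (hmain v hv') (by positivity)
    _ = (v2 : ℝ) * (((v2 - v1 : ℕ) : ℝ) * (C1 * l ^ (-(19 : ℝ))) +
        ρ ^ 2 * (C2 * (H : ℝ) ^ 2) * ∑ v ∈ Ico v1 v2, ((v : ℝ) ^ 2)⁻¹) := by
        rw [← Finset.mul_sum, Finset.sum_add_distrib, Finset.sum_const, Nat.card_Ico,
          nsmul_eq_mul, Finset.mul_sum]
    _ ≤ (v2 : ℝ) * ((v2 : ℝ) * (C1 * l ^ (-(19 : ℝ))) +
        ρ ^ 2 * (C2 * (H : ℝ) ^ 2) * (2 / v1)) := by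
        have hc : ((v2 - v1 : ℕ) : ℝ) ≤ v2 := by exact_mod_cast Nat.sub_le _ _
        gcongr
    _ = C1 * ((v2 : ℝ) ^ 2 * l ^ (-(19 : ℝ))) +
        2 * C2 * (ρ ^ 2 * (H : ℝ) ^ 2 * ((v2 : ℝ) / v1)) := by
        field_simp
    _ ≤ (C1 + 2 * C2) * ((v2 : ℝ) ^ 2 * l ^ (-(19 : ℝ))
        + ρ ^ 2 * (H : ℝ) ^ 2 * ((v2 : ℝ) / v1)) := by
        have h10 : 0 ≤ (v2 : ℝ) ^ 2 * l ^ (-(19 : ℝ)) := by positivity
        have h11 : 0 ≤ ρ ^ 2 * (H : ℝ) ^ 2 * ((v2 : ℝ) / v1) := by positivity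
        nlinarith
    _ = _ := by rw [hl]

end Pool.Agent.MR2
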