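import Pool.Agent.Lib.MR2.StatL
import Pool.Agent.Lib.MRAP.End

/-! # TANK MR2, row EN2: the end of the argument with powers of the logarithm (helper69) -/

set_option autoImplicit false

namespace Pool.Agent.MR2

open Finset Filter Topology Pool.Agent.MRL

/-- Powers of the logarithm beat constants. -/
theorem eventually_pow_log {α β : ℝ} (h : α < β) (K : ℝ) :
    ∀ᶠ t : ℝ in atTop, K * Real.log t ^ α ≤ Real.log t ^ β := by
  have h1 : Tendsto (fun x : ℝ => x ^ (β - α)) atTop atTop := tendsto_rpow_atTop (by linarith)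
  have h2 := h1.comp Real.tendsto_log_atTop
  filter_upwards [h2.eventually_ge_atTop K, eventually_gt_atTop (Real.exp 1)] with t ht ht1
  have h3 : 0 < Real.log t := by
    have : 1 < Real.log t := by
      rw [Real.lt_log_iff_exp_lt (lt_trans (Real.exp_pos 1) ht1)]
      exact ht1
    linarith
  have h4 : Real.log t ^ β = Real.log t ^ (β - α) * Real.log t ^ α := by
    rw [← Real.rpow_add h3]; congr 1; ring
  rw [h4]
  exact mul_le_mul_of_nonneg_right ht (Real.rpow_pos_of_pos h3 _).le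

/-- `log t` beats powers: `(log t) ^ α ≤ √t`. -/
theorem eventually_log_sqrt (α K : ℝ) : ∀ᶠ t : ℝ in atTop, K * Real.log t ^ α ≤ √t := by
  have h1 : (fun x : ℝ => Real.log x ^ α) =o[atTop] fun x => x ^ (1 / 2 : ℝ) :=
    isLittleO_log_rpow_rpow_atTop α (by norm_num)
  have h2 := h1.bound (c := 1 / (|K| + 1)) (by positivity)
  filter_upwards [h2, eventually_gt_atTop (Real.exp 1)] with t ht ht1
  have h3 : 0 < Real.log t := by
    have : 1 < Real.log t := by
      rw [Real.lt_log_iff_exp_lt (lt_trans (Real.exp_pos 1) ht1)]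
      exact ht1
    linarith
  have ht0 : 0 < t := lt_trans (Real.exp_pos 1) ht1
  rw [Real.norm_of_nonneg (Real.rpow_pos_of_pos h3 _).le,
    Real.norm_of_nonneg (Real.rpow_pos_of_pos ht0 _).le, ← Real.sqrt_eq_rpow] at ht
  have h4 : 0 ≤ Real.log t ^ α := (Real.rpow_pos_of_pos h3 _).le
  calc K * Real.log t ^ α ≤ (|K| + 1) * Real.log t ^ α := by
        apply mul_le_mul_of_nonneg_right _ h4
        linarith [le_abs_self K]
    _ ≤ (|K| + 1) * (1 / (|K| + 1) * √t) := mul_le_mul_of_nonneg_left ht (by positivity)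
    _ = √t := by field_simp

/-- The core: no interval with constant `lam` on a coprime class. -/
theorem core2 (hL : Link2) {ω κ : ℝ} (hκ0 : 0 < κ) (hκ1 : κ ≤ 1 / 100) (hω : 2 * κ < ω)
    (hNR : NoRuns2 ω) (q a : ℕ) (hq : 1 ≤ q) (ha : a.Coprime q) :
    ∀ᶠ t : ℝ in atTop, ¬ ConstA q a t (Real.log t ^ (-κ) * √t) := by
  obtain ⟨T0, hT0⟩ := hL q a κ hq hκ0 hκ1
  obtain ⟨X0, hX0⟩ := hNR q a hq ha
  have hq0 : (1 : ℝ) ≤ q := by exact_mod_cast hq
  have hqp : (0 : ℝ) < q := by linarith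
  have hω0 : 0 < ω := by linarith
  filter_upwards [eventually_ge_atTop T0, eventually_ge_atTop (max 1 X0 ^ 2),
    eventually_gt_atTop (Real.exp 1),
    eventually_pow_log (α := 1 / 8) (β := 1 / 4 - 2 * κ) (by linarith) (400 * 2 * (200 * q)),
    eventually_log_sqrt (1 / 8) (4000 * q),
    eventually_pow_log (α := 2 * κ) (β := ω) hω (2 ^ ω * (200000 * q ^ 2)),
    eventually_pow_log (α := 2 * κ) (β := 3 / 20) (by linarith) (400000 * 2 * q ^ 2)] with t g0 g1 g2 g3 g4 g5 g6 hcon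
  have ht0 : 0 < t := lt_trans (Real.exp_pos 1) g2
  set L := Real.log t with hLdef
  have hL1 : 1 < L := by
    rw [hLdef, Real.lt_log_iff_exp_lt ht0]
    exact g2
  have hL0 : 0 < L := by linarith
  set c : ℝ := L ^ (-κ) with hc
  set R : ℝ := L ^ (1 / 8 : ℝ) with hR
  set S : ℝ := √t with hS
  have hc0 : 0 < c := Real.rpow_pos_of_pos hL0 _
  have hR1 : 1 ≤ R := Real.one_le_rpow hL1.le (by norm_num)
  have hR0 : 0 < R := by linarith
  have hS0 : 0 < S := Real.sqrt_pos.2 ht0
  have hSt : S ^ 2 = t := Real.sq_sqrt ht0.le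
  have hc1 : c ≤ 1 := Real.rpow_le_one_of_one_le_of_nonpos hL1.le (by linarith)
  have hc2 : c ^ 2 = L ^ (-(2 * κ)) := by
    rw [hc, sq, ← Real.rpow_add hL0]; congr 1; ring
  have hcinv : c ^ 2 * L ^ (2 * κ) = 1 := by
    rw [hc2, ← Real.rpow_add hL0]
    simp
  have hR2 : R ^ 2 = L ^ (1 / 4 : ℝ) := by
    rw [hR, sq, ← Real.rpow_add hL0]; norm_num
  have hSX : max 1 X0 ≤ S := Real.le_sqrt_of_sq_le g1
  have hS1 : 1 ≤ S := (le_max_left _ _).trans hSX
  have hX : X0 ≤ R * S := by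
    have : X0 ≤ S := (le_max_right _ _).trans hSX
    nlinarith
  -- the length of the windows
  set X : ℝ := R * S with hXdef
  have hXS : S ≤ X := by rw [hXdef]; nlinarith
  have hX1 : 1 ≤ X := hS1.trans hXS
  have hlogS : Real.log S = L / 2 := by
    rw [hS, Real.log_sqrt ht0.le]
  have hXlow : L / 2 ≤ Real.log X := by
    rw [← hlogS]
    exact Real.log_le_log hS0 hXS
  have hRS : R ≤ S := by nlinarith
  have hXhigh : Real.log X ≤ L := by
    apply Real.log_le_log (by linarith)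
    rw [hXdef, ← hSt, sq]
    exact mul_le_mul_of_nonneg_right hRS hS0.le
  obtain ⟨h, hh⟩ : ∃ h : ℕ, h = ⌈Real.log X ^ (1 / 8 : ℝ)⌉₊ := ⟨_, rfl⟩
  have hh1 : Real.log X ^ (1 / 8 : ℝ) ≤ h := by rw [hh]; exact Nat.le_ceil _
  have hh2 : (h : ℝ) ≤ 2 * R := by
    have e1 : (h : ℝ) < Real.log X ^ (1 / 8 : ℝ) + 1 := by
      rw [hh]; exact Nat.ceil_lt_add_one (Real.rpow_nonneg (by linarith) _)
    have e2 : Real.log X ^ (1 / 8 : ℝ) ≤ R :=
      Real.rpow_le_rpow (by linarith) hXhigh (by norm_num)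
    linarith
  have hh3 : 1 ≤ h := by
    have : (0 : ℝ) < h := lt_of_lt_of_le (Real.rpow_pos_of_pos (by linarith) _) hh1
    have : 0 < h := by exact_mod_cast this
    omega
  have hhp : (1 : ℝ) ≤ h := by exact_mod_cast hh3
  -- the data of `count_step`
  set k : ℝ := c ^ 2 / (200 * q) with hk
  have hk0 : 0 < k := by rw [hk]; positivity
  have hk1 : k < 1 := by
    rw [hk, div_lt_one (by positivity)]
    nlinarith
  refine Pool.Agent.MRAP.count_step (P := q) (r := a) (h := h) (R := R) (S := S) (κ := k) hq hk0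
    hk1 hh3 hR0 ?_ hS0 ?_ ?_ ?_
  · -- 400 h ≤ k R²
    have e1 : k * R ^ 2 = L ^ (1 / 4 - 2 * κ) / (200 * q) := by
      rw [hk, hc2, hR2, div_mul_eq_mul_div, ← Real.rpow_add hL0]
      congr 2; ring
    rw [e1, le_div_iff₀ (by positivity)]
    calc 400 * (h : ℝ) * (200 * q) ≤ 400 * (2 * R) * (200 * q) := by gcongr
      _ = 400 * 2 * (200 * q) * R := by ring
      _ ≤ L ^ (1 / 4 - 2 * κ) := g3
  · calc 4000 * (q : ℝ) * R = 4000 * q * L ^ (1 / 8 : ℝ) := rfl
      _ ≤ S := g4
  · -- runs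
    have e1 := hX0 X hX h hh1
    have e2 : ((Pool.Agent.MRAP.runs q a h X).card : ℝ) ≤ X / Real.log X ^ ω := by
      rw [Pool.Agent.MRAP.runs]
      exact e1
    refine e2.trans ?_
    have e3 : (L / 2) ^ ω ≤ Real.log X ^ ω := Real.rpow_le_rpow (by positivity) hXlow hω0.le
    have e4 : (L / 2) ^ ω = L ^ ω / 2 ^ ω := Real.div_rpow hL0.le (by norm_num) _
    have e5 : 0 < (2 : ℝ) ^ ω := by positivity
    have e6 : 200000 * (q : ℝ) ^ 2 * L ^ (2 * κ) ≤ (L / 2) ^ ω := by
      rw [e4, le_div_iff₀ e5]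
      calc 200000 * (q : ℝ) ^ 2 * L ^ (2 * κ) * 2 ^ ω = 2 ^ ω * (200000 * q ^ 2) * L ^ (2 * κ) := by
            ring
        _ ≤ L ^ ω := g5
    have e7 : 0 < L ^ (2 * κ) := Real.rpow_pos_of_pos hL0 _
    calc X / Real.log X ^ ω ≤ X / (200000 * (q : ℝ) ^ 2 * L ^ (2 * κ)) :=
          div_le_div_of_nonneg_left (by linarith) (by positivity) (e6.trans e3)
      _ = X * c ^ 2 / (200000 * (q : ℝ) ^ 2 * (c ^ 2 * L ^ (2 * κ))) := by
          field_simp
      _ = k * R * S / (1000 * q) := by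
          rw [hcinv, hk, hXdef]
          field_simp
          norm_num
  · intro s hs
    rw [hSt] at hs
    have e1 := hT0 t c R g0 rfl rfl hcon s hs
    refine e1.trans ?_
    have e7 : 0 < L ^ (2 * κ) := Real.rpow_pos_of_pos hL0 _
    have e8 : 0 < L ^ (3 / 20 : ℝ) := Real.rpow_pos_of_pos hL0 _
    calc S / L ^ (3 / 20 : ℝ) ≤ S / (400000 * 2 * q ^ 2 * L ^ (2 * κ)) :=
          div_le_div_of_nonneg_left hS0.le (by positivity) g6
      _ = S * c ^ 2 / (400000 * 2 * q ^ 2 * (c ^ 2 * L ^ (2 * κ))) := by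
          field_simp
      _ = k * R * S / (2000 * (2 * R) * q) := by
          rw [hcinv, hk]
          field_simp
          norm_num
      _ ≤ k * R * S / (2000 * h * q) := by
          apply div_le_div_of_nonneg_left (by positivity) (by positivity)
          gcongr

theorem lam_of_not_even {n : ℕ} (h : ¬ Even (ArithmeticFunction.cardFactors n)) : lam n = -1 := by
  unfold lam
  exact Odd.neg_one_pow (Nat.not_even_iff_odd.1 h)

theorem lam_of_not_odd {n : ℕ} (h : ¬ Odd (ArithmeticFunction.cardFactors n)) : lam n = 1 := by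
  unfold lam
  exact Even.neg_one_pow (Nat.not_odd_iff_even.1 h)

/-- A coprime class contains both parities. -/
theorem cop2 (hL : Link2) {ω κ : ℝ} (hκ0 : 0 < κ) (hκ1 : κ ≤ 1 / 100) (hω : 2 * κ < ω)
    (hNR : NoRuns2 ω) (q a : ℕ) (hq : 1 ≤ q) (ha : a.Coprime q) :
    ∀ᶠ t : ℝ in atTop, ∀ (p : ℕ → Prop) (σ : ℝ), (∀ n, ¬ p n → lam n = σ) →
      ∃ n : ℕ, t < n ∧ (n : ℝ) < t + Real.log t ^ (-κ) * √t ∧ n ≡ a [MOD q] ∧ p n := by
  filter_upwards [core2 hL hκ0 hκ1 hω hNR q a hq ha] with t ht p σ hp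
  by_contra hcon
  push Not at hcon
  apply ht
  intro m n h1 h2 h3 h4 h5 h6
  rw [hp m (hcon m h1 h2 h3), hp n (hcon n h4 h5 h6)]

/-- **Row EN2.** -/
theorem end2 : End2 := by
  intro hL ω κ hκ0 hκ1 hω hNR q a hq
  -- a slightly larger exponent
  obtain ⟨κ', hκ'0, hκ'1, hκ'2⟩ : ∃ κ' : ℝ, κ < κ' ∧ κ' ≤ 1 / 100 ∧ 2 * κ' < ω := by
    refine ⟨min ((κ + 1 / 100) / 2) ((κ + ω / 2) / 2), ?_, ?_, ?_⟩
    · exact lt_min (by linarith) (by linarith)
    · exact (min_le_left _ _).trans (by linarith)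
    · have := min_le_right ((κ + 1 / 100) / 2) ((κ + ω / 2) / 2)
      linarith
  -- the reduction to a coprime class
  set e := Nat.gcd a q with he
  have hq0 : 0 < q := hq
  have he0 : 0 < e := Nat.gcd_pos_of_pos_right a hq0
  obtain ⟨a', ha'⟩ : e ∣ a := Nat.gcd_dvd_left a q
  obtain ⟨q', hq'⟩ : e ∣ q := Nat.gcd_dvd_right a q
  have hcop : a'.Coprime q' := by
    have h1 := Nat.coprime_div_gcd_div_gcd (m := a) (n := q) he0
    rw [← he] at h1
    have h2 : a / e = a' := by
      rw [ha']; exact Nat.mul_div_cancel_left a' he0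
    have h3 : q / e = q' := by
      rw [hq']; exact Nat.mul_div_cancel_left q' he0
    rwa [h2, h3] at h1
  have hq1 : 1 ≤ q' := by
    rcases Nat.eq_zero_or_pos q' with h | h
    · rw [h, Nat.mul_zero] at hq'
      omega
    · exact h
  have heR : (0 : ℝ) < e := by exact_mod_cast he0
  have h1e : (1 : ℝ) ≤ e := by exact_mod_cast he0
  have hse : 0 < √(e : ℝ) := Real.sqrt_pos.2 heR
  have H0 := cop2 hL (by linarith : 0 < κ') hκ'1 hκ'2 hNR q' a' hq1 hcop
  have hdiv : Tendsto (fun t : ℝ => t / e) atTop atTop := tendsto_id.atTop_div_const heR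
  have H1 := hdiv.eventually H0
  have hev : ∀ᶠ t : ℝ in atTop, Real.log (t / e) ^ (-κ') * √(t / e) ≤
      √t / Real.log t ^ κ / e := by
    have h2 := eventually_pow_log (α := κ) (β := κ') hκ'0 (2 ^ κ' * √(e : ℝ))
    filter_upwards [h2, eventually_ge_atTop ((e : ℝ) ^ 2), eventually_gt_atTop (Real.exp 1)]
      with t g1 g2 g3
    have ht0 : 0 < t := lt_trans (Real.exp_pos 1) g3
    have hL1 : 1 < Real.log t := by
      rw [Real.lt_log_iff_exp_lt ht0]
      exact g3
    have hL0 : 0 < Real.log t := by linarith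
    -- log (t / e) ≥ log t / 2
    have h3 : Real.log t / 2 ≤ Real.log (t / e) := by
      have h4 : √t ≤ t / e := by
        rw [le_div_iff₀ heR]
        have h5 : (e : ℝ) ≤ √t := Real.le_sqrt_of_sq_le g2
        calc √t * e ≤ √t * √t := mul_le_mul_of_nonneg_left h5 (Real.sqrt_nonneg _)
          _ = t := Real.mul_self_sqrt ht0.le
      rw [← Real.log_sqrt ht0.le]
      exact Real.log_le_log (Real.sqrt_pos.2 ht0) h4
    have h6 : Real.log (t / e) ^ (-κ') ≤ (Real.log t / 2) ^ (-κ') :=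
      Real.rpow_le_rpow_of_nonpos (by positivity) h3 (by linarith)
    have h7 : (Real.log t / 2) ^ (-κ') = 2 ^ κ' / Real.log t ^ κ' := by
      rw [Real.rpow_neg (by positivity), Real.div_rpow hL0.le (by norm_num), inv_div]
    have hsq : √(t / e) = √t / √(e : ℝ) := Real.sqrt_div ht0.le _
    have hee : √(e : ℝ) * √(e : ℝ) = e := Real.mul_self_sqrt heR.le
    have e1 : 0 < Real.log t ^ κ := Real.rpow_pos_of_pos hL0 _
    have e2 : 0 < Real.log t ^ κ' := Real.rpow_pos_of_pos hL0 _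
    rw [h7] at h6
    calc Real.log (t / e) ^ (-κ') * √(t / e) ≤ 2 ^ κ' / Real.log t ^ κ' * (√t / √(e : ℝ)) := by
          rw [hsq]
          exact mul_le_mul_of_nonneg_right h6 (by positivity)
      _ ≤ √t / Real.log t ^ κ / e := by
          rw [div_mul_div_comm, div_div, div_le_div_iff₀ (by positivity) (by positivity)]
          calc 2 ^ κ' * √t * (Real.log t ^ κ * e)
              = √t * √(e : ℝ) * (2 ^ κ' * √(e : ℝ) * Real.log t ^ κ) := by
                rw [show 2 ^ κ' * √t * (Real.log t ^ κ * (e : ℝ)) =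
                  2 ^ κ' * √t * (Real.log t ^ κ * (√(e : ℝ) * √(e : ℝ))) by rw [hee]]
                ring
            _ ≤ √t * √(e : ℝ) * Real.log t ^ κ' :=
                mul_le_mul_of_nonneg_left g1 (by positivity)
            _ = √t * (Real.log t ^ κ' * √(e : ℝ)) := by ring
  obtain ⟨t0, ht0⟩ := (((H1.and hev).and (eventually_gt_atTop (0 : ℝ))).exists_forall_of_atTop)
  refine ⟨t0, fun t ht => ?_⟩
  obtain ⟨⟨K1, K2⟩, K3⟩ := ht0 t ht
  have hmul : ∀ n : ℕ, t / e < (n : ℝ) → ArithmeticFunction.cardFactors (e * n) =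
      ArithmeticFunction.cardFactors e + ArithmeticFunction.cardFactors n := by
    intro n hn
    have hn0 : n ≠ 0 := by
      rintro rfl
      push_cast at hn
      have : 0 < t / (e : ℝ) := by positivity
      linarith
    exact ArithmeticFunction.cardFactors_mul he0.ne' hn0
  have step : ∀ (p p' : ℕ → Prop) (σ : ℝ), (∀ n, ¬ p' n → lam n = σ) →
      (∀ n : ℕ, t / e < (n : ℝ) → p' n → p (e * n)) →
      ∃ n : ℕ, t < n ∧ (n : ℝ) < t + √t / Real.log t ^ κ ∧ n ≡ a [MOD q] ∧ p n := by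
    intro p p' σ hp' hpp
    obtain ⟨n, h1, h2, h3, h4⟩ := K1 p' σ hp'
    refine ⟨e * n, ?_, ?_, ?_, hpp n h1 h4⟩
    · rw [div_lt_iff₀ heR] at h1
      push_cast
      linarith
    · have h5 : (n : ℝ) < (t + √t / Real.log t ^ κ) / e := by
        rw [add_div]
        linarith
      rw [lt_div_iff₀ heR] at h5
      push_cast
      linarith
    · rw [ha', hq']
      exact Nat.ModEq.mul_left' e h3
  rcases Nat.even_or_odd (ArithmeticFunction.cardFactors e) with hpar | hpar
  · refine ⟨step _ (fun n => Even (ArithmeticFunction.cardFactors n)) (-1)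
      (fun n hn => lam_of_not_even hn) ?_, step _ (fun n => Odd (ArithmeticFunction.cardFactors n))
      1 (fun n hn => lam_of_not_odd hn) ?_⟩
    · intro n h1 h2
      rw [hmul n h1]
      exact hpar.add h2
    · intro n h1 h2
      rw [hmul n h1]
      exact hpar.add_odd h2
  · refine ⟨step _ (fun n => Odd (ArithmeticFunction.cardFactors n)) 1
      (fun n hn => lam_of_not_odd hn) ?_, step _ (fun n => Even (ArithmeticFunction.cardFactors n))
      (-1) (fun n hn => lam_of_not_even hn) ?_⟩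
    · intro n h1 h2
      rw [hmul n h1]
      exact hpar.add_odd h2
    · intro n h1 h2
      rw [hmul n h1]
      exact hpar.add_even h2

end Pool.Agent.MR2
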