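import Pool.Agent.Lib.MR2.StatM
import Pool.Agent.Lib.MR2.EN2

/-! # TANK MR2, stage 2: from the coprime classes to all classes (helper69) -/

set_option autoImplicit false

namespace Pool.Agent.MR2

open Finset Filter Topology Pool.Agent.MRL

/-- The change of variable `n = e n'`. -/
theorem scale_len {κ κ' : ℝ} (h0 : 0 < κ) (hκ : κ < κ') {e : ℕ} (he : 0 < e) :
    ∀ᶠ t : ℝ in atTop, √(t / e) / Real.log (t / e) ^ κ' ≤ √t / Real.log t ^ κ / e := by
  have heR : (0 : ℝ) < e := by exact_mod_cast he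
  have hse : 0 < √(e : ℝ) := Real.sqrt_pos.2 heR
  have hκ'0 : 0 < κ' := h0.trans hκ
  have h2 := eventually_pow_log (α := κ) (β := κ') hκ (2 ^ κ' * √(e : ℝ))
  filter_upwards [h2, eventually_ge_atTop ((e : ℝ) ^ 2), eventually_gt_atTop (Real.exp 1)]
    with t g1 g2 g3
  have ht0 : 0 < t := lt_trans (Real.exp_pos 1) g3
  have hL1 : 1 < Real.log t := by
    rw [Real.lt_log_iff_exp_lt ht0]
    exact g3
  have hL0 : 0 < Real.log t := by linarith
  have h3 : Real.log t / 2 ≤ Real.log (t / e) := by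
    have h4 : √t ≤ t / e := by
      rw [le_div_iff₀ heR]
      have h5 : (e : ℝ) ≤ √t := Real.le_sqrt_of_sq_le g2
      calc √t * e ≤ √t * √t := mul_le_mul_of_nonneg_left h5 (Real.sqrt_nonneg _)
        _ = t := Real.mul_self_sqrt ht0.le
    rw [← Real.log_sqrt ht0.le]
    exact Real.log_le_log (Real.sqrt_pos.2 ht0) h4
  have h6 : (Real.log t / 2) ^ κ' ≤ Real.log (t / e) ^ κ' :=
    Real.rpow_le_rpow (by positivity) h3 hκ'0.le
  have h7 : (Real.log t / 2) ^ κ' = Real.log t ^ κ' / 2 ^ κ' :=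
    Real.div_rpow hL0.le (by norm_num) _
  have hsq : √(t / e) = √t / √(e : ℝ) := Real.sqrt_div ht0.le _
  have hee : √(e : ℝ) * √(e : ℝ) = e := Real.mul_self_sqrt heR.le
  have e1 : 0 < Real.log t ^ κ := Real.rpow_pos_of_pos hL0 _
  have e2 : 0 < Real.log t ^ κ' := Real.rpow_pos_of_pos hL0 _
  have e3 : (0 : ℝ) < 2 ^ κ' := by positivity
  have e4 : 0 < Real.log t ^ κ' / 2 ^ κ' := by positivity
  rw [h7] at h6
  calc √(t / e) / Real.log (t / e) ^ κ' ≤ √(t / e) / (Real.log t ^ κ' / 2 ^ κ') :=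
        div_le_div_of_nonneg_left (Real.sqrt_nonneg _) e4 h6
    _ = √t * 2 ^ κ' / (√(e : ℝ) * Real.log t ^ κ') := by
        rw [hsq]; field_simp
    _ ≤ √t / Real.log t ^ κ / e := by
        rw [div_div, div_le_div_iff₀ (by positivity) (by positivity)]
        calc √t * 2 ^ κ' * (Real.log t ^ κ * e)
            = √t * √(e : ℝ) * (2 ^ κ' * √(e : ℝ) * Real.log t ^ κ) := by
              rw [show √t * 2 ^ κ' * (Real.log t ^ κ * (e : ℝ)) =
                √t * 2 ^ κ' * (Real.log t ^ κ * (√(e : ℝ) * √(e : ℝ))) by rw [hee]]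
              ring
          _ ≤ √t * √(e : ℝ) * Real.log t ^ κ' :=
              mul_le_mul_of_nonneg_left g1 (by positivity)
          _ = √t * (√(e : ℝ) * Real.log t ^ κ') := by ring

/-- A reduced class modulo `q'` contains a class modulo `q' e` that is prime to `q' e`. -/
theorem exists_lift {a' q' e : ℕ} (hq : 0 < q') (he : 0 < e) (h : a'.Coprime q') :
    ∃ A : ℕ, A ≡ a' [MOD q'] ∧ A.Coprime (q' * e) := by
  have : NeZero (q' * e) := ⟨(Nat.mul_pos hq he).ne'⟩
  have : NeZero q' := ⟨hq.ne'⟩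
  obtain ⟨u, hu⟩ := ZMod.unitsMap_surjective (n := q') (m := q' * e) (dvd_mul_right q' e)
    (ZMod.unitOfCoprime a' h)
  refine ⟨(u : ZMod (q' * e)).val, ?_, ZMod.val_coe_unit_coprime u⟩
  have h1 : ((ZMod.unitsMap (dvd_mul_right q' e) u : (ZMod q')ˣ) : ZMod q') = (a' : ZMod q') := by
    rw [hu]; simp
  rw [ZMod.unitsMap_def, Units.coe_map] at h1
  rw [← ZMod.natCast_eq_natCast_iff]
  rw [← h1]
  simp [ZMod.natCast_val]

/-- **All classes with squarefree members.** -/
theorem finalM_classes {κ κ' : ℝ} (h0 : 0 < κ) (hκ : κ < κ') (hF : FinalM κ') (q a : ℕ)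
    (hq : 1 ≤ q) (hsf : Squarefree (a.gcd q)) : ∃ t0 : ℝ, ∀ t : ℝ, t0 ≤ t →
    (∃ n : ℕ, t < n ∧ (n : ℝ) < t + √t / Real.log t ^ κ ∧ n ≡ a [MOD q] ∧
      ArithmeticFunction.moebius n = 1) ∧
    (∃ n : ℕ, t < n ∧ (n : ℝ) < t + √t / Real.log t ^ κ ∧ n ≡ a [MOD q] ∧
      ArithmeticFunction.moebius n = -1) := by
  set e := Nat.gcd a q with he
  have hq0 : 0 < q := hq
  have he0 : 0 < e := Nat.gcd_pos_of_pos_right a hq0
  obtain ⟨a', ha'⟩ : e ∣ a := Nat.gcd_dvd_left a q
  obtain ⟨q', hq'⟩ : e ∣ q := Nat.gcd_dvd_right a q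
  have hcop : a'.Coprime q' := by
    have h1 := Nat.coprime_div_gcd_div_gcd (m := a) (n := q) he0
    rw [← he] at h1
    have h2 : a / e = a' := by
      rw [ha']; exact Nat.mul_div_cancel_left a' he0
    have h3 : q / e = q' := by
      rw [hq']; exact Nat.mul_div_cancel_left q' he0
    rwa [h2, h3] at h1
  have hq1 : 0 < q' := by
    rcases Nat.eq_zero_or_pos q' with h | h
    · rw [h, Nat.mul_zero] at hq'
      omega
    · exact h
  obtain ⟨A, hA1, hA2⟩ := exists_lift hq1 he0 hcop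
  obtain ⟨t1, ht1⟩ := hF (q' * e) A (Nat.mul_pos hq1 he0) hA2
  have heR : (0 : ℝ) < e := by exact_mod_cast he0
  have hdiv : Tendsto (fun t : ℝ => t / e) atTop atTop := tendsto_id.atTop_div_const heR
  obtain ⟨t0, ht0⟩ := (((hdiv.eventually (eventually_ge_atTop t1)).and
    (scale_len h0 hκ he0)).exists_forall_of_atTop)
  refine ⟨t0, fun t ht => ?_⟩
  obtain ⟨K1, K2⟩ := ht0 t ht
  obtain ⟨P, N⟩ := ht1 (t / e) K1
  have step : ∀ s s' : ℤ, ArithmeticFunction.moebius e * s' = s →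
      (∃ n : ℕ, t / e < n ∧ (n : ℝ) < t / e + √(t / e) / Real.log (t / e) ^ κ' ∧
        n ≡ A [MOD q' * e] ∧ ArithmeticFunction.moebius n = s') →
      ∃ n : ℕ, t < n ∧ (n : ℝ) < t + √t / Real.log t ^ κ ∧ n ≡ a [MOD q] ∧
        ArithmeticFunction.moebius n = s := by
    rintro s s' hss ⟨n, h1, h2, h3, h4⟩
    have hne : e.Coprime n := by
      have h5 : n.Coprime (q' * e) := by
        have : Nat.gcd n (q' * e) = Nat.gcd A (q' * e) := h3.gcd_eq
        rw [Nat.Coprime, this]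
        exact hA2
      exact (Nat.Coprime.coprime_mul_left_right h5).symm
    refine ⟨e * n, ?_, ?_, ?_, ?_⟩
    · rw [div_lt_iff₀ heR] at h1
      push_cast
      linarith
    · have h5 : (n : ℝ) < (t + √t / Real.log t ^ κ) / e := by
        rw [add_div]
        linarith
      rw [lt_div_iff₀ heR] at h5
      push_cast
      linarith
    · rw [ha', hq']
      exact Nat.ModEq.mul_left' e ((h3.of_dvd (dvd_mul_right q' e)).trans hA1)
    · rw [ArithmeticFunction.isMultiplicative_moebius.map_mul_of_coprime hne, h4]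
      exact hss
  have hmu : ArithmeticFunction.moebius e = 1 ∨ ArithmeticFunction.moebius e = -1 := by
    have h1 := (ArithmeticFunction.moebius_ne_zero_iff_eq_or (n := e)).1
      (ArithmeticFunction.moebius_ne_zero_iff_squarefree.2 hsf)
    exact h1
  rcases hmu with h | h
  · exact ⟨step 1 1 (by rw [h]; norm_num) P, step (-1) (-1) (by rw [h]; norm_num) N⟩
  · exact ⟨step 1 (-1) (by rw [h]; norm_num) N, step (-1) 1 (by rw [h]; norm_num) P⟩

end Pool.Agent.MR2
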