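import Pool.Agent.Lib.MR2.Defs
import Pool.Agent.Lib.MP_663568_nul.Sel

/-! # TANK MR2, row BT: Brun–Titchmarsh in a cell (`btCell : BTcell`). helper9. -/

set_option autoImplicit false

namespace Pool.Agent.MR2

open Finset Pool.Agent.MRL

/-- **Row BT.** -/
theorem btCell : BTcell := by
  classical
  obtain ⟨C, hC, hbt⟩ := Pool.Agent.Lib.MP_663568_nt.Nul.brun_titchmarsh
  refine ⟨8 * C, by positivity, fun H v hH hHv hA => ?_⟩
  have hH' : (1 : ℝ) ≤ H := by exact_mod_cast hH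
  have hH0 : (0 : ℝ) < H := by linarith
  have hHv' : (H : ℝ) ≤ v := by exact_mod_cast hHv
  have hv0 : (0 : ℝ) < v := by linarith
  set A := Real.exp ((v : ℝ) / H) with hAdef
  have hA0 : 0 < A := Real.exp_pos _
  have hHA : (H : ℝ) ≤ A / H := by
    rw [le_div_iff₀ hH0]; nlinarith
  have hAH1 : 1 ≤ A / H := hH'.trans hHA
  -- `e^{1/H} ≤ 1 + 2/H`
  have hexp : Real.exp (1 / (H : ℝ)) ≤ 1 + 2 / H := by
    have h1 : 0 ≤ 1 / (H : ℝ) := by positivity
    have h2 : 1 / (H : ℝ) ≤ 1 := by rw [div_le_one hH0]; exact hH'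
    have h3 : |1 / (H : ℝ)| ≤ 1 := by rw [abs_of_nonneg h1]; exact h2
    have h4 := Real.abs_exp_sub_one_le h3
    rw [abs_of_nonneg h1] at h4
    have h5 := le_abs_self (Real.exp (1 / (H : ℝ)) - 1)
    have h6 : 2 / (H : ℝ) = 2 * (1 / H) := by ring
    rw [h6]; linarith
  have hB : Real.exp (((v : ℝ) + 1) / H) ≤ A + 2 * (A / H) := by
    have h1 : ((v : ℝ) + 1) / H = v / H + 1 / H := by ring
    rw [h1, Real.exp_add, ← hAdef]
    calc A * Real.exp (1 / (H : ℝ)) ≤ A * (1 + 2 / H) := by gcongr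
      _ = A + 2 * (A / H) := by ring
  set Y := ⌈3 * (A / H)⌉₊ with hY
  have hY1 : 3 * (A / H) ≤ Y := Nat.le_ceil _
  have hY2 : (Y : ℝ) < 3 * (A / H) + 1 := Nat.ceil_lt_add_one (by positivity)
  have hY3 : (2 : ℝ) ≤ Y := by linarith
  have hY3' : 2 ≤ Y := by exact_mod_cast hY3
  have hb := hbt 1 0 ⌊A⌋₊ Y le_rfl (Nat.coprime_one_right 0) hY3' (by omega)
  rw [Nat.totient_one, Nat.cast_one, one_mul] at hb
  have hsub : W H v ⊆ (Ioc ⌊A⌋₊ (⌊A⌋₊ + Y)).filter fun p : ℕ => p.Prime ∧ p ≡ 0 [MOD 1] := by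
    intro p hp
    unfold W at hp
    rw [mem_filter, mem_Ioc] at hp
    obtain ⟨⟨h1, h2⟩, h3⟩ := hp
    rw [mem_filter, mem_Ioc]
    refine ⟨⟨h1, h2.trans ?_⟩, h3, Nat.modEq_one⟩
    apply Nat.floor_le_of_le
    have h4 := Nat.lt_floor_add_one A
    push_cast
    linarith
  -- `log Y ≥ v / (2H)`
  have hlog : (v : ℝ) / (2 * H) ≤ Real.log Y := by
    rw [Real.le_log_iff_exp_le (by linarith)]
    have h1 : Real.exp ((v : ℝ) / (2 * H)) = √A := by
      rw [hAdef, ← Real.exp_half]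
      congr 1
      ring
    rw [h1]
    refine le_trans ?_ hY1
    have h2 : √A ≤ A / H := by
      rw [le_div_iff₀ hH0]
      have h3 : (H : ℝ) ≤ √A := Real.le_sqrt_of_sq_le hA
      have h4 : √A * √A = A := Real.mul_self_sqrt hA0.le
      nlinarith [Real.sqrt_nonneg A]
    have h5 : 0 ≤ A / H := by positivity
    linarith
  have hlog0 : 0 < Real.log Y := lt_of_lt_of_le (by positivity) hlog
  have hcard : ((W H v).card : ℝ) ≤ 8 * C * A / v := by
    calc ((W H v).card : ℝ) ≤ C * Y / Real.log Y := by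
          refine le_trans ?_ hb
          exact_mod_cast card_le_card hsub
      _ ≤ C * (4 * (A / H)) / ((v : ℝ) / (2 * H)) := by
          apply div_le_div₀ (by positivity) _ (by positivity) hlog
          apply mul_le_mul_of_nonneg_left _ hC.le
          linarith
      _ = 8 * C * A / v := by field_simp; ring
  calc ∑ p ∈ W H v, 1 / (p : ℝ) ≤ ∑ p ∈ W H v, 1 / A := by
        refine sum_le_sum fun p hp => ?_
        have h1 := (DC.mem_W.1 hp).1
        exact one_div_le_one_div_of_le hA0 h1.le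
    _ = (W H v).card * (1 / A) := by rw [sum_const, nsmul_eq_mul]
    _ ≤ (8 * C * A / v) * (1 / A) := by gcongr
    _ = 8 * C / v := by field_simp

end Pool.Agent.MR2
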