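import Pool.Agent.Lib.MR2.StatM
import Pool.Agent.Lib.MRAP.Chain

/-! # TANK MR2, stage 2, row CHM: the chain with the sieve conditions (helper69) -/

set_option autoImplicit false

namespace Pool.Agent.MR2

open Finset Pool.Agent.MRL Pool.Agent.MRZ Pool.Agent.MRZ.E1 Pool.Agent.MRAP

/-- The four integers, sign plus, with the exact value of the fourth factor (extracted from
`MRAP.chain_fourA`). -/
theorem four1 {g : ℕ} {c R t : ℝ} (hg : 1 ≤ g) (hc : 0 < c) (hc1 : c ≤ 1)
    (hR : 1000 * g ≤ c * R) (ht : 10000 ≤ t) {n b1 b2 D w w' M d : ℕ}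
    (hb1 : b1 ∣ n) (hb2 : b2 ∣ n + g) (hn1 : R * √t < n) (hn2 : (n : ℝ) ≤ 1.01 * R * √t)
    (hM0 : (M : ℝ) ≤ t / n) (hM1 : t / n < M + c ^ 2 / (200 * g))
    (hD : 0 < D) (hd0 : 0 < d)
    (hdv1 : d ∣ b1 * M + w' * D) (hdv2 : d ∣ b2 * M + w * D)
    (hde : b2 * w' + d = b1 * w)
    (x1 : t / n - M + 0.25 * (c / R) < (w' : ℝ) * D / b1)
    (x2 : (w' : ℝ) * D / b1 < t / n - M + 0.45 * (c / R))
    (y1 : t / n - M + 0.75 * (c / R) < (w : ℝ) * D / b2)
    (y2 : (w : ℝ) * D / b2 < t / n - M + 0.95 * (c / R)) :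
    ∃ n1 n2 m1 m2 p : ℕ, n = b1 * n1 ∧ n + g = b2 * n2 ∧ b1 * M + w' * D = d * m1 ∧
      b2 * M + w * D = d * m2 ∧ n2 * w = n1 * w' + p ∧
      b2 * p = n1 * d + g * w ∧ b1 * p = n2 * d + g * w' ∧
      InJ t (c * √t) (n1 * (d * m1)) ∧ InJ t (c * √t) (b2 * p * m1) ∧
      InJ t (c * √t) (n2 * (d * m2)) ∧ InJ t (c * √t) (b1 * p * m2) := by
  have ht0 : 0 < t := by linarith
  have hR0 : 0 < R := by
    by_contra h
    push Not at h
    have : c * R ≤ 0 := mul_nonpos_of_nonneg_of_nonpos hc.le h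
    have : (1 : ℝ) ≤ g := by exact_mod_cast hg
    linarith
  have hst : 100 ≤ √t := by
    rw [show (100 : ℝ) = √10000 by rw [show (10000 : ℝ) = 100 ^ 2 by norm_num]; exact (Real.sqrt_sq (by norm_num)).symm]
    exact Real.sqrt_le_sqrt ht
  have hst0 : 0 < √t := by linarith
  have hn0 : (0 : ℝ) < n := lt_trans (by positivity) hn1
  have hn0' : 0 < n := by exact_mod_cast hn0
  have hb10 : 0 < b1 := Nat.pos_of_dvd_of_pos hb1 hn0'
  have hb20 : 0 < b2 := Nat.pos_of_dvd_of_pos hb2 (by omega)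
  have hgr : (1 : ℝ) ≤ g := by exact_mod_cast hg
  have hg0 : (0 : ℝ) < g := by linarith
  have hb1r : (0 : ℝ) < b1 := by exact_mod_cast hb10
  have hb2r : (0 : ℝ) < b2 := by exact_mod_cast hb20
  have hDr : (0 : ℝ) < D := by exact_mod_cast hD
  have hdr0 : (0 : ℝ) < d := by exact_mod_cast hd0
  obtain ⟨n1, hn1e⟩ := hb1
  obtain ⟨n2, hn2e⟩ := hb2
  obtain ⟨m1, hm1⟩ := hdv1
  obtain ⟨m2, hm2⟩ := hdv2
  have hnn : b1 * n1 + g = b2 * n2 := by omega
  obtain ⟨s1, s2, s3, s4, s5⟩ := small (n := n) hc hc1 hR0 hg hR hst ht0 hn1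
  have s6 : 0 < (g : ℝ) * (t / n) := by positivity
  obtain ⟨th, hth⟩ : ∃ th : ℝ, th = t / n - M := ⟨_, rfl⟩
  have hth0 : 0 ≤ th := by rw [hth]; linarith
  have hth1 : th ≤ c ^ 2 / (200 * g) := by rw [hth]; linarith
  have hgth : g * th ≤ c ^ 2 / 200 := by
    have h1 := mul_le_mul_of_nonneg_left hth1 hg0.le
    have e : (g : ℝ) * (c ^ 2 / (200 * g)) = c ^ 2 / 200 := by field_simp
    rw [e] at h1
    exact h1
  obtain ⟨X, hX⟩ : ∃ X, X = (w' : ℝ) * D / b1 - th := ⟨_, rfl⟩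
  obtain ⟨Y, hY⟩ : ∃ Y, Y = (w : ℝ) * D / b2 - th := ⟨_, rfl⟩
  have hkap : 0 < c / R := div_pos hc hR0
  have hcs : 0 < c * √t := by positivity
  have hRR : R * (1 / R) = 1 := by field_simp
  have up : ∀ Z : ℝ, 0 < Z → Z < 0.95 * (c / R) → ((n : ℝ) + g) * Z ≤ 0.9596 * (c * √t) := by
    intro Z hZ0 hZ
    have h1 : ((n : ℝ) + g) * Z ≤ (1.01 * R * √t + g) * (0.95 * (c / R)) :=
      mul_le_mul (by linarith) hZ.le hZ0.le (by positivity)
    have e : (1.01 * R * √t + g) * (0.95 * (c / R))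
        = 0.9595 * (c * √t) * (R * (1 / R)) + 0.95 * (g * (c / R)) := by
      ring
    rw [e, hRR, mul_one] at h1
    linarith
  have hA : ∀ Z : ℝ, Z ≤ 0.95 * (c / R) → g * (th + Z) ≤ 0.00595 * c ^ 2 := by
    intro Z hZ
    have h1 := mul_le_mul_of_nonneg_left hZ hg0.le
    have e : (g : ℝ) * (0.95 * (c / R)) = 0.95 * (g * (c / R)) := by ring
    rw [e] at h1
    linarith
  have lo : ∀ Z : ℝ, 0.25 * (c / R) < Z → 0.25 * (c * √t) ≤ (n : ℝ) * Z := by
    intro Z hZ
    have h1 : (R * √t) * (0.25 * (c / R)) ≤ (n : ℝ) * Z :=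
      mul_le_mul hn1.le hZ.le (by positivity) hn0.le
    have e : (R * √t) * (0.25 * (c / R)) = 0.25 * (c * √t) * (R * (1 / R)) := by ring
    rw [e, hRR, mul_one] at h1
    exact h1
  have hnZ : ∀ Z : ℝ, 0 < Z → (n : ℝ) * Z ≤ ((n : ℝ) + g) * Z := by
    intro Z hZ
    have : 0 ≤ (g : ℝ) * Z := by positivity
    linarith
  rw [← hth] at x1 x2 y1 y2
  have hX0 : 0.25 * (c / R) < X := by rw [hX]; linarith
  have hX1 : X < 0.45 * (c / R) := by rw [hX]; linarith
  have hY0 : 0.75 * (c / R) < Y := by rw [hY]; linarith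
  have hY1 : Y < 0.95 * (c / R) := by rw [hY]; linarith
  have hXp : 0 < X := by linarith
  have hYp : 0 < Y := by linarith
  have hdr : (d : ℝ) = (b1 : ℝ) * w - b2 * w' := by
    have : ((b2 * w' + d : ℕ) : ℝ) = ((b1 * w : ℕ) : ℝ) := by rw [hde]
    push_cast at this
    linarith
  have hG : (d : ℝ) * D = b1 * b2 * (Y - X) := by
    rw [hdr, hX, hY]
    field_simp
    ring
  obtain ⟨P1, P3, e1, e2⟩ := base hn0' hb10 hb20 hD hd0 hn1e hn2e hth hX hY hG hm1 hm2
  have hple : n1 * w' ≤ n2 * w := by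
    have h1 : b1 * b2 * (n1 * w') ≤ b1 * b2 * (n2 * w) := by
      have e : b1 * b2 * (n2 * w) = b1 * b2 * (n1 * w') + (b1 * n1 * d + g * (b1 * w)) := by
        zify at hde hnn ⊢
        linear_combination (-(b1 : ℤ) * w) * hnn - (b1 * n1 : ℤ) * hde
      rw [e]
      exact Nat.le_add_right _ _
    exact Nat.le_of_mul_le_mul_left h1 (by positivity)
  obtain ⟨p, hp⟩ := Nat.exists_eq_add_of_le hple
  have id1 : b2 * p = n1 * d + g * w := by
    zify at hde hnn hp ⊢
    linear_combination -(b2 : ℤ) * hp - w * hnn - n1 * hde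
  have id2 : b1 * p = n2 * d + g * w' := by
    zify at hde hnn hp ⊢
    linear_combination -(b1 : ℤ) * hp - w' * hnn - n2 * hde
  have P2 : ((b2 * p * m1 : ℕ) : ℝ) = t + n * X + g * (w * m1) := by
    rw [← P1, id1]
    push_cast
    ring
  have P4 : ((b1 * p * m2 : ℕ) : ℝ) = t + g * (t / n) + (n + g) * Y + g * (w' * m2) := by
    rw [← P3, id2]
    push_cast
    ring
  have hm1n : (0 : ℝ) ≤ g * ((w : ℝ) * m1) := by positivity
  have hm2n : (0 : ℝ) ≤ g * ((w' : ℝ) * m2) := by positivity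
  have e1 : g * ((w : ℝ) * m1) * (Y - X) = (g * (th + Y)) * (t / n + X) := by
    rw [mul_assoc, e1]; ring
  have e2 : g * ((w' : ℝ) * m2) * (Y - X) = (g * (th + X)) * (t / n + Y) := by
    rw [mul_assoc, e2]; ring
  have B1 : g * ((w : ℝ) * m1) ≤ 0.0205 * (c * √t) :=
    extra_bound hc hR0 hc1 hst (hA Y hY1.le) s1 s2 hXp (by linarith) (by linarith) hm1n e1
  have B2 : g * ((w' : ℝ) * m2) ≤ 0.0205 * (c * √t) :=
    extra_bound hc hR0 hc1 hst (hA X (by linarith)) s1 s2 hYp hY1.le (by linarith) hm2n e2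
  have u1 := up X hXp (by linarith)
  have u2 := up Y hYp hY1
  have l1 := lo X hX0
  have l2 := lo Y (by linarith)
  have z1 := hnZ X hXp
  have z2 := hnZ Y hYp
  refine ⟨n1, n2, m1, m2, p, hn1e, hn2e, hm1, hm2, hp, id1, id2, ?_, ?_, ?_, ?_⟩
  · rw [InJ, P1]; constructor <;> linarith
  · rw [InJ, P2]; constructor <;> linarith
  · rw [InJ, P3]; constructor <;> linarith
  · rw [InJ, P4]; constructor <;> linarith

/-- `N ≡ a [MOD m]` from `x N ≡ x a`, `x` coprime to `m`. -/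
theorem modEq_cancel {m x u v : ℕ} (h : Nat.Coprime m x) (h1 : x * u ≡ x * v [MOD m]) :
    u ≡ v [MOD m] := Nat.ModEq.cancel_left_of_coprime h h1

theorem chainM : ChainM := by
  classical
  intro q a P0 g b B M0 n PP κ c R t z1 f W e hq hqg hg hqP hc hc1 hR ht hκ hPz hPP hb hB hbB
    hWb hbP hBP hC hna hSn hSg hbn hBn hn1 hn2 hM hfr hf1 hf2 hMp hS hdU
  obtain ⟨s, L, D⟩ := e
  obtain ⟨hs, hL, hD, -, hsW, hPL, hPD, hsP, hsL, hlt, w1, w2, w3, w4⟩ := hC
  simp only at hs hL hD hsW hPL hPD hsP hsL hlt w1 w2 w3 w4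
  obtain ⟨M, hMdef⟩ : ∃ M : ℕ, M = ⌊t / (n : ℝ)⌋₊ := ⟨_, rfl⟩
  rw [← hMdef] at hM hMp hdU ⊢
  simp only [cd, cU] at hdU
  have ht0 : 0 < t := by linarith
  have hg1 : 1 ≤ g := hg
  have hR0 : 0 < R := by
    by_contra h
    push Not at h
    have : c * R ≤ 0 := mul_nonpos_of_nonneg_of_nonpos hc.le h
    have : (1 : ℝ) ≤ g := by exact_mod_cast hg1
    linarith
  have hκ0 : 0 < κ := by rw [hκ]; positivity
  have hn0 : (0 : ℝ) < n := lt_trans (by positivity) hn1
  have hn0' : 0 < n := by exact_mod_cast hn0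
  -- the fractional part
  have h5 : (0 : ℝ) ≤ t / n := by positivity
  have h6 : ((⌊t / (n : ℝ)⌋₊ : ℕ) : ℝ) = ((⌊t / (n : ℝ)⌋ : ℤ) : ℝ) :=
    natCast_floor_eq_intCast_floor h5
  have hfrac : t / n - (M : ℝ) = Int.fract (t / n) := by
    rw [hMdef, h6]; exact Int.self_sub_floor _
  set d : ℕ := b * L - B * s with hd
  have hd0 : 0 < d := by omega
  have hde : B * s + d = b * L := by omega
  -- coprimality of d
  have hsb : s < b := by omega
  have hbs : ¬ b ∣ B * s := by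
    intro h
    rcases (Nat.Prime.dvd_mul hb).1 h with h1 | h1
    · have := (Nat.prime_dvd_prime_iff_eq hb hB).1 h1
      omega
    · exact absurd (Nat.le_of_dvd hs h1) (by omega)
  have hbd : Nat.Coprime b d := by
    rw [Nat.Prime.coprime_iff_not_dvd hb]
    intro h
    apply hbs
    have h1 : b ∣ B * s + d := by rw [hde]; exact dvd_mul_right _ _
    exact (Nat.dvd_add_left h).1 h1
  have hdV : d ∣ B * M + L * D := by
    have h3 : d ∣ b * (B * M + L * D) := by
      have h4 : b * (B * M + L * D) = B * (b * M + s * D) + d * D := by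
        have h5 : b * (B * M + L * D) = B * (b * M) + (b * L) * D := by ring
        rw [h5, ← hde]
        ring
      rw [h4]
      exact dvd_add (hdU.mul_left _) (dvd_mul_right _ _)
    exact Nat.Coprime.dvd_of_dvd_mul_left hbd.symm h3
  obtain ⟨n1, n2, m1, m2, p, e1, e2, e3, e4, e5, id1, id2, i1, i2, i3, i4⟩ :=
    four1 (M := M) hg1 hc hc1 hR ht hbn hBn hn1 hn2 (by rw [hMdef]; exact Nat.floor_le h5)
      (by linarith) hD hd0 hdU hdV hde
      (by rw [hfrac, ← hκ]; linarith) (by rw [hfrac, ← hκ]; linarith)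
      (by rw [hfrac, ← hκ]; linarith) (by rw [hfrac, ← hκ]; linarith)
  have f1 : n / b = n1 := by rw [e1]; exact Nat.mul_div_cancel_left _ hb.pos
  have f2 : (n + g) / B = n2 := by rw [e2]; exact Nat.mul_div_cancel_left _ hB.pos
  have f3 : (b * M + s * D) / d = m1 := by rw [e3]; exact Nat.mul_div_cancel_left _ hd0
  have f4 : (B * M + L * D) / d = m2 := by rw [e4]; exact Nat.mul_div_cancel_left _ hd0
  have f5 : L * n2 - s * n1 = p := by
    have : L * n2 = s * n1 + p := by rw [mul_comm L, mul_comm s]; exact e5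
    omega
  have hnum : num b B g n M (s, L, D) = {n1 * (d * m1), B * p * m1, n2 * (d * m2), b * p * m2} := by
    have f3' : d * m1 / d = m1 := Nat.mul_div_cancel_left _ hd0
    have f4' : d * m2 / d = m2 := Nat.mul_div_cancel_left _ hd0
    simp only [num, cU, cV, cp, cd, f1, f2, ← hd, f5, e3, e4, f3', f4']
  -- the congruences modulo any divisor of P0
  have hMP : M ≡ 1 [MOD P0] := hM
  obtain ⟨D', hD'⟩ := hPD
  obtain ⟨L', hL'⟩ := hPL
  have k1 : n1 * (d * m1) ≡ n [MOD P0] := by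
    have e : n1 * (d * m1) = n * M + P0 * (n1 * s * D') := by
      rw [← e3, e1, hD']; ring
    rw [e]
    have h1 : n * M + P0 * (n1 * s * D') ≡ n * M [MOD P0] := by simp [Nat.ModEq]
    refine h1.trans ?_
    have := (Nat.ModEq.refl n).mul hMP
    rwa [mul_one] at this
  have k3 : n2 * (d * m2) ≡ n + g [MOD P0] := by
    have e : n2 * (d * m2) = (n + g) * M + P0 * (n2 * L * D') := by
      have : n2 * (d * m2) = (B * n2) * M + n2 * L * D := by rw [← e4]; ring
      rw [this, ← e2, hD']; ring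
    rw [e]
    have h1 : (n + g) * M + P0 * (n2 * L * D') ≡ (n + g) * M [MOD P0] := by simp [Nat.ModEq]
    refine h1.trans ?_
    have := (Nat.ModEq.refl (n + g)).mul hMP
    rwa [mul_one] at this
  -- coprimality of b, B, d, s with P0
  have hbP0 : Nat.Coprime b P0 := by
    rw [Nat.Prime.coprime_iff_not_dvd hb]
    exact fun h => hbP (h.mul_right _)
  have hBP0 : Nat.Coprime B P0 := by
    rw [Nat.Prime.coprime_iff_not_dvd hB]
    exact fun h => hBP (h.mul_right _)
  have k2 : B * p * m1 ≡ n [MOD P0] := by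
    -- B p = n1 d + g w, with P0 ∣ w
    have e : B * p * m1 = n1 * (d * m1) + P0 * (g * L' * m1) := by
      rw [id1, hL']; ring
    rw [e]
    have h1 : n1 * (d * m1) + P0 * (g * L' * m1) ≡ n1 * (d * m1) [MOD P0] := by simp [Nat.ModEq]
    exact h1.trans k1
  have k4 : b * p * m2 ≡ n [MOD P0] := by
    -- multiply by B
    have h1 : B * (b * p * m2) = b * (n1 * (d * m2)) + P0 * (b * g * L' * m2) := by
      have : B * (b * p * m2) = b * (B * p) * m2 := by ring
      rw [this, id1, hL']; ring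
    have h2 : d * m2 ≡ B [MOD P0] := by
      rw [← e4, hD']
      have h3 : B * M + L * (P0 * D') = B * M + P0 * (L * D') := by ring
      rw [h3]
      have h4 : B * M + P0 * (L * D') ≡ B * M [MOD P0] := by simp [Nat.ModEq]
      refine h4.trans ?_
      have := (Nat.ModEq.refl B).mul hMP
      rwa [mul_one] at this
    have h5 : B * (b * p * m2) ≡ B * n [MOD P0] := by
      rw [h1]
      have h6 : b * (n1 * (d * m2)) + P0 * (b * g * L' * m2) ≡ b * (n1 * (d * m2)) [MOD P0] := by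
        simp [Nat.ModEq]
      refine h6.trans ?_
      have h7 : b * (n1 * (d * m2)) ≡ b * (n1 * B) [MOD P0] :=
        (h2.mul_left n1).mul_left b
      refine h7.trans ?_
      have : b * (n1 * B) = B * n := by rw [e1]; ring
      rw [this]
    exact modEq_cancel (by rw [Nat.coprime_comm]; exact hBP0) h5
  have modq : ∀ N : ℕ, (N ≡ n [MOD P0] ∨ N ≡ n + g [MOD P0]) → N ≡ a [MOD q] := by
    intro N hN
    rcases hN with h | h
    · exact (h.of_dvd hqP).trans hna
    · refine (h.of_dvd hqP).trans ?_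
      obtain ⟨g', hg'⟩ := hqg
      rw [hg']
      have : n + q * g' ≡ n [MOD q] := by simp [Nat.ModEq]
      exact this.trans hna
  -- squares of the primes dividing P0
  have sq0 : ∀ N : ℕ, (N ≡ n [MOD P0] ∨ N ≡ n + g [MOD P0]) → ∀ r : ℕ, r.Prime →
      (r : ℝ) ≤ z1 → r ^ 2 ∣ P0 → ¬ r ^ 2 ∣ N := by
    intro N hN r hr hrz hrP hrN
    rcases hN with h | h
    · apply hSn r hr hrz
      have h1 := h.of_dvd hrP
      exact (Nat.modEq_zero_iff_dvd).1 (h1.symm.trans ((Nat.modEq_zero_iff_dvd).2 hrN))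
    · apply hSg r hr hrz
      have h1 := h.of_dvd hrP
      exact (Nat.modEq_zero_iff_dvd).1 (h1.symm.trans ((Nat.modEq_zero_iff_dvd).2 hrN))
  -- the sieve conditions for p ∈ PP
  have sv : ∀ r ∈ PP, ¬ r ∣ d ∧ ¬ r ∣ m1 ∧ ¬ r ∣ m2 ∧ ¬ r ^ 2 ∣ p ∧ ¬ r ∣ b ∧ ¬ r ∣ B := by
    intro r hr
    have hrp := hPP r hr
    obtain ⟨t1, t2, t3, t4⟩ := hS r hr
    simp only [cd, cU, cV, ← hd] at t1 t2 t3 t4
    have hrb : ¬ r ∣ b := by
      intro h
      have := (Nat.prime_dvd_prime_iff_eq hrp hb).1 h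
      apply hbP
      rw [← this]
      exact (Finset.dvd_prod_of_mem _ hr).mul_left _
    have hrB : ¬ r ∣ B := by
      intro h
      have := (Nat.prime_dvd_prime_iff_eq hrp hB).1 h
      apply hBP
      rw [← this]
      exact (Finset.dvd_prod_of_mem _ hr).mul_left _
    have hMr := hMp r hr
    have u1 : ¬ r ∣ b * M + s * D := by
      intro h
      apply t2
      have h1 : b * M + s * D ≡ b * M0 + s * D [MOD r] := (hMr.mul_left b).add_right _
      exact (Nat.modEq_zero_iff_dvd).1 (h1.symm.trans ((Nat.modEq_zero_iff_dvd).2 h))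
    have u2 : ¬ r ∣ B * M + L * D := by
      intro h
      apply t3
      have h1 : B * M + L * D ≡ B * M0 + L * D [MOD r] := (hMr.mul_left B).add_right _
      exact (Nat.modEq_zero_iff_dvd).1 (h1.symm.trans ((Nat.modEq_zero_iff_dvd).2 h))
    refine ⟨t1, ?_, ?_, ?_, hrb, hrB⟩
    · intro h; apply u1; rw [e3]; exact h.mul_left _
    · intro h; apply u2; rw [e4]; exact h.mul_left _
    · intro h
      -- b B p = b L (n + g) - B s n
      have hid : (b : ℤ) * B * p = b * L * (n + g) - B * s * n := by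
        have h7 : (n + g : ℤ) = B * n2 := by exact_mod_cast e2
        have h8 : (n : ℤ) = b * n1 := by exact_mod_cast e1
        have h9 : (n2 : ℤ) * L = n1 * s + p := by exact_mod_cast e5
        rw [h7, h8]
        linear_combination -(b : ℤ) * B * h9
      by_cases hgc : r ∣ n ∧ r ∣ g
      · rw [if_pos hgc, if_pos hgc] at t4
        apply t4
        obtain ⟨⟨x, hx⟩, ⟨y, hy⟩⟩ := hgc
        have hr0 : 0 < r := hrp.pos
        have q1 : (n + g) / r = x + y := by
          rw [hx, hy, ← mul_add]; exact Nat.mul_div_cancel_left _ hr0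
        have q2 : n / r = x := by rw [hx]; exact Nat.mul_div_cancel_left _ hr0
        rw [q1, q2]
        obtain ⟨k, hk⟩ := h
        have hx' : (n : ℤ) = r * x := by exact_mod_cast hx
        have hy' : (g : ℤ) = r * y := by exact_mod_cast hy
        have hk' : (p : ℤ) = r ^ 2 * k := by exact_mod_cast hk
        have hr0' : (r : ℤ) ≠ 0 := by exact_mod_cast hr0.ne'
        refine ⟨b * B * k, ?_⟩
        push_cast
        apply mul_left_cancel₀ hr0'
        rw [hx', hy', hk'] at hid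
        linear_combination -hid
      · rw [if_neg hgc, if_neg hgc] at t4
        apply t4
        have h1 : (r : ℤ) ∣ b * B * p := by
          have h2 : (r : ℤ) ∣ p := by
            have h3 : (r : ℤ) ^ 2 ∣ p := by exact_mod_cast h
            exact (dvd_pow_self _ (by norm_num)).trans h3
          exact h2.mul_left _
        rw [hid] at h1
        push_cast
        exact h1
  -- squares of the primes in PP
  have sqP : ∀ r ∈ PP, (r : ℝ) ≤ z1 → ¬ r ^ 2 ∣ n1 * (d * m1) ∧ ¬ r ^ 2 ∣ B * p * m1 ∧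
      ¬ r ^ 2 ∣ n2 * (d * m2) ∧ ¬ r ^ 2 ∣ b * p * m2 := by
    intro r hr hrz
    have hrp := hPP r hr
    obtain ⟨v1, v2, v3, v4, v5, v6⟩ := sv r hr
    have cop : ∀ x : ℕ, ¬ r ∣ x → Nat.Coprime (r ^ 2) x := fun x hx =>
      Nat.Coprime.pow_left 2 ((Nat.Prime.coprime_iff_not_dvd hrp).2 hx)
    refine ⟨?_, ?_, ?_, ?_⟩
    · intro h
      have h1 : r ^ 2 ∣ n1 :=
        ((cop d v1).mul_right (cop m1 v2)).dvd_of_dvd_mul_right h
      apply hSn r hrp hrz
      rw [e1]; exact h1.mul_left _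
    · intro h
      have h1 : r ^ 2 ∣ B * p := (cop m1 v2).dvd_of_dvd_mul_right h
      exact v4 ((cop B v6).dvd_of_dvd_mul_left h1)
    · intro h
      have h1 : r ^ 2 ∣ n2 :=
        ((cop d v1).mul_right (cop m2 v3)).dvd_of_dvd_mul_right h
      apply hSg r hrp hrz
      rw [e2]; exact h1.mul_left _
    · intro h
      have h1 : r ^ 2 ∣ b * p := (cop m2 v3).dvd_of_dvd_mul_right h
      exact v4 ((cop b v5).dvd_of_dvd_mul_left h1)
  have sf : ∀ N ∈ num b B g n M (s, L, D), SF z1 N := by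
    intro N hN r hr hrz
    rw [hnum] at hN
    simp only [mem_insert, mem_singleton] at hN
    rcases hPz r hr hrz with h | h
    · obtain ⟨j1, j2, j3, j4⟩ := sqP r h hrz
      rcases hN with rfl | rfl | rfl | rfl
      · exact j1
      · exact j2
      · exact j3
      · exact j4
    · rcases hN with rfl | rfl | rfl | rfl
      · exact sq0 _ (Or.inl k1) r hr hrz h
      · exact sq0 _ (Or.inl k2) r hr hrz h
      · exact sq0 _ (Or.inr k3) r hr hrz h
      · exact sq0 _ (Or.inl k4) r hr hrz h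
  have md : ∀ N ∈ num b B g n M (s, L, D), t < (N : ℝ) ∧ (N : ℝ) < t + c * √t ∧
      N ≡ a [MOD q] := by
    intro N hN
    rw [hnum] at hN
    simp only [mem_insert, mem_singleton] at hN
    rcases hN with rfl | rfl | rfl | rfl
    · exact ⟨i1.1, i1.2, modq _ (Or.inl k1)⟩
    · exact ⟨i2.1, i2.2, modq _ (Or.inl k2)⟩
    · exact ⟨i3.1, i3.2, modq _ (Or.inr k3)⟩
    · exact ⟨i4.1, i4.2, modq _ (Or.inl k4)⟩
  refine ⟨fun N hN => ⟨(md N hN).1, (md N hN).2.1, (md N hN).2.2, sf N hN⟩, ?_⟩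
  intro hcon hsq
  have m1' : n1 * (d * m1) ∈ num b B g n M (s, L, D) := by rw [hnum]; simp
  have m2' : B * p * m1 ∈ num b B g n M (s, L, D) := by rw [hnum]; simp
  have m3' : n2 * (d * m2) ∈ num b B g n M (s, L, D) := by rw [hnum]; simp
  have m4' : b * p * m2 ∈ num b B g n M (s, L, D) := by rw [hnum]; simp
  have l1 : lam (n1 * (d * m1)) = lam (B * p * m1) :=
    hcon _ _ (md _ m1').1 (md _ m1').2.1 (md _ m1').2.2 (hsq _ m1') (md _ m2').1 (md _ m2').2.1
      (md _ m2').2.2 (hsq _ m2')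
  have l2 : lam (b * p * m2) = lam (n2 * (d * m2)) :=
    hcon _ _ (md _ m4').1 (md _ m4').2.1 (md _ m4').2.2 (hsq _ m4') (md _ m3').1 (md _ m3').2.1
      (md _ m3').2.2 (hsq _ m3')
  have pos : ∀ k : ℕ, t < (k : ℝ) → k ≠ 0 := by
    intro k hk h
    rw [h, Nat.cast_zero] at hk
    linarith
  have r1 := pos _ i1.1
  have r2 := pos _ i2.1
  have r3 := pos _ i3.1
  simp only [ne_eq, mul_eq_zero, not_or] at r1 r2 r3
  obtain ⟨r11, r12, r13⟩ := r1
  obtain ⟨r31, r32, r33⟩ := r3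
  have key := Pool.Agent.PO69.E1.cfg_sign (b1 := b) (n1 := n1) (b2 := B) (n2 := n2) r12 r13 r33
    r2.1.2 hb.ne_zero r2.1.1 r11 r31 l1 l2
  rw [← e1, ← e2] at key
  exact key

end Pool.Agent.MR2
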