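import Pool.Agent.Lib.MR2.StatM

/-! # TANK MR2, row M_CRT: integers of an interval in a class mod `m` that avoid classes modulo the
primes of `PP`.  helper24. -/

set_option autoImplicit false

namespace Pool.Agent.MR2

open Finset Pool.Agent.MRL

namespace CRT

theorem count_class (m r lo hi : ℕ) (hm : 0 < m) (hle : lo ≤ hi) :
    |(((Ico lo hi).filter (fun k => k % m = r % m)).card : ℝ) - ((hi : ℝ) - lo) / m| ≤ 1 := by
  have h := Nat.Ico_filter_modEq_card lo hi hm r
  have h2 : (Ico lo hi).filter (fun k => k % m = r % m) = (Ico lo hi).filter (fun k => k ≡ r [MOD m]) :=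
    rfl
  rw [h2]
  have hmq : (0 : ℚ) < m := by exact_mod_cast hm
  set a : ℚ := ((lo : ℚ) - r) / m with ha
  set b : ℚ := ((hi : ℚ) - r) / m with hb
  have hab : a ≤ b := by
    rw [ha, hb]
    have : (lo : ℚ) ≤ hi := by exact_mod_cast hle
    gcongr
  have hc : ⌈a⌉ ≤ ⌈b⌉ := Int.ceil_le_ceil hab
  rw [max_eq_left (by linarith)] at h
  have hq : ((((Ico lo hi).filter (fun k => k ≡ r [MOD m])).card : ℤ) : ℚ) = ((⌈b⌉ - ⌈a⌉ : ℤ) : ℚ) := by
    rw [← h]
  have h1 := Int.le_ceil a
  have h3 := Int.ceil_lt_add_one a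
  have h4 := Int.le_ceil b
  have h5 := Int.ceil_lt_add_one b
  have hba : b - a = ((hi : ℚ) - lo) / m := by rw [ha, hb]; ring
  have key : |(((Ico lo hi).filter (fun k => k ≡ r [MOD m])).card : ℚ) - ((hi : ℚ) - lo) / m| ≤ 1 := by
    rw [← hba]
    push_cast at hq
    rw [hq, abs_le]
    constructor <;> linarith
  have key2 : ((|(((Ico lo hi).filter (fun k => k ≡ r [MOD m])).card : ℚ)
      - ((hi : ℚ) - lo) / m| : ℚ) : ℝ) ≤ ((1 : ℚ) : ℝ) := by exact_mod_cast key
  push_cast at key2
  exact key2

end CRT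

/-- **Row M_CRT.** -/
theorem crtCount : CrtCount := by
  intro PP
  induction PP using Finset.induction_on with
  | empty =>
    intro _ A _ m r lo hi hm _ hle
    have h := CRT.count_class m r lo hi hm hle
    simpa using h
  | insert p S hp ih =>
    intro hprime A hA m r lo hi hm hcop hle
    have hpp : p.Prime := hprime p (Finset.mem_insert_self _ _)
    have hS : ∀ q ∈ S, q.Prime := fun q hq => hprime q (Finset.mem_insert_of_mem hq)
    have hAS : ∀ q ∈ S, A q ⊆ range q := fun q hq => hA q (Finset.mem_insert_of_mem hq)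
    have hAp : A p ⊆ range p := hA p (Finset.mem_insert_self _ _)
    rw [Finset.prod_insert hp] at hcop
    have hmp : m.Coprime p := Nat.Coprime.coprime_mul_right_right hcop
    have hmS : m.Coprime (∏ q ∈ S, q) := Nat.Coprime.coprime_mul_left_right hcop
    have hpS : p.Coprime (∏ q ∈ S, q) := by
      refine Nat.Coprime.prod_right fun q hq => ?_
      refine (Nat.coprime_primes hpp (hS q hq)).2 ?_
      rintro rfl
      exact hp hq
    have hmpS : (m * p).Coprime (∏ q ∈ S, q) := Nat.Coprime.mul_left hmS hpS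
    set F := (Ico lo hi).filter (fun k => k % m = r % m ∧ ∀ q ∈ insert p S, k % q ∉ A q) with hF
    have hfib : F.card = ∑ a ∈ range p \ A p, (F.filter (fun k => k % p = a)).card := by
      refine Finset.card_eq_sum_card_fiberwise fun k hk => ?_
      have hk' := (Finset.mem_filter.1 (Finset.mem_coe.1 hk)).2
      refine Finset.mem_coe.2 (Finset.mem_sdiff.2 ⟨Finset.mem_range.2 (Nat.mod_lt _ hpp.pos), ?_⟩)
      exact hk'.2 p (Finset.mem_insert_self _ _)
    have hcls : ∀ a ∈ range p \ A p, ∃ c : ℕ, F.filter (fun k => k % p = a)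
        = (Ico lo hi).filter (fun k => k % (m * p) = c % (m * p) ∧ ∀ q ∈ S, k % q ∉ A q) := by
      intro a ha
      obtain ⟨ha1, ha2⟩ := Finset.mem_sdiff.1 ha
      have ha3 : a < p := Finset.mem_range.1 ha1
      obtain ⟨c, hc1, hc2⟩ := Nat.chineseRemainder hmp r a
      refine ⟨c, ?_⟩
      ext k
      simp only [hF, Finset.mem_filter, Finset.mem_Ico, Finset.mem_insert, forall_eq_or_imp]
      constructor
      · rintro ⟨⟨hk, hk1, _, hk3⟩, hk4⟩
        refine ⟨hk, ?_, hk3⟩
        have e1 : k ≡ c [MOD m] := (show k ≡ r [MOD m] from hk1).trans hc1.symm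
        have e2 : k ≡ c [MOD p] := by
          refine Nat.ModEq.trans ?_ hc2.symm
          show k % p = a % p
          rw [hk4, Nat.mod_eq_of_lt ha3]
        exact (Nat.modEq_and_modEq_iff_modEq_mul hmp).1 ⟨e1, e2⟩
      · rintro ⟨hk, hk1, hk3⟩
        obtain ⟨e1, e2⟩ := (Nat.modEq_and_modEq_iff_modEq_mul hmp).2
          (show k ≡ c [MOD m * p] from hk1)
        have e3 : k % p = a := by
          have := e2.trans hc2
          have h4 : k % p = a % p := this
          rw [h4, Nat.mod_eq_of_lt ha3]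
        refine ⟨⟨hk, e1.trans hc1, ?_, hk3⟩, e3⟩
        rw [e3]
        exact ha2
    have hp0 : (0 : ℝ) < p := by exact_mod_cast hpp.pos
    have hm0 : (0 : ℝ) < m := by exact_mod_cast hm
    have hcard : ((range p \ A p).card : ℝ) = (p : ℝ) - (A p).card := by
      rw [Finset.card_sdiff_of_subset hAp, Finset.card_range]
      rw [Nat.cast_sub]
      have := Finset.card_le_card hAp
      rwa [Finset.card_range] at this
    have hcle : ((range p \ A p).card : ℝ) ≤ p := by
      rw [hcard]
      have : (0 : ℝ) ≤ (A p).card := Nat.cast_nonneg _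
      linarith
    set Q : ℝ := ∏ q ∈ S, (1 - ((A q).card : ℝ) / q) with hQ
    have hterm : ∀ a ∈ range p \ A p,
        |((F.filter (fun k => k % p = a)).card : ℝ) - ((hi : ℝ) - lo) / (m * p : ℕ) * Q|
          ≤ ∏ q ∈ S, (q : ℝ) := by
      intro a ha
      obtain ⟨c, hc⟩ := hcls a ha
      rw [hc]
      exact ih hS A hAS (m * p) c lo hi (Nat.mul_pos hm hpp.pos) hmpS hle
    rw [Finset.prod_insert hp, Finset.prod_insert hp, hfib, ← hQ]
    have hexp : ((hi : ℝ) - lo) / m * ((1 - ((A p).card : ℝ) / p) * Q)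
        = ∑ a ∈ range p \ A p, ((hi : ℝ) - lo) / (m * p : ℕ) * Q := by
      rw [Finset.sum_const, nsmul_eq_mul, hcard]
      push_cast
      field_simp
    rw [hexp]
    push_cast
    rw [← Finset.sum_sub_distrib]
    refine (Finset.abs_sum_le_sum_abs _ _).trans ?_
    refine (Finset.sum_le_sum (g := fun _ => ∏ q ∈ S, (q : ℝ)) fun a ha => ?_).trans ?_
    · have := hterm a ha
      push_cast at this
      exact this
    · rw [Finset.sum_const, nsmul_eq_mul]
      exact mul_le_mul_of_nonneg_right hcle (Finset.prod_nonneg fun q _ => Nat.cast_nonneg q)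

end Pool.Agent.MR2
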