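import Pool.Agent.Lib.MR2.Defs
import Pool.Agent.Lib.MRF.DC
import Pool.Agent.Lib.MRL.MV

/-! TANK MR2, row DR: the decomposition by the smallest cell (`BTcell → DecR`).  helper54. -/

set_option autoImplicit false

namespace Pool.Agent.MR2.DR

open Finset Pool.Agent.MRL Pool.Agent.MRF Pool.Agent.MRHal
open Pool.Agent.MRL.DC (PP ind Edge)
open Pool.Agent.MRF.DC (co)

noncomputable section

/-- the pair `(v, p)` produces `n`. -/
def Pr (X : ℝ) (H v1 v p n : ℕ) : Prop :=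
  p ∣ n ∧ n / p ∈ Ioc ⌊X * Real.exp (-((v : ℝ) / H))⌋₊
    ⌊2 * (X * Real.exp (-((v : ℝ) / H)))⌋₊ ∧ ∀ q ∈ PP H v1 (v + 1), ¬ q ∣ n / p

open Classical in
/-- the number of pairs which produce `n`. -/
def cr (X : ℝ) (H v1 v2 n : ℕ) : ℂ :=
  ∑ v ∈ Ico v1 v2, ∑ p ∈ W H v, if Pr X H v1 v p n then 1 else 0

lemma mem_PP {H v1 v2 p : ℕ} : p ∈ PP H v1 v2 ↔ ∃ v, v1 ≤ v ∧ v < v2 ∧ p ∈ W H v := by
  unfold PP
  rw [mem_biUnion]
  constructor
  · rintro ⟨v, hv, hp⟩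
    rw [mem_Ico] at hv
    exact ⟨v, hv.1, hv.2, hp⟩
  · rintro ⟨v, h1, h2, hp⟩
    exact ⟨v, mem_Ico.mpr ⟨h1, h2⟩, hp⟩

lemma prime_W {H v p : ℕ} (hp : p ∈ W H v) : p.Prime := (Pool.Agent.MRL.DC.mem_W.mp hp).2.2

lemma W_inj {H v w p : ℕ} (hv : p ∈ W H v) (hw : p ∈ W H w) : v = w := by
  rcases lt_trichotomy v w with h | h | h
  · exact absurd hw (Finset.disjoint_left.mp (Pool.Agent.MRL.DC.W_disjoint h) hv)
  · exact h
  · exact absurd hv (Finset.disjoint_left.mp (Pool.Agent.MRL.DC.W_disjoint h) hw)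

lemma uniq_aux {X : ℝ} {H v1 v p v' p' n : ℕ} (h1 : v1 ≤ v) (hvv : v ≤ v')
    (hp : p ∈ W H v) (hp' : p' ∈ W H v') (h : Pr X H v1 v p n) (h' : Pr X H v1 v' p' n) :
    v = v' ∧ p = p' := by
  have hpp : p = p' := by
    by_contra hne
    obtain ⟨m, hm⟩ := h'.1
    have hd : p ∣ p' * m := hm ▸ h.1
    rcases (prime_W hp).dvd_mul.mp hd with h2 | h2
    · exact hne ((Nat.prime_dvd_prime_iff_eq (prime_W hp) (prime_W hp')).mp h2)
    · have := h'.2.2 p (mem_PP.mpr ⟨v, h1, by omega, hp⟩)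
      apply this
      rw [hm, Nat.mul_div_cancel_left m (prime_W hp').pos]
      exact h2
  subst hpp
  exact ⟨W_inj hp hp', rfl⟩

lemma uniq {X : ℝ} {H v1 v p v' p' n : ℕ} (h1 : v1 ≤ v) (h1' : v1 ≤ v')
    (hp : p ∈ W H v) (hp' : p' ∈ W H v') (h : Pr X H v1 v p n) (h' : Pr X H v1 v' p' n) :
    v = v' ∧ p = p' := by
  rcases le_total v v' with hv | hv
  · exact uniq_aux h1 hv hp hp' h h'
  · have := uniq_aux h1' hv hp' hp h' h
    exact ⟨this.1.symm, this.2.symm⟩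

lemma cr_one {X : ℝ} {H v1 v2 v p n : ℕ} (h1 : v1 ≤ v) (h2 : v < v2) (hp : p ∈ W H v)
    (h : Pr X H v1 v p n) : cr X H v1 v2 n = 1 := by
  unfold cr
  rw [sum_eq_single v, sum_eq_single p, if_pos h]
  · intro p' hp' hne
    rw [if_neg]
    intro h'
    exact hne (uniq h1 h1 hp' hp h' h).2
  · intro hh; exact absurd hp hh
  · intro v' hv' hne
    apply sum_eq_zero
    intro p' hp'
    rw [if_neg]
    intro h'
    rw [mem_Ico] at hv'
    exact hne (uniq hv'.1 h1 hp' hp h' h).1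
  · intro hh; exact absurd (mem_Ico.mpr ⟨h1, h2⟩) hh

lemma cr_zero {X : ℝ} {H v1 v2 n : ℕ}
    (h : ¬ ∃ v, v1 ≤ v ∧ v < v2 ∧ ∃ p ∈ W H v, Pr X H v1 v p n) : cr X H v1 v2 n = 0 := by
  unfold cr
  apply sum_eq_zero; intro v hv
  apply sum_eq_zero; intro p hp
  rw [mem_Ico] at hv
  rw [if_neg]
  intro h'
  exact h ⟨v, hv.1, hv.2, p, hp, h'⟩

lemma loc2 {X : ℝ} (hX : 1 ≤ X) {H v p n : ℕ} (hp : p ∈ W H v) (h : p ∣ n)
    (h1 : X * Real.exp (1 / (H : ℝ)) < n) (h2 : (n : ℝ) ≤ 2 * X) :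
    n / p ∈ Ioc ⌊X * Real.exp (-((v : ℝ) / H))⌋₊ ⌊2 * (X * Real.exp (-((v : ℝ) / H)))⌋₊ := by
  rw [Pool.Agent.MRL.DC.mem_W] at hp
  have hpos : 0 < X * Real.exp (-((v : ℝ) / H)) := by positivity
  rw [mem_Ioc, Nat.floor_lt hpos.le, Nat.le_floor_iff (by positivity)]
  obtain ⟨m, rfl⟩ := h
  rw [Nat.mul_div_cancel_left m hp.2.2.pos]
  push_cast at h1 h2
  have hE : Real.exp ((v : ℝ) / H) * Real.exp (-((v : ℝ) / H)) = 1 := by
    rw [← Real.exp_add, add_neg_cancel, Real.exp_zero]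
  have hEp := Real.exp_pos ((v : ℝ) / H)
  have hEn := Real.exp_pos (-((v : ℝ) / H))
  have hp0 : (0 : ℝ) < p := by exact_mod_cast hp.2.2.pos
  constructor
  · by_contra hcon
    rw [not_lt] at hcon
    have : (p : ℝ) * m ≤ Real.exp (((v : ℝ) + 1) / H) * (X * Real.exp (-((v : ℝ) / H))) :=
      mul_le_mul hp.2.1 hcon (by positivity) (Real.exp_pos _).le
    have h3 : Real.exp (((v : ℝ) + 1) / H) * (X * Real.exp (-((v : ℝ) / H)))
        = X * Real.exp (1 / (H : ℝ)) := by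
      rw [Pool.Agent.MRL.DC.exp_split]
      calc _ = X * Real.exp (1 / (H : ℝ)) *
            (Real.exp ((v : ℝ) / H) * Real.exp (-((v : ℝ) / H))) := by ring
        _ = _ := by rw [hE, mul_one]
    linarith
  · have h3 : (m : ℝ) * Real.exp ((v : ℝ) / H) ≤ 2 * X := by
      calc (m : ℝ) * Real.exp ((v : ℝ) / H) ≤ m * p := by
            apply mul_le_mul_of_nonneg_left hp.1.le (by positivity)
        _ = p * m := by ring
        _ ≤ _ := h2
    calc (m : ℝ) = (m * Real.exp ((v : ℝ) / H)) * Real.exp (-((v : ℝ) / H)) := by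
          rw [mul_assoc, hE, mul_one]
      _ ≤ (2 * X) * Real.exp (-((v : ℝ) / H)) := mul_le_mul_of_nonneg_right h3 hEn.le
      _ = _ := by ring

/-- integers with two primes (or the square of one) in a cell. -/
def Bad (X : ℝ) (H v1 v2 : ℕ) : Finset ℕ :=
  (Ico v1 v2).biUnion fun v => (W H v).biUnion fun p => (W H v).biUnion fun q =>
    (Ioc 0 ⌊2 * X⌋₊).filter fun n => p * q ∣ n

lemma mem_Bad {X : ℝ} {H v1 v2 v p q n : ℕ} (h1 : v1 ≤ v) (h2 : v < v2) (hp : p ∈ W H v)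
    (hq : q ∈ W H v) (hn : 0 < n) (hnX : n ≤ ⌊2 * X⌋₊) (h : p * q ∣ n) : n ∈ Bad X H v1 v2 := by
  unfold Bad
  rw [mem_biUnion]
  refine ⟨v, mem_Ico.mpr ⟨h1, h2⟩, ?_⟩
  rw [mem_biUnion]
  refine ⟨p, hp, ?_⟩
  rw [mem_biUnion]
  refine ⟨q, hq, ?_⟩
  rw [mem_filter, mem_Ioc]
  exact ⟨⟨hn, hnX⟩, h⟩

lemma card_Bad {X : ℝ} (hX : 1 ≤ X) (H v1 v2 : ℕ) : ((Bad X H v1 v2).card : ℝ) ≤
    2 * X * ∑ v ∈ Ico v1 v2, (∑ p ∈ W H v, 1 / (p : ℝ)) ^ 2 := by
  have h0 : (Bad X H v1 v2).card ≤ ∑ v ∈ Ico v1 v2, ∑ p ∈ W H v, ∑ q ∈ W H v,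
      ⌊2 * X⌋₊ / (p * q) := by
    unfold Bad
    refine card_biUnion_le.trans (sum_le_sum fun v _ => ?_)
    refine card_biUnion_le.trans (sum_le_sum fun p _ => ?_)
    refine card_biUnion_le.trans (sum_le_sum fun q _ => ?_)
    rw [Nat.Ioc_filter_dvd_card_eq_div]
  have h1 : ((Bad X H v1 v2).card : ℝ) ≤ ((∑ v ∈ Ico v1 v2, ∑ p ∈ W H v, ∑ q ∈ W H v,
      ⌊2 * X⌋₊ / (p * q) : ℕ) : ℝ) := by exact_mod_cast h0
  refine h1.trans ?_
  push_cast
  rw [mul_sum]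
  apply sum_le_sum; intro v _
  rw [sq, sum_mul_sum, mul_sum]
  apply sum_le_sum; intro p _
  rw [mul_sum]
  apply sum_le_sum; intro q _
  calc ((⌊2 * X⌋₊ / (p * q) : ℕ) : ℝ) ≤ (⌊2 * X⌋₊ : ℝ) / ((p * q : ℕ) : ℝ) := Nat.cast_div_le
    _ ≤ 2 * X / ((p * q : ℕ) : ℝ) := by
        apply div_le_div_of_nonneg_right (Nat.floor_le (by linarith)) (by positivity)
    _ = 2 * X * (1 / (p : ℝ) * (1 / (q : ℝ))) := by
        push_cast
        rw [div_mul_div_comm, one_mul, mul_one_div]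

/-- the difference of the coefficients. -/
def D (X : ℝ) (H v1 v2 n : ℕ) : ℂ :=
  hit (PP H v1 v2) n * ((ind X n : ℝ) : ℂ) - cr X H v1 v2 n

lemma D_cases {X : ℝ} (hX : 1 ≤ X) {H v1 v2 N n : ℕ} (hn : n ∈ Icc 1 N) :
    D X H v1 v2 n = 0 ∨ ((n ∈ Edge X H N ∨ n ∈ Bad X H v1 v2) ∧ ‖D X H v1 v2 n‖ ≤ 1 ∧
      X < n) := by
  by_cases hex : ∃ v, v1 ≤ v ∧ v < v2 ∧ ∃ p ∈ W H v, Pr X H v1 v p n
  · obtain ⟨v, h1, h2, p, hp, hpr⟩ := hex
    have hcr := cr_one h1 h2 hp hpr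
    have hhit : hit (PP H v1 v2) n = 1 := by
      unfold hit
      rw [if_pos ⟨p, mem_PP.mpr ⟨v, h1, h2, hp⟩, hpr.1⟩]
    have hloc := Pool.Agent.MRL.DC.loc hX hp hpr.1 hpr.2.1
    unfold D
    rw [hcr, hhit, one_mul]
    by_cases hn2 : (n : ℝ) ≤ 2 * X
    · left
      rw [Pool.Agent.MRL.DC.ind_one hX hloc.1 hn2]
      simp
    · right
      rw [not_le] at hn2
      refine ⟨Or.inl ?_, ?_, hloc.1⟩
      · unfold Edge
        rw [mem_union, mem_filter, mem_filter]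
        exact Or.inr ⟨hn, hn2, hloc.2⟩
      · rw [Pool.Agent.MRL.DC.ind_zero hX (Or.inr hn2)]
        simp
  · have hcr := cr_zero hex
    unfold D
    rw [hcr, sub_zero]
    by_cases hhit : ∃ p ∈ PP H v1 v2, p ∣ n
    swap
    · left
      unfold hit
      rw [if_neg hhit, zero_mul]
    have hh1 : hit (PP H v1 v2) n = 1 := by
      unfold hit
      rw [if_pos hhit]
    rw [hh1, one_mul]
    by_cases hn1 : (n : ℝ) ≤ X
    · left
      rw [Pool.Agent.MRL.DC.ind_zero hX (Or.inl hn1)]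
      simp
    rw [not_le] at hn1
    by_cases hn2 : (n : ℝ) ≤ 2 * X
    swap
    · left
      rw [not_le] at hn2
      rw [Pool.Agent.MRL.DC.ind_zero hX (Or.inr hn2)]
      simp
    right
    refine ⟨?_, ?_, hn1⟩
    swap
    · rw [Pool.Agent.MRL.DC.ind_one hX hn1 hn2]
      simp
    by_cases he : (n : ℝ) ≤ X * Real.exp (1 / (H : ℝ))
    · left
      unfold Edge
      rw [mem_union, mem_filter, mem_filter]
      exact Or.inl ⟨hn, hn1, he⟩
    rw [not_le] at he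
    right
    have hex2 : ∃ v, v1 ≤ v ∧ v < v2 ∧ ∃ p ∈ W H v, p ∣ n := by
      obtain ⟨p, hp, hpn⟩ := hhit
      obtain ⟨v, h1, h2, hpv⟩ := mem_PP.mp hp
      exact ⟨v, h1, h2, p, hpv, hpn⟩
    classical
    have hmin := fun {m : ℕ} => Nat.find_min (m := m) hex2
    obtain ⟨h1, h2, p, hp, hpn⟩ := Nat.find_spec hex2
    set v := Nat.find hex2 with hv
    have hnot : ¬ Pr X H v1 v p n := fun h => hex ⟨v, h1, h2, p, hp, h⟩
    unfold Pr at hnot
    have hloc := loc2 hX hp hpn he hn2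
    have hq : ∃ q ∈ PP H v1 (v + 1), q ∣ n / p := by
      by_contra hc
      push Not at hc
      exact hnot ⟨hpn, hloc, hc⟩
    obtain ⟨q, hq, hqn⟩ := hq
    obtain ⟨u, hu1, hu2, hqu⟩ := mem_PP.mp hq
    have hqn' : q ∣ n := hqn.trans (Nat.div_dvd_of_dvd hpn)
    have huv : u = v := by
      by_contra hne
      have hlt : u < v := by omega
      exact hmin hlt ⟨hu1, by omega, q, hqu, hqn'⟩
    subst huv
    rw [mem_Icc] at hn
    apply mem_Bad h1 h2 hp hqu (by omega)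
    · rw [Nat.le_floor_iff (by linarith)]
      exact hn2
    · obtain ⟨m, hm⟩ := hqn
      refine ⟨m, ?_⟩
      rw [mul_assoc, ← hm, Nat.mul_div_cancel' hpn]

lemma S_eq {f : ℕ → ℂ} (hmul : ∀ p m : ℕ, f (p * m) = f p * f m) {w : ℕ → ℂ} {X : ℝ}
    (hX : 1 ≤ X) {H v1 v2 : ℕ} (hH : 1 ≤ H)
    (hw : ∀ p ∈ PP H v1 v2, ∀ m : ℕ, m ≠ 0 → w (p * m) = w m) (t : ℝ) :
    SR f (fun v m => f m * (w m * free (PP H v1 (v + 1)) m)) X H v1 v2 t =
      ∑ n ∈ Icc 1 ⌊6 * X⌋₊, (co f n * (w n * cr X H v1 v2 n)) * nt n t := by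
  classical
  unfold SR
  have hH' : (1 : ℝ) ≤ H := by exact_mod_cast hH
  have h1 : ∀ v ∈ Ico v1 v2, QF f H v t *
      AF (fun m => f m * (w m * free (PP H v1 (v + 1)) m)) (X * Real.exp (-((v : ℝ) / H))) t =
      ∑ p ∈ W H v, ∑ n ∈ Icc 1 ⌊6 * X⌋₊,
        if Pr X H v1 v p n then co f n * w n * nt n t else 0 := by
    intro v hv
    unfold QF AF
    rw [sum_mul_sum]
    apply sum_congr rfl
    intro p hp
    have hp' := Pool.Agent.MRL.DC.mem_W.mp hp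
    have hN : p * ⌊2 * (X * Real.exp (-((v : ℝ) / H)))⌋₊ ≤ ⌊6 * X⌋₊ := by
      rw [Nat.le_floor_iff (by linarith)]
      push_cast
      have hE : Real.exp ((v : ℝ) / H) * Real.exp (-((v : ℝ) / H)) = 1 := by
        rw [← Real.exp_add, add_neg_cancel, Real.exp_zero]
      have hfl := Nat.floor_le (a := 2 * (X * Real.exp (-((v : ℝ) / H)))) (by positivity)
      have he := Pool.Agent.MRL.DC.exp_inv_le hH
      have he3 : Real.exp (1 / (H : ℝ)) ≤ 3 := by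
        refine he.trans ?_
        have : (2 : ℝ) / H ≤ 2 := by
          rw [div_le_iff₀ (by linarith)]; linarith
        linarith
      calc (p : ℝ) * (⌊2 * (X * Real.exp (-((v : ℝ) / H)))⌋₊ : ℝ)
          ≤ Real.exp (((v : ℝ) + 1) / H) * (2 * (X * Real.exp (-((v : ℝ) / H)))) :=
            mul_le_mul hp'.2.1 hfl (by positivity) (Real.exp_pos _).le
        _ = 2 * X * Real.exp (1 / (H : ℝ)) *
              (Real.exp ((v : ℝ) / H) * Real.exp (-((v : ℝ) / H))) := by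
            rw [Pool.Agent.MRL.DC.exp_split]; ring
        _ = 2 * X * Real.exp (1 / (H : ℝ)) := by rw [hE, mul_one]
        _ ≤ 2 * X * 3 := by
            apply mul_le_mul_of_nonneg_left he3 (by linarith)
        _ = 6 * X := by ring
    have hmem : p ∈ PP H v1 v2 := by
      rw [mem_Ico] at hv
      exact mem_PP.mpr ⟨v, hv.1, hv.2, hp⟩
    have hs := Pool.Agent.MRL.DC.sum_mult p ⌊X * Real.exp (-((v : ℝ) / H))⌋₊
      ⌊2 * (X * Real.exp (-((v : ℝ) / H)))⌋₊ ⌊6 * X⌋₊ hp'.2.2.pos hN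
      (fun n => co f n * (w n * free (PP H v1 (v + 1)) (n / p)) * nt n t)
    have hr : ∀ n ∈ Icc 1 ⌊6 * X⌋₊, (if (p ∣ n ∧ n / p ∈ Ioc ⌊X * Real.exp (-((v : ℝ) / H))⌋₊
          ⌊2 * (X * Real.exp (-((v : ℝ) / H)))⌋₊) then
            co f n * (w n * free (PP H v1 (v + 1)) (n / p)) * nt n t else 0) =
        if Pr X H v1 v p n then co f n * w n * nt n t else 0 := by
      intro n _
      by_cases hP : Pr X H v1 v p n
      · rw [if_pos hP, if_pos ⟨hP.1, hP.2.1⟩]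
        unfold free
        rw [if_pos hP.2.2]
        ring
      · rw [if_neg hP]
        split_ifs with hc
        · unfold free
          rw [if_neg]
          · ring
          · intro hfree
            exact hP ⟨hc.1, hc.2, hfree⟩
        · rfl
    rw [← sum_congr rfl hr, ← hs]
    apply sum_congr rfl
    intro m hm
    have hm0 : m ≠ 0 := by
      rw [mem_Ioc] at hm; omega
    have hp0 : (p : ℝ) ≠ 0 := by exact_mod_cast hp'.2.2.ne_zero
    have hmr : (m : ℝ) ≠ 0 := by exact_mod_cast hm0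
    rw [Pool.Agent.MRL.DC.nt_mul hp'.2.2.ne_zero hm0, Nat.mul_div_cancel_left m hp'.2.2.pos,
      hw p hmem m hm0]
    unfold co
    rw [hmul p m]
    have : (((1 / ((p * m : ℕ) : ℝ) : ℝ)) : ℂ) =
        (((1 / (p : ℝ) : ℝ)) : ℂ) * (((1 / (m : ℝ) : ℝ)) : ℂ) := by
      push_cast
      field_simp
    rw [this]
    ring
  rw [sum_congr rfl h1]
  have h2 : ∀ v ∈ Ico v1 v2, ∑ p ∈ W H v, ∑ n ∈ Icc 1 ⌊6 * X⌋₊,
        (if Pr X H v1 v p n then co f n * w n * nt n t else 0) =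
      ∑ n ∈ Icc 1 ⌊6 * X⌋₊, ∑ p ∈ W H v,
        (if Pr X H v1 v p n then co f n * w n * nt n t else 0) := by
    intro v _
    rw [sum_comm]
  rw [sum_congr rfl h2, sum_comm]
  apply sum_congr rfl
  intro n _
  unfold cr
  rw [mul_sum, mul_sum, sum_mul]
  apply sum_congr rfl
  intro v _
  rw [mul_sum, mul_sum, sum_mul]
  apply sum_congr rfl
  intro p _
  split_ifs <;> ring

lemma sum_inv_sq {v1 v2 : ℕ} (h1 : 1 ≤ v1) : ∑ v ∈ Ico v1 v2, 1 / (v : ℝ) ^ 2 ≤ 2 / (v1 : ℝ) := by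
  have h := sum_Ioo_inv_sq_le (α := ℝ) (v1 - 1) v2
  have he : Ioo (v1 - 1) v2 = Ico v1 v2 := by
    ext v
    rw [mem_Ioo, mem_Ico]
    omega
  rw [he] at h
  have hc : (((v1 - 1 : ℕ) : ℝ) + 1) = v1 := by
    rw [Nat.cast_sub h1]
    push_cast
    ring
  rw [hc] at h
  refine le_trans (le_of_eq (sum_congr rfl fun v _ => ?_)) h
  rw [one_div]

theorem decR_aux (hMV : MeanValue) (hBT : BTcell) : DecR := by
  obtain ⟨C, hC, hmv⟩ := hMV
  obtain ⟨B, hB, hbt⟩ := hBT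
  refine ⟨C * (7 * (8 + 4 * B ^ 2)), by positivity, ?_⟩
  intro f hf w hw1 X T H v1 v2 hH hHX hHv _ hH2 hv2 hT hTX hw
  have hH' : (1 : ℝ) ≤ H := by exact_mod_cast hH
  have hX : 1 ≤ X := hH'.trans hHX
  have hX0 : 0 < X := by linarith
  set N := ⌊6 * X⌋₊ with hN
  have hN1 : 1 ≤ N := by
    rw [hN, Nat.one_le_floor_iff]; linarith
  have hNX : (N : ℝ) ≤ 6 * X := Nat.floor_le (by linarith)
  have hfun : ∀ t : ℝ, AF (fun n => f n * (w n * hit (PP H v1 v2) n)) X t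
      - SR f (fun v m => f m * (w m * free (PP H v1 (v + 1)) m)) X H v1 v2 t =
      ∑ n ∈ Icc 1 N, (co f n * (w n * D X H v1 v2 n)) * nt n t := by
    intro t
    rw [Pool.Agent.MRF.DC.A_eq _ hX, S_eq hf.mul hX hH hw, ← sum_sub_distrib]
    apply sum_congr rfl
    intro n _
    unfold D co
    ring
  simp only [hfun]
  refine (hmv N T _ hN1 hT).trans ?_
  have hcoef : ∀ n ∈ Icc 1 N, ‖co f n * (w n * D X H v1 v2 n)‖ ^ 2 ≤
      1 / X ^ 2 * (if n ∈ Edge X H N ∪ Bad X H v1 v2 then 1 else 0) := by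
    intro n hn
    rcases D_cases hX hn with h | ⟨h1, h2, h3⟩
    · rw [h]
      rw [mul_zero, mul_zero, norm_zero]
      split_ifs
      · have : (0 : ℝ) ≤ 1 / X ^ 2 * 1 := by positivity
        simpa using this
      · simp
    · rw [if_pos (mem_union.mpr h1), mul_one]
      have hc : ‖co f n‖ ≤ 1 / X := by
        unfold co
        exact (norm_coef hf.le n).trans (one_div_le_one_div_of_le (by linarith) h3.le)
      have hwD : ‖w n * D X H v1 v2 n‖ ≤ 1 := by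
        rw [norm_mul]
        exact mul_le_one₀ (hw1 n) (norm_nonneg _) h2
      have : ‖co f n * (w n * D X H v1 v2 n)‖ ≤ 1 / X := by
        rw [norm_mul]
        calc ‖co f n‖ * ‖w n * D X H v1 v2 n‖ ≤ 1 / X * 1 :=
              mul_le_mul hc hwD (norm_nonneg _) (by positivity)
          _ = _ := mul_one _
      calc ‖co f n * (w n * D X H v1 v2 n)‖ ^ 2 ≤ (1 / X) ^ 2 :=
            pow_le_pow_left₀ (norm_nonneg _) this 2
        _ = _ := by rw [div_pow, one_pow]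
  have hE := Pool.Agent.MRL.DC.card_Edge hX hH hHX N
  have hBad := card_Bad hX H v1 v2
  have hv1 : 1 ≤ v1 := hH.trans hHv
  have hBadH : ((Bad X H v1 v2).card : ℝ) ≤ 4 * B ^ 2 * X / H := by
    refine hBad.trans ?_
    have hs : ∑ v ∈ Ico v1 v2, (∑ p ∈ W H v, 1 / (p : ℝ)) ^ 2 ≤ 2 * B ^ 2 / H := by
      have hle : ∀ v ∈ Ico v1 v2, (∑ p ∈ W H v, 1 / (p : ℝ)) ^ 2 ≤ B ^ 2 * (1 / (v : ℝ) ^ 2) := by
        intro v hv
        rw [mem_Ico] at hv
        have hvH : H ≤ v := hHv.trans hv.1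
        have hsq : (H : ℝ) ^ 2 ≤ Real.exp ((v : ℝ) / H) := by
          refine hH2.trans (Real.exp_le_exp.mpr ?_)
          apply div_le_div_of_nonneg_right _ (by positivity)
          exact_mod_cast hv.1
        have := hbt H v hH hvH hsq
        calc (∑ p ∈ W H v, 1 / (p : ℝ)) ^ 2 ≤ (B / v) ^ 2 :=
              pow_le_pow_left₀ (sum_nonneg fun p _ => by positivity) this 2
          _ = B ^ 2 * (1 / (v : ℝ) ^ 2) := by rw [div_pow, mul_one_div]
      calc ∑ v ∈ Ico v1 v2, (∑ p ∈ W H v, 1 / (p : ℝ)) ^ 2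
          ≤ ∑ v ∈ Ico v1 v2, B ^ 2 * (1 / (v : ℝ) ^ 2) := sum_le_sum hle
        _ = B ^ 2 * ∑ v ∈ Ico v1 v2, 1 / (v : ℝ) ^ 2 := by rw [mul_sum]
        _ ≤ B ^ 2 * (2 / v1) := mul_le_mul_of_nonneg_left (sum_inv_sq hv1) (by positivity)
        _ ≤ B ^ 2 * (2 / H) := by
            apply mul_le_mul_of_nonneg_left _ (by positivity)
            apply div_le_div_of_nonneg_left (by norm_num) (by linarith)
            exact_mod_cast hHv
        _ = _ := by ring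
    calc 2 * X * ∑ v ∈ Ico v1 v2, (∑ p ∈ W H v, 1 / (p : ℝ)) ^ 2 ≤ 2 * X * (2 * B ^ 2 / H) :=
          mul_le_mul_of_nonneg_left hs (by positivity)
      _ = _ := by ring
  have hsum : ∑ n ∈ Icc 1 N, ‖co f n * (w n * D X H v1 v2 n)‖ ^ 2 ≤
      1 / X ^ 2 * ((8 + 4 * B ^ 2) * X / H) := by
    refine (sum_le_sum hcoef).trans ?_
    rw [← mul_sum]
    apply mul_le_mul_of_nonneg_left _ (by positivity)
    rw [← sum_filter, sum_const, nsmul_eq_mul, mul_one]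
    have h1 : (((Icc 1 N).filter (fun n => n ∈ Edge X H N ∪ Bad X H v1 v2)).card : ℝ) ≤
        ((Edge X H N ∪ Bad X H v1 v2).card : ℝ) := by
      have : (Icc 1 N).filter (fun n => n ∈ Edge X H N ∪ Bad X H v1 v2) ⊆
          Edge X H N ∪ Bad X H v1 v2 := fun n hn => (mem_filter.mp hn).2
      exact_mod_cast card_le_card this
    have h2 : ((Edge X H N ∪ Bad X H v1 v2).card : ℝ) ≤ (Edge X H N).card + (Bad X H v1 v2).card :=
      by exact_mod_cast card_union_le _ _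
    calc _ ≤ _ := h1
      _ ≤ _ := h2
      _ ≤ 8 * X / H + 4 * B ^ 2 * X / H := add_le_add hE hBadH
      _ = _ := by ring
  calc C * (T + N) * ∑ n ∈ Icc 1 N, ‖co f n * (w n * D X H v1 v2 n)‖ ^ 2
      ≤ C * (7 * X) * (1 / X ^ 2 * ((8 + 4 * B ^ 2) * X / H)) := by
        apply mul_le_mul _ hsum (by positivity) (by positivity)
        apply mul_le_mul_of_nonneg_left _ hC.le
        linarith
    _ = C * (7 * (8 + 4 * B ^ 2)) / H := by
        field_simp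

end

end Pool.Agent.MR2.DR

namespace Pool.Agent.MR2

open Pool.Agent.MRL

/-- ROW DR -/
theorem decR (hBT : BTcell) : DecR := DR.decR_aux meanValue hBT

end Pool.Agent.MR2
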