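import Pool.Agent.Lib.MR2.Defs

/-! # TANK MR2: `MRQ` with an arbitrary weight `w`, `SieveWin` in progressions.  helper67. -/

set_option autoImplicit false

namespace Pool.Agent.MR2

open Finset Pool.Agent.MRL Pool.Agent.MRF Pool.Agent.MRHal
open Pool.Agent.MRL.DC (PP)

noncomputable section

/-- sup bound for `f w` (hypothesis of `MRW`): at the parameter `X`, constant `C0`. -/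
def SupW (f w : ℕ → ℂ) (θ C0 X : ℝ) : Prop := ∀ P1 P2 P3 : Finset ℕ,
  (∀ p ∈ P1 ∪ P2 ∪ P3, p.Prime) → ∀ Y : ℝ, √X / 3 ≤ Y → Y ≤ 8 * X →
  ∀ t : ℝ, |t| ≤ 16 * X + 1 →
  ‖AF (fun m => (f m * w m) * ((hit P1 m * hit P2 m) * free P3 m)) Y t‖
    ≤ C0 * (Real.log X) ^ (-θ) * Real.exp ((∑ p ∈ P1 ∪ P2 ∪ P3, 1 / (p : ℝ)) / 4)

/-- ROW MRW: `MRQ` with an arbitrary weight `w` not seeing the primes above `(log X)^κ`. -/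
def MRW : Prop := ∀ θ a K : ℝ, 0 < θ → θ ≤ 1 → 0 < a → a ≤ 1 → 1 ≤ K →
  ∃ κ : ℝ, 0 < κ ∧ ∃ a' : ℝ, 0 < a' ∧ ∀ C0 : ℝ, 0 < C0 → ∃ X0 : ℝ, ∀ X : ℝ, X0 ≤ X → ∃ s : TS,
    (∀ p ∈ s.P1, (Real.log X) ^ κ < (p : ℝ) ∧ (p : ℝ) ≤ (Real.log X) ^ (a / 4)) ∧
    K ≤ ∑ p ∈ s.P1, 1 / (p : ℝ) ∧
    (((Icc 1 ⌊16 * X⌋₊).filter fun n => hit s.P2 n * hit s.P3 n ≠ 1).card : ℝ)
      ≤ X * (Real.log X) ^ (-a') ∧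
    ∀ f : ℕ → ℂ, CM f → ∀ w : ℕ → ℂ, (∀ n, ‖w n‖ ≤ 1) →
      (∀ p : ℕ, p.Prime → (Real.log X) ^ κ < (p : ℝ) → ∀ m : ℕ, m ≠ 0 → w (p * m) = w m) →
      SupW f w θ C0 X →
      ∀ Y : ℝ, X / 8 ≤ Y → Y ≤ 8 * X → ∀ T : ℝ, 1 ≤ T → T ≤ Y / (Real.log X) ^ a →
      ∫ t : ℝ, ‖AF (fun n => (f n * w n) * s.b n) Y t‖ ^ 2 * g T t ≤ (Real.log X) ^ (-a')

/-- ROW SVA: Turán–Kubilius in a window, in a residue class. -/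
def SieveWinA : Prop := ∃ C : ℝ, 0 < C ∧ ∀ q a h x : ℕ, 1 ≤ q → ∀ P : Finset ℕ,
  (∀ p ∈ P, p.Prime ∧ ¬ p ∣ q ∧ q * p ^ 2 ≤ h) → 0 < ∑ p ∈ P, 1 / (p : ℝ) →
  (((Ico x (x + h)).filter fun n => n ≡ a [MOD q] ∧ ∀ p ∈ P, ¬ p ∣ n).card : ℝ)
    ≤ C * ((h : ℝ) / q) / ∑ p ∈ P, 1 / (p : ℝ)

end

end Pool.Agent.MR2
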