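import Pool.Agent.Lib.MR2.StatM
import Pool.Agent.Lib.MR2.EN2

/-! # TANK MR2, stage 2, row ENM: the end of the argument for the Moebius function (helper69) -/

set_option autoImplicit false

namespace Pool.Agent.MR2

open Finset Filter Topology Pool.Agent.MRL

/-- The counting step, general covering form (from `MRAP.count_step`). -/
theorem count_gen {P h : ℕ} {R S κ : ℝ} (hP : 1 ≤ P) (hκ0 : 0 < κ) (hκ1 : κ < 1)
    (hh : 1 ≤ h) (hR : 0 < R) (hRh : 400 * (h : ℝ) ≤ κ * R ^ 2)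
    (hS : 0 < S) (hS1 : 4000 * (P : ℝ) * R ≤ S) (Ex Bad : Finset ℕ)
    (hMR : (Ex.card : ℝ) ≤ κ * R * S / (1000 * P))
    (hbad : (h : ℝ) * (Bad.card : ℝ) ≤ κ * R * S / (2000 * P))
    (hcov : ∀ x : ℕ, (∀ j < h, R * S < ((x + j : ℕ) : ℝ) ∧ ((x + j : ℕ) : ℝ) ≤ 1.005 * R * S ∧
      ⌊S ^ 2 / ((x + j : ℕ) : ℝ)⌋₊ ≡ 1 [MOD P] ∧ Int.fract (S ^ 2 / ((x + j : ℕ) : ℝ)) < κ) →
      x ∈ Ex ∨ ∃ j < h, x + j ∈ Bad) :
    False := by
  classical
  have hh0 : (1 : ℝ) ≤ h := by exact_mod_cast hh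
  have hP0 : (1 : ℝ) ≤ P := by exact_mod_cast hP
  have hSR4 : 4000 * (P : ℝ) ≤ S / R := by
    rw [le_div_iff₀ hR]; exact hS1
  have hSR : 4000 ≤ S / R := by linarith
  -- the index set of `M`
  set I0 := (Finset.Icc ⌈S / (1.005 * R)⌉₊ ⌊S / R - 1⌋₊) with hI0
  set I := I0.filter (fun M => M ≡ 1 [MOD P]) with hI
  -- the starting points of runs
  let A : ℕ → Finset ℕ := fun M =>
    (Finset.Ioc ⌊S ^ 2 / (M + κ)⌋₊ (⌊S ^ 2 / M⌋₊ + 1 - h))
  have hIM : ∀ M ∈ I, S / (1.005 * R) ≤ M ∧ (M : ℝ) ≤ S / R - 1 := by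
    intro M hM
    rw [hI, mem_filter, hI0, Finset.mem_Icc] at hM
    refine ⟨Nat.ceil_le.mp hM.1.1, ?_⟩
    have : (0 : ℝ) ≤ S / R - 1 := by linarith
    exact (Nat.le_floor_iff this).mp hM.1.2
  have hIP : ∀ M ∈ I, M ≡ 1 [MOD P] := fun M hM => (mem_filter.1 hM).2
  have hMpos : ∀ M ∈ I, (0 : ℝ) < M := by
    intro M hM
    exact lt_of_lt_of_le (by positivity) (hIM M hM).1
  -- basic facts on elements of A M
  have hA : ∀ M ∈ I, ∀ x ∈ A M, S ^ 2 / (M + κ) < x ∧ (x : ℝ) + h ≤ S ^ 2 / M + 1 ∧ 0 < x := by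
    intro M hM x hx
    have hM0 := hMpos M hM
    rw [Finset.mem_Ioc] at hx
    obtain ⟨h1, h2⟩ := hx
    have h3 : S ^ 2 / (M + κ) < x := Nat.lt_of_floor_lt h1
    have h4 : x + h ≤ ⌊S ^ 2 / (M : ℝ)⌋₊ + 1 := by omega
    have h5 : ((⌊S ^ 2 / (M : ℝ)⌋₊ : ℕ) : ℝ) ≤ S ^ 2 / M := Nat.floor_le (by positivity)
    have h6 : ((x + h : ℕ) : ℝ) ≤ ((⌊S ^ 2 / (M : ℝ)⌋₊ + 1 : ℕ) : ℝ) := by exact_mod_cast h4
    push_cast at h6
    exact ⟨h3, by linarith, by omega⟩
  -- consequences: for j < h the point x + j lies in the cell and in J_M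
  have hpt : ∀ M ∈ I, ∀ x ∈ A M, ∀ j : ℕ, j < h →
      R * S < ((x + j : ℕ) : ℝ) ∧ ((x + j : ℕ) : ℝ) ≤ 1.005 * R * S ∧
      (M : ℝ) ≤ S ^ 2 / ((x + j : ℕ) : ℝ) ∧ S ^ 2 / ((x + j : ℕ) : ℝ) < M + κ := by
    intro M hM x hx j hj
    obtain ⟨hI1, hI2⟩ := hIM M hM
    have hM0 := hMpos M hM
    obtain ⟨hx1, hx2, hx3⟩ := hA M hM x hx
    have hj' : (j : ℝ) + 1 ≤ h := by exact_mod_cast hj
    have hxr : (0 : ℝ) < x := by exact_mod_cast hx3
    have hj0 : (0 : ℝ) ≤ j := by positivity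
    push_cast
    have hMk : 0 < (M : ℝ) + κ := by linarith
    have e1 : S ^ 2 / (M + κ) < x + j := by linarith
    have e2 : (x : ℝ) + j ≤ S ^ 2 / M := by linarith
    have hxj : (0 : ℝ) < x + j := by linarith
    refine ⟨?_, ?_, ?_, ?_⟩
    · refine lt_of_le_of_lt ?_ e1
      rw [le_div_iff₀ hMk]
      have : (M : ℝ) + κ ≤ S / R := by linarith
      calc R * S * (M + κ) ≤ R * S * (S / R) := by
            apply mul_le_mul_of_nonneg_left this (by positivity)
        _ = S ^ 2 := by field_simp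
    · refine le_trans e2 ?_
      rw [div_le_iff₀ hM0]
      have : 1.005 * R * S * (S / (1.005 * R)) ≤ 1.005 * R * S * M := by
        apply mul_le_mul_of_nonneg_left hI1 (by positivity)
      have h2 : 1.005 * R * S * (S / (1.005 * R)) = S ^ 2 := by field_simp
      linarith
    · rw [le_div_iff₀ hxj]
      rw [le_div_iff₀ hM0] at e2
      linarith
    · rw [div_lt_iff₀ hxj]
      rw [div_lt_iff₀ hMk] at e1
      linarith
  -- disjointness
  have hdisj : ∀ M ∈ I, ∀ M' ∈ I, M ≠ M' → Disjoint (A M) (A M') := by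
    intro M hM M' hM' hne
    rw [Finset.disjoint_left]
    intro x hx hx'
    apply hne
    have h1 := hpt M hM x hx 0 (by omega)
    have h2 := hpt M' hM' x hx' 0 (by omega)
    have h3 : (M : ℝ) < M' + 1 := by linarith [h1.2.2.1, h2.2.2.2]
    have h4 : (M' : ℝ) < M + 1 := by linarith [h2.2.2.1, h1.2.2.2]
    have h5 : M < M' + 1 := by exact_mod_cast h3
    have h6 : M' < M + 1 := by exact_mod_cast h4
    omega
  -- size of A M
  have hcardA : ∀ M ∈ I, κ * R ^ 2 / 2 ≤ ((A M).card : ℝ) := by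
    intro M hM
    obtain ⟨hI1, hI2⟩ := hIM M hM
    have hM0 := hMpos M hM
    have hMk : 0 < (M : ℝ) + κ := by linarith
    have h1 : (S ^ 2 / M : ℝ) < ⌊S ^ 2 / (M : ℝ)⌋₊ + 1 := Nat.lt_floor_add_one _
    have h2 : ((⌊S ^ 2 / (M + κ)⌋₊ : ℕ) : ℝ) ≤ S ^ 2 / (M + κ) := Nat.floor_le (by positivity)
    have h3 : κ * R ^ 2 ≤ S ^ 2 / M - S ^ 2 / (M + κ) := by
      have : S ^ 2 / M - S ^ 2 / (M + κ) = S ^ 2 * κ / (M * (M + κ)) := by
        field_simp
        ring
      rw [this, le_div_iff₀ (by positivity)]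
      have h4 : (M : ℝ) + κ ≤ S / R := by linarith
      have h5 : (M : ℝ) ≤ S / R := by linarith
      have h6 : (M : ℝ) * (M + κ) ≤ (S / R) * (S / R) :=
        mul_le_mul h5 h4 hMk.le (by positivity)
      calc κ * R ^ 2 * (M * (M + κ)) ≤ κ * R ^ 2 * ((S / R) * (S / R)) := by
            apply mul_le_mul_of_nonneg_left h6 (by positivity)
        _ = S ^ 2 * κ := by field_simp
    have h7 : (A M).card = ⌊S ^ 2 / (M : ℝ)⌋₊ + 1 - h - ⌊S ^ 2 / ((M : ℝ) + κ)⌋₊ := by
      simp only [A, Nat.card_Ioc]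
    have h8 : (⌊S ^ 2 / (M : ℝ)⌋₊ : ℝ) + 1 - h - ⌊S ^ 2 / ((M : ℝ) + κ)⌋₊ ≤ ((A M).card : ℝ) := by
      rw [h7]
      have : ((⌊S ^ 2 / (M : ℝ)⌋₊ + 1 : ℕ) : ℝ) - h - ⌊S ^ 2 / ((M : ℝ) + κ)⌋₊ ≤
          ((⌊S ^ 2 / (M : ℝ)⌋₊ + 1 - h - ⌊S ^ 2 / ((M : ℝ) + κ)⌋₊ : ℕ) : ℝ) := by
        have hz : ((⌊S ^ 2 / (M : ℝ)⌋₊ + 1 : ℕ) : ℤ) - h - ⌊S ^ 2 / ((M : ℝ) + κ)⌋₊ ≤
          ((⌊S ^ 2 / (M : ℝ)⌋₊ + 1 - h - ⌊S ^ 2 / ((M : ℝ) + κ)⌋₊ : ℕ) : ℤ) := by
          omega
        exact_mod_cast hz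
      push_cast at this ⊢
      linarith
    linarith
  -- number of M
  have hcardI : 0.004 * (S / R) / P ≤ (I.card : ℝ) := by
    have h6 : S / (1.005 * R) ≤ 0.9951 * (S / R) := by
      rw [div_le_iff₀ (by positivity)]
      have : 0.9951 * (S / R) * (1.005 * R) = 0.9951 * 1.005 * S := by
        field_simp
      rw [this]
      nlinarith
    set a : ℝ := S / (1.005 * R) with ha
    set b : ℝ := S / R - 1 with hb
    have ha0 : 0 ≤ a := by positivity
    have hb0 : 0 ≤ b := by linarith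
    -- `k` with `a ≤ P k + 1 ≤ b`
    set k1 : ℕ := ⌈a / P⌉₊ with hk1
    set k2 : ℕ := ⌊(b - 1) / P⌋₊ with hk2
    have hinj : ∀ k ∈ Icc k1 k2, P * k + 1 ∈ I := by
      intro k hk
      rw [mem_Icc] at hk
      have e1 : a / P ≤ k := Nat.ceil_le.1 hk.1
      have e2 : (k : ℝ) ≤ (b - 1) / P := by
        have : (0 : ℝ) ≤ (b - 1) / P := div_nonneg (by linarith) (by linarith)
        exact (Nat.le_floor_iff this).1 hk.2
      rw [div_le_iff₀ (by linarith)] at e1
      rw [le_div_iff₀ (by linarith)] at e2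
      rw [hI, mem_filter, hI0, mem_Icc]
      refine ⟨⟨?_, ?_⟩, ?_⟩
      · apply Nat.ceil_le.2
        push_cast
        linarith
      · apply Nat.le_floor
        push_cast
        linarith
      · show (P * k + 1) % P = 1 % P
        rw [Nat.mul_add_mod]
    have hle : (Icc k1 k2).card ≤ I.card := by
      apply card_le_card_of_injOn (fun k => P * k + 1) (fun k hk => hinj k hk)
      intro x _ y _ hxy
      simp only [add_left_inj] at hxy
      exact Nat.eq_of_mul_eq_mul_left (by omega) hxy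
    have hcardK : (b - 1) / P - a / P - 1 ≤ ((Icc k1 k2).card : ℝ) := by
      rw [Nat.card_Icc]
      have e1 : (k1 : ℝ) < a / P + 1 := Nat.ceil_lt_add_one (by positivity)
      have e2 : (b - 1) / P < (k2 : ℝ) + 1 := Nat.lt_floor_add_one _
      have e3 : (k2 : ℝ) + 1 - k1 ≤ ((k2 + 1 - k1 : ℕ) : ℝ) := by
        have hz : (k2 : ℤ) + 1 - k1 ≤ ((k2 + 1 - k1 : ℕ) : ℤ) := by omega
        exact_mod_cast hz
      linarith
    have hle' : ((Icc k1 k2).card : ℝ) ≤ I.card := by exact_mod_cast hle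
    have h9 : 0.004 * (S / R) / P ≤ (b - 1) / P - a / P - 1 := by
      have : (b - 1) / P - a / P - 1 = (b - 1 - a - P) / P := by field_simp
      rw [this]
      apply div_le_div_of_nonneg_right _ (by linarith)
      linarith
    linarith
  -- union
  set G := I.biUnion A with hG
  have hGcard : (G.card : ℝ) = ∑ M ∈ I, ((A M).card : ℝ) := by
    rw [hG, Finset.card_biUnion (fun M hM M' hM' hne => hdisj M hM M' hM' hne)]
    push_cast
    rfl
  have hGlow : 0.002 * (κ * R * S / P) ≤ (G.card : ℝ) := by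
    rw [hGcard]
    calc 0.002 * (κ * R * S / P) = 0.004 * (S / R) / P * (κ * R ^ 2 / 2) := by
          field_simp
          ring
      _ ≤ (I.card : ℝ) * (κ * R ^ 2 / 2) := by
          apply mul_le_mul_of_nonneg_right hcardI (by positivity)
      _ = ∑ M ∈ I, (κ * R ^ 2 / 2) := by simp
      _ ≤ _ := Finset.sum_le_sum hcardA
  -- every element of G is exceptional or near a bad one
  have hcover : G ⊆ Ex ∪ (Finset.range h).biUnion (fun j => Bad.image (fun n => n - j)) := by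
    intro x hx
    rw [hG, Finset.mem_biUnion] at hx
    obtain ⟨M, hM, hxM⟩ := hx
    have hM0 := hMpos M hM
    have h0 : ∀ j < h, R * S < ((x + j : ℕ) : ℝ) ∧ ((x + j : ℕ) : ℝ) ≤ 1.005 * R * S ∧
      ⌊S ^ 2 / ((x + j : ℕ) : ℝ)⌋₊ ≡ 1 [MOD P] ∧
        Int.fract (S ^ 2 / ((x + j : ℕ) : ℝ)) < κ := by
      intro j hj
      obtain ⟨p1, p2, p3, p4⟩ := hpt M hM x hxM j hj
      have hRS : 0 < R * S := by positivity
      have hflN : ⌊S ^ 2 / ((x + j : ℕ) : ℝ)⌋₊ = M := by
        rw [Nat.floor_eq_iff (by positivity)]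
        exact ⟨p3, by linarith⟩
      refine ⟨p1, p2, ?_, ?_⟩
      · rw [hflN]; exact hIP M hM
      · have hfl : ⌊S ^ 2 / ((x + j : ℕ) : ℝ)⌋ = (M : ℤ) := by
          rw [Int.floor_eq_iff]
          constructor
          · exact_mod_cast p3
          · have : S ^ 2 / ((x + j : ℕ) : ℝ) < (M : ℝ) + 1 := by linarith
            exact_mod_cast this
        rw [← Int.self_sub_floor, hfl]
        have : ((M : ℤ) : ℝ) = (M : ℝ) := by norm_cast
        rw [this]
        linarith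
    rcases hcov x h0 with h1 | ⟨j, hj, h1⟩
    · exact Finset.mem_union_left _ h1
    · apply Finset.mem_union_right
      rw [Finset.mem_biUnion]
      exact ⟨j, Finset.mem_range.mpr hj, Finset.mem_image.2 ⟨x + j, h1, by omega⟩⟩
  have hcard := Finset.card_le_card hcover
  have h1 : (G.card : ℝ) ≤ Ex.card + (h : ℝ) * (Bad.card : ℝ) := by
    have e1 : ((Finset.range h).biUnion (fun j => Bad.image (fun n => n - j))).card
        ≤ h * Bad.card := by
      refine le_trans Finset.card_biUnion_le ?_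
      refine le_trans (Finset.sum_le_sum (fun j _ => Finset.card_image_le)) ?_
      simp
    have e2 : G.card ≤ Ex.card + h * Bad.card := by
      refine hcard.trans ((Finset.card_union_le _ _).trans ?_)
      exact Nat.add_le_add_left e1 _
    exact_mod_cast e2
  have h5 : 0 < κ * R * S / P := by positivity
  have h6 : κ * R * S / (2000 * P) = 0.0005 * (κ * R * S / P) := by
    field_simp; norm_num
  have h7 : κ * R * S / (1000 * P) = 0.001 * (κ * R * S / P) := by
    field_simp; norm_num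
  rw [h6] at hbad
  rw [h7] at hMR
  linarith

/-- A change of `lam` between two elements of the set produces a gap or a close pair. -/
theorem exists_link {q a G : ℕ} {z : ℝ} (hq : 1 ≤ q) : ∀ d n : ℕ, n ≡ a [MOD q] → SF z n →
    SF z (n + q * d) → lam n ≠ lam (n + q * d) →
    ∃ m : ℕ, n ≤ m ∧ m < n + q * d ∧ m ≡ a [MOD q] ∧ SF z m ∧
      ((∀ k ∈ Icc 1 G, ¬ SF z (m + q * k)) ∨
        ∃ k ∈ Icc 1 G, SF z (m + q * k) ∧ lam m ≠ lam (m + q * k)) := by
  classical
  intro d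
  induction d using Nat.strong_induction_on with
  | _ d ih =>
    intro n hn hS hS' hne
    have hd : 1 ≤ d := by
      rcases Nat.eq_zero_or_pos d with h | h
      · rw [h, Nat.mul_zero, Nat.add_zero] at hne
        exact absurd rfl hne
      · exact h
    have hqd : 0 < q * d := Nat.mul_pos hq hd
    by_cases hgap : ∀ k ∈ Icc 1 G, ¬ SF z (n + q * k)
    · exact ⟨n, le_rfl, by omega, hn, hS, Or.inl hgap⟩
    push Not at hgap
    obtain ⟨k', hk', hk'S⟩ := hgap
    rw [mem_Icc] at hk'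
    have hex : ∃ k : ℕ, 1 ≤ k ∧ SF z (n + q * k) := ⟨k', hk'.1, hk'S⟩
    obtain ⟨k1, k2⟩ := Nat.find_spec hex
    have k3 : Nat.find hex ≤ G := (Nat.find_min' hex ⟨hk'.1, hk'S⟩).trans hk'.2
    have k4 : Nat.find hex ≤ d := Nat.find_min' hex ⟨hd, hS'⟩
    set k := Nat.find hex with hk
    by_cases hl : lam n = lam (n + q * k)
    · have hkd : k < d := by
        rcases Nat.lt_or_ge k d with h | h
        · exact h
        · have : k = d := by omega
          rw [this] at hl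
          exact absurd hl hne
      obtain ⟨e, he⟩ := Nat.exists_eq_add_of_le hkd.le
      have hsum : n + q * k + q * e = n + q * d := by rw [he]; ring
      have hqk : 0 < q * k := Nat.mul_pos hq k1
      obtain ⟨m, m1, m2, m3, m4, m5⟩ := ih e (by omega) (n + q * k)
        (by
          have : n + q * k ≡ n [MOD q] := by simp [Nat.ModEq]
          exact this.trans hn) k2 (by rw [hsum]; exact hS') (by rw [hsum, ← hl]; exact hne)
      exact ⟨m, by omega, by omega, m3, m4, m5⟩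
    · exact ⟨n, le_rfl, by omega, hn, hS, Or.inr ⟨k, mem_Icc.2 ⟨k1, k3⟩, k2, hl⟩⟩

theorem sf_of_squarefree {z : ℝ} {n : ℕ} (h : Squarefree n) : SF z n := by
  intro p hp _ hd
  have := h p (by rw [← sq]; exact hd)
  exact hp.one_lt.ne' (Nat.isUnit_iff.1 this)

/-- `log log t` is smaller than any power of `log t`. -/
theorem eventually_loglog {e : ℝ} (he : 0 < e) :
    ∀ᶠ t : ℝ in atTop, Real.log (Real.log t) ≤ Real.log t ^ e := by
  have h1 := (isLittleO_log_rpow_atTop he).bound (c := 1) one_pos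
  have h2 := Real.tendsto_log_atTop.eventually (h1.and (eventually_ge_atTop (1 : ℝ)))
  filter_upwards [h2] with t ht
  obtain ⟨h3, h4⟩ := ht
  rw [Real.norm_of_nonneg (Real.log_nonneg h4),
    Real.norm_of_nonneg (Real.rpow_nonneg (by linarith) _), one_mul] at h3
  exact h3

/-- The core: no interval with constant `lam` on the squarefree integers of a coprime class. -/
theorem coreM (hL : LinkM) (hGap : GapM) {ω κ : ℝ} (hκ0 : 0 < κ) (hκ1 : κ < 1 / 100)
    (hω : 2 * κ < ω) (hNR : NoRunsM ω) (q a : ℕ) (hq : 1 ≤ q) (ha : a.Coprime q) :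
    ∀ᶠ t : ℝ in atTop, ¬ ConstM q a t (Real.log t ^ (-κ) * √t) := by
  classical
  obtain ⟨P, hP0, T0, hT0⟩ := hL q a κ hq hκ0 hκ1.le
  obtain ⟨X0, hX0⟩ := hNR q a hq ha
  obtain ⟨X1, hX1'⟩ := hGap q a hq ha
  have hP : 1 ≤ P := hP0
  have hPr : (1 : ℝ) ≤ P := by exact_mod_cast hP
  have hPp : (0 : ℝ) < P := by linarith
  have hq0 : (1 : ℝ) ≤ q := by exact_mod_cast hq
  have hqp : (0 : ℝ) < q := by linarith
  have hω0 : 0 < ω := by linarith
  obtain ⟨e, he0, he1, he2⟩ : ∃ e : ℝ, 0 < e ∧ e ≤ 1 / 1000 ∧ 2 * κ + e < ω := by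
    refine ⟨min (1 / 1000) ((ω - 2 * κ) / 2), lt_min (by norm_num) (by linarith),
      min_le_left _ _, ?_⟩
    have := min_le_right (1 / 1000) ((ω - 2 * κ) / 2)
    linarith
  have hll : ∀ᶠ t : ℝ in atTop, (2 : ℝ) ≤ Real.log (Real.log t) :=
    Real.tendsto_log_atTop.eventually (Real.tendsto_log_atTop.eventually (eventually_ge_atTop 2))
  filter_upwards [eventually_ge_atTop T0, eventually_ge_atTop (max 1 (max X0 X1) ^ 2),
    eventually_gt_atTop (Real.exp 1), hll, eventually_loglog he0,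
    eventually_pow_log (α := 1 / 16) (β := 1 / 8 - 2 * κ - e) (by linarith) (400 * 2 * (200 * q)),
    eventually_log_sqrt (1 / 16) (4000 * P),
    eventually_pow_log (α := 2 * κ + e) (β := ω) he2 (2 ^ ω * (200000 * P * q)),
    eventually_pow_log (α := 1 / 16 + 2 * κ + e) (β := 1) (by linarith) (3200000 * P * q),
    eventually_pow_log (α := 2 * κ + 2 * e) (β := 1 / 20) (by linarith) (1600000 * P * q),
    eventually_pow_log (α := 2 / 5) (β := 1 / 2) (by norm_num) (2 ^ (1 / 2 : ℝ))]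
    with t g0 g1 g2 gl gl' g3 g4 g5 g6 g7 g8 hcon
  have ht0 : 0 < t := lt_trans (Real.exp_pos 1) g2
  set L := Real.log t with hLdef
  have hL1 : 1 < L := by
    rw [hLdef, Real.lt_log_iff_exp_lt ht0]
    exact g2
  have hL0 : 0 < L := by linarith
  set c : ℝ := L ^ (-κ) with hc
  set R : ℝ := L ^ (1 / 16 : ℝ) with hR
  set S : ℝ := √t with hS
  set z1 : ℝ := L ^ (2 / 5 : ℝ) with hz1
  have hc0 : 0 < c := Real.rpow_pos_of_pos hL0 _
  have hR1 : 1 ≤ R := Real.one_le_rpow hL1.le (by norm_num)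
  have hR0 : 0 < R := by linarith
  have hS0 : 0 < S := Real.sqrt_pos.2 ht0
  have hSt : S ^ 2 = t := Real.sq_sqrt ht0.le
  have hc1 : c ≤ 1 := Real.rpow_le_one_of_one_le_of_nonpos hL1.le (by linarith)
  have hc2 : c ^ 2 = L ^ (-(2 * κ)) := by
    rw [hc, sq, ← Real.rpow_add hL0]; congr 1; ring
  have hcinv : c ^ 2 * L ^ (2 * κ) = 1 := by
    rw [hc2, ← Real.rpow_add hL0]
    simp
  have hR2 : R ^ 2 = L ^ (1 / 8 : ℝ) := by
    rw [hR, sq, ← Real.rpow_add hL0]; norm_num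
  have hSX : max 1 (max X0 X1) ≤ S := Real.le_sqrt_of_sq_le g1
  have hS1 : 1 ≤ S := (le_max_left _ _).trans hSX
  -- the length of the windows
  set X : ℝ := R * S with hXdef
  have hXS : S ≤ X := by rw [hXdef]; nlinarith
  have hX0X : X0 ≤ X := ((le_max_left _ _).trans (le_max_right _ _)).trans (hSX.trans hXS)
  have hX1X : X1 ≤ X := ((le_max_right _ _).trans (le_max_right _ _)).trans (hSX.trans hXS)
  have hX1 : 1 ≤ X := hS1.trans hXS
  have hlogS : Real.log S = L / 2 := by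
    rw [hS, Real.log_sqrt ht0.le]
  have hXlow : L / 2 ≤ Real.log X := by
    rw [← hlogS]
    exact Real.log_le_log hS0 hXS
  have hRS : R ≤ S := by nlinarith
  have hXhigh : Real.log X ≤ L := by
    apply Real.log_le_log (by linarith)
    rw [hXdef, ← hSt, sq]
    exact mul_le_mul_of_nonneg_right hRS hS0.le
  obtain ⟨h, hh⟩ : ∃ h : ℕ, h = ⌈Real.log X ^ (1 / 16 : ℝ)⌉₊ := ⟨_, rfl⟩
  have hh1 : Real.log X ^ (1 / 16 : ℝ) ≤ h := by rw [hh]; exact Nat.le_ceil _
  have hh2 : (h : ℝ) ≤ 2 * R := by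
    have e1 : (h : ℝ) < Real.log X ^ (1 / 16 : ℝ) + 1 := by
      rw [hh]; exact Nat.ceil_lt_add_one (Real.rpow_nonneg (by linarith) _)
    have e2 : Real.log X ^ (1 / 16 : ℝ) ≤ R :=
      Real.rpow_le_rpow (by linarith) hXhigh (by norm_num)
    linarith
  have hh3 : 1 ≤ h := by
    have : (0 : ℝ) < h := lt_of_lt_of_le (Real.rpow_pos_of_pos (by linarith) _) hh1
    have : 0 < h := by exact_mod_cast this
    omega
  have hhp : (1 : ℝ) ≤ h := by exact_mod_cast hh3
  -- the number of steps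
  obtain ⟨G, hG⟩ : ∃ G : ℕ, G = ⌊Real.log L⌋₊ := ⟨_, rfl⟩
  have hG1 : (G : ℝ) ≤ Real.log L := by rw [hG]; exact Nat.floor_le (by linarith)
  have hG2 : Real.log L < G + 1 := by rw [hG]; exact Nat.lt_floor_add_one _
  have hG3 : (1 : ℝ) ≤ G := by linarith
  have hG0 : (0 : ℝ) < G := by linarith
  have hGe : (G : ℝ) ≤ L ^ e := hG1.trans gl'
  have hGX : Real.log (Real.log X) / 2 ≤ G := by
    have e1 : Real.log (Real.log X) ≤ Real.log L := Real.log_le_log (by linarith) hXhigh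
    linarith
  -- the data of `count_gen`
  set k : ℝ := c ^ 2 / (200 * (q * G)) with hk
  have hk0 : 0 < k := by rw [hk]; positivity
  have hk1 : k < 1 := by
    rw [hk, div_lt_one (by positivity)]
    nlinarith
  have e7 : 0 < L ^ (2 * κ) := Real.rpow_pos_of_pos hL0 _
  have e7' : 0 < L ^ e := Real.rpow_pos_of_pos hL0 _
  -- `1 / k ≤ 200 q L^(2κ + e)`
  have hkinv : k * (200 * q * L ^ (2 * κ) * G) = 1 := by
    rw [hk]
    field_simp
    exact hcinv
  have hkG : ∀ A B : ℝ, 0 ≤ A → A * (200 * q * L ^ (2 * κ) * G) ≤ B → A ≤ k * B := by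
    intro A B hA hAB
    calc A = k * (A * (200 * q * L ^ (2 * κ) * G)) := by
          rw [show k * (A * (200 * q * L ^ (2 * κ) * G)) = A * (k * (200 * q * L ^ (2 * κ) * G)) by
            ring, hkinv, mul_one]
      _ ≤ k * B := mul_le_mul_of_nonneg_left hAB hk0.le
  have hadd : L ^ (2 * κ + e) = L ^ (2 * κ) * L ^ e := Real.rpow_add hL0 _ _
  -- the exceptional windows
  obtain ⟨Ex, hEx⟩ : ∃ Ex : Finset ℕ, Ex = (Icc ⌈X⌉₊ ⌊2 * X⌋₊).filter (fun x => ∀ i < h, ∀ j < h,
      x + i ≡ a [MOD q] → Squarefree (x + i) → x + j ≡ a [MOD q] → Squarefree (x + j) →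
      lam (x + i) = lam (x + j)) := ⟨_, rfl⟩
  have hExc : (Ex.card : ℝ) ≤ X / Real.log X ^ ω := by
    apply hX0 X hX0X h hh1
    intro x hx
    rw [hEx, mem_filter, mem_Icc] at hx
    exact ⟨Nat.ceil_le.1 hx.1.1, (Nat.le_floor_iff (by linarith)).1 hx.1.2, hx.2⟩
  -- the gaps
  obtain ⟨B1, hB1⟩ : ∃ B1 : Finset ℕ, B1 = (Icc ⌈X⌉₊ ⌊2 * X⌋₊).filter (fun n => n ≡ a [MOD q] ∧
      ∀ k ∈ Icc 1 G, ¬ SF z1 (n + q * k)) := ⟨_, rfl⟩
  have hB1c : (B1.card : ℝ) ≤ X / Real.log X := by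
    refine hX1' X z1 hX1X ?_ G hGX B1 ?_
    · calc z1 ≤ (L / 2) ^ (1 / 2 : ℝ) := by
            rw [Real.div_rpow hL0.le (by norm_num), le_div_iff₀ (by positivity), mul_comm]
            exact g8
        _ ≤ Real.log X ^ (1 / 2 : ℝ) := Real.rpow_le_rpow (by positivity) hXlow (by norm_num)
    · intro n hn
      rw [hB1, mem_filter, mem_Icc] at hn
      exact ⟨Nat.ceil_le.1 hn.1.1, (Nat.le_floor_iff (by linarith)).1 hn.1.2, hn.2⟩
  -- the bad pairs
  let B2 : ℕ → Finset ℕ := fun k' => (range (⌊2 * X⌋₊ + 1)).filter (fun n : ℕ =>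
    R * √t < n ∧ (n : ℝ) ≤ 1.01 * R * √t ∧ n ≡ a [MOD q] ∧ SF z1 n ∧ SF z1 (n + q * k') ∧
    ⌊t / n⌋₊ ≡ 1 [MOD P] ∧ Int.fract (t / n) < c ^ 2 / (200 * ((q * k' : ℕ) : ℝ)) ∧
    lam n ≠ lam (n + q * k'))
  have hB2 : ∀ k' ∈ Icc 1 G, ((B2 k').card : ℝ) ≤ S / L ^ (1 / 20 : ℝ) := by
    intro k' hk'
    rw [mem_Icc] at hk'
    refine hT0 t c R z1 g0 rfl rfl rfl hcon (q * k') (Nat.mul_pos hq hk'.1) (dvd_mul_right _ _)
      ?_ (B2 k') ?_
    · push_cast
      apply mul_le_mul_of_nonneg_left _ hqp.le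
      have : (k' : ℝ) ≤ G := by exact_mod_cast hk'.2
      linarith
    · intro n hn
      exact (mem_filter.1 hn).2
  set Bad : Finset ℕ := B1 ∪ (Icc 1 G).biUnion B2 with hBad
  have hBadc : (Bad.card : ℝ) ≤ X / Real.log X + G * (S / L ^ (1 / 20 : ℝ)) := by
    have e1 : (Bad.card : ℝ) ≤ B1.card + ∑ k' ∈ Icc 1 G, ((B2 k').card : ℝ) := by
      have := (card_union_le B1 ((Icc 1 G).biUnion B2)).trans
        (Nat.add_le_add_left (card_biUnion_le (s := Icc 1 G) (t := B2)) _)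
      exact_mod_cast this
    refine e1.trans (add_le_add hB1c ?_)
    calc ∑ k' ∈ Icc 1 G, ((B2 k').card : ℝ) ≤ ∑ k' ∈ Icc 1 G, S / L ^ (1 / 20 : ℝ) :=
          sum_le_sum hB2
      _ = G * (S / L ^ (1 / 20 : ℝ)) := by simp
  refine count_gen (P := P) (h := h) (R := R) (S := S) (κ := k) hP hk0 hk1 hh3 hR0 ?_ hS0 ?_
    Ex Bad ?_ ?_ ?_
  · -- 400 h ≤ k R²
    apply hkG _ _ (by positivity)
    have e1 : L ^ (1 / 16 : ℝ) * L ^ (2 * κ) * L ^ e * L ^ (1 / 8 - 2 * κ - e - 1 / 16) = R ^ 2 := by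
      rw [hR2, ← Real.rpow_add hL0, ← Real.rpow_add hL0, ← Real.rpow_add hL0]
      congr 1; ring
    have e2 : L ^ (1 / 8 - 2 * κ - e) * (L ^ (2 * κ) * L ^ e) = R ^ 2 := by
      rw [hR2, ← Real.rpow_add hL0, ← Real.rpow_add hL0]
      congr 1; ring
    calc 400 * (h : ℝ) * (200 * q * L ^ (2 * κ) * G)
        ≤ 400 * (2 * R) * (200 * q * L ^ (2 * κ) * L ^ e) := by gcongr
      _ = (400 * 2 * (200 * q) * R) * (L ^ (2 * κ) * L ^ e) := by ring
      _ ≤ L ^ (1 / 8 - 2 * κ - e) * (L ^ (2 * κ) * L ^ e) :=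
          mul_le_mul_of_nonneg_right g3 (by positivity)
      _ = R ^ 2 := e2
  · calc 4000 * (P : ℝ) * R = 4000 * P * L ^ (1 / 16 : ℝ) := rfl
      _ ≤ S := g4
  · -- runs
    refine hExc.trans ?_
    have e3 : (L / 2) ^ ω ≤ Real.log X ^ ω := Real.rpow_le_rpow (by positivity) hXlow hω0.le
    have e4 : (L / 2) ^ ω = L ^ ω / 2 ^ ω := Real.div_rpow hL0.le (by norm_num) _
    have e5 : 0 < (2 : ℝ) ^ ω := by positivity
    have e6 : 200000 * (P : ℝ) * q * L ^ (2 * κ + e) ≤ (L / 2) ^ ω := by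
      rw [e4, le_div_iff₀ e5]
      calc 200000 * (P : ℝ) * q * L ^ (2 * κ + e) * 2 ^ ω
          = 2 ^ ω * (200000 * P * q) * L ^ (2 * κ + e) := by ring
        _ ≤ L ^ ω := g5
    have e8 : 0 < Real.log X ^ ω := Real.rpow_pos_of_pos (by linarith) _
    rw [mul_assoc, ← hXdef, div_le_div_iff₀ e8 (by positivity)]
    have e9 : (1000 : ℝ) * P ≤ k * Real.log X ^ ω := by
      apply hkG _ _ (by positivity)
      calc 1000 * (P : ℝ) * (200 * q * L ^ (2 * κ) * G)
          ≤ 1000 * (P : ℝ) * (200 * q * L ^ (2 * κ) * L ^ e) := by gcongr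
        _ = 200000 * (P : ℝ) * q * L ^ (2 * κ + e) := by rw [hadd]; ring
        _ ≤ (L / 2) ^ ω := e6
        _ ≤ Real.log X ^ ω := e3
    calc X * (1000 * P) ≤ X * (k * Real.log X ^ ω) := mul_le_mul_of_nonneg_left e9 (by linarith)
      _ = k * X * Real.log X ^ ω := by ring
  · -- bad
    have e8 : 0 < L ^ (1 / 20 : ℝ) := Real.rpow_pos_of_pos hL0 _
    have f1 : (h : ℝ) * (X / Real.log X) ≤ k * R * S / (4000 * P) := by
      have e9 : 16000 * (P : ℝ) * R ≤ k * L := by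
        apply hkG _ _ (by positivity)
        have e10 : L ^ (1 / 16 + 2 * κ + e) = R * L ^ (2 * κ) * L ^ e := by
          rw [hR, ← Real.rpow_add hL0, ← Real.rpow_add hL0]
        calc 16000 * (P : ℝ) * R * (200 * q * L ^ (2 * κ) * G)
            ≤ 16000 * (P : ℝ) * R * (200 * q * L ^ (2 * κ) * L ^ e) := by gcongr
          _ = 3200000 * P * q * L ^ (1 / 16 + 2 * κ + e) := by rw [e10]; ring
          _ ≤ L ^ (1 : ℝ) := g6
          _ = L := Real.rpow_one L
      have hlX : 0 < Real.log X := by linarith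
      rw [mul_assoc k, ← hXdef, mul_div_assoc', div_le_div_iff₀ hlX (by positivity)]
      calc (h : ℝ) * X * (4000 * P) ≤ 2 * R * X * (4000 * P) := by gcongr
        _ = X * (16000 * P * R) / 2 := by ring
        _ ≤ X * (k * L) / 2 := by gcongr
        _ = k * X * (L / 2) := by ring
        _ ≤ k * X * Real.log X := by gcongr
    have f2 : (h : ℝ) * (G * (S / L ^ (1 / 20 : ℝ))) ≤ k * R * S / (4000 * P) := by
      have e9 : 8000 * (P : ℝ) * G ≤ k * L ^ (1 / 20 : ℝ) := by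
        apply hkG _ _ (by positivity)
        have e10 : L ^ (2 * κ + 2 * e) = L ^ (2 * κ) * (L ^ e * L ^ e) := by
          rw [← Real.rpow_add hL0, ← Real.rpow_add hL0]
          congr 1; ring
        calc 8000 * (P : ℝ) * G * (200 * q * L ^ (2 * κ) * G)
            ≤ 8000 * (P : ℝ) * L ^ e * (200 * q * L ^ (2 * κ) * L ^ e) := by gcongr
          _ = 1600000 * P * q * L ^ (2 * κ + 2 * e) := by rw [e10]; ring
          _ ≤ L ^ (1 / 20 : ℝ) := g7
      rw [show (h : ℝ) * (G * (S / L ^ (1 / 20 : ℝ))) = h * G * S / L ^ (1 / 20 : ℝ) by ring,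
        div_le_div_iff₀ e8 (by positivity)]
      calc (h : ℝ) * G * S * (4000 * P) ≤ 2 * R * G * S * (4000 * P) := by gcongr
        _ = R * S * (8000 * P * G) := by ring
        _ ≤ R * S * (k * L ^ (1 / 20 : ℝ)) := by gcongr
        _ = k * R * S * L ^ (1 / 20 : ℝ) := by ring
    calc (h : ℝ) * (Bad.card : ℝ) ≤ h * (X / Real.log X + G * (S / L ^ (1 / 20 : ℝ))) := by gcongr
      _ ≤ k * R * S / (4000 * P) + k * R * S / (4000 * P) := by rw [mul_add]; exact add_le_add f1 f2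
      _ = k * R * S / (2000 * P) := by field_simp; norm_num
  · -- covering
    intro x hx
    have hRSp : 0 < R * S := by positivity
    by_cases hex : ∀ i < h, ∀ j < h, x + i ≡ a [MOD q] → Squarefree (x + i) →
        x + j ≡ a [MOD q] → Squarefree (x + j) → lam (x + i) = lam (x + j)
    · left
      rw [hEx, mem_filter, mem_Icc]
      have h0 := hx 0 (by omega)
      simp only [add_zero] at h0
      refine ⟨⟨Nat.ceil_le.2 h0.1.le, Nat.le_floor ?_⟩, hex⟩
      linarith [h0.2.1]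
    · right
      push Not at hex
      obtain ⟨i, hi, j, hj, hci, hsi, hcj, hsj, hne⟩ := hex
      have hch : ∀ i j : ℕ, i ≤ j → j < h → x + i ≡ a [MOD q] → Squarefree (x + i) →
          x + j ≡ a [MOD q] → Squarefree (x + j) → lam (x + i) ≠ lam (x + j) →
          ∃ j < h, x + j ∈ Bad := by
        intro i j hij hj hci hsi hcj hsj hne
        have hmod : x + i ≡ x + j [MOD q] := hci.trans hcj.symm
        have hdvd : q ∣ (x + j) - (x + i) := (Nat.modEq_iff_dvd' (by omega)).1 hmod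
        obtain ⟨d, hd⟩ := hdvd
        have hd' : x + i + q * d = x + j := by omega
        obtain ⟨m, m1, m2, m3, m4, m5⟩ := exists_link (q := q) (a := a) (G := G) (z := z1) hq d
          (x + i) hci (sf_of_squarefree hsi) (by rw [hd']; exact sf_of_squarefree hsj)
          (by rw [hd']; exact hne)
        refine ⟨m - x, by omega, ?_⟩
        have hxm : x + (m - x) = m := by omega
        have hw := hx (m - x) (by omega)
        rw [hxm] at hw ⊢
        obtain ⟨w1, w2, w3, w4⟩ := hw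
        rw [hBad, mem_union]
        rcases m5 with hgap | ⟨k', hk', hS', hl'⟩
        · left
          rw [hB1, mem_filter, mem_Icc]
          refine ⟨⟨Nat.ceil_le.2 w1.le, Nat.le_floor ?_⟩, m3, hgap⟩
          linarith
        · right
          rw [mem_biUnion]
          refine ⟨k', hk', mem_filter.2 ⟨?_, w1, ?_, m3, m4, hS', ?_, ?_, hl'⟩⟩
          · rw [mem_range]
            have : m ≤ ⌊2 * X⌋₊ := by
              apply Nat.le_floor
              linarith
            omega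
          · linarith
          · rw [← hSt]; exact w3
          · rw [← hSt]
            refine w4.trans_le ?_
            rw [mem_Icc] at hk'
            have e1 : (k' : ℝ) ≤ G := by exact_mod_cast hk'.2
            have e2 : (0 : ℝ) < k' := by exact_mod_cast hk'.1
            rw [hk]
            push_cast
            gcongr
      rcases le_total i j with hij | hij
      · exact hch i j hij hj hci hsi hcj hsj hne
      · exact hch j i hij hi hcj hsj hci hsi hne.symm

theorem mu_of_lam {n : ℕ} (h : Squarefree n) :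
    ((ArithmeticFunction.moebius n : ℤ) : ℝ) = lam n := by
  rw [ArithmeticFunction.moebius_apply_of_squarefree h]
  unfold lam
  push_cast
  rfl

theorem lam_cases (n : ℕ) : lam n = 1 ∨ lam n = -1 := by
  unfold lam
  exact neg_one_pow_eq_or ℝ _

/-- **Row ENM.** -/
theorem endM : EndM := by
  intro hL hGap ω κ hκ0 hκ1 hω hNR q a hq ha
  obtain ⟨t0, ht0⟩ := ((coreM hL hGap hκ0 hκ1 hω hNR q a hq ha).and
    (eventually_gt_atTop (1 : ℝ))).exists_forall_of_atTop
  refine ⟨t0, fun t ht => ?_⟩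
  obtain ⟨h1, h2⟩ := ht0 t ht
  have hlog : 0 < Real.log t := Real.log_pos h2
  have hlen : √t / Real.log t ^ κ = Real.log t ^ (-κ) * √t := by
    rw [Real.rpow_neg hlog.le]; field_simp
  rw [hlen]
  constructor
  · by_contra hcon
    push Not at hcon
    apply h1
    have key : ∀ m : ℕ, t < m → (m : ℝ) < t + Real.log t ^ (-κ) * √t → m ≡ a [MOD q] →
        Squarefree m → lam m = -1 := by
      intro m e1 e2 e3 e4
      rcases lam_cases m with h | h
      · exfalso
        apply hcon m e1 e2 e3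
        have := mu_of_lam e4
        rw [h] at this
        exact_mod_cast this
      · exact h
    intro m n e1 e2 e3 e4 e5 e6 e7 e8
    rw [key m e1 e2 e3 e4, key n e5 e6 e7 e8]
  · by_contra hcon
    push Not at hcon
    apply h1
    have key : ∀ m : ℕ, t < m → (m : ℝ) < t + Real.log t ^ (-κ) * √t → m ≡ a [MOD q] →
        Squarefree m → lam m = 1 := by
      intro m e1 e2 e3 e4
      rcases lam_cases m with h | h
      · exact h
      · exfalso
        apply hcon m e1 e2 e3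
        have := mu_of_lam e4
        rw [h] at this
        exact_mod_cast this
    intro m n e1 e2 e3 e4 e5 e6 e7 e8
    rw [key m e1 e2 e3 e4, key n e5 e6 e7 e8]

end Pool.Agent.MR2
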