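import Pool.Agent.Lib.MRAP.Stat

/-! TANK MR2, linking side (helper69): exact statements.  `c = (log t)^(-κ)`, `R = (log t)^(1/8)`. -/

set_option autoImplicit false

namespace Pool.Agent.MR2

open Finset Pool.Agent.MRL

/-- `lam` is constant on the integers `≡ a mod q` in `(t, t + ℓ)`. -/
def ConstA (q a : ℕ) (t ℓ : ℝ) : Prop := ∀ m n : ℕ, t < m → (m : ℝ) < t + ℓ → m ≡ a [MOD q] →
  t < n → (n : ℝ) < t + ℓ → n ≡ a [MOD q] → lam m = lam n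

/-- The linking datum for `M`: `s` belongs to `b`, `L` to `B`. -/
def Sol (q : ℕ) (κ f : ℝ) (b B M : ℕ) : Prop := ∃ D s L d : ℕ, 0 < D ∧ 0 < s ∧ 0 < L ∧ 0 < d ∧
  q ∣ D ∧ B * s + d = b * L ∧ d ∣ b * M + s * D ∧ d ∣ B * M + L * D ∧
  f + 0.3 * κ < (s : ℝ) * D / b ∧ (s : ℝ) * D / b < f + 0.4 * κ ∧
  f + 0.8 * κ < (L : ℝ) * D / B ∧ (L : ℝ) * D / B < f + 0.9 * κ

/-- ROW SM2.  The second moment over any finite set `S` with a map `M` that is equidistributed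
modulo all `m ≤ B ^ 4`; `s` runs over `s ≡ 1 mod q`, `s ≤ W`, and `q ∣ D`, `q ∣ L`, `(s, L) = 1`. -/
def SecondMoment2 : Prop := ∃ c0 : ℝ, 0 < c0 ∧ ∃ C0 : ℕ, ∀ (q b B W : ℕ) (κ f : ℝ), 1 ≤ q →
  0 < κ → κ ≤ 1 / 1000 → 0 ≤ f → f ≤ 1 / 200 → b.Prime → B.Prime → b < B →
  ((q : ℝ) / κ) ^ C0 ≤ W → (W : ℝ) ^ C0 ≤ b → 1 + Real.log B ≤ √b →
  ∀ (S : Finset ℕ) (M : ℕ → ℕ) (A η : ℝ), 0 ≤ A → 0 ≤ η →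
  (∀ m r : ℕ, 0 < m → m ≤ B ^ 4 →
    |((S.filter fun n => M n % m = r % m).card : ℝ) - A / m| ≤ η) →
  ∀ S' ⊆ S, (∀ n ∈ S', ¬ Sol q κ f b B (M n)) →
  (S'.card : ℝ) ≤ (q : ℝ) ^ 3 * A / (c0 * κ * Real.log W) + η * (B : ℝ) ^ C0

/-- ROW EQ2.  Equidistribution with power saving, two-sided. -/
def Equi2 : Prop := ∃ t0 : ℝ, ∀ t : ℝ, t0 ≤ t → ∀ (q r Q M0 : ℕ) (u u' R : ℝ), 0 < q → 0 < Q →
  (q : ℝ) ≤ t ^ (1 / 100 : ℝ) → (Q : ℝ) ≤ t ^ (1 / 100 : ℝ) → 0 ≤ u → u ≤ u' → u' ≤ 1 →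
  1 ≤ R → R ≤ t ^ (1 / 100 : ℝ) →
  |(((Icc 1 ⌊1.01 * R * √t⌋₊).filter fun n : ℕ => R * √t < n ∧ n % q = r % q ∧
      ⌊t / n⌋₊ % Q = M0 % Q ∧ u ≤ Int.fract (t / n) ∧ Int.fract (t / n) < u').card : ℝ)
    - (u' - u) * (0.01 * R) / (q * Q) * √t| ≤ t ^ (9 / 20 : ℝ)

/-- ROW SV2.  Integers without a prime factor in `(y, z]`. -/
def Sieve2 : Prop := ∃ C : ℝ, 0 < C ∧ ∀ x y z : ℝ, 2 ≤ y → y ≤ z → z ≤ x → ∀ s : Finset ℕ,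
  (∀ n ∈ s, 1 ≤ n ∧ (n : ℝ) ≤ x ∧ ∀ p : ℕ, p.Prime → y < p → (p : ℝ) ≤ z → ¬ p ∣ n) →
  (s.card : ℝ) ≤ C * x * (Real.log y / Real.log z)

/-- Mertens, upper bound. -/
def MertensUp : Prop := ∃ C : ℝ, ∀ x : ℝ, 3 ≤ x →
  ∑ p ∈ (Icc 1 ⌊x⌋₊).filter Nat.Prime, 1 / (p : ℝ) ≤ Real.log (Real.log x) + C

/-- ROW LK2.  The linking statement, quantitative. -/
def Link2 : Prop := ∀ (q a : ℕ) (κ : ℝ), 1 ≤ q → 0 < κ → κ ≤ 1 / 100 → ∃ T0 : ℝ, ∀ t c R : ℝ,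
  T0 ≤ t → c = Real.log t ^ (-κ) → R = Real.log t ^ (1 / 8 : ℝ) → ConstA q a t (c * √t) →
  ∀ s : Finset ℕ, (∀ n ∈ s, R * √t < n ∧ (n : ℝ) ≤ 1.01 * R * √t ∧
    n ≡ a [MOD q] ∧ ⌊t / n⌋₊ ≡ 1 [MOD q] ∧
    Int.fract (t / n) < c ^ 2 / (200 * q) ∧ lam n ≠ lam (n + q)) →
  (s.card : ℝ) ≤ √t / Real.log t ^ (3 / 20 : ℝ)

/-- The input from Matomäki–Radziwiłł, quantitative: exponent `ω`. -/
def NoRuns2 (ω : ℝ) : Prop := ∀ q a : ℕ, 1 ≤ q → a.Coprime q → ∃ X0 : ℝ, ∀ X : ℝ, X0 ≤ X →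
  ∀ h : ℕ, Real.log X ^ (1 / 8 : ℝ) ≤ h →
  (((Icc ⌈X⌉₊ ⌊2 * X⌋₊).filter (fun x => ∀ i < h, ∀ j < h, x + i ≡ a [MOD q] →
    x + j ≡ a [MOD q] → lam (x + i) = lam (x + j))).card : ℝ) ≤ X / Real.log X ^ ω

/-- The final theorem with exponent `κ`. -/
def Final2 (κ : ℝ) : Prop := ∀ q a : ℕ, 1 ≤ q → ∃ t0 : ℝ, ∀ t : ℝ, t0 ≤ t →
  (∃ n : ℕ, t < n ∧ (n : ℝ) < t + √t / Real.log t ^ κ ∧ n ≡ a [MOD q] ∧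
    Even (ArithmeticFunction.cardFactors n)) ∧
  (∃ n : ℕ, t < n ∧ (n : ℝ) < t + √t / Real.log t ^ κ ∧ n ≡ a [MOD q] ∧
    Odd (ArithmeticFunction.cardFactors n))

/-- ROW EN2.  `NoRuns2 ω → Final2 κ` for every `κ < ω / 2`, `κ < 1 / 100`. -/
def End2 : Prop := Link2 → ∀ ω κ : ℝ, 0 < κ → κ < 1 / 100 → 2 * κ < ω → NoRuns2 ω → Final2 κ

end Pool.Agent.MR2
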