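import Pool.Agent.Lib.MP_bf4c7f_mr.Equi
import Pool.Agent.Lib.MR2.StatL

/-!
# Row EQ2: equidistribution of `(n mod q, ⌊t/n⌋ mod Q, fract (t/n))`, `n ~ R √t`, with a power saving
-/

set_option autoImplicit false

namespace Pool.Agent.MR2

open Finset Pool.Agent.MREq Pool.Agent.Lib.MP_bf4c7f_lp

/-- the exponential sum over the hyperbola, uniform version -/
theorem EQ2_expsum (R1 R2 : ℝ) (hR1 : 1 ≤ R1) (hR : R1 ≤ R2) (q1 q2 a : ℕ)
    (h1 : 0 < q1) (h2 : 0 < q2) (h : ℕ) (hh : 0 < h) (t : ℝ) (ht : 1 ≤ t) (hqt : (q1 : ℝ) ≤ √t)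
    (hQt : 2 * q2 * R2 ≤ √t) :
    ‖∑ l ∈ idx R1 R2 q1 a t, ex (h * (t / (q2 * (a + q1 * l))))‖ ≤
      6 * √(h * q2 * R2 ^ 3 * √t) := by
  have hR2 : 0 < R2 := by linarith
  have hR10 : 0 < R1 := by linarith
  have hq1 : (1 : ℝ) ≤ q1 := by exact_mod_cast h1
  have hq2 : (1 : ℝ) ≤ q2 := by exact_mod_cast h2
  have hh' : (1 : ℝ) ≤ h := by exact_mod_cast hh
  have ht0 : 0 < t := by linarith
  have hsq : 0 < √t := Real.sqrt_pos.2 ht0
  have hss : √t * √t = t := Real.mul_self_sqrt ht0.le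
  set θ0 : ℝ := h * q1 / (q2 * R2 ^ 2) with hθ0
  set G : ℝ := h * q1 / (q2 * R1 ^ 2) with hG
  have hθ0p : 0 < θ0 := by positivity
  have hGp : 0 < G := by positivity
  set K : ℕ := ⌈G⌉₊ with hK
  have hKG : G ≤ K := Nat.le_ceil G
  have hK1 : 1 ≤ K := Nat.ceil_pos.mpr hGp
  have hK1' : (1 : ℝ) ≤ K := by exact_mod_cast hK1
  have hGle : G ≤ h * q1 := by
    rw [hG]
    apply div_le_self (by positivity)
    nlinarith [one_le_pow₀ hR1 (n := 2)]
  have hK2 : (K : ℝ) ≤ 2 * (h * q1) := by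
    have h3 : (K : ℝ) < G + 1 := Nat.ceil_lt_add_one hGp.le
    nlinarith
  set B : ℝ := q2 * R2 ^ 3 / (h * q1 ^ 2) with hB
  have hBp : 0 < B := by positivity
  set lam : ℝ := 2 / (B * √t) with hlam
  have hlamp : 0 < lam := by positivity
  have hP : h * q2 * R2 ^ 3 * √t = 2 * (h * q1) ^ 2 / lam := by
    rw [hlam, hB]
    field_simp
  rcases le_or_gt lam (1 / 4) with hl4 | hl4
  swap
  · -- trivial bound
    have e1 : ‖∑ l ∈ idx R1 R2 q1 a t, ex (h * (t / (q2 * (a + q1 * l))))‖ ≤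
        (R2 - R1) * √t / q1 + 1 := by
      refine (norm_sum_le _ _).trans ?_
      simp only [eq_norm_ex, sum_const, nsmul_eq_mul, mul_one]
      exact card_idx R1 R2 q1 a h1 hR t
    refine e1.trans ?_
    -- `B √t < 8`
    have e2 : B * √t < 8 := by
      rw [hlam, lt_div_iff₀ (by positivity)] at hl4
      linarith
    have e3 : q2 * R2 ^ 3 * √t < 8 * (h * q1 ^ 2) := by
      rw [hB, div_mul_eq_mul_div, div_lt_iff₀ (by positivity)] at e2
      linarith
    have e4 : (q2 * R2 ^ 3 * √t / (3 * q1)) ^ 2 ≤ h * q2 * R2 ^ 3 * √t := by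
      rw [div_pow, div_le_iff₀ (by positivity)]
      have h5 : 0 ≤ q2 * R2 ^ 3 * √t := by positivity
      nlinarith
    have e5 : q2 * R2 ^ 3 * √t / (3 * q1) ≤ √(h * q2 * R2 ^ 3 * √t) :=
      Real.le_sqrt_of_sq_le e4
    have e6 : R2 * √t / (3 * q1) ≤ q2 * R2 ^ 3 * √t / (3 * q1) := by
      apply div_le_div_of_nonneg_right _ (by positivity)
      apply mul_le_mul_of_nonneg_right _ hsq.le
      have h7 : R2 ≤ R2 ^ 3 := by
        have : 1 ≤ R2 ^ 2 := one_le_pow₀ (by linarith)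
        nlinarith
      nlinarith
    have e8 : (R2 - R1) * √t / q1 + 1 ≤ 2 * (R2 * √t / q1) := by
      have h9 : 1 ≤ R1 * √t / q1 := by
        rw [le_div_iff₀ (by linarith)]
        nlinarith
      have h10 : (R2 - R1) * √t / q1 = R2 * √t / q1 - R1 * √t / q1 := by ring
      have h11 : R1 * √t / q1 ≤ R2 * √t / q1 := by gcongr
      linarith
    have e9 : R2 * √t / q1 = 3 * (R2 * √t / (3 * q1)) := by
      field_simp
    linarith
  -- the main case
  set θ : ℝ := √lam with hθ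
  have hθp : 0 < θ := Real.sqrt_pos.2 hlamp
  have hθθ : θ * θ = lam := Real.mul_self_sqrt hlamp.le
  have hθa : θ ≤ 1 / 2 := by
    apply Real.sqrt_le_iff.2
    constructor
    · norm_num
    · linarith
  have hθb : θ ≤ θ0 := by
    apply Real.sqrt_le_iff.2
    refine ⟨hθ0p.le, ?_⟩
    rw [hlam, hθ0, hB, div_pow, div_le_div_iff₀ (by positivity) (by positivity)]
    have e1 : 2 * (q2 * R2 ^ 2) ^ 2 = (2 * q2 * R2) * (q2 * R2 ^ 3) := by ring
    rw [e1]
    have e2 : (h * q1 : ℝ) ^ 2 * (q2 * R2 ^ 3 / (h * q1 ^ 2) * √t) = h * √t * (q2 * R2 ^ 3) := by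
      field_simp
    rw [e2]
    apply mul_le_mul_of_nonneg_right _ (by positivity)
    nlinarith
  have hn : ∀ l ∈ idx R1 R2 q1 a t, R1 * √t < (a : ℝ) + q1 * l ∧ (a : ℝ) + q1 * l ≤ R2 * √t :=
    fun l hl => mem_idx h1 hl
  have hnpos : 0 < R1 * √t := by positivity
  set g : ℕ → ℝ := fun l => h * (t / (q2 * (a + q1 * l))) with hg
  have hq10 : (0 : ℝ) < q1 := by linarith
  have hq20 : (0 : ℝ) < q2 := by linarith
  -- first differences
  have hd : ∀ l : ℕ, 0 < (a : ℝ) + q1 * l →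
      g l - g (l + 1) = h * q1 * t / (q2 * ((a + q1 * l) * (a + q1 * l + q1))) := by
    intro l hl
    simp only [hg]
    push_cast
    have e1 : (a : ℝ) + q1 * (l + 1) = a + q1 * l + q1 := by ring
    rw [e1]
    generalize (a : ℝ) + q1 * l = x at *
    have : x + q1 ≠ 0 := by positivity
    field_simp
    ring
  have hd2 : ∀ l : ℕ, 0 < (a : ℝ) + q1 * l →
      g (l + 1) - g (l + 2) =
        h * q1 * t / (q2 * ((a + q1 * l + q1) * (a + q1 * l + q1 + q1))) := by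
    intro l hl
    have := hd (l + 1) (by push_cast; nlinarith)
    rw [show l + 2 = l + 1 + 1 from rfl, this]
    push_cast
    have e1 : (a : ℝ) + q1 * (l + 1) = a + q1 * l + q1 := by ring
    rw [e1]
  have hlow : ∀ l : ℕ, R1 * √t < (a : ℝ) + q1 * l → (a : ℝ) + q1 * l + q1 ≤ R2 * √t →
      θ0 ≤ g l - g (l + 1) := by
    intro l hl hl'
    rw [hd l (by linarith), hθ0]
    generalize (a : ℝ) + q1 * l = x at *
    have hx : 0 < x := by linarith
    rw [div_le_div_iff₀ (by positivity) (by positivity)]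
    have e : x * (x + q1) ≤ (R2 * √t) * (R2 * √t) :=
      mul_le_mul (by linarith) hl' (by linarith) (by positivity)
    have e2 : (R2 * √t) * (R2 * √t) = R2 ^ 2 * t := by
      rw [← hss]; ring_nf
      rw [Real.sq_sqrt (by positivity)]
    have e3 : x * (x + q1) ≤ R2 ^ 2 * t := by rw [← e2]; exact e
    calc (h : ℝ) * q1 * (q2 * (x * (x + q1))) = (h * q1 * q2) * (x * (x + q1)) := by ring
      _ ≤ (h * q1 * q2) * (R2 ^ 2 * t) := by gcongr
      _ = h * q1 * t * (q2 * R2 ^ 2) := by ring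
  have hup : ∀ l : ℕ, R1 * √t < (a : ℝ) + q1 * l → g l - g (l + 1) ≤ G := by
    intro l hl
    rw [hd l (by linarith), hG]
    generalize (a : ℝ) + q1 * l = x at *
    have hx : 0 < x := by linarith
    rw [div_le_div_iff₀ (by positivity) (by positivity)]
    have e : (R1 * √t) * (R1 * √t) ≤ x * (x + q1) :=
      mul_le_mul (by linarith) (by linarith) (by linarith) (by positivity)
    have e2 : (R1 * √t) * (R1 * √t) = R1 ^ 2 * t := by
      rw [← hss]; ring_nf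
      rw [Real.sq_sqrt (by positivity)]
    have e3 : R1 ^ 2 * t ≤ x * (x + q1) := by rw [← e2]; exact e
    calc (h : ℝ) * q1 * t * (q2 * R1 ^ 2) = (h * q1 * q2) * (R1 ^ 2 * t) := by ring
      _ ≤ (h * q1 * q2) * (x * (x + q1)) := by gcongr
      _ = h * q1 * (q2 * (x * (x + q1))) := by ring
  have hdec : ∀ l : ℕ, R1 * √t < (a : ℝ) + q1 * l → (a : ℝ) + q1 * l + q1 + q1 ≤ R2 * √t →
      g (l + 1) - g (l + 2) + lam ≤ g l - g (l + 1) := by
    intro l hl hl'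
    rw [hd l (by linarith), hd2 l (by linarith)]
    generalize (a : ℝ) + q1 * l = x at *
    have hx : 0 < x := by linarith
    have e1 : (h : ℝ) * q1 * t / (q2 * (x * (x + q1))) -
        h * q1 * t / (q2 * ((x + q1) * (x + q1 + q1))) =
        2 * (h * q1 ^ 2 * t) / (q2 * (x * (x + q1) * (x + q1 + q1))) := by
      have : x + q1 ≠ 0 := by positivity
      have : x + q1 + q1 ≠ 0 := by positivity
      field_simp
      ring
    have e2 : lam ≤ 2 * (h * q1 ^ 2 * t) / (q2 * (x * (x + q1) * (x + q1 + q1))) := by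
      rw [hlam, hB, div_le_div_iff₀ (by positivity) (by positivity)]
      have e3 : x * (x + q1) * (x + q1 + q1) ≤ (R2 * √t) * (R2 * √t) * (R2 * √t) := by
        apply mul_le_mul _ hl' (by positivity) (by positivity)
        exact mul_le_mul (by linarith) (by linarith) (by positivity) (by positivity)
      have e4 : (R2 * √t) * (R2 * √t) * (R2 * √t) = R2 ^ 3 * t * √t := by
        have : t = √t * √t := hss.symm
        calc (R2 * √t) * (R2 * √t) * (R2 * √t) = R2 ^ 3 * (√t * √t) * √t := by ring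
          _ = R2 ^ 3 * t * √t := by rw [hss]
      have e5 : 2 * (q2 * (x * (x + q1) * (x + q1 + q1))) ≤ 2 * (q2 * (R2 ^ 3 * t * √t)) := by
        rw [← e4]
        gcongr
      refine e5.trans (le_of_eq ?_)
      field_simp
    linarith
  have key := eq_gen g lam θ hlamp hθp hθa K ⌊(R1 * √t - a) / q1⌋₊ ⌊(R2 * √t - a) / q1⌋₊ ?_ ?_ ?_
  · have hS : ∑ l ∈ idx R1 R2 q1 a t, ex (h * (t / (q2 * (a + q1 * l)))) =
        ∑ l ∈ Ioc ⌊(R1 * √t - a) / q1⌋₊ ⌊(R2 * √t - a) / q1⌋₊, ex (g l) := rfl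
    rw [hS]
    refine key.trans ?_
    have e1 : 2 * θ / lam = 2 / θ := by
      rw [← hθθ]
      field_simp
    have e2 : 2 / (Real.pi * θ) ≤ 2 / 3 / θ := by
      rw [div_div]
      apply div_le_div_of_nonneg_left (by norm_num) (by positivity)
      have := Real.pi_gt_three
      nlinarith
    have e3 : (1 : ℝ) ≤ (1 / 2) / θ := by
      rw [le_div_iff₀ hθp]; linarith
    have e4 : ((K : ℝ) + 1) * (2 / (Real.pi * θ)) + K * (2 * θ / lam + 1) ≤ 4 * K / θ := by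
      rw [e1]
      have e5 : ((K : ℝ) + 1) * (2 / (Real.pi * θ)) ≤ (2 * K) * (2 / 3 / θ) := by
        apply mul_le_mul (by linarith) e2 (by positivity) (by positivity)
      have e6 : (K : ℝ) * (2 / θ + 1) ≤ K * (2 / θ + (1 / 2) / θ) := by gcongr
      have e7 : (2 * (K : ℝ)) * (2 / 3 / θ) + K * (2 / θ + (1 / 2) / θ) = (23 / 6) * K / θ := by
        field_simp
        ring
      have e8 : (23 / 6) * (K : ℝ) / θ ≤ 4 * K / θ := by
        apply div_le_div_of_nonneg_right _ hθp.le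
        linarith
      linarith
    refine e4.trans ?_
    have e9 : (√2 * (h * q1) / θ) ^ 2 = h * q2 * R2 ^ 3 * √t := by
      rw [hP, div_pow, mul_pow, Real.sq_sqrt (by norm_num), sq θ, hθθ]
    have e10 : √2 * (h * q1) / θ = √(h * q2 * R2 ^ 3 * √t) := by
      rw [← e9, Real.sqrt_sq (by positivity)]
    rw [← e10]
    have e11 : (4 / 3 : ℝ) ≤ √2 := Real.le_sqrt_of_sq_le (by norm_num)
    have e12 : 4 * (K : ℝ) / θ ≤ 8 * (h * q1) / θ := by
      apply div_le_div_of_nonneg_right _ hθp.le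
      linarith
    refine e12.trans ?_
    have e13 : 8 * (h * q1 : ℝ) / θ = 8 * (h * q1 / θ) := by ring
    have e14 : 6 * (√2 * (h * q1) / θ) = (6 * √2) * (h * q1 / θ) := by ring
    rw [e13, e14]
    apply mul_le_mul_of_nonneg_right _ (by positivity)
    linarith
  · intro l hl hl'
    have m1 := hn l (by rw [idx, mem_Ioc]; omega)
    have m2 := hn (l + 2) (by rw [idx, mem_Ioc]; omega)
    push_cast at m2
    have := hdec l m1.1 (by linarith [m2.2])
    linarith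
  · intro l hl hl'
    have m1 := hn l (by rw [idx, mem_Ioc]; omega)
    have m2 := hn (l + 1) (by rw [idx, mem_Ioc]; omega)
    push_cast at m2
    exact hθb.trans (hlow l m1.1 (by linarith [m2.2]))
  · intro l hl hl'
    have m1 := hn l (by rw [idx, mem_Ioc]; omega)
    have := hup l m1.1
    linarith

/-- the constant `∑ h^{-3/2}` -/
noncomputable def EQ2_Z : ℝ := ∑' h : ℕ, 1 / (h : ℝ) ^ (3 / 2 : ℝ)

theorem EQ2_Z_nonneg : 0 ≤ EQ2_Z := tsum_nonneg fun h => by positivity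

theorem EQ2_betsum (R1 R2 : ℝ) (hR1 : 1 ≤ R1) (hR : R1 ≤ R2) (q1 q2 a : ℕ)
    (h1 : 0 < q1) (h2 : 0 < q2) (t : ℝ) (ht : 1 ≤ t) (hqt : (q1 : ℝ) ≤ √t)
    (hQt : 2 * q2 * R2 ≤ √t) (c : ℝ) :
    |∑ l ∈ idx R1 R2 q1 a t, bet (t / (q2 * (a + q1 * l)) + c)| ≤
      √(q2 * R2 ^ 3 * √t) * EQ2_Z := by
  refine (sum_bet_le _ _ c).trans ?_
  have hR2 : 0 < R2 := by linarith
  have hsZ : Summable (fun h : ℕ => 1 / (h : ℝ) ^ (3 / 2 : ℝ)) :=
    Real.summable_one_div_nat_rpow.2 (by norm_num)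
  have hb : ∀ h : ℕ, ‖∑ l ∈ idx R1 R2 q1 a t, ex (h * (t / (q2 * (a + q1 * l))))‖ /
      (Real.pi ^ 2 * (h : ℝ) ^ 2) ≤ √(q2 * R2 ^ 3 * √t) * (1 / (h : ℝ) ^ (3 / 2 : ℝ)) := by
    intro h
    rcases Nat.eq_zero_or_pos h with rfl | hh
    · simp
    have hh' : (0 : ℝ) < h := by exact_mod_cast hh
    have e1 := EQ2_expsum R1 R2 hR1 hR q1 q2 a h1 h2 h hh t ht hqt hQt
    have e2 : √(h * q2 * R2 ^ 3 * √t) = √h * √(q2 * R2 ^ 3 * √t) := by
      rw [← Real.sqrt_mul hh'.le]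
      congr 1
      ring
    have e3 : (h : ℝ) ^ 2 = √h * (h : ℝ) ^ (3 / 2 : ℝ) := by
      rw [Real.sqrt_eq_rpow, ← Real.rpow_add hh', ← Real.rpow_natCast]
      norm_num
    have hpi : 9 ≤ Real.pi ^ 2 := by nlinarith [Real.pi_gt_three]
    rw [div_le_iff₀ (by positivity)]
    refine e1.trans ?_
    rw [e2]
    have e4 : √(q2 * R2 ^ 3 * √t) * (1 / (h : ℝ) ^ (3 / 2 : ℝ)) * (Real.pi ^ 2 * (h : ℝ) ^ 2) =
        Real.pi ^ 2 * (√h * √(q2 * R2 ^ 3 * √t)) := by
      rw [e3]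
      field_simp
    rw [e4]
    apply mul_le_mul_of_nonneg_right _ (by positivity)
    linarith
  have hs2 : Summable (fun h : ℕ => √(q2 * R2 ^ 3 * √t) * (1 / (h : ℝ) ^ (3 / 2 : ℝ))) :=
    hsZ.mul_left _
  have hs1 := Summable.of_nonneg_of_le (fun h : ℕ => by positivity) hb hs2
  refine (hs1.tsum_le_tsum hb hs2).trans (le_of_eq ?_)
  rw [tsum_mul_left]
  rfl

/-- one-sided count in an arc -/
theorem EQ2_arc (S T : Finset ℕ) (x : ℕ → ℝ) (c p δ B : ℝ) (hp : 0 ≤ p) (hδ : 0 < δ)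
    (hB : ∀ c, |∑ l ∈ S, bet (x l + c)| ≤ B) (hTS : T ⊆ S)
    (hT : ∀ l ∈ T, ∃ m : ℤ, |x l - c - m| ≤ p) :
    (T.card : ℝ) ≤ S.card * (2 * p + 2 * δ) + 2 * B / δ := by
  have hB0 : 0 ≤ B := (abs_nonneg _).trans (hB 0)
  have hcard : (T.card : ℝ) ≤ S.card := by exact_mod_cast card_le_card hTS
  have hS0 : (0 : ℝ) ≤ S.card := Nat.cast_nonneg _
  rcases le_or_gt (p + δ) (1 / 2) with hcase | hcase
  · have hone : ∀ l ∈ T, trap p (p + δ) (x l - c) = 1 := by
      intro l hl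
      obtain ⟨m, hm⟩ := hT l hl
      exact trap_eq_one p (p + δ) _ hp (by linarith) hcase m hm
    have hsum1 : (T.card : ℝ) ≤ ∑ l ∈ S, trap p (p + δ) (x l - c) := by
      calc (T.card : ℝ) = ∑ l ∈ T, trap p (p + δ) (x l - c) := by
            rw [sum_congr rfl hone]
            simp
        _ ≤ _ := sum_le_sum_of_subset_of_nonneg hTS fun l _ _ =>
            trap_nonneg _ _ _ hp (by linarith) hcase
    refine hsum1.trans ?_
    have b1 := hB (-c + p)
    have b2 := hB (-c - p)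
    have b3 := hB (-c + (p + δ))
    have b4 := hB (-c - (p + δ))
    have hexp : ∑ l ∈ S, trap p (p + δ) (x l - c) =
        S.card * (2 * p + δ) +
        (∑ l ∈ S, bet (x l + (-c + p)) + ∑ l ∈ S, bet (x l + (-c - p)) -
          ∑ l ∈ S, bet (x l + (-c + (p + δ))) - ∑ l ∈ S, bet (x l + (-c - (p + δ)))) /
          (2 * δ) := by
      rw [← sum_add_distrib, ← sum_sub_distrib, ← sum_sub_distrib, sum_div,
        ← nsmul_eq_mul, ← sum_const, ← sum_add_distrib]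
      apply sum_congr rfl
      intro l _
      unfold trap
      have e1 : p + δ - p = δ := by ring
      rw [e1]
      have e2 : ∀ u v : ℝ, u - c + v = u + (-c + v) := fun u v => by ring
      have e3 : ∀ u v : ℝ, u - c - v = u + (-c - v) := fun u v => by ring
      rw [e2, e3, e2, e3]
      ring
    rw [hexp]
    have hbd : (∑ l ∈ S, bet (x l + (-c + p)) + ∑ l ∈ S, bet (x l + (-c - p)) -
          ∑ l ∈ S, bet (x l + (-c + (p + δ))) - ∑ l ∈ S, bet (x l + (-c - (p + δ)))) /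
          (2 * δ) ≤ 2 * B / δ := by
      have e : 2 * B / δ = 4 * B / (2 * δ) := by
        field_simp
        ring
      rw [e]
      apply div_le_div_of_nonneg_right _ (by positivity)
      have c1 := (abs_le.1 b1).2
      have c2 := (abs_le.1 b2).2
      have c3 := (abs_le.1 b3).1
      have c4 := (abs_le.1 b4).1
      linarith
    have e5 : (S.card : ℝ) * (2 * p + δ) ≤ S.card * (2 * p + 2 * δ) := by
      apply mul_le_mul_of_nonneg_left _ hS0
      linarith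
    linarith
  · have e1 : (S.card : ℝ) * 1 ≤ S.card * (2 * p + 2 * δ) := by
      apply mul_le_mul_of_nonneg_left _ hS0
      linarith
    have e2 : 0 ≤ 2 * B / δ := by positivity
    linarith

/-- two-sided count -/
theorem EQ2_count (S : Finset ℕ) (x : ℕ → ℝ) (α β δ B : ℝ) (hα : 0 ≤ α) (hαβ : α ≤ β)
    (hβ : β ≤ 1) (hδ : 0 < δ) (hB : ∀ c, |∑ l ∈ S, bet (x l + c)| ≤ B) :
    |((S.filter fun l => α ≤ Int.fract (x l) ∧ Int.fract (x l) < β).card : ℝ) -
      (β - α) * S.card| ≤ 2 * δ * S.card + 2 * B / δ := by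
  classical
  set T := S.filter fun l => α ≤ Int.fract (x l) ∧ Int.fract (x l) < β with hTdef
  have hup := EQ2_arc S T x ((α + β) / 2) ((β - α) / 2) δ B (by linarith) hδ hB
    (filter_subset _ _) (by
      intro l hl
      rw [hTdef, mem_filter] at hl
      obtain ⟨-, h1, h2⟩ := hl
      refine ⟨⌊x l⌋, ?_⟩
      have e : x l - (α + β) / 2 - (⌊x l⌋ : ℤ) = Int.fract (x l) - (α + β) / 2 := by
        unfold Int.fract
        ring
      rw [e, abs_le]
      constructor <;> linarith)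
  have hlo := EQ2_arc S (S \ T) x ((α + β) / 2 + 1 / 2) (1 / 2 - (β - α) / 2) δ B (by linarith)
    hδ hB sdiff_subset (by
      intro l hl
      rw [mem_sdiff, hTdef, mem_filter] at hl
      obtain ⟨h0, h1⟩ := hl
      have h2 : ¬ (α ≤ Int.fract (x l) ∧ Int.fract (x l) < β) := fun h => h1 ⟨h0, h⟩
      have f0 := Int.fract_nonneg (x l)
      have f1 := Int.fract_lt_one (x l)
      rcases lt_or_ge (Int.fract (x l)) α with h3 | h3
      · refine ⟨⌊x l⌋ - 1, ?_⟩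
        have e : x l - ((α + β) / 2 + 1 / 2) - ((⌊x l⌋ - 1 : ℤ) : ℝ) =
            Int.fract (x l) - (α + β) / 2 + 1 / 2 := by
          unfold Int.fract
          push_cast
          ring
        rw [e, abs_le]
        constructor <;> linarith
      · have h4 : β ≤ Int.fract (x l) := by
          by_contra h5
          exact h2 ⟨h3, not_le.1 h5⟩
        refine ⟨⌊x l⌋, ?_⟩
        have e : x l - ((α + β) / 2 + 1 / 2) - ((⌊x l⌋ : ℤ) : ℝ) =
            Int.fract (x l) - (α + β) / 2 - 1 / 2 := by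
          unfold Int.fract
          ring
        rw [e, abs_le]
        constructor <;> linarith)
  have hc : ((S \ T).card : ℝ) = S.card - T.card := by
    rw [card_sdiff_of_subset (filter_subset _ _), Nat.cast_sub (card_le_card (filter_subset _ _))]
  rw [hc] at hlo
  rw [abs_le]
  constructor
  · nlinarith
  · nlinarith

theorem EQ2_fract (y u u' : ℝ) (Q m0 : ℕ) (hQ : 0 < Q) (hy : 0 ≤ y)
    (hu : 0 ≤ u) (hu' : u' ≤ 1) :
    (⌊y⌋₊ % Q = m0 ∧ u ≤ Int.fract y ∧ Int.fract y < u') ↔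
      ((m0 + u) / Q ≤ Int.fract (y / Q) ∧ Int.fract (y / Q) < (m0 + u') / Q) := by
  have hQ' : (0 : ℝ) < Q := by exact_mod_cast hQ
  set M := ⌊y⌋₊ with hM
  have hyM : y = M + Int.fract y := by
    have h6 : ((⌊y⌋₊ : ℕ) : ℝ) = ((⌊y⌋ : ℤ) : ℝ) := natCast_floor_eq_intCast_floor hy
    rw [hM, h6]
    exact (Int.floor_add_fract _).symm
  have f0 := Int.fract_nonneg y
  have f1 := Int.fract_lt_one y
  have hk : (M : ℝ) = ((M % Q : ℕ) : ℝ) + Q * ((M / Q : ℕ) : ℝ) := by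
    exact_mod_cast (Nat.mod_add_div M Q).symm
  have hmQ : M % Q < Q := Nat.mod_lt _ hQ
  have hmQ' : ((M % Q : ℕ) : ℝ) + 1 ≤ Q := by exact_mod_cast hmQ
  have hfr : Int.fract (y / Q) = (((M % Q : ℕ) : ℝ) + Int.fract y) / Q := by
    have e : y / Q = ((M / Q : ℕ) : ℝ) + (((M % Q : ℕ) : ℝ) + Int.fract y) / Q := by
      rw [div_eq_iff hQ'.ne', add_mul, div_mul_cancel₀ _ hQ'.ne']
      linarith
    rw [e, Int.fract_natCast_add, Int.fract_eq_self]
    constructor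
    · positivity
    · rw [div_lt_one hQ']
      linarith
  rw [hfr, div_le_div_iff_of_pos_right hQ', div_lt_div_iff_of_pos_right hQ']
  constructor
  · rintro ⟨h1, h2, h3⟩
    rw [h1]
    constructor <;> linarith
  · rintro ⟨h1, h2⟩
    have h3 : m0 ≤ M % Q := by
      have : (m0 : ℝ) < ((M % Q + 1 : ℕ) : ℝ) := by push_cast; linarith
      exact Nat.lt_succ_iff.1 (by exact_mod_cast this)
    have h4 : M % Q ≤ m0 := by
      have : ((M % Q : ℕ) : ℝ) < ((m0 + 1 : ℕ) : ℝ) := by push_cast; linarith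
      exact Nat.lt_succ_iff.1 (by exact_mod_cast this)
    have h5 : M % Q = m0 := le_antisymm h4 h3
    rw [h5] at h1 h2
    exact ⟨h5, by linarith, by linarith⟩

theorem EQ2_card_idx (R1 R2 : ℝ) (q a : ℕ) (hq : 0 < q) (hR : R1 ≤ R2) (t : ℝ)
    (ha : (a : ℝ) ≤ R1 * √t) :
    |((idx R1 R2 q a t).card : ℝ) - (R2 - R1) * √t / q| ≤ 1 := by
  have hq' : (0 : ℝ) < q := by exact_mod_cast hq
  have hup := card_idx R1 R2 q a hq hR t
  have hs : 0 ≤ √t := Real.sqrt_nonneg t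
  have hA : 0 ≤ (R1 * √t - a) / q := div_nonneg (by linarith) hq'.le
  have hAB : (R1 * √t - a) / q ≤ (R2 * √t - a) / q := by
    apply div_le_div_of_nonneg_right _ hq'.le
    nlinarith
  have hlo : (R2 - R1) * √t / q - 1 ≤ ((idx R1 R2 q a t).card : ℝ) := by
    rw [idx, Nat.card_Ioc, Nat.cast_sub (Nat.floor_le_floor hAB)]
    have h1 := Nat.lt_floor_add_one ((R2 * √t - a) / q)
    have h2 := Nat.floor_le hA
    have h3 : (R2 - R1) * √t / q = (R2 * √t - a) / q - (R1 * √t - a) / q := by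
      field_simp
      ring
    rw [h3]
    linarith
  rw [abs_le]
  constructor <;> linarith

theorem EQ2_bij (R : ℝ) (q r Q M0 : ℕ) (hq : 0 < q) (hQ : 0 < Q) (u u' t : ℝ) (ht : 0 < t)
    (hR : 0 < R) (hu : 0 ≤ u) (hu' : u' ≤ 1) (ha : ((r % q : ℕ) : ℝ) ≤ R * √t) :
    ((Icc 1 ⌊1.01 * R * √t⌋₊).filter fun n : ℕ => R * √t < n ∧ n % q = r % q ∧
      ⌊t / n⌋₊ % Q = M0 % Q ∧ u ≤ Int.fract (t / n) ∧ Int.fract (t / n) < u').card =
    ((idx R (1.01 * R) q (r % q) t).filter fun l : ℕ =>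
      (((M0 % Q : ℕ) : ℝ) + u) / Q ≤ Int.fract (t / (Q * (((r % q : ℕ) : ℝ) + q * l))) ∧
      Int.fract (t / (Q * (((r % q : ℕ) : ℝ) + q * l))) < (((M0 % Q : ℕ) : ℝ) + u') / Q).card := by
  have hsq : 0 < √t := Real.sqrt_pos.2 ht
  have hRt : 0 < R * √t := by positivity
  have key : ∀ x : ℝ, 0 < x → ((⌊t / x⌋₊ % Q = M0 % Q ∧ u ≤ Int.fract (t / x) ∧
      Int.fract (t / x) < u') ↔
      ((((M0 % Q : ℕ) : ℝ) + u) / Q ≤ Int.fract (t / (Q * x)) ∧
      Int.fract (t / (Q * x)) < (((M0 % Q : ℕ) : ℝ) + u') / Q)) := by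
    intro x hx
    have e : t / (Q * x) = t / x / Q := by rw [div_div, mul_comm]
    rw [e]
    exact EQ2_fract (t / x) u u' Q (M0 % Q) hQ (by positivity) hu hu'
  refine Finset.card_nbij' (fun n => n / q) (fun l => r % q + q * l) ?_ ?_ ?_ ?_
  · intro n hn
    simp only [coe_filter, mem_Icc, Set.mem_ofPred_eq] at hn ⊢
    obtain ⟨⟨h1, h2⟩, h3, h4, h5⟩ := hn
    have hdiv : r % q + q * (n / q) = n := by
      rw [← h4]
      exact Nat.mod_add_div n q
    have e : ((r % q : ℕ) : ℝ) + q * ((n / q : ℕ) : ℝ) = n := by exact_mod_cast hdiv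
    have hn0 : (0 : ℝ) < n := by linarith
    have h6 : (n : ℝ) ≤ 1.01 * R * √t := (Nat.le_floor_iff' (by omega)).1 h2
    constructor
    · exact mem_idx_of hq hRt.le (Nat.mod_lt _ hq) (by rw [e]; exact h3) ha (by rw [e]; exact h6)
    · rw [e]
      exact (key n hn0).1 h5
  · intro l hl
    simp only [coe_filter, mem_Icc, Set.mem_ofPred_eq] at hl ⊢
    obtain ⟨h1, h2⟩ := hl
    obtain ⟨h3, h4⟩ := mem_idx hq h1
    have e : ((r % q + q * l : ℕ) : ℝ) = ((r % q : ℕ) : ℝ) + q * l := by push_cast; ring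
    have hx : 0 < ((r % q : ℕ) : ℝ) + q * (l : ℝ) := by linarith
    refine ⟨⟨?_, ?_⟩, ?_, ?_, ?_⟩
    · have : (0 : ℝ) < ((r % q + q * l : ℕ) : ℝ) := by rw [e]; exact hx
      exact_mod_cast this
    · apply Nat.le_floor
      rw [e]
      exact h4
    · rw [e]; exact h3
    · rw [Nat.add_mul_mod_self_left, Nat.mod_mod]
    · rw [e]
      exact (key _ hx).2 h2
  · intro n hn
    simp only [coe_filter, mem_Icc, Set.mem_ofPred_eq] at hn
    obtain ⟨-, -, h4, -⟩ := hn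
    simp only
    rw [← h4]
    exact Nat.mod_add_div n q
  · intro l hl
    simp only
    rw [Nat.add_mul_div_left _ _ hq, Nat.div_eq_of_lt (Nat.mod_lt _ hq), zero_add]

/-- **Row EQ2.** -/
theorem equi2 : Equi2 := by
  refine ⟨(5 + 4 * EQ2_Z) ^ (25 : ℝ), ?_⟩
  intro t ht q r Q M0 u u' R hq hQ hqt hQt hu huu hu' hR1 hRt
  have hZ := EQ2_Z_nonneg
  have hbase : (1 : ℝ) ≤ 5 + 4 * EQ2_Z := by linarith
  have ht1 : 1 ≤ t := (Real.one_le_rpow hbase (by norm_num)).trans ht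
  have ht0 : 0 < t := by linarith
  have hsq : 0 < √t := Real.sqrt_pos.2 ht0
  have hpow : 5 + 4 * EQ2_Z ≤ t ^ (1 / 25 : ℝ) := by
    have h1 : ((5 + 4 * EQ2_Z) ^ (25 : ℝ)) ^ (1 / 25 : ℝ) ≤ t ^ (1 / 25 : ℝ) :=
      Real.rpow_le_rpow (by positivity) ht (by norm_num)
    rwa [← Real.rpow_mul (by linarith), show (25 : ℝ) * (1 / 25) = 1 by norm_num,
      Real.rpow_one] at h1
  have hsr : √t = t ^ (1 / 2 : ℝ) := Real.sqrt_eq_rpow t
  have hmono : ∀ x y : ℝ, x ≤ y → t ^ x ≤ t ^ y := fun x y h =>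
    Real.rpow_le_rpow_of_exponent_le ht1 h
  have hadd : ∀ x y : ℝ, t ^ x * t ^ y = t ^ (x + y) := fun x y => (Real.rpow_add ht0 x y).symm
  have hq1 : (1 : ℝ) ≤ q := by exact_mod_cast hq
  have hQ1 : (1 : ℝ) ≤ Q := by exact_mod_cast hQ
  have hqs : (q : ℝ) ≤ √t := by
    rw [hsr]
    exact hqt.trans (hmono _ _ (by norm_num))
  have h5 : (5 : ℝ) ≤ t ^ (1 / 25 : ℝ) := by linarith
  have hQR : 2 * Q * (1.01 * R) ≤ √t := by
    have h1 : (Q : ℝ) * R ≤ t ^ (1 / 100 : ℝ) * t ^ (1 / 100 : ℝ) :=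
      mul_le_mul hQt hRt (by linarith) (by positivity)
    rw [hadd] at h1
    have h2 : t ^ (1 / 100 + 1 / 100 : ℝ) * 5 ≤ t ^ (1 / 100 + 1 / 100 : ℝ) * t ^ (1 / 25 : ℝ) :=
      mul_le_mul_of_nonneg_left h5 (by positivity)
    rw [hadd] at h2
    have h3 : t ^ (1 / 100 + 1 / 100 + 1 / 25 : ℝ) ≤ √t := by
      rw [hsr]
      exact hmono _ _ (by norm_num)
    nlinarith
  have ha : ((r % q : ℕ) : ℝ) ≤ R * √t := by
    have h1 : ((r % q : ℕ) : ℝ) ≤ q := by exact_mod_cast (Nat.mod_lt r hq).le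
    nlinarith
  rw [EQ2_bij R q r Q M0 hq hQ u u' t ht0 (by linarith) hu hu' ha]
  set S := idx R (1.01 * R) q (r % q) t with hS
  set x : ℕ → ℝ := fun l => t / (Q * (((r % q : ℕ) : ℝ) + q * l)) with hx
  set m0 : ℕ := M0 % Q with hm0
  have hm0Q : ((m0 : ℕ) : ℝ) + 1 ≤ Q := by exact_mod_cast Nat.mod_lt M0 hQ
  have hQ0 : (0 : ℝ) < Q := by linarith
  have hδ : 0 < t ^ (-(1 / 10) : ℝ) := by positivity
  have hcount := EQ2_count S x ((m0 + u) / Q) ((m0 + u') / Q) (t ^ (-(1 / 10) : ℝ))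
    (√(Q * (1.01 * R) ^ 3 * √t) * EQ2_Z) (by positivity)
    (div_le_div_of_nonneg_right (by linarith) hQ0.le)
    (by rw [div_le_one hQ0]; linarith) hδ
    (fun c => EQ2_betsum R (1.01 * R) hR1 (by linarith) q Q (r % q) hq hQ t ht1 hqs hQR c)
  have hcard := EQ2_card_idx R (1.01 * R) q (r % q) hq (by linarith) t ha
  rw [← hS] at hcard
  have e1 : (m0 + u') / Q - (m0 + u) / Q = (u' - u) / Q := by ring
  rw [e1] at hcount
  -- size of the index set
  have hR0 : 0 < R := by linarith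
  have hRs : R * √t ≤ t ^ (51 / 100 : ℝ) := by
    have h1 : R * √t ≤ t ^ (1 / 100 : ℝ) * t ^ (1 / 2 : ℝ) := by
      rw [hsr]
      exact mul_le_mul_of_nonneg_right hRt (by positivity)
    rw [hadd] at h1
    norm_num at h1
    exact h1
  have hone : ∀ x : ℝ, 0 ≤ x → 1 ≤ t ^ x := fun x hx => Real.one_le_rpow ht1 hx
  have hScard : (S.card : ℝ) ≤ 2 * t ^ (51 / 100 : ℝ) := by
    have h1 := (abs_le.1 hcard).2
    have h2 : (1.01 * R - R) * √t / q ≤ R * √t := by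
      apply div_le_of_le_mul₀ (by linarith) (by positivity)
      nlinarith [mul_pos hR0 hsq]
    have h3 := hone (51 / 100) (by norm_num)
    linarith
  -- the main error
  have hB : √(Q * (1.01 * R) ^ 3 * √t) ≤ 2 * t ^ (27 / 100 : ℝ) := by
    rw [Real.sqrt_le_left (by positivity)]
    have h1 : R ^ 3 ≤ (t ^ (1 / 100 : ℝ)) ^ 3 := pow_le_pow_left₀ hR0.le hRt 3
    have h2 : (t ^ (1 / 100 : ℝ)) ^ 3 = t ^ (3 / 100 : ℝ) := by
      rw [← Real.rpow_natCast, ← Real.rpow_mul ht0.le]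
      norm_num
    rw [h2] at h1
    have h3 : (Q : ℝ) * R ^ 3 * √t ≤ t ^ (1 / 100 : ℝ) * t ^ (3 / 100 : ℝ) * t ^ (1 / 2 : ℝ) := by
      rw [hsr]
      gcongr
    rw [hadd, hadd] at h3
    have h4 : (2 * t ^ (27 / 100 : ℝ)) ^ 2 = 4 * t ^ (1 / 100 + 3 / 100 + 1 / 2 : ℝ) := by
      rw [mul_pow, ← Real.rpow_natCast (t ^ (27 / 100 : ℝ)), ← Real.rpow_mul ht0.le]
      norm_num
    rw [h4]
    have h5 : (Q : ℝ) * (1.01 * R) ^ 3 * √t = 1.030301 * (Q * R ^ 3 * √t) := by ring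
    rw [h5]
    have h6 : 0 ≤ (Q : ℝ) * R ^ 3 * √t := by positivity
    nlinarith
  have hE1 : 2 * t ^ (-(1 / 10) : ℝ) * S.card ≤ 4 * t ^ (41 / 100 : ℝ) := by
    have h1 : 2 * t ^ (-(1 / 10) : ℝ) * S.card ≤
        2 * t ^ (-(1 / 10) : ℝ) * (2 * t ^ (51 / 100 : ℝ)) := by gcongr
    have h2 : 2 * t ^ (-(1 / 10) : ℝ) * (2 * t ^ (51 / 100 : ℝ)) = 4 * t ^ (41 / 100 : ℝ) := by
      have : t ^ (-(1 / 10) : ℝ) * t ^ (51 / 100 : ℝ) = t ^ (41 / 100 : ℝ) := by
        rw [hadd]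
        norm_num
      calc 2 * t ^ (-(1 / 10) : ℝ) * (2 * t ^ (51 / 100 : ℝ)) =
          4 * (t ^ (-(1 / 10) : ℝ) * t ^ (51 / 100 : ℝ)) := by ring
        _ = _ := by rw [this]
    linarith
  have hE2 : 2 * (√(Q * (1.01 * R) ^ 3 * √t) * EQ2_Z) / t ^ (-(1 / 10) : ℝ) ≤
      4 * EQ2_Z * t ^ (41 / 100 : ℝ) := by
    rw [div_le_iff₀ hδ]
    have h1 : 4 * EQ2_Z * t ^ (41 / 100 : ℝ) * t ^ (-(1 / 10) : ℝ) =
        4 * EQ2_Z * t ^ (31 / 100 : ℝ) := by
      rw [mul_assoc, hadd]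
      norm_num
    rw [h1]
    have h2 : t ^ (27 / 100 : ℝ) ≤ t ^ (31 / 100 : ℝ) := hmono _ _ (by norm_num)
    have h3 : √(Q * (1.01 * R) ^ 3 * √t) * EQ2_Z ≤ 2 * t ^ (31 / 100 : ℝ) * EQ2_Z :=
      mul_le_mul_of_nonneg_right (hB.trans (by linarith)) hZ
    linarith
  have hE3 : |(u' - u) / Q * S.card - (u' - u) * (0.01 * R) / (q * Q) * √t| ≤
      t ^ (41 / 100 : ℝ) := by
    have h1 : (u' - u) / Q * S.card - (u' - u) * (0.01 * R) / (q * Q) * √t =
        (u' - u) / Q * (S.card - (1.01 * R - R) * √t / q) := by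
      have hq0 : (0 : ℝ) < q := by linarith
      field_simp
      ring
    rw [h1, abs_mul]
    have h2 : |(u' - u) / Q| ≤ 1 := by
      rw [abs_of_nonneg (div_nonneg (by linarith) hQ0.le), div_le_one hQ0]
      linarith
    have h3 := hone (41 / 100) (by norm_num)
    calc |(u' - u) / Q| * |(S.card : ℝ) - (1.01 * R - R) * √t / q| ≤ 1 * 1 :=
          mul_le_mul h2 hcard (abs_nonneg _) zero_le_one
      _ ≤ _ := by linarith
  have hfin : (5 + 4 * EQ2_Z) * t ^ (41 / 100 : ℝ) ≤ t ^ (9 / 20 : ℝ) := by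
    calc (5 + 4 * EQ2_Z) * t ^ (41 / 100 : ℝ) ≤ t ^ (1 / 25 : ℝ) * t ^ (41 / 100 : ℝ) :=
          mul_le_mul_of_nonneg_right hpow (by positivity)
      _ = t ^ (9 / 20 : ℝ) := by
          rw [hadd]
          norm_num
  calc _ ≤ |((S.filter fun l => (m0 + u) / Q ≤ Int.fract (x l) ∧
          Int.fract (x l) < (m0 + u') / Q).card : ℝ) - (u' - u) / Q * S.card| +
        |(u' - u) / Q * S.card - (u' - u) * (0.01 * R) / (q * Q) * √t| := abs_sub_le _ _ _
    _ ≤ _ := by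
        refine le_trans (add_le_add hcount hE3) ?_
        linarith

end Pool.Agent.MR2
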