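import Pool.Agent.Lib.MR2.StatL

/-! # TANK MR2, stage 2: the Möbius function.  Exact statements of the linking side (helper69).

`L = log t`, `c = L^(-κ)`, `R = L^(1/16)`, `z1 = L^(2/5)`, `Y = t^(1/1000)`; `P0` fixed (depends on `q`),
`q ∣ P0`, `p² ∣ P0` for the primes `p ≤ z0`; `PP` = primes in `(z0, z1]`; `b ∣ n`, `B ∣ n + g`,
`b` in a lower range, `B` in an upper range, `b³ ≤ B`.  A configuration is `e = (s, L, D)`;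
`d = b L - B s`, `U = b M + s D`, `V = B M + L D`, `p' = L (n+g)/B - s n/b`; the four integers of
`(t, t + c √t)` are `(n/b) U`, `B p' (U/d)`, `((n+g)/B) V`, `b p' (V/d)`. -/

set_option autoImplicit false

namespace Pool.Agent.MR2

open Finset Pool.Agent.MRL

noncomputable section

/-- no square of a prime `≤ z` divides `n`. -/
def SF (z : ℝ) (n : ℕ) : Prop := ∀ p : ℕ, p.Prime → (p : ℝ) ≤ z → ¬ p ^ 2 ∣ n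

/-- `lam` is constant on the squarefree integers `≡ a mod q` in `(t, t + ℓ)`. -/
def ConstM (q a : ℕ) (t ℓ : ℝ) : Prop := ∀ m n : ℕ, t < m → (m : ℝ) < t + ℓ → m ≡ a [MOD q] →
  Squarefree m → t < n → (n : ℝ) < t + ℓ → n ≡ a [MOD q] → Squarefree n → lam m = lam n

/-! ### configurations `e = (s, L, D)` -/

/-- `d = b L - B s`. -/
def cd (b B : ℕ) (e : ℕ × ℕ × ℕ) : ℕ := b * e.2.1 - B * e.1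

/-- `U = b M + s D`. -/
def cU (b M : ℕ) (e : ℕ × ℕ × ℕ) : ℕ := b * M + e.1 * e.2.2

/-- `V = B M + L D`. -/
def cV (B M : ℕ) (e : ℕ × ℕ × ℕ) : ℕ := B * M + e.2.1 * e.2.2

/-- `p' = L (n+g)/B - s n/b`. -/
def cp (b B g n : ℕ) (e : ℕ × ℕ × ℕ) : ℕ := e.2.1 * ((n + g) / B) - e.1 * (n / b)

/-- The four integers. -/
def num (b B g n M : ℕ) (e : ℕ × ℕ × ℕ) : Finset ℕ :=
  {(n / b) * cU b M e, B * cp b B g n e * (cU b M e / cd b B e),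
    ((n + g) / B) * cV B M e, b * cp b B g n e * (cV B M e / cd b B e)}

/-- `e` is a configuration (without the sieve conditions). -/
structure Conf0 (P0 : ℕ) (κ f : ℝ) (b B W : ℕ) (e : ℕ × ℕ × ℕ) : Prop where
  s_pos : 0 < e.1
  L_pos : 0 < e.2.1
  D_pos : 0 < e.2.2
  s_ge : W ≤ e.1 ^ 2
  s_le : e.1 ≤ W
  P0L : P0 ∣ e.2.1
  P0D : P0 ∣ e.2.2
  sP0 : e.1.Coprime P0
  sL : e.1.Coprime e.2.1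
  lt : B * e.1 < b * e.2.1
  w1 : f + 0.3 * κ < (e.1 : ℝ) * e.2.2 / b
  w2 : (e.1 : ℝ) * e.2.2 / b < f + 0.4 * κ
  w3 : f + 0.8 * κ < (e.2.1 : ℝ) * e.2.2 / B
  w4 : (e.2.1 : ℝ) * e.2.2 / B < f + 0.9 * κ

/-- the sieve conditions at the prime `p`; `M0` is the class of `M`, `x, y` the two coefficients. -/
def Siev (b B M0 : ℕ) (x y : ℤ) (e : ℕ × ℕ × ℕ) (p : ℕ) : Prop :=
  ¬ p ∣ cd b B e ∧ ¬ p ∣ cU b M0 e ∧ ¬ p ∣ cV B M0 e ∧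
    ¬ (p : ℤ) ∣ b * e.2.1 * x - B * e.1 * y

open Classical in
/-- the family. -/
def Fam (P0 : ℕ) (PP : Finset ℕ) (κ f : ℝ) (b B W M0 : ℕ) (x y : ℕ → ℤ) :
    Finset (ℕ × ℕ × ℕ) :=
  ((Icc 1 W) ×ˢ ((Icc 1 (3 * B * W)) ×ˢ (Icc 1 b))).filter
    (fun e => Conf0 P0 κ f b B W e ∧ ∀ p ∈ PP, Siev b B M0 (x p) (y p) e p)

/-- the expected number of solutions. -/
def EE (P0 : ℕ) (PP : Finset ℕ) (κ f : ℝ) (b B W M0 : ℕ) (x y : ℕ → ℤ) : ℝ :=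
  ∑ e ∈ Fam P0 PP κ f b B W M0 x y, 1 / (cd b B e : ℝ)

/-- standing hypotheses. -/
structure HF (C0 P0 b B W : ℕ) (PP : Finset ℕ) (κ f : ℝ) : Prop where
  P0pos : 1 ≤ P0
  PPp : ∀ p ∈ PP, p.Prime ∧ 11 ≤ p ∧ ¬ p ∣ P0
  κ0 : 0 < κ
  κ1 : κ ≤ 1 / 1000
  f0 : 0 ≤ f
  f1 : f ≤ 1 / 200
  bp : b.Prime
  Bp : B.Prime
  bB : b ^ 3 ≤ B
  big : (((P0 * ∏ p ∈ PP, p : ℕ) : ℝ) / κ) ^ C0 ≤ W
  Wb : (W : ℝ) ^ C0 ≤ b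
  BW : Real.log B ^ 16 ≤ W

/-- the coefficients: never both divisible by `p`. -/
def XY (PP : Finset ℕ) (x y : ℕ → ℤ) : Prop := ∀ p ∈ PP, ¬ ((p : ℤ) ∣ x p ∧ (p : ℤ) ∣ y p)

/-- ROW CRT.  The number of classes modulo `∏ PP` that avoid `A p` modulo `p` (periodic count in
an interval, upper and lower). -/
def CrtCount : Prop := ∀ (PP : Finset ℕ), (∀ p ∈ PP, p.Prime) → ∀ A : ℕ → Finset ℕ,
  (∀ p ∈ PP, A p ⊆ range p) → ∀ m r lo hi : ℕ, 0 < m → m.Coprime (∏ p ∈ PP, p) → lo ≤ hi →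
  |(((Ico lo hi).filter (fun k => k % m = r % m ∧ ∀ p ∈ PP, k % p ∉ A p)).card : ℝ)
    - ((hi : ℝ) - lo) / m * ∏ p ∈ PP, (1 - ((A p).card : ℝ) / p)| ≤ ∏ p ∈ PP, (p : ℝ)

/-- ROW FL.  Lower bound for the expected number. -/
def FamLow : Prop := ∃ c0 : ℝ, 0 < c0 ∧ ∃ C0 : ℕ, ∀ (P0 b B W : ℕ) (PP : Finset ℕ) (κ f : ℝ),
  HF C0 P0 b B W PP κ f → ∀ (M0 : ℕ) (x y : ℕ → ℤ), XY PP x y →
  c0 * κ * Real.log W / (P0 : ℝ) ^ 3 * ∏ p ∈ PP, (1 - 1 / (p : ℝ)) ^ 8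
    ≤ EE P0 PP κ f b B W M0 x y

/-- ROW FP.  Configurations whose `d` has a prime factor `> z`, with weight `1/r`, and
configurations with `r² ∣ d`, `r > z`. -/
def FamPd : Prop := ∃ C : ℝ, 0 < C ∧ ∃ C0 : ℕ, ∀ (P0 b B W : ℕ) (PP : Finset ℕ) (κ f : ℝ),
  HF C0 P0 b B W PP κ f → ∀ (M0 : ℕ) (x y : ℕ → ℤ) (z : ℝ), 1 ≤ z → z ^ 16 ≤ W →
  ∑ e ∈ Fam P0 PP κ f b B W M0 x y, 1 / (cd b B e : ℝ) *
      (∑ r ∈ (cd b B e).primeFactors.filter (fun r : ℕ => z < r), 1 / (r : ℝ) +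
        (((cd b B e).primeFactors.filter (fun r : ℕ => z < r ∧ r ^ 2 ∣ cd b B e)).card : ℝ))
    ≤ C * κ * Real.log W / z

/-- ROW SMM.  The second moment. -/
def SMM : Prop := ∃ C0 : ℕ, ∀ (P0 b B W : ℕ) (PP : Finset ℕ) (κ f : ℝ),
  HF C0 P0 b B W PP κ f → ∀ (M0 : ℕ) (x y : ℕ → ℤ), XY PP x y →
  1 ≤ EE P0 PP κ f b B W M0 x y →
  ∀ (S : Finset ℕ) (M : ℕ → ℕ) (A η : ℝ), 0 ≤ A → 0 ≤ η →
  (∀ m r : ℕ, 0 < m → m ≤ B ^ 4 → m.Coprime (P0 * ∏ p ∈ PP, p) →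
    |((S.filter fun n => M n % m = r % m).card : ℝ) - A / m| ≤ η) →
  ∀ S' ⊆ S, (∀ n ∈ S', (((Fam P0 PP κ f b B W M0 x y).filter
      (fun e => cd b B e ∣ cU b (M n) e)).card : ℝ) ≤ EE P0 PP κ f b B W M0 x y / 2) →
  (S'.card : ℝ) ≤ 8 * A / EE P0 PP κ f b B W M0 x y + η * (B : ℝ) ^ C0

/-- ROW SPS.  Solutions spoiled by the square of a prime `r` in `(z, Y]`: first moment.  The set `S`
lies in one class modulo `b B` with `b ∣ n`, `B ∣ n + g`. -/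
def SpoilS : Prop := ∃ C : ℝ, 0 < C ∧ ∃ C0 : ℕ, ∀ (P0 b B W : ℕ) (PP : Finset ℕ) (κ f : ℝ),
  HF C0 P0 b B W PP κ f → ∀ (M0 : ℕ) (x y : ℕ → ℤ) (g : ℕ) (z Y : ℝ), 1 ≤ z → z ^ 16 ≤ W →
  0 < g → (g : ℝ) < z → z < Y → (∀ p : ℕ, p.Prime → p ∣ P0 → (p : ℝ) ≤ z) → (∀ p ∈ PP, (p : ℝ) ≤ z) →
  ∀ (S : Finset ℕ) (M : ℕ → ℕ) (A η : ℝ), 0 ≤ A → 0 ≤ η → (∀ n ∈ S, 0 < n ∧ b ∣ n ∧ B ∣ n + g) →
  (∀ i j m r u v : ℕ, i ≤ 2 → j ≤ 2 → r.Prime → z < r → (r : ℝ) ≤ Y → 0 < m → m ≤ B ^ 4 →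
    m.Coprime (P0 * ∏ p ∈ PP, p) →
    ((S.filter fun n => n % (b * B * r ^ i) = u ∧ M n % (m * r ^ j) = v).card : ℝ)
      ≤ A / (m * (r : ℝ) ^ (i + j)) + η) →
  ∀ T : ℕ × ℕ × ℕ → Finset ℕ, (∀ e ∈ Fam P0 PP κ f b B W M0 x y, T e ⊆ S ∧ ∀ n ∈ T e,
    cd b B e ∣ cU b (M n) e ∧ ∃ r : ℕ, r.Prime ∧ z < r ∧ (r : ℝ) ≤ Y ∧
      ∃ N ∈ num b B g n (M n) e, r ^ 2 ∣ N) →
  ∑ e ∈ Fam P0 PP κ f b B W M0 x y, ((T e).card : ℝ)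
    ≤ C * A * (EE P0 PP κ f b B W M0 x y + κ * Real.log W) / z + η * Y * (B : ℝ) ^ C0

/-- ROW SPL.  Solutions spoiled by the square of a prime `r > t^(1/1000)`. -/
def SpoilL : Prop := ∃ C0 : ℕ, ∃ t0 : ℝ, ∀ t : ℝ, t0 ≤ t →
  ∀ (P0 b B W : ℕ) (PP : Finset ℕ) (κ f : ℝ),
  HF C0 P0 b B W PP κ f → ∀ (M0 : ℕ) (x y : ℕ → ℤ) (g : ℕ), 0 < g → (g : ℝ) ≤ t ^ (1 / 100 : ℝ) →
  ∀ S : Finset ℕ, (∀ n ∈ S, 0 < n ∧ b ∣ n ∧ B ∣ n + g ∧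
    ∃ e ∈ Fam P0 PP κ f b B W M0 x y, ∃ M : ℕ, cd b B e ∣ cU b M e ∧
      (∀ N ∈ num b B g n M e, t < N ∧ (N : ℝ) < t + √t) ∧
      ∃ N ∈ num b B g n M e, ∃ r : ℕ, r.Prime ∧ t ^ (1 / 1000 : ℝ) < r ∧ r ^ 2 ∣ N) →
  (S.card : ℝ) ≤ (B : ℝ) ^ C0 * t ^ (999 / 2000 : ℝ)

/-- ROW CHM.  The chain with all conditions: the four integers are in `(t, t + c √t)`, in the class
`a mod q`, and no `p²`, `p ≤ z1`, divides them. -/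
def ChainM : Prop := ∀ (q a P0 g b B M0 n : ℕ) (PP : Finset ℕ) (κ c R t z1 f : ℝ) (W : ℕ)
  (e : ℕ × ℕ × ℕ), 1 ≤ q → q ∣ g → 0 < g → q ∣ P0 → 0 < c → c ≤ 1 → 1000 * (g : ℝ) ≤ c * R → 10000 ≤ t →
  κ = c / R → (∀ p : ℕ, p.Prime → (p : ℝ) ≤ z1 → p ∈ PP ∨ p ^ 2 ∣ P0) → (∀ p ∈ PP, p.Prime) →
  b.Prime → B.Prime → b < B → W < b → ¬ b ∣ P0 * ∏ p ∈ PP, p → ¬ B ∣ P0 * ∏ p ∈ PP, p →
  Conf0 P0 κ f b B W e → n ≡ a [MOD q] → SF z1 n → SF z1 (n + g) →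
  b ∣ n → B ∣ n + g → R * √t < n → (n : ℝ) ≤ 1.01 * R * √t → ⌊t / n⌋₊ ≡ 1 [MOD P0] →
  Int.fract (t / n) < c ^ 2 / (200 * g) → f ≤ Int.fract (t / n) → Int.fract (t / n) ≤ f + 0.05 * κ →
  (∀ p ∈ PP, ⌊t / n⌋₊ ≡ M0 [MOD p]) →
  (∀ p ∈ PP, Siev b B M0 (if p ∣ n ∧ p ∣ g then ((n + g) / p : ℕ) else (n + g : ℕ))
    (if p ∣ n ∧ p ∣ g then (n / p : ℕ) else n) e p) →
  cd b B e ∣ cU b ⌊t / n⌋₊ e →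
  (∀ N ∈ num b B g n ⌊t / n⌋₊ e, t < N ∧ (N : ℝ) < t + c * √t ∧ N ≡ a [MOD q] ∧ SF z1 N) ∧
  (ConstM q a t (c * √t) → (∀ N ∈ num b B g n ⌊t / n⌋₊ e, Squarefree N) → lam n = lam (n + g))

/-- ROW LKM.  The linking statement. -/
def LinkM : Prop := ∀ (q a : ℕ) (κ : ℝ), 1 ≤ q → 0 < κ → κ ≤ 1 / 100 → ∃ P0 : ℕ, 0 < P0 ∧
  ∃ T0 : ℝ, ∀ t c R z1 : ℝ, T0 ≤ t → c = Real.log t ^ (-κ) → R = Real.log t ^ (1 / 16 : ℝ) →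
  z1 = Real.log t ^ (2 / 5 : ℝ) → ConstM q a t (c * √t) →
  ∀ g : ℕ, 0 < g → q ∣ g → (g : ℝ) ≤ q * Real.log (Real.log t) →
  ∀ s : Finset ℕ, (∀ n ∈ s, R * √t < n ∧ (n : ℝ) ≤ 1.01 * R * √t ∧
    n ≡ a [MOD q] ∧ SF z1 n ∧ SF z1 (n + g) ∧ ⌊t / n⌋₊ ≡ 1 [MOD P0] ∧
    Int.fract (t / n) < c ^ 2 / (200 * g) ∧ lam n ≠ lam (n + g)) →
  (s.card : ℝ) ≤ √t / Real.log t ^ (1 / 20 : ℝ)

/-- ROW GAP.  Long gaps between the integers `≡ a mod q` without `p²`, `p ≤ (log t)^(2/5)`. -/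
def GapM : Prop := ∀ q a : ℕ, 1 ≤ q → a.Coprime q → ∃ X0 : ℝ, ∀ X z1 : ℝ, X0 ≤ X →
  z1 ≤ Real.log X ^ (1 / 2 : ℝ) → ∀ G : ℕ, Real.log (Real.log X) / 2 ≤ G →
  ∀ s : Finset ℕ, (∀ n ∈ s, X ≤ n ∧ (n : ℝ) ≤ 2 * X ∧ n ≡ a [MOD q] ∧
    ∀ k ∈ Icc 1 G, ¬ SF z1 (n + q * k)) → (s.card : ℝ) ≤ X / Real.log X

/-- ROW NRM (part A).  Windows in which `lam` is constant on the squarefree `n ≡ a mod q`. -/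
def NoRunsM (ω : ℝ) : Prop := ∀ q a : ℕ, 1 ≤ q → a.Coprime q → ∃ X0 : ℝ, ∀ X : ℝ, X0 ≤ X →
  ∀ h : ℕ, Real.log X ^ (1 / 16 : ℝ) ≤ h →
  ∀ s : Finset ℕ, (∀ x ∈ s, X ≤ x ∧ (x : ℝ) ≤ 2 * X ∧ ∀ i < h, ∀ j < h, x + i ≡ a [MOD q] →
    Squarefree (x + i) → x + j ≡ a [MOD q] → Squarefree (x + j) →
    lam (x + i) = lam (x + j)) → (s.card : ℝ) ≤ X / Real.log X ^ ω

/-- The final theorem: the Möbius function takes both values. -/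
def FinalM (κ : ℝ) : Prop := ∀ q a : ℕ, 1 ≤ q → a.Coprime q → ∃ t0 : ℝ, ∀ t : ℝ, t0 ≤ t →
  (∃ n : ℕ, t < n ∧ (n : ℝ) < t + √t / Real.log t ^ κ ∧ n ≡ a [MOD q] ∧
    ArithmeticFunction.moebius n = 1) ∧
  (∃ n : ℕ, t < n ∧ (n : ℝ) < t + √t / Real.log t ^ κ ∧ n ≡ a [MOD q] ∧
    ArithmeticFunction.moebius n = -1)

/-- ROW ENM. -/
def EndM : Prop := LinkM → GapM → ∀ ω κ : ℝ, 0 < κ → κ < 1 / 100 → 2 * κ < ω → NoRunsM ω → FinalM κ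

end

end Pool.Agent.MR2
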