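import Pool.Agent.Lib.MR2.SM2
import Pool.Agent.Lib.MR2.StatM

/-! # Row M_FL: the lower bound for the expected number of configurations (helper57) -/

set_option autoImplicit false

namespace Pool.Agent.MR2

open Finset

/-! ## products over the primes of `PP` -/

section prod

variable {PP : Finset ℕ}

theorem FL_v_pos (hPP : ∀ p ∈ PP, p.Prime ∧ 11 ≤ p) (k : ℝ) (hk : k ≤ 3) :
    0 < ∏ p ∈ PP, (1 - k / (p : ℝ)) := by
  refine prod_pos fun p hp => ?_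
  have h1 : (11 : ℝ) ≤ p := by exact_mod_cast (hPP p hp).2
  rw [sub_pos, div_lt_one (by linarith)]
  linarith

theorem FL_v_le_one (hPP : ∀ p ∈ PP, p.Prime ∧ 11 ≤ p) (k : ℝ) (hk0 : 0 ≤ k) (hk : k ≤ 3) :
    ∏ p ∈ PP, (1 - k / (p : ℝ)) ≤ 1 := by
  refine prod_le_one (fun p hp => ?_) fun p hp => ?_
  · have h1 : (11 : ℝ) ≤ p := by exact_mod_cast (hPP p hp).2
    rw [sub_nonneg, div_le_one (by linarith)]
    linarith
  · have : 0 ≤ k / (p : ℝ) := by positivity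
    linarith

theorem FL_PI_ge_one (hPP : ∀ p ∈ PP, p.Prime ∧ 11 ≤ p) : 1 ≤ ∏ p ∈ PP, (p : ℝ) := by
  have h : ∀ p ∈ PP, (1 : ℝ) ≤ (p : ℝ) := fun p hp => by
    have h1 : (11 : ℝ) ≤ p := by exact_mod_cast (hPP p hp).2
    linarith
  calc (1 : ℝ) = ∏ _p ∈ PP, (1 : ℝ) := by simp
    _ ≤ _ := prod_le_prod (fun _ _ => zero_le_one) h

/-- `∏ (1 - 1/p)(1 - 3/p) ≥ 1 / ∏ p` -/
theorem FL_v13 (hPP : ∀ p ∈ PP, p.Prime ∧ 11 ≤ p) :
    1 ≤ (∏ p ∈ PP, (1 - 1 / (p : ℝ))) * (∏ p ∈ PP, (1 - 3 / (p : ℝ))) * ∏ p ∈ PP, (p : ℝ) := by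
  rw [← prod_mul_distrib, ← prod_mul_distrib]
  calc (1 : ℝ) = ∏ _p ∈ PP, (1 : ℝ) := by simp
    _ ≤ _ := by
      refine prod_le_prod (fun _ _ => zero_le_one) fun p hp => ?_
      have h1 : (11 : ℝ) ≤ p := by exact_mod_cast (hPP p hp).2
      have hp0 : (p : ℝ) ≠ 0 := by linarith
      have e : (1 - 1 / (p : ℝ)) * (1 - 3 / (p : ℝ)) * p = (p - 1) * (p - 3) / p := by
        field_simp
      rw [e, le_div_iff₀ (by linarith)]
      nlinarith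

theorem FL_vk (hPP : ∀ p ∈ PP, p.Prime ∧ 11 ≤ p) (k : ℝ) (hk : k ≤ 3) :
    1 ≤ (∏ p ∈ PP, (1 - k / (p : ℝ))) * ∏ p ∈ PP, (p : ℝ) := by
  rw [← prod_mul_distrib]
  calc (1 : ℝ) = ∏ _p ∈ PP, (1 : ℝ) := by simp
    _ ≤ _ := by
      refine prod_le_prod (fun _ _ => zero_le_one) fun p hp => ?_
      have h1 : (11 : ℝ) ≤ p := by exact_mod_cast (hPP p hp).2
      have hp0 : (p : ℝ) ≠ 0 := by linarith
      have e : (1 - k / (p : ℝ)) * p = p - k := by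
        field_simp
      rw [e]
      linarith

theorem FL_v8 (hPP : ∀ p ∈ PP, p.Prime ∧ 11 ≤ p) :
    ∏ p ∈ PP, (1 - 1 / (p : ℝ)) ^ 8 ≤ (∏ p ∈ PP, (1 - 1 / (p : ℝ))) *
      (∏ p ∈ PP, (1 - 2 / (p : ℝ))) * (∏ p ∈ PP, (1 - 3 / (p : ℝ))) := by
  rw [← prod_mul_distrib, ← prod_mul_distrib]
  refine prod_le_prod (fun p hp => ?_) fun p hp => ?_
  · positivity
  · have h1 : (11 : ℝ) ≤ p := by exact_mod_cast (hPP p hp).2
    obtain ⟨u, hu⟩ : ∃ u : ℝ, u = 1 / (p : ℝ) := ⟨_, rfl⟩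
    have hu0 : 0 ≤ u := by rw [hu]; positivity
    have hu1 : u ≤ 1 / 11 := by
      rw [hu]
      exact one_div_le_one_div_of_le (by norm_num) h1
    have e2 : (2 : ℝ) / (p : ℝ) = 2 * u := by rw [hu]; ring
    have e3 : (3 : ℝ) / (p : ℝ) = 3 * u := by rw [hu]; ring
    rw [e2, e3, ← hu]
    have h7 : (1 - u) ^ 7 ≤ 1 - 7 * u + 21 * u ^ 2 := by
      have e : 1 - 7 * u + 21 * u ^ 2 - (1 - u) ^ 7 =
        35 * u ^ 3 * (1 - u) + 7 * u ^ 5 * (3 - u) + u ^ 7 := by ring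
      have h3 : 0 ≤ 35 * u ^ 3 * (1 - u) := by
        have : 0 ≤ 1 - u := by linarith
        positivity
      have h5 : 0 ≤ 7 * u ^ 5 * (3 - u) := by
        have : 0 ≤ 3 - u := by linarith
        positivity
      have h6 : 0 ≤ u ^ 7 := by positivity
      linarith
    have h8 : (1 - u) ^ 8 = (1 - u) * (1 - u) ^ 7 := by ring
    rw [h8]
    have h9 : (1 - u) ^ 7 ≤ (1 - 2 * u) * (1 - 3 * u) := by nlinarith
    calc (1 - u) * (1 - u) ^ 7 ≤ (1 - u) * ((1 - 2 * u) * (1 - 3 * u)) :=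
          mul_le_mul_of_nonneg_left h9 (by linarith)
      _ = _ := by ring

end prod

/-! ## classes modulo primes -/

theorem FL_one_class (p : ℕ) (hp : p.Prime) (a c : ℤ) (ha : ¬ (p : ℤ) ∣ a) :
    ((range p).filter (fun r : ℕ => (p : ℤ) ∣ a * r + c)).card ≤ 1 := by
  rw [card_le_one]
  intro r hr r' hr'
  rw [mem_filter, mem_range] at hr hr'
  have h1 : (p : ℤ) ∣ a * ((r : ℤ) - r') := by
    have := dvd_sub hr.2 hr'.2
    have e : a * (r : ℤ) + c - (a * r' + c) = a * ((r : ℤ) - r') := by ring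
    rwa [e] at this
  have h2 : (p : ℤ) ∣ (r : ℤ) - r' :=
    (Int.Prime.dvd_mul' (by exact_mod_cast hp) h1).resolve_left ha
  have h3 : (r : ℤ) ≡ r' [ZMOD p] := (Int.modEq_iff_dvd.2 (by
    have := dvd_neg.2 h2
    rwa [neg_sub] at this))
  have h4 : r ≡ r' [MOD p] := (Int.natCast_modEq_iff).1 h3
  have h5 := h4
  unfold Nat.ModEq at h5
  rwa [Nat.mod_eq_of_lt hr.1, Nat.mod_eq_of_lt hr'.1] at h5

/-- lower bound from `CrtCount` with at most `k` classes removed. -/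
theorem FL_count (h1 : CrtCount) {PP : Finset ℕ} (hPP : ∀ p ∈ PP, p.Prime ∧ 11 ≤ p) (k : ℕ)
    (hk : k ≤ 3) (A : ℕ → Finset ℕ) (hA : ∀ p ∈ PP, A p ⊆ range p ∧ (A p).card ≤ k)
    (m r lo hi : ℕ) (hm : 0 < m) (hmP : m.Coprime (∏ p ∈ PP, p)) (hlh : lo ≤ hi) :
    ((hi : ℝ) - lo) / m * ∏ p ∈ PP, (1 - (k : ℝ) / (p : ℝ)) - ∏ p ∈ PP, (p : ℝ) ≤
      (((Ico lo hi).filter (fun n => n % m = r % m ∧ ∀ p ∈ PP, n % p ∉ A p)).card : ℝ) := by
  have h2 := (abs_le.1 (h1 PP (fun p hp => (hPP p hp).1) A (fun p hp => (hA p hp).1) m r lo hi hm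
    hmP hlh)).1
  have hlh' : (lo : ℝ) ≤ hi := by exact_mod_cast hlh
  have h3 : ∏ p ∈ PP, (1 - (k : ℝ) / (p : ℝ)) ≤ ∏ p ∈ PP, (1 - ((A p).card : ℝ) / p) := by
    refine prod_le_prod (fun p hp => ?_) fun p hp => ?_
    · have h1 : (11 : ℝ) ≤ p := by exact_mod_cast (hPP p hp).2
      have hk' : (k : ℝ) ≤ 3 := by exact_mod_cast hk
      rw [sub_nonneg, div_le_one (by linarith)]
      linarith
    · have h1 : (11 : ℝ) ≤ p := by exact_mod_cast (hPP p hp).2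
      have h4 : ((A p).card : ℝ) ≤ k := by exact_mod_cast (hA p hp).2
      have : ((A p).card : ℝ) / p ≤ (k : ℝ) / p := div_le_div_of_nonneg_right h4 (by linarith)
      linarith
  have h4 : ((hi : ℝ) - lo) / m * ∏ p ∈ PP, (1 - (k : ℝ) / (p : ℝ)) ≤
      ((hi : ℝ) - lo) / m * ∏ p ∈ PP, (1 - ((A p).card : ℝ) / p) := by
    apply mul_le_mul_of_nonneg_left h3
    have : 0 ≤ (hi : ℝ) - lo := by linarith
    positivity
  linarith

/-- the count in a long interval -/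
theorem FL_count2 (h1 : CrtCount) {PP : Finset ℕ} (hPP : ∀ p ∈ PP, p.Prime ∧ 11 ≤ p) (k : ℕ)
    (hk : k ≤ 3) (A : ℕ → Finset ℕ) (hA : ∀ p ∈ PP, A p ⊆ range p ∧ (A p).card ≤ k)
    (m r : ℕ) (hm : 0 < m) (hmP : m.Coprime (∏ p ∈ PP, p)) (u e : ℝ) (hu : 0 ≤ u)
    (hlen : 4 * (m : ℝ) * (∏ p ∈ PP, (p : ℝ)) ^ 2 ≤ e - u) :
    (e - u) / (2 * m) * ∏ p ∈ PP, (1 - (k : ℝ) / (p : ℝ)) ≤
      (((Ico (⌊u⌋₊ + 1) ⌈e⌉₊).filter
        (fun n => n % m = r % m ∧ ∀ p ∈ PP, n % p ∉ A p)).card : ℝ) := by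
  have hm1 : (1 : ℝ) ≤ m := by exact_mod_cast hm
  have hPI := FL_PI_ge_one hPP
  have hk' : (k : ℝ) ≤ 3 := by exact_mod_cast hk
  have hv := FL_vk hPP (k : ℝ) hk'
  have hv0 := FL_v_pos hPP (k : ℝ) hk'
  have hv1 := FL_v_le_one hPP (k : ℝ) (Nat.cast_nonneg k) hk'
  set PI : ℝ := ∏ p ∈ PP, (p : ℝ) with hPIdef
  set v : ℝ := ∏ p ∈ PP, (1 - (k : ℝ) / (p : ℝ)) with hvdef
  have hl4 : 4 ≤ e - u := by
    have : 4 * 1 * 1 ^ 2 ≤ 4 * (m : ℝ) * PI ^ 2 := by gcongr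
    linarith
  have hf : (⌊u⌋₊ : ℝ) ≤ u := Nat.floor_le hu
  have hc : e ≤ ⌈e⌉₊ := Nat.le_ceil e
  have hle : ⌊u⌋₊ + 1 ≤ ⌈e⌉₊ := by
    have : ((⌊u⌋₊ + 1 : ℕ) : ℝ) ≤ (⌈e⌉₊ : ℝ) := by
      push_cast
      linarith
    exact_mod_cast this
  have h2 := FL_count h1 hPP k hk A hA m r (⌊u⌋₊ + 1) ⌈e⌉₊ hm hmP hle
  refine le_trans ?_ h2
  rw [← hPIdef, ← hvdef]
  have h3 : (e - u - 1) / m * v ≤ ((⌈e⌉₊ : ℝ) - ((⌊u⌋₊ + 1 : ℕ) : ℝ)) / m * v := by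
    apply mul_le_mul_of_nonneg_right _ hv0.le
    apply div_le_div_of_nonneg_right _ (by linarith)
    push_cast
    linarith
  have hm0 : (0 : ℝ) < m := by linarith
  -- `(e-u) v ≥ 4 m PI`
  have h4 : 4 * (m : ℝ) * PI ≤ (e - u) * v := by
    have a1 : 4 * (m : ℝ) * PI ^ 2 * v ≤ (e - u) * v := mul_le_mul_of_nonneg_right hlen hv0.le
    have a2 : 4 * (m : ℝ) * PI * 1 ≤ 4 * (m : ℝ) * PI * (v * PI) :=
      mul_le_mul_of_nonneg_left hv (by positivity)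
    have a3 : 4 * (m : ℝ) * PI * (v * PI) = 4 * (m : ℝ) * PI ^ 2 * v := by ring
    linarith
  have h5 : (e - u) / (2 * m) * v = (e - u) * v / (2 * m) := by ring
  have h6 : (e - u - 1) / m * v - PI = ((e - u - 1) * v - PI * m) / m := by
    field_simp
  have h7 : (e - u) * v / (2 * m) ≤ ((e - u - 1) * v - PI * m) / m := by
    rw [div_le_div_iff₀ (by positivity) hm0]
    have : (e - u) * v ≤ 2 * ((e - u - 1) * v - PI * m) := by nlinarith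
    nlinarith
  rw [h5]
  linarith

/-! ## the sum over `s` -/

theorem FL_sumS (h1 : CrtCount) {PP : Finset ℕ} (hPP : ∀ p ∈ PP, p.Prime ∧ 11 ≤ p)
    (P0 : ℕ) (hP0 : 0 < P0) (hcop : P0.Coprime (∏ p ∈ PP, p)) (a : ℕ)
    (ha : 2 * (P0 : ℝ) * (∏ p ∈ PP, (p : ℝ)) ^ 2 ≤ 2 ^ a) (n : ℕ) :
    (n : ℝ) * ((∏ p ∈ PP, (1 - 1 / (p : ℝ))) / (4 * P0)) ≤
      ∑ s ∈ (Ico (2 ^ a) (2 ^ (a + n))).filter
        (fun s => s % P0 = 1 % P0 ∧ ∀ p ∈ PP, s % p ∉ ({0} : Finset ℕ)), 1 / (s : ℝ) := by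
  have hP0' : (1 : ℝ) ≤ P0 := by exact_mod_cast hP0
  have hPI := FL_PI_ge_one hPP
  have hv := FL_vk hPP (1 : ℝ) (by norm_num)
  have hv0 := FL_v_pos hPP (1 : ℝ) (by norm_num)
  set PI : ℝ := ∏ p ∈ PP, (p : ℝ) with hPIdef
  set v : ℝ := ∏ p ∈ PP, (1 - 1 / (p : ℝ)) with hvdef
  induction n with
  | zero => simp
  | succ n ih =>
    have e1 : ∑ s ∈ (Ico (2 ^ a) (2 ^ (a + (n + 1)))).filter
        (fun s => s % P0 = 1 % P0 ∧ ∀ p ∈ PP, s % p ∉ ({0} : Finset ℕ)), 1 / (s : ℝ) =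
        ∑ s ∈ (Ico (2 ^ a) (2 ^ (a + n))).filter
        (fun s => s % P0 = 1 % P0 ∧ ∀ p ∈ PP, s % p ∉ ({0} : Finset ℕ)), 1 / (s : ℝ) +
        ∑ s ∈ (Ico (2 ^ (a + n)) (2 ^ (a + (n + 1)))).filter
        (fun s => s % P0 = 1 % P0 ∧ ∀ p ∈ PP, s % p ∉ ({0} : Finset ℕ)), 1 / (s : ℝ) := by
      rw [sum_filter, sum_filter, sum_filter]
      rw [sum_Ico_consecutive _ (Nat.pow_le_pow_right (by norm_num) (by omega))
        (Nat.pow_le_pow_right (by norm_num) (by omega))]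
    rw [e1]
    have h2 := FL_count h1 hPP 1 (by norm_num) (fun _ => {0}) (fun p hp => ⟨by
      intro x hx
      rw [mem_singleton] at hx
      rw [hx, mem_range]
      exact (hPP p hp).1.pos, by simp⟩) P0 1 (2 ^ (a + n)) (2 ^ (a + (n + 1))) hP0 hcop
      (Nat.pow_le_pow_right (by norm_num) (by omega))
    rw [Nat.cast_one, ← hPIdef, ← hvdef] at h2
    have hpa : (2 : ℝ) ^ a ≤ 2 ^ (a + n) := pow_le_pow_right₀ (by norm_num) (by omega)
    have hpow : (0 : ℝ) < 2 ^ (a + n) := by positivity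
    -- the count
    have h3 : (2 : ℝ) ^ (a + n) * v / (2 * P0) ≤
        (((Ico (2 ^ (a + n)) (2 ^ (a + (n + 1)))).filter
        (fun s => s % P0 = 1 % P0 ∧ ∀ p ∈ PP, s % p ∉ ({0} : Finset ℕ))).card : ℝ) := by
      refine le_trans ?_ h2
      have e2 : (((2 ^ (a + (n + 1)) : ℕ) : ℝ) - ((2 ^ (a + n) : ℕ) : ℝ)) = 2 ^ (a + n) := by
        push_cast
        rw [← add_assoc, pow_succ]
        ring
      rw [e2]
      have e3 : (2 : ℝ) ^ (a + n) / P0 * v - PI = (2 ^ (a + n) * v - PI * P0) / P0 := by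
        field_simp
      rw [e3, div_le_div_iff₀ (by positivity) (by positivity)]
      have h4 : 2 * (P0 : ℝ) * PI ≤ 2 ^ (a + n) * v := by
        have a1 : 2 * (P0 : ℝ) * PI ^ 2 * v ≤ 2 ^ (a + n) * v :=
          mul_le_mul_of_nonneg_right (ha.trans hpa) hv0.le
        have a2 : 2 * (P0 : ℝ) * PI * 1 ≤ 2 * (P0 : ℝ) * PI * (v * PI) :=
          mul_le_mul_of_nonneg_left hv (by positivity)
        have a3 : 2 * (P0 : ℝ) * PI * (v * PI) = 2 * (P0 : ℝ) * PI ^ 2 * v := by ring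
        linarith
      have : 2 ^ (a + n) * v ≤ 2 * (2 ^ (a + n) * v - PI * P0) := by linarith
      nlinarith
    have h5 : v / (4 * P0) ≤ ∑ s ∈ (Ico (2 ^ (a + n)) (2 ^ (a + (n + 1)))).filter
        (fun s => s % P0 = 1 % P0 ∧ ∀ p ∈ PP, s % p ∉ ({0} : Finset ℕ)), 1 / (s : ℝ) := by
      calc v / (4 * P0) = (2 : ℝ) ^ (a + n) * v / (2 * P0) * (1 / 2 ^ (a + (n + 1))) := by
            rw [← add_assoc, pow_succ]
            field_simp
            norm_num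
        _ ≤ (((Ico (2 ^ (a + n)) (2 ^ (a + (n + 1)))).filter
            (fun s => s % P0 = 1 % P0 ∧ ∀ p ∈ PP, s % p ∉ ({0} : Finset ℕ))).card : ℝ) *
            (1 / 2 ^ (a + (n + 1))) := mul_le_mul_of_nonneg_right h3 (by positivity)
        _ ≤ _ := by
            rw [← nsmul_eq_mul]
            apply card_nsmul_le_sum
            intro s hs
            rw [mem_filter, mem_Ico] at hs
            have hs1 : 0 < s := lt_of_lt_of_le (by positivity) hs.1.1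
            have hs1' : (0 : ℝ) < s := by exact_mod_cast hs1
            apply one_div_le_one_div_of_le hs1'
            have : s ≤ 2 ^ (a + (n + 1)) := hs.1.2.le
            exact_mod_cast this
    push_cast
    linarith

/-! ## good pairs `(s, L)` -/

/-- the conditions on `(s, L)`, all homogeneous -/
def FLgood (P0 : ℕ) (PP : Finset ℕ) (κ X0 : ℝ) (b B : ℕ) (x y : ℕ → ℤ) (q : ℕ × ℕ) : Prop :=
  P0 ∣ q.2 ∧ q.1.Coprime P0 ∧ ConeC κ X0 b B q ∧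
    ∀ p ∈ PP, ¬ p ∣ q.1 ∧ ¬ p ∣ q.2 ∧ ¬ (p : ℤ) ∣ b * q.2 - B * q.1 ∧
      ¬ (p : ℤ) ∣ b * q.2 * x p - B * q.1 * y p

theorem FLgood.reduce {P0 : ℕ} {PP : Finset ℕ} {κ X0 : ℝ} {b B : ℕ} {x y : ℕ → ℤ} {q : ℕ × ℕ}
    (h : FLgood P0 PP κ X0 b B x y q) :
    FLgood P0 PP κ X0 b B x y (q.1 / Nat.gcd q.1 q.2, q.2 / Nat.gcd q.1 q.2) := by
  obtain ⟨h1, h2, h3, h4⟩ := h
  have hred := cone_reduce h3
  obtain ⟨h31, h32, h33, h34⟩ := h3
  have hg : 0 < Nat.gcd q.1 q.2 := Nat.gcd_pos_of_pos_left _ h31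
  have ex : Nat.gcd q.1 q.2 * (q.1 / Nat.gcd q.1 q.2) = q.1 :=
    Nat.mul_div_cancel' (Nat.gcd_dvd_left q.1 q.2)
  have ey : Nat.gcd q.1 q.2 * (q.2 / Nat.gcd q.1 q.2) = q.2 :=
    Nat.mul_div_cancel' (Nat.gcd_dvd_right q.1 q.2)
  have exz : ((Nat.gcd q.1 q.2 : ℕ) : ℤ) * ((q.1 / Nat.gcd q.1 q.2 : ℕ) : ℤ) = q.1 := by
    exact_mod_cast ex
  have eyz : ((Nat.gcd q.1 q.2 : ℕ) : ℤ) * ((q.2 / Nat.gcd q.1 q.2 : ℕ) : ℤ) = q.2 := by
    exact_mod_cast ey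
  refine ⟨?_, ?_, ⟨hred.1, hred.2.1, hred.2.2.2.1, hred.2.2.2.2⟩, ?_⟩
  · have hc : P0.Coprime (Nat.gcd q.1 q.2) :=
      (Nat.Coprime.coprime_dvd_left (Nat.gcd_dvd_left q.1 q.2) h2).symm
    rw [← ey] at h1
    exact hc.dvd_of_dvd_mul_left h1
  · exact Nat.Coprime.coprime_dvd_left (Nat.div_dvd_of_dvd (Nat.gcd_dvd_left _ _)) h2
  · intro p hp
    obtain ⟨a1, a2, a3, a4⟩ := h4 p hp
    refine ⟨fun h => a1 (h.trans (Nat.div_dvd_of_dvd (Nat.gcd_dvd_left _ _))),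
      fun h => a2 (h.trans (Nat.div_dvd_of_dvd (Nat.gcd_dvd_right _ _))), fun h => a3 ?_,
      fun h => a4 ?_⟩
    · have e : (b : ℤ) * q.2 - B * q.1 = ((Nat.gcd q.1 q.2 : ℕ) : ℤ) *
          (b * ((q.2 / Nat.gcd q.1 q.2 : ℕ) : ℤ) - B * ((q.1 / Nat.gcd q.1 q.2 : ℕ) : ℤ)) := by
        linear_combination (-(b : ℤ)) * eyz + (B : ℤ) * exz
      rw [e]
      exact dvd_mul_of_dvd_right h _
    · have e : (b : ℤ) * q.2 * x p - B * q.1 * y p = ((Nat.gcd q.1 q.2 : ℕ) : ℤ) *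
          (b * ((q.2 / Nat.gcd q.1 q.2 : ℕ) : ℤ) * x p -
            B * ((q.1 / Nat.gcd q.1 q.2 : ℕ) : ℤ) * y p) := by
        linear_combination (-(b : ℤ) * x p) * eyz + (B : ℤ) * y p * exz
      rw [e]
      exact dvd_mul_of_dvd_right h _

theorem FL_mod_dvd (p n : ℕ) (a c : ℤ) :
    (p : ℤ) ∣ a * ((n % p : ℕ) : ℤ) + c ↔ (p : ℤ) ∣ a * n + c := by
  have h : (a * n + c : ℤ) = a * ((n % p : ℕ) : ℤ) + c + p * (a * ((n / p : ℕ) : ℤ)) := by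
    have : (n : ℤ) = ((n % p : ℕ) : ℤ) + p * ((n / p : ℕ) : ℤ) := by
      exact_mod_cast (Nat.mod_add_div n p).symm
    linear_combination a * this
  rw [h]
  exact (dvd_add_left (dvd_mul_right _ _)).symm

/-- the classes of `L` modulo `p` that have to be avoided -/
def FLcL (b B s : ℕ) (x y : ℕ → ℤ) (p : ℕ) : Finset ℕ :=
  (range p).filter (fun r : ℕ => (p : ℤ) ∣ 1 * (r : ℤ) + 0 ∨ (p : ℤ) ∣ (b : ℤ) * r + (-(B * s)) ∨
    (p : ℤ) ∣ (b * x p : ℤ) * r + (-(B * s * y p)))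

theorem FL_not_dvd {p b : ℕ} (hp : p.Prime) (hb : b.Prime) (hne : p ≠ b) : ¬ (p : ℤ) ∣ (b : ℤ) := by
  intro h
  exact hne ((Nat.prime_dvd_prime_iff_eq hp hb).1 (by exact_mod_cast h))

theorem FLcL_card {b B s : ℕ} {x y : ℕ → ℤ} {p : ℕ} (hp : p.Prime) (hb : ¬ (p : ℤ) ∣ b)
    (hB : ¬ (p : ℤ) ∣ B) (hs : ¬ (p : ℤ) ∣ s) (hxy : ¬ ((p : ℤ) ∣ x p ∧ (p : ℤ) ∣ y p)) :
    (FLcL b B s x y p).card ≤ 3 := by
  have hpz : Prime (p : ℤ) := Nat.prime_iff_prime_int.1 hp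
  have h1 : FLcL b B s x y p ⊆ ((range p).filter (fun r : ℕ => (p : ℤ) ∣ 1 * (r : ℤ) + 0) ∪
      (range p).filter (fun r : ℕ => (p : ℤ) ∣ (b : ℤ) * r + (-(B * s)))) ∪
      (range p).filter (fun r : ℕ => (p : ℤ) ∣ (b * x p : ℤ) * r + (-(B * s * y p))) := by
    intro r hr
    rw [FLcL, mem_filter] at hr
    rw [mem_union, mem_union, mem_filter, mem_filter, mem_filter]
    tauto
  have c1 := FL_one_class p hp 1 0 (by
    intro h
    exact hpz.not_isUnit (isUnit_of_dvd_one h))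
  have c2 := FL_one_class p hp b (-(B * s)) hb
  have c3 : ((range p).filter
      (fun r : ℕ => (p : ℤ) ∣ (b * x p : ℤ) * r + (-(B * s * y p)))).card ≤ 1 := by
    by_cases hx : (p : ℤ) ∣ x p
    · have : (range p).filter
          (fun r : ℕ => (p : ℤ) ∣ (b * x p : ℤ) * r + (-(B * s * y p))) = ∅ := by
        rw [filter_eq_empty_iff]
        intro r _ h
        have h2 : (p : ℤ) ∣ (b * x p : ℤ) * r := by
          rw [mul_assoc, mul_left_comm]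
          exact dvd_mul_of_dvd_left hx _
        have h3 : (p : ℤ) ∣ (B : ℤ) * s * y p := by
          have := (dvd_add_right h2).1 h
          exact (dvd_neg).1 this
        rcases hpz.dvd_or_dvd h3 with h4 | h4
        · rcases hpz.dvd_or_dvd h4 with h5 | h5
          · exact hB h5
          · exact hs h5
        · exact hxy ⟨hx, h4⟩
      rw [this]
      simp
    · exact FL_one_class p hp _ _ (fun h => by
        rcases hpz.dvd_or_dvd h with h4 | h4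
        · exact hb h4
        · exact hx h4)
  have := (card_le_card h1).trans ((card_union_le _ _).trans (Nat.add_le_add_right
    (card_union_le _ _) _))
  omega

open Classical in
theorem FL_L (h1 : CrtCount) {PP : Finset ℕ} (hPP : ∀ p ∈ PP, p.Prime ∧ 11 ≤ p)
    (P0 : ℕ) (hP0 : 0 < P0) (hcop : P0.Coprime (∏ p ∈ PP, p)) (b B s W : ℕ) (x y : ℕ → ℤ)
    (hb : b.Prime) (hB : B.Prime) (hbP : b ∉ PP) (hBP : B ∉ PP) (hxy : XY PP x y)
    (κ X0 : ℝ) (hκ : 0 < κ) (hX : 0.35 * κ ≤ X0) (hs : 0 < s) (hsW : s ≤ W)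
    (hsP0 : s.Coprime P0) (hsPP : ∀ p ∈ PP, ¬ p ∣ s)
    (hbig : 4 * (P0 : ℝ) * (∏ p ∈ PP, (p : ℝ)) ^ 2 ≤ 0.02 * (κ / X0) * ((B : ℝ) * s / b)) :
    0.02 * (κ / X0) * ((B : ℝ) * s / b) / (2 * P0) * ∏ p ∈ PP, (1 - 3 / (p : ℝ)) ≤
      (((Icc 1 (3 * B * W)).filter (fun L => FLgood P0 PP κ X0 b B x y (s, L))).card : ℝ) := by
  have hX0 : 0 < X0 := by nlinarith
  have hb0 : (0 : ℝ) < b := by exact_mod_cast hb.pos
  have hB0 : (0 : ℝ) < B := by exact_mod_cast hB.pos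
  have hs0 : (0 : ℝ) < s := by exact_mod_cast hs
  obtain ⟨u, hu⟩ : ∃ u, u = (1 + 0.49 * κ / X0) * ((B : ℝ) * s) / b := ⟨_, rfl⟩
  obtain ⟨e, he⟩ : ∃ e, e = (1 + 0.51 * κ / X0) * ((B : ℝ) * s) / b := ⟨_, rfl⟩
  have hl : e - u = 0.02 * (κ / X0) * ((B : ℝ) * s / b) := by
    rw [hu, he]
    field_simp
    ring
  have hu0 : 0 ≤ u := by rw [hu]; positivity
  have h2 := FL_count2 h1 hPP 3 le_rfl (FLcL b B s x y) (fun p hp => ⟨filter_subset _ _,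
    FLcL_card (hPP p hp).1 (FL_not_dvd (hPP p hp).1 hb (fun h => hbP (h ▸ hp)))
      (FL_not_dvd (hPP p hp).1 hB (fun h => hBP (h ▸ hp)))
      (fun h => hsPP p hp (by exact_mod_cast h)) (hxy p hp)⟩) P0 0 hP0 hcop u e hu0
      (by rw [hl]; exact hbig)
  rw [hl, Nat.cast_ofNat] at h2
  refine h2.trans ?_
  have hsub : ((Ico (⌊u⌋₊ + 1) ⌈e⌉₊).filter
        (fun n => n % P0 = 0 % P0 ∧ ∀ p ∈ PP, n % p ∉ FLcL b B s x y p)) ⊆
      (Icc 1 (3 * B * W)).filter (fun L => FLgood P0 PP κ X0 b B x y (s, L)) := by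
    intro L hL
    rw [mem_filter, mem_Ico] at hL
    obtain ⟨⟨hL1, hL2⟩, hL3, hL4⟩ := hL
    have g1 : u < L := (Nat.floor_lt hu0).1 hL1
    have g2 : (L : ℝ) < e := Nat.lt_ceil.1 hL2
    rw [hu, div_lt_iff₀ hb0] at g1
    rw [he, lt_div_iff₀ hb0] at g2
    have hL0 : 0 < L := by omega
    have hP0L : P0 ∣ L := by
      rw [Nat.zero_mod] at hL3
      exact Nat.dvd_of_mod_eq_zero hL3
    rw [mem_filter, mem_Icc]
    refine ⟨⟨hL0, ?_⟩, hP0L, hsP0, ⟨hs, hL0, by simp only; linarith, by simp only; linarith⟩, ?_⟩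
    · have hκX : κ / X0 ≤ 20 / 7 := by
        rw [div_le_iff₀ hX0]; linarith
      have e2 : 0.51 * κ / X0 = 0.51 * (κ / X0) := by ring
      rw [e2] at g2
      have h5 : (1 + 0.51 * (κ / X0)) * ((B : ℝ) * s) ≤ 3 * (B * W) := by
        have h6 : (B : ℝ) * s ≤ B * W := by
          apply mul_le_mul_of_nonneg_left _ hB0.le
          exact_mod_cast hsW
        have h7 : 0 ≤ (B : ℝ) * s := by positivity
        have h8 : 1 + 0.51 * (κ / X0) ≤ 3 := by linarith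
        exact mul_le_mul h8 h6 h7 (by norm_num)
      have h9 : (1 : ℝ) ≤ b := by exact_mod_cast hb.pos
      have h10 : (L : ℝ) ≤ L * b := by
        have : (0 : ℝ) ≤ L := Nat.cast_nonneg _
        nlinarith
      have h11 : (L : ℝ) ≤ ((3 * B * W : ℕ) : ℝ) := by push_cast; linarith
      exact_mod_cast h11
    · intro p hp
      have h5 := hL4 p hp
      rw [FLcL, mem_filter, not_and] at h5
      have h6 := h5 (mem_range.2 (Nat.mod_lt _ (hPP p hp).1.pos))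
      rw [FL_mod_dvd, FL_mod_dvd, FL_mod_dvd] at h6
      push Not at h6
      obtain ⟨k1, k2, k3⟩ := h6
      refine ⟨hsPP p hp, fun h => k1 ?_, fun h => k2 ?_, fun h => k3 ?_⟩
      · rw [one_mul, add_zero]
        exact_mod_cast h
      · rw [← sub_eq_add_neg]
        exact h
      · have e : (b * x p : ℤ) * L + (-(B * s * y p)) = b * L * x p - B * s * y p := by ring
        rw [e]
        exact h
  exact_mod_cast card_le_card hsub

/-! ## passing to coprime pairs -/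

open Classical in
theorem FL_cone_le (κ X0 : ℝ) (b B s W : ℕ) (hκ : 0 < κ) (hX : 0 < X0) (hb : 0 < b)
    (hbig : 1 ≤ 0.02 * (κ / X0) * ((B : ℝ) * s / b)) :
    (((Icc 1 W).filter (fun L => ConeC κ X0 b B (s, L))).card : ℝ) ≤
      0.04 * (κ / X0) * ((B : ℝ) * s / b) := by
  have har : (0 : ℝ) < b := by exact_mod_cast hb
  obtain ⟨u, hu⟩ : ∃ u, u = (1 + 0.49 * κ / X0) * ((B : ℝ) * s) / b := ⟨_, rfl⟩
  obtain ⟨e, he⟩ : ∃ e, e = (1 + 0.51 * κ / X0) * ((B : ℝ) * s) / b := ⟨_, rfl⟩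
  have hl : e - u = 0.02 * (κ / X0) * ((B : ℝ) * s / b) := by
    rw [hu, he]
    field_simp
    ring
  have hu0 : 0 ≤ u := by rw [hu]; positivity
  have he0 : 0 ≤ e := by rw [he]; positivity
  have hsub : (Icc 1 W).filter (fun L => ConeC κ X0 b B (s, L)) ⊆ Ioc ⌊u⌋₊ ⌊e⌋₊ := by
    intro L hL
    rw [mem_filter] at hL
    obtain ⟨-, h1, h2, h3, h4⟩ := hL
    simp only at h3 h4
    rw [mem_Ioc]
    refine ⟨(Nat.floor_lt hu0).2 ?_, Nat.le_floor ?_⟩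
    · rw [hu, div_lt_iff₀ har]; linarith
    · rw [he, le_div_iff₀ har]; linarith
  have h1 : u < ⌊u⌋₊ + 1 := Nat.lt_floor_add_one u
  have h2 : (⌊e⌋₊ : ℝ) ≤ e := Nat.floor_le he0
  have h3 : ((Ioc ⌊u⌋₊ ⌊e⌋₊).card : ℝ) ≤ e - u + 1 := by
    rw [Nat.card_Ioc]
    rcases le_total ⌊u⌋₊ ⌊e⌋₊ with h | h
    · rw [Nat.cast_sub h]
      linarith
    · rw [Nat.sub_eq_zero_of_le h, Nat.cast_zero]
      linarith
  have h4 : (((Icc 1 W).filter (fun L => ConeC κ X0 b B (s, L))).card : ℝ) ≤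
      ((Ioc ⌊u⌋₊ ⌊e⌋₊).card : ℝ) := by exact_mod_cast card_le_card hsub
  linarith

theorem FL_harm (W : ℕ) : ∑ s ∈ Icc 1 W, 1 / (s : ℝ) ≤ 1 + Real.log W := by
  have h := harmonic_le_one_add_log W
  rw [harmonic_eq_sum_Icc] at h
  push_cast at h
  simpa [one_div] using h

open Classical in
/-- the coprime family -/
noncomputable def FLF (P0 : ℕ) (PP : Finset ℕ) (κ X0 : ℝ) (b B W : ℕ) (x y : ℕ → ℤ) :
    Finset (ℕ × ℕ) :=
  ((Icc 1 W) ×ˢ (Icc 1 (3 * B * W))).filter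
    (fun q => FLgood P0 PP κ X0 b B x y q ∧ q.1.Coprime q.2 ∧ W ≤ q.1 ^ 2)

theorem FL_cop {P0 : ℕ} {PP : Finset ℕ} {κ X0 : ℝ} {b B W : ℕ} {x y : ℕ → ℤ} (hκ : 0 < κ)
    (hX0 : 0 < X0) (hb : 0 < b) (G w : ℕ) (hG : 0 < G) (hGw : W * G ^ 2 ≤ w ^ 2)
    (T : Finset (ℕ × ℕ)) (hbig : 1 ≤ 0.02 * (κ / X0) * ((B : ℝ) / b))
    (hT : ∀ q ∈ T, w ≤ q.1 ∧ q.1 ≤ W ∧ q.2 ≤ 3 * B * W ∧ FLgood P0 PP κ X0 b B x y q) :
    ∑ q ∈ T, 1 / (q.1 : ℝ) ^ 2 ≤ 2 * ∑ q ∈ FLF P0 PP κ X0 b B W x y, 1 / (q.1 : ℝ) ^ 2 +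
      1 / G * (0.04 * (κ / X0) * ((B : ℝ) / b) * (1 + Real.log W)) := by
  classical
  obtain ⟨φ, hφ⟩ : ∃ φ : ℕ × ℕ → ℕ × (ℕ × ℕ), ∀ p, φ p =
    (Nat.gcd p.1 p.2, (p.1 / Nat.gcd p.1 p.2, p.2 / Nat.gcd p.1 p.2)) := ⟨_, fun _ => rfl⟩
  have hinj : Set.InjOn φ (T : Set (ℕ × ℕ)) := by
    intro x _ y _ h
    rw [hφ, hφ, Prod.mk.injEq, Prod.mk.injEq] at h
    obtain ⟨h1, h2, h3⟩ := h
    have a1 := Nat.mul_div_cancel' (Nat.gcd_dvd_left x.1 x.2)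
    have a2 := Nat.mul_div_cancel' (Nat.gcd_dvd_right x.1 x.2)
    have b1 := Nat.mul_div_cancel' (Nat.gcd_dvd_left y.1 y.2)
    have b2 := Nat.mul_div_cancel' (Nat.gcd_dvd_right y.1 y.2)
    refine Prod.ext ?_ ?_
    · rw [← a1, ← b1, h2, h1]
    · rw [← a2, ← b2, h3, h1]
  have hval : ∀ p ∈ T, 1 / (p.1 : ℝ) ^ 2 = (1 / ((φ p).1 : ℝ) ^ 2) * (1 / ((φ p).2.1 : ℝ) ^ 2) := by
    intro p _
    rw [hφ]
    simp only
    have ex : ((Nat.gcd p.1 p.2 : ℕ) : ℝ) * ((p.1 / Nat.gcd p.1 p.2 : ℕ) : ℝ) = p.1 := by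
      exact_mod_cast Nat.mul_div_cancel' (Nat.gcd_dvd_left p.1 p.2)
    rw [one_div_mul_one_div, ← mul_pow, ex]
  -- split
  set T1 := T.filter (fun q => Nat.gcd q.1 q.2 ≤ G) with hT1
  set T2 := T.filter (fun q => ¬ Nat.gcd q.1 q.2 ≤ G) with hT2
  have hsplit : ∑ q ∈ T, 1 / (q.1 : ℝ) ^ 2 = ∑ q ∈ T1, 1 / (q.1 : ℝ) ^ 2 +
      ∑ q ∈ T2, 1 / (q.1 : ℝ) ^ 2 := (sum_filter_add_sum_filter_not _ _ _).symm
  have hsum : ∀ T' ⊆ T, ∑ q ∈ T', 1 / (q.1 : ℝ) ^ 2 =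
      ∑ z ∈ T'.image φ, (1 / (z.1 : ℝ) ^ 2) * (1 / (z.2.1 : ℝ) ^ 2) := by
    intro T' hT'
    rw [sum_image (hinj.mono hT')]
    exact sum_congr rfl fun p hp => hval p (hT' hp)
  rw [hsplit]
  refine add_le_add ?_ ?_
  · rw [hsum T1 (filter_subset _ _)]
    have e2 : T1.image φ ⊆ Icc 1 W ×ˢ FLF P0 PP κ X0 b B W x y := by
      intro z hz
      rw [mem_image] at hz
      obtain ⟨p, hp, rfl⟩ := hz
      rw [hT1, mem_filter] at hp
      obtain ⟨h0, h1, h2, h3⟩ := hT p hp.1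
      have hred := h3.reduce
      have hg : 0 < Nat.gcd p.1 p.2 := Nat.gcd_pos_of_pos_left _ h3.2.2.1.1
      rw [hφ, mem_product, mem_Icc]
      refine ⟨⟨hg, (Nat.gcd_le_left _ h3.2.2.1.1).trans h1⟩, ?_⟩
      rw [FLF, mem_filter, mem_product, mem_Icc, mem_Icc]
      refine ⟨⟨⟨hred.2.2.1.1, (Nat.div_le_self _ _).trans h1⟩, hred.2.2.1.2.1,
        (Nat.div_le_self _ _).trans h2⟩, hred, Nat.coprime_div_gcd_div_gcd hg, ?_⟩
      have ex : Nat.gcd p.1 p.2 * (p.1 / Nat.gcd p.1 p.2) = p.1 :=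
        Nat.mul_div_cancel' (Nat.gcd_dvd_left p.1 p.2)
      have k1 : w ^ 2 ≤ G ^ 2 * (p.1 / Nat.gcd p.1 p.2) ^ 2 := by
        rw [← mul_pow]
        apply Nat.pow_le_pow_left
        calc w ≤ p.1 := h0
          _ = Nat.gcd p.1 p.2 * (p.1 / Nat.gcd p.1 p.2) := ex.symm
          _ ≤ _ := Nat.mul_le_mul_right _ hp.2
      have k2 : G ^ 2 * W ≤ G ^ 2 * (p.1 / Nat.gcd p.1 p.2) ^ 2 := by
        rw [mul_comm]
        exact hGw.trans k1
      exact Nat.le_of_mul_le_mul_left k2 (by positivity)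
    refine (sum_le_sum_of_subset_of_nonneg e2 fun _ _ _ => by positivity).trans ?_
    rw [sum_product]
    simp only
    rw [← sum_mul_sum]
    exact mul_le_mul_of_nonneg_right (sum_inv_sq_le W) (sum_nonneg fun _ _ => by positivity)
  · rw [hsum T2 (filter_subset _ _)]
    set C := ((Icc 1 W) ×ˢ (Icc 1 (3 * B * W))).filter (fun q => ConeC κ X0 b B q) with hC
    have e2 : T2.image φ ⊆ Ioc G W ×ˢ C := by
      intro z hz
      rw [mem_image] at hz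
      obtain ⟨p, hp, rfl⟩ := hz
      rw [hT2, mem_filter] at hp
      obtain ⟨h0, h1, h2, h3⟩ := hT p hp.1
      have hred := h3.reduce
      have hg : 0 < Nat.gcd p.1 p.2 := Nat.gcd_pos_of_pos_left _ h3.2.2.1.1
      rw [hφ, mem_product, mem_Ioc]
      refine ⟨⟨not_le.1 hp.2, (Nat.gcd_le_left _ h3.2.2.1.1).trans h1⟩, ?_⟩
      rw [hC, mem_filter, mem_product, mem_Icc, mem_Icc]
      exact ⟨⟨⟨hred.2.2.1.1, (Nat.div_le_self _ _).trans h1⟩, hred.2.2.1.2.1,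
        (Nat.div_le_self _ _).trans h2⟩, hred.2.2.1⟩
    refine (sum_le_sum_of_subset_of_nonneg e2 fun _ _ _ => by positivity).trans ?_
    rw [sum_product]
    simp only
    rw [← sum_mul_sum]
    have hG' : (0 : ℝ) < G := by exact_mod_cast hG
    have k1 : ∑ g ∈ Ioc G W, 1 / (g : ℝ) ^ 2 ≤ 1 / (G : ℝ) := by
      rcases le_total G W with h | h
      · have := sum_Ioc_inv_sq_le_sub (α := ℝ) hG.ne' h
        have h0 : (0 : ℝ) ≤ (W : ℝ)⁻¹ := by positivity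
        simp only [one_div]
        linarith
      · rw [Ioc_eq_empty (by omega), sum_empty]
        positivity
    have hb' : (0 : ℝ) < b := by exact_mod_cast hb
    have k2 : ∑ q ∈ C, 1 / (q.1 : ℝ) ^ 2 ≤
        0.04 * (κ / X0) * ((B : ℝ) / b) * (1 + Real.log W) := by
      have e3 : ∑ q ∈ C, 1 / (q.1 : ℝ) ^ 2 = ∑ s ∈ Icc 1 W,
          (((Icc 1 (3 * B * W)).filter (fun L => ConeC κ X0 b B (s, L))).card : ℝ) *
          (1 / (s : ℝ) ^ 2) := by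
        rw [hC, sum_filter, sum_product]
        refine sum_congr rfl fun s _ => ?_
        rw [← sum_filter]
        simp only
        rw [sum_const, nsmul_eq_mul]
      rw [e3]
      calc _ ≤ ∑ s ∈ Icc 1 W, 0.04 * (κ / X0) * ((B : ℝ) / b) * (1 / (s : ℝ)) := by
            refine sum_le_sum fun s hs => ?_
            rw [mem_Icc] at hs
            have hs1 : (1 : ℝ) ≤ s := by exact_mod_cast hs.1
            have hs0 : (0 : ℝ) < s := by linarith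
            have e5 : (B : ℝ) * s / b = (B : ℝ) / b * s := by ring
            have := FL_cone_le κ X0 b B s (3 * B * W) hκ hX0 hb (by
              rw [e5]
              have : 0 ≤ 0.02 * (κ / X0) * ((B : ℝ) / b) := by positivity
              nlinarith)
            calc _ ≤ 0.04 * (κ / X0) * ((B : ℝ) * s / b) * (1 / (s : ℝ) ^ 2) :=
                  mul_le_mul_of_nonneg_right this (by positivity)
              _ = _ := by
                  field_simp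
        _ = 0.04 * (κ / X0) * ((B : ℝ) / b) * ∑ s ∈ Icc 1 W, 1 / (s : ℝ) := by
            rw [mul_sum]
        _ ≤ _ := mul_le_mul_of_nonneg_left (FL_harm W) (by positivity)
    exact mul_le_mul k1 k2 (sum_nonneg fun _ _ => by positivity) (by positivity)

/-! ## the count of `D` -/

/-- the classes of `D` modulo `p` that have to be avoided -/
def FLcD (b B s L M0 : ℕ) (p : ℕ) : Finset ℕ :=
  (range p).filter (fun r : ℕ => (p : ℤ) ∣ (s : ℤ) * r + (b * M0) ∨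
    (p : ℤ) ∣ (L : ℤ) * r + (B * M0))

theorem FLcD_card {b B s L M0 : ℕ} {p : ℕ} (hp : p.Prime) (hs : ¬ (p : ℤ) ∣ s)
    (hL : ¬ (p : ℤ) ∣ L) : (FLcD b B s L M0 p).card ≤ 2 := by
  have h1 : FLcD b B s L M0 p ⊆ (range p).filter (fun r : ℕ => (p : ℤ) ∣ (s : ℤ) * r + (b * M0)) ∪
      (range p).filter (fun r : ℕ => (p : ℤ) ∣ (L : ℤ) * r + (B * M0)) := by
    intro r hr
    rw [FLcD, mem_filter] at hr
    rw [mem_union, mem_filter, mem_filter]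
    tauto
  have c1 := FL_one_class p hp s (b * M0) hs
  have c2 := FL_one_class p hp L (B * M0) hL
  have := (card_le_card h1).trans (card_union_le _ _)
  omega

open Classical in
theorem FL_D (h1 : CrtCount) {PP : Finset ℕ} (hPP : ∀ p ∈ PP, p.Prime ∧ 11 ≤ p)
    (P0 : ℕ) (hP0 : 0 < P0) (hcop : P0.Coprime (∏ p ∈ PP, p)) (b B s L M0 : ℕ)
    (hsPP : ∀ p ∈ PP, ¬ p ∣ s ∧ ¬ p ∣ L)
    (κ f : ℝ) (hκ : 0 < κ) (hκ1 : κ ≤ 1 / 1000) (hf : 0 ≤ f) (hf1 : f ≤ 1 / 200)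
    (hs : 0 < s) (hb : 0 < b) (hB : 0 < B)
    (hcone : ConeC κ (f + 0.35 * κ) b B (s, L))
    (hbig : 4 * (P0 : ℝ) * (∏ p ∈ PP, (p : ℝ)) ^ 2 ≤ 0.02 * κ * ((b : ℝ) / s)) :
    0.02 * κ * ((b : ℝ) / s) / (2 * P0) * ∏ p ∈ PP, (1 - 2 / (p : ℝ)) ≤
      (((Icc 1 b).filter (fun D => P0 ∣ D ∧ f + 0.3 * κ < (s : ℝ) * D / b ∧
        (s : ℝ) * D / b < f + 0.4 * κ ∧ f + 0.8 * κ < (L : ℝ) * D / B ∧
        (L : ℝ) * D / B < f + 0.9 * κ ∧
        ∀ p ∈ PP, ¬ p ∣ b * M0 + s * D ∧ ¬ p ∣ B * M0 + L * D)).card : ℝ) := by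
  obtain ⟨X0, hX⟩ : ∃ X0, X0 = f + 0.35 * κ := ⟨_, rfl⟩
  rw [← hX] at hcone
  have hX0 : 0 < X0 := by rw [hX]; positivity
  have hXκ : 0.35 * κ ≤ X0 := by rw [hX]; linarith
  have hb0 : (0 : ℝ) < b := by exact_mod_cast hb
  have hB0 : (0 : ℝ) < B := by exact_mod_cast hB
  have hs0 : (0 : ℝ) < s := by exact_mod_cast hs
  have hs1 : (1 : ℝ) ≤ s := by exact_mod_cast hs
  obtain ⟨u, hu⟩ : ∃ u, u = (X0 - 0.01 * κ) * ((b : ℝ) / s) := ⟨_, rfl⟩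
  obtain ⟨e, he⟩ : ∃ e, e = (X0 + 0.01 * κ) * ((b : ℝ) / s) := ⟨_, rfl⟩
  have hl : e - u = 0.02 * κ * ((b : ℝ) / s) := by
    rw [hu, he]
    ring
  have hu0 : 0 ≤ u := by
    rw [hu]
    have : 0 ≤ X0 - 0.01 * κ := by linarith
    positivity
  have h2 := FL_count2 h1 hPP 2 (by norm_num) (FLcD b B s L M0) (fun p hp => ⟨filter_subset _ _,
    FLcD_card (hPP p hp).1 (fun h => (hsPP p hp).1 (by exact_mod_cast h))
      (fun h => (hsPP p hp).2 (by exact_mod_cast h))⟩) P0 0 hP0 hcop u e hu0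
      (by rw [hl]; exact hbig)
  rw [hl, Nat.cast_ofNat] at h2
  refine h2.trans ?_
  have hsub : ((Ico (⌊u⌋₊ + 1) ⌈e⌉₊).filter
        (fun n => n % P0 = 0 % P0 ∧ ∀ p ∈ PP, n % p ∉ FLcD b B s L M0 p)) ⊆
      (Icc 1 b).filter (fun D => P0 ∣ D ∧ f + 0.3 * κ < (s : ℝ) * D / b ∧
        (s : ℝ) * D / b < f + 0.4 * κ ∧ f + 0.8 * κ < (L : ℝ) * D / B ∧
        (L : ℝ) * D / B < f + 0.9 * κ ∧
        ∀ p ∈ PP, ¬ p ∣ b * M0 + s * D ∧ ¬ p ∣ B * M0 + L * D) := by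
    intro D hD
    rw [mem_filter, mem_Ico] at hD
    obtain ⟨⟨hD1, hD2⟩, hD3, hD4⟩ := hD
    have g1 : u < D := (Nat.floor_lt hu0).1 hD1
    have g2 : (D : ℝ) < e := Nat.lt_ceil.1 hD2
    have hD0 : 0 < D := by omega
    have hP0D : P0 ∣ D := by
      rw [Nat.zero_mod] at hD3
      exact Nat.dvd_of_mod_eq_zero hD3
    -- `τ = s D / b`
    obtain ⟨τ, hτ⟩ : ∃ τ, τ = (s : ℝ) * D / b := ⟨_, rfl⟩
    have t1 : X0 - 0.01 * κ < τ := by
      rw [hu] at g1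
      rw [hτ, lt_div_iff₀ hb0]
      have := mul_lt_mul_of_pos_left g1 hs0
      have e1 : (s : ℝ) * ((X0 - 0.01 * κ) * ((b : ℝ) / s)) = (X0 - 0.01 * κ) * b := by
        field_simp
      rw [e1] at this
      exact this
    have t2 : τ < X0 + 0.01 * κ := by
      rw [he] at g2
      rw [hτ, div_lt_iff₀ hb0]
      have := mul_lt_mul_of_pos_left g2 hs0
      have e1 : (s : ℝ) * ((X0 + 0.01 * κ) * ((b : ℝ) / s)) = (X0 + 0.01 * κ) * b := by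
        field_simp
      rw [e1] at this
      exact this
    obtain ⟨-, -, c1, c2⟩ := hcone
    simp only at c1 c2
    have hτ0 : 0 < τ := by
      rw [hτ]
      have : (0 : ℝ) < D := by exact_mod_cast hD0
      positivity
    have hLD : (L : ℝ) * D / B = (b * L) / (B * s) * τ := by
      rw [hτ]
      field_simp
    obtain ⟨k, hk⟩ : ∃ k, k = κ / X0 := ⟨_, rfl⟩
    have hkX : k * X0 = κ := by rw [hk]; field_simp
    have hk0 : 0 < k := by rw [hk]; positivity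
    have hk1 : k ≤ 20 / 7 := by
      rw [hk, div_le_iff₀ hX0]; linarith
    have e49 : 0.49 * κ / X0 = 0.49 * k := by rw [hk]; ring
    have e51 : 0.51 * κ / X0 = 0.51 * k := by rw [hk]; ring
    rw [e49] at c1
    rw [e51] at c2
    have hBs : (0 : ℝ) < B * s := by positivity
    have l1 : 1 + 0.49 * k < (b * L) / (B * s) := by
      rw [lt_div_iff₀ hBs]; exact c1
    have l2 : ((b : ℝ) * L) / (B * s) < 1 + 0.51 * k := by
      rw [div_lt_iff₀ hBs]; exact c2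
    have m1 : (1 + 0.49 * k) * (X0 - 0.01 * κ) < (b * L) / (B * s) * τ := by
      apply mul_lt_mul'' l1 t1 (by positivity)
      linarith
    have m2 : (b * L) / (B * s) * τ < (1 + 0.51 * k) * (X0 + 0.01 * κ) := by
      apply mul_lt_mul'' l2 t2 (by positivity) hτ0.le
    have n1 : f + 0.8 * κ < (1 + 0.49 * k) * (X0 - 0.01 * κ) := by
      have e1 : (1 + 0.49 * k) * (X0 - 0.01 * κ) =
        X0 - 0.01 * κ + 0.49 * (k * X0) - 0.0049 * (k * κ) := by ring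
      rw [e1, hkX, hX]
      have : k * κ ≤ 20 / 7 * κ := mul_le_mul_of_nonneg_right hk1 hκ.le
      linarith
    have n2 : (1 + 0.51 * k) * (X0 + 0.01 * κ) < f + 0.9 * κ := by
      have e1 : (1 + 0.51 * k) * (X0 + 0.01 * κ) =
        X0 + 0.01 * κ + 0.51 * (k * X0) + 0.0051 * (k * κ) := by ring
      rw [e1, hkX, hX]
      have : k * κ ≤ 20 / 7 * κ := mul_le_mul_of_nonneg_right hk1 hκ.le
      linarith
    rw [mem_filter, mem_Icc]
    refine ⟨⟨hD0, ?_⟩, hP0D, ?_, ?_, ?_, ?_, ?_⟩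
    · have h5 : (D : ℝ) ≤ b := by
        have h6 : e ≤ 1 * b := by
          rw [he]
          apply mul_le_mul _ _ (by positivity) zero_le_one
          · rw [hX]; linarith
          · exact div_le_self hb0.le hs1
        linarith
      exact_mod_cast h5
    · rw [← hτ]
      rw [hX] at t1
      linarith
    · rw [← hτ]
      rw [hX] at t2
      linarith
    · rw [hLD]
      exact n1.trans m1
    · rw [hLD]
      exact m2.trans n2
    · intro p hp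
      have h5 := hD4 p hp
      rw [FLcD, mem_filter, not_and] at h5
      have h6 := h5 (mem_range.2 (Nat.mod_lt _ (hPP p hp).1.pos))
      rw [FL_mod_dvd, FL_mod_dvd] at h6
      push Not at h6
      obtain ⟨k1, k2⟩ := h6
      refine ⟨fun h => k1 ?_, fun h => k2 ?_⟩
      · rw [add_comm]
        exact_mod_cast h
      · rw [add_comm]
        exact_mod_cast h
  exact_mod_cast card_le_card hsub

/-! ## the sum over the configurations -/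

open Classical in
theorem FL_EE (h1 : CrtCount) {C0 P0 b B W : ℕ} {PP : Finset ℕ} {κ f : ℝ}
    (hF : HF C0 P0 b B W PP κ f) (hcop : P0.Coprime (∏ p ∈ PP, p)) (M0 : ℕ) (x y : ℕ → ℤ)
    (hbig : ∀ s : ℕ, 0 < s → s ≤ W →
      4 * (P0 : ℝ) * (∏ p ∈ PP, (p : ℝ)) ^ 2 ≤ 0.02 * κ * ((b : ℝ) / s)) :
    0.019 * ((f + 0.35 * κ) * b / (B * P0)) * (∏ p ∈ PP, (1 - 2 / (p : ℝ))) *
      ∑ q ∈ FLF P0 PP κ (f + 0.35 * κ) b B W x y, 1 / (q.1 : ℝ) ^ 2 ≤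
      EE P0 PP κ f b B W M0 x y := by
  have hPP : ∀ p ∈ PP, p.Prime ∧ 11 ≤ p := fun p hp => ⟨(hF.PPp p hp).1, (hF.PPp p hp).2.1⟩
  have hκ := hF.κ0
  have hb0 : (0 : ℝ) < b := by exact_mod_cast hF.bp.pos
  have hB0 : (0 : ℝ) < B := by exact_mod_cast hF.Bp.pos
  have hP0 : (1 : ℝ) ≤ P0 := by exact_mod_cast hF.P0pos
  have hv0 := FL_v_pos hPP (2 : ℝ) (by norm_num)
  set X0 : ℝ := f + 0.35 * κ with hX
  have hf := hF.f0
  have hX0 : 0 < X0 := by rw [hX]; positivity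
  set v2 : ℝ := ∏ p ∈ PP, (1 - 2 / (p : ℝ)) with hv2
  set F' := FLF P0 PP κ X0 b B W x y with hF'
  set DS : ℕ × ℕ → Finset ℕ := fun q => (Icc 1 b).filter (fun D => P0 ∣ D ∧
    f + 0.3 * κ < (q.1 : ℝ) * D / b ∧ (q.1 : ℝ) * D / b < f + 0.4 * κ ∧
    f + 0.8 * κ < (q.2 : ℝ) * D / B ∧ (q.2 : ℝ) * D / B < f + 0.9 * κ ∧
    ∀ p ∈ PP, ¬ p ∣ b * M0 + q.1 * D ∧ ¬ p ∣ B * M0 + q.2 * D) with hDS
  -- membership
  have hmem : ∀ q ∈ F', ∀ D ∈ DS q, (q.1, (q.2, D)) ∈ Fam P0 PP κ f b B W M0 x y := by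
    intro q hq D hD
    rw [hF', FLF, mem_filter, mem_product, mem_Icc, mem_Icc] at hq
    obtain ⟨⟨⟨a1, a2⟩, a3, a4⟩, hg, hco, hge⟩ := hq
    obtain ⟨g1, g2, g3, g4⟩ := hg
    simp only [hDS, mem_filter, mem_Icc] at hD
    obtain ⟨⟨d1, d2⟩, d3, d4, d5, d6, d7, d8⟩ := hD
    have hlt : B * q.1 < b * q.2 := by
      obtain ⟨c0, -, c1, -⟩ := g3
      have hq1 : (0 : ℝ) < q.1 := by exact_mod_cast c0
      have h3 : (0 : ℝ) < (B : ℝ) * q.1 := by positivity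
      have h4 : 0 < 0.49 * κ / X0 := by positivity
      have h5 : ((B * q.1 : ℕ) : ℝ) < ((b * q.2 : ℕ) : ℝ) := by
        push_cast
        nlinarith
      exact_mod_cast h5
    unfold Fam
    rw [mem_filter, mem_product, mem_product, mem_Icc, mem_Icc, mem_Icc]
    refine ⟨⟨⟨a1, a2⟩, ⟨a3, a4⟩, d1, d2⟩, ⟨a1, a3, d1, hge, a2, g1, d3, g2, hco, hlt, d4, d5, d6,
      d7⟩, ?_⟩
    intro p hp
    obtain ⟨e1, e2, e3, e4⟩ := g4 p hp
    refine ⟨fun h => e3 ?_, (d8 p hp).1, (d8 p hp).2, e4⟩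
    have h5 : ((cd b B (q.1, (q.2, D)) : ℕ) : ℤ) = b * q.2 - B * q.1 := by
      unfold cd
      rw [Nat.cast_sub hlt.le]
      push_cast
      ring
    rw [← h5]
    exact_mod_cast h
  -- the sum
  have hinj : Set.InjOn (fun z : (Σ _ : ℕ × ℕ, ℕ) => ((z.1.1, (z.1.2, z.2)) : ℕ × ℕ × ℕ))
      ((F'.sigma DS : Finset (Σ _ : ℕ × ℕ, ℕ)) : Set (Σ _ : ℕ × ℕ, ℕ)) := by
    rintro ⟨⟨s, L⟩, D⟩ _ ⟨⟨s', L'⟩, D'⟩ _ h
    simp only [Prod.mk.injEq] at h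
    obtain ⟨rfl, rfl, rfl⟩ := h
    rfl
  have hsub : (F'.sigma DS).image (fun z => ((z.1.1, (z.1.2, z.2)) : ℕ × ℕ × ℕ)) ⊆
      Fam P0 PP κ f b B W M0 x y := by
    intro e he
    rw [mem_image] at he
    obtain ⟨⟨q, D⟩, hz, rfl⟩ := he
    rw [mem_sigma] at hz
    exact hmem q hz.1 D hz.2
  have hEE : ∑ q ∈ F', ∑ D ∈ DS q, 1 / (cd b B (q.1, (q.2, D)) : ℝ) ≤
      EE P0 PP κ f b B W M0 x y := by
    unfold EE
    refine le_trans (le_of_eq ?_)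
      (sum_le_sum_of_subset_of_nonneg hsub fun _ _ _ => by positivity)
    rw [sum_image hinj, sum_sigma]
  refine le_trans ?_ hEE
  rw [mul_sum]
  refine sum_le_sum fun q hq => ?_
  have hq' := hq
  rw [hF', FLF, mem_filter, mem_product, mem_Icc, mem_Icc] at hq'
  obtain ⟨⟨⟨a1, a2⟩, a3, a4⟩, hg, hco, hge⟩ := hq'
  obtain ⟨g1, g2, g3, g4⟩ := hg
  have hs0 : (0 : ℝ) < q.1 := by exact_mod_cast a1
  have hD := FL_D h1 hPP P0 hF.P0pos hcop b B q.1 q.2 M0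
    (fun p hp => ⟨(g4 p hp).1, (g4 p hp).2.1⟩) κ f hκ hF.κ1 hF.f0 hF.f1 a1 hF.bp.pos
    hF.Bp.pos (by rw [← hX]; exact g3) (hbig q.1 a1 a2)
  rw [← hv2] at hD
  have hcard : 0.02 * κ * ((b : ℝ) / q.1) / (2 * P0) * v2 ≤ ((DS q).card : ℝ) := hD
  obtain ⟨c0, c3, c1, c2⟩ := g3
  have hlt : B * q.1 < b * q.2 := by
    have h3 : (0 : ℝ) < (B : ℝ) * q.1 := by positivity
    have h4 : 0 < 0.49 * κ / X0 := by positivity
    have h5 : ((B * q.1 : ℕ) : ℝ) < ((b * q.2 : ℕ) : ℝ) := by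
      push_cast
      nlinarith
    exact_mod_cast h5
  have hcd : ∀ D, ((cd b B (q.1, (q.2, D)) : ℕ) : ℝ) = (b : ℝ) * q.2 - B * q.1 := by
    intro D
    unfold cd
    rw [Nat.cast_sub hlt.le]
    push_cast
    ring
  have hdpos : (0 : ℝ) < (b : ℝ) * q.2 - B * q.1 := by
    have : ((B * q.1 : ℕ) : ℝ) < ((b * q.2 : ℕ) : ℝ) := by exact_mod_cast hlt
    push_cast at this
    linarith
  have hdle : (b : ℝ) * q.2 - B * q.1 ≤ 0.51 * κ / X0 * (B * q.1) := by linarith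
  have hinv : X0 / (0.51 * κ * (B * q.1)) ≤ 1 / ((b : ℝ) * q.2 - B * q.1) := by
    rw [div_le_div_iff₀ (by positivity) hdpos]
    have : X0 * ((b : ℝ) * q.2 - B * q.1) ≤ X0 * (0.51 * κ / X0 * (B * q.1)) :=
      mul_le_mul_of_nonneg_left hdle hX0.le
    have e : X0 * (0.51 * κ / X0 * (B * q.1)) = 1 * (0.51 * κ * (B * q.1)) := by
      field_simp
    linarith
  have e1 : ∑ D ∈ DS q, 1 / (cd b B (q.1, (q.2, D)) : ℝ) =
      ((DS q).card : ℝ) * (1 / ((b : ℝ) * q.2 - B * q.1)) := by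
    rw [← nsmul_eq_mul, ← sum_const]
    exact sum_congr rfl fun D _ => by rw [hcd]
  rw [e1]
  calc 0.019 * (X0 * b / (B * P0)) * v2 * (1 / (q.1 : ℝ) ^ 2)
      ≤ (1 / 51) * (X0 * b / (B * P0)) * v2 * (1 / (q.1 : ℝ) ^ 2) := by
        gcongr
        norm_num
    _ = 0.02 * κ * ((b : ℝ) / q.1) / (2 * P0) * v2 * (X0 / (0.51 * κ * (B * q.1))) := by
        field_simp
        norm_num
    _ ≤ _ := mul_le_mul hcard hinv (by positivity) (Nat.cast_nonneg _)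

/-! ## numerical facts -/

theorem FL_num {P0 b B W : ℕ} {PP : Finset ℕ} {κ f : ℝ} (hF : HF 16 P0 b B W PP κ f) :
    ∃ N : ℕ, 19 ≤ N ∧ 2 ^ (8 * N) ≤ W ∧ W < 2 ^ (8 * N + 8) ∧
      500000 * ((P0 : ℝ) * ∏ p ∈ PP, (p : ℝ)) ^ 2 ≤ 2 ^ N ∧ Real.log W ≤ 12 * N ∧
      (P0 : ℝ) * ∏ p ∈ PP, (p : ℝ) ≤ κ * W ∧
      1000 * ((P0 : ℝ) * ∏ p ∈ PP, (p : ℝ)) ≤ W ∧ (W : ℝ) ^ 16 ≤ b ∧ 1 ≤ (W : ℝ) := by
  have hPP : ∀ p ∈ PP, p.Prime ∧ 11 ≤ p := fun p hp => ⟨(hF.PPp p hp).1, (hF.PPp p hp).2.1⟩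
  have hκ := hF.κ0
  have hκ1 := hF.κ1
  have hP0 : (1 : ℝ) ≤ P0 := by exact_mod_cast hF.P0pos
  have hPI := FL_PI_ge_one hPP
  obtain ⟨P, hP⟩ : ∃ P : ℝ, P = (P0 : ℝ) * ∏ p ∈ PP, (p : ℝ) := ⟨_, rfl⟩
  have hbig := hF.big
  have ecast : ((P0 * ∏ p ∈ PP, p : ℕ) : ℝ) = P := by
    rw [hP]
    push_cast
    rfl
  rw [ecast] at hbig
  rw [← hP]
  have hP1 : 1 ≤ P := by
    rw [hP]
    nlinarith
  have hPκ : 1000 * P ≤ P / κ := by
    rw [le_div_iff₀ hκ]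
    nlinarith
  have hPκ1 : 1 ≤ P / κ := by linarith
  have q1 : (1000 * P) ^ 16 ≤ W := (pow_le_pow_left₀ (by positivity) hPκ 16).trans hbig
  have q2 : P / κ ≤ W := by
    refine le_trans ?_ hbig
    calc P / κ = (P / κ) ^ 1 := (pow_one _).symm
      _ ≤ (P / κ) ^ 16 := pow_le_pow_right₀ hPκ1 (by norm_num)
  have q2' : P ≤ κ * W := by
    rw [div_le_iff₀ hκ] at q2
    linarith
  have hW1 : (1 : ℝ) ≤ W := by linarith
  have hWn : W ≠ 0 := by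
    rintro rfl
    norm_num at hW1
  have p1 : 2 ^ (8 * (Nat.log 2 W / 8)) ≤ W :=
    (Nat.pow_le_pow_right (by norm_num) (Nat.mul_div_le _ _)).trans (Nat.pow_log_le_self 2 hWn)
  have p2 : W < 2 ^ (8 * (Nat.log 2 W / 8) + 8) :=
    (Nat.lt_pow_succ_log_self (by norm_num) W).trans_le
      (Nat.pow_le_pow_right (by norm_num) (by omega))
  set N := Nat.log 2 W / 8 with hN
  have p3 : (1000 * P) ^ 2 < 2 ^ (N + 1) := by
    have h1 : ((1000 * P) ^ 2) ^ 8 < ((2 : ℝ) ^ (N + 1)) ^ 8 := by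
      rw [← pow_mul, ← pow_mul]
      have h2 : (W : ℝ) < 2 ^ ((N + 1) * 8) := by
        have e : (N + 1) * 8 = 8 * N + 8 := by ring
        rw [e]
        exact_mod_cast p2
      have e : (2 * 8 : ℕ) = 16 := by norm_num
      rw [e]
      linarith
    exact lt_of_pow_lt_pow_left₀ 8 (by positivity) h1
  have p3' : 500000 * P ^ 2 ≤ 2 ^ N := by
    rw [pow_succ (2 : ℝ) N] at p3
    nlinarith
  have p4 : 19 ≤ N := by
    by_contra hcon
    have h1 : (2 : ℝ) ^ (N + 1) ≤ 2 ^ 19 := pow_le_pow_right₀ (by norm_num) (by omega)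
    have h2 : (1 : ℝ) ≤ P ^ 2 := one_le_pow₀ hP1
    norm_num at h1
    nlinarith
  refine ⟨N, p4, p1, p2, p3', ?_, q2', by linarith, hF.Wb, hW1⟩
  have h1 : Real.log W ≤ Real.log ((2 : ℝ) ^ (8 * N + 8)) := by
    apply Real.log_le_log (by linarith)
    exact_mod_cast p2.le
  rw [Real.log_pow] at h1
  have h2 := Real.log_two_lt_d9
  have h3 : (19 : ℝ) ≤ N := by exact_mod_cast p4
  push_cast at h1
  nlinarith

/-- **Row M_FL.** -/
theorem famLow (h1 : CrtCount) : FamLow := by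
  classical
  refine ⟨1 / 2000000, by norm_num, 16, ?_⟩
  intro P0 b B W PP κ f hF M0 x y hxy
  have hPP : ∀ p ∈ PP, p.Prime ∧ 11 ≤ p := fun p hp => ⟨(hF.PPp p hp).1, (hF.PPp p hp).2.1⟩
  have hκ := hF.κ0
  have hκ1 := hF.κ1
  have hf := hF.f0
  have hf1 := hF.f1
  have hP0 : (1 : ℝ) ≤ P0 := by exact_mod_cast hF.P0pos
  have hPI := FL_PI_ge_one hPP
  have hb0 : (0 : ℝ) < b := by exact_mod_cast hF.bp.pos
  have hB0 : (0 : ℝ) < B := by exact_mod_cast hF.Bp.pos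
  have hcop : P0.Coprime (∏ p ∈ PP, p) := by
    apply Nat.Coprime.prod_right
    intro p hp
    exact ((Nat.Prime.coprime_iff_not_dvd (hF.PPp p hp).1).2 (hF.PPp p hp).2.2).symm
  obtain ⟨N, hN, hW1, hW2, hNP, hlogW, hPκ, hPW, hWb, hW⟩ := FL_num hF
  have hv1 := FL_v_pos hPP (1 : ℝ) (by norm_num)
  have hv2 := FL_v_pos hPP (2 : ℝ) (by norm_num)
  have hv3 := FL_v_pos hPP (3 : ℝ) (by norm_num)
  have hv13 := FL_v13 hPP
  have hv8 := FL_v8 hPP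
  set PI : ℝ := ∏ p ∈ PP, (p : ℝ) with hPIdef
  set v1 : ℝ := ∏ p ∈ PP, (1 - 1 / (p : ℝ)) with hv1def
  set v2 : ℝ := ∏ p ∈ PP, (1 - 2 / (p : ℝ)) with hv2def
  set v3 : ℝ := ∏ p ∈ PP, (1 - 3 / (p : ℝ)) with hv3def
  set v8 : ℝ := ∏ p ∈ PP, (1 - 1 / (p : ℝ)) ^ 8 with hv8def
  have hNr : (19 : ℝ) ≤ N := by exact_mod_cast hN
  obtain ⟨P, hP⟩ : ∃ P : ℝ, P = (P0 : ℝ) * PI := ⟨_, rfl⟩
  rw [← hP] at hNP hPκ hPW
  have hP1 : 1 ≤ P := by rw [hP]; nlinarith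
  have hPP2 : (P0 : ℝ) * PI ^ 2 ≤ P ^ 2 := by
    rw [hP]
    have : (P0 : ℝ) * PI ^ 2 * 1 ≤ (P0 : ℝ) * PI ^ 2 * P0 :=
      mul_le_mul_of_nonneg_left hP0 (by positivity)
    nlinarith
  have hP02 : (P0 : ℝ) ^ 2 * PI ≤ P ^ 2 := by
    rw [hP]
    have : (P0 : ℝ) ^ 2 * PI * 1 ≤ (P0 : ℝ) ^ 2 * PI * PI :=
      mul_le_mul_of_nonneg_left hPI (by positivity)
    nlinarith
  have hP22 : 1 ≤ P ^ 2 := one_le_pow₀ hP1
  have hPP2' : P ≤ P ^ 2 := by nlinarith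
  -- `b` is large
  have hWW : (W : ℝ) ≤ W ^ 2 := by nlinarith
  have hWb2 : (W : ℝ) ^ 3 ≤ b := (pow_le_pow_right₀ hW (by norm_num)).trans hWb
  have hWb1 : (W : ℝ) ≤ b := by nlinarith [mul_nonneg (show (0:ℝ) ≤ W by linarith) (show (0:ℝ) ≤ (W:ℝ)^2 - 1 by nlinarith)]
  have hκW : 0 < κ * W := by positivity
  have hBb : (b : ℝ) ^ 2 ≤ (B : ℝ) / b := by
    rw [le_div_iff₀ hb0]
    have : ((b ^ 3 : ℕ) : ℝ) ≤ B := by exact_mod_cast hF.bB
    push_cast at this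
    nlinarith
  set X0 : ℝ := f + 0.35 * κ with hX
  have hX0 : 0 < X0 := by rw [hX]; positivity
  have hXκ : 0.35 * κ ≤ X0 := by rw [hX]; linarith
  have hX1 : X0 ≤ 0.006 := by rw [hX]; linarith
  have hκX : κ / 0.006 ≤ κ / X0 := div_le_div_of_nonneg_left hκ.le hX0 hX1
  -- the basic lower bound of the cone
  have hA : 50 * P ^ 2 ≤ 0.02 * (κ / X0) * ((B : ℝ) / b) := by
    have a1 : κ * b ^ 2 ≥ 1000 * P ^ 2 := by
      have b1 : κ * (W : ℝ) * W ≤ κ * b ^ 2 := by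
        have : (W : ℝ) * W ≤ b ^ 2 := by nlinarith
        nlinarith
      have b2 : P * (1000 * P) ≤ κ * W * W := mul_le_mul hPκ hPW (by positivity) hκW.le
      nlinarith
    have a2 : κ / 0.006 * b ^ 2 ≤ (κ / X0) * ((B : ℝ) / b) :=
      mul_le_mul hκX hBb (by positivity) (by positivity)
    have a3 : κ / 0.006 * (b : ℝ) ^ 2 = (κ * b ^ 2) / 0.006 := by ring
    rw [a3] at a2
    have a4 : 1000 * P ^ 2 / 0.006 ≤ (κ * b ^ 2) / 0.006 :=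
      div_le_div_of_nonneg_right a1 (by norm_num)
    have a5 : 1000 * P ^ 2 / 0.006 = (500000 / 3) * P ^ 2 := by ring
    rw [a5] at a4
    nlinarith
  obtain ⟨A, hAdef⟩ : ∃ A : ℝ, A = (κ / X0) * ((B : ℝ) / b) := ⟨_, rfl⟩
  have hA0 : 0 < A := by rw [hAdef]; positivity
  -- the sum over `s`
  have h2N : (2 : ℝ) ^ N ≤ 2 ^ (7 * N) := pow_le_pow_right₀ (by norm_num) (by omega)
  have hS := FL_sumS h1 hPP P0 hF.P0pos hcop (7 * N) (by
    rw [← hPIdef]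
    nlinarith) N
  rw [← hv1def] at hS
  set SS := (Ico (2 ^ (7 * N)) (2 ^ (7 * N + N))).filter
        (fun s => s % P0 = 1 % P0 ∧ ∀ p ∈ PP, s % p ∉ ({0} : Finset ℕ)) with hSS
  have hSSmem : ∀ s ∈ SS, 2 ^ (7 * N) ≤ s ∧ s ≤ W ∧ s.Coprime P0 ∧ ∀ p ∈ PP, ¬ p ∣ s := by
    intro s hs
    rw [hSS, mem_filter, mem_Ico] at hs
    obtain ⟨⟨s1, s2⟩, s3, s4⟩ := hs
    refine ⟨s1, ?_, ?_, ?_⟩
    · have e : 7 * N + N = 8 * N := by ring
      rw [e] at s2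
      omega
    · have h5 : s ≡ 1 [MOD P0] := s3
      rw [Nat.Coprime, h5.gcd_eq, Nat.gcd_one_left]
    · intro p hp h
      exact s4 p hp (by rw [mem_singleton]; exact Nat.mod_eq_zero_of_dvd h)
  set T := (SS ×ˢ Icc 1 (3 * B * W)).filter (fun q => FLgood P0 PP κ X0 b B x y q) with hT
  have hbP : b ∉ PP := by
    intro h
    have k1 : (b : ℝ) ≤ PI := by
      have k2 : b ∣ ∏ p ∈ PP, p := dvd_prod_of_mem _ h
      have k3 : 0 < ∏ p ∈ PP, p := prod_pos fun p hp => (hPP p hp).1.pos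
      have k4 := Nat.le_of_dvd k3 k2
      have k5 : (b : ℝ) ≤ ((∏ p ∈ PP, p : ℕ) : ℝ) := by exact_mod_cast k4
      rw [hPIdef]
      push_cast at k5
      exact k5
    have k6 : PI ≤ P := by rw [hP]; nlinarith
    linarith
  have hBP : B ∉ PP := by
    intro h
    have k1 : (B : ℝ) ≤ PI := by
      have k2 : B ∣ ∏ p ∈ PP, p := dvd_prod_of_mem _ h
      have k3 : 0 < ∏ p ∈ PP, p := prod_pos fun p hp => (hPP p hp).1.pos
      have k4 := Nat.le_of_dvd k3 k2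
      have k5 : (B : ℝ) ≤ ((∏ p ∈ PP, p : ℕ) : ℝ) := by exact_mod_cast k4
      rw [hPIdef]
      push_cast at k5
      exact k5
    have k6 : PI ≤ P := by rw [hP]; nlinarith
    have k7 : (b : ℝ) ≤ B := by
      have : ((b ^ 3 : ℕ) : ℝ) ≤ B := by exact_mod_cast hF.bB
      push_cast at this
      have hb1 : (1 : ℝ) ≤ b := by linarith
      nlinarith [mul_nonneg (show (0:ℝ) ≤ b by linarith) (show (0:ℝ) ≤ (b:ℝ)^2 - 1 by nlinarith)]
    linarith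
  have hTlow : 0.01 * A / P0 * v3 * ∑ s ∈ SS, 1 / (s : ℝ) ≤ ∑ q ∈ T, 1 / (q.1 : ℝ) ^ 2 := by
    have e3 : ∑ q ∈ T, 1 / (q.1 : ℝ) ^ 2 = ∑ s ∈ SS,
        (((Icc 1 (3 * B * W)).filter (fun L => FLgood P0 PP κ X0 b B x y (s, L))).card : ℝ) *
        (1 / (s : ℝ) ^ 2) := by
      rw [hT, sum_filter, sum_product]
      refine sum_congr rfl fun s _ => ?_
      rw [← sum_filter]
      simp only
      rw [sum_const, nsmul_eq_mul]
    rw [e3, mul_sum]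
    refine sum_le_sum fun s hs => ?_
    obtain ⟨s1, s2, s3, s4⟩ := hSSmem s hs
    have hs0 : 0 < s := lt_of_lt_of_le (by positivity) s1
    have hs0' : (0 : ℝ) < s := by exact_mod_cast hs0
    have hs1' : (1 : ℝ) ≤ s := by exact_mod_cast hs0
    have e5 : (B : ℝ) * s / b = (B : ℝ) / b * s := by ring
    have := FL_L h1 hPP P0 hF.P0pos hcop b B s W x y hF.bp hF.Bp hbP hBP hxy κ X0 hκ hXκ hs0 s2
      s3 s4 (by
        rw [← hPIdef, e5]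
        have k1 : 0 ≤ 0.02 * (κ / X0) * ((B : ℝ) / b) := by positivity
        have k2 : 0.02 * (κ / X0) * ((B : ℝ) / b) * 1 ≤ 0.02 * (κ / X0) * ((B : ℝ) / b) * s :=
          mul_le_mul_of_nonneg_left hs1' k1
        have k3 : 0.02 * (κ / X0) * ((B : ℝ) / b * s) =
          0.02 * (κ / X0) * ((B : ℝ) / b) * s := by ring
        rw [k3]
        nlinarith)
    rw [← hv3def] at this
    calc 0.01 * A / P0 * v3 * (1 / (s : ℝ))
        = 0.02 * (κ / X0) * ((B : ℝ) * s / b) / (2 * P0) * v3 * (1 / (s : ℝ) ^ 2) := by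
          rw [hAdef]
          field_simp
          norm_num
      _ ≤ _ := mul_le_mul_of_nonneg_right this (by positivity)
  have hcopr := FL_cop (P0 := P0) (PP := PP) (κ := κ) (X0 := X0) (b := b) (B := B) (W := W)
    (x := x) (y := y) hκ hX0 hF.bp.pos (2 ^ (2 * N)) (2 ^ (7 * N)) (by positivity) (by
      calc W * (2 ^ (2 * N)) ^ 2 ≤ 2 ^ (8 * N + 8) * (2 ^ (2 * N)) ^ 2 :=
            Nat.mul_le_mul_right _ hW2.le
        _ = 2 ^ (12 * N + 8) := by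
            rw [← pow_mul, ← pow_add]
            congr 1
            ring
        _ ≤ 2 ^ (14 * N) := Nat.pow_le_pow_right (by norm_num) (by omega)
        _ = (2 ^ (7 * N)) ^ 2 := by
            rw [← pow_mul]
            congr 1
            ring) T (by nlinarith) (by
      intro q hq
      rw [hT, mem_filter, mem_product, mem_Icc] at hq
      obtain ⟨⟨a1, a2, a3⟩, a4⟩ := hq
      obtain ⟨s1, s2, s3, s4⟩ := hSSmem q.1 a1
      exact ⟨s1, s2, a3, a4⟩)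
  have hEE := FL_EE h1 hF hcop M0 x y (by
    intro s hs hsW
    rw [← hPIdef]
    have hs0' : (0 : ℝ) < s := by exact_mod_cast hs
    have hsW' : (s : ℝ) ≤ W := by exact_mod_cast hsW
    have k1 : (W : ℝ) ^ 2 ≤ (b : ℝ) / s := by
      rw [le_div_iff₀ hs0']
      calc (W : ℝ) ^ 2 * s ≤ (W : ℝ) ^ 2 * W := mul_le_mul_of_nonneg_left hsW' (by positivity)
        _ = (W : ℝ) ^ 3 := by ring
        _ ≤ b := hWb2
    have k2 : P * (1000 * P) ≤ κ * W * W := mul_le_mul hPκ hPW (by positivity) hκW.le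
    have k3 : κ * (W : ℝ) ^ 2 ≤ κ * ((b : ℝ) / s) := mul_le_mul_of_nonneg_left k1 hκ.le
    nlinarith)
  rw [← hX, ← hv2def] at hEE
  set F' := FLF P0 PP κ X0 b B W x y with hF'
  obtain ⟨SF', hSF'⟩ : ∃ z : ℝ, z = ∑ q ∈ F', 1 / (q.1 : ℝ) ^ 2 := ⟨_, rfl⟩
  rw [← hSF'] at hcopr hEE
  -- combine
  have hT1 : 0.01 * A / P0 * v3 * (N * (v1 / (4 * P0))) ≤ ∑ q ∈ T, 1 / (q.1 : ℝ) ^ 2 :=
    (mul_le_mul_of_nonneg_left hS (by positivity)).trans hTlow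
  have hG : 1 / ((2 ^ (2 * N) : ℕ) : ℝ) * (0.04 * (κ / X0) * ((B : ℝ) / b) * (1 + Real.log W)) ≤
      0.00125 * A * N * (v1 * v3) / P0 ^ 2 := by
    have g1 : 1 + Real.log W ≤ 13 * N := by linarith
    have g2 : (0 : ℝ) < ((2 ^ (2 * N) : ℕ) : ℝ) := by positivity
    have g3 : 500000 * P ^ 2 ≤ ((2 ^ (2 * N) : ℕ) : ℝ) := by
      push_cast
      refine hNP.trans (pow_le_pow_right₀ (by norm_num) (by omega))
    have g4 : 0.04 * (κ / X0) * ((B : ℝ) / b) * (1 + Real.log W) ≤ 0.04 * A * (13 * N) := by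
      rw [hAdef, mul_assoc 0.04 (κ / X0)]
      exact mul_le_mul_of_nonneg_left g1 (by positivity)
    rw [one_div_mul_eq_div, div_le_div_iff₀ g2 (by positivity)]
    have g5 : 1 ≤ v1 * v3 * PI := hv13
    have g6 : (P0 : ℝ) ^ 2 ≤ v1 * v3 * P ^ 2 := by
      calc (P0 : ℝ) ^ 2 = P0 ^ 2 * 1 := by ring
        _ ≤ P0 ^ 2 * (v1 * v3 * PI) := mul_le_mul_of_nonneg_left g5 (by positivity)
        _ = v1 * v3 * (P0 ^ 2 * PI) := by ring
        _ ≤ v1 * v3 * P ^ 2 := mul_le_mul_of_nonneg_left hP02 (by positivity)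
    calc 0.04 * (κ / X0) * ((B : ℝ) / b) * (1 + Real.log W) * (P0 : ℝ) ^ 2
        ≤ 0.04 * A * (13 * N) * (v1 * v3 * P ^ 2) :=
          mul_le_mul g4 g6 (by positivity) (by positivity)
      _ = 0.00125 * A * N * (v1 * v3) * (416 * P ^ 2) := by ring
      _ ≤ 0.00125 * A * N * (v1 * v3) * ((2 ^ (2 * N) : ℕ) : ℝ) := by
          apply mul_le_mul_of_nonneg_left _ (by positivity)
          linarith
  have hSF : 0.000625 * A * N * (v1 * v3) / P0 ^ 2 ≤ SF' := by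
    have e1 : 0.01 * A / P0 * v3 * (N * (v1 / (4 * P0))) =
        4 * (0.000625 * A * N * (v1 * v3) / P0 ^ 2) := by
      field_simp
      norm_num
    have e2 : 0.00125 * A * N * (v1 * v3) / P0 ^ 2 =
        2 * (0.000625 * A * N * (v1 * v3) / P0 ^ 2) := by ring
    rw [e1] at hT1
    rw [e2] at hG
    linarith
  refine le_trans ?_ hEE
  have e3 : 0.019 * (X0 * b / (B * P0)) * v2 * (0.000625 * A * N * (v1 * v3) / P0 ^ 2) =
      0.000011875 * κ * N * (v1 * v2 * v3) / P0 ^ 3 := by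
    rw [hAdef]
    field_simp
    norm_num
  have e4 : 0.019 * (X0 * b / (B * P0)) * v2 * (0.000625 * A * N * (v1 * v3) / P0 ^ 2) ≤
      0.019 * (X0 * b / (B * P0)) * v2 * SF' := mul_le_mul_of_nonneg_left hSF (by positivity)
  refine le_trans ?_ e4
  rw [e3]
  have hv80 : 0 ≤ v8 := prod_nonneg fun p hp => by positivity
  have hlog0 : 0 ≤ Real.log W := Real.log_nonneg hW
  calc 1 / 2000000 * κ * Real.log W / (P0 : ℝ) ^ 3 * v8
      ≤ 1 / 2000000 * κ * (12 * N) / (P0 : ℝ) ^ 3 * (v1 * v2 * v3) := by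
        gcongr
    _ = 0.000006 * κ * N * (v1 * v2 * v3) / P0 ^ 3 := by ring
    _ ≤ 0.000011875 * κ * N * (v1 * v2 * v3) / P0 ^ 3 := by
        gcongr
        norm_num

end Pool.Agent.MR2
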