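import Mathlib

/-! # TANK MR2, row LQ: statement.  `|L(1+a+iτ, χ)| ≤ C_χ (log(2+|τ|))^{4/5}`.  helper33 -/

set_option autoImplicit false

namespace Pool.Agent.MR2

/-- ROW LQ: upper bound for Dirichlet `L`-functions near the line `1`. -/
def LQ : Prop := ∀ (q : ℕ) [NeZero q] (χ : DirichletCharacter ℂ q), ∃ C : ℝ, 0 < C ∧
  ∀ a τ : ℝ, 0 < a → a ≤ 1 → 1 / 2 ≤ |τ| →
  ‖DirichletCharacter.LFunction χ (1 + a + τ * Complex.I)‖ ≤
    C * (Real.log (2 + |τ|)) ^ (4 / 5 : ℝ)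

end Pool.Agent.MR2
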