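import Pool.Agent.Lib.MR2.HQ
import Pool.Agent.Lib.MR2.LQDefs

/-!
# TANK MR2, row FQ' (helper33): an absolute exponent for all characters

`flQ_lamChiU : LQ → FlQf (lamChi χ) (1/20)`, `halQ_lamChiU : LQ → HalQ (lamChi χ) (1/80)`,
`halC_lamChiU`: one constant for all characters modulo `q`.
-/

set_option autoImplicit false

namespace Pool.Agent.MR2

open Finset Complex Pool.Agent.MRL Pool.Agent.MRF Pool.Agent.MRHal

/-- the pole of the trivial `L`-function. -/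
theorem triv_pole (q : ℕ) [NeZero q] : ∃ C : ℝ, 0 < C ∧ ∀ a : ℝ, 0 < a → a ≤ 1 →
    ‖DirichletCharacter.LFunctionTrivChar q (1 + a)‖ ≤ C / a := by
  obtain ⟨C1, hC1, hpole⟩ := FL.zeta_pole
  refine ⟨2 ^ q.primeFactors.card * C1, by positivity, fun a ha ha1 => ?_⟩
  have hne : (1 : ℂ) + a ≠ 1 := by
    intro h
    have : (a : ℂ) = 0 := by simpa using h
    rw [Complex.ofReal_eq_zero] at this
    linarith
  rw [DirichletCharacter.LFunctionTrivChar_eq_mul_riemannZeta hne, norm_mul, norm_prod]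
  have h1 : ∏ p ∈ q.primeFactors, ‖1 - (p : ℂ) ^ (-((1 : ℂ) + a))‖ ≤ 2 ^ q.primeFactors.card := by
    rw [← prod_const]
    refine prod_le_prod (fun p _ => norm_nonneg _) fun p hp => ?_
    have hpp : p.Prime := Nat.prime_of_mem_primeFactors hp
    refine (norm_sub_le _ _).trans ?_
    rw [norm_one, Complex.norm_natCast_cpow_of_pos hpp.pos]
    have h2 : (p : ℝ) ^ (-((1 : ℂ) + a)).re ≤ 1 := by
      apply Real.rpow_le_one_of_one_le_of_nonpos (by exact_mod_cast hpp.one_lt.le)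
      simp
      linarith
    linarith
  calc _ ≤ 2 ^ q.primeFactors.card * (C1 / a) :=
        mul_le_mul h1 (hpole a ha ha1) (norm_nonneg _) (by positivity)
    _ = 2 ^ q.primeFactors.card * C1 / a := by ring

/-- 3-4-1 in quotient form. -/
theorem inv_L_le {q : ℕ} [NeZero q] (χ : DirichletCharacter ℂ q) {a P Z : ℝ} (ha : 0 < a) (τ : ℝ)
    (hP : ‖DirichletCharacter.LFunctionTrivChar q (1 + a)‖ ≤ P)
    (hZ : ‖DirichletCharacter.LFunction (χ ^ 2) (1 + a + ((2 * τ : ℝ) : ℂ) * I)‖ ≤ Z) :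
    1 ≤ P ^ (3 / 4 : ℝ) * ‖DirichletCharacter.LFunction χ (1 + a + τ * I)‖ *
      Z ^ (1 / 4 : ℝ) := by
  have h := DirichletCharacter.norm_LFunction_product_ge_one χ ha τ
  rw [norm_mul, norm_mul, norm_pow, norm_pow] at h
  have e1 : (1 : ℂ) + a + I * τ = 1 + a + τ * I := by ring
  have e2 : (1 : ℂ) + a + 2 * I * τ = 1 + a + ((2 * τ : ℝ) : ℂ) * I := by push_cast; ring
  rw [e1, e2] at h
  have hP0 : 0 ≤ P := (norm_nonneg _).trans hP
  have hZ0 : 0 ≤ Z := (norm_nonneg _).trans hZ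
  set z := ‖DirichletCharacter.LFunction χ (1 + a + τ * I)‖ with hz
  have hz0 : 0 ≤ z := norm_nonneg _
  have h1 : 1 ≤ P ^ 3 * z ^ 4 * Z := by
    refine le_trans h ?_
    gcongr
  have h2 : (1 : ℝ) ≤ (P ^ 3 * z ^ 4 * Z) ^ (1 / 4 : ℝ) := Real.one_le_rpow h1 (by norm_num)
  rw [Real.mul_rpow (by positivity) hZ0, Real.mul_rpow (by positivity) (by positivity)] at h2
  have e1 : (P ^ 3) ^ (1 / 4 : ℝ) = P ^ (3 / 4 : ℝ) := by
    rw [← Real.rpow_natCast, ← Real.rpow_mul hP0]; norm_num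
  have e2 : (z ^ 4) ^ (1 / 4 : ℝ) = z := by
    rw [← Real.rpow_natCast, ← Real.rpow_mul hz0]; norm_num
  rw [e1, e2] at h2
  exact h2

/-- the bound for the Dirichlet series of `λ χ`, exponent `1/20` for every character. -/
theorem flQ_lamChiU (hL : LQ) {q : ℕ} [NeZero q] (χ : DirichletCharacter ℂ q) :
    FlQf (lamChi χ) (1 / 20) := by
  obtain ⟨C, hC0, hZ⟩ := hL q (χ ^ 2)
  obtain ⟨C3, hC3, hsm⟩ := FLFa.norm_FlF_lamChi_near χ
  obtain ⟨C1, hC1, hpole⟩ := triv_pole q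
  set E : ℝ := Real.exp (2 * FLFa.c2) with hE
  have hE0 : 0 < E := Real.exp_pos _
  set D : ℝ := (C * 6 ^ (4 / 5 : ℝ)) ^ (1 / 4 : ℝ) with hD
  have hD0 : 0 < D := by positivity
  set G : ℝ := E * (C1 ^ (3 / 4 : ℝ) * D) with hG
  have hG0 : 0 < G := by positivity
  refine ⟨G + C3, by positivity, fun x hx τ hτx => ?_⟩
  have hx0 : 0 < x := by linarith
  have hl1 : 1 ≤ Real.log x := by
    rw [Real.le_log_iff_exp_le hx0]
    have := Real.exp_one_lt_d9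
    linarith
  set l : ℝ := Real.log x with hl
  have hl0 : 0 < l := by linarith
  have ha0 : 0 < 1 / l := by positivity
  have ha1 : 1 / l ≤ 1 := by
    rw [div_le_one hl0]
    exact hl1
  have hll : (1 : ℝ) ≤ l ^ (1 - 1 / 20 : ℝ) := Real.one_le_rpow hl1 (by norm_num)
  by_cases hτ : |τ| ≤ 1
  · calc ‖FlF (lamChi χ) (1 / l) τ‖ ≤ C3 := hsm (1 / l) τ ha0 ha1 hτ
      _ = C3 * 1 := (mul_one _).symm
      _ ≤ (G + C3) * l ^ (1 - 1 / 20 : ℝ) := by
        gcongr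
        linarith
  · push Not at hτ
    have h2τ : 1 / 2 ≤ |2 * τ| := by
      rw [abs_mul, abs_two]
      linarith
    have h4 := hZ (1 / l) (2 * τ) ha0 ha1 h2τ
    have h5 : Real.log (2 + |2 * τ|) ≤ 6 * l := by
      have h6 : 2 + |2 * τ| ≤ x ^ 6 := by
        rw [abs_mul, abs_two]
        have h7 : (1 : ℝ) ≤ x ^ 4 := one_le_pow₀ (by linarith)
        have h8 : x ^ 4 * 9 ≤ x ^ 6 := by
          have h9 : (9 : ℝ) ≤ x ^ 2 := by nlinarith
          calc x ^ 4 * 9 ≤ x ^ 4 * x ^ 2 := by gcongr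
            _ = x ^ 6 := by ring
        linarith
      have h7 := Real.log_le_log (by positivity) h6
      rw [Real.log_pow, ← hl] at h7
      push_cast at h7
      exact h7
    have h5' : 0 ≤ Real.log (2 + |2 * τ|) := Real.log_nonneg (by linarith [abs_nonneg (2 * τ)])
    have h6 : C * (Real.log (2 + |2 * τ|)) ^ (4 / 5 : ℝ) ≤ C * 6 ^ (4 / 5 : ℝ) * l ^ (4 / 5 : ℝ) := by
      have h7 := Real.rpow_le_rpow h5' h5 (z := 4 / 5) (by norm_num)
      rw [Real.mul_rpow (by norm_num) hl0.le] at h7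
      calc C * (Real.log (2 + |2 * τ|)) ^ (4 / 5 : ℝ) ≤ C * (6 ^ (4 / 5 : ℝ) * l ^ (4 / 5 : ℝ)) := by
            gcongr
        _ = _ := by ring
    have h7 := inv_L_le χ ha0 τ (hpole (1 / l) ha0 ha1) (h4.trans h6)
    have e1 : (C1 / (1 / l)) ^ (3 / 4 : ℝ) = C1 ^ (3 / 4 : ℝ) * l ^ (3 / 4 : ℝ) := by
      rw [show C1 / (1 / l) = C1 * l by field_simp, Real.mul_rpow hC1.le hl0.le]
    have e2 : (C * 6 ^ (4 / 5 : ℝ) * l ^ (4 / 5 : ℝ)) ^ (1 / 4 : ℝ) = D * l ^ (1 / 5 : ℝ) := by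
      rw [Real.mul_rpow (by positivity) (by positivity), ← Real.rpow_mul hl0.le, ← hD]
      norm_num
    rw [e1, e2] at h7
    -- `‖F‖ ‖L‖ ≤ E`
    have hs : 1 < ((1 : ℂ) + ((1 / l : ℝ) : ℂ) + τ * I).re := by
      simp
      exact hl0
    have h8 := FLFa.norm_mul_le (FLFa.cm_lamChi χ) (FLFa.cm_chi χ) (FLFa.lamChi_prime χ) hs
    have h9 := DirichletCharacter.LFunction_eq_LSeries χ hs
    rw [← FLFa.FlF_eq, ← hE] at h8
    rw [h9] at h7
    set F : ℝ := ‖FlF (lamChi χ) (1 / l) τ‖ with hF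
    have hF0 : 0 ≤ F := norm_nonneg _
    set Z : ℝ := ‖LSeries (fun n : ℕ => χ n) ((1 : ℂ) + ((1 / l : ℝ) : ℂ) + τ * I)‖ with hZd
    have hZ0 : 0 ≤ Z := norm_nonneg _
    calc F = F * 1 := (mul_one _).symm
      _ ≤ F * (C1 ^ (3 / 4 : ℝ) * l ^ (3 / 4 : ℝ) * Z * (D * l ^ (1 / 5 : ℝ))) := by gcongr
      _ = (F * Z) * (C1 ^ (3 / 4 : ℝ) * D * (l ^ (3 / 4 : ℝ) * l ^ (1 / 5 : ℝ))) := by ring
      _ ≤ E * (C1 ^ (3 / 4 : ℝ) * D * (l ^ (3 / 4 : ℝ) * l ^ (1 / 5 : ℝ))) := by gcongr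
      _ = G * l ^ (1 - 1 / 20 : ℝ) := by
        rw [← Real.rpow_add hl0, hG]
        norm_num
        ring
      _ ≤ (G + C3) * l ^ (1 - 1 / 20 : ℝ) := by
        gcongr
        linarith

/-- ROW FQ': Halász for `λ χ` with the absolute exponent `1/80`. -/
theorem halQ_lamChiU (hL : LQ) {q : ℕ} [NeZero q] (χ : DirichletCharacter ℂ q) :
    HalQ (lamChi χ) (1 / 80) := by
  have h := halQ_of (cm_lamChi χ) (flQ_lamChiU hL χ)
  have e : min (1 / 20 : ℝ) (1 / 2) / 4 = 1 / 80 := by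
    rw [min_eq_left (by norm_num)]
    norm_num
  rwa [e] at h

/-- one constant for all characters modulo `q`. -/
theorem halC_lamChiU (hL : LQ) (q : ℕ) [NeZero q] : ∃ C : ℝ, 0 < C ∧
    ∀ χ : DirichletCharacter ℂ q, HalC (lamChi χ) (1 / 80) C := by
  classical
  choose C hC h using fun χ : DirichletCharacter ℂ q => halQ_lamChiU hL χ
  have : Fintype (DirichletCharacter ℂ q) := Fintype.ofFinite _
  refine ⟨∑ χ, C χ, sum_pos (fun χ _ => hC χ) ⟨1, mem_univ _⟩, fun χ => ?_⟩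
  exact HalC.mono (h χ) le_rfl (hC χ).le
    (single_le_sum (f := C) (fun χ _ => (hC χ).le) (mem_univ χ))

end Pool.Agent.MR2
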