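import Pool.Agent.Lib.MR2.Defs
import Pool.Agent.Lib.MRL.ML

/-! # TANK MR2, row FR: integers free of the primes of `P` (`freeCount : FreeCount`). helper9. -/

set_option autoImplicit false

namespace Pool.Agent.MR2

open Finset
open scoped ArithmeticFunction.vonMangoldt

namespace FR

/-- sums of reciprocals over integers composed of given primes -/
lemma sum_fact_le (P : Finset ℕ) (B : Finset ℕ) (hB : ∀ b ∈ B, b ∈ Nat.factoredNumbers P) :
    ∑ b ∈ B, (b : ℝ)⁻¹ ≤ ∏ p ∈ P.filter Nat.Prime, (1 - (p : ℝ)⁻¹)⁻¹ := by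
  classical
  let f : ℕ →* ℝ := { toFun := fun n => (n : ℝ)⁻¹, map_one' := by simp, map_mul' := fun m n => by push_cast; rw [mul_inv] }
  have hf : ∀ {p : ℕ}, p.Prime → ‖f p‖ < 1 := by
    intro p hp
    have h1 : (1 : ℝ) < p := by exact_mod_cast hp.one_lt
    change ‖(p : ℝ)⁻¹‖ < 1
    rw [norm_inv, Real.norm_eq_abs, abs_of_pos (by linarith)]
    exact inv_lt_one_of_one_lt₀ h1
  obtain ⟨h1, h2⟩ := EulerProduct.summable_and_hasSum_factoredNumbers_prod_filter_prime_geometric hf P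
  let g : B → Nat.factoredNumbers P := fun n => ⟨n.1, hB n.1 n.2⟩
  have hg : Function.Injective g := by
    intro a b hab
    have := congrArg (fun x : Nat.factoredNumbers P => (x : ℕ)) hab
    exact Subtype.ext this
  have h6 := sum_le_hasSum (f := fun m : Nat.factoredNumbers P => f m)
    (Finset.univ.map ⟨g, hg⟩) (fun m _ => by
      change 0 ≤ ((m : ℕ) : ℝ)⁻¹
      positivity) h2
  rw [Finset.sum_map] at h6
  calc ∑ n ∈ B, (n : ℝ)⁻¹ = ∑ n : B, f (g n) := by
        rw [← Finset.sum_coe_sort B (fun n => (n : ℝ)⁻¹)]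
        rfl
    _ ≤ _ := h6

/-- `∏ (1-1/p)⁻¹ ≤ exp (Σ 1/p + 4)` -/
lemma prod_le (Q : Finset ℕ) (hQ : ∀ p ∈ Q, p.Prime) :
    ∏ p ∈ Q, (1 - (p : ℝ)⁻¹)⁻¹ ≤ Real.exp (∑ p ∈ Q, 1 / (p : ℝ) + 4) := by
  have h1 : ∀ p ∈ Q, (1 - (p : ℝ)⁻¹)⁻¹ ≤ Real.exp (1 / (p : ℝ) + 2 / (p : ℝ) ^ 2) := by
    intro p hp
    have hp2 : (2 : ℝ) ≤ p := by exact_mod_cast (hQ p hp).two_le
    have hp0 : (0 : ℝ) < p := by linarith
    have h2 : (1 - (p : ℝ)⁻¹)⁻¹ = 1 + 1 / ((p : ℝ) - 1) := by
      have h3 : (p : ℝ) - 1 ≠ 0 := by linarith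
      field_simp
      ring
    rw [h2]
    have h3 := Real.add_one_le_exp (1 / (p : ℝ) + 2 / (p : ℝ) ^ 2)
    refine le_trans ?_ h3
    have h4 : 1 / ((p : ℝ) - 1) ≤ 1 / (p : ℝ) + 2 / (p : ℝ) ^ 2 := by
      have h5 : (0 : ℝ) < p - 1 := by linarith
      rw [div_add_div _ _ hp0.ne' (by positivity), div_le_div_iff₀ h5 (by positivity)]
      nlinarith [mul_pos hp0 hp0]
    linarith
  have h2 : ∑ p ∈ Q, 2 / (p : ℝ) ^ 2 ≤ 4 := by
    have h3 := Pool.Agent.Lib.MP_663568_nt.Katai.sum_inv_sq_primes Q hQ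
    have h4 : ∑ p ∈ Q, 2 / (p : ℝ) ^ 2 = 2 * ∑ p ∈ Q, (1 : ℝ) / (p : ℝ) ^ 2 := by
      rw [mul_sum]
      refine sum_congr rfl fun p _ => ?_
      ring
    rw [h4]; linarith
  calc ∏ p ∈ Q, (1 - (p : ℝ)⁻¹)⁻¹ ≤ ∏ p ∈ Q, Real.exp (1 / (p : ℝ) + 2 / (p : ℝ) ^ 2) := by
        refine prod_le_prod (fun p hp => ?_) h1
        have hp2 : (2 : ℝ) ≤ p := by exact_mod_cast (hQ p hp).two_le
        rw [inv_nonneg, sub_nonneg]
        exact inv_le_one_of_one_le₀ (by linarith)
    _ = Real.exp (∑ p ∈ Q, (1 / (p : ℝ) + 2 / (p : ℝ) ^ 2)) := (Real.exp_sum _ _).symm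
    _ ≤ _ := by
        rw [Real.exp_le_exp, sum_add_distrib]
        linarith

end FR

/-- **Row FR.** -/
theorem freeCount : FreeCount := by
  classical
  refine ⟨(Real.log 4 + 4 + 1) * Real.exp 24, by
    have : 0 < Real.log 4 := Real.log_pos (by norm_num)
    positivity, fun x hx P hP => ?_⟩
  set N := ⌊x⌋₊ with hN
  have hx0 : 0 ≤ x := by linarith
  have hNx : (N : ℝ) ≤ x := Nat.floor_le hx0
  have hN2 : 2 ≤ N := Nat.le_floor (by exact_mod_cast hx)
  have hN2' : (2 : ℝ) ≤ N := by exact_mod_cast hN2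
  set F := (Icc 1 N).filter fun n => ∀ p ∈ P, ¬ p ∣ n with hF
  set S := ∑ p ∈ P, 1 / (p : ℝ) with hS
  set R := ∑ m ∈ F, (m : ℝ)⁻¹ with hR
  have hR0 : 0 ≤ R := sum_nonneg fun m _ => by positivity
  have hmF : ∀ n ∈ F, 1 ≤ n ∧ n ≤ N := fun n hn => mem_Icc.1 (mem_filter.1 hn).1
  -- step A
  have hA : ∑ n ∈ F, Real.log n ≤ (Real.log 4 + 4) * (x * R) := by
    have e1 : ∀ n ∈ F, Real.log n ≤
        ∑ m ∈ F, ∑ d ∈ Icc 1 N, if d * m = n then Λ d else 0 := by
      intro n hn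
      obtain ⟨hn1, hn2⟩ := hmF n hn
      rw [← ArithmeticFunction.vonMangoldt_sum, sum_comm]
      have h1 : n.divisors ⊆ Icc 1 N := by
        intro d hd
        rw [mem_Icc]
        exact ⟨Nat.pos_of_mem_divisors hd, (Nat.divisor_le hd).trans hn2⟩
      refine le_trans ?_ (sum_le_sum_of_subset_of_nonneg h1 fun d _ _ =>
        sum_nonneg fun m _ => by split_ifs <;> simp [ArithmeticFunction.vonMangoldt_nonneg])
      refine sum_le_sum fun d hd => ?_
      obtain ⟨m, hm⟩ := Nat.dvd_of_mem_divisors hd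
      have hmF' : m ∈ F := by
        rw [hF, mem_filter, mem_Icc]
        have hm0 : m ≠ 0 := by
          rintro rfl
          omega
        refine ⟨⟨Nat.pos_of_ne_zero hm0, ?_⟩, fun p hp hpm => (mem_filter.1 hn).2 p hp ?_⟩
        · exact (Nat.le_of_dvd (by omega) ⟨d, by rw [hm]; ring⟩).trans hn2
        · rw [hm]; exact hpm.mul_left d
      refine le_trans ?_ (single_le_sum (f := fun m => if d * m = n then Λ d else 0)
        (fun m _ => by split_ifs <;> simp [ArithmeticFunction.vonMangoldt_nonneg]) hmF')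
      simp [hm]
    refine (sum_le_sum e1).trans ?_
    rw [sum_comm, ← mul_assoc, hR, mul_sum]
    refine sum_le_sum fun m hm => ?_
    obtain ⟨hm1, hm2⟩ := hmF m hm
    have hm0 : (0 : ℝ) < m := by exact_mod_cast hm1
    rw [sum_comm]
    have e2 : ∀ d ∈ Icc 1 N, (∑ n ∈ F, if d * m = n then Λ d else 0) ≤
        if d * m ≤ N then Λ d else 0 := by
      intro d _
      rw [sum_ite_eq]
      by_cases h1 : d * m ∈ F
      · rw [if_pos h1, if_pos (hmF _ h1).2]
      · rw [if_neg h1]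
        split_ifs
        · exact ArithmeticFunction.vonMangoldt_nonneg
        · exact le_rfl
    refine (sum_le_sum e2).trans ?_
    rw [← sum_filter]
    have h2 : (Icc 1 N).filter (fun d => d * m ≤ N) ⊆ Ioc 0 ⌊x / m⌋₊ := by
      intro d hd
      rw [mem_filter, mem_Icc] at hd
      rw [mem_Ioc]
      refine ⟨by omega, Nat.le_floor ?_⟩
      rw [le_div_iff₀ hm0]
      refine le_trans ?_ hNx
      exact_mod_cast hd.2
    refine (sum_le_sum_of_subset_of_nonneg h2 fun d _ _ =>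
      ArithmeticFunction.vonMangoldt_nonneg).trans ?_
    have h3 := Chebyshev.psi_le_const_mul_self (x := x / m) (by positivity)
    unfold Chebyshev.psi at h3
    refine h3.trans (le_of_eq ?_)
    ring
  -- step B
  have hB : ∑ n ∈ F, (Real.log x - Real.log n) ≤ x * R := by
    rw [hR, mul_sum]
    refine sum_le_sum fun n hn => ?_
    have hn0 : (0 : ℝ) < n := by exact_mod_cast (hmF n hn).1
    rw [← Real.log_div (by linarith) hn0.ne']
    have h1 := Real.log_le_sub_one_of_pos (x := x / n) (by positivity)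
    rw [← div_eq_mul_inv]
    linarith
  have hlogx : 0 < Real.log x := Real.log_pos (by linarith)
  have hAB : (F.card : ℝ) * Real.log x ≤ (Real.log 4 + 4 + 1) * (x * R) := by
    rw [sum_sub_distrib, sum_const, nsmul_eq_mul] at hB
    linarith
  -- step C
  have hC : R ≤ Real.exp 24 * Real.log x * Real.exp (-S) := by
    set Q := ((Ioc 0 N).filter Nat.Prime) \ P with hQ
    have hQp : ∀ p ∈ Q, p.Prime := fun p hp => (mem_filter.1 (mem_sdiff.1 hp).1).2
    have h1 : R ≤ ∏ p ∈ Q.filter Nat.Prime, (1 - (p : ℝ)⁻¹)⁻¹ := by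
      apply FR.sum_fact_le
      intro b hb
      obtain ⟨hb1, hb2⟩ := hmF b hb
      rw [Nat.mem_factoredNumbers]
      refine ⟨by omega, fun p hp => ?_⟩
      have hpp := Nat.prime_of_mem_primeFactorsList hp
      have hpb := Nat.dvd_of_mem_primeFactorsList hp
      rw [hQ, mem_sdiff, mem_filter, mem_Ioc]
      exact ⟨⟨⟨hpp.pos, (Nat.le_of_dvd (by omega) hpb).trans hb2⟩, hpp⟩,
        fun h => (mem_filter.1 hb).2 p h hpb⟩
    rw [filter_true_of_mem hQp] at h1
    have h2 := h1.trans (FR.prod_le Q hQp)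
    have hPsub : P ⊆ (Ioc 0 N).filter Nat.Prime := by
      intro p hp
      rw [mem_filter, mem_Ioc]
      exact ⟨⟨(hP p hp).1.pos, Nat.le_floor (hP p hp).2⟩, (hP p hp).1⟩
    have h3 : ∑ p ∈ Q, 1 / (p : ℝ) + S = Pool.Agent.MRL.Mer.P N := by
      rw [hQ, hS]
      exact sum_sdiff hPsub
    have h4 := Pool.Agent.MRL.Mer.P_upper hN2
    have hlogN : 0 < Real.log N := Real.log_pos (by linarith)
    calc R ≤ Real.exp (∑ p ∈ Q, 1 / (p : ℝ) + 4) := h2
      _ ≤ Real.exp (24 + Real.log (Real.log N) + -S) := by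
          rw [Real.exp_le_exp]; linarith
      _ = Real.exp 24 * Real.log N * Real.exp (-S) := by
          rw [Real.exp_add, Real.exp_add, Real.exp_log hlogN]
      _ ≤ Real.exp 24 * Real.log x * Real.exp (-S) := by
          gcongr
  have hlog4 : 0 < Real.log 4 := Real.log_pos (by norm_num)
  have h5 : (F.card : ℝ) * Real.log x ≤
      ((Real.log 4 + 4 + 1) * Real.exp 24 * x * Real.exp (-S)) * Real.log x := by
    calc (F.card : ℝ) * Real.log x ≤ (Real.log 4 + 4 + 1) * (x * R) := hAB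
      _ ≤ (Real.log 4 + 4 + 1) * (x * (Real.exp 24 * Real.log x * Real.exp (-S))) := by
          gcongr
      _ = _ := by ring
  exact le_of_mul_le_mul_right h5 hlogx

end Pool.Agent.MR2
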