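import Pool.Agent.Lib.MR2.StatM

/-! # TANK MR2, stage 2, row FP (helper11): configurations whose `d` has a large prime factor.

Only the trivial class count is needed: for fixed `s, D` the interval of `L` has length
`ℓ = κ B / (10 D) ≥ b²` and `d < 6 b ℓ`. -/

set_option autoImplicit false

namespace Pool.Agent.MR2

open Finset

noncomputable section

namespace FP

/-- elements of one class in an interval. -/
theorem card_class (T : Finset ℕ) (lo hi : ℝ) (m : ℕ) (hm : 0 < m) (hlh : lo ≤ hi)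
    (h1 : ∀ n ∈ T, lo < n ∧ (n : ℝ) < hi) (h2 : ∀ a ∈ T, ∀ c ∈ T, a ≤ c → m ∣ c - a) :
    (T.card : ℝ) ≤ (hi - lo) / m + 1 := by
  have hmr : (0 : ℝ) < m := by exact_mod_cast hm
  have h0 : 0 ≤ (hi - lo) / m := div_nonneg (by linarith) hmr.le
  rcases T.eq_empty_or_nonempty with h | h
  · subst h
    simp only [card_empty, Nat.cast_zero]
    linarith
  · have ha : T.min' h ∈ T := T.min'_mem h
    have hle : ∀ n ∈ T, T.min' h ≤ n := fun n hn => T.min'_le n hn
    have key : T.card ≤ (range (⌊(hi - lo) / m⌋₊ + 1)).card := by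
      apply Finset.card_le_card_of_injOn (fun n => (n - T.min' h) / m)
      · intro n hn
        have hn' : n ∈ T := hn
        obtain ⟨k, hk⟩ := h2 _ ha n hn' (hle n hn')
        have e1 : (n - T.min' h) / m = k := by rw [hk]; exact Nat.mul_div_cancel_left k hm
        have e2 : (n : ℝ) - (T.min' h : ℕ) = m * k := by
          have := hle n hn'
          have h3 : ((n - T.min' h : ℕ) : ℝ) = (n : ℝ) - (T.min' h : ℕ) := by
            rw [Nat.cast_sub this]
          rw [← h3, hk]; push_cast; ring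
        have e3 : (k : ℝ) ≤ (hi - lo) / m := by
          rw [le_div_iff₀ hmr]
          have := (h1 n hn').2
          have := (h1 _ ha).1
          nlinarith
        have : k < ⌊(hi - lo) / m⌋₊ + 1 := Nat.lt_succ_of_le (Nat.le_floor e3)
        simpa [e1] using this
      · intro n hn n' hn' hh
        have hn1 : n ∈ T := hn
        have hn2 : n' ∈ T := hn'
        obtain ⟨k, hk⟩ := h2 _ ha n hn1 (hle n hn1)
        obtain ⟨k', hk'⟩ := h2 _ ha n' hn2 (hle n' hn2)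
        have e1 : (n - T.min' h) / m = k := by rw [hk]; exact Nat.mul_div_cancel_left k hm
        have e2 : (n' - T.min' h) / m = k' := by rw [hk']; exact Nat.mul_div_cancel_left k' hm
        have e3 : k = k' := by
          have : (n - T.min' h) / m = (n' - T.min' h) / m := hh
          rw [e1, e2] at this; exact this
        have a1 := hle n hn1
        have a2 := hle n' hn2
        rw [e3] at hk
        omega
    rw [card_range] at key
    have k2 : (T.card : ℝ) ≤ ((⌊(hi - lo) / m⌋₊ + 1 : ℕ) : ℝ) := by exact_mod_cast key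
    have k3 := Nat.floor_le h0
    push_cast at k2
    linarith

theorem harm (N : ℕ) : ∑ r ∈ Icc 1 N, 1 / (r : ℝ) ≤ 1 + Real.log N := by
  have h := harmonic_le_one_add_log N
  rw [harmonic_eq_sum_Icc] at h
  push_cast at h
  simpa [one_div] using h

theorem harm_sqrt (k N : ℕ) (hN : 1 ≤ N) : ∑ r ∈ Ioo k N, 1 / (r : ℝ) ≤ 2 * √N := by
  have h1 : ∑ r ∈ Ioo k N, 1 / (r : ℝ) ≤ ∑ r ∈ Icc 1 N, 1 / (r : ℝ) := by
    apply Finset.sum_le_sum_of_subset_of_nonneg
    · intro r hr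
      rw [mem_Ioo] at hr
      rw [mem_Icc]
      omega
    · intros; positivity
  have hN' : (1 : ℝ) ≤ N := by exact_mod_cast hN
  have h2 := harm N
  have h3 : Real.log N ≤ 2 * (√N - 1) := by
    have e : (N : ℝ) = √N * √N := (Real.mul_self_sqrt (by positivity)).symm
    have hs : 0 < √(N : ℝ) := Real.sqrt_pos.mpr (by linarith)
    have : Real.log N = 2 * Real.log √N := by
      conv_lhs => rw [e, Real.log_mul hs.ne' hs.ne']
      ring
    rw [this]
    have := Real.log_le_sub_one_of_pos hs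
    linarith
  linarith

theorem inv_sq (z : ℝ) (h : 0 < z) (N : ℕ) :
    ∑ r ∈ Ioo ⌊z⌋₊ N, 1 / (r : ℝ) ^ 2 ≤ 2 / z := by
  have h1 := sum_Ioo_inv_sq_le (α := ℝ) ⌊z⌋₊ N
  have h2 : z < ⌊z⌋₊ + 1 := Nat.lt_floor_add_one z
  have h3 : (2 : ℝ) / (⌊z⌋₊ + 1) ≤ 2 / z := by
    apply div_le_div_of_nonneg_left (by norm_num) h h2.le
  simp only [one_div]
  linarith

theorem count_dvd (b B s m : ℕ) (T : Finset ℕ) (lo hi : ℝ) (hbm : b.Coprime m) (hm : 0 < m)
    (hlh : lo ≤ hi) (hlt : ∀ L ∈ T, B * s < b * L ∧ lo < L ∧ (L : ℝ) < hi) :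
    ((T.filter (fun L => m ∣ b * L - B * s)).card : ℝ) ≤ (hi - lo) / m + 1 := by
  apply card_class _ lo hi m hm hlh
  · intro n hn
    exact (hlt n (mem_filter.mp hn).1).2
  · intro a ha c hc hac
    have ha' := mem_filter.mp ha
    have hc' := mem_filter.mp hc
    have h1 := (hlt a ha'.1).1
    have h2 := (hlt c hc'.1).1
    have e : b * (c - a) = (b * c - B * s) - (b * a - B * s) := by
      rw [Nat.mul_sub]
      have : b * a ≤ b * c := Nat.mul_le_mul_left b hac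
      omega
    have h3 : m ∣ b * (c - a) := by
      rw [e]
      exact Nat.dvd_sub hc'.2 ha'.2
    exact Nat.Coprime.dvd_of_dvd_mul_left hbm.symm h3

theorem swap (T K : Finset ℕ) (P : ℕ → ℕ → Prop) [∀ a b, Decidable (P a b)] (w c : ℕ → ℝ) (hw : ∀ r ∈ K, 0 ≤ w r)
    (S : ℕ → Finset ℕ) (hS : ∀ L ∈ T, S L ⊆ K.filter (P L))
    (hc : ∀ r ∈ K, ((T.filter (fun L => P L r)).card : ℝ) ≤ c r) :
    ∑ L ∈ T, ∑ r ∈ S L, w r ≤ ∑ r ∈ K, w r * c r := by
  calc ∑ L ∈ T, ∑ r ∈ S L, w r ≤ ∑ L ∈ T, ∑ r ∈ K.filter (P L), w r := by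
        apply sum_le_sum
        intro L hL
        apply sum_le_sum_of_subset_of_nonneg (hS L hL)
        intro r hr _
        exact hw r (mem_filter.mp hr).1
    _ = ∑ r ∈ K, ∑ L ∈ T, (if P L r then w r else 0) := by
        rw [sum_comm]
        apply sum_congr rfl
        intro L _
        rw [sum_filter]
    _ = ∑ r ∈ K, w r * ((T.filter (fun L => P L r)).card : ℝ) := by
        apply sum_congr rfl
        intro r _
        rw [← sum_filter, sum_const, nsmul_eq_mul]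
        ring
    _ ≤ _ := by
        apply sum_le_sum
        intro r hr
        exact mul_le_mul_of_nonneg_left (hc r hr) (hw r hr)

/-- the weight of one configuration. -/
def FF (z : ℝ) (d : ℕ) : ℝ :=
  ∑ r ∈ d.primeFactors.filter (fun r : ℕ => z < r), 1 / (r : ℝ) +
    ((d.primeFactors.filter (fun r : ℕ => z < r ∧ r ^ 2 ∣ d)).card : ℝ)

theorem FF_nonneg (z : ℝ) (d : ℕ) : 0 ≤ FF z d := by
  unfold FF
  positivity

theorem stepA (b B s D : ℕ) (κ f z ℓ : ℝ) (T : Finset ℕ) (hb : b.Prime) (hB : B.Prime)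
    (hbB : b ≠ B) (hs0 : 0 < s) (hsb : s < b) (hD : 0 < D) (hκ : 0 < κ)
    (hℓ : ℓ = 0.1 * κ * B / D) (hℓb : (b : ℝ) ^ 2 ≤ ℓ) (hz : 1 ≤ z) (hzb : z ^ 2 ≤ b)
    (hT : ∀ L ∈ T, B * s < b * L ∧ f + 0.3 * κ < (s : ℝ) * D / b ∧ (s : ℝ) * D / b < f + 0.4 * κ ∧
      f + 0.8 * κ < (L : ℝ) * D / B ∧ (L : ℝ) * D / B < f + 0.9 * κ) :
    ∑ L ∈ T, 1 / ((b * L - B * s : ℕ) : ℝ) * FF z (b * L - B * s) ≤ 4 / (b * z) := by
  have hb0 : (0 : ℝ) < b := by exact_mod_cast hb.pos
  have hB0 : (0 : ℝ) < B := by exact_mod_cast hB.pos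
  have hD0 : (0 : ℝ) < D := by exact_mod_cast hD
  have hz0 : 0 < z := by linarith
  have hb2 : (2 : ℝ) ≤ b := by exact_mod_cast hb.two_le
  have hℓ1 : 1 ≤ ℓ := by nlinarith
  have hℓ0 : 0 < ℓ := by linarith
  have hbℓ1 : 1 ≤ b * ℓ := by nlinarith
  -- the size of `d`
  have hcast : ∀ L ∈ T, ((b * L - B * s : ℕ) : ℝ) = b * L - B * s := by
    intro L hL
    rw [Nat.cast_sub (hT L hL).1.le]
    push_cast; ring
  have hDℓ : D * ℓ = 0.1 * κ * B := by
    rw [hℓ]; field_simp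
  have hlow : ∀ L ∈ T, 4 * (b * ℓ) ≤ ((b * L - B * s : ℕ) : ℝ) := by
    intro L hL
    rw [hcast L hL]
    obtain ⟨_, h1, h2, h3, h4⟩ := hT L hL
    rw [lt_div_iff₀ hb0] at h1
    rw [div_lt_iff₀ hb0] at h2
    rw [lt_div_iff₀ hB0] at h3
    rw [div_lt_iff₀ hB0] at h4
    have e1 : (f + 0.8 * κ) * B * b < L * D * b := mul_lt_mul_of_pos_right h3 hb0
    have e2 : (s : ℝ) * D * B < (f + 0.4 * κ) * b * B := mul_lt_mul_of_pos_right h2 hB0
    have e3 : D * (4 * (b * ℓ)) ≤ D * (b * L - B * s) := by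
      have : D * (4 * (b * ℓ)) = 4 * b * (D * ℓ) := by ring
      rw [this, hDℓ]
      nlinarith
    exact le_of_mul_le_mul_left e3 hD0
  have hupp : ∀ L ∈ T, ((b * L - B * s : ℕ) : ℝ) < 6 * (b * ℓ) := by
    intro L hL
    rw [hcast L hL]
    obtain ⟨_, h1, h2, h3, h4⟩ := hT L hL
    rw [lt_div_iff₀ hb0] at h1
    rw [div_lt_iff₀ hb0] at h2
    rw [lt_div_iff₀ hB0] at h3
    rw [div_lt_iff₀ hB0] at h4
    have e1 : L * D * b < (f + 0.9 * κ) * B * b := mul_lt_mul_of_pos_right h4 hb0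
    have e2 : (f + 0.3 * κ) * b * B < (s : ℝ) * D * B := mul_lt_mul_of_pos_right h1 hB0
    have e3 : D * (b * L - B * s) < D * (6 * (b * ℓ)) := by
      have : D * (6 * (b * ℓ)) = 6 * b * (D * ℓ) := by ring
      rw [this, hDℓ]
      nlinarith
    exact lt_of_mul_lt_mul_left e3 hD0.le
  -- the interval of `L`
  have hint : ∀ L ∈ T, B * s < b * L ∧ B * (f + 0.8 * κ) / D < L ∧
      (L : ℝ) < B * (f + 0.9 * κ) / D := by
    intro L hL
    obtain ⟨h0, h1, h2, h3, h4⟩ := hT L hL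
    rw [lt_div_iff₀ hB0] at h3
    rw [div_lt_iff₀ hB0] at h4
    refine ⟨h0, ?_, ?_⟩
    · rw [div_lt_iff₀ hD0]; linarith
    · rw [lt_div_iff₀ hD0]; linarith
  have hlh : B * (f + 0.8 * κ) / D ≤ B * (f + 0.9 * κ) / D := by
    apply div_le_div_of_nonneg_right _ hD0.le
    nlinarith
  have hlen : B * (f + 0.9 * κ) / D - B * (f + 0.8 * κ) / D = ℓ := by
    rw [hℓ]; field_simp; ring
  have hcop : ∀ r : ℕ, r.Prime → ∀ L ∈ T, r ∣ b * L - B * s → b.Coprime r := by
    intro r hr L hL hd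
    rw [Nat.coprime_primes hb hr]
    intro hbr
    subst hbr
    have h1 := (hT L hL).1
    have h2 : b ∣ B * s := by
      have h3 : b ∣ b * L := dvd_mul_right b L
      have h4 := Nat.dvd_sub h3 hd
      have h5 : b * L - (b * L - B * s) = B * s := by omega
      rwa [h5] at h4
    rcases (Nat.Prime.dvd_mul hb).mp h2 with h | h
    · exact hbB ((Nat.prime_dvd_prime_iff_eq hb hB).mp h)
    · exact absurd (Nat.le_of_dvd hs0 h) (by omega)
  have hcnt : ∀ r i : ℕ, 0 < r → 0 < i → ((T.filter (fun L => r.Prime ∧ r ^ i ∣ b * L - B * s)).card : ℝ)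
      ≤ ℓ / (r : ℝ) ^ i + 1 := by
    intro r i hr0 hi
    by_cases h : (T.filter (fun L => r.Prime ∧ r ^ i ∣ b * L - B * s)).Nonempty
    · obtain ⟨L, hL⟩ := h
      obtain ⟨hL1, hrp, hL2⟩ := mem_filter.mp hL
      have hc : b.Coprime r := hcop r hrp L hL1 (dvd_trans (dvd_pow_self r hi.ne') hL2)
      have h1 := count_dvd b B s (r ^ i) T _ _ (hc.pow_right i) (pow_pos hr0 i) hlh hint
      rw [hlen] at h1
      have h2 : T.filter (fun L => r.Prime ∧ r ^ i ∣ b * L - B * s)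
          = T.filter (fun L => r ^ i ∣ b * L - B * s) := by
        apply filter_congr
        intro x _
        simp [hrp]
      rw [h2]
      push_cast at h1
      exact h1
    · rw [not_nonempty_iff_eq_empty] at h
      rw [h]
      simp only [card_empty, Nat.cast_zero]
      positivity
  -- the square root
  set R : ℝ := √(b * ℓ) with hR
  have hR2 : R * R = b * ℓ := Real.mul_self_sqrt (by positivity)
  have hR1 : 1 ≤ R := by
    rw [hR, Real.one_le_sqrt]; exact hbℓ1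
  have hRz : R ≤ ℓ / z := by
    rw [hR]
    apply Real.sqrt_le_iff.mpr
    refine ⟨by positivity, ?_⟩
    rw [div_pow, le_div_iff₀ (by positivity)]
    have : b * z ^ 2 ≤ ℓ := by nlinarith
    nlinarith
  -- first part
  have p1 : ∑ L ∈ T, ∑ r ∈ (b * L - B * s).primeFactors.filter (fun r : ℕ => z < r), 1 / (r : ℝ)
      ≤ 2 * ℓ / z + 6 * R := by
    have h1 := swap T (Ioo ⌊z⌋₊ ⌈6 * (b * ℓ)⌉₊) (fun L r => r.Prime ∧ r ^ 1 ∣ b * L - B * s)
      (fun r => 1 / (r : ℝ)) (fun r => ℓ / (r : ℝ) ^ 1 + 1) (fun r _ => by positivity)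
      (fun L => (b * L - B * s).primeFactors.filter (fun r : ℕ => z < r))
      (by
        intro L hL r hr
        obtain ⟨hr1, hr2⟩ := mem_filter.mp hr
        rw [Nat.mem_primeFactors] at hr1
        rw [mem_filter, mem_Ioo]
        refine ⟨⟨(Nat.floor_lt hz0.le).mpr hr2, ?_⟩, hr1.1, by rw [pow_one]; exact hr1.2.1⟩
        apply Nat.lt_ceil.mpr
        refine lt_of_le_of_lt ?_ (hupp L hL)
        exact_mod_cast Nat.le_of_dvd (Nat.pos_of_ne_zero hr1.2.2) hr1.2.1)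
      (by
        intro r hr
        rw [mem_Ioo] at hr
        exact hcnt r 1 (by omega) one_pos)
    refine h1.trans ?_
    have h2 : ∑ r ∈ Ioo ⌊z⌋₊ ⌈6 * (b * ℓ)⌉₊, 1 / (r : ℝ) * (ℓ / (r : ℝ) ^ 1 + 1)
        = ℓ * ∑ r ∈ Ioo ⌊z⌋₊ ⌈6 * (b * ℓ)⌉₊, 1 / (r : ℝ) ^ 2
          + ∑ r ∈ Ioo ⌊z⌋₊ ⌈6 * (b * ℓ)⌉₊, 1 / (r : ℝ) := by
      rw [mul_sum, ← sum_add_distrib]
      apply sum_congr rfl
      intro r hr
      rw [mem_Ioo] at hr
      have : (r : ℝ) ≠ 0 := by
        have : 0 < r := by omega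
        exact_mod_cast this.ne'
      field_simp
    rw [h2]
    have h3 := inv_sq z hz0 ⌈6 * (b * ℓ)⌉₊
    have h4 := harm_sqrt ⌊z⌋₊ ⌈6 * (b * ℓ)⌉₊ (by
      apply Nat.one_le_ceil_iff.mpr; positivity)
    have h5 : √(⌈6 * (b * ℓ)⌉₊ : ℝ) ≤ 3 * R := by
      apply Real.sqrt_le_iff.mpr
      refine ⟨by positivity, ?_⟩
      have := Nat.ceil_lt_add_one (show (0 : ℝ) ≤ 6 * (b * ℓ) by positivity)
      nlinarith
    have h6 : ℓ * ∑ r ∈ Ioo ⌊z⌋₊ ⌈6 * (b * ℓ)⌉₊, 1 / (r : ℝ) ^ 2 ≤ ℓ * (2 / z) :=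
      mul_le_mul_of_nonneg_left h3 hℓ0.le
    have h7 : ℓ * (2 / z) = 2 * ℓ / z := by ring
    linarith
  -- second part
  have p2 : ∑ L ∈ T, (((b * L - B * s).primeFactors.filter
      (fun r : ℕ => z < r ∧ r ^ 2 ∣ b * L - B * s)).card : ℝ) ≤ 2 * ℓ / z + 3.5 * R := by
    have h1 := swap T (Ioo ⌊z⌋₊ ⌈2.5 * R⌉₊) (fun L r => r.Prime ∧ r ^ 2 ∣ b * L - B * s)
      (fun _ => 1) (fun r => ℓ / (r : ℝ) ^ 2 + 1) (fun r _ => by positivity)
      (fun L => (b * L - B * s).primeFactors.filter (fun r : ℕ => z < r ∧ r ^ 2 ∣ b * L - B * s))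
      (by
        intro L hL r hr
        obtain ⟨hr1, hr2, hr3⟩ := mem_filter.mp hr
        rw [Nat.mem_primeFactors] at hr1
        rw [mem_filter, mem_Ioo]
        refine ⟨⟨(Nat.floor_lt hz0.le).mpr hr2, ?_⟩, hr1.1, hr3⟩
        apply Nat.lt_ceil.mpr
        have h2 : ((r ^ 2 : ℕ) : ℝ) ≤ ((b * L - B * s : ℕ) : ℝ) := by
          exact_mod_cast Nat.le_of_dvd (Nat.pos_of_ne_zero hr1.2.2) hr3
        have h3 := hupp L hL
        push_cast at h2
        have h4 : (r : ℝ) ^ 2 < (2.5 * R) ^ 2 := by nlinarith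
        exact lt_of_pow_lt_pow_left₀ 2 (by positivity) h4)
      (by
        intro r hr
        rw [mem_Ioo] at hr
        exact hcnt r 2 (by omega) two_pos)
    simp only [sum_const, nsmul_eq_mul, mul_one, one_mul] at h1
    refine h1.trans ?_
    rw [sum_add_distrib]
    have h2 : ∑ r ∈ Ioo ⌊z⌋₊ ⌈2.5 * R⌉₊, ℓ / (r : ℝ) ^ 2
        = ℓ * ∑ r ∈ Ioo ⌊z⌋₊ ⌈2.5 * R⌉₊, 1 / (r : ℝ) ^ 2 := by
      rw [mul_sum]
      apply sum_congr rfl
      intro r _
      ring
    rw [h2]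
    have h3 := inv_sq z hz0 ⌈2.5 * R⌉₊
    have h6 : ℓ * ∑ r ∈ Ioo ⌊z⌋₊ ⌈2.5 * R⌉₊, 1 / (r : ℝ) ^ 2 ≤ ℓ * (2 / z) :=
      mul_le_mul_of_nonneg_left h3 hℓ0.le
    have h7 : ℓ * (2 / z) = 2 * ℓ / z := by ring
    have h8 : ∑ r ∈ Ioo ⌊z⌋₊ ⌈2.5 * R⌉₊, (1 : ℝ) ≤ 3.5 * R := by
      rw [sum_const, nsmul_eq_mul, mul_one, Nat.card_Ioo]
      have h9 : ((⌈2.5 * R⌉₊ - ⌊z⌋₊ - 1 : ℕ) : ℝ) ≤ ⌈2.5 * R⌉₊ := by
        exact_mod_cast (by omega : ⌈2.5 * R⌉₊ - ⌊z⌋₊ - 1 ≤ ⌈2.5 * R⌉₊)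
      have := Nat.ceil_lt_add_one (show (0 : ℝ) ≤ 2.5 * R by positivity)
      linarith
    linarith
  -- together
  have tot : ∑ L ∈ T, FF z (b * L - B * s) ≤ 14 * ℓ / z := by
    unfold FF
    rw [sum_add_distrib]
    have : 14 * ℓ / z = 2 * ℓ / z + 2 * ℓ / z + 10 * (ℓ / z) := by ring
    have : 0 ≤ ℓ / z := by positivity
    linarith
  calc ∑ L ∈ T, 1 / ((b * L - B * s : ℕ) : ℝ) * FF z (b * L - B * s)
      ≤ ∑ L ∈ T, 1 / (4 * (b * ℓ)) * FF z (b * L - B * s) := by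
        apply sum_le_sum
        intro L hL
        apply mul_le_mul_of_nonneg_right _ (FF_nonneg _ _)
        exact one_div_le_one_div_of_le (by positivity) (hlow L hL)
    _ = 1 / (4 * (b * ℓ)) * ∑ L ∈ T, FF z (b * L - B * s) := by rw [mul_sum]
    _ ≤ 1 / (4 * (b * ℓ)) * (14 * ℓ / z) := mul_le_mul_of_nonneg_left tot (by positivity)
    _ = 3.5 / (b * z) := by field_simp; norm_num
    _ ≤ 4 / (b * z) := by
        apply div_le_div_of_nonneg_right _ (by positivity)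
        norm_num

/-- the numbers `D` for one `s`. -/
theorem cardD (b s : ℕ) (κ f : ℝ) (T : Finset ℕ) (hs0 : 0 < s) (hb0 : 0 < b)
    (hκ : 10 ≤ κ * b / s)
    (hT : ∀ D ∈ T, f + 0.3 * κ < (s : ℝ) * D / b ∧ (s : ℝ) * D / b < f + 0.4 * κ) :
    (T.card : ℝ) ≤ 0.2 * (κ * b / s) := by
  have hb : (0 : ℝ) < b := by exact_mod_cast hb0
  have hs : (0 : ℝ) < s := by exact_mod_cast hs0
  have hκ0 : 0 < κ := by
    by_contra h
    push Not at h
    have : κ * b / s ≤ 0 := div_nonpos_of_nonpos_of_nonneg (by nlinarith) hs.le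
    linarith
  have h := card_class T (b * (f + 0.3 * κ) / s) (b * (f + 0.4 * κ) / s) 1 one_pos
    (by
      apply div_le_div_of_nonneg_right _ hs.le
      nlinarith)
    (by
      intro D hD
      obtain ⟨h1, h2⟩ := hT D hD
      rw [lt_div_iff₀ hb] at h1
      rw [div_lt_iff₀ hb] at h2
      refine ⟨?_, ?_⟩
      · rw [div_lt_iff₀ hs]; linarith
      · rw [lt_div_iff₀ hs]; linarith)
    (fun _ _ _ _ _ => one_dvd _)
  have e : (b * (f + 0.4 * κ) / s - b * (f + 0.3 * κ) / s) / ((1 : ℕ) : ℝ) = 0.1 * (κ * b / s) := by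
    push_cast
    field_simp
    ring
  rw [e] at h
  linarith

end FP

/-- ROW FP. -/
theorem famPd : FamPd := by
  classical
  refine ⟨2, by norm_num, 4, ?_⟩
  intro P0 b B W PP κ f H M0 x y z hz hzW
  have hκ := H.κ0
  have hb0 : (0 : ℝ) < b := by exact_mod_cast H.bp.pos
  have hz0 : 0 < z := by linarith
  -- the size of `W`
  have hP1 : (1 : ℝ) ≤ ((P0 * ∏ p ∈ PP, p : ℕ) : ℝ) := by
    have : 1 ≤ P0 * ∏ p ∈ PP, p := by
      have h1 : 0 < ∏ p ∈ PP, p := Finset.prod_pos (fun p hp => (H.PPp p hp).1.pos)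
      have h2 := H.P0pos
      exact Nat.mul_pos (by omega) h1
    exact_mod_cast this
  have hk1 : 1000 ≤ 1 / κ := by
    rw [le_div_iff₀ hκ]
    have := H.κ1
    linarith
  have hkW4 : (1 / κ) ^ 4 ≤ W := by
    refine le_trans ?_ H.big
    apply pow_le_pow_left₀ (by positivity)
    exact div_le_div_of_nonneg_right hP1 hκ.le
  have hkW2 : (1 / κ) ^ 2 ≤ W := by
    refine le_trans ?_ hkW4
    exact pow_le_pow_right₀ (by linarith) (by norm_num)
  have hκW : 1 ≤ κ ^ 2 * W := by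
    rw [div_pow, one_pow, div_le_iff₀ (by positivity)] at hkW2
    linarith
  have hW6 : (1000 : ℝ) ≤ W := by
    refine le_trans ?_ hkW2
    nlinarith
  have hW2 : (W : ℝ) ^ 2 ≤ b := by
    refine le_trans ?_ H.Wb
    exact pow_le_pow_right₀ (by linarith) (by norm_num)
  have hWb : (W : ℝ) < b := by nlinarith
  have hzb : z ^ 2 ≤ b := by
    have : z ^ 2 ≤ z ^ 16 := pow_le_pow_right₀ hz (by norm_num)
    linarith
  have hbB3 : (b : ℝ) ^ 3 ≤ B := by exact_mod_cast H.bB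
  have hb2 : (2 : ℝ) ≤ b := by exact_mod_cast H.bp.two_le
  have hbB : b ≠ B := by
    intro h
    rw [← h] at hbB3
    have h4 : (4 : ℝ) ≤ (b : ℝ) ^ 2 := by nlinarith
    have h5 : (b : ℝ) ^ 3 = (b : ℝ) ^ 2 * b := by ring
    nlinarith
  have hlogW : 1 ≤ Real.log W := by
    rw [Real.le_log_iff_exp_le (by linarith)]
    have := Real.exp_one_lt_d9
    linarith
  have hκb : 10 ≤ κ * W := by
    have h1 : κ * (κ * W) = κ ^ 2 * W := by ring
    have h2 : 1 ≤ κ * (κ * W) := by rw [h1]; exact hκW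
    have := H.κ1
    by_contra hcon
    push Not at hcon
    nlinarith
  -- rewriting the sum
  set T : ℕ → ℕ → Finset ℕ := fun s D => (Icc 1 (3 * B * W)).filter
    (fun L => Conf0 P0 κ f b B W (s, L, D)) with hTdef
  have step1 : ∑ e ∈ Fam P0 PP κ f b B W M0 x y, 1 / (cd b B e : ℝ) * FP.FF z (cd b B e)
      ≤ ∑ s ∈ Icc 1 W, ∑ D ∈ Icc 1 b, ∑ L ∈ T s D,
        1 / ((b * L - B * s : ℕ) : ℝ) * FP.FF z (b * L - B * s) := by
    calc ∑ e ∈ Fam P0 PP κ f b B W M0 x y, 1 / (cd b B e : ℝ) * FP.FF z (cd b B e)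
        ≤ ∑ e ∈ ((Icc 1 W) ×ˢ ((Icc 1 (3 * B * W)) ×ˢ (Icc 1 b))).filter
            (fun e => Conf0 P0 κ f b B W e), 1 / (cd b B e : ℝ) * FP.FF z (cd b B e) := by
          apply sum_le_sum_of_subset_of_nonneg
          · intro e he
            unfold Fam at he
            rw [mem_filter] at he ⊢
            exact ⟨he.1, he.2.1⟩
          · intro e _ _
            have := FP.FF_nonneg z (cd b B e)
            positivity
      _ = ∑ s ∈ Icc 1 W, ∑ D ∈ Icc 1 b, ∑ L ∈ T s D,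
        1 / ((b * L - B * s : ℕ) : ℝ) * FP.FF z (b * L - B * s) := by
          rw [sum_filter, sum_product]
          apply sum_congr rfl
          intro s _
          rw [sum_product_right]
          apply sum_congr rfl
          intro D _
          rw [hTdef]
          simp only
          rw [sum_filter]
          rfl
  refine le_trans step1 ?_
  -- for one `s`
  have step2 : ∀ s ∈ Icc 1 W, ∑ D ∈ Icc 1 b, ∑ L ∈ T s D,
        1 / ((b * L - B * s : ℕ) : ℝ) * FP.FF z (b * L - B * s) ≤ 0.8 * κ / z * (1 / (s : ℝ)) := by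
    intro s hs
    rw [mem_Icc] at hs
    have hs0 : (0 : ℝ) < s := by exact_mod_cast (by omega : 0 < s)
    have hsW : (s : ℝ) ≤ W := by exact_mod_cast hs.2
    have hκbs : 10 ≤ κ * b / s := by
      rw [le_div_iff₀ hs0]
      nlinarith
    have h1 : ∑ D ∈ Icc 1 b, ∑ L ∈ T s D,
        1 / ((b * L - B * s : ℕ) : ℝ) * FP.FF z (b * L - B * s)
        = ∑ D ∈ (Icc 1 b).filter (fun D => (T s D).Nonempty), ∑ L ∈ T s D,
        1 / ((b * L - B * s : ℕ) : ℝ) * FP.FF z (b * L - B * s) := by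
      rw [sum_filter]
      apply sum_congr rfl
      intro D _
      split_ifs with h
      · rfl
      · rw [not_nonempty_iff_eq_empty] at h
        rw [h, sum_empty]
    rw [h1]
    have h2 : ∀ D ∈ (Icc 1 b).filter (fun D => (T s D).Nonempty), ∑ L ∈ T s D,
        1 / ((b * L - B * s : ℕ) : ℝ) * FP.FF z (b * L - B * s) ≤ 4 / (b * z) := by
      intro D hD
      obtain ⟨hD1, L0, hL0⟩ := mem_filter.mp hD
      rw [mem_Icc] at hD1
      have hD0 : (0 : ℝ) < D := by exact_mod_cast (by omega : 0 < D)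
      have hc0 := (mem_filter.mp hL0).2
      have hw2 := hc0.w2
      simp only at hw2
      have hsge : (W : ℝ) ≤ (s : ℝ) ^ 2 := by
        have := hc0.s_ge
        simp only at this
        exact_mod_cast this
      apply FP.stepA b B s D κ f z (0.1 * κ * B / D) (T s D) H.bp H.Bp hbB (by omega)
        (by exact_mod_cast lt_of_le_of_lt hsW hWb) (by omega) hκ rfl _ hz hzb
      · intro L hL
        have hc := (mem_filter.mp hL).2
        exact ⟨hc.lt, hc.w1, hc.w2, hc.w3, hc.w4⟩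
      · rw [le_div_iff₀ hD0]
        rw [div_lt_iff₀ hb0] at hw2
        have hκs : 1 ≤ κ * s := by
          have e1 : 1 ≤ (κ * s) ^ 2 := by
            rw [mul_pow]
            nlinarith [sq_nonneg κ]
          have e2 : 0 ≤ κ * s := by positivity
          by_contra hcon
          push Not at hcon
          nlinarith
        have hf : f + 0.4 * κ ≤ 0.0054 := by
          have := H.f1
          have := H.κ1
          linarith
        have e3 : (s : ℝ) * D ≤ 0.0054 * b := by nlinarith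
        have e4 : (b : ℝ) ^ 2 * (s * D) ≤ (b : ℝ) ^ 2 * (0.0054 * b) :=
          mul_le_mul_of_nonneg_left e3 (by positivity)
        have e5 : (s : ℝ) * ((b : ℝ) ^ 2 * D) ≤ s * (0.1 * κ * B) := by
          have : (b : ℝ) ^ 2 * (0.0054 * b) = 0.0054 * (b : ℝ) ^ 3 := by ring
          have hB0 : (0 : ℝ) ≤ B := by positivity
          have : s * (0.1 * κ * B) = 0.1 * (κ * s) * B := by ring
          nlinarith
        exact le_of_mul_le_mul_left e5 hs0
    have h3 := FP.cardD b s κ f ((Icc 1 b).filter (fun D => (T s D).Nonempty)) (by omega)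
      H.bp.pos hκbs (by
        intro D hD
        obtain ⟨_, L0, hL0⟩ := mem_filter.mp hD
        have hc0 := (mem_filter.mp hL0).2
        exact ⟨hc0.w1, hc0.w2⟩)
    calc _ ≤ ((Icc 1 b).filter (fun D => (T s D).Nonempty)).card • (4 / (b * z)) :=
          sum_le_card_nsmul _ _ _ h2
      _ = ((((Icc 1 b).filter (fun D => (T s D).Nonempty)).card : ℕ) : ℝ) * (4 / (b * z)) := by
          rw [nsmul_eq_mul]
      _ ≤ 0.2 * (κ * b / s) * (4 / (b * z)) := mul_le_mul_of_nonneg_right h3 (by positivity)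
      _ = 0.8 * κ / z * (1 / (s : ℝ)) := by field_simp; norm_num
  calc _ ≤ ∑ s ∈ Icc 1 W, 0.8 * κ / z * (1 / (s : ℝ)) := sum_le_sum step2
    _ = 0.8 * κ / z * ∑ s ∈ Icc 1 W, 1 / (s : ℝ) := by rw [mul_sum]
    _ ≤ 0.8 * κ / z * (1 + Real.log W) := mul_le_mul_of_nonneg_left (FP.harm W) (by positivity)
    _ ≤ 2 * κ * Real.log W / z := by
        have e : 2 * κ * Real.log W / z = κ / z * (2 * Real.log W) := by ring
        have e' : 0.8 * κ / z * (1 + Real.log W) = κ / z * (0.8 * (1 + Real.log W)) := by ring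
        rw [e, e']
        apply mul_le_mul_of_nonneg_left _ (by positivity)
        linarith

end

end Pool.Agent.MR2
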