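import Pool.Agent.Lib.MR2.StatM
import Pool.Agent.Lib.MP_f9aece_nt.PrimeSums

/-! TANK MR2, row M_GAP: long gaps between the integers `≡ a mod q` without `p²`, `p ≤ z1`
(`gapM : GapM`).  The primes with `p² ≤ G` cover at most `11/18 G + √G` of the `k ≤ G`; the other
primes cover at most one `k` each, and an exponential moment bounds their number.  helper22. -/

set_option autoImplicit false

namespace Pool.Agent.MR2

open Finset

namespace Gap

/-- integers in an interval which are congruent modulo `M` -/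
theorem card_cong (T : Finset ℕ) (lo hi M : ℕ) (hT : ∀ n ∈ T, lo ≤ n ∧ n ≤ hi)
    (hc : ∀ n ∈ T, ∀ n' ∈ T, n ≡ n' [MOD M]) : T.card ≤ (hi - lo) / M + 1 := by
  rcases T.eq_empty_or_nonempty with rfl | hne
  · simp
  · set n0 := T.min' hne with hn0
    have h0 : ∀ n ∈ T, n0 ≤ n := fun n hn => T.min'_le n hn
    have h0m : n0 ∈ T := T.min'_mem hne
    have h1 : ∀ n ∈ T, M ∣ n - n0 := fun n hn =>
      (Nat.modEq_iff_dvd' (h0 n hn)).1 (hc n0 h0m n hn)
    have h2 : T.card ≤ (range ((hi - lo) / M + 1)).card := by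
      refine card_le_card_of_injOn (fun n => (n - n0) / M) ?_ ?_
      · intro n hn
        have hn' : n ∈ T := hn
        have h3 := hT n hn'
        have h4 := hT n0 h0m
        have h5 : (n - n0) / M ≤ (hi - lo) / M := Nat.div_le_div_right (by omega)
        simp only [coe_range, Set.mem_Iio]
        omega
      · intro n hn n' hn' h
        have h3 : (n - n0) / M = (n' - n0) / M := h
        have h4 := Nat.div_mul_cancel (h1 n hn)
        have h5 := Nat.div_mul_cancel (h1 n' hn')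
        have h6 := h0 n hn
        have h7 := h0 n' hn'
        rw [h3] at h4
        omega
    rwa [card_range] at h2

/-- `p` covers some `k ≤ G` -/
def Cov (q G n p : ℕ) : Prop := ∃ k ∈ Icc 1 G, p ^ 2 ∣ n + q * k

/-- the integers all of whose `p ∈ D` cover something -/
theorem card_cov (q G : ℕ) (S : Finset ℕ) (X : ℝ) (hX : 0 ≤ X)
    (hS : ∀ n ∈ S, X ≤ n ∧ (n : ℝ) ≤ 2 * X) (D : Finset ℕ) (hD : ∀ p ∈ D, p.Prime)
    (T : Finset ℕ) (hT : T ⊆ S) (hTc : ∀ n ∈ T, ∀ p ∈ D, Cov q G n p) :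
    (T.card : ℝ) ≤ (G : ℝ) ^ D.card * (X / (∏ p ∈ D, (p : ℝ) ^ 2) + 1) := by
  classical
  set M : ℕ := ∏ p ∈ D, p ^ 2 with hM
  have hM0 : 0 < M := prod_pos fun p hp => pow_pos (hD p hp).pos 2
  have hMr : (∏ p ∈ D, (p : ℝ) ^ 2) = M := by rw [hM]; push_cast; rfl
  let k : ℕ → ℕ → ℕ := fun n p => if h : Cov q G n p then h.choose else 1
  have hk : ∀ n p, Cov q G n p → k n p ∈ Icc 1 G ∧ p ^ 2 ∣ n + q * k n p := by
    intro n p h
    have h1 : k n p = h.choose := dif_pos h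
    rw [h1]
    exact h.choose_spec
  let f : ℕ → (D → ℕ) := fun n p => k n p
  have hmaps : ∀ n ∈ T, f n ∈ Fintype.piFinset (fun _ : D => Icc 1 G) := by
    intro n hn
    rw [Fintype.mem_piFinset]
    intro p
    exact (hk n p (hTc n hn p p.2)).1
  have hfib : ∀ b ∈ Fintype.piFinset (fun _ : D => Icc 1 G),
      (T.filter fun n => f n = b).card ≤ (⌊2 * X⌋₊ - ⌈X⌉₊) / M + 1 := by
    intro b _
    refine card_cong _ ⌈X⌉₊ ⌊2 * X⌋₊ M ?_ ?_
    · intro n hn
      have h1 := hS n (hT (mem_filter.1 hn).1)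
      exact ⟨Nat.ceil_le.2 h1.1, Nat.le_floor h1.2⟩
    · intro n hn n' hn'
      rw [mem_filter] at hn hn'
      rw [Nat.modEq_iff_dvd, hM]
      push_cast
      refine Finset.prod_dvd_of_coprime ?_ ?_
      · intro p hp p' hp' hne
        have h1 : Nat.Coprime p p' := (Nat.coprime_primes (hD p hp) (hD p' hp')).2 hne
        have h2 : IsCoprime (p : ℤ) (p' : ℤ) := Nat.isCoprime_iff_coprime.2 h1
        exact h2.pow
      · intro p hp
        have h1 := (hk n p (hTc n hn.1 p hp)).2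
        have h2 := (hk n' p (hTc n' hn'.1 p hp)).2
        have h3 : k n p = b ⟨p, hp⟩ := congrFun hn.2 ⟨p, hp⟩
        have h4 : k n' p = b ⟨p, hp⟩ := congrFun hn'.2 ⟨p, hp⟩
        rw [h3] at h1
        rw [h4] at h2
        have h5 : ((p ^ 2 : ℕ) : ℤ) ∣ ((n' + q * b ⟨p, hp⟩ : ℕ) : ℤ) - ((n + q * b ⟨p, hp⟩ : ℕ) : ℤ) :=
          dvd_sub (Int.natCast_dvd_natCast.2 h2) (Int.natCast_dvd_natCast.2 h1)
        push_cast at h5
        have h6 : (n' : ℤ) + q * b ⟨p, hp⟩ - (n + q * b ⟨p, hp⟩) = n' - n := by ring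
        rwa [h6] at h5
  have h1 := card_le_mul_card_image_of_maps_to hmaps _ hfib
  have h2 : (Fintype.piFinset (fun _ : D => Icc 1 G)).card = G ^ D.card := by
    rw [Fintype.card_piFinset]
    simp
  rw [h2] at h1
  have h3 : (((⌊2 * X⌋₊ - ⌈X⌉₊) / M + 1 : ℕ) : ℝ) ≤ X / M + 1 := by
    push_cast
    have h4 : (((⌊2 * X⌋₊ - ⌈X⌉₊) / M : ℕ) : ℝ) ≤ ((⌊2 * X⌋₊ - ⌈X⌉₊ : ℕ) : ℝ) / M := Nat.cast_div_le
    have h5 : ((⌊2 * X⌋₊ - ⌈X⌉₊ : ℕ) : ℝ) ≤ X := by
      rcases le_total ⌈X⌉₊ ⌊2 * X⌋₊ with h | h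
      · rw [Nat.cast_sub h]
        have h6 := Nat.floor_le (show 0 ≤ 2 * X by linarith)
        have h7 := Nat.le_ceil X
        linarith
      · rw [Nat.sub_eq_zero_of_le h]
        simpa using hX
    have h6 : ((⌊2 * X⌋₊ - ⌈X⌉₊ : ℕ) : ℝ) / M ≤ X / M := by gcongr
    linarith
  rw [hMr]
  calc (T.card : ℝ) ≤ ((((⌊2 * X⌋₊ - ⌈X⌉₊) / M + 1) * G ^ D.card : ℕ) : ℝ) := by exact_mod_cast h1
    _ = (((⌊2 * X⌋₊ - ⌈X⌉₊) / M + 1 : ℕ) : ℝ) * (G : ℝ) ^ D.card := by push_cast; ring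
    _ ≤ (X / M + 1) * (G : ℝ) ^ D.card := by gcongr
    _ = _ := by ring

open Classical in
/-- the number of `p ∈ PP` which cover something -/
noncomputable def ZZ (q G : ℕ) (PP : Finset ℕ) (n : ℕ) : ℕ := (PP.filter fun p => Cov q G n p).card

/-- the exponential moment -/
theorem moment (q G m : ℕ) (S : Finset ℕ) (X : ℝ) (hX : 0 ≤ X)
    (hS : ∀ n ∈ S, X ≤ n ∧ (n : ℝ) ≤ 2 * X) (PP : Finset ℕ) (hP : ∀ p ∈ PP, p.Prime) :
    ∑ n ∈ S, (1 + (m : ℝ)) ^ ZZ q G PP n ≤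
      X * ∏ p ∈ PP, (1 + (m : ℝ) * G / (p : ℝ) ^ 2) + ∏ _p ∈ PP, (1 + (m : ℝ) * G) := by
  classical
  have h1 : ∀ n, (1 + (m : ℝ)) ^ ZZ q G PP n = ∏ p ∈ PP, (1 + if Cov q G n p then (m : ℝ) else 0) := by
    intro n
    unfold ZZ
    rw [← prod_const, prod_filter]
    refine prod_congr rfl fun p _ => ?_
    split_ifs <;> simp
  have h2 : ∀ n, (1 + (m : ℝ)) ^ ZZ q G PP n = ∑ D ∈ PP.powerset,
      ∏ p ∈ D, (if Cov q G n p then (m : ℝ) else 0) := by
    intro n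
    rw [h1 n, prod_one_add]
  have h3 : ∑ n ∈ S, (1 + (m : ℝ)) ^ ZZ q G PP n = ∑ D ∈ PP.powerset,
      (m : ℝ) ^ D.card * ((S.filter fun n => ∀ p ∈ D, Cov q G n p).card : ℝ) := by
    rw [sum_congr rfl fun n _ => h2 n, sum_comm]
    refine sum_congr rfl fun D _ => ?_
    rw [card_filter]
    push_cast
    rw [mul_sum]
    refine sum_congr rfl fun n _ => ?_
    by_cases h : ∀ p ∈ D, Cov q G n p
    · rw [if_pos h, mul_one, ← prod_const]
      exact prod_congr rfl fun p hp => if_pos (h p hp)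
    · rw [if_neg h, mul_zero]
      push Not at h
      obtain ⟨p, hp, hpc⟩ := h
      exact prod_eq_zero hp (if_neg hpc)
  rw [h3]
  have h4 : ∀ D ∈ PP.powerset, (m : ℝ) ^ D.card *
      ((S.filter fun n => ∀ p ∈ D, Cov q G n p).card : ℝ) ≤
      X * (∏ p ∈ D, ((m : ℝ) * G / (p : ℝ) ^ 2)) + ∏ p ∈ D, ((m : ℝ) * G) := by
    intro D hD
    rw [mem_powerset] at hD
    have h5 := card_cov q G S X hX hS D (fun p hp => hP p (hD hp))
      (S.filter fun n => ∀ p ∈ D, Cov q G n p) (filter_subset _ _)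
      (fun n hn => (mem_filter.1 hn).2)
    refine (mul_le_mul_of_nonneg_left h5 (by positivity)).trans (le_of_eq ?_)
    rw [prod_div_distrib, prod_const, mul_pow]
    ring
  refine (sum_le_sum h4).trans (le_of_eq ?_)
  rw [sum_add_distrib, ← mul_sum, prod_one_add, prod_one_add]

/-- the number of `k ≤ G` covered by `p` -/
theorem card_k_le {q G n p : ℕ} (hpq : Nat.Coprime p q) :
    ((Icc 1 G).filter fun k => p ^ 2 ∣ n + q * k).card ≤ (G - 1) / p ^ 2 + 1 := by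
  refine card_cong _ 1 G (p ^ 2) (fun k hk => mem_Icc.1 (mem_filter.1 hk).1) ?_
  intro k hk k' hk'
  rw [mem_filter] at hk hk'
  have h1 : n + q * k ≡ n + q * k' [MOD p ^ 2] :=
    (Nat.modEq_zero_iff_dvd.2 hk.2).trans (Nat.modEq_zero_iff_dvd.2 hk'.2).symm
  have h2 : q * k ≡ q * k' [MOD p ^ 2] := Nat.ModEq.add_left_cancel' n h1
  exact Nat.ModEq.cancel_left_of_coprime (hpq.pow_left 2) h2

/-- the sum of `1 / p²` over a set of primes -/
theorem sum_sq_le (A : Finset ℕ) (hA : ∀ p ∈ A, p.Prime) :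
    ∑ p ∈ A, 1 / (p : ℝ) ^ 2 ≤ 11 / 18 := by
  have h1 : A ⊆ {2} ∪ ({3} ∪ A.filter fun p => 4 < p) := by
    intro p hp
    have h2 := hA p hp
    have h3 := h2.two_le
    rw [mem_union, mem_union, mem_filter, mem_singleton, mem_singleton]
    by_cases h4 : 4 < p
    · exact Or.inr (Or.inr ⟨hp, h4⟩)
    · have h5 : p = 2 ∨ p = 3 ∨ p = 4 := by omega
      rcases h5 with h5 | h5 | h5
      · exact Or.inl h5
      · exact Or.inr (Or.inl h5)
      · subst h5
        exact absurd h2 (by decide)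
  have h2 := Pool.Agent.Lib.MP_f9aece_nt.sum_inv_sq_le 4 (by norm_num) (A.filter fun p => 4 < p)
    (fun p hp => (mem_filter.1 hp).2)
  have h3 : ∑ p ∈ A.filter (fun p => 4 < p), 1 / (p : ℝ) ^ 2 ≤ 1 / 4 := by
    refine le_trans (le_of_eq ?_) (h2.trans (le_of_eq (by norm_num)))
    refine sum_congr rfl fun p _ => ?_
    rw [inv_pow, one_div]
  have h4 : ∑ p ∈ A, 1 / (p : ℝ) ^ 2 ≤ ∑ p ∈ {2} ∪ ({3} ∪ A.filter fun p => 4 < p), 1 / (p : ℝ) ^ 2 :=
    sum_le_sum_of_subset_of_nonneg h1 fun _ _ _ => by positivity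
  have h5 : ∀ (B C : Finset ℕ), ∑ p ∈ B ∪ C, 1 / (p : ℝ) ^ 2 ≤ ∑ p ∈ B, 1 / (p : ℝ) ^ 2 + ∑ p ∈ C, 1 / (p : ℝ) ^ 2 := by
    intro B C
    rw [← sum_union_inter]
    have : 0 ≤ ∑ p ∈ B ∩ C, 1 / (p : ℝ) ^ 2 := sum_nonneg fun _ _ => by positivity
    linarith
  have h6 := h5 {2} ({3} ∪ A.filter fun p => 4 < p)
  have h7 := h5 {3} (A.filter fun p => 4 < p)
  rw [sum_singleton] at h6 h7
  norm_num at h6 h7 h3 h4 ⊢
  linarith

/-- the deterministic part -/
theorem det {q a G n : ℕ} {z : ℝ} (ha : a.Coprime q) (hn : n ≡ a [MOD q]) (hG : 324 ≤ G)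
    (hSF : ∀ k ∈ Icc 1 G, ¬ SF z (n + q * k)) (PP : Finset ℕ)
    (hPP : ∀ p : ℕ, p.Prime → (p : ℝ) ≤ z → G < p ^ 2 → ¬ p ∣ q → p ∈ PP) :
    G ≤ 3 * ZZ q G PP n := by
  classical
  set m := Nat.sqrt G with hm
  set A : Finset ℕ := (Icc 1 m).filter fun p => p.Prime ∧ ¬ p ∣ q with hA
  have hcov : Icc 1 G ⊆ (A.biUnion fun p => (Icc 1 G).filter fun k => p ^ 2 ∣ n + q * k) ∪
      ((PP.filter fun p => Cov q G n p ∧ G < p ^ 2 ∧ Nat.Coprime p q).biUnion fun p =>
        (Icc 1 G).filter fun k => p ^ 2 ∣ n + q * k) := by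
    intro k hk
    have h1 := hSF k hk
    unfold SF at h1
    push Not at h1
    obtain ⟨p, hp, hpz, hpk⟩ := h1
    have hpq : ¬ p ∣ q := by
      intro h
      have h2 : p ∣ n := by
        have h3 : p ∣ n + q * k := (dvd_pow_self p two_ne_zero).trans hpk
        exact (Nat.dvd_add_left (h.mul_right k)).1 h3
      have h3 : p ∣ a := by
        have h4 : n ≡ a [MOD p] := hn.of_dvd h
        exact (h4.dvd_iff dvd_rfl).1 h2
      have h4 := Nat.dvd_gcd h3 h
      rw [ha] at h4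
      exact hp.one_lt.ne' (Nat.dvd_one.1 h4)
    rw [mem_union, mem_biUnion, mem_biUnion]
    by_cases h : p ^ 2 ≤ G
    · left
      refine ⟨p, ?_, mem_filter.2 ⟨hk, hpk⟩⟩
      rw [hA, mem_filter, mem_Icc]
      exact ⟨⟨hp.pos, Nat.le_sqrt'.2 h⟩, hp, hpq⟩
    · right
      refine ⟨p, ?_, mem_filter.2 ⟨hk, hpk⟩⟩
      rw [mem_filter]
      exact ⟨hPP p hp hpz (by omega) hpq, ⟨k, hk, hpk⟩, by omega, (Nat.Prime.coprime_iff_not_dvd hp).2 hpq⟩
  have h1 := card_le_card hcov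
  rw [Nat.card_Icc, Nat.add_sub_cancel] at h1
  have h2 := card_union_le (A.biUnion fun p => (Icc 1 G).filter fun k => p ^ 2 ∣ n + q * k)
    ((PP.filter fun p => Cov q G n p ∧ G < p ^ 2 ∧ Nat.Coprime p q).biUnion fun p =>
      (Icc 1 G).filter fun k => p ^ 2 ∣ n + q * k)
  have h3 : (A.biUnion fun p => (Icc 1 G).filter fun k => p ^ 2 ∣ n + q * k).card ≤
      ∑ p ∈ A, ((G - 1) / p ^ 2 + 1) := by
    refine card_biUnion_le.trans (sum_le_sum fun p hp => ?_)
    rw [hA, mem_filter] at hp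
    exact card_k_le ((Nat.Prime.coprime_iff_not_dvd hp.2.1).2 hp.2.2)
  have h4 : ((PP.filter fun p => Cov q G n p ∧ G < p ^ 2 ∧ Nat.Coprime p q).biUnion fun p =>
      (Icc 1 G).filter fun k => p ^ 2 ∣ n + q * k).card ≤ ZZ q G PP n := by
    refine card_biUnion_le.trans ?_
    have h5 : ∀ p ∈ PP.filter fun p => Cov q G n p ∧ G < p ^ 2 ∧ Nat.Coprime p q,
        ((Icc 1 G).filter fun k => p ^ 2 ∣ n + q * k).card ≤ 1 := by
      intro p hp
      rw [mem_filter] at hp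
      refine (card_k_le hp.2.2.2).trans ?_
      rw [Nat.div_eq_of_lt (by omega)]
    refine (sum_le_card_nsmul _ _ _ h5).trans ?_
    rw [smul_eq_mul, mul_one]
    unfold ZZ
    refine card_le_card ?_
    intro p hp
    rw [mem_filter] at hp ⊢
    exact ⟨hp.1, hp.2.1⟩
  have h5 : G ≤ ∑ p ∈ A, ((G - 1) / p ^ 2 + 1) + ZZ q G PP n := by omega
  have h6 : (G : ℝ) ≤ ∑ p ∈ A, ((G : ℝ) * (1 / (p : ℝ) ^ 2) + 1) + ZZ q G PP n := by
    have h7 : (G : ℝ) ≤ ((∑ p ∈ A, ((G - 1) / p ^ 2 + 1) + ZZ q G PP n : ℕ) : ℝ) := by exact_mod_cast h5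
    refine h7.trans ?_
    push_cast
    gcongr with p hp
    have h8 : (((G - 1) / p ^ 2 : ℕ) : ℝ) ≤ ((G - 1 : ℕ) : ℝ) / ((p ^ 2 : ℕ) : ℝ) := Nat.cast_div_le
    refine h8.trans ?_
    push_cast
    rw [mul_one_div]
    have h9 : ((G - 1 : ℕ) : ℝ) ≤ G := by exact_mod_cast Nat.sub_le _ _
    gcongr
  rw [sum_add_distrib, ← mul_sum, sum_const, nsmul_eq_mul, mul_one] at h6
  have h7 := sum_sq_le A fun p hp => (mem_filter.1 hp).2.1
  have h8 : (A.card : ℝ) ≤ m := by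
    have h9 : A.card ≤ (Icc 1 m).card := card_le_card (filter_subset _ _)
    rw [Nat.card_Icc, Nat.add_sub_cancel] at h9
    exact_mod_cast h9
  have h9 : 18 * (m : ℝ) ≤ G := by
    have h10 : 18 ≤ m := Nat.le_sqrt.2 (by omega)
    have h11 : m * m ≤ G := Nat.sqrt_le G
    have h12 : 18 * m ≤ G := (Nat.mul_le_mul_right m h10).trans h11
    exact_mod_cast h12
  have h10 : (G : ℝ) ≤ 3 * ZZ q G PP n := by
    have h11 : (G : ℝ) * ∑ p ∈ A, 1 / (p : ℝ) ^ 2 ≤ G * (11 / 18) :=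
      mul_le_mul_of_nonneg_left h7 (by positivity)
    linarith
  exact_mod_cast h10

/-- the bound with `G` in the right range -/
theorem main {q a G : ℕ} {X z : ℝ} (ha : a.Coprime q) (hG : 324 ≤ G) (hG1 : 24 ≤ Real.log G)
    (hX : 1 ≤ X) (hGX : Real.log (Real.log X) ≤ 2 * G) (hL : 16 ≤ Real.log X)
    (hG2 : (G : ℝ) ^ 2 ≤ Real.log X ^ (1 / 2 : ℝ) / 2) (hz : z ≤ Real.log X ^ (1 / 2 : ℝ))
    (s : Finset ℕ) (hs : ∀ n ∈ s, X ≤ n ∧ (n : ℝ) ≤ 2 * X ∧ n ≡ a [MOD q] ∧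
      ∀ k ∈ Icc 1 G, ¬ SF z (n + q * k)) : (s.card : ℝ) ≤ X / Real.log X := by
  classical
  set m := Nat.sqrt G with hm
  have hm18 : 18 ≤ m := Nat.le_sqrt.2 (by omega)
  have hmG : m * m ≤ G := Nat.sqrt_le G
  have hmG' : G < (m + 1) * (m + 1) := Nat.lt_succ_sqrt G
  have hmGr : (m : ℝ) * m ≤ G := by exact_mod_cast hmG
  have hmGr' : (G : ℝ) < (m + 1) * (m + 1) := by exact_mod_cast hmG'
  have hm0 : (0 : ℝ) < m := by exact_mod_cast (by omega : 0 < m)
  have hG0 : (324 : ℝ) ≤ G := by exact_mod_cast hG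
  have hL0 : 0 < Real.log X := by linarith
  set PP : Finset ℕ := (Icc 1 ⌊z⌋₊).filter fun p => p.Prime ∧ G < p ^ 2 ∧ ¬ p ∣ q with hPP
  have hPp : ∀ p ∈ PP, p.Prime := fun p hp => (mem_filter.1 hp).2.1
  have hPG : ∀ p ∈ PP, m < p := by
    intro p hp
    have h1 := (mem_filter.1 hp).2.2.1
    by_contra h
    have h2 : p ≤ m := by omega
    have h3 : p ^ 2 ≤ m * m := by
      rw [sq]
      exact Nat.mul_le_mul h2 h2
    omega
  have hS : ∀ n ∈ s, X ≤ n ∧ (n : ℝ) ≤ 2 * X := fun n hn => ⟨(hs n hn).1, (hs n hn).2.1⟩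
  have hmom := moment q G m s X (by linarith) hS PP hPp
  have hZ : ∀ n ∈ s, G ≤ 3 * ZZ q G PP n := by
    intro n hn
    obtain ⟨-, -, h1, h2⟩ := hs n hn
    refine det ha h1 hG h2 PP ?_
    intro p hp hpz hpG hpq
    rw [hPP, mem_filter, mem_Icc]
    exact ⟨⟨hp.pos, Nat.le_floor hpz⟩, hp, hpG, hpq⟩
  -- lower bound of each term
  have hlog : Real.log G ≤ 2 * Real.log (1 + m) := by
    have h1 : (G : ℝ) ≤ (1 + (m : ℝ)) ^ 2 := by nlinarith
    have h2 := Real.log_le_log (by linarith) h1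
    rwa [Real.log_pow, Nat.cast_ofNat] at h2
  have hterm : ∀ n ∈ s, Real.exp (4 * G) ≤ (1 + (m : ℝ)) ^ ZZ q G PP n := by
    intro n hn
    have h1 : (1 + (m : ℝ)) ^ ZZ q G PP n = Real.exp (ZZ q G PP n * Real.log (1 + m)) := by
      rw [Real.exp_nat_mul, Real.exp_log (by positivity)]
    rw [h1]
    refine Real.exp_le_exp.2 ?_
    have h2 : (G : ℝ) ≤ 3 * ZZ q G PP n := by exact_mod_cast hZ n hn
    have h3 : (12 : ℝ) ≤ Real.log (1 + m) := by linarith
    have h4 : (G : ℝ) / 3 ≤ ZZ q G PP n := by linarith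
    calc (4 : ℝ) * G = G / 3 * 12 := by ring
      _ ≤ ZZ q G PP n * Real.log (1 + m) := mul_le_mul h4 h3 (by norm_num) (by positivity)
  have hlow : (s.card : ℝ) * Real.exp (4 * G) ≤ ∑ n ∈ s, (1 + (m : ℝ)) ^ ZZ q G PP n := by
    rw [← nsmul_eq_mul]
    exact card_nsmul_le_sum _ _ _ hterm
  -- first product
  have hp1 : ∏ p ∈ PP, (1 + (m : ℝ) * G / (p : ℝ) ^ 2) ≤ Real.exp G := by
    have h1 : ∏ p ∈ PP, (1 + (m : ℝ) * G / (p : ℝ) ^ 2) ≤
        ∏ p ∈ PP, Real.exp ((m : ℝ) * G / (p : ℝ) ^ 2) := by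
      refine prod_le_prod (fun p _ => by positivity) fun p _ => ?_
      rw [add_comm]
      exact Real.add_one_le_exp _
    refine h1.trans ?_
    rw [← Real.exp_sum]
    refine Real.exp_le_exp.2 ?_
    have h2 := Pool.Agent.Lib.MP_f9aece_nt.sum_inv_sq_le m (by omega) PP hPG
    have h3 : ∑ p ∈ PP, (m : ℝ) * G / (p : ℝ) ^ 2 = (m : ℝ) * G * ∑ p ∈ PP, ((p : ℝ)⁻¹) ^ 2 := by
      rw [mul_sum]
      refine sum_congr rfl fun p _ => ?_
      rw [inv_pow, div_eq_mul_inv]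
    rw [h3]
    calc (m : ℝ) * G * ∑ p ∈ PP, ((p : ℝ)⁻¹) ^ 2 ≤ (m : ℝ) * G * (1 / m) :=
          mul_le_mul_of_nonneg_left h2 (by positivity)
      _ = G := by field_simp
  -- second product
  have hcard : (PP.card : ℝ) ≤ Real.log X ^ (1 / 2 : ℝ) := by
    have h1 : PP.card ≤ ⌊z⌋₊ := by
      have h2 := card_le_card (filter_subset (fun p => p.Prime ∧ G < p ^ 2 ∧ ¬ p ∣ q) (Icc 1 ⌊z⌋₊))
      rwa [Nat.card_Icc, Nat.add_sub_cancel] at h2
    have h2 : (PP.card : ℝ) ≤ (⌊z⌋₊ : ℝ) := by exact_mod_cast h1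
    rcases le_total 0 z with h | h
    · exact h2.trans ((Nat.floor_le h).trans hz)
    · rw [Nat.floor_of_nonpos h, Nat.cast_zero] at h2
      exact h2.trans (Real.rpow_nonneg hL0.le _)
  have hsq : Real.log X ^ (1 / 2 : ℝ) * Real.log X ^ (1 / 2 : ℝ) = Real.log X := by
    rw [← Real.rpow_add hL0]
    norm_num
  have hp2 : ∏ _p ∈ PP, (1 + (m : ℝ) * G) ≤ Real.exp (Real.log X / 2) := by
    have h1 : ∏ _p ∈ PP, (1 + (m : ℝ) * G) ≤ ∏ _p ∈ PP, Real.exp ((m : ℝ) * G) := by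
      refine prod_le_prod (fun p _ => by positivity) fun p _ => ?_
      rw [add_comm]
      exact Real.add_one_le_exp _
    refine h1.trans ?_
    rw [prod_const, ← Real.exp_nat_mul]
    refine Real.exp_le_exp.2 ?_
    have h2 : (m : ℝ) * G ≤ Real.log X ^ (1 / 2 : ℝ) / 2 := by
      have h3 : (m : ℝ) ≤ G := by nlinarith
      nlinarith
    calc (PP.card : ℝ) * (m * G) ≤ Real.log X ^ (1 / 2 : ℝ) * (Real.log X ^ (1 / 2 : ℝ) / 2) :=
          mul_le_mul hcard h2 (by positivity) (Real.rpow_nonneg hL0.le _)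
      _ = Real.log X / 2 := by rw [mul_div_assoc', hsq]
  have hX0 : 0 < X := by linarith
  have hfin : (s.card : ℝ) * Real.exp (4 * G) ≤ X * Real.exp G + Real.exp (Real.log X / 2) := by
    refine hlow.trans (hmom.trans ?_)
    gcongr
  -- the two terms
  have h1 : X * Real.exp G ≤ X / (2 * Real.log X) * Real.exp (4 * G) := by
    have h2 : 2 * Real.log X ≤ Real.exp (3 * G) := by
      have h3 : Real.log X = Real.exp (Real.log (Real.log X)) := (Real.exp_log hL0).symm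
      have h4 : Real.log X ≤ Real.exp (2 * G) := by
        rw [h3]
        exact Real.exp_le_exp.2 hGX
      have h5 : 2 ≤ Real.exp (G : ℝ) := by
        have := Real.add_one_le_exp (G : ℝ)
        linarith
      calc 2 * Real.log X ≤ Real.exp G * Real.exp (2 * G) :=
            mul_le_mul h5 h4 hL0.le (Real.exp_pos _).le
        _ = Real.exp (3 * G) := by rw [← Real.exp_add]; ring_nf
    have h3 : Real.exp (4 * G) = Real.exp (3 * G) * Real.exp G := by
      rw [← Real.exp_add]; ring_nf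
    rw [h3, div_mul_eq_mul_div, le_div_iff₀ (by positivity)]
    have h4 := Real.exp_pos (G : ℝ)
    calc X * Real.exp G * (2 * Real.log X) ≤ X * Real.exp G * Real.exp (3 * G) :=
          mul_le_mul_of_nonneg_left h2 (by positivity)
      _ = _ := by ring
  have h2 : Real.exp (Real.log X / 2) ≤ X / (2 * Real.log X) * Real.exp (4 * G) := by
    have h3 : 2 * Real.log X ≤ Real.exp (Real.log X / 2) := by
      have h4 := Real.pow_div_factorial_le_exp (Real.log X / 2) (by linarith) 2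
      have h5 : (Real.log X / 2) ^ 2 / (Nat.factorial 2 : ℝ) = Real.log X ^ 2 / 8 := by
        norm_num [Nat.factorial]
        ring
      rw [h5] at h4
      nlinarith
    have h4 : X = Real.exp (Real.log X / 2) * Real.exp (Real.log X / 2) := by
      rw [← Real.exp_add, add_halves, Real.exp_log hX0]
    have h5 : 1 ≤ Real.exp (4 * (G : ℝ)) := Real.one_le_exp (by positivity)
    have h6 : Real.exp (Real.log X / 2) ≤ X / (2 * Real.log X) := by
      rw [le_div_iff₀ (by positivity)]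
      calc Real.exp (Real.log X / 2) * (2 * Real.log X) ≤
            Real.exp (Real.log X / 2) * Real.exp (Real.log X / 2) :=
            mul_le_mul_of_nonneg_left h3 (Real.exp_pos _).le
        _ = X := h4.symm
    have h7 : 0 ≤ X / (2 * Real.log X) := by positivity
    calc Real.exp (Real.log X / 2) ≤ X / (2 * Real.log X) * 1 := by rw [mul_one]; exact h6
      _ ≤ _ := mul_le_mul_of_nonneg_left h5 h7
  have h3 : X / Real.log X = X / (2 * Real.log X) + X / (2 * Real.log X) := by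
    field_simp
    norm_num
  have h4 : (s.card : ℝ) * Real.exp (4 * G) ≤ X / Real.log X * Real.exp (4 * G) := by
    rw [h3, add_mul]
    linarith
  exact le_of_mul_le_mul_right h4 (Real.exp_pos _)

end Gap

/-- **Row M_GAP.** -/
theorem gapM : GapM := by
  intro q a hq ha
  -- everything is large
  have hev : ∀ᶠ X : ℝ in Filter.atTop, 2 * Real.exp 24 + 48 ≤ Real.log (Real.log X) :=
    (Real.tendsto_log_atTop.comp Real.tendsto_log_atTop).eventually_ge_atTop _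
  obtain ⟨X1, hX1⟩ := Filter.eventually_atTop.1 hev
  refine ⟨max X1 3, fun X z1 hX hz G hG s hs => ?_⟩
  have hy := hX1 X ((le_max_left _ _).trans hX)
  have hX3 : 3 ≤ X := (le_max_right _ _).trans hX
  set L := Real.log X with hL
  set y := Real.log L with hydef
  have hL0 : 0 < L := Real.log_pos (by linarith)
  have he24 : (324 : ℝ) ≤ Real.exp 24 := by
    have h1 := Real.pow_div_factorial_le_exp (24 : ℝ) (by norm_num) 3
    norm_num [Nat.factorial] at h1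
    linarith
  have hLy : L = Real.exp y := (Real.exp_log hL0).symm
  have hL16 : 16 ≤ L := by
    rw [hLy]
    have := Real.add_one_le_exp y
    linarith
  set G0 := ⌈y / 2⌉₊ with hG0
  have hy0 : 0 ≤ y / 2 := by linarith
  have hG0l : y / 2 ≤ G0 := Nat.le_ceil _
  have hG0u : (G0 : ℝ) < y / 2 + 1 := Nat.ceil_lt_add_one hy0
  have hGG : G0 ≤ G := Nat.ceil_le.2 hG
  have hG0e : Real.exp 24 ≤ G0 := by linarith
  have h324 : 324 ≤ G0 := by
    have : (324 : ℝ) ≤ G0 := he24.trans hG0e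
    exact_mod_cast this
  have hlogG : 24 ≤ Real.log G0 := by
    have := Real.log_le_log (Real.exp_pos _) hG0e
    rwa [Real.log_exp] at this
  have hG2 : (G0 : ℝ) ^ 2 ≤ L ^ (1 / 2 : ℝ) / 2 := by
    have h1 : L ^ (1 / 2 : ℝ) = Real.exp (y / 2) := by
      rw [Real.rpow_def_of_pos hL0]
      congr 1
      ring
    rw [h1]
    set u := y / 2 with hu
    have hu24 : 24 ≤ u := by
      have := Real.exp_pos (24 : ℝ)
      linarith
    have h2 := Real.pow_div_factorial_le_exp u hy0 3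
    have h3 : u ^ 3 / (Nat.factorial 3 : ℝ) = u ^ 3 / 6 := by norm_num [Nat.factorial]
    rw [h3] at h2
    have h4 : (G0 : ℝ) ^ 2 ≤ (u + 1) ^ 2 := pow_le_pow_left₀ (by positivity) hG0u.le 2
    have h5 : (u + 1) ^ 2 ≤ 2 * u ^ 2 := by nlinarith
    have h6 : 24 * u ^ 2 ≤ u ^ 3 := by nlinarith [sq_nonneg u]
    linarith
  refine Gap.main ha h324 hlogG (by linarith) (by linarith) hL16 hG2 hz s ?_
  intro n hn
  obtain ⟨h1, h2, h3, h4⟩ := hs n hn
  exact ⟨h1, h2, h3, fun k hk => h4 k (mem_Icc.2 ⟨(mem_Icc.1 hk).1, (mem_Icc.1 hk).2.trans hGG⟩)⟩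

end Pool.Agent.MR2
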