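import Pool.Agent.Lib.MR2.Hal
import Pool.Agent.Lib.MRL.HZ
import Pool.Agent.Lib.MRL.FL

/-!
# Halász with a power saving for `λ(n) n^{-it}` on the integers coprime to finitely many primes

`halLam`: `ZetaQ → ∃ θ > 0, ∀ A, ∃ C, ∀ Q x t, |t| ≤ x^A →`
`|∑_{n ≤ x, (n,Q)=1} λ(n) n^{-it}| ≤ C (∏_{p ∈ Q} (1+1/p))^{1/4} (log x)^{-θ} x`.
-/

set_option autoImplicit false

namespace Pool.Agent.MR2

open Finset Pool.Agent.MRHal Complex Pool.Agent.MRL Pool.Agent.MRL.Bas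

/-- upper bound for `ζ` near the line `1` with a power saving in `log`. -/
def ZetaQ : Prop := ∃ η : ℝ, 0 < η ∧ η ≤ 1 ∧ ∃ C : ℝ, 0 < C ∧ ∀ a τ : ℝ, 0 < a → a ≤ 1 →
  1 / 2 ≤ |τ| → ‖riemannZeta (1 + a + τ * Complex.I)‖ ≤ C * (Real.log (2 + |τ|)) ^ (1 - η)

/-- bound for the Dirichlet series of `λ` near the line `1`, with a power saving. -/
def LamQ (η : ℝ) : Prop := ∃ C : ℝ, 0 < C ∧ ∀ a τ : ℝ, 0 < a → a ≤ 1 →
  ‖Fl a τ‖ ≤ C * a ^ (-(3 / 4 : ℝ)) * (Real.log (3 + |τ|)) ^ ((1 - η) / 4)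

theorem halLog3 (τ : ℝ) : 1 ≤ Real.log (3 + |τ|) := by
  rw [Real.le_log_iff_exp_le (by positivity)]
  have := Real.exp_one_lt_d9
  have := abs_nonneg τ
  linarith

theorem lamQ (hZ : ZetaQ) : ∃ η : ℝ, 0 < η ∧ η ≤ 1 ∧ LamQ η := by
  obtain ⟨η, hη, hη1, C, hC, hZ⟩ := hZ
  refine ⟨η, hη, hη1, ?_⟩
  obtain ⟨C1, hC1, hpole⟩ := FL.zeta_pole
  obtain ⟨C3, hC3, hsm⟩ := FL.Fl_bdd_near
  set D : ℝ := 2 * (C1 ^ (3 / 4 : ℝ) * (2 * C) ^ (1 / 4 : ℝ)) with hD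
  have hD0 : 0 < D := by positivity
  refine ⟨max C3 D, lt_max_of_lt_left hC3, fun a τ ha ha1 => ?_⟩
  have hl := halLog3 τ
  have hl2 : (1 : ℝ) ≤ (Real.log (3 + |τ|)) ^ ((1 - η) / 4) :=
    Real.one_le_rpow hl (by linarith)
  have ha2 : (1 : ℝ) ≤ a ^ (-(3 / 4 : ℝ)) :=
    Real.one_le_rpow_of_pos_of_le_one_of_nonpos ha ha1 (by norm_num)
  by_cases hτ : |τ| ≤ 1
  · calc ‖Fl a τ‖ ≤ C3 := hsm a τ ha ha1 hτ
      _ = C3 * 1 * 1 := by ring
      _ ≤ max C3 D * a ^ (-(3 / 4 : ℝ)) * (Real.log (3 + |τ|)) ^ ((1 - η) / 4) := by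
        have : C3 ≤ max C3 D := le_max_left _ _
        gcongr
  · push Not at hτ
    have h2τ : 1 / 2 ≤ |2 * τ| := by
      rw [abs_mul, abs_two]; linarith
    have h1 := hZ a (2 * τ) ha ha1 h2τ
    have h3 : Real.log (2 + |2 * τ|) ≤ 2 * Real.log (3 + |τ|) := by
      have h4 : Real.log (2 + |2 * τ|) ≤ Real.log ((3 + |τ|) ^ 2) := by
        apply Real.log_le_log (by positivity)
        rw [abs_mul, abs_two]
        nlinarith [abs_nonneg τ]
      rw [Real.log_pow] at h4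
      push_cast at h4
      exact h4
    have h0 : 0 ≤ Real.log (2 + |2 * τ|) := Real.log_nonneg (by linarith)
    have h4 : C * (Real.log (2 + |2 * τ|)) ^ (1 - η) ≤
        2 * C * (Real.log (3 + |τ|)) ^ (1 - η) := by
      have h5 : (Real.log (2 + |2 * τ|)) ^ (1 - η) ≤ (2 * Real.log (3 + |τ|)) ^ (1 - η) :=
        Real.rpow_le_rpow h0 h3 (by linarith)
      rw [Real.mul_rpow (by norm_num) (by linarith)] at h5
      have h6 : (2 : ℝ) ^ (1 - η) ≤ 2 := by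
        calc (2 : ℝ) ^ (1 - η) ≤ 2 ^ (1 : ℝ) :=
              Real.rpow_le_rpow_of_exponent_le (by norm_num) (by linarith)
          _ = 2 := Real.rpow_one 2
      have h7 : 0 ≤ (Real.log (3 + |τ|)) ^ (1 - η) := by positivity
      calc C * (Real.log (2 + |2 * τ|)) ^ (1 - η)
          ≤ C * (2 ^ (1 - η) * (Real.log (3 + |τ|)) ^ (1 - η)) := by gcongr
        _ ≤ C * (2 * (Real.log (3 + |τ|)) ^ (1 - η)) := by gcongr
        _ = _ := by ring
    have h5 := FL.inv_zeta_le ha τ (hpole a ha ha1) (h1.trans h4)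
    have hmain := FL.norm_Fl_mul_le (τ := τ) ha
    have e1 : (C1 / a) ^ (3 / 4 : ℝ) = C1 ^ (3 / 4 : ℝ) * a ^ (-(3 / 4 : ℝ)) := by
      rw [Real.div_rpow hC1.le ha.le, Real.rpow_neg ha.le, div_eq_mul_inv]
    have e2 : (2 * C * (Real.log (3 + |τ|)) ^ (1 - η)) ^ (1 / 4 : ℝ) =
        (2 * C) ^ (1 / 4 : ℝ) * (Real.log (3 + |τ|)) ^ ((1 - η) / 4) := by
      rw [Real.mul_rpow (by positivity) (by positivity), ← Real.rpow_mul (by linarith)]
      congr 2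
      ring
    rw [e1, e2] at h5
    have hF0 := norm_nonneg (Fl a τ)
    have hK0 : 0 ≤ C1 ^ (3 / 4 : ℝ) * a ^ (-(3 / 4 : ℝ)) *
        ((2 * C) ^ (1 / 4 : ℝ) * (Real.log (3 + |τ|)) ^ ((1 - η) / 4)) := by positivity
    calc ‖Fl a τ‖ = ‖Fl a τ‖ * 1 := (mul_one _).symm
      _ ≤ ‖Fl a τ‖ * (C1 ^ (3 / 4 : ℝ) * a ^ (-(3 / 4 : ℝ)) * ‖riemannZeta (1 + a + τ * I)‖
            * ((2 * C) ^ (1 / 4 : ℝ) * (Real.log (3 + |τ|)) ^ ((1 - η) / 4))) :=
          mul_le_mul_of_nonneg_left h5 hF0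
      _ = (C1 ^ (3 / 4 : ℝ) * a ^ (-(3 / 4 : ℝ)) *
            ((2 * C) ^ (1 / 4 : ℝ) * (Real.log (3 + |τ|)) ^ ((1 - η) / 4)))
            * (‖Fl a τ‖ * ‖riemannZeta (1 + a + τ * I)‖) := by ring
      _ ≤ (C1 ^ (3 / 4 : ℝ) * a ^ (-(3 / 4 : ℝ)) *
            ((2 * C) ^ (1 / 4 : ℝ) * (Real.log (3 + |τ|)) ^ ((1 - η) / 4))) * 2 :=
          mul_le_mul_of_nonneg_left hmain hK0
      _ = D * a ^ (-(3 / 4 : ℝ)) * (Real.log (3 + |τ|)) ^ ((1 - η) / 4) := by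
        rw [hD]
        ring
      _ ≤ max C3 D * a ^ (-(3 / 4 : ℝ)) * (Real.log (3 + |τ|)) ^ ((1 - η) / 4) := by
        have : D ≤ max C3 D := le_max_right _ _
        gcongr

/-! ### Removing finitely many primes -/

/-- `f` restricted to the integers not divisible by any element of `Q`. -/
noncomputable def cut (Q : Finset ℕ) (f : ℕ → ℂ) (n : ℕ) : ℂ :=
  if ∀ p ∈ Q, ¬ p ∣ n then f n else 0

theorem cut_empty (f : ℕ → ℂ) : cut ∅ f = f := by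
  funext n
  simp [cut]

theorem cut_insert (Q : Finset ℕ) (p : ℕ) (f : ℕ → ℂ) : cut (insert p Q) f = cut {p} (cut Q f) := by
  funext n
  unfold cut
  by_cases h1 : p ∣ n
  · simp [h1]
  · simp [h1]

theorem cm_cut1 {f : ℕ → ℂ} (hf : CM f) {p : ℕ} (hp : p.Prime) : CM (cut {p} f) where
  one := by
    simp [cut, hp.one_lt.ne', hf.one]
  mul := by
    intro m n
    unfold cut
    by_cases h1 : p ∣ m
    · have h2 : p ∣ m * n := h1.mul_right n
      simp [h1, h2]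
    by_cases h2 : p ∣ n
    · have h3 : p ∣ m * n := h2.mul_left m
      simp [h2, h3]
    have h3 : ¬ p ∣ m * n := by
      rw [hp.dvd_mul]
      tauto
    simp [h1, h2, h3, hf.mul]
  le := by
    intro n
    unfold cut
    split_ifs
    · exact hf.le n
    · simp

theorem cm_cut {f : ℕ → ℂ} (hf : CM f) (Q : Finset ℕ) (hQ : ∀ p ∈ Q, p.Prime) : CM (cut Q f) := by
  induction Q using Finset.induction_on with
  | empty => rw [cut_empty]; exact hf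
  | insert p Q hp ih =>
    rw [cut_insert]
    exact cm_cut1 (ih fun q hq => hQ q (mem_insert_of_mem hq)) (hQ p (mem_insert_self _ _))

theorem halSumLS {f : ℕ → ℂ} (hf : ∀ n, ‖f n‖ ≤ 1) {s : ℂ} (hs : 1 < s.re) : LSeriesSummable f s :=
  LSeriesSummable_of_bounded_of_one_lt_re (m := 1) (fun n _ => hf n) hs

theorem ls_cut1 {f : ℕ → ℂ} (hf : CM f) {p : ℕ} (hp : p.Prime) {s : ℂ} (hs : 1 < s.re) :
    LSeries (cut {p} f) s = (1 - f p * (p : ℂ) ^ (-s)) * LSeries f s := by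
  have hp0 : p ≠ 0 := hp.ne_zero
  have hs1 := halSumLS hf.le hs
  have hs2 := halSumLS (cm_cut1 hf hp).le hs
  have hp0' : (p : ℂ) ≠ 0 := by exact_mod_cast hp0
  -- the complementary part
  have h1 : ∑' n, (LSeries.term f s n - LSeries.term (cut {p} f) s n) =
      f p * (p : ℂ) ^ (-s) * LSeries f s := by
    have hinj : Function.Injective (fun m : ℕ => p * m) :=
      fun a b h => Nat.eq_of_mul_eq_mul_left hp.pos h
    rw [← hinj.tsum_eq (f := fun n => LSeries.term f s n - LSeries.term (cut {p} f) s n), LSeries,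
      ← tsum_mul_left]
    · refine tsum_congr fun m => ?_
      rcases Nat.eq_zero_or_pos m with rfl | hm
      · simp
      have hm0 : (m : ℂ) ≠ 0 := by exact_mod_cast hm.ne'
      have hpm : p * m ≠ 0 := Nat.mul_ne_zero hp0 hm.ne'
      have h2 : cut {p} f (p * m) = 0 := by simp [cut]
      simp only [LSeries.term_of_ne_zero hpm, LSeries.term_of_ne_zero hm.ne', h2, hf.mul, zero_div,
        sub_zero]
      rw [Nat.cast_mul, Complex.natCast_mul_natCast_cpow, Complex.cpow_neg]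
      have h3 : (p : ℂ) ^ s ≠ 0 := by simp [Complex.cpow_eq_zero_iff, hp0]
      have h4 : (m : ℂ) ^ s ≠ 0 := by simp [Complex.cpow_eq_zero_iff, hm.ne']
      field_simp
    · intro n hn
      rw [Function.mem_support] at hn
      by_contra hc
      apply hn
      have h3 : ¬ p ∣ n := by
        rintro ⟨m, rfl⟩
        exact hc ⟨m, rfl⟩
      have h4 : cut {p} f n = f n := by simp [cut, h3]
      rcases Nat.eq_zero_or_pos n with rfl | hn0
      · simp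
      rw [LSeries.term_of_ne_zero hn0.ne', LSeries.term_of_ne_zero hn0.ne', h4, sub_self]
  have h2 : ∑' n, (LSeries.term f s n - LSeries.term (cut {p} f) s n) =
      LSeries f s - LSeries (cut {p} f) s := hs1.tsum_sub hs2
  rw [h2] at h1
  linear_combination -h1

theorem norm_ls_cut {f : ℕ → ℂ} (hf : CM f) (Q : Finset ℕ) (hQ : ∀ p ∈ Q, p.Prime) {s : ℂ}
    (hs : 1 < s.re) :
    ‖LSeries (cut Q f) s‖ ≤ (∏ p ∈ Q, (1 + 1 / (p : ℝ))) * ‖LSeries f s‖ := by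
  induction Q using Finset.induction_on with
  | empty => simp [cut_empty]
  | insert p Q hp ih =>
    have hpp : p.Prime := hQ p (mem_insert_self _ _)
    have hQ' : ∀ q ∈ Q, q.Prime := fun q hq => hQ q (mem_insert_of_mem hq)
    have hp0 : (0 : ℝ) < p := by exact_mod_cast hpp.pos
    rw [cut_insert, ls_cut1 (cm_cut hf Q hQ') hpp hs, norm_mul, prod_insert hp, mul_assoc]
    have h1 : ‖1 - cut Q f p * (p : ℂ) ^ (-s)‖ ≤ 1 + 1 / (p : ℝ) := by
      refine (norm_sub_le _ _).trans ?_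
      rw [norm_one, norm_mul, Complex.norm_natCast_cpow_of_pos hpp.pos]
      have h2 : ‖cut Q f p‖ ≤ 1 := (cm_cut hf Q hQ').le p
      have h3 : (p : ℝ) ^ (-s).re ≤ 1 / p := by
        have h4 : (-s).re ≤ -1 := by
          rw [Complex.neg_re]
          linarith
        have h5 : (p : ℝ) ^ (-s).re ≤ (p : ℝ) ^ (-1 : ℝ) :=
          Real.rpow_le_rpow_of_exponent_le (by exact_mod_cast hpp.one_lt.le) h4
        rwa [Real.rpow_neg_one, ← one_div] at h5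
      have h6 : 0 ≤ (p : ℝ) ^ (-s).re := by positivity
      nlinarith [norm_nonneg (cut Q f p)]
    exact mul_le_mul h1 (ih hQ') (norm_nonneg _) (by positivity)

theorem one_le_prodQ (Q : Finset ℕ) : 1 ≤ ∏ p ∈ Q, (1 + 1 / (p : ℝ)) := by
  calc (1 : ℝ) = ∏ p ∈ Q, (1 : ℝ) := by simp
    _ ≤ ∏ p ∈ Q, (1 + 1 / (p : ℝ)) := by
      refine prod_le_prod (fun _ _ => by norm_num) fun p _ => ?_
      have : 0 ≤ 1 / (p : ℝ) := by positivity
      linarith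

/-- Halász for `λ(n) n^{-it}` on the integers coprime to the primes of `Q`. -/
theorem halLam_of {η : ℝ} (_hη : 0 < η) (hη1 : η ≤ 1) (hF : LamQ η) : ∀ A : ℝ, 1 ≤ A →
    ∃ C : ℝ, 0 < C ∧ ∀ (Q : Finset ℕ), (∀ p ∈ Q, p.Prime) → ∀ x : ℝ, Real.exp 1 ≤ x → ∀ t : ℝ,
      |t| ≤ x ^ A →
      ‖∑ n ∈ Icc 1 ⌊x⌋₊, cut Q (fun n => ((lam n : ℝ) : ℂ) * nt n t) n‖ ≤
        C * (∏ p ∈ Q, (1 + 1 / (p : ℝ))) ^ (1 / 4 : ℝ) * (Real.log x) ^ (-(η / 16)) * x := by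
  intro A hA
  obtain ⟨CF, hCF, hF⟩ := hF
  obtain ⟨K, hK, hal⟩ := halQ
  set B : ℝ := CF * (A + 4) ^ ((1 - η) / 4) with hB
  have hB0 : 0 < B := by positivity
  refine ⟨K * (B ^ (1 / 4 : ℝ) + 1), by positivity, ?_⟩
  intro Q hQ x hx t ht
  have hx0 : 0 < x := lt_of_lt_of_le (Real.exp_pos 1) hx
  have hx2 : 2 ≤ x := by
    have := Real.add_one_le_exp (1 : ℝ)
    linarith
  have hl1 : 1 ≤ Real.log x := by
    rw [Real.le_log_iff_exp_le hx0]
    exact hx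
  have hlx : Real.log x ≤ x := by
    have := Real.log_le_sub_one_of_pos hx0
    linarith
  set l : ℝ := Real.log x with hl
  have hl0 : 0 < l := by linarith
  set P : ℝ := ∏ p ∈ Q, (1 + 1 / (p : ℝ)) with hP
  have hP1 : 1 ≤ P := one_le_prodQ Q
  have hP0 : 0 < P := by linarith
  have ha0 : 0 < l⁻¹ := by positivity
  have ha1 : l⁻¹ ≤ 1 := inv_le_one_of_one_le₀ hl1
  set κ : ℝ := P * (B * l ^ (-(η / 4))) with hκ
  have hκ0 : 0 ≤ κ := by positivity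
  have key := hal x hx κ hκ0 (cut Q (lt t)) (cm_cut (cm_lt t) Q hQ) (fun τ hτ => ?_)
  · have h1 : ps (cut Q (lt t)) x =
        ∑ n ∈ Icc 1 ⌊x⌋₊, cut Q (fun n => ((lam n : ℝ) : ℂ) * nt n t) n := by
      unfold ps
      refine sum_congr rfl fun n hn => ?_
      rw [mem_Icc] at hn
      unfold cut
      rw [lt_pos t (by omega)]
    rw [h1] at key
    refine key.trans ?_
    have h2 : κ ^ (1 / 4 : ℝ) = P ^ (1 / 4 : ℝ) * (B ^ (1 / 4 : ℝ) * l ^ (-(η / 16))) := by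
      rw [hκ, Real.mul_rpow hP0.le (by positivity), Real.mul_rpow hB0.le (by positivity),
        ← Real.rpow_mul hl0.le]
      congr 3
      ring
    have h3 : l ^ (-(1 / 8) : ℝ) ≤ P ^ (1 / 4 : ℝ) * l ^ (-(η / 16)) := by
      calc l ^ (-(1 / 8) : ℝ) ≤ l ^ (-(η / 16)) :=
            Real.rpow_le_rpow_of_exponent_le hl1 (by linarith)
        _ = 1 * l ^ (-(η / 16)) := (one_mul _).symm
        _ ≤ P ^ (1 / 4 : ℝ) * l ^ (-(η / 16)) := by
          have : (1 : ℝ) ≤ P ^ (1 / 4 : ℝ) := Real.one_le_rpow hP1 (by norm_num)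
          gcongr
    rw [h2]
    calc K * (P ^ (1 / 4 : ℝ) * (B ^ (1 / 4 : ℝ) * l ^ (-(η / 16))) + l ^ (-(1 / 8) : ℝ)) * x
        ≤ K * (P ^ (1 / 4 : ℝ) * (B ^ (1 / 4 : ℝ) * l ^ (-(η / 16))) +
          P ^ (1 / 4 : ℝ) * l ^ (-(η / 16))) * x := by gcongr
      _ = _ := by ring
  · have hre : 1 < ((((1 + l⁻¹ : ℝ) : ℂ) + I * τ)).re := by
      simp
      exact hl0
    refine (norm_ls_cut (cm_lt t) Q hQ hre).trans ?_
    rw [ls_lt, ← hP, hκ, mul_assoc]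
    refine mul_le_mul_of_nonneg_left ?_ hP0.le
    refine (hF l⁻¹ (t + τ) ha0 ha1).trans ?_
    have h1 : 3 + |t + τ| ≤ x ^ (A + 4) := by
      have h2 : |t + τ| ≤ x ^ A + l ^ 2 := (abs_add_le _ _).trans (add_le_add ht hτ)
      have h3 : l ^ 2 ≤ x ^ 2 := by gcongr
      have h4 : x ^ (A + 4) = x ^ A * x ^ 4 := by
        rw [Real.rpow_add hx0]
        congr 1
        exact_mod_cast Real.rpow_natCast x 4
      have h5 : (2 : ℝ) ≤ x ^ A := by
        calc (2 : ℝ) ≤ x := hx2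
          _ = x ^ (1 : ℝ) := (Real.rpow_one x).symm
          _ ≤ x ^ A := Real.rpow_le_rpow_of_exponent_le (by linarith) hA
      have h6 : (4 : ℝ) ≤ x ^ 2 := by nlinarith
      have h7 : x ^ 2 * 4 ≤ x ^ 4 := by nlinarith
      rw [h4]
      nlinarith
    have h2 : Real.log (3 + |t + τ|) ≤ (A + 4) * l := by
      have h3 := Real.log_le_log (by positivity) h1
      rwa [Real.log_rpow hx0] at h3
    have h3 : (Real.log (3 + |t + τ|)) ^ ((1 - η) / 4) ≤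
        (A + 4) ^ ((1 - η) / 4) * l ^ ((1 - η) / 4) := by
      rw [← Real.mul_rpow (by linarith) hl0.le]
      exact Real.rpow_le_rpow (by linarith [halLog3 (t + τ)]) h2 (by linarith)
    have h4 : (l⁻¹) ^ (-(3 / 4 : ℝ)) = l ^ (3 / 4 : ℝ) := by
      rw [Real.inv_rpow hl0.le, Real.rpow_neg hl0.le, inv_inv]
    calc CF * (l⁻¹) ^ (-(3 / 4 : ℝ)) * (Real.log (3 + |t + τ|)) ^ ((1 - η) / 4)
        ≤ CF * (l⁻¹) ^ (-(3 / 4 : ℝ)) * ((A + 4) ^ ((1 - η) / 4) * l ^ ((1 - η) / 4)) := by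
          gcongr
      _ = B * (l ^ (3 / 4 : ℝ) * l ^ ((1 - η) / 4)) := by
        rw [h4, hB]
        ring
      _ = B * l ^ (-(η / 4)) * l := by
        rw [mul_assoc B, ← Real.rpow_add hl0, ← Real.rpow_add_one hl0.ne']
        congr 2
        ring

theorem halLam (hZ : ZetaQ) : ∃ θ : ℝ, 0 < θ ∧ ∀ A : ℝ, 1 ≤ A →
    ∃ C : ℝ, 0 < C ∧ ∀ (Q : Finset ℕ), (∀ p ∈ Q, p.Prime) → ∀ x : ℝ, Real.exp 1 ≤ x → ∀ t : ℝ,
      |t| ≤ x ^ A →
      ‖∑ n ∈ Icc 1 ⌊x⌋₊, cut Q (fun n => ((lam n : ℝ) : ℂ) * nt n t) n‖ ≤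
        C * (∏ p ∈ Q, (1 + 1 / (p : ℝ))) ^ (1 / 4 : ℝ) * (Real.log x) ^ (-θ) * x := by
  obtain ⟨η, hη, hη1, hF⟩ := lamQ hZ
  exact ⟨η / 16, by positivity, halLam_of hη hη1 hF⟩

end Pool.Agent.MR2
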