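import Pool.Agent.Lib.MR2.Defs
import Pool.Agent.Lib.MR2.HalL
import Pool.Agent.Lib.MRF.HZ
import Pool.Agent.Lib.MRF.FL

/-!
# TANK MR2, rows HQ and ZQ (helper33)

`halQ_of : CM f → FlQf f θ₀ → HalQ f (min θ₀ (1/2) / 4)`;
`flQ_lamChi : ZetaQ → ∃ θ > 0, FlQf (lamChi χ) θ` for every Dirichlet character `χ`.
-/

set_option autoImplicit false

namespace Pool.Agent.MR2

open Finset Complex Pool.Agent.MRL Pool.Agent.MRF Pool.Agent.MRHal

theorem prodQ_le_exp (P : Finset ℕ) :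
    (∏ p ∈ P, (1 + 1 / (p : ℝ))) ^ (1 / 4 : ℝ) ≤ Real.exp ((∑ p ∈ P, 1 / (p : ℝ)) / 4) := by
  have h1 : ∏ p ∈ P, (1 + 1 / (p : ℝ)) ≤ Real.exp (∑ p ∈ P, 1 / (p : ℝ)) := by
    rw [Real.exp_sum]
    refine prod_le_prod (fun p _ => by positivity) fun p _ => ?_
    have := Real.add_one_le_exp (1 / (p : ℝ))
    linarith
  have h0 : 0 ≤ ∏ p ∈ P, (1 + 1 / (p : ℝ)) := by linarith [one_le_prodQ P]
  calc (∏ p ∈ P, (1 + 1 / (p : ℝ))) ^ (1 / 4 : ℝ) ≤
      (Real.exp (∑ p ∈ P, 1 / (p : ℝ))) ^ (1 / 4 : ℝ) :=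
        Real.rpow_le_rpow h0 h1 (by norm_num)
    _ = Real.exp ((∑ p ∈ P, 1 / (p : ℝ)) / 4) := by
      rw [← Real.exp_mul]
      congr 1
      ring

/-- ROW HQ. -/
theorem halQ_of {f : ℕ → ℂ} (hf : CM f) {θ : ℝ} (hF : FlQf f θ) :
    HalQ f (min θ (1 / 2) / 4) := by
  obtain ⟨CF, hCF, hF⟩ := hF
  obtain ⟨K, hK, hal⟩ := halQ
  refine ⟨K * (CF ^ (1 / 4 : ℝ) + 1), by positivity, ?_⟩
  intro x hx P hP t ht
  have hx0 : 0 < x := by linarith
  have he3 : Real.exp 1 ≤ 3 := by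
    have := Real.exp_one_lt_d9
    linarith
  have hxe : Real.exp 1 ≤ x := he3.trans hx
  have hl1 : 1 ≤ Real.log x := by
    rw [Real.le_log_iff_exp_le hx0]
    exact hxe
  have hlx : Real.log x ≤ x := by
    have := Real.log_le_sub_one_of_pos hx0
    linarith
  set l : ℝ := Real.log x with hl
  have hl0 : 0 < l := by linarith
  set Pr : ℝ := ∏ p ∈ P, (1 + 1 / (p : ℝ)) with hPr
  have hPr1 : 1 ≤ Pr := one_le_prodQ P
  have hPr0 : 0 < Pr := by linarith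
  set κ : ℝ := Pr * (CF * l ^ (-θ)) with hκ
  have hκ0 : 0 ≤ κ := by positivity
  set m : ℝ := min θ (1 / 2) with hm
  have hm1 : m ≤ θ := min_le_left _ _
  have hm2 : m ≤ 1 / 2 := min_le_right _ _
  have key := hal x hxe κ hκ0 (cut P (ft f t)) (cm_cut (cm_ft hf t) P hP) (fun τ hτ => ?_)
  · have h1 : ps (cut P (ft f t)) x = ∑ n ∈ Icc 1 ⌊x⌋₊, (f n * free P n) * nt n t := by
      unfold ps
      refine sum_congr rfl fun n hn => ?_
      rw [mem_Icc] at hn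
      unfold cut free
      split_ifs
      · rw [ft_pos t (by omega), mul_one]
      · simp
    rw [h1] at key
    refine key.trans ?_
    have h2 : κ ^ (1 / 4 : ℝ) ≤ Pr ^ (1 / 4 : ℝ) * (CF ^ (1 / 4 : ℝ) * l ^ (-(m / 4))) := by
      rw [hκ, Real.mul_rpow hPr0.le (by positivity), Real.mul_rpow hCF.le (by positivity),
        ← Real.rpow_mul hl0.le]
      have : l ^ (-θ * (1 / 4 : ℝ)) ≤ l ^ (-(m / 4)) :=
        Real.rpow_le_rpow_of_exponent_le hl1 (by linarith)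
      gcongr
    have h3 : l ^ (-(1 / 8) : ℝ) ≤ Pr ^ (1 / 4 : ℝ) * l ^ (-(m / 4)) := by
      calc l ^ (-(1 / 8) : ℝ) ≤ l ^ (-(m / 4)) :=
            Real.rpow_le_rpow_of_exponent_le hl1 (by linarith)
        _ = 1 * l ^ (-(m / 4)) := (one_mul _).symm
        _ ≤ Pr ^ (1 / 4 : ℝ) * l ^ (-(m / 4)) := by
          have : (1 : ℝ) ≤ Pr ^ (1 / 4 : ℝ) := Real.one_le_rpow hPr1 (by norm_num)
          gcongr
    have h4 := prodQ_le_exp P
    rw [← hPr] at h4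
    calc K * (κ ^ (1 / 4 : ℝ) + l ^ (-(1 / 8) : ℝ)) * x
        ≤ K * (Pr ^ (1 / 4 : ℝ) * (CF ^ (1 / 4 : ℝ) * l ^ (-(m / 4))) +
          Pr ^ (1 / 4 : ℝ) * l ^ (-(m / 4))) * x := by gcongr
      _ = K * (CF ^ (1 / 4 : ℝ) + 1) * x * l ^ (-(m / 4)) * Pr ^ (1 / 4 : ℝ) := by ring
      _ ≤ K * (CF ^ (1 / 4 : ℝ) + 1) * x * l ^ (-(m / 4)) *
          Real.exp ((∑ p ∈ P, 1 / (p : ℝ)) / 4) := by gcongr
  · have hre : 1 < ((((1 + l⁻¹ : ℝ) : ℂ) + I * τ)).re := by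
      simp
      exact hl0
    refine (norm_ls_cut (cm_ft hf t) P hP hre).trans ?_
    rw [ls_ft, ← hPr, hκ, mul_assoc]
    refine mul_le_mul_of_nonneg_left ?_ hPr0.le
    have h1 : |t + τ| ≤ x ^ 4 := by
      have h2 : |t + τ| ≤ x ^ 3 + l ^ 2 := (abs_add_le _ _).trans (add_le_add ht hτ)
      have h3 : l ^ 2 ≤ x ^ 2 := by gcongr
      have h4 : x ^ 2 * 3 ≤ x ^ 3 := by nlinarith [sq_nonneg x]
      have h5 : x ^ 3 * 3 ≤ x ^ 4 := by
        have : 0 < x ^ 3 := by positivity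
        nlinarith
      nlinarith [sq_nonneg x]
    have h2 := hF x hx (t + τ) h1
    rw [← hl, one_div] at h2
    refine h2.trans (le_of_eq ?_)
    rw [mul_assoc, ← Real.rpow_add_one hl0.ne']
    congr 2
    ring

/-- the same with a given exponent `θ' ≤ min θ (1/2) / 4`. -/
theorem HalQ.mono {f : ℕ → ℂ} {θ θ' : ℝ} (h : HalQ f θ) (hθ : θ' ≤ θ) : HalQ f θ' := by
  obtain ⟨C, hC, h⟩ := h
  refine ⟨C, hC, fun x hx P hP t ht => (h x hx P hP t ht).trans ?_⟩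
  have hl1 : 1 ≤ Real.log x := by
    rw [Real.le_log_iff_exp_le (by linarith)]
    have := Real.exp_one_lt_d9
    linarith
  have : (Real.log x) ^ (-θ) ≤ (Real.log x) ^ (-θ') :=
    Real.rpow_le_rpow_of_exponent_le hl1 (by linarith)
  have hx0 : 0 < x := by linarith
  gcongr

/-! ### The Dirichlet series of `λ χ` -/

/-- `ζ` near the line `1`, with the exponent displayed. -/
def ZetaE (η : ℝ) : Prop := ∃ C : ℝ, 0 < C ∧ ∀ a τ : ℝ, 0 < a → a ≤ 1 →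
  1 / 2 ≤ |τ| → ‖riemannZeta (1 + a + τ * Complex.I)‖ ≤ C * (Real.log (2 + |τ|)) ^ (1 - η)

/-- the exponent is `η / k²`, where all values of `f` at the primes are `0` or `k`-th roots of
unity. -/
theorem flQ_of {f : ℕ → ℂ} (hf : CM f) {k : ℕ} (hk : 2 ≤ k)
    (hp : ∀ p : ℕ, p.Prime → f p = 0 ∨ f p ^ k = 1)
    (hC : ∃ C : ℝ, 0 < C ∧ ∀ a τ : ℝ, 0 < a → a ≤ 1 → |τ| ≤ 1 → ‖FlF f a τ‖ ≤ C)
    {η : ℝ} (hη : 0 < η) (hη1 : η ≤ 1) (hZ : ZetaE η) : FlQf f (η / (k : ℝ) ^ 2) := by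
  obtain ⟨C, hC0, hZ⟩ := hZ
  obtain ⟨C3, hC3, hsm⟩ := hC
  obtain ⟨C1, hC1, hpole⟩ := FL.zeta_pole
  have hk2 : (2 : ℝ) ≤ k := by exact_mod_cast hk
  have hk0 : (0 : ℝ) < k := by linarith
  set κ : ℝ := 1 / (k : ℝ) ^ 2 with hκ
  have hκ0 : 0 < κ := by positivity
  have hκ1 : κ ≤ 1 := by
    rw [hκ, div_le_one (by positivity)]
    nlinarith
  have hηκ : η / (k : ℝ) ^ 2 = η * κ := by rw [hκ]; ring
  rw [hηκ]
  set E : ℝ := Real.exp (2 * FLFa.c2) with hE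
  have hE0 : 0 < E := Real.exp_pos _
  set D : ℝ := (4 + Real.log (3 * k)) ^ (1 - η) with hD
  have hlogk : 0 < Real.log (3 * k) := Real.log_pos (by linarith)
  have hD0 : 0 < D := Real.rpow_pos_of_pos (by linarith) _
  set G : ℝ := E * (C1 ^ (1 - κ) * (C * D) ^ κ) with hG
  have hG0 : 0 < G := by positivity
  refine ⟨G + C3, by positivity, fun x hx τ hτx => ?_⟩
  have hx0 : 0 < x := by linarith
  have hl1 : 1 ≤ Real.log x := by
    rw [Real.le_log_iff_exp_le hx0]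
    have := Real.exp_one_lt_d9
    linarith
  set l : ℝ := Real.log x with hl
  have hl0 : 0 < l := by linarith
  have ha0 : 0 < 1 / l := by positivity
  have ha1 : 1 / l ≤ 1 := by
    rw [div_le_one hl0]
    exact hl1
  have hηκ1 : η * κ ≤ 1 := by nlinarith
  have hll : (1 : ℝ) ≤ l ^ (1 - η * κ) := Real.one_le_rpow hl1 (by linarith)
  by_cases hτ : |τ| ≤ 1
  · calc ‖FlF f (1 / l) τ‖ ≤ C3 := hsm (1 / l) τ ha0 ha1 hτ
      _ = C3 * 1 := (mul_one _).symm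
      _ ≤ (G + C3) * l ^ (1 - η * κ) := by
        gcongr
        linarith
  · push Not at hτ
    have hkτ : |(k : ℝ) * τ| = k * |τ| := by rw [abs_mul, abs_of_pos hk0]
    have h2τ : 1 / 2 ≤ |(k : ℝ) * τ| := by
      rw [hkτ]
      nlinarith
    have h4 := hZ (1 / l) (k * τ) ha0 ha1 h2τ
    have h5 : Real.log (2 + |(k : ℝ) * τ|) ≤ (4 + Real.log (3 * k)) * l := by
      have h6 : 2 + |(k : ℝ) * τ| ≤ (3 * k) * x ^ 4 := by
        rw [hkτ]
        have h7 : (1 : ℝ) ≤ x ^ 4 := one_le_pow₀ (by linarith)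
        nlinarith
      have h7 := Real.log_le_log (by positivity) h6
      rw [Real.log_mul (by positivity) (by positivity), Real.log_pow, ← hl] at h7
      push_cast at h7
      nlinarith
    have h5' : 0 ≤ Real.log (2 + |(k : ℝ) * τ|) :=
      Real.log_nonneg (by linarith [abs_nonneg ((k : ℝ) * τ)])
    have h6 : C * (Real.log (2 + |(k : ℝ) * τ|)) ^ (1 - η) ≤ C * D * l ^ (1 - η) := by
      have h7 := Real.rpow_le_rpow h5' h5 (z := 1 - η) (by linarith)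
      rw [Real.mul_rpow (by linarith) hl0.le] at h7
      calc C * (Real.log (2 + |(k : ℝ) * τ|)) ^ (1 - η) ≤ C * (D * l ^ (1 - η)) := by gcongr
        _ = _ := by ring
    have h8 : ‖riemannZeta (1 + ((1 / l : ℝ) : ℂ) + ((k * τ : ℝ) : ℂ) * I)‖ ^ κ ≤
        (C * D) ^ κ * l ^ ((1 - η) * κ) := by
      have h9 := Real.rpow_le_rpow (norm_nonneg _) (h4.trans h6) hκ0.le
      rwa [Real.mul_rpow (by positivity) (by positivity), ← Real.rpow_mul hl0.le] at h9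
    have h9 : ‖riemannZeta (1 + ((1 / l : ℝ) : ℂ))‖ ^ (1 - κ) ≤ C1 ^ (1 - κ) * l ^ (1 - κ) := by
      have h10 := Real.rpow_le_rpow (norm_nonneg _) (hpole (1 / l) ha0 ha1) (z := 1 - κ)
        (by linarith)
      rw [show C1 / (1 / l) = C1 * l by field_simp, Real.mul_rpow hC1.le hl0.le] at h10
      exact h10
    calc ‖FlF f (1 / l) τ‖ ≤ E * (‖riemannZeta (1 + ((1 / l : ℝ) : ℂ))‖ ^ (1 - κ) *
          ‖riemannZeta (1 + ((1 / l : ℝ) : ℂ) + ((k * τ : ℝ) : ℂ) * I)‖ ^ κ) :=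
            FLFa.norm_FlF_le hf hk hp ha0
      _ ≤ E * ((C1 ^ (1 - κ) * l ^ (1 - κ)) * ((C * D) ^ κ * l ^ ((1 - η) * κ))) := by gcongr
      _ = G * (l ^ (1 - κ) * l ^ ((1 - η) * κ)) := by
        rw [hG]
        ring
      _ = G * l ^ (1 - η * κ) := by
        rw [← Real.rpow_add hl0]
        congr 2
        ring
      _ ≤ (G + C3) * l ^ (1 - η * κ) := by
        gcongr
        linarith

/-- ROW ZQ for all characters: the exponent depends on the order of `χ` only. -/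
theorem flQ_lamChi (hZ : ZetaQ) {q : ℕ} [NeZero q] (χ : DirichletCharacter ℂ q) :
    ∃ θ : ℝ, 0 < θ ∧ θ ≤ 1 ∧ FlQf (lamChi χ) θ := by
  obtain ⟨η, hη, hη1, hZ⟩ := hZ
  obtain ⟨k, hk, hp⟩ := FLFa.lamChi_pow χ
  have hk2 : (2 : ℝ) ≤ k := by exact_mod_cast hk
  refine ⟨η / (k : ℝ) ^ 2, by positivity, ?_,
    flQ_of (cm_lamChi χ) hk hp (FLFa.norm_FlF_lamChi_near χ) hη hη1 hZ⟩
  rw [div_le_one (by positivity)]
  nlinarith

/-- Halász with a power saving for `λ χ` over the integers free of the primes of `P`. -/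
theorem halQ_lamChi (hZ : ZetaQ) {q : ℕ} [NeZero q] (χ : DirichletCharacter ℂ q) :
    ∃ θ : ℝ, 0 < θ ∧ HalQ (lamChi χ) θ := by
  obtain ⟨θ, hθ, _, h⟩ := flQ_lamChi hZ χ
  exact ⟨min θ (1 / 2) / 4, by positivity, halQ_of (cm_lamChi χ) h⟩

theorem HalC.mono {f : ℕ → ℂ} {θ θ' C C' : ℝ} (h : HalC f θ C) (hθ : θ' ≤ θ) (hC : 0 ≤ C)
    (hCC : C ≤ C') : HalC f θ' C' := by
  intro x hx P hP t ht
  refine (h x hx P hP t ht).trans ?_
  have hl1 : 1 ≤ Real.log x := by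
    rw [Real.le_log_iff_exp_le (by linarith)]
    have := Real.exp_one_lt_d9
    linarith
  have : (Real.log x) ^ (-θ) ≤ (Real.log x) ^ (-θ') :=
    Real.rpow_le_rpow_of_exponent_le hl1 (by linarith)
  have hx0 : 0 < x := by linarith
  have h0 : 0 ≤ (Real.log x) ^ (-θ) := by positivity
  have hC' : 0 ≤ C' := hC.trans hCC
  have h1 : C * x * (Real.log x) ^ (-θ) ≤ C' * x * (Real.log x) ^ (-θ') := by
    gcongr
  exact mul_le_mul_of_nonneg_right h1 (Real.exp_pos _).le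

/-- one exponent and one constant for all characters modulo `q`. -/
theorem halC_lamChi (hZ : ZetaQ) (q : ℕ) [NeZero q] : ∃ θ : ℝ, 0 < θ ∧ θ ≤ 1 ∧ ∃ C : ℝ, 0 < C ∧
    ∀ χ : DirichletCharacter ℂ q, HalC (lamChi χ) θ C := by
  classical
  choose θ hθ C hC h using fun χ : DirichletCharacter ℂ q => halQ_lamChi hZ χ
  have : Fintype (DirichletCharacter ℂ q) := Fintype.ofFinite _
  obtain ⟨t, ht0, ht1, ht⟩ : ∃ t : ℝ, 0 < t ∧ t ≤ 1 ∧ ∀ χ, t ≤ θ χ := by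
    obtain ⟨χ0, _, h0⟩ := Finset.exists_min_image (Finset.univ : Finset (DirichletCharacter ℂ q)) θ
      ⟨1, mem_univ _⟩
    exact ⟨min (θ χ0) 1, lt_min (hθ χ0) one_pos, min_le_right _ _,
      fun χ => (min_le_left _ _).trans (h0 χ (mem_univ _))⟩
  refine ⟨t, ht0, ht1, ∑ χ, C χ, sum_pos (fun χ _ => hC χ) ⟨1, mem_univ _⟩, fun χ => ?_⟩
  exact HalC.mono (h χ) (ht χ) (hC χ).le
    (single_le_sum (f := C) (fun χ _ => (hC χ).le) (mem_univ χ))

end Pool.Agent.MR2
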