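import Pool.Agent.Lib.MRL.HalF

/-!
# Halász's theorem with a power saving, for completely multiplicative functions

`halQ`: if `‖F(1 + 1/log X + iτ)‖ ≤ κ log X` for all `|τ| ≤ (log X)^2`, then
`‖∑_{n ≤ X} f n‖ ≤ C (κ^{1/4} + (log X)^{-1/8}) X`, with `C` absolute.
-/

set_option autoImplicit false

open Filter Topology MeasureTheory Complex
open scoped ArithmeticFunction

namespace Pool.Agent.MR2

open Pool.Agent.MRHal

/-- The constant `K₁` of the proof. -/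
noncomputable def halK1 : ℝ := Real.exp 4 * CC ^ 2 / 4 + 1

theorem halK1_pos : 0 < halK1 := by
  unfold halK1
  positivity

theorem halCore {ε η δ κ X : ℝ} (hε : 0 < ε) (hη0 : 0 < η) (hη1 : η ≤ 1) (hη2 : η ≤ ε / 4)
    (hδ0 : 0 < δ) (hδ1 : δ ≤ 1) (hδ2 : δ ≤ ε * η / (16 * CC))
    (hκ0 : 0 < κ) (hκ : κ ≤ ε * η * δ / (32 * CC * halK1)) (hXe : Real.exp 1 ≤ X)
    (hlK : 4 * CC / η * (δ⁻¹ * (6 * Real.exp 4 / κ + 2)) + 3 ≤ ε * Real.log X / 8)
    {f : ℕ → ℂ} (hf : CM f)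
    (hF : ∀ τ : ℝ, |τ| ≤ (Real.log X) ^ 2 →
      ‖LSeries f (((1 + (Real.log X)⁻¹ : ℝ) : ℂ) + I * τ)‖ ≤ κ * Real.log X) :
    ‖ps f X‖ ≤ ε * X := by
  have hCC := CC_pos
  have hK10 := halK1_pos
  set K3 : ℝ := 6 * Real.exp 4 / κ + 2 with hK3
  have hK30 : 0 < K3 := by positivity
  set K2 : ℝ := 4 * CC / η * (δ⁻¹ * K3) + 3 with hK2
  have hK20 : 0 < K2 := by positivity
  have he : (2 : ℝ) ≤ Real.exp 1 := by
    have := Real.add_one_le_exp (1 : ℝ)
    linarith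
  have hX0 : 0 < X := by linarith
  have hX1 : 1 ≤ X := by linarith
  set l : ℝ := Real.log X with hl
  have hl1 : 1 ≤ l := by
    rw [hl, Real.le_log_iff_exp_le hX0]
    exact hXe
  have hl0 : 0 < l := by linarith
  have hlX : l ≤ X := by
    have := Real.log_le_sub_one_of_pos hX0
    linarith
  have hl2 : Real.log (2 * X) ≤ 2 * l := by
    rw [Real.log_mul (by norm_num) hX0.ne']
    have := Real.log_le_log (by norm_num) (he.trans hXe)
    linarith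
  have hα0 : 0 < l⁻¹ := by positivity
  have hα1 : l⁻¹ ≤ 1 := inv_le_one_of_one_le₀ hl1
  -- second moment of `N`
  have hN := N_second hf hα0 hα1 (by positivity : 0 < l ^ 2) hF
  have hN' : (∫ u in Set.Ioi (0 : ℝ), ‖ps (fl f) u‖ ^ 2 * u ^ (-1 - 2 * (1 + l⁻¹))) ≤
      κ ^ 2 * CC ^ 2 * l ^ 3 / 2 + 12 * l ^ 2 := by
    refine hN.trans (le_of_eq ?_)
    field_simp
  have hI := N3_le hf.le hXe (N_int hf.le hα0)
  rw [← hl] at hI
  set I : ℝ := ∫ u in Set.Ioc 0 (2 * X), ‖ps (fl f) u‖ ^ 2 / u ^ 3 with hIdef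
  have hI2 : I ≤ Real.exp 4 * (κ ^ 2 * CC ^ 2 * l ^ 3 / 2 + 12 * l ^ 2) := by
    refine hI.trans ?_
    gcongr
  have hJ := J_le hf.le hXe hδ0 hδ1 (by positivity : 0 < 1 / (κ * l))
  rw [← hl, ← hIdef] at hJ
  set J : ℝ := ∫ u in Set.Ioc 0 (2 * X), ‖ps f u‖ / u ^ 2 with hJdef
  have hJ2 : J ≤ δ * l + δ⁻¹ * (κ * halK1 * l + K3) := by
    refine hJ.trans ?_
    have h1 : 1 / (κ * l) / 2 * I + ((2 * (1 / (κ * l)))⁻¹ + 1) * Real.log (2 * X) ≤
        1 / (κ * l) / 2 * (Real.exp 4 * (κ ^ 2 * CC ^ 2 * l ^ 3 / 2 + 12 * l ^ 2)) +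
          ((2 * (1 / (κ * l)))⁻¹ + 1) * (2 * l) := by gcongr
    have h2 : 1 / (κ * l) / 2 * (Real.exp 4 * (κ ^ 2 * CC ^ 2 * l ^ 3 / 2 + 12 * l ^ 2)) +
          ((2 * (1 / (κ * l)))⁻¹ + 1) * (2 * l) = κ * halK1 * l ^ 2 + K3 * l := by
      rw [halK1, hK3]
      field_simp
      ring
    rw [h2] at h1
    calc δ * l + (δ * l)⁻¹ * (1 / (κ * l) / 2 * I +
        ((2 * (1 / (κ * l)))⁻¹ + 1) * Real.log (2 * X))
        ≤ δ * l + (δ * l)⁻¹ * (κ * halK1 * l ^ 2 + K3 * l) := by gcongr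
      _ = _ := by
        field_simp
  have hA := avg hf hX1 hη0 hη1
  rw [← hl, ← hJdef] at hA
  -- the constants
  have hc1 : 4 * CC / η * δ ≤ ε / 4 := by
    calc 4 * CC / η * δ ≤ 4 * CC / η * (ε * η / (16 * CC)) := by gcongr
      _ = ε / 4 := by
        field_simp
        norm_num
  have hc2 : 4 * CC / η * (δ⁻¹ * (κ * halK1)) ≤ ε / 8 := by
    calc 4 * CC / η * (δ⁻¹ * (κ * halK1)) ≤
        4 * CC / η * (δ⁻¹ * (ε * η * δ / (32 * CC * halK1) * halK1)) := by gcongr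
      _ = ε / 8 := by
        field_simp
        norm_num
  have hfin : ‖ps f X‖ * l ≤ (ε * X) * l := by
    calc ‖ps f X‖ * l ≤ 4 * CC / η * X * J + (2 * X + (η * X + 1) * l) := hA
      _ ≤ 4 * CC / η * X * (δ * l + δ⁻¹ * (κ * halK1 * l + K3)) + (2 * X + (η * X * l + X)) := by
        have : (η * X + 1) * l ≤ η * X * l + X := by nlinarith
        gcongr
      _ = X * l * (4 * CC / η * δ + 4 * CC / η * (δ⁻¹ * (κ * halK1)) + η) + X * K2 := by
        rw [hK2]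
        ring
      _ ≤ X * l * (ε / 4 + ε / 8 + ε / 4) + X * (ε * l / 8) := by
        gcongr
      _ ≤ (ε * X) * l := by
        have : 0 < X * l * ε := by positivity
        nlinarith
  exact le_of_mul_le_mul_right hfin hl0

/-- Halász's theorem with explicit dependence on `ε`. -/
theorem halE : ∃ K : ℝ, 1 ≤ K ∧ ∀ ε : ℝ, 0 < ε → ε ≤ 1 → ∀ X : ℝ, Real.exp 1 ≤ X →
    K * ε⁻¹ ^ 8 ≤ Real.log X → ∀ f : ℕ → ℂ, CM f →
    (∀ τ : ℝ, |τ| ≤ (Real.log X) ^ 2 →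
      ‖LSeries f (((1 + (Real.log X)⁻¹ : ℝ) : ℂ) + I * τ)‖ ≤ ε ^ 4 / K * Real.log X) →
    ‖ps f X‖ ≤ ε * X := by
  have hCC := CC_pos
  have hC4 : 4 ≤ CC := by
    unfold CC
    have := Real.log_pos (by norm_num : (1 : ℝ) < 4)
    linarith
  have hK10 := halK1_pos
  set A : ℝ := 8192 * CC ^ 2 * halK1 with hA
  have hA0 : 0 < A := by positivity
  set B : ℝ := 1024 * CC ^ 2 * (6 * Real.exp 4 * A + 2) + 3 with hB
  have hB0 : 0 < B := by positivity
  have hA1 : 1 ≤ A := by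
    have h1 : 1 ≤ halK1 := by
      unfold halK1
      have : 0 ≤ Real.exp 4 * CC ^ 2 / 4 := by positivity
      linarith
    have h2 : 16 ≤ CC ^ 2 := by nlinarith
    nlinarith
  refine ⟨max A (8 * B), hA1.trans (le_max_left _ _), ?_⟩
  set K : ℝ := max A (8 * B) with hK
  have hKA : A ≤ K := le_max_left _ _
  have hKB : 8 * B ≤ K := le_max_right _ _
  have hK0 : 0 < K := by linarith
  intro ε hε hε1 X hX hlK f hf hF
  set e : ℝ := ε⁻¹ with he
  have he1 : 1 ≤ e := (one_le_inv₀ hε).2 hε1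
  have he0 : 0 < e := by positivity
  have hee : ε * e = 1 := mul_inv_cancel₀ hε.ne'
  have heX : Real.exp 1 ≤ X := hX
  have hl1 : 1 ≤ Real.log X := by
    have hX0 : 0 < X := lt_of_lt_of_le (Real.exp_pos 1) hX
    rw [Real.le_log_iff_exp_le hX0]
    exact hX
  have hl0 : 0 < Real.log X := by linarith
  refine halCore (ε := ε) (η := ε / 4) (δ := ε ^ 2 / (64 * CC)) (κ := ε ^ 4 / A) (X := X)
    hε (by positivity) (by linarith) le_rfl (by positivity) ?_ ?_ (by positivity) ?_ hX ?_ hf ?_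
  · rw [div_le_one (by positivity)]
    nlinarith
  · refine le_of_eq ?_
    field_simp
    norm_num
  · refine le_of_eq ?_
    rw [hA]
    field_simp
    norm_num
  · have h1 : 4 * CC / (ε / 4) * ((ε ^ 2 / (64 * CC))⁻¹ * (6 * Real.exp 4 / (ε ^ 4 / A) + 2)) + 3 =
        1024 * CC ^ 2 * e ^ 3 * (6 * Real.exp 4 * A * e ^ 4 + 2) + 3 := by
      rw [he]
      field_simp
      ring
    rw [h1]
    have h2 : 1024 * CC ^ 2 * e ^ 3 * (6 * Real.exp 4 * A * e ^ 4 + 2) + 3 ≤ B * e ^ 7 := by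
      have h3 : (1 : ℝ) ≤ e ^ 4 := one_le_pow₀ he1
      have h4 : (1 : ℝ) ≤ e ^ 7 := one_le_pow₀ he1
      calc 1024 * CC ^ 2 * e ^ 3 * (6 * Real.exp 4 * A * e ^ 4 + 2) + 3
          ≤ 1024 * CC ^ 2 * e ^ 3 * (6 * Real.exp 4 * A * e ^ 4 + 2 * e ^ 4) + 3 * e ^ 7 := by
            gcongr
            · linarith
            · linarith
        _ = B * e ^ 7 := by
          rw [hB]
          ring
    refine h2.trans ?_
    have h5 : 8 * B * e ^ 8 ≤ Real.log X := by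
      refine le_trans ?_ hlK
      gcongr
    calc B * e ^ 7 = (ε * e) * (B * e ^ 7) := by rw [hee, one_mul]
      _ = ε * (8 * B * e ^ 8) / 8 := by ring
      _ ≤ ε * Real.log X / 8 := by gcongr
  · intro τ hτ
    refine (hF τ hτ).trans ?_
    gcongr

/-- Halász's theorem with a power saving. -/
theorem halQ : ∃ C : ℝ, 0 < C ∧ ∀ X : ℝ, Real.exp 1 ≤ X → ∀ κ : ℝ, 0 ≤ κ → ∀ f : ℕ → ℂ, CM f →
    (∀ τ : ℝ, |τ| ≤ (Real.log X) ^ 2 →
      ‖LSeries f (((1 + (Real.log X)⁻¹ : ℝ) : ℂ) + I * τ)‖ ≤ κ * Real.log X) →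
    ‖ps f X‖ ≤ C * (κ ^ (1 / 4 : ℝ) + (Real.log X) ^ (-(1 / 8) : ℝ)) * X := by
  obtain ⟨K, hK1, hK⟩ := halE
  have hK0 : 0 < K := by linarith
  refine ⟨K, hK0, ?_⟩
  intro X hX κ hκ f hf hF
  have hX0 : 0 < X := lt_of_lt_of_le (Real.exp_pos 1) hX
  have hl1 : 1 ≤ Real.log X := by
    rw [Real.le_log_iff_exp_le hX0]
    exact hX
  set l : ℝ := Real.log X with hl
  have hl0 : 0 < l := by linarith
  set r : ℝ := l ^ (-(1 / 8) : ℝ) with hr
  set s : ℝ := κ ^ (1 / 4 : ℝ) with hs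
  have hr0 : 0 < r := Real.rpow_pos_of_pos hl0 _
  have hs0 : 0 ≤ s := Real.rpow_nonneg hκ _
  have hr8 : r⁻¹ ^ 8 = l := by
    rw [hr, ← Real.rpow_neg hl0.le, ← Real.rpow_natCast, ← Real.rpow_mul hl0.le]
    norm_num
  have hs4 : s ^ 4 = κ := by
    rw [hs, ← Real.rpow_natCast, ← Real.rpow_mul hκ]
    norm_num
  set ε : ℝ := K * (s + r) with hε
  have hε0 : 0 < ε := by positivity
  rcases le_or_gt ε 1 with h1 | h1
  · refine hK ε hε0 h1 X hX ?_ f hf ?_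
    · -- `K ε⁻¹ ^ 8 ≤ l`
      have h2 : K * r ≤ ε := by
        rw [hε]
        nlinarith
      have h3 : ε⁻¹ ≤ (K * r)⁻¹ := inv_anti₀ (by positivity) h2
      calc K * ε⁻¹ ^ 8 ≤ K * (K * r)⁻¹ ^ 8 := by gcongr
        _ = (K ^ 7)⁻¹ * r⁻¹ ^ 8 := by
          field_simp
        _ ≤ 1 * l := by
          rw [hr8]
          have : (K ^ 7)⁻¹ ≤ 1 := inv_le_one_of_one_le₀ (one_le_pow₀ hK1)
          gcongr
        _ = l := one_mul l
    · intro τ hτ
      refine (hF τ hτ).trans ?_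
      have h4 : κ ≤ ε ^ 4 / K := by
        rw [le_div_iff₀ hK0]
        calc κ * K = s ^ 4 * K := by rw [hs4]
          _ ≤ s ^ 4 * K ^ 4 := by
            have : K ≤ K ^ 4 := by
              calc K = K ^ 1 := (pow_one K).symm
                _ ≤ K ^ 4 := pow_le_pow_right₀ hK1 (by norm_num)
            gcongr
          _ = (K * s) ^ 4 := by ring
          _ ≤ ε ^ 4 := by
            have : K * s ≤ ε := by
              rw [hε]
              nlinarith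
            gcongr
      gcongr
  · have h2 := ps_norm_le hf.le hX0.le
    calc ‖ps f X‖ ≤ X := h2
      _ = 1 * X := (one_mul X).symm
      _ ≤ ε * X := by gcongr

end Pool.Agent.MR2
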