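import Pool.Agent.Lib.MR2.HalL

/-!
# Partial summation forms of `halLam`

`halLamA : ZetaQ → ∃ θ > 0, ∀ A, ∃ C, ∀ Q Y t, |t| ≤ Y^A →`
`|∑_{Y < m ≤ 2Y, (m,Q)=1} λ(m) m^{-1-it}| ≤ C (∏_{p ∈ Q} (1+1/p))^{1/4} (log Y)^{-θ}`,
and the same with `Y < m ≤ Y'`, `Y' ≤ K Y`, constant `C (K + 1)`.
-/

set_option autoImplicit false

namespace Pool.Agent.MR2

open Finset Complex Pool.Agent.MRL

theorem abelAux (c : ℕ → ℂ) {B : ℝ} (hB : 0 ≤ B) {N0 : ℕ} (hN0 : 1 ≤ N0) (N : ℕ) (hN : N0 ≤ N)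
    (hF : ∀ m, N0 ≤ m → m ≤ N → ‖∑ n ∈ Icc 1 m, c n‖ ≤ B * m) :
    ‖(∑ m ∈ Ioc N0 N, c m / m) - (∑ n ∈ Icc 1 N, c n) / N + (∑ n ∈ Icc 1 N0, c n) / N0‖
      ≤ B * ((N : ℝ) - N0) / N0 := by
  induction N, hN using Nat.le_induction with
  | base => simp
  | succ N hN ih =>
    have ih' := ih fun m h1 h2 => hF m h1 (by omega)
    have hFN := hF N hN (by omega)
    set S : ℂ := ∑ n ∈ Icc 1 N, c n with hS
    have hN0' : (0 : ℝ) < N0 := by exact_mod_cast hN0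
    have hNr : (N0 : ℝ) ≤ N := by exact_mod_cast hN
    have hNpos : (0 : ℝ) < N := by linarith
    have hNc : (N : ℂ) ≠ 0 := by exact_mod_cast hNpos.ne'
    have hNc1 : ((N : ℂ) + 1) ≠ 0 := by exact_mod_cast (Nat.succ_ne_zero N)
    have key : (∑ m ∈ Ioc N0 (N + 1), c m / m)
          - (∑ n ∈ Icc 1 (N + 1), c n) / ((N + 1 : ℕ) : ℂ) + (∑ n ∈ Icc 1 N0, c n) / N0
        = ((∑ m ∈ Ioc N0 N, c m / m) - S / N + (∑ n ∈ Icc 1 N0, c n) / N0)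
          + S / ((N : ℂ) * (N + 1)) := by
      rw [Finset.sum_Ioc_succ_top hN, Finset.sum_Icc_succ_top (by omega), ← hS]
      push_cast
      field_simp
      ring
    have hb : ‖S / ((N : ℂ) * (N + 1))‖ ≤ B / N0 := by
      have h1 : ‖((N : ℂ) * (N + 1))‖ = (N : ℝ) * (N + 1) := by
        have : ((N : ℂ) * (N + 1)) = (((N : ℝ) * (N + 1) : ℝ) : ℂ) := by push_cast; ring
        rw [this, Complex.norm_real, Real.norm_of_nonneg (by positivity)]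
      rw [norm_div, h1, div_le_div_iff₀ (by positivity) hN0']
      calc ‖S‖ * N0 ≤ (B * N) * (N + 1) := by
            apply mul_le_mul hFN (by linarith) hN0'.le (by positivity)
        _ = B * (N * (N + 1)) := by ring
    rw [key]
    calc _ ≤ _ := norm_add_le _ _
      _ ≤ B * ((N : ℝ) - N0) / N0 + B / N0 := add_le_add ih' hb
      _ = B * (((N + 1 : ℕ) : ℝ) - N0) / N0 := by push_cast; ring

/-- partial summation: `|∑_{N₀ < m ≤ N₁} c_m / m| ≤ B (2 + (N₁ - N₀)/N₀)` when all partial sums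
satisfy `|∑_{n ≤ m} c_n| ≤ B m`. -/
theorem abelG (c : ℕ → ℂ) {B : ℝ} (hB : 0 ≤ B) {N0 : ℕ} (hN0 : 1 ≤ N0) (N : ℕ) (hN : N0 ≤ N)
    (hF : ∀ m, N0 ≤ m → m ≤ N → ‖∑ n ∈ Icc 1 m, c n‖ ≤ B * m) :
    ‖∑ m ∈ Ioc N0 N, c m / m‖ ≤ B * (2 + ((N : ℝ) - N0) / N0) := by
  have h8 := abelAux c hB hN0 N hN hF
  have h9 : ∀ m, N0 ≤ m → m ≤ N → ‖(∑ n ∈ Icc 1 m, c n) / (m : ℂ)‖ ≤ B := by
    intro m hm hm2
    have hmr : (1 : ℝ) ≤ m := by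
      exact_mod_cast hN0.trans hm
    rw [norm_div, Complex.norm_natCast, div_le_iff₀ (by linarith)]
    exact hF m hm hm2
  have h11 : (∑ m ∈ Ioc N0 N, c m / m)
      = ((∑ m ∈ Ioc N0 N, c m / m) - (∑ n ∈ Icc 1 N, c n) / N + (∑ n ∈ Icc 1 N0, c n) / N0)
        + (∑ n ∈ Icc 1 N, c n) / N - (∑ n ∈ Icc 1 N0, c n) / N0 := by ring
  rw [h11]
  calc _ ≤ _ := norm_sub_le _ _
    _ ≤ (‖(∑ m ∈ Ioc N0 N, c m / m) - (∑ n ∈ Icc 1 N, c n) / N + (∑ n ∈ Icc 1 N0, c n) / N0‖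
        + ‖(∑ n ∈ Icc 1 N, c n) / (N : ℂ)‖) + ‖(∑ n ∈ Icc 1 N0, c n) / (N0 : ℂ)‖ := by
        gcongr; exact norm_add_le _ _
    _ ≤ (B * ((N : ℝ) - N0) / N0 + B) + B := by
        gcongr
        · exact h9 N hN le_rfl
        · exact h9 N0 le_rfl hN
    _ = B * (2 + ((N : ℝ) - N0) / N0) := by ring

/-- the partial summation form of `halLam`, with a free upper end point. -/
theorem halLamK (hZ : ZetaQ) : ∃ θ : ℝ, 0 < θ ∧ ∀ A : ℝ, 1 ≤ A →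
    ∃ C : ℝ, 0 < C ∧ ∀ (Q : Finset ℕ), (∀ p ∈ Q, p.Prime) → ∀ K : ℝ, 1 ≤ K → ∀ Y Y' : ℝ,
      Real.exp 2 ≤ Y → Y ≤ Y' → Y' ≤ K * Y → ∀ t : ℝ, |t| ≤ Y ^ A →
      ‖∑ m ∈ Ioc ⌊Y⌋₊ ⌊Y'⌋₊, cut Q (fun m => ((lam m / m : ℝ) : ℂ) * nt m t) m‖ ≤
        C * K * (∏ p ∈ Q, (1 + 1 / (p : ℝ))) ^ (1 / 4 : ℝ) * (Real.log Y) ^ (-θ) := by
  obtain ⟨θ, hθ, h⟩ := halLam hZ
  refine ⟨θ, hθ, fun A hA => ?_⟩
  obtain ⟨C, hC, h⟩ := h A hA
  refine ⟨8 * C, by positivity, fun Q hQ K hK Y Y' hY hYY hYK t ht => ?_⟩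
  have he : (7 : ℝ) ≤ Real.exp 2 := by
    have h1 := Real.exp_one_gt_d9
    have h2 : Real.exp 2 = Real.exp 1 * Real.exp 1 := by
      rw [← Real.exp_add]
      norm_num
    rw [h2]
    nlinarith
  have hY7 : 7 ≤ Y := he.trans hY
  have hY0 : 0 < Y := by linarith
  set P : ℝ := (∏ p ∈ Q, (1 + 1 / (p : ℝ))) ^ (1 / 4 : ℝ) with hP
  have hP0 : 0 < P := Real.rpow_pos_of_pos (by linarith [one_le_prodQ Q]) _
  have hlY : 2 ≤ Real.log Y := by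
    rw [Real.le_log_iff_exp_le hY0]
    exact hY
  set lθ : ℝ := (Real.log Y) ^ (-θ) with hlθ
  have hlθ0 : 0 < lθ := Real.rpow_pos_of_pos (by linarith) _
  obtain ⟨N0, hN0def⟩ : ∃ N0, N0 = ⌊Y⌋₊ := ⟨_, rfl⟩
  obtain ⟨N1, hN1def⟩ : ∃ N1, N1 = ⌊Y'⌋₊ := ⟨_, rfl⟩
  have h1 : (N0 : ℝ) ≤ Y := by rw [hN0def]; exact Nat.floor_le (by linarith)
  have h2 : Y < N0 + 1 := by rw [hN0def]; exact Nat.lt_floor_add_one Y
  have h3 : (N1 : ℝ) ≤ Y' := by rw [hN1def]; exact Nat.floor_le (by linarith)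
  have h4 : N0 ≤ N1 := by
    rw [hN0def, hN1def]; exact Nat.floor_mono hYY
  have h5 : 1 ≤ N0 := by
    have : (1 : ℝ) < N0 := by linarith
    exact_mod_cast this.le
  have h5r : (1 : ℝ) ≤ N0 := by exact_mod_cast h5
  set B : ℝ := 2 * (C * P * lθ) with hB
  have hB0 : 0 ≤ B := by positivity
  have hF : ∀ m, N0 ≤ m → m ≤ N1 →
      ‖∑ n ∈ Icc 1 m, cut Q (fun n => ((lam n : ℝ) : ℂ) * nt n t) n‖ ≤ B * m := by
    intro m hm _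
    have hmr : (N0 : ℝ) ≤ m := by exact_mod_cast hm
    have hfl : ⌊max (m : ℝ) Y⌋₊ = m := by
      rcases le_total (m : ℝ) Y with hc | hc
      · rw [max_eq_right hc, ← hN0def]
        apply le_antisymm hm
        rw [hN0def]
        exact Nat.le_floor hc
      · rw [max_eq_left hc, Nat.floor_natCast]
    have hYm : Y ≤ max (m : ℝ) Y := le_max_right _ _
    have h6 := h Q hQ (max (m : ℝ) Y) (by
        have := Real.exp_le_exp.2 (show (1 : ℝ) ≤ 2 by norm_num)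
        linarith) t (ht.trans (Real.rpow_le_rpow hY0.le hYm (by linarith)))
    rw [hfl, ← hP] at h6
    have h7 : max (m : ℝ) Y ≤ 2 * m := by
      apply max_le <;> linarith
    have h8 : (Real.log (max (m : ℝ) Y)) ^ (-θ) ≤ lθ := by
      rw [hlθ]
      exact Real.rpow_le_rpow_of_nonpos (by linarith) (Real.log_le_log hY0 hYm) (by linarith)
    have h9 : 0 ≤ (Real.log (max (m : ℝ) Y)) ^ (-θ) :=
      Real.rpow_nonneg (Real.log_nonneg (by linarith)) _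
    calc _ ≤ C * P * (Real.log (max (m : ℝ) Y)) ^ (-θ) * max (m : ℝ) Y := h6
      _ ≤ C * P * lθ * (2 * m) := by gcongr
      _ = B * m := by
        rw [hB]
        ring
  have h8 := abelG _ hB0 h5 N1 h4 hF
  have h9 : ∑ m ∈ Ioc ⌊Y⌋₊ ⌊Y'⌋₊, cut Q (fun m => ((lam m / m : ℝ) : ℂ) * nt m t) m =
      ∑ m ∈ Ioc N0 N1, cut Q (fun n => ((lam n : ℝ) : ℂ) * nt n t) m / m := by
    rw [hN0def, hN1def]
    refine sum_congr rfl fun m _ => ?_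
    unfold cut
    split_ifs
    · push_cast
      ring
    · simp
  rw [h9]
  refine h8.trans ?_
  have h10 : 2 + ((N1 : ℝ) - N0) / N0 ≤ 4 * K := by
    have h11 : ((N1 : ℝ) - N0) / N0 ≤ 2 * K - 1 := by
      rw [div_le_iff₀ (by linarith)]
      nlinarith
    linarith
  calc B * (2 + ((N1 : ℝ) - N0) / N0) ≤ B * (4 * K) := by gcongr
    _ = 8 * C * K * P * lθ := by
      rw [hB]
      ring

/-- the dyadic partial summation form of `halLam`. -/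
theorem halLamA (hZ : ZetaQ) : ∃ θ : ℝ, 0 < θ ∧ ∀ A : ℝ, 1 ≤ A →
    ∃ C : ℝ, 0 < C ∧ ∀ (Q : Finset ℕ), (∀ p ∈ Q, p.Prime) → ∀ Y : ℝ, Real.exp 2 ≤ Y →
      ∀ t : ℝ, |t| ≤ Y ^ A →
      ‖∑ m ∈ Ioc ⌊Y⌋₊ ⌊2 * Y⌋₊, cut Q (fun m => ((lam m / m : ℝ) : ℂ) * nt m t) m‖ ≤
        C * (∏ p ∈ Q, (1 + 1 / (p : ℝ))) ^ (1 / 4 : ℝ) * (Real.log Y) ^ (-θ) := by
  obtain ⟨θ, hθ, h⟩ := halLamK hZ
  refine ⟨θ, hθ, fun A hA => ?_⟩
  obtain ⟨C, hC, h⟩ := h A hA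
  refine ⟨C * 2, by positivity, fun Q hQ Y hY t ht => ?_⟩
  have hY0 : 0 < Y := lt_of_lt_of_le (Real.exp_pos 2) hY
  exact h Q hQ 2 (by norm_num) Y (2 * Y) hY (by linarith) le_rfl t ht

end Pool.Agent.MR2
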