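import Pool.Agent.Lib.MR2.StatL
import Pool.Agent.Lib.MRAP.Chain

/-! TANK MR2, row LK2: the quantitative linking statement `Link2`. helper26 (after the files
MRAP/Chain of helper42 and MRAP/Link of helper4). -/

set_option autoImplicit false

namespace Pool.Agent.MR2

open Finset Pool.Agent.MRL Pool.Agent.MRAP

namespace LK2

/-- **The chain, uniform in `c`, `R`, `t`.** -/
theorem chain_unif {q a : ℕ} {c R t : ℝ} (hq : 1 ≤ q) (hc : 0 < c) (hc1 : c ≤ 1)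
    (hR : 1000 * q ≤ c * R) (ht : 10000 ≤ t) (hE : ConstA q a t (c * √t))
    {n b1 b2 D w w' M d : ℕ} (hb1 : b1 ∣ n) (hb2 : b2 ∣ n + q)
    (hna : n ≡ a [MOD q]) (hM1' : M ≡ 1 [MOD q])
    (hn1 : R * √t < n) (hn2 : (n : ℝ) ≤ 1.01 * R * √t)
    (hM0 : (M : ℝ) ≤ t / n) (hM1 : t / n < M + c ^ 2 / (200 * q))
    (hD : 0 < D) (hd0 : 0 < d) (hqD : q ∣ D)
    (hdv1 : d ∣ b1 * M + w' * D) (hdv2 : d ∣ b2 * M + w * D)
    (hcase : (b2 * w' + d = b1 * w ∧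
        (t / n - M + 0.25 * (c / R) < (w' : ℝ) * D / b1) ∧ ((w' : ℝ) * D / b1 < t / n - M + 0.45 * (c / R)) ∧
        (t / n - M + 0.75 * (c / R) < (w : ℝ) * D / b2) ∧ ((w : ℝ) * D / b2 < t / n - M + 0.95 * (c / R))) ∨
      (b1 * w + d = b2 * w' ∧
        (t / n - M + 0.25 * (c / R) < (w : ℝ) * D / b2) ∧ ((w : ℝ) * D / b2 < t / n - M + 0.45 * (c / R)) ∧
        (t / n - M + 0.75 * (c / R) < (w' : ℝ) * D / b1) ∧ ((w' : ℝ) * D / b1 < t / n - M + 0.95 * (c / R)))) :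
    lam n = lam (n + q) := by
  obtain ⟨n1, n2, m1, m2, p, e1, e2, e3, e4, e5, i1, i2, i3, i4, key, r2, r4⟩ :=
    chain_fourA hq hc hc1 hR ht hb1 hb2 hn1 hn2 hM0 hM1 hD hd0 hdv1 hdv2 hcase
  obtain ⟨D', hD'⟩ := hqD
  have s1 : n1 * (d * m1) ≡ a [MOD q] := by
    have e : n1 * (d * m1) = n * M + q * (n1 * w' * D') := by
      rw [← e3, e1, hD']; ring
    rw [e]
    refine (add_mod_aux _ _ _).trans ?_
    have := hna.mul hM1'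
    rwa [mul_one] at this
  have s3 : n2 * (d * m2) ≡ a [MOD q] := by
    have e : n2 * (d * m2) = (n * M + q * (M + n2 * w * D')) := by
      have : n2 * (d * m2) = (b2 * n2) * M + n2 * w * D := by rw [← e4]; ring
      rw [this, ← e2, hD']; ring
    rw [e]
    refine (add_mod_aux _ _ _).trans ?_
    have := hna.mul hM1'
    rwa [mul_one] at this
  have s2 := r2.trans s1
  have s4 := r4.trans s3
  exact key (hE _ _ i1.1 i1.2 s1 i2.1 i2.2 s2) (hE _ _ i4.1 i4.2 s4 i3.1 i3.2 s3)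

/-- body of `SecondMoment2`. -/
def SMb (c0 : ℝ) (C0 : ℕ) : Prop := ∀ (q b B W : ℕ) (κ f : ℝ), 1 ≤ q →
  0 < κ → κ ≤ 1 / 1000 → 0 ≤ f → f ≤ 1 / 200 → b.Prime → B.Prime → b < B →
  ((q : ℝ) / κ) ^ C0 ≤ W → (W : ℝ) ^ C0 ≤ b → 1 + Real.log B ≤ √b →
  ∀ (S : Finset ℕ) (M : ℕ → ℕ) (A η : ℝ), 0 ≤ A → 0 ≤ η →
  (∀ m r : ℕ, 0 < m → m ≤ B ^ 4 →
    |((S.filter fun n => M n % m = r % m).card : ℝ) - A / m| ≤ η) →
  ∀ S' ⊆ S, (∀ n ∈ S', ¬ Sol q κ f b B (M n)) →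
  (S'.card : ℝ) ≤ (q : ℝ) ^ 3 * A / (c0 * κ * Real.log W) + η * (B : ℝ) ^ C0

/-- body of `Equi2`. -/
def Eqb (t : ℝ) : Prop := ∀ (q r Q M0 : ℕ) (u u' R : ℝ), 0 < q → 0 < Q →
  (q : ℝ) ≤ t ^ (1 / 100 : ℝ) → (Q : ℝ) ≤ t ^ (1 / 100 : ℝ) → 0 ≤ u → u ≤ u' → u' ≤ 1 →
  1 ≤ R → R ≤ t ^ (1 / 100 : ℝ) →
  |(((Icc 1 ⌊1.01 * R * √t⌋₊).filter fun n : ℕ => R * √t < n ∧ n % q = r % q ∧
      ⌊t / n⌋₊ % Q = M0 % Q ∧ u ≤ Int.fract (t / n) ∧ Int.fract (t / n) < u').card : ℝ)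
    - (u' - u) * (0.01 * R) / (q * Q) * √t| ≤ t ^ (9 / 20 : ℝ)

/-- the second moment on one residue class and one cell. -/
theorem core {c0 : ℝ} {C0 : ℕ} (h2 : SMb c0 C0) {t g R y z : ℝ} {q W : ℕ} (h3 : Eqb t)
    (hq : 1 ≤ q) (hg : 0 < g) (hg1 : g ≤ 1 / 1000) (hR1 : 1 ≤ R) (hRt : R ≤ t ^ (1 / 100 : ℝ))
    (ht : 0 ≤ t) (hW1 : ((q : ℝ) / g) ^ C0 ≤ W) (hW2 : (W : ℝ) ^ C0 ≤ y)
    (hyz : 1 + Real.log z ≤ √y) (hz : z ^ 4 ≤ t ^ (1 / 100 : ℝ)) (hz1 : 1 ≤ z)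
    {b B : ℕ} (hb : b.Prime) (hB : B.Prime) (hbB : b < B) (hyb : y ≤ b) (hBz : (B : ℝ) ≤ z)
    {f : ℝ} (hf : 0 ≤ f) (hf' : f ≤ 1 / 200) (r : ℕ)
    (s : Finset ℕ) (hs : ∀ n ∈ s, R * √t < n ∧ (n : ℝ) ≤ 1.01 * R * √t ∧ n ≡ r [MOD (b * B)] ∧
      f ≤ Int.fract (t / n) ∧ Int.fract (t / n) < f + 0.05 * g ∧ ¬ Sol q g f b B ⌊t / n⌋₊) :
    (s.card : ℝ) ≤ (q : ℝ) ^ 3 * (0.0005 * R * √t / (b * B)) / (c0 * Real.log W)
      + t ^ (9 / 20 : ℝ) * z ^ C0 := by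
  classical
  have hb0 : (0 : ℝ) < b := by exact_mod_cast hb.pos
  have hB0 : (0 : ℝ) < B := by exact_mod_cast hB.pos
  have hbB' : (b : ℝ) ≤ B := by exact_mod_cast hbB.le
  have hz0 : 0 < z := by linarith
  have hz2 : (b : ℝ) * B ≤ z ^ 4 := by
    calc (b : ℝ) * B ≤ z * z := by
          apply mul_le_mul (hbB'.trans hBz) hBz hB0.le hz0.le
      _ = z ^ 2 := by ring
      _ ≤ z ^ 4 := pow_le_pow_right₀ hz1 (by norm_num)
  have key := h2 q b B W g f hq hg hg1 hf hf' hb hB hbB hW1 (hW2.trans hyb)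
    (by
      have k1 : Real.log B ≤ Real.log z := Real.log_le_log hB0 hBz
      have k2 : √y ≤ √(b : ℝ) := Real.sqrt_le_sqrt hyb
      linarith)
    ((Icc 1 ⌊1.01 * R * √t⌋₊).filter fun n : ℕ => R * √t < n ∧ n % (b * B) = r % (b * B) ∧
      f ≤ Int.fract (t / n) ∧ Int.fract (t / n) < f + 0.05 * g)
    (fun n => ⌊t / n⌋₊) (0.05 * g * (0.01 * R) / (b * B) * √t) (t ^ (9 / 20 : ℝ))
    (by positivity) (by positivity)
    (by
      intro m r' hm hmB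
      have hmr : (m : ℝ) ≤ t ^ (1 / 100 : ℝ) := by
        have k1 : (m : ℝ) ≤ (B : ℝ) ^ 4 := by exact_mod_cast hmB
        have k2 : (B : ℝ) ^ 4 ≤ z ^ 4 := by gcongr
        linarith
      have k3 := h3 (b * B) r m r' f (f + 0.05 * g) R (Nat.mul_pos hb.pos hB.pos) hm
        (by push_cast; linarith) hmr hf (by nlinarith) (by norm_num at hg1 ⊢; linarith) hR1 hRt
      have e1 : (((Icc 1 ⌊1.01 * R * √t⌋₊).filter fun n : ℕ => R * √t < n ∧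
          n % (b * B) = r % (b * B) ∧ f ≤ Int.fract (t / n) ∧
          Int.fract (t / n) < f + 0.05 * g).filter fun n : ℕ => ⌊t / (n : ℝ)⌋₊ % m = r' % m) =
          (Icc 1 ⌊1.01 * R * √t⌋₊).filter fun n : ℕ => R * √t < n ∧ n % (b * B) = r % (b * B) ∧
          ⌊t / (n : ℝ)⌋₊ % m = r' % m ∧ f ≤ Int.fract (t / n) ∧
          Int.fract (t / n) < f + 0.05 * g := by
        ext n
        simp only [Finset.mem_filter]
        tauto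
      rw [e1]
      have e2 : 0.05 * g * (0.01 * R) / (b * B) * √t / m =
          (f + 0.05 * g - f) * (0.01 * R) / ((b * B : ℕ) * m) * √t := by
        have hm0 : (m : ℝ) ≠ 0 := by
          have : (0 : ℝ) < m := by exact_mod_cast hm
          exact this.ne'
        push_cast
        field_simp
        ring
      rw [e2]
      exact k3)
    s
    (by
      intro n hn
      obtain ⟨g1, g2, g3, g4, g5, g6⟩ := hs n hn
      have hn0 : (0 : ℝ) < n := lt_of_le_of_lt (by positivity) g1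
      rw [Finset.mem_filter, Finset.mem_Icc]
      refine ⟨⟨?_, Nat.le_floor g2⟩, g1, g3, g4, g5⟩
      exact_mod_cast hn0)
    (fun n hn => (hs n hn).2.2.2.2.2)
  have hBC : (B : ℝ) ^ C0 ≤ z ^ C0 := by gcongr
  have e3 : (q : ℝ) ^ 3 * (0.05 * g * (0.01 * R) / (b * B) * √t) / (c0 * g * Real.log W) =
      (q : ℝ) ^ 3 * (0.0005 * R * √t / (b * B)) / (c0 * Real.log W) := by
    have : (q : ℝ) ^ 3 * (0.05 * g * (0.01 * R) / (b * B) * √t) =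
        ((q : ℝ) ^ 3 * (0.0005 * R * √t / (b * B))) * g := by
      ring
    rw [this, show c0 * g * Real.log W = c0 * Real.log W * g by ring,
      mul_div_mul_right _ _ hg.ne']
  rw [e3] at key
  refine key.trans ?_
  have : 0 ≤ t ^ (9 / 20 : ℝ) := by positivity
  have := mul_le_mul_of_nonneg_left hBC this
  linarith

/-- the bound for one pair of primes and one cell. -/
theorem pair_bound {c0 : ℝ} {C0 : ℕ} (h2 : SMb c0 C0) {t c R y z : ℝ} {q a W : ℕ} (h3 : Eqb t)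
    (hq : 1 ≤ q) (hc : 0 < c) (hc1 : c ≤ 1) (hRq : 1000 * (q : ℝ) ≤ c * R) (ht : 10000 ≤ t)
    (hRt : R ≤ t ^ (1 / 100 : ℝ)) (hyp : ConstA q a t (c * √t))
    (hW1 : ((q : ℝ) / (c / R)) ^ C0 ≤ W) (hW2 : (W : ℝ) ^ C0 ≤ y)
    (hyz : 1 + Real.log z ≤ √y) (hz : z ^ 4 ≤ t ^ (1 / 100 : ℝ)) (hz1 : 1 ≤ z)
    {b1 b2 : ℕ} (hp1 : b1.Prime) (hp2 : b2.Prime) (hne : b1 ≠ b2)
    (hb1 : y ≤ b1) (hb1' : (b1 : ℝ) ≤ z) (hb2 : y ≤ b2) (hb2' : (b2 : ℝ) ≤ z)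
    {f : ℝ} (hf : 0 ≤ f) (hf' : f ≤ 1 / 200)
    (s : Finset ℕ) (hs : ∀ n ∈ s, R * √t < n ∧ (n : ℝ) ≤ 1.01 * R * √t ∧
      n ≡ a [MOD q] ∧ ⌊t / n⌋₊ ≡ 1 [MOD q] ∧
      Int.fract (t / n) < c ^ 2 / (200 * q) ∧ lam n ≠ lam (n + q) ∧ b1 ∣ n ∧ b2 ∣ n + q ∧
      f ≤ Int.fract (t / n) ∧ Int.fract (t / n) < f + 0.05 * (c / R)) :
    (s.card : ℝ) ≤ (q : ℝ) ^ 3 * (0.0005 * R * √t / (b1 * b2)) / (c0 * Real.log W)
      + t ^ (9 / 20 : ℝ) * z ^ C0 := by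
  have hq' : (1 : ℝ) ≤ q := by exact_mod_cast hq
  have hR : 1000 ≤ c * R := by linarith
  have hR0 : 0 < R := by
    by_contra hneg
    have : c * R ≤ 0 := mul_nonpos_of_nonneg_of_nonpos hc.le (not_lt.1 hneg)
    linarith
  have hR1 : 1000 ≤ R := by nlinarith
  have hg0 : 0 < c / R := by positivity
  have hg1 : c / R ≤ 1 / 1000 := by
    rw [div_le_div_iff₀ hR0 (by norm_num)]
    nlinarith
  have hco : Nat.Coprime b1 b2 := (Nat.coprime_primes hp1 hp2).2 hne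
  obtain ⟨r, hr1, hr2⟩ := Nat.chineseRemainder hco 0 (b2 * q - q)
  have hmod : ∀ n ∈ s, n ≡ r [MOD (b1 * b2)] := by
    intro n hn
    obtain ⟨g1, g2, gP1, gP2, g3, g4, g5, g6, g7, g8⟩ := hs n hn
    have k1 : n ≡ r [MOD b1] := ((Nat.modEq_zero_iff_dvd.2 g5).trans hr1.symm)
    have k2 : n ≡ r [MOD b2] := by
      refine Nat.ModEq.trans ?_ hr2.symm
      have : n + q ≡ b2 * q - q + q [MOD b2] := by
        rw [Nat.sub_add_cancel (Nat.le_mul_of_pos_left q hp2.pos)]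
        exact (Nat.modEq_zero_iff_dvd.2 g6).trans (Nat.modEq_zero_iff_dvd.2 ⟨q, rfl⟩).symm
      exact Nat.ModEq.add_right_cancel' q this
    exact (Nat.modEq_and_modEq_iff_modEq_mul hco).1 ⟨k1, k2⟩
  have ht0 : 0 ≤ t := by linarith
  have hfl : ∀ n ∈ s, (0 : ℝ) < n ∧ ((⌊t / (n : ℝ)⌋₊ : ℕ) : ℝ) ≤ t / n ∧
      t / n - (⌊t / (n : ℝ)⌋₊ : ℕ) = Int.fract (t / n) := by
    intro n hn
    obtain ⟨g1, -⟩ := hs n hn
    have hn0 : (0 : ℝ) < n := lt_of_le_of_lt (by positivity) g1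
    have h5 : (0 : ℝ) ≤ t / n := by positivity
    have h6 : ((⌊t / (n : ℝ)⌋₊ : ℕ) : ℝ) = ((⌊t / (n : ℝ)⌋ : ℤ) : ℝ) :=
      natCast_floor_eq_intCast_floor h5
    refine ⟨hn0, Nat.floor_le h5, ?_⟩
    rw [h6]
    exact Int.self_sub_floor _
  rcases lt_or_gt_of_ne hne with hlt | hgt
  · refine core h2 h3 hq hg0 hg1 (by linarith) hRt ht0 hW1 hW2 hyz hz hz1 hp1 hp2 hlt hb1 hb2'
      hf hf' r s ?_
    intro n hn
    obtain ⟨g1, g2, gP1, gP2, g3, g4, g5, g6, g7, g8⟩ := hs n hn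
    obtain ⟨hn0, hfl1, hfl2⟩ := hfl n hn
    refine ⟨g1, g2, hmod n hn, g7, g8, ?_⟩
    rintro ⟨D, w', w, d, hD, hw', hw, hd, hqD, e0, e1, e2, a1, a2, a3, a4⟩
    apply g4
    refine chain_unif hq hc hc1 hRq ht hyp (M := ⌊t / (n : ℝ)⌋₊) (w := w) (w' := w') g5 g6 gP1 gP2
      g1 g2 hfl1 (by linarith) hD hd hqD e1 e2 (Or.inl ⟨e0, ?_, ?_, ?_, ?_⟩)
    · rw [hfl2]; linarith
    · rw [hfl2]; linarith
    · rw [hfl2]; linarith
    · rw [hfl2]; linarith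
  · have hmod' : ∀ n ∈ s, n ≡ r [MOD (b2 * b1)] := by
      intro n hn
      rw [mul_comm b2 b1]
      exact hmod n hn
    have e9 : (0.0005 * R * √t / ((b1 : ℝ) * b2)) = 0.0005 * R * √t / ((b2 : ℝ) * b1) := by
      rw [mul_comm (b1 : ℝ) b2]
    rw [e9]
    refine core h2 h3 hq hg0 hg1 (by linarith) hRt ht0 hW1 hW2 hyz hz hz1 hp2 hp1 hgt hb2 hb1'
      hf hf' r s ?_
    intro n hn
    obtain ⟨g1, g2, gP1, gP2, g3, g4, g5, g6, g7, g8⟩ := hs n hn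
    obtain ⟨hn0, hfl1, hfl2⟩ := hfl n hn
    refine ⟨g1, g2, hmod' n hn, g7, g8, ?_⟩
    rintro ⟨D, w, w', d, hD, hw, hw', hd, hqD, e0, e2, e1, a1, a2, a3, a4⟩
    apply g4
    refine chain_unif hq hc hc1 hRq ht hyp (M := ⌊t / (n : ℝ)⌋₊) (w := w) (w' := w') g5 g6 gP1 gP2
      g1 g2 hfl1 (by linarith) hD hd hqD e1 e2 (Or.inr ⟨e0, ?_, ?_, ?_, ?_⟩)
    · rw [hfl2]; linarith
    · rw [hfl2]; linarith
    · rw [hfl2]; linarith
    · rw [hfl2]; linarith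

end LK2

end Pool.Agent.MR2
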