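import Pool.Agent.Lib.MR2.LK2

/-! TANK MR2, row LK2, second part: `link2`. helper26. -/

set_option autoImplicit false

namespace Pool.Agent.MR2

open Finset Pool.Agent.MRL Pool.Agent.MRAP

namespace LK2

open Filter in
theorem evL (q C0 : ℕ) (κ K1 K2 : ℝ) (hκ1 : κ ≤ 1 / 100) :
    ∀ᶠ L : ℝ in atTop, 1 ≤ L ∧ 1000 * (q : ℝ) ≤ L ^ (1 / 8 - κ) ∧ (q : ℝ) ≤ L ^ (1 / 2 : ℝ) ∧
      L ^ C0 + 1 ≤ Real.exp (√L / (C0 + 1)) ∧ 2 * ((C0 : ℝ) + 1) ≤ √L ∧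
      1 + L ^ (9 / 10 : ℝ) ≤ Real.exp (√L / 2) ∧ (40 * C0 + 1000) * L ^ (9 / 10 : ℝ) ≤ L ∧
      4 * L ≤ Real.exp (L / 100) ∧ (q : ℝ) + 2 ≤ Real.exp (√L) ∧ K1 ≤ L ^ (1 / 8 : ℝ) ∧
      K2 ≤ L ^ (2 / 25 : ℝ) := by
  have hs : Tendsto (fun L : ℝ => √L) atTop atTop := Real.tendsto_sqrt_atTop
  have e0 : ∀ᶠ L : ℝ in atTop, 1 ≤ L := eventually_ge_atTop 1
  have e1 : ∀ᶠ L : ℝ in atTop, 1000 * (q : ℝ) ≤ L ^ (1 / 8 - κ) :=
    (tendsto_rpow_atTop (by linarith)).eventually (eventually_ge_atTop _)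
  have e2 : ∀ᶠ L : ℝ in atTop, (q : ℝ) ≤ L ^ (1 / 2 : ℝ) :=
    (tendsto_rpow_atTop (by norm_num)).eventually (eventually_ge_atTop _)
  have e3 : ∀ᶠ L : ℝ in atTop, L ^ C0 + 1 ≤ Real.exp (√L / (C0 + 1)) := by
    have hb : (0 : ℝ) < 1 / (C0 + 1) := by positivity
    have k1 := (isLittleO_pow_exp_pos_mul_atTop (k := 2 * C0) hb).bound
      (by norm_num : (0 : ℝ) < 1 / 2)
    have k2 := (isLittleO_pow_exp_pos_mul_atTop (k := 0) hb).bound
      (by norm_num : (0 : ℝ) < 1 / 2)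
    filter_upwards [hs.eventually k1, hs.eventually k2, e0] with L l1 l2 l0
    have hL0 : 0 ≤ L := by linarith
    rw [Real.norm_of_nonneg (by positivity), Real.norm_of_nonneg (by positivity)] at l1 l2
    rw [pow_mul, Real.sq_sqrt hL0] at l1
    rw [pow_zero] at l2
    have e : 1 / ((C0 : ℝ) + 1) * √L = √L / (C0 + 1) := by ring
    rw [e] at l1 l2
    linarith
  have e4 : ∀ᶠ L : ℝ in atTop, 2 * ((C0 : ℝ) + 1) ≤ √L := hs.eventually (eventually_ge_atTop _)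
  have e5 : ∀ᶠ L : ℝ in atTop, 1 + L ^ (9 / 10 : ℝ) ≤ Real.exp (√L / 2) := by
    have hb : (0 : ℝ) < 1 / 2 := by positivity
    have k1 := (isLittleO_pow_exp_pos_mul_atTop (k := 2) hb).bound
      (by norm_num : (0 : ℝ) < 1 / 2)
    have k2 := (isLittleO_pow_exp_pos_mul_atTop (k := 0) hb).bound
      (by norm_num : (0 : ℝ) < 1 / 2)
    filter_upwards [hs.eventually k1, hs.eventually k2, e0] with L l1 l2 l0
    have hL0 : 0 ≤ L := by linarith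
    rw [Real.norm_of_nonneg (by positivity), Real.norm_of_nonneg (by positivity)] at l1 l2
    rw [Real.sq_sqrt hL0] at l1
    rw [pow_zero] at l2
    have e : 1 / (2 : ℝ) * √L = √L / 2 := by ring
    rw [e] at l1 l2
    have h9 : L ^ (9 / 10 : ℝ) ≤ L := by
      calc L ^ (9 / 10 : ℝ) ≤ L ^ (1 : ℝ) :=
            Real.rpow_le_rpow_of_exponent_le l0 (by norm_num)
        _ = L := Real.rpow_one L
    linarith
  have e6 : ∀ᶠ L : ℝ in atTop, (40 * C0 + 1000) * L ^ (9 / 10 : ℝ) ≤ L := by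
    have k : ∀ᶠ L : ℝ in atTop, (40 * C0 + 1000 : ℝ) ≤ L ^ (1 / 10 : ℝ) :=
      (tendsto_rpow_atTop (by norm_num)).eventually (eventually_ge_atTop _)
    filter_upwards [k, e0] with L l1 l0
    have hL0 : 0 < L := by linarith
    calc (40 * C0 + 1000) * L ^ (9 / 10 : ℝ) ≤ L ^ (1 / 10 : ℝ) * L ^ (9 / 10 : ℝ) := by gcongr
      _ = L := by
          rw [← Real.rpow_add hL0]
          norm_num
  have e7 : ∀ᶠ L : ℝ in atTop, 4 * L ≤ Real.exp (L / 100) := by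
    have hb : (0 : ℝ) < 1 / 100 := by positivity
    have k1 := (isLittleO_pow_exp_pos_mul_atTop (k := 1) hb).bound
      (by norm_num : (0 : ℝ) < 1 / 4)
    filter_upwards [k1, e0] with L l1 l0
    have hL0 : 0 ≤ L := by linarith
    rw [Real.norm_of_nonneg (by positivity), Real.norm_of_nonneg (by positivity)] at l1
    rw [pow_one] at l1
    have e : 1 / (100 : ℝ) * L = L / 100 := by ring
    rw [e] at l1
    linarith
  have e8 : ∀ᶠ L : ℝ in atTop, (q : ℝ) + 2 ≤ Real.exp (√L) :=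
    (Real.tendsto_exp_atTop.comp hs).eventually (eventually_ge_atTop _)
  have e9 : ∀ᶠ L : ℝ in atTop, K1 ≤ L ^ (1 / 8 : ℝ) :=
    (tendsto_rpow_atTop (by norm_num)).eventually (eventually_ge_atTop _)
  have e10 : ∀ᶠ L : ℝ in atTop, K2 ≤ L ^ (2 / 25 : ℝ) :=
    (tendsto_rpow_atTop (by norm_num)).eventually (eventually_ge_atTop _)
  filter_upwards [e0, e1, e2, e3, e4, e5, e6, e7, e8, e9, e10] with L l0 l1 l2 l3 l4 l5 l6 l7 l8
    l9 l10
  exact ⟨l0, l1, l2, l3, l4, l5, l6, l7, l8, l9, l10⟩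


theorem num_sieve {L CS R s : ℝ} (l0 : 1 ≤ L) (l9 : 16 * CS ≤ L ^ (1 / 8 : ℝ))
    (hR : R = L ^ (1 / 8 : ℝ)) (hs : 0 < s) :
    CS * (2 * R * s) * (√L / L ^ (9 / 10 : ℝ)) ≤ s * L ^ (-(3 / 20 : ℝ)) / 8 := by
  have hL1 : 0 < L := by linarith
  have hadd : ∀ x y : ℝ, L ^ x * L ^ y = L ^ (x + y) := fun x y => (Real.rpow_add hL1 x y).symm
  have e1 : √L / L ^ (9 / 10 : ℝ) = L ^ (-(2 / 5 : ℝ)) := by
    rw [Real.sqrt_eq_rpow, ← Real.rpow_sub hL1]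
    congr 1
    norm_num
  have e2 : CS * (2 * R * s) * (√L / L ^ (9 / 10 : ℝ)) = 2 * CS * s * L ^ (-(11 / 40 : ℝ)) := by
    rw [e1, hR]
    have : L ^ (1 / 8 : ℝ) * L ^ (-(2 / 5 : ℝ)) = L ^ (-(11 / 40 : ℝ)) := by
      rw [hadd]
      congr 1
      norm_num
    rw [← this]
    ring
  have e3 : L ^ (-(3 / 20 : ℝ)) = L ^ (1 / 8 : ℝ) * L ^ (-(11 / 40 : ℝ)) := by
    rw [hadd]
    congr 1
    norm_num
  rw [e2, e3]
  have h6 : 0 < s * L ^ (-(11 / 40 : ℝ)) := by positivity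
  have h7 := mul_le_mul_of_nonneg_right l9 h6.le
  linarith

theorem num_W {L : ℝ} {C0 : ℕ} (l0 : 1 ≤ L) (l3 : L ^ C0 + 1 ≤ Real.exp (√L / (C0 + 1)))
    (l4 : 2 * ((C0 : ℝ) + 1) ≤ √L) : ∃ W : ℕ, L ^ C0 ≤ W ∧ (W : ℝ) ^ C0 ≤ Real.exp (√L) ∧
      √L / (2 * (C0 + 1)) ≤ Real.log W ∧ 0 < Real.log W := by
  have hL1 : 0 < L := by linarith
  obtain ⟨W, hW⟩ : ∃ W : ℕ, W = ⌊Real.exp (√L / (C0 + 1))⌋₊ := ⟨_, rfl⟩
  have hWu : (W : ℝ) ≤ Real.exp (√L / (C0 + 1)) := by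
    rw [hW]
    exact Nat.floor_le (by positivity)
  have hWl : Real.exp (√L / (C0 + 1)) - 1 < W := by
    rw [hW]
    exact Nat.sub_one_lt_floor _
  have hLC : 1 ≤ L ^ C0 := one_le_pow₀ l0
  have hlogW : √L / (2 * (C0 + 1)) ≤ Real.log W := by
    have k0 : 0 < Real.exp (√L / (C0 + 1)) := by positivity
    have k1 : 2 ≤ Real.exp (√L / (C0 + 1)) := by linarith
    have k2 : Real.exp (√L / (C0 + 1)) / 2 ≤ W := by linarith
    have k3 : Real.log (Real.exp (√L / (C0 + 1)) / 2) ≤ Real.log W :=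
      Real.log_le_log (by positivity) k2
    rw [Real.log_div k0.ne' (by norm_num), Real.log_exp] at k3
    have k4 : 1 ≤ √L / (2 * ((C0 : ℝ) + 1)) := by
      rw [le_div_iff₀ (by positivity)]
      linarith
    have k5 : √L / ((C0 : ℝ) + 1) = 2 * (√L / (2 * (C0 + 1))) := by
      field_simp
    have k6 := Real.log_two_lt_d9
    rw [k5] at k3
    linarith
  refine ⟨W, by linarith, ?_, hlogW, ?_⟩
  · calc (W : ℝ) ^ C0 ≤ Real.exp (√L / (C0 + 1)) ^ C0 := by gcongr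
      _ = Real.exp (C0 * (√L / (C0 + 1))) := by rw [← Real.exp_nat_mul]
      _ ≤ Real.exp (√L) := by
          rw [Real.exp_le_exp]
          have h1 : 0 ≤ √L := Real.sqrt_nonneg _
          rw [mul_div_assoc', div_le_iff₀ (by positivity)]
          nlinarith
  · have : 0 < √L := Real.sqrt_pos.2 hL1
    exact lt_of_lt_of_le (by positivity) hlogW

theorem num_err {L z : ℝ} {C0 : ℕ} (l0 : 1 ≤ L)
    (l6 : (40 * C0 + 1000) * L ^ (9 / 10 : ℝ) ≤ L) (l7 : 4 * L ≤ Real.exp (L / 100))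
    (hz : z = Real.exp (L ^ (9 / 10 : ℝ))) :
    z ^ 2 * L * (Real.exp (L * (9 / 20)) * z ^ C0) ≤
      Real.exp (L / 2) * L ^ (-(3 / 20 : ℝ)) / 4 := by
  have hL1 : 0 < L := by linarith
  have hz0 : 0 < z := by
    rw [hz]
    positivity
  have k2 : z ^ 2 * L * (Real.exp (L * (9 / 20)) * z ^ C0) =
      L * (z ^ (C0 + 2) * Real.exp (L * (9 / 20))) := by
    rw [pow_add]
    ring
  have k3 : z ^ (C0 + 2) ≤ Real.exp (L / 40) := by
    rw [hz, ← Real.exp_nat_mul, Real.exp_le_exp]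
    push_cast
    have h1 : 0 ≤ (C0 : ℝ) * L ^ (9 / 10 : ℝ) := by positivity
    have h2 : 0 ≤ L ^ (9 / 10 : ℝ) := by positivity
    nlinarith
  have k4 : L ≤ Real.exp (L / 100) / 4 := by linarith
  have k6 : L⁻¹ ≤ L ^ (-(3 / 20 : ℝ)) := by
    rw [← Real.rpow_neg_one]
    exact Real.rpow_le_rpow_of_exponent_le l0 (by norm_num)
  have k7 : Real.exp (-(L / 100)) ≤ L⁻¹ := by
    rw [Real.exp_neg]
    apply inv_anti₀ hL1
    linarith
  rw [k2]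
  calc L * (z ^ (C0 + 2) * Real.exp (L * (9 / 20)))
      ≤ Real.exp (L / 100) / 4 * (Real.exp (L / 40) * Real.exp (L * (9 / 20))) := by gcongr
    _ = Real.exp (L / 100 + L / 40 + L * (9 / 20)) / 4 := by
        rw [Real.exp_add, Real.exp_add]
        ring
    _ ≤ Real.exp (L / 2 + -(L / 100)) / 4 := by
        apply div_le_div_of_nonneg_right _ (by norm_num)
        rw [Real.exp_le_exp]
        linarith
    _ = Real.exp (L / 2) * Real.exp (-(L / 100)) / 4 := by rw [Real.exp_add]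
    _ ≤ Real.exp (L / 2) * L ^ (-(3 / 20 : ℝ)) / 4 := by
        have := k7.trans k6
        gcongr

theorem num_main {L K q c0 S R s lW J : ℝ} {C0 : ℕ} (l0 : 1 ≤ L) (hK : 0 < K) (hq : 0 < q)
    (hc0 : 0 < c0) (l10 : 4 * (K ^ 2 * q ^ 3 * (C0 + 1) / c0) ≤ L ^ (2 / 25 : ℝ))
    (hR : R = L ^ (1 / 8 : ℝ)) (hs : 0 < s) (hS0 : 0 ≤ S) (hS : S ≤ K * L ^ (1 / 100 : ℝ))
    (hlW : √L / (2 * (C0 + 1)) ≤ lW) (hlW0 : 0 < lW) (hJ0 : 0 ≤ J) (hJ : J ≤ R) :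
    q ^ 3 * (0.0005 * R * s) / (c0 * lW) * J * S ^ 2 ≤ s * L ^ (-(3 / 20 : ℝ)) / 4 := by
  have hL1 : 0 < L := by linarith
  have hsL : 0 < √L := Real.sqrt_pos.2 hL1
  have hR0 : 0 < R := by
    rw [hR]
    positivity
  have hadd : ∀ x y : ℝ, L ^ x * L ^ y = L ^ (x + y) := fun x y => (Real.rpow_add hL1 x y).symm
  have k4 : 1 / lW ≤ 2 * (C0 + 1) / √L := by
    rw [div_le_div_iff₀ hlW0 hsL]
    rw [div_le_iff₀ (by positivity)] at hlW
    linarith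
  have k5 : S ^ 2 ≤ (K * L ^ (1 / 100 : ℝ)) ^ 2 := pow_le_pow_left₀ hS0 hS 2
  have e1 : q ^ 3 * (0.0005 * R * s) / (c0 * lW) = q ^ 3 * (0.0005 * R * s) / c0 * (1 / lW) := by
    field_simp
  rw [e1]
  calc q ^ 3 * (0.0005 * R * s) / c0 * (1 / lW) * J * S ^ 2
      ≤ q ^ 3 * (0.0005 * R * s) / c0 * (2 * (C0 + 1) / √L) * R *
        (K * L ^ (1 / 100 : ℝ)) ^ 2 := by gcongr
    _ = 0.001 * (K ^ 2 * q ^ 3 * (C0 + 1) / c0) *
        (s * (R ^ 2 * (L ^ (1 / 100 : ℝ)) ^ 2 * (√L)⁻¹)) := by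
        ring
    _ = 0.001 * (K ^ 2 * q ^ 3 * (C0 + 1) / c0) * (s * L ^ (-(23 / 100 : ℝ))) := by
        have e2 : R ^ 2 * (L ^ (1 / 100 : ℝ)) ^ 2 * (√L)⁻¹ = L ^ (-(23 / 100 : ℝ)) := by
          rw [hR, Real.sqrt_eq_rpow, ← Real.rpow_neg hL1.le, ← Real.rpow_natCast (L ^ (1 / 8 : ℝ)) 2,
            ← Real.rpow_natCast (L ^ (1 / 100 : ℝ)) 2, ← Real.rpow_mul hL1.le,
            ← Real.rpow_mul hL1.le, hadd, hadd]
          congr 1
          norm_num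
        rw [e2]
    _ ≤ s * L ^ (-(3 / 20 : ℝ)) / 4 := by
        have e3 : L ^ (-(3 / 20 : ℝ)) = L ^ (2 / 25 : ℝ) * L ^ (-(23 / 100 : ℝ)) := by
          rw [hadd]
          congr 1
          norm_num
        rw [e3]
        have h6 : 0 < s * L ^ (-(23 / 100 : ℝ)) := by positivity
        have h7 := mul_le_mul_of_nonneg_right l10 h6.le
        have h8 : 0 ≤ K ^ 2 * q ^ 3 * (C0 + 1) / c0 * (s * L ^ (-(23 / 100 : ℝ))) := by
          positivity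
        linarith

theorem num_P {L CM K z : ℝ} (l0 : 1 ≤ L) (h5 : ∑ p ∈ (Icc 1 ⌊z⌋₊).filter Nat.Prime, 1 / (p : ℝ)
    ≤ Real.log (Real.log z) + CM) (hz : z = Real.exp (L ^ (9 / 10 : ℝ))) (hK : K = 100 + |CM|)
    (P : Finset ℕ) (hP : P ⊆ (Icc 1 ⌊z⌋₊).filter Nat.Prime) :
    ∑ p ∈ P, 1 / (p : ℝ) ≤ K * L ^ (1 / 100 : ℝ) := by
  have hL1 : 0 < L := by linarith
  have hL100 : 1 ≤ L ^ (1 / 100 : ℝ) := Real.one_le_rpow l0 (by norm_num)
  have k2 : ∑ p ∈ P, 1 / (p : ℝ) ≤ ∑ p ∈ (Icc 1 ⌊z⌋₊).filter Nat.Prime, 1 / (p : ℝ) := by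
    apply Finset.sum_le_sum_of_subset_of_nonneg hP
    intro p _ _
    positivity
  have k3 : Real.log (Real.log z) ≤ 100 * L ^ (1 / 100 : ℝ) := by
    rw [hz, Real.log_exp, Real.log_rpow hL1]
    have k4 := Real.log_le_rpow_div hL1.le (by norm_num : (0 : ℝ) < 1 / 100)
    have k5 : 0 ≤ Real.log L := Real.log_nonneg l0
    have k6 : L ^ (1 / 100 : ℝ) / (1 / 100) = 100 * L ^ (1 / 100 : ℝ) := by ring
    rw [k6] at k4
    linarith
  have k7 : CM ≤ |CM| * L ^ (1 / 100 : ℝ) := by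
    have h1 := le_abs_self CM
    have h0 := abs_nonneg CM
    nlinarith
  rw [hK]
  linarith

/-- covering by the sieved sets and the cells. -/
theorem cover {t γ : ℝ} {q J : ℕ} (hγ : 0 < γ) (s P : Finset ℕ)
    (hs : ∀ n ∈ s, ⌊Int.fract (t / n) / γ⌋₊ ≤ J) (hP : ∀ p ∈ P, ¬ p ∣ q) :
    (s.card : ℝ) ≤ ((s.filter (fun n => ∀ p ∈ P, ¬ p ∣ n)).card : ℝ) +
      (s.filter (fun n => ∀ p ∈ P, ¬ p ∣ n + q)).card +
      ∑ i ∈ (P ×ˢ P ×ˢ range (J + 1)).filter (fun i => i.1 ≠ i.2.1),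
        ((s.filter (fun n => i.1 ∣ n ∧ i.2.1 ∣ n + q ∧ (i.2.2 : ℝ) * γ ≤ Int.fract (t / n) ∧
          Int.fract (t / n) < (i.2.2 : ℝ) * γ + γ)).card : ℝ) := by
  classical
  have hcover : s ⊆ (s.filter (fun n => ∀ p ∈ P, ¬ p ∣ n) ∪
      s.filter (fun n => ∀ p ∈ P, ¬ p ∣ n + q)) ∪
      ((P ×ˢ P ×ˢ range (J + 1)).filter (fun i => i.1 ≠ i.2.1)).biUnion
        (fun i => s.filter (fun n => i.1 ∣ n ∧ i.2.1 ∣ n + q ∧
          (i.2.2 : ℝ) * γ ≤ Int.fract (t / n) ∧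
          Int.fract (t / n) < (i.2.2 : ℝ) * γ + γ)) := by
    intro n hn
    rw [mem_union, mem_union]
    by_cases k1 : ∀ p ∈ P, ¬ p ∣ n
    · exact Or.inl (Or.inl (mem_filter.2 ⟨hn, k1⟩))
    by_cases k2 : ∀ p ∈ P, ¬ p ∣ n + q
    · exact Or.inl (Or.inr (mem_filter.2 ⟨hn, k2⟩))
    right
    push Not at k1 k2
    obtain ⟨b1, hb1, hd1⟩ := k1
    obtain ⟨b2, hb2, hd2⟩ := k2
    have hne : b1 ≠ b2 := by
      rintro rfl
      exact hP b1 hb1 ((Nat.dvd_add_right hd1).1 hd2)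
    have hfr0 : 0 ≤ Int.fract (t / (n : ℝ)) := Int.fract_nonneg _
    rw [mem_biUnion]
    refine ⟨(b1, b2, ⌊Int.fract (t / (n : ℝ)) / γ⌋₊), ?_, ?_⟩
    · simp only [mem_filter, mem_product, mem_range]
      exact ⟨⟨hb1, hb2, Nat.lt_succ_of_le (hs n hn)⟩, hne⟩
    · simp only [mem_filter]
      have k3 : ((⌊Int.fract (t / (n : ℝ)) / γ⌋₊ : ℕ) : ℝ) ≤
          Int.fract (t / (n : ℝ)) / γ := Nat.floor_le (by positivity)
      have k4 := Nat.lt_floor_add_one (Int.fract (t / (n : ℝ)) / γ)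
      rw [le_div_iff₀ hγ] at k3
      rw [div_lt_iff₀ hγ] at k4
      exact ⟨hn, hd1, hd2, k3, by linarith⟩
  have k1 := (card_le_card hcover).trans (card_union_le _ _)
  have k2 := card_union_le (s.filter (fun n => ∀ p ∈ P, ¬ p ∣ n))
    (s.filter (fun n => ∀ p ∈ P, ¬ p ∣ n + q))
  have k3 := card_biUnion_le (s := (P ×ˢ P ×ˢ range (J + 1)).filter (fun i => i.1 ≠ i.2.1))
    (t := fun i => s.filter (fun n => i.1 ∣ n ∧ i.2.1 ∣ n + q ∧
          (i.2.2 : ℝ) * γ ≤ Int.fract (t / n) ∧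
          Int.fract (t / n) < (i.2.2 : ℝ) * γ + γ))
  have k4 := k1.trans (add_le_add k2 k3)
  exact_mod_cast k4

/-- the sum over pairs and cells. -/
theorem sum_pairs {A B e0 : ℝ} (J : ℕ) (P : Finset ℕ) (hA : 0 ≤ A) (hB : 0 ≤ B) (he : 0 ≤ e0) :
    ∑ i ∈ (P ×ˢ P ×ˢ range (J + 1)).filter (fun i => i.1 ≠ i.2.1),
      (A * (B / ((i.1 : ℝ) * i.2.1)) + e0) ≤
      A * B * ((J : ℝ) + 1) * (∑ p ∈ P, 1 / (p : ℝ)) ^ 2 +
        (P.card : ℝ) * (P.card * (J + 1)) * e0 := by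
  have k1 : ∑ i ∈ (P ×ˢ P ×ˢ range (J + 1)).filter (fun i => i.1 ≠ i.2.1),
      (A * (B / ((i.1 : ℝ) * i.2.1)) + e0) ≤
      ∑ i ∈ P ×ˢ P ×ˢ range (J + 1), (A * (B / ((i.1 : ℝ) * i.2.1)) + e0) := by
    apply sum_le_sum_of_subset_of_nonneg (filter_subset _ _)
    intro i _ _
    positivity
  refine k1.trans (le_of_eq ?_)
  rw [sum_add_distrib, sum_const, card_product, card_product, card_range, nsmul_eq_mul]
  congr 1
  · rw [sum_product, sq, sum_mul_sum, mul_sum]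
    apply sum_congr rfl
    intro a _
    rw [sum_product, mul_sum]
    apply sum_congr rfl
    intro b _
    simp only [sum_const, card_range, nsmul_eq_mul]
    push_cast
    ring
  · push_cast
    ring

end LK2

open LK2 in
/-- **ROW LK2.** -/
theorem link2 (h2 : SecondMoment2) (h3 : Equi2) (h4 : Sieve2) (h5 : MertensUp) : Link2 := by
  classical
  obtain ⟨c0, hc0, C0, h2⟩ := h2
  obtain ⟨t1, h3⟩ := h3
  obtain ⟨CS, hCS, h4⟩ := h4
  obtain ⟨CM, h5⟩ := h5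
  have h2' : SMb c0 C0 := h2
  intro q a κ hq hκ hκ1
  have hq' : (1 : ℝ) ≤ q := by exact_mod_cast hq
  have hq0 : (0 : ℝ) < q := by linarith
  obtain ⟨K, hK⟩ : ∃ K : ℝ, K = 100 + |CM| := ⟨_, rfl⟩
  have hK0 : 0 < K := by
    rw [hK]
    positivity
  obtain ⟨L0, hL0⟩ := Filter.eventually_atTop.mp
    (evL q C0 κ (16 * CS) (4 * (K ^ 2 * q ^ 3 * (C0 + 1) / c0)) hκ1)
  obtain ⟨T1, hT1⟩ := Filter.eventually_atTop.mp
    (Real.tendsto_log_atTop.eventually (Filter.eventually_ge_atTop L0))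
  refine ⟨max T1 (max t1 10000), ?_⟩
  intro t c R ht hcdef hRdef hyp s hs
  have ht1 : T1 ≤ t := (le_max_left _ _).trans ht
  have ht2 : t1 ≤ t := (le_max_left _ _).trans ((le_max_right _ _).trans ht)
  have ht3 : 10000 ≤ t := (le_max_right _ _).trans ((le_max_right _ _).trans ht)
  have ht0 : 0 < t := by linarith
  obtain ⟨L, hL⟩ : ∃ L : ℝ, L = Real.log t := ⟨_, rfl⟩
  have hLL := hT1 t ht1
  rw [← hL] at hLL hcdef hRdef
  obtain ⟨l0, l1, l2, l3, l4, l5, l6, l7, l8, l9, l10⟩ := hL0 L hLL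
  have hL1 : 0 < L := by linarith
  have h3' : Eqb t := h3 t ht2
  have hts : ∀ x : ℝ, t ^ x = Real.exp (L * x) := by
    intro x
    rw [Real.rpow_def_of_pos ht0, hL]
  have hsq : √t = Real.exp (L / 2) := by
    rw [Real.sqrt_eq_rpow, hts]
    congr 1
    ring
  have hs0 : 0 < √t := Real.sqrt_pos.2 ht0
  have hadd : ∀ x y : ℝ, L ^ x * L ^ y = L ^ (x + y) := fun x y => (Real.rpow_add hL1 x y).symm
  have hc : 0 < c := by
    rw [hcdef]
    positivity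
  have hc1 : c ≤ 1 := by
    rw [hcdef]
    exact Real.rpow_le_one_of_one_le_of_nonpos l0 (by linarith)
  have hR0 : 0 < R := by
    rw [hRdef]
    positivity
  have hcR : c * R = L ^ (1 / 8 - κ) := by
    rw [hcdef, hRdef, hadd]
    congr 1
    ring
  have hRq : 1000 * (q : ℝ) ≤ c * R := by
    rw [hcR]
    exact l1
  have hcRR : c * R ≤ R := by
    calc c * R ≤ 1 * R := by gcongr
      _ = R := one_mul R
  have hR1000 : 1000 ≤ c * R := by linarith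
  have hR1 : 1000 ≤ R := by linarith
  have hRL : R ≤ L := by
    rw [hRdef]
    calc L ^ (1 / 8 : ℝ) ≤ L ^ (1 : ℝ) := Real.rpow_le_rpow_of_exponent_le l0 (by norm_num)
      _ = L := Real.rpow_one L
  have hRt : R ≤ t ^ (1 / 100 : ℝ) := by
    rw [hts]
    calc R ≤ L := hRL
      _ ≤ 4 * L := by linarith
      _ ≤ Real.exp (L / 100) := l7
      _ = Real.exp (L * (1 / 100)) := by
          congr 1
          ring
  obtain ⟨y, hy⟩ : ∃ y : ℝ, y = Real.exp (√L) := ⟨_, rfl⟩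
  obtain ⟨z, hz⟩ : ∃ z : ℝ, z = Real.exp (L ^ (9 / 10 : ℝ)) := ⟨_, rfl⟩
  have hy0 : 0 < y := by
    rw [hy]
    positivity
  have hz0 : 0 < z := by
    rw [hz]
    positivity
  have hlogy : Real.log y = √L := by rw [hy, Real.log_exp]
  have hlogz : Real.log z = L ^ (9 / 10 : ℝ) := by rw [hz, Real.log_exp]
  have hL9 : 1 ≤ L ^ (9 / 10 : ℝ) := Real.one_le_rpow l0 (by norm_num)
  have hsL9 : √L ≤ L ^ (9 / 10 : ℝ) := by
    rw [Real.sqrt_eq_rpow]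
    exact Real.rpow_le_rpow_of_exponent_le l0 (by norm_num)
  have hyz : y ≤ z := by
    rw [hy, hz, Real.exp_le_exp]
    exact hsL9
  have hy2 : (q : ℝ) + 2 ≤ y := by
    rw [hy]
    exact l8
  have hz1 : 1 ≤ z := by linarith
  have hyz2 : 1 + Real.log z ≤ √y := by
    rw [hlogz, hy, ← Real.exp_half]
    exact l5
  have hL9' : 400 * L ^ (9 / 10 : ℝ) ≤ L := by
    have h0 : (0 : ℝ) ≤ C0 := Nat.cast_nonneg _
    have h1 : 0 ≤ (C0 : ℝ) * L ^ (9 / 10 : ℝ) := mul_nonneg h0 (by linarith)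
    have h2 : (40 * (C0 : ℝ) + 1000) * L ^ (9 / 10 : ℝ) =
        40 * (C0 * L ^ (9 / 10 : ℝ)) + 1000 * L ^ (9 / 10 : ℝ) := by ring
    linarith
  have hz4 : z ^ 4 ≤ t ^ (1 / 100 : ℝ) := by
    rw [hz, hts, ← Real.exp_nat_mul, Real.exp_le_exp]
    push_cast
    linarith
  obtain ⟨W, hWl, hWu, hlogW, hlogW0⟩ := num_W l0 l3 l4
  have hW1 : ((q : ℝ) / (c / R)) ^ C0 ≤ W := by
    have k1 : (q : ℝ) / (c / R) ≤ L := by
      have k2 : (q : ℝ) / (c / R) = q * (R / c) := by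
        field_simp
      have k3 : R / c = L ^ (1 / 8 + κ) := by
        rw [hcdef, hRdef, ← Real.rpow_sub hL1]
        congr 1
        ring
      rw [k2, k3]
      calc (q : ℝ) * L ^ (1 / 8 + κ) ≤ L ^ (1 / 2 : ℝ) * L ^ (1 / 8 + κ) := by gcongr
        _ = L ^ (1 / 2 + (1 / 8 + κ)) := hadd _ _
        _ ≤ L ^ (1 : ℝ) := Real.rpow_le_rpow_of_exponent_le l0 (by linarith)
        _ = L := Real.rpow_one L
    exact (pow_le_pow_left₀ (by positivity) k1 C0).trans hWl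
  have hW2 : (W : ℝ) ^ C0 ≤ y := by
    rw [hy]
    exact hWu
  -- primes and cells
  obtain ⟨P, hP⟩ : ∃ P : Finset ℕ, P = (Icc 1 ⌊z⌋₊).filter (fun p : ℕ => p.Prime ∧ y < p) :=
    ⟨_, rfl⟩
  have hPm : ∀ p ∈ P, p.Prime ∧ y < p ∧ (p : ℝ) ≤ z := by
    intro p hp
    rw [hP, Finset.mem_filter, Finset.mem_Icc] at hp
    exact ⟨hp.2.1, hp.2.2, (Nat.le_floor_iff hz0.le).mp hp.1.2⟩
  have hPn : ∀ p : ℕ, p.Prime → y < p → (p : ℝ) ≤ z → p ∈ P := by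
    intro p h1 h2 h3
    rw [hP, Finset.mem_filter, Finset.mem_Icc]
    exact ⟨⟨h1.one_lt.le, Nat.le_floor h3⟩, h1, h2⟩
  have hPcard : (P.card : ℝ) ≤ z := by
    have k1 : P.card ≤ ⌊z⌋₊ := by
      rw [hP]
      refine (Finset.card_filter_le _ _).trans ?_
      rw [Nat.card_Icc]
      omega
    calc (P.card : ℝ) ≤ (⌊z⌋₊ : ℝ) := by exact_mod_cast k1
      _ ≤ z := Nat.floor_le hz0.le
  have hPS : ∑ p ∈ P, 1 / (p : ℝ) ≤ K * L ^ (1 / 100 : ℝ) := by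
    refine num_P l0 (h5 z (by linarith)) hz hK P ?_
    intro p hp
    rw [hP, Finset.mem_filter] at hp
    rw [Finset.mem_filter]
    exact ⟨hp.1, hp.2.1⟩
  have hPq : ∀ p ∈ P, ¬ p ∣ q := by
    intro p hp hd
    have h8 := Nat.le_of_dvd (by omega) hd
    have h9 : (p : ℝ) ≤ q := by exact_mod_cast h8
    have h10 := (hPm p hp).2.1
    linarith
  obtain ⟨γ, hγ⟩ : ∃ γ : ℝ, γ = 0.05 * (c / R) := ⟨_, rfl⟩
  have hγ0 : 0 < γ := by
    rw [hγ]
    positivity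
  obtain ⟨J, hJ⟩ : ∃ J : ℕ, J = ⌊c ^ 2 / (200 * q) / γ⌋₊ := ⟨_, rfl⟩
  have hJ0 : (J : ℝ) ≤ c ^ 2 / (200 * q) / γ := by
    rw [hJ]
    exact Nat.floor_le (by positivity)
  have hJ' : (J : ℝ) * γ ≤ c ^ 2 / (200 * q) := by
    rwa [le_div_iff₀ hγ0] at hJ0
  have hJR : (J : ℝ) + 1 ≤ c * R := by
    have e : c ^ 2 / (200 * q) / γ = c * R / (10 * q) := by
      rw [hγ]
      field_simp
      ring
    rw [e] at hJ0
    have : c * R / (10 * q) ≤ c * R / 10 := by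
      apply div_le_div_of_nonneg_left (by positivity) (by norm_num)
      linarith
    linarith
  have hc3 : c ^ 2 / (200 * q) ≤ 1 / 200 := by
    have hc2 : c ^ 2 ≤ 1 := pow_le_one₀ hc.le hc1
    rw [div_le_div_iff₀ (by positivity) (by norm_num)]
    linarith
  obtain ⟨D, hD⟩ : ∃ D : ℝ, D = √t * L ^ (-(3 / 20 : ℝ)) := ⟨_, rfl⟩
  have hD0 : 0 < D := by
    rw [hD]
    positivity
  have hcs := cover (t := t) (q := q) (J := J) hγ0 s P (by
    intro n hn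
    obtain ⟨g1, g2, gP1, gP2, g3, g4⟩ := hs n hn
    rw [hJ]
    apply Nat.floor_le_floor
    gcongr) hPq
  -- the sieve
  have hRs : √t ≤ 0.99 * R * √t := by
    have h1 : 1 ≤ 0.99 * R := by linarith
    calc √t = 1 * √t := (one_mul _).symm
      _ ≤ 0.99 * R * √t := by gcongr
  have hzs : z ≤ √t := by
    rw [hz, hsq, Real.exp_le_exp]
    linarith
  have hzx : z ≤ 2 * R * √t := by
    have : 0.99 * R * √t ≤ 2 * R * √t := by gcongr; norm_num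
    linarith
  have hsieve : CS * (2 * R * √t) * (Real.log y / Real.log z) ≤ D / 8 := by
    rw [hlogy, hlogz, hD]
    exact num_sieve l0 l9 hRdef hs0
  have hy1 : 2 ≤ y := by linarith
  have hqR : (q : ℝ) ≤ 0.99 * R * √t := by linarith
  have hA1c : ((s.filter (fun n => ∀ p ∈ P, ¬ p ∣ n)).card : ℝ) ≤ D / 8 := by
    refine (h4 (2 * R * √t) y z hy1 hyz hzx _ ?_).trans hsieve
    intro n hn
    rw [mem_filter] at hn
    obtain ⟨g1, g2, -⟩ := hs n hn.1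
    have hRt0 : 0 < R * √t := by positivity
    have hn0 : (0 : ℝ) < n := by linarith
    refine ⟨by exact_mod_cast hn0, by linarith, ?_⟩
    intro p hp hyp' hpz
    exact hn.2 p (hPn p hp hyp' hpz)
  have hA2c : ((s.filter (fun n => ∀ p ∈ P, ¬ p ∣ n + q)).card : ℝ) ≤ D / 8 := by
    have k1 : ((s.filter (fun n => ∀ p ∈ P, ¬ p ∣ n + q)).image (fun n => n + q)).card =
        (s.filter (fun n => ∀ p ∈ P, ¬ p ∣ n + q)).card :=
      Finset.card_image_of_injective _ (fun x y h => by simpa using h)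
    rw [← k1]
    refine (h4 (2 * R * √t) y z hy1 hyz hzx _ ?_).trans hsieve
    intro m hm
    rw [Finset.mem_image] at hm
    obtain ⟨n, hn, rfl⟩ := hm
    rw [mem_filter] at hn
    obtain ⟨g1, g2, -⟩ := hs n hn.1
    refine ⟨by omega, ?_, ?_⟩
    · push_cast
      linarith
    · intro p hp hyp' hpz
      exact hn.2 p (hPn p hp hyp' hpz)
  -- the pairs
  obtain ⟨e0, he0⟩ : ∃ e0 : ℝ, e0 = Real.exp (L * (9 / 20)) * z ^ C0 := ⟨_, rfl⟩
  have he00 : 0 < e0 := by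
    rw [he0]
    positivity
  have hEc : ∀ i ∈ (P ×ˢ P ×ˢ range (J + 1)).filter (fun i => i.1 ≠ i.2.1),
      ((s.filter (fun n => i.1 ∣ n ∧ i.2.1 ∣ n + q ∧ (i.2.2 : ℝ) * γ ≤ Int.fract (t / n) ∧
          Int.fract (t / n) < (i.2.2 : ℝ) * γ + γ)).card : ℝ) ≤
      (q : ℝ) ^ 3 / (c0 * Real.log W) * (0.0005 * R * √t / (i.1 * i.2.1)) + e0 := by
    intro i hi
    obtain ⟨b1, b2, j⟩ := i
    simp only [mem_filter, mem_product, mem_range] at hi
    obtain ⟨⟨hb1, hb2, hj⟩, hne⟩ := hi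
    have hjf : (j : ℝ) * γ ≤ c ^ 2 / (200 * q) := by
      have : (j : ℝ) ≤ J := by exact_mod_cast Nat.lt_succ_iff.1 hj
      exact (mul_le_mul_of_nonneg_right this hγ0.le).trans hJ'
    obtain ⟨p1, p2, p3⟩ := hPm b1 hb1
    obtain ⟨r1, r2, r3⟩ := hPm b2 hb2
    have key := pair_bound h2' h3' hq hc hc1 hRq ht3 hRt hyp hW1 hW2 hyz2 hz4 hz1 p1 r1 hne p2.le
      p3 r2.le r3 (f := (j : ℝ) * γ) (by positivity) (hjf.trans hc3)
      (s.filter (fun n => b1 ∣ n ∧ b2 ∣ n + q ∧ (j : ℝ) * γ ≤ Int.fract (t / n) ∧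
          Int.fract (t / n) < (j : ℝ) * γ + γ)) (by
        intro n hn
        simp only [mem_filter] at hn
        obtain ⟨hn, q1, q2, q3, q4⟩ := hn
        obtain ⟨g1, g2, gP1, gP2, g3, g4⟩ := hs n hn
        rw [hγ] at q3 q4 ⊢
        exact ⟨g1, g2, gP1, gP2, g3, g4, q1, q2, q3, q4⟩)
    refine key.trans (le_of_eq ?_)
    rw [he0, hts]
    ring
  have hsp := sum_pairs (A := (q : ℝ) ^ 3 / (c0 * Real.log W)) (B := 0.0005 * R * √t) (e0 := e0)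
    J P (by positivity) (by positivity) he00.le
  have hPJ : (P.card : ℝ) * (P.card * (J + 1)) ≤ z ^ 2 * L := by
    calc (P.card : ℝ) * (P.card * (J + 1)) ≤ z * (z * L) := by
          have : (J : ℝ) + 1 ≤ L := by linarith
          gcongr
      _ = z ^ 2 * L := by ring
  have hErr : (P.card : ℝ) * (P.card * (J + 1)) * e0 ≤ D / 4 := by
    calc (P.card : ℝ) * (P.card * (J + 1)) * e0 ≤ z ^ 2 * L * e0 := by gcongr
      _ ≤ D / 4 := by
          rw [he0, hD, hsq]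
          exact num_err l0 l6 l7 hz
  have hmain : (q : ℝ) ^ 3 / (c0 * Real.log W) * (0.0005 * R * √t) * ((J : ℝ) + 1) *
      (∑ p ∈ P, 1 / (p : ℝ)) ^ 2 ≤ D / 4 := by
    have k1 := num_main (J := (J : ℝ) + 1) (s := √t) (S := ∑ p ∈ P, 1 / (p : ℝ))
      (lW := Real.log W) l0 hK0 hq0 hc0 l10 hRdef hs0
      (sum_nonneg fun p _ => by positivity) hPS hlogW hlogW0 (by positivity) (by linarith)
    rw [hD]
    refine le_trans (le_of_eq ?_) k1
    ring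
  have hEs := (sum_le_sum hEc).trans hsp
  have hfin : √t / Real.log t ^ (3 / 20 : ℝ) = D := by
    rw [hD, ← hL, Real.rpow_neg hL1.le, div_eq_mul_inv]
  rw [hfin]
  linarith

end Pool.Agent.MR2
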