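import Pool.Agent.Lib.MR2.StatM

/-! # TANK MR2, stage 2, row LKM, part B: the parameters (helper69) -/

set_option autoImplicit false

namespace Pool.Agent.MR2

open Finset Filter Topology Pool.Agent.MRL

namespace LKP

/-- the fixed modulus. -/
def P0 (q : ℕ) : ℕ := (210 * q) ^ 2

/-- the sieving primes. -/
noncomputable def PP (q : ℕ) (z : ℝ) : Finset ℕ := (range (⌊z⌋₊ + 1)).filter (fun p => p.Prime ∧ ¬ p ∣ P0 q)

theorem P0_pos {q : ℕ} (hq : 1 ≤ q) : 1 ≤ P0 q := by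
  unfold P0
  exact Nat.one_le_pow _ _ (by omega)

theorem q_dvd_P0 (q : ℕ) : q ∣ P0 q := by
  unfold P0
  exact (dvd_mul_left q 210).trans (dvd_pow_self _ (by norm_num))

theorem PP_prime {q : ℕ} {z : ℝ} : ∀ p ∈ PP q z, p.Prime := fun _ hp => (mem_filter.1 hp).2.1

theorem PP_not_dvd {q : ℕ} {z : ℝ} : ∀ p ∈ PP q z, ¬ p ∣ P0 q := fun _ hp => (mem_filter.1 hp).2.2

theorem PP_le {q : ℕ} {z : ℝ} (hz : 0 ≤ z) : ∀ p ∈ PP q z, (p : ℝ) ≤ z := by
  intro p hp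
  have h1 := mem_range.1 (mem_filter.1 hp).1
  exact (Nat.le_floor_iff hz).1 (by omega)

theorem PP_ge {q : ℕ} {z : ℝ} : ∀ p ∈ PP q z, 11 ≤ p := by
  intro p hp
  have hpr := PP_prime p hp
  have hnd := PP_not_dvd p hp
  by_contra hlt
  push Not at hlt
  apply hnd
  have h210 : p ∣ 210 := by
    interval_cases p <;> first | (exfalso; revert hpr; norm_num; done) | norm_num
  unfold P0
  exact (h210.mul_right q).trans (dvd_pow_self _ (by norm_num))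

theorem PP_or {q : ℕ} {z : ℝ} (hz : 0 ≤ z) (p : ℕ) (hp : p.Prime) (hpz : (p : ℝ) ≤ z) :
    p ∈ PP q z ∨ p ^ 2 ∣ P0 q := by
  by_cases h : p ∣ P0 q
  · right
    unfold P0 at h ⊢
    exact pow_dvd_pow_of_dvd (hp.dvd_of_dvd_pow h) 2
  · left
    refine mem_filter.2 ⟨mem_range.2 ?_, hp, h⟩
    have := (Nat.le_floor_iff hz).2 hpz
    omega

theorem le_of_dvd_P0 {q p : ℕ} (hp : p.Prime) (h : p ∣ P0 q) (hq : 1 ≤ q) : p ≤ 210 * q := by
  unfold P0 at h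
  exact Nat.le_of_dvd (by omega) (hp.dvd_of_dvd_pow h)

theorem prod_pos {q : ℕ} {z : ℝ} : 0 < ∏ p ∈ PP q z, p :=
  Finset.prod_pos fun p hp => (PP_prime p hp).pos

theorem prod_le {q : ℕ} {z : ℝ} (hz : 0 ≤ z) : ((∏ p ∈ PP q z, p : ℕ) : ℝ) ≤ Real.exp (2 * z) := by
  have h1 : (∏ p ∈ PP q z, p) ≤ primorial ⌊z⌋₊ := by
    unfold primorial
    apply Finset.prod_le_prod_of_subset_of_one_le'
    · intro p hp
      rw [PP, mem_filter] at hp
      exact mem_filter.2 ⟨hp.1, hp.2.1⟩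
    · intro p hp _
      exact (mem_filter.1 hp).2.one_lt.le
  have h2 : ((∏ p ∈ PP q z, p : ℕ) : ℝ) ≤ (4 : ℝ) ^ ⌊z⌋₊ := by
    exact_mod_cast h1.trans (primorial_le_four_pow _)
  refine h2.trans ?_
  have h3 : (4 : ℝ) ≤ Real.exp 2 := by
    have := Real.exp_one_gt_d9
    rw [show (2 : ℝ) = 1 + 1 by norm_num, Real.exp_add]
    nlinarith
  calc (4 : ℝ) ^ ⌊z⌋₊ ≤ (Real.exp 2) ^ ⌊z⌋₊ := pow_le_pow_left₀ (by norm_num) h3 _
    _ = Real.exp (⌊z⌋₊ * 2) := (Real.exp_nat_mul _ _).symm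
    _ ≤ Real.exp (2 * z) := by
        rw [Real.exp_le_exp]
        have := Nat.floor_le hz
        linarith

/-- the sieve product. -/
theorem prod_low {q : ℕ} {z CM : ℝ} (hM : ∑ p ∈ (Icc 1 ⌊z⌋₊).filter Nat.Prime, 1 / (p : ℝ)
    ≤ CM) : Real.exp (-(16 * CM)) ≤ ∏ p ∈ PP q z, (1 - 1 / (p : ℝ)) ^ 8 := by
  have h1 : ∀ p ∈ PP q z, Real.exp (-(16 * (1 / (p : ℝ)))) ≤ (1 - 1 / (p : ℝ)) ^ 8 := by
    intro p hp
    have hp11 : (11 : ℝ) ≤ p := by exact_mod_cast PP_ge p hp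
    have h2 : 1 / (p : ℝ) ≤ 1 / 2 := by
      apply one_div_le_one_div_of_le (by norm_num); linarith
    have h0 : 0 ≤ 1 / (p : ℝ) := by positivity
    set x := 1 / (p : ℝ) with hx
    have h3 : Real.exp (-(2 * x)) ≤ 1 - x := by
      rw [Real.exp_neg]
      have h4 : 1 + 2 * x ≤ Real.exp (2 * x) := by linarith [Real.add_one_le_exp (2 * x)]
      have h5 : 0 < 1 + 2 * x := by linarith
      calc (Real.exp (2 * x))⁻¹ ≤ (1 + 2 * x)⁻¹ := inv_anti₀ h5 h4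
        _ ≤ 1 - x := by
            rw [inv_le_iff_one_le_mul₀ h5]
            nlinarith
    calc Real.exp (-(16 * x)) = (Real.exp (-(2 * x))) ^ 8 := by
          rw [← Real.exp_nat_mul]; congr 1; push_cast; ring
      _ ≤ (1 - x) ^ 8 := pow_le_pow_left₀ (Real.exp_pos _).le h3 8
  have h2 : ∑ p ∈ PP q z, 1 / (p : ℝ) ≤ CM := by
    refine le_trans ?_ hM
    apply Finset.sum_le_sum_of_subset_of_nonneg
    · intro p hp
      have hp' := mem_filter.1 hp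
      exact mem_filter.2 ⟨mem_Icc.2 ⟨hp'.2.1.one_lt.le, by have := mem_range.1 hp'.1; omega⟩,
        hp'.2.1⟩
    · intro p _ _; positivity
  calc Real.exp (-(16 * CM)) ≤ Real.exp (∑ p ∈ PP q z, -(16 * (1 / (p : ℝ)))) := by
        rw [Real.exp_le_exp, Finset.sum_neg_distrib, ← Finset.mul_sum]
        linarith
    _ = ∏ p ∈ PP q z, Real.exp (-(16 * (1 / (p : ℝ)))) := Real.exp_sum _ _
    _ ≤ _ := Finset.prod_le_prod (fun p _ => (Real.exp_pos _).le) h1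

theorem ev_rpow {α β : ℝ} (h : α < β) (K : ℝ) : ∀ᶠ L : ℝ in atTop, K * L ^ α ≤ L ^ β := by
  filter_upwards [(tendsto_rpow_atTop (y := β - α) (by linarith)).eventually_ge_atTop K,
    eventually_gt_atTop (0 : ℝ)] with L h1 h2
  calc K * L ^ α ≤ L ^ (β - α) * L ^ α := mul_le_mul_of_nonneg_right h1 (by positivity)
    _ = L ^ β := by rw [← Real.rpow_add h2]; congr 1; ring

theorem ev_log {α : ℝ} (h : 0 < α) (K : ℝ) : ∀ᶠ L : ℝ in atTop, K * Real.log L ≤ L ^ α := by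
  have h1 := (isLittleO_log_rpow_atTop h).bound (c := 1 / (|K| + 1)) (by positivity)
  filter_upwards [h1, eventually_ge_atTop (1 : ℝ)] with L h2 h3
  have h4 : 0 ≤ Real.log L := Real.log_nonneg h3
  rw [Real.norm_of_nonneg h4, Real.norm_of_nonneg (by positivity)] at h2
  calc K * Real.log L ≤ (|K| + 1) * Real.log L := by
        apply mul_le_mul_of_nonneg_right _ h4
        linarith [le_abs_self K]
    _ ≤ (|K| + 1) * (1 / (|K| + 1) * L ^ α) := mul_le_mul_of_nonneg_left h2 (by positivity)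
    _ = L ^ α := by field_simp

/-- **Part B: all the parameters.** -/
theorem paramB (hFL : FamLow) (hM : MertensUp) (q : ℕ) (hq : 1 ≤ q) (kap : ℝ) (hk0 : 0 < kap)
    (hk1 : kap ≤ 1 / 100) (C0 : ℕ) :
    ∃ L0 : ℝ, ∀ L : ℝ, L0 ≤ L → ∀ (W : ℕ) (z1 κ : ℝ), z1 = L ^ (2 / 5 : ℝ) →
    κ = L ^ (-kap - 1 / 16) → W = ⌊Real.exp (L ^ (9 / 20 : ℝ))⌋₊ →
    ((P0 q * ∏ p ∈ PP q z1, p : ℕ) : ℝ) ≤ Real.exp (L ^ (9 / 20 : ℝ)) ∧
    Real.log W ≤ L ^ (9 / 20 : ℝ) ∧ ((210 * q : ℕ) : ℝ) ≤ z1 ∧ z1 ^ 16 ≤ W ∧ κ ≤ 1 / 1000 ∧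
    ∀ b B : ℕ, b.Prime → B.Prime → Real.exp (L ^ (1 / 2 : ℝ)) < b →
      (b : ℝ) ≤ Real.exp (L ^ (2 / 3 : ℝ)) → Real.exp (L ^ (7 / 10 : ℝ)) < B →
      (B : ℝ) ≤ Real.exp (L ^ (9 / 10 : ℝ)) → ∀ f : ℝ, 0 ≤ f → f ≤ 1 / 200 →
      HF C0 (P0 q) b B W (PP q z1) κ f ∧ ¬ b ∣ P0 q * ∏ p ∈ PP q z1, p ∧
      ¬ B ∣ P0 q * ∏ p ∈ PP q z1, p ∧ W < b ∧ b < B ∧
      ∀ (M0 : ℕ) (x y : ℕ → ℤ), XY (PP q z1) x y →
        1 ≤ EE (P0 q) (PP q z1) κ f b B W M0 x y ∧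
        κ * L ^ (11 / 25 : ℝ) ≤ EE (P0 q) (PP q z1) κ f b B W M0 x y := by
  obtain ⟨c0, hc0, C1, hFL⟩ := hFL
  obtain ⟨CM, hM⟩ := hM
  set C2 : ℕ := max C0 C1 with hC2
  set K : ℝ := |Real.log (P0 q)| + 1 with hK
  have hP0 : 1 ≤ P0 q := P0_pos hq
  have hP0r : (1 : ℝ) ≤ P0 q := by exact_mod_cast hP0
  have ev := ((((((((((((eventually_ge_atTop (1 : ℝ)).and
    (ev_rpow (α := 2 / 5) (β := 9 / 20) (by norm_num) ((C2 + 1) * (K + 4)))).and
    (ev_rpow (α := 9 / 20) (β := 1 / 2) (by norm_num) (C2 + 1))).and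
    (ev_rpow (α := 2 / 3) (β := 7 / 10) (by norm_num) 4)).and
    (ev_log (α := 2 / 5) (by norm_num) 16)).and
    (ev_rpow (α := 0) (β := 2 / 5) (by norm_num) (210 * q + 3))).and
    (ev_log (α := 9 / 20) (by norm_num) 16)).and
    (ev_rpow (α := -kap - 1 / 16) (β := 0) (by linarith) 1000)).and
    (ev_log (α := 1 / 3200) (by norm_num) 1)).and
    (ev_rpow (α := 1 / 200) (β := 1 / 100) (by norm_num)
      (2 * (P0 q : ℝ) ^ 3 / c0 * Real.exp (16 * CM)))).and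
    (ev_rpow (α := 0) (β := -kap - 1 / 16 + 11 / 25) (by linarith) 1)).and
    (ev_rpow (α := 0) (β := 9 / 20) (by norm_num) 4))
  obtain ⟨L0, hL0⟩ := eventually_atTop.1 ev
  refine ⟨L0, ?_⟩
  intro L hL W z1 κ hz1 hκ hW
  obtain ⟨⟨⟨⟨⟨⟨⟨⟨⟨⟨⟨g0, g1⟩, g2⟩, g3⟩, g4⟩, g5⟩, g6⟩, g7⟩, g8⟩, g9⟩, g10⟩, g11⟩ := hL0 L hL
  have hL1 : 0 < L := by linarith
  rw [Real.rpow_zero, mul_one] at g5 g10 g11
  rw [Real.rpow_zero] at g7
  rw [← hz1] at g1 g4 g5
  have hz1' : (3 : ℝ) ≤ z1 := by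
    have : (0 : ℝ) ≤ 210 * q := by positivity
    linarith
  have hz0 : 0 ≤ z1 := by linarith
  have hlogL : 0 ≤ Real.log L := Real.log_nonneg g0
  obtain ⟨E, hE⟩ : ∃ E : ℝ, E = L ^ (9 / 20 : ℝ) := ⟨_, rfl⟩
  rw [← hE] at g1 g2 g6 g11 hW ⊢
  have hE0 : 0 < E := by linarith
  have hexpE : 4 ≤ Real.exp E := by linarith [Real.add_one_le_exp E]
  -- W
  have hW1 : (W : ℝ) ≤ Real.exp E := by rw [hW]; exact Nat.floor_le (Real.exp_pos _).le
  have hW2 : Real.exp E - 1 < W := by rw [hW]; exact Nat.sub_one_lt_floor _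
  have hW3 : Real.exp E / 2 ≤ W := by linarith
  have hW0 : (0 : ℝ) < W := by linarith
  have hlogW : Real.log W ≤ E := by
    rw [← Real.log_exp E]
    exact Real.log_le_log hW0 hW1
  have hlogW' : E / 2 ≤ Real.log W := by
    have h1 := Real.log_le_log (by positivity) hW3
    rw [Real.log_div (Real.exp_pos _).ne' (by norm_num), Real.log_exp] at h1
    have := Real.log_two_lt_d9
    linarith
  have hK1 : Real.log (P0 q) ≤ K := by rw [hK]; linarith [le_abs_self (Real.log (P0 q))]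
  have hK0 : 1 ≤ K := by rw [hK]; linarith [abs_nonneg (Real.log (P0 q))]
  have hP0e : (P0 q : ℝ) ≤ Real.exp (K * z1) := by
    have h1 : (P0 q : ℝ) = Real.exp (Real.log (P0 q)) := (Real.exp_log (by linarith)).symm
    rw [h1, Real.exp_le_exp]
    nlinarith
  have hprod := prod_le (q := q) hz0
  have hprod0 : (0 : ℝ) < ((∏ p ∈ PP q z1, p : ℕ) : ℝ) := by exact_mod_cast prod_pos
  have hPprod : ((P0 q * ∏ p ∈ PP q z1, p : ℕ) : ℝ) ≤ Real.exp ((K + 2) * z1) := by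
    rw [Nat.cast_mul, show (K + 2) * z1 = K * z1 + 2 * z1 by ring, Real.exp_add]
    exact mul_le_mul hP0e hprod hprod0.le (Real.exp_pos _).le
  have hC2 : (0 : ℝ) ≤ C2 := by positivity
  have g1' : (K + 4) * z1 ≤ E := by
    have : 0 ≤ (C2 : ℝ) * ((K + 4) * z1) := by positivity
    nlinarith
  have hPE : ((P0 q * ∏ p ∈ PP q z1, p : ℕ) : ℝ) ≤ Real.exp E := by
    refine hPprod.trans ?_
    rw [Real.exp_le_exp]
    nlinarith
  have hκ0 : 0 < κ := by rw [hκ]; positivity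
  have hκ1 : κ ≤ 1 / 1000 := by
    rw [← hκ] at g7
    linarith
  have hκinv : 1 / κ ≤ Real.exp z1 := by
    rw [hκ, one_div, ← Real.rpow_neg hL1.le, Real.rpow_def_of_pos hL1, Real.exp_le_exp]
    have : -(-kap - 1 / 16) ≤ 1 := by linarith
    nlinarith
  have hL16 : L ^ 16 ≤ Real.exp E - 1 := by
    have h3 : 16 * Real.log L ≤ E / 2 := by
      have : 4 * z1 ≤ E := by nlinarith
      linarith
    have h4 : L ^ 16 = Real.exp (16 * Real.log L) := by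
      rw [show (16 : ℝ) * Real.log L = ((16 : ℕ) : ℝ) * Real.log L by norm_num, Real.exp_nat_mul,
        Real.exp_log hL1]
    have h5 : Real.exp (16 * Real.log L) ≤ Real.exp (E / 2) := Real.exp_le_exp.2 h3
    have h6 : Real.exp E = Real.exp (E / 2) * Real.exp (E / 2) := by
      rw [← Real.exp_add]; congr 1; ring
    have h7 : 2 ≤ Real.exp (E / 2) := by
      have := Real.add_one_le_exp (E / 2)
      linarith
    rw [h4]
    nlinarith
  have hz16 : z1 ^ 16 ≤ W := by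
    have h1 : z1 ≤ L := by
      rw [hz1]
      calc L ^ (2 / 5 : ℝ) ≤ L ^ (1 : ℝ) := Real.rpow_le_rpow_of_exponent_le g0 (by norm_num)
        _ = L := Real.rpow_one L
    have h2 : z1 ^ 16 ≤ L ^ 16 := pow_le_pow_left₀ hz0 h1 16
    linarith
  refine ⟨hPE, hlogW, ?_, hz16, hκ1, ?_⟩
  · push_cast; linarith
  intro b B hb hB hb1 hb2 hB1 hB2 f hf0 hf1
  have hb0 : (0 : ℝ) < b := by exact_mod_cast hb.pos
  have hB0 : (0 : ℝ) < B := by exact_mod_cast hB.pos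
  have g2' : E ≤ L ^ (1 / 2 : ℝ) := by
    have : 0 ≤ (C2 : ℝ) * E := by positivity
    linarith
  have hEb : Real.exp E < b := lt_of_le_of_lt (Real.exp_le_exp.2 g2') hb1
  have hWb : W < b := by
    have : (W : ℝ) < b := lt_of_le_of_lt hW1 hEb
    exact_mod_cast this
  have hPb : P0 q * ∏ p ∈ PP q z1, p < b := by
    have : ((P0 q * ∏ p ∈ PP q z1, p : ℕ) : ℝ) < b := lt_of_le_of_lt hPE hEb
    exact_mod_cast this
  have hbB3 : b ^ 3 ≤ B := by
    have h1 : ((b : ℝ)) ^ 3 ≤ B := by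
      calc (b : ℝ) ^ 3 ≤ Real.exp (L ^ (2 / 3 : ℝ)) ^ 3 := by gcongr
        _ = Real.exp (3 * L ^ (2 / 3 : ℝ)) := by rw [← Real.exp_nat_mul]; norm_num
        _ ≤ Real.exp (L ^ (7 / 10 : ℝ)) := by
            rw [Real.exp_le_exp]
            have : 0 ≤ L ^ (2 / 3 : ℝ) := by positivity
            linarith
        _ ≤ B := hB1.le
    exact_mod_cast h1
  have hbB : b < B := by
    have h1 := hb.two_le
    have h2 : b * 1 < b * (b * b) := Nat.mul_lt_mul_of_pos_left (by nlinarith) hb.pos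
    have h3 : b * (b * b) = b ^ 3 := by ring
    omega
  have hP00 : 0 < P0 q * ∏ p ∈ PP q z1, p := Nat.mul_pos hP0 prod_pos
  have hbP : ¬ b ∣ P0 q * ∏ p ∈ PP q z1, p := fun h => absurd (Nat.le_of_dvd hP00 h) (by omega)
  have hBP : ¬ B ∣ P0 q * ∏ p ∈ PP q z1, p := fun h => absurd (Nat.le_of_dvd hP00 h) (by omega)
  -- the structure with the larger constant
  have hHF : HF C2 (P0 q) b B W (PP q z1) κ f := by
    refine ⟨hP0, fun p hp => ⟨PP_prime p hp, PP_ge p hp, PP_not_dvd p hp⟩, hκ0, hκ1, hf0, hf1, hb,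
      hB, hbB3, ?_, ?_, ?_⟩
    · have h1 : ((P0 q * ∏ p ∈ PP q z1, p : ℕ) : ℝ) / κ ≤ Real.exp ((K + 3) * z1) := by
        rw [div_eq_mul_one_div, show (K + 3) * z1 = (K + 2) * z1 + z1 by ring, Real.exp_add]
        exact mul_le_mul hPprod hκinv (by positivity) (Real.exp_pos _).le
      have h2 : (((P0 q * ∏ p ∈ PP q z1, p : ℕ) : ℝ) / κ) ^ C2 ≤
          Real.exp (C2 * ((K + 3) * z1)) := by
        rw [Real.exp_nat_mul]
        exact pow_le_pow_left₀ (by positivity) h1 _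
      have h3 : (C2 : ℝ) * ((K + 3) * z1) ≤ E - 1 := by
        have : 0 ≤ (C2 : ℝ) * z1 := by positivity
        nlinarith
      have h4 : Real.exp (C2 * ((K + 3) * z1)) ≤ Real.exp (E - 1) := Real.exp_le_exp.2 h3
      have h5 : Real.exp (E - 1) ≤ Real.exp E / 2 := by
        rw [Real.exp_sub]
        have := Real.exp_one_gt_d9
        exact div_le_div_of_nonneg_left (Real.exp_pos _).le (by norm_num) (by linarith)
      linarith
    · calc (W : ℝ) ^ C2 ≤ Real.exp E ^ C2 := by gcongr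
        _ = Real.exp (C2 * E) := by rw [← Real.exp_nat_mul]
        _ ≤ Real.exp (L ^ (1 / 2 : ℝ)) := by
            rw [Real.exp_le_exp]
            linarith
        _ ≤ b := hb1.le
    · have h1 : Real.log B ≤ L := by
        have h2 := Real.log_le_log hB0 hB2
        rw [Real.log_exp] at h2
        refine h2.trans ?_
        calc L ^ (9 / 10 : ℝ) ≤ L ^ (1 : ℝ) := Real.rpow_le_rpow_of_exponent_le g0 (by norm_num)
          _ = L := Real.rpow_one L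
      have h0 : 0 ≤ Real.log B := Real.log_nonneg (by exact_mod_cast hB.one_lt.le)
      have h2 : Real.log B ^ 16 ≤ L ^ 16 := pow_le_pow_left₀ h0 h1 16
      have h3 : L ^ 16 ≤ Real.exp E - 1 := hL16
      linarith
  have mono : ∀ C : ℕ, C ≤ C2 → HF C (P0 q) b B W (PP q z1) κ f := by
    intro C hC
    refine ⟨hHF.P0pos, hHF.PPp, hHF.κ0, hHF.κ1, hHF.f0, hHF.f1, hHF.bp, hHF.Bp, hHF.bB, ?_, ?_,
      hHF.BW⟩
    · refine (pow_le_pow_right₀ ?_ hC).trans hHF.big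
      rw [le_div_iff₀ hκ0]
      have : (1 : ℝ) ≤ ((P0 q * ∏ p ∈ PP q z1, p : ℕ) : ℝ) := by exact_mod_cast hP00
      linarith
    · refine (pow_le_pow_right₀ ?_ hC).trans hHF.Wb
      linarith
  refine ⟨mono C0 (le_max_left _ _), hbP, hBP, hWb, hbB, ?_⟩
  intro M0 x y hxy
  have hlow := hFL (P0 q) b B W (PP q z1) κ f (mono C1 (le_max_right _ _)) M0 x y hxy
  have hprodlow := prod_low (q := q) (hM z1 hz1')
  -- log z1 ≤ log L ≤ L^(1/3200)
  have hlz : Real.log z1 ≤ Real.log L := by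
    rw [hz1, Real.log_rpow hL1]
    linarith
  have hlz0 : 0 < Real.log z1 := Real.log_pos (by linarith)
  have h1 : Real.exp (-(16 * (Real.log (Real.log z1) + CM))) =
      (Real.log z1 ^ 16)⁻¹ * Real.exp (-(16 * CM)) := by
    rw [show -(16 * (Real.log (Real.log z1) + CM)) =
      -(((16 : ℕ) : ℝ) * Real.log (Real.log z1)) + -(16 * CM) by push_cast; ring, Real.exp_add,
      Real.exp_neg, Real.exp_nat_mul, Real.exp_log hlz0]
  have h2 : Real.log z1 ^ 16 ≤ L ^ (1 / 200 : ℝ) := by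
    have : Real.log z1 ≤ L ^ (1 / 3200 : ℝ) := by linarith
    calc Real.log z1 ^ 16 ≤ (L ^ (1 / 3200 : ℝ)) ^ 16 := pow_le_pow_left₀ hlz0.le this 16
      _ = L ^ (1 / 200 : ℝ) := by
          rw [← Real.rpow_natCast, ← Real.rpow_mul hL1.le]; norm_num
  rw [h1] at hprodlow
  have hLp : 0 < L ^ (1 / 200 : ℝ) := by positivity
  have hex : 0 < Real.exp (16 * CM) := Real.exp_pos _
  have hlow2 : κ * L ^ (11 / 25 : ℝ) ≤ EE (P0 q) (PP q z1) κ f b B W M0 x y := by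
    refine le_trans ?_ hlow
    have h3 : (L ^ (1 / 200 : ℝ))⁻¹ * (Real.exp (16 * CM))⁻¹ ≤
        ∏ p ∈ PP q z1, (1 - 1 / (p : ℝ)) ^ 8 := by
      refine le_trans ?_ hprodlow
      rw [Real.exp_neg (16 * CM)]
      exact mul_le_mul_of_nonneg_right (inv_anti₀ (by positivity) h2) (by positivity)
    have hP3 : (0 : ℝ) < (P0 q : ℝ) ^ 3 := by positivity
    calc κ * L ^ (11 / 25 : ℝ)
        ≤ c0 * κ * (E / 2) / (P0 q : ℝ) ^ 3 *
          ((L ^ (1 / 200 : ℝ))⁻¹ * (Real.exp (16 * CM))⁻¹) := by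
          have e1 : E = L ^ (1 / 100 : ℝ) * L ^ (11 / 25 : ℝ) := by
            rw [hE, ← Real.rpow_add hL1]; norm_num
          rw [e1]
          rw [show c0 * κ * (L ^ (1 / 100 : ℝ) * L ^ (11 / 25 : ℝ) / 2) / (P0 q : ℝ) ^ 3 *
            ((L ^ (1 / 200 : ℝ))⁻¹ * (Real.exp (16 * CM))⁻¹) =
            κ * L ^ (11 / 25 : ℝ) * (L ^ (1 / 100 : ℝ) *
              (2 * (P0 q : ℝ) ^ 3 / c0 * Real.exp (16 * CM) * L ^ (1 / 200 : ℝ))⁻¹) by
            field_simp]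
          have h5 : 0 < 2 * (P0 q : ℝ) ^ 3 / c0 * Real.exp (16 * CM) * L ^ (1 / 200 : ℝ) := by
            positivity
          have h6 : 1 ≤ L ^ (1 / 100 : ℝ) *
              (2 * (P0 q : ℝ) ^ 3 / c0 * Real.exp (16 * CM) * L ^ (1 / 200 : ℝ))⁻¹ := by
            rw [← div_eq_mul_inv, le_div_iff₀ h5, one_mul]
            exact g9
          have h7 : 0 < κ * L ^ (11 / 25 : ℝ) := by positivity
          nlinarith
      _ ≤ c0 * κ * Real.log W / (P0 q : ℝ) ^ 3 * ∏ p ∈ PP q z1, (1 - 1 / (p : ℝ)) ^ 8 := by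
          gcongr
  refine ⟨?_, hlow2⟩
  refine le_trans ?_ hlow2
  rw [hκ, ← Real.rpow_add hL1]
  exact g10

end LKP

namespace LKM

theorem ev_rpow {α β : ℝ} (h : α < β) (K : ℝ) : ∀ᶠ L : ℝ in atTop, K * L ^ α ≤ L ^ β :=
  LKP.ev_rpow h K

theorem ev_log {α : ℝ} (h : 0 < α) (K : ℝ) : ∀ᶠ L : ℝ in atTop, K * Real.log L ≤ L ^ α :=
  LKP.ev_log h K

end LKM

end Pool.Agent.MR2
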