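import Pool.Agent.Lib.MR2.LKMb

/-! TANK MR2, stage 2, row LKM, part 3: the cell lemma. helper88. -/

set_option autoImplicit false

namespace Pool.Agent.MR2.LKM

open Finset Pool.Agent.MRL

noncomputable section

variable {C2 C3 C4 q a P0 g b B W : ℕ} {PP : Finset ℕ} {κ c R t z1 f : ℝ}

/-- members of one class -/
def Same (PP : Finset ℕ) (t : ℝ) (n₁ n : ℕ) : Prop :=
  n ≡ n₁ [MOD (∏ p ∈ PP, p) ^ 2] ∧ ⌊t / n⌋₊ ≡ ⌊t / n₁⌋₊ [MOD ∏ p ∈ PP, p]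

/-- the class of `n₁` -/
abbrev SC (q P0 b B : ℕ) (PP : Finset ℕ) (κ R t f : ℝ) (n₁ : ℕ) : Finset ℕ :=
  ES t R (q * (∏ p ∈ PP, p) ^ 2 * (b * B)) n₁ (P0 * ∏ p ∈ PP, p) ⌊t / n₁⌋₊ f (f + 0.05 * κ)

theorem mem_SC (h : CH C2 C3 C4 q P0 g b B W PP κ c R t z1 f) {n₁ n : ℕ}
    (h₁ : Cnd q a P0 g b B κ c R t z1 f n₁) (hn : Cnd q a P0 g b B κ c R t z1 f n)
    (hs : Same PP t n₁ n) : n ∈ SC q P0 b B PP κ R t f n₁ := by
  obtain ⟨a1, a2, a3, a4, a5, a6, a7, a8, a9, a10, a11, a12⟩ := hn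
  obtain ⟨b1, b2, b3, b4, b5, b6, b7, b8, b9, b10, b11, b12⟩ := h₁
  have hsq : 0 ≤ √t := Real.sqrt_nonneg t
  have hR := h.R1
  have hn0 : 0 < n := by
    by_contra h0
    have : n = 0 := by omega
    rw [this, Nat.cast_zero] at a1
    have : 0 ≤ R * √t := by positivity
    linarith
  rw [mem_ES]
  refine ⟨⟨hn0, Nat.le_floor a2⟩, a1, ?_, ?_, a11, a12⟩
  · have hcoq : Nat.Coprime q ((∏ p ∈ PP, p) ^ 2) :=
      (Nat.Coprime.coprime_dvd_left h.qP h.coP).pow_right 2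
    have hco1 : Nat.Coprime (q * (∏ p ∈ PP, p) ^ 2) (b * B) :=
      h.co_of (h.b_co.mul_left h.B_co)
    refine (Nat.modEq_and_modEq_iff_modEq_mul hco1).1 ⟨?_, ?_⟩
    · exact (Nat.modEq_and_modEq_iff_modEq_mul hcoq).1 ⟨a3.trans b3.symm, hs.1⟩
    · refine (Nat.modEq_and_modEq_iff_modEq_mul h.bB_co).1 ⟨?_, ?_⟩
      · exact (Nat.modEq_zero_iff_dvd.2 a9).trans (Nat.modEq_zero_iff_dvd.2 b9).symm
      · have k1 : n + g ≡ n₁ + g [MOD B] :=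
          (Nat.modEq_zero_iff_dvd.2 a10).trans (Nat.modEq_zero_iff_dvd.2 b10).symm
        exact Nat.ModEq.add_right_cancel' g k1
  · exact (Nat.modEq_and_modEq_iff_modEq_mul h.coP).1 ⟨a6.trans b6.symm, hs.2⟩

theorem of_mem_SC {n₁ n : ℕ}
    (h₁ : Cnd q a P0 g b B κ c R t z1 f n₁) (hn : n ∈ SC q P0 b B PP κ R t f n₁) :
    0 < n ∧ b ∣ n ∧ B ∣ n + g := by
  obtain ⟨b1, b2, b3, b4, b5, b6, b7, b8, b9, b10, b11, b12⟩ := h₁
  rw [mem_ES] at hn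
  obtain ⟨h1, h2, h3, h4, h5, h6⟩ := hn
  have h7 : n ≡ n₁ [MOD (q * (∏ p ∈ PP, p) ^ 2 * (b * B))] := h3
  have h8 : n ≡ n₁ [MOD b] := h7.of_dvd ⟨q * (∏ p ∈ PP, p) ^ 2 * B, by ring⟩
  have h9 : n ≡ n₁ [MOD B] := h7.of_dvd ⟨q * (∏ p ∈ PP, p) ^ 2 * b, by ring⟩
  refine ⟨h1.1, ?_, ?_⟩
  · exact Nat.modEq_zero_iff_dvd.1 (h8.trans (Nat.modEq_zero_iff_dvd.2 b9))
  · exact Nat.modEq_zero_iff_dvd.1 ((h9.add_right g).trans (Nat.modEq_zero_iff_dvd.2 b10))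

/-- the chain for one solution -/
theorem chain_use (h5 : ChainM) (h : CH C2 C3 C4 q P0 g b B W PP κ c R t z1 f) {n₁ n : ℕ}
    (hn : Cnd q a P0 g b B κ c R t z1 f n) (hs : Same PP t n₁ n) {e : ℕ × ℕ × ℕ}
    (he : e ∈ Fam P0 PP κ f b B W ⌊t / n₁⌋₊ (xx g n₁) (yy g n₁))
    (hd : cd b B e ∣ cU b ⌊t / n⌋₊ e) :
    (∀ N ∈ num b B g n ⌊t / n⌋₊ e, t < N ∧ (N : ℝ) < t + c * √t ∧ N ≡ a [MOD q] ∧ SF z1 N) ∧
    (ConstM q a t (c * √t) → ∃ N ∈ num b B g n ⌊t / n⌋₊ e, ¬ Squarefree N) := by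
  classical
  obtain ⟨a1, a2, a3, a4, a5, a6, a7, a8, a9, a10, a11, a12⟩ := hn
  unfold Fam at he
  rw [mem_filter] at he
  obtain ⟨-, he1, he2⟩ := he
  have hM : ∀ p ∈ PP, ⌊t / n⌋₊ ≡ ⌊t / n₁⌋₊ [MOD p] := fun p hp =>
    hs.2.of_dvd (Finset.dvd_prod_of_mem (fun p => p) hp)
  have hnn : ∀ p ∈ PP, n₁ ≡ n [MOD p ^ 2] := fun p hp =>
    (hs.1.of_dvd (pow_dvd_pow_of_dvd (Finset.dvd_prod_of_mem (fun p => p) hp) 2)).symm
  have hch := h5 q a P0 g b B ⌊t / n₁⌋₊ n PP κ c R t z1 f W e h.q1 h.qg h.g0 h.qP h.c0 h.c1 h.gR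
    h.t4 h.κe h.PPz (fun p hp => h.prime hp) h.HF2.bp h.HF2.Bp h.blt h.Wlt h.bn h.Bn he1 a3 a4 a5
    a9 a10 a1 a2 a6 a7 a11 a12.le hM (fun p hp => siev_congr (xx_congr (h.prime hp).pos (hnn p hp))
      (yy_congr (h.prime hp).pos (hnn p hp)) (he2 p hp)) hd
  refine ⟨hch.1, fun hC => ?_⟩
  by_contra hc
  push Not at hc
  exact a8 (hch.2 hC hc)

/-- **the cell lemma** -/
theorem cell_bound {CS : ℝ} (h2 : SMMc C2) (h3 : SpSc CS C3) (h4 : SpLc C4 t) (h5 : ChainM)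
    (h6 : EqT t) (h : CH C2 C3 C4 q P0 g b B W PP κ c R t z1 f) (hCS : 0 < CS)
    (hC : ConstM q a t (c * √t)) {E0 : ℝ} (hE0 : 1 ≤ E0)
    (hEE : ∀ (M0 : ℕ) (x y : ℕ → ℤ), XY PP x y → E0 ≤ EE P0 PP κ f b B W M0 x y)
    {s : Finset ℕ} (hs : ∀ n ∈ s, Cnd q a P0 g b B κ c R t z1 f n)
    (hs2 : ∀ n ∈ s, ∀ n' ∈ s, Same PP t n' n) :
    (s.card : ℝ) ≤ (8 / E0 + 2 * CS * (1 + κ * Real.log W / E0) / z1) * AA q P0 b B PP κ R t +
      (t ^ (9 / 20 : ℝ) * (B : ℝ) ^ C2 + 2 * (t ^ (9 / 20 : ℝ) * t ^ (1 / 1000 : ℝ) * (B : ℝ) ^ C3) +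
        (B : ℝ) ^ C4 * t ^ (999 / 2000 : ℝ)) := by
  classical
  have ht0 : 0 ≤ t := by linarith [h.t4]
  have hA := h.AA_nonneg
  have hW1 : (1 : ℝ) ≤ W := by
    have h7 := h.z16
    have h8 : (1 : ℝ) ≤ z1 ^ 16 := one_le_pow₀ h.z1one
    linarith
  have hlW : 0 ≤ Real.log W := Real.log_nonneg hW1
  have hκ := h.HF2.κ0
  have hz := h.z1one
  have hz0 : 0 < z1 := by linarith
  have hE00 : 0 < E0 := by linarith
  have hη : 0 ≤ t ^ (9 / 20 : ℝ) := Real.rpow_nonneg ht0 _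
  have hY : 0 ≤ t ^ (1 / 1000 : ℝ) := Real.rpow_nonneg ht0 _
  have hY2 : 0 ≤ t ^ (999 / 2000 : ℝ) := Real.rpow_nonneg ht0 _
  rcases s.eq_empty_or_nonempty with h0 | ⟨n₁, hn₁⟩
  · rw [h0, card_empty, Nat.cast_zero]
    positivity
  have hc₁ := hs n₁ hn₁
  set M₁ := ⌊t / n₁⌋₊ with hM₁
  set S := SC q P0 b B PP κ R t f n₁ with hS
  set F := Fam P0 PP κ f b B W M₁ (xx g n₁) (yy g n₁) with hF
  set E := EE P0 PP κ f b B W M₁ (xx g n₁) (yy g n₁) with hE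
  have hXY : XY PP (xx g n₁) (yy g n₁) :=
    xy_of_SF (fun p hp => ⟨h.prime hp, h.PPle p hp⟩) hc₁.2.2.2.1
  have hEE1 : E0 ≤ E := hEE M₁ _ _ hXY
  have hE1 : 1 ≤ E := hE0.trans hEE1
  have hE0' : 0 < E := by linarith
  have hsS : s ⊆ S := fun n hn => mem_SC h hc₁ (hs n hn) (hs2 n hn n₁ hn₁)
  set sol : ℕ → Finset (ℕ × ℕ × ℕ) := fun n => F.filter fun e => cd b B e ∣ cU b ⌊t / n⌋₊ e
    with hsol
  -- few solutions
  set s1 : Finset ℕ := s.filter fun n : ℕ => ((sol n).card : ℝ) ≤ E / 2 with hs1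
  have hb1 : (s1.card : ℝ) ≤ 8 * AA q P0 b B PP κ R t / E + t ^ (9 / 20 : ℝ) * (B : ℝ) ^ C2 := by
    refine h2 P0 b B W PP κ f h.HF2 M₁ _ _ hXY hE1 S (fun n => ⌊t / n⌋₊) _ _ hA hη ?_ s1
      ((filter_subset _ _).trans hsS) ?_
    · intro m r hm0 hmB hm
      exact equi_mod h h6 hm0 hmB hm
    · intro n hn
      rw [hs1, mem_filter] at hn
      exact hn.2
  -- spoiled by a large prime
  set s2 : Finset ℕ := s.filter fun n : ℕ => ∃ e ∈ F, cd b B e ∣ cU b ⌊t / n⌋₊ e ∧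
    ∃ N ∈ num b B g n ⌊t / n⌋₊ e, ∃ r : ℕ, r.Prime ∧ t ^ (1 / 1000 : ℝ) < r ∧ r ^ 2 ∣ N with hs2'
  have hb2 : (s2.card : ℝ) ≤ (B : ℝ) ^ C4 * t ^ (999 / 2000 : ℝ) := by
    refine h4 P0 b B W PP κ f h.HF4 M₁ (xx g n₁) (yy g n₁) g h.g0 h.gt s2 ?_
    intro n hn
    rw [hs2', mem_filter] at hn
    obtain ⟨hn1, e, he, hd, N, hN, r, hr1, hr2, hr3⟩ := hn
    obtain ⟨k1, k2, k3⟩ := of_mem_SC hc₁ (hsS hn1)
    have hch := (chain_use h5 h (hs n hn1) (hs2 n hn1 n₁ hn₁) he hd).1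
    refine ⟨k1, k2, k3, e, he, ⌊t / n⌋₊, hd, fun N' hN' => ⟨(hch N' hN').1, ?_⟩, N, hN, r, hr1,
      hr2, hr3⟩
    refine (hch N' hN').2.1.trans_le ?_
    have : c * √t ≤ 1 * √t := mul_le_mul_of_nonneg_right h.c1 (Real.sqrt_nonneg _)
    linarith
  -- the rest: all solutions are spoiled by primes of middle size
  set s3 := (s \ s1) \ s2 with hs3
  have hs3m : ∀ n ∈ s3, n ∈ s ∧ E / 2 < ((sol n).card : ℝ) ∧ n ∉ s2 := by
    intro n hn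
    rw [hs3, mem_sdiff, mem_sdiff] at hn
    refine ⟨hn.1.1, ?_, hn.2⟩
    by_contra hc
    exact hn.1.2 (mem_filter.2 ⟨hn.1.1, not_lt.1 hc⟩)
  set T : ℕ × ℕ × ℕ → Finset ℕ := fun e => s3.filter fun n : ℕ => cd b B e ∣ cU b ⌊t / n⌋₊ e with hT
  have hb3 : ∑ e ∈ F, ((T e).card : ℝ) ≤
      CS * AA q P0 b B PP κ R t * (E + κ * Real.log W) / z1 +
        t ^ (9 / 20 : ℝ) * t ^ (1 / 1000 : ℝ) * (B : ℝ) ^ C3 := by
    refine h3 P0 b B W PP κ f h.HF3 M₁ (xx g n₁) (yy g n₁) g z1 (t ^ (1 / 1000 : ℝ)) h.z1one h.z16 h.g0 h.gz h.zY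
      h.P0z h.PPle S (fun n => ⌊t / n⌋₊) _ _ hA hη (fun n hn => of_mem_SC hc₁ hn) ?_ T ?_
    · intro i j m r u v hi hj hr hrz hrY hm0 hmB hm
      exact count_le h h6 hi hj hr hrz hrY hm0 hmB hm
    · intro e he
      refine ⟨fun n hn => hsS (hs3m n (mem_filter.1 hn).1).1, fun n hn => ?_⟩
      obtain ⟨hn1, hd⟩ := mem_filter.1 hn
      obtain ⟨hn2, -, hn4⟩ := hs3m n hn1
      have hch := chain_use h5 h (hs n hn2) (hs2 n hn2 n₁ hn₁) he hd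
      obtain ⟨N, hN, hNsq⟩ := hch.2 hC
      rw [Nat.squarefree_iff_prime_squarefree] at hNsq
      push Not at hNsq
      obtain ⟨r, hr, hrN⟩ := hNsq
      rw [← pow_two] at hrN
      refine ⟨hd, r, hr, ?_, ?_, N, hN, hrN⟩
      · by_contra hc
        exact (hch.1 N hN).2.2.2 r hr (not_lt.1 hc) hrN
      · by_contra hc
        apply hn4
        rw [hs2', mem_filter]
        exact ⟨hn2, e, he, hd, N, hN, r, hr, not_le.1 hc, hrN⟩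
  have hdc : ∑ e ∈ F, ((T e).card : ℝ) = ∑ n ∈ s3, ((sol n).card : ℝ) := by
    have h7 : ∑ e ∈ F, (T e).card = ∑ n ∈ s3, (sol n).card := by
      simp only [hT, hsol, card_filter]
      rw [sum_comm]
    exact_mod_cast h7
  have hb4 : (s3.card : ℝ) * (E / 2) ≤ ∑ e ∈ F, ((T e).card : ℝ) := by
    rw [hdc, ← nsmul_eq_mul]
    exact card_nsmul_le_sum _ _ _ fun n hn => (hs3m n hn).2.1.le
  have hb5 : (s3.card : ℝ) ≤ 2 * CS * (1 + κ * Real.log W / E0) / z1 * AA q P0 b B PP κ R t +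
      2 * (t ^ (9 / 20 : ℝ) * t ^ (1 / 1000 : ℝ) * (B : ℝ) ^ C3) := by
    have h7 := hb4.trans hb3
    have h8 : (s3.card : ℝ) ≤ (CS * AA q P0 b B PP κ R t * (E + κ * Real.log W) / z1 +
        t ^ (9 / 20 : ℝ) * t ^ (1 / 1000 : ℝ) * (B : ℝ) ^ C3) / (E / 2) := by
      rw [le_div_iff₀ (by linarith)]
      exact h7
    refine h8.trans ?_
    rw [add_div]
    refine add_le_add ?_ ?_
    · have h9 : CS * AA q P0 b B PP κ R t * (E + κ * Real.log W) / z1 / (E / 2) =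
          2 * CS * (1 + κ * Real.log W / E) / z1 * AA q P0 b B PP κ R t := by
        field_simp
      rw [h9]
      have h10 : κ * Real.log W / E ≤ κ * Real.log W / E0 :=
        div_le_div_of_nonneg_left (by positivity) hE00 hEE1
      gcongr
    · rw [div_le_iff₀ (by linarith)]
      have h11 : 0 ≤ t ^ (9 / 20 : ℝ) * t ^ (1 / 1000 : ℝ) * (B : ℝ) ^ C3 := by positivity
      nlinarith
  have hcov : (s.card : ℝ) ≤ s1.card + s2.card + s3.card := by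
    have h7 : s ⊆ s1 ∪ (s2 ∪ s3) := by
      intro n hn
      rw [mem_union, mem_union, hs3, mem_sdiff, mem_sdiff]
      by_cases k1 : n ∈ s1
      · exact Or.inl k1
      · by_cases k2 : n ∈ s2
        · exact Or.inr (Or.inl k2)
        · exact Or.inr (Or.inr ⟨⟨hn, k1⟩, k2⟩)
    have h8 := (card_le_card h7).trans ((card_union_le _ _).trans
      (Nat.add_le_add_left (card_union_le _ _) _))
    have h9 : (s.card : ℝ) ≤ (s1.card : ℝ) + ((s2.card : ℝ) + s3.card) := by exact_mod_cast h8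
    linarith
  have h7 : 8 * AA q P0 b B PP κ R t / E ≤ 8 / E0 * AA q P0 b B PP κ R t := by
    rw [mul_div_right_comm]
    gcongr
  calc (s.card : ℝ) ≤ s1.card + s2.card + s3.card := hcov
    _ ≤ (8 / E0 * AA q P0 b B PP κ R t + t ^ (9 / 20 : ℝ) * (B : ℝ) ^ C2) +
        (B : ℝ) ^ C4 * t ^ (999 / 2000 : ℝ) +
        (2 * CS * (1 + κ * Real.log W / E0) / z1 * AA q P0 b B PP κ R t +
          2 * (t ^ (9 / 20 : ℝ) * t ^ (1 / 1000 : ℝ) * (B : ℝ) ^ C3)) :=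
        add_le_add (add_le_add (hb1.trans (by linarith)) hb2) hb5
    _ = _ := by ring

end

end Pool.Agent.MR2.LKM
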