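import Pool.Agent.Lib.MR2.LKMc
import Pool.Agent.Lib.MR2.LKB

/-! # TANK MR2, stage 2, row LKM, part C: the sum over the classes and the cells (helper67) -/

set_option autoImplicit false

namespace Pool.Agent.MR2.LKM

open Finset Filter Topology Pool.Agent.MRL

noncomputable section

/-- **(C1)** from one class to one cell. -/
theorem cell_of_class {PP : Finset ℕ} {t X : ℝ} (hp : ∀ p ∈ PP, p.Prime) (s : Finset ℕ)
    (h : ∀ s' ⊆ s, (∀ n ∈ s', ∀ n' ∈ s', Same PP t n' n) → (s'.card : ℝ) ≤ X) :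
    (s.card : ℝ) ≤ X * ((∏ p ∈ PP, p : ℕ) : ℝ) ^ 3 := by
  classical
  set Q : ℕ := ∏ p ∈ PP, p with hQ
  have hQ0 : 0 < Q := Finset.prod_pos fun p h1 => (hp p h1).pos
  have hmap : ∀ n ∈ s, (n % Q ^ 2, ⌊t / n⌋₊ % Q) ∈ range (Q ^ 2) ×ˢ range Q := by
    intro n _
    rw [mem_product, mem_range, mem_range]
    exact ⟨Nat.mod_lt _ (by positivity), Nat.mod_lt _ hQ0⟩
  have h1 := Finset.card_eq_sum_card_fiberwise (s := s) (t := range (Q ^ 2) ×ˢ range Q)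
    (f := fun n : ℕ => (n % Q ^ 2, ⌊t / n⌋₊ % Q)) (fun n hn => hmap n hn)
  have h2 : (s.card : ℝ) = ∑ i ∈ range (Q ^ 2) ×ˢ range Q,
      ((s.filter (fun n : ℕ => (n % Q ^ 2, ⌊t / n⌋₊ % Q) = i)).card : ℝ) := by
    rw [h1]
    push_cast
    rfl
  rw [h2]
  calc ∑ i ∈ range (Q ^ 2) ×ˢ range Q,
      ((s.filter (fun n : ℕ => (n % Q ^ 2, ⌊t / n⌋₊ % Q) = i)).card : ℝ)
      ≤ ∑ i ∈ range (Q ^ 2) ×ˢ range Q, X := by
        apply sum_le_sum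
        intro i _
        apply h _ (filter_subset _ _)
        intro n hn n' hn'
        have k1 := (mem_filter.1 hn).2
        have k2 := (mem_filter.1 hn').2
        have k3 := k1.trans k2.symm
        rw [Prod.mk.injEq] at k3
        exact ⟨k3.1, k3.2⟩
    _ = X * (Q : ℝ) ^ 3 := by
        rw [sum_const, card_product, card_range, card_range, nsmul_eq_mul]
        push_cast
        ring

/-- covering by the sieved sets and the cells. -/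
theorem coverM {t γ : ℝ} {g J : ℕ} (hγ : 0 < γ) (s P Q : Finset ℕ)
    (hs : ∀ n ∈ s, ⌊Int.fract (t / n) / γ⌋₊ ≤ J) :
    (s.card : ℝ) ≤ ((s.filter (fun n => ∀ p ∈ P, ¬ p ∣ n)).card : ℝ) +
      (s.filter (fun n => ∀ p ∈ Q, ¬ p ∣ n + g)).card +
      ∑ i ∈ P ×ˢ Q ×ˢ range (J + 1),
        ((s.filter (fun n => i.1 ∣ n ∧ i.2.1 ∣ n + g ∧ (i.2.2 : ℝ) * γ ≤ Int.fract (t / n) ∧
          Int.fract (t / n) < (i.2.2 : ℝ) * γ + γ)).card : ℝ) := by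
  classical
  have hcover : s ⊆ (s.filter (fun n => ∀ p ∈ P, ¬ p ∣ n) ∪
      s.filter (fun n => ∀ p ∈ Q, ¬ p ∣ n + g)) ∪
      (P ×ˢ Q ×ˢ range (J + 1)).biUnion
        (fun i => s.filter (fun n => i.1 ∣ n ∧ i.2.1 ∣ n + g ∧
          (i.2.2 : ℝ) * γ ≤ Int.fract (t / n) ∧
          Int.fract (t / n) < (i.2.2 : ℝ) * γ + γ)) := by
    intro n hn
    rw [mem_union, mem_union]
    by_cases k1 : ∀ p ∈ P, ¬ p ∣ n
    · exact Or.inl (Or.inl (mem_filter.2 ⟨hn, k1⟩))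
    by_cases k2 : ∀ p ∈ Q, ¬ p ∣ n + g
    · exact Or.inl (Or.inr (mem_filter.2 ⟨hn, k2⟩))
    right
    push Not at k1 k2
    obtain ⟨b1, hb1, hd1⟩ := k1
    obtain ⟨b2, hb2, hd2⟩ := k2
    have hfr0 : 0 ≤ Int.fract (t / (n : ℝ)) := Int.fract_nonneg _
    rw [mem_biUnion]
    refine ⟨(b1, b2, ⌊Int.fract (t / (n : ℝ)) / γ⌋₊), ?_, ?_⟩
    · simp only [mem_product, mem_range]
      exact ⟨hb1, hb2, Nat.lt_succ_of_le (hs n hn)⟩
    · simp only [mem_filter]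
      have k3 : ((⌊Int.fract (t / (n : ℝ)) / γ⌋₊ : ℕ) : ℝ) ≤
          Int.fract (t / (n : ℝ)) / γ := Nat.floor_le (by positivity)
      have k4 := Nat.lt_floor_add_one (Int.fract (t / (n : ℝ)) / γ)
      rw [le_div_iff₀ hγ] at k3
      rw [div_lt_iff₀ hγ] at k4
      exact ⟨hn, hd1, hd2, k3, by linarith⟩
  have k1 := (card_le_card hcover).trans (card_union_le _ _)
  have k2 := card_union_le (s.filter (fun n => ∀ p ∈ P, ¬ p ∣ n))
    (s.filter (fun n => ∀ p ∈ Q, ¬ p ∣ n + g))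
  have k3 := card_biUnion_le (s := P ×ˢ Q ×ˢ range (J + 1))
    (t := fun i => s.filter (fun n => i.1 ∣ n ∧ i.2.1 ∣ n + g ∧
          (i.2.2 : ℝ) * γ ≤ Int.fract (t / n) ∧
          Int.fract (t / n) < (i.2.2 : ℝ) * γ + γ))
  have k4 := k1.trans (add_le_add k2 k3)
  exact_mod_cast k4

/-- the sum over pairs and cells. -/
theorem sum_pairsM {A e0 : ℝ} (J : ℕ) (P Q : Finset ℕ) :
    ∑ i ∈ P ×ˢ Q ×ˢ range (J + 1), (A / ((i.1 : ℝ) * i.2.1) + e0) =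
      A * ((J : ℝ) + 1) * ((∑ p ∈ P, 1 / (p : ℝ)) * ∑ p ∈ Q, 1 / (p : ℝ)) +
        (P.card : ℝ) * (Q.card * (J + 1)) * e0 := by
  rw [sum_add_distrib, sum_const, card_product, card_product, card_range, nsmul_eq_mul]
  congr 1
  · rw [sum_product, sum_mul_sum, mul_sum]
    apply sum_congr rfl
    intro a _
    rw [sum_product, mul_sum]
    apply sum_congr rfl
    intro b _
    simp only [sum_const, card_range, nsmul_eq_mul]
    push_cast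
    ring
  · push_cast
    ring

/-- the primes of `(y, z]`. -/
def PR (y z : ℝ) : Finset ℕ := (Icc 1 ⌊z⌋₊).filter (fun p : ℕ => p.Prime ∧ y < p)

theorem mem_PR {y z : ℝ} (hz : 0 ≤ z) {p : ℕ} : p ∈ PR y z ↔ p.Prime ∧ y < p ∧ (p : ℝ) ≤ z := by
  unfold PR
  rw [mem_filter, mem_Icc, Nat.le_floor_iff hz]
  constructor
  · rintro ⟨⟨_, h1⟩, h2, h3⟩
    exact ⟨h2, h3, h1⟩
  · rintro ⟨h2, h3, h1⟩
    exact ⟨⟨h2.one_lt.le, h1⟩, h2, h3⟩

theorem PR_card {y z : ℝ} (hz : 0 ≤ z) : ((PR y z).card : ℝ) ≤ z := by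
  have k1 : (PR y z).card ≤ ⌊z⌋₊ := by
    unfold PR
    refine (Finset.card_filter_le _ _).trans ?_
    rw [Nat.card_Icc]
    omega
  calc ((PR y z).card : ℝ) ≤ (⌊z⌋₊ : ℝ) := by exact_mod_cast k1
    _ ≤ z := Nat.floor_le hz

theorem PR_sum {y z L CM α : ℝ} (l0 : 1 ≤ L) (hz3 : 3 ≤ z) (hα : 0 < α) (hα1 : α ≤ 1)
    (h5 : ∑ p ∈ (Icc 1 ⌊z⌋₊).filter Nat.Prime, 1 / (p : ℝ) ≤ Real.log (Real.log z) + CM)
    (hz : z = Real.exp (L ^ α)) (l2 : 2 * Real.log L ≤ L ^ (1 / 1000 : ℝ))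
    (l3 : 2 * |CM| * L ^ (0 : ℝ) ≤ L ^ (1 / 1000 : ℝ)) :
    ∑ p ∈ PR y z, 1 / (p : ℝ) ≤ L ^ (1 / 1000 : ℝ) := by
  have hL1 : 0 < L := by linarith
  have k2 : ∑ p ∈ PR y z, 1 / (p : ℝ) ≤ ∑ p ∈ (Icc 1 ⌊z⌋₊).filter Nat.Prime, 1 / (p : ℝ) := by
    apply Finset.sum_le_sum_of_subset_of_nonneg
    · intro p hp
      have := mem_filter.1 hp
      exact mem_filter.2 ⟨this.1, this.2.1⟩
    · intro p _ _
      positivity
  have k5 : 0 ≤ Real.log L := Real.log_nonneg l0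
  have k3 : Real.log (Real.log z) ≤ Real.log L := by
    rw [hz, Real.log_exp, Real.log_rpow hL1]
    nlinarith
  have k7 := le_abs_self CM
  rw [Real.rpow_zero, mul_one] at l3
  linarith

theorem num_sv {L CS R s A : ℝ} {α β : ℝ} (l0 : 1 ≤ L) (hab : α - β ≤ -(1 / 6))
    (l4 : 4 * CS * L ^ (0 : ℝ) ≤ L ^ (1 / 48 : ℝ)) (hCS : 0 < CS)
    (hR : R = L ^ (1 / 16 : ℝ)) (hs : 0 < s) (hA : A ≤ CS * (2 * R * s) * (L ^ α / L ^ β)) :
    A ≤ s * L ^ (-(1 / 12 : ℝ)) / 2 := by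
  have hL1 : 0 < L := by linarith
  have hadd : ∀ x y : ℝ, L ^ x * L ^ y = L ^ (x + y) := fun x y => (Real.rpow_add hL1 x y).symm
  refine hA.trans ?_
  rw [Real.rpow_zero, mul_one] at l4
  have e1 : L ^ α / L ^ β ≤ L ^ (-(1 / 6 : ℝ)) := by
    rw [← Real.rpow_sub hL1]
    exact Real.rpow_le_rpow_of_exponent_le l0 hab
  have e3 : L ^ (-(1 / 12 : ℝ)) = L ^ (1 / 48 : ℝ) * (R * L ^ (-(1 / 6 : ℝ))) := by
    rw [hR, hadd, hadd]
    congr 1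
    norm_num
  rw [e3]
  have hR0 : 0 < R := by rw [hR]; positivity
  calc CS * (2 * R * s) * (L ^ α / L ^ β) ≤ CS * (2 * R * s) * L ^ (-(1 / 6 : ℝ)) := by gcongr
    _ = 4 * CS * (s * (R * L ^ (-(1 / 6 : ℝ)))) / 2 := by ring
    _ ≤ L ^ (1 / 48 : ℝ) * (s * (R * L ^ (-(1 / 6 : ℝ)))) / 2 := by gcongr
    _ = _ := by ring

/-- **(C2)** the sum over the pairs of primes and the cells. -/
theorem sum_cells (h4 : Sieve2) (h5 : MertensUp) (q : ℕ) (κ0 : ℝ) (hκ : 0 < κ0)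
    (hκ1 : κ0 ≤ 1 / 100) : ∃ T1 : ℝ, ∀ t L c R z1 κ : ℝ, T1 ≤ t → L = Real.log t →
    c = L ^ (-κ0) → R = L ^ (1 / 16 : ℝ) → κ = c / R → ∀ a P0 g : ℕ, 0 < g →
    (g : ℝ) ≤ q * Real.log L → ∀ δ E : ℝ, 0 ≤ δ → 0 ≤ E →
    (∀ (b B : ℕ) (f : ℝ), b.Prime → B.Prime → Real.exp (L ^ (1 / 2 : ℝ)) < b →
      (b : ℝ) ≤ Real.exp (L ^ (2 / 3 : ℝ)) → Real.exp (L ^ (7 / 10 : ℝ)) < B →
      (B : ℝ) ≤ Real.exp (L ^ (9 / 10 : ℝ)) → 0 ≤ f → f ≤ 1 / 200 →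
      ∀ s' : Finset ℕ, (∀ n ∈ s', Cnd q a P0 g b B κ c R t z1 f n) →
      (s'.card : ℝ) ≤ δ * (κ * R * √t) / (b * B) + E) →
    ∀ s : Finset ℕ, (∀ n ∈ s, R * √t < n ∧ (n : ℝ) ≤ 1.01 * R * √t ∧
      n ≡ a [MOD q] ∧ SF z1 n ∧ SF z1 (n + g) ∧ ⌊t / n⌋₊ ≡ 1 [MOD P0] ∧
      Int.fract (t / n) < c ^ 2 / (200 * g) ∧ lam n ≠ lam (n + g)) →
    (s.card : ℝ) ≤ δ * R * √t * L ^ (1 / 500 : ℝ) + Real.exp (L ^ (19 / 20 : ℝ)) * E +
      √t * L ^ (-(1 / 12 : ℝ)) := by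
  classical
  obtain ⟨CS, hCS, h4⟩ := h4
  obtain ⟨CM, h5⟩ := h5
  have ev := (((((((((eventually_ge_atTop (1 : ℝ)).and
    (LKP.ev_rpow (α := 0) (β := 1 / 16) (by norm_num) 2)).and
    (LKP.ev_log (α := 1 / 1000) (by norm_num) 2)).and
    (LKP.ev_rpow (α := 0) (β := 1 / 1000) (by norm_num) (2 * |CM|))).and
    (LKP.ev_rpow (α := 9 / 10) (β := 19 / 20) (by norm_num) 3)).and
    (LKP.ev_log (α := 9 / 10) (by norm_num) 1)).and
    (LKP.ev_rpow (α := 0) (β := 1 / 48) (by norm_num) (4 * CS))).and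
    (LKP.ev_log (α := 1) (by norm_num) q)).and
    (LKP.ev_rpow (α := 9 / 10) (β := 1) (by norm_num) 2)).and
    (LKP.ev_rpow (α := 0) (β := 2 / 3) (by norm_num) 2)
  obtain ⟨L0, hL0⟩ := eventually_atTop.1 ev
  obtain ⟨T1, hT1⟩ := Filter.eventually_atTop.mp
    (Real.tendsto_log_atTop.eventually (Filter.eventually_ge_atTop L0))
  refine ⟨max T1 1, ?_⟩
  intro t L c R z1 κ ht hL hc hR hκe a P0 g hg0 hg δ E hδ hE hcell s hs
  have ht1 : T1 ≤ t := (le_max_left _ _).trans ht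
  have ht0 : 0 < t := lt_of_lt_of_le zero_lt_one ((le_max_right _ _).trans ht)
  have hLL := hT1 t ht1
  rw [← hL] at hLL
  obtain ⟨⟨⟨⟨⟨⟨⟨⟨⟨l0, l1⟩, l2⟩, l3⟩, l4⟩, l5⟩, l6⟩, l7⟩, l8⟩, l9⟩ := hL0 L hLL
  have hL1 : 0 < L := by linarith
  have hsq : √t = Real.exp (L / 2) := by
    rw [Real.sqrt_eq_rpow, Real.rpow_def_of_pos ht0, hL]
    congr 1
    ring
  have hs0 : 0 < √t := Real.sqrt_pos.2 ht0
  have hc0 : 0 < c := by rw [hc]; positivity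
  have hc1 : c ≤ 1 := by
    rw [hc]
    exact Real.rpow_le_one_of_one_le_of_nonpos l0 (by linarith)
  have hR0 : 0 < R := by rw [hR]; positivity
  have hR2 : 2 ≤ R := by
    rw [hR]
    rwa [Real.rpow_zero, mul_one] at l1
  have hRL : R ≤ L := by
    rw [hR]
    calc L ^ (1 / 16 : ℝ) ≤ L ^ (1 : ℝ) := Real.rpow_le_rpow_of_exponent_le l0 (by norm_num)
      _ = L := Real.rpow_one L
  have hκp : 0 < κ := by rw [hκe]; positivity
  have hg1 : (1 : ℝ) ≤ g := by exact_mod_cast hg0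
  -- √t
  have hLs : L ≤ √t := by
    rw [hsq]
    have k1 : 1 + L / 4 ≤ Real.exp (L / 4) := by linarith [Real.add_one_le_exp (L / 4)]
    have k2 : Real.exp (L / 2) = Real.exp (L / 4) * Real.exp (L / 4) := by
      rw [← Real.exp_add]
      congr 1
      ring
    rw [k2]
    have k3 : (1 + L / 4) * (1 + L / 4) ≤ Real.exp (L / 4) * Real.exp (L / 4) := by gcongr
    nlinarith [sq_nonneg (L / 4 - 1)]
  rw [Real.rpow_one] at l7 l8
  have hgs : (g : ℝ) ≤ √t := hg.trans (l7.trans hLs)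
  -- the ranges
  obtain ⟨ya, hya⟩ : ∃ y : ℝ, y = Real.exp (L ^ (1 / 2 : ℝ)) := ⟨_, rfl⟩
  obtain ⟨za, hza⟩ : ∃ y : ℝ, y = Real.exp (L ^ (2 / 3 : ℝ)) := ⟨_, rfl⟩
  obtain ⟨yb, hyb⟩ : ∃ y : ℝ, y = Real.exp (L ^ (7 / 10 : ℝ)) := ⟨_, rfl⟩
  obtain ⟨zb, hzb⟩ : ∃ y : ℝ, y = Real.exp (L ^ (9 / 10 : ℝ)) := ⟨_, rfl⟩
  rw [← hya, ← hza, ← hyb, ← hzb] at hcell
  have hone : ∀ α : ℝ, 0 ≤ α → 1 ≤ L ^ α := fun α hα => Real.one_le_rpow l0 hα
  have hya2 : 2 ≤ ya := by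
    rw [hya]
    linarith [Real.add_one_le_exp (L ^ (1 / 2 : ℝ)), hone (1 / 2) (by norm_num)]
  have hyb2 : 2 ≤ yb := by
    rw [hyb]
    linarith [Real.add_one_le_exp (L ^ (7 / 10 : ℝ)), hone (7 / 10) (by norm_num)]
  rw [Real.rpow_zero, mul_one] at l9
  have hza3 : 3 ≤ za := by
    rw [hza]
    linarith [Real.add_one_le_exp (L ^ (2 / 3 : ℝ))]
  have hzab : za ≤ zb := by
    rw [hza, hzb, Real.exp_le_exp]
    exact Real.rpow_le_rpow_of_exponent_le l0 (by norm_num)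
  have hzb3 : 3 ≤ zb := hza3.trans hzab
  have hyza : ya ≤ za := by
    rw [hya, hza, Real.exp_le_exp]
    exact Real.rpow_le_rpow_of_exponent_le l0 (by norm_num)
  have hyzb : yb ≤ zb := by
    rw [hyb, hzb, Real.exp_le_exp]
    exact Real.rpow_le_rpow_of_exponent_le l0 (by norm_num)
  have hza0 : 0 ≤ za := by linarith
  have hzb0 : 0 ≤ zb := by linarith
  have hzbs : zb ≤ √t := by
    rw [hzb, hsq, Real.exp_le_exp]
    linarith
  have hzbx : zb ≤ 2 * R * √t := by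
    have k0 : 1 ≤ 2 * R := by linarith only [hR2]
    have k1 : √t * 1 ≤ √t * (2 * R) := mul_le_mul_of_nonneg_left k0 hs0.le
    linarith only [k1, hzbs]
  -- primes and cells
  obtain ⟨P, hP⟩ : ∃ P : Finset ℕ, P = PR ya za := ⟨_, rfl⟩
  obtain ⟨Q, hQ⟩ : ∃ P : Finset ℕ, P = PR yb zb := ⟨_, rfl⟩
  have hPs : ∑ p ∈ P, 1 / (p : ℝ) ≤ L ^ (1 / 1000 : ℝ) := by
    rw [hP]
    exact PR_sum l0 hza3 (by norm_num) (by norm_num) (h5 za hza3) hza l2 l3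
  have hQs : ∑ p ∈ Q, 1 / (p : ℝ) ≤ L ^ (1 / 1000 : ℝ) := by
    rw [hQ]
    exact PR_sum l0 hzb3 (by norm_num) (by norm_num) (h5 zb hzb3) hzb l2 l3
  have hPc : (P.card : ℝ) ≤ zb := by
    rw [hP]
    exact (PR_card hza0).trans hzab
  have hQc : (Q.card : ℝ) ≤ zb := by
    rw [hQ]
    exact PR_card hzb0
  obtain ⟨γ, hγ⟩ : ∃ γ : ℝ, γ = 0.05 * κ := ⟨_, rfl⟩
  have hγ0 : 0 < γ := by rw [hγ]; positivity
  obtain ⟨J, hJ⟩ : ∃ J : ℕ, J = ⌊c ^ 2 / (200 * g) / γ⌋₊ := ⟨_, rfl⟩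
  have hJ0 : (J : ℝ) ≤ c ^ 2 / (200 * g) / γ := by
    rw [hJ]
    exact Nat.floor_le (by positivity)
  have hJ' : (J : ℝ) * γ ≤ c ^ 2 / (200 * g) := by
    rwa [le_div_iff₀ hγ0] at hJ0
  have hc3 : c ^ 2 / (200 * g) ≤ 1 / 200 := by
    have hc2 : c ^ 2 ≤ 1 := pow_le_one₀ hc0.le hc1
    rw [div_le_div_iff₀ (by positivity) (by norm_num)]
    linarith
  have hκR : κ * R = c := by
    rw [hκe]
    field_simp
  have hκ12 : κ ≤ 1 / 2 := by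
    rw [hκe, div_le_iff₀ hR0]
    linarith only [hR2, hc1]
  have hJκ : κ * ((J : ℝ) + 1) ≤ 1 := by
    have : (J : ℝ) * (0.05 * κ) ≤ 1 / 200 := by
      rw [← hγ]
      exact hJ'.trans hc3
    linarith
  have hJR : (J : ℝ) + 1 ≤ L := by
    have h1 : (J : ℝ) ≤ R / 10 := by
      refine hJ0.trans ?_
      rw [div_le_iff₀ hγ0, hγ]
      have h2 : R / 10 * (0.05 * κ) = 1 / 200 * c := by
        rw [← hκR]
        ring
      rw [h2]
      have h3 : c ^ 2 / (200 * g) ≤ c ^ 2 / 200 := by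
        apply div_le_div_of_nonneg_left (by positivity) (by norm_num)
        linarith
      have h4 : c ^ 2 ≤ c := by nlinarith
      linarith
    linarith only [h1, hRL, hR2]
  have hcs := coverM (t := t) (g := g) (J := J) hγ0 s P Q (by
    intro n hn
    obtain ⟨g1, g2, g3, g4, g5, g6, g7, g8⟩ := hs n hn
    rw [hJ]
    apply Nat.floor_le_floor
    gcongr)
  -- the sieve
  have hRs : R * √t + √t ≤ 2 * R * √t - 0.01 * R * √t := by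
    have k1 : √t * 2 ≤ √t * R := mul_le_mul_of_nonneg_left hR2 hs0.le
    linarith only [k1, hs0]
  have hA1c : ((s.filter (fun n => ∀ p ∈ P, ¬ p ∣ n)).card : ℝ) ≤
      √t * L ^ (-(1 / 12 : ℝ)) / 2 := by
    refine num_sv (α := 1 / 2) (β := 2 / 3) l0 (by norm_num) l6 hCS hR hs0 ?_
    have hyz : Real.log ya / Real.log za = L ^ (1 / 2 : ℝ) / L ^ (2 / 3 : ℝ) := by
      rw [hya, hza, Real.log_exp, Real.log_exp]
    rw [← hyz]
    refine h4 (2 * R * √t) ya za hya2 hyza (hzab.trans hzbx) _ ?_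
    intro n hn
    rw [mem_filter] at hn
    obtain ⟨g1, g2, -⟩ := hs n hn.1
    have hRt0 : 0 < R * √t := by positivity
    have hn0 : (0 : ℝ) < n := by linarith
    refine ⟨by exact_mod_cast hn0, by linarith, ?_⟩
    intro p hp hyp' hpz
    exact hn.2 p (by rw [hP]; exact (mem_PR hza0).2 ⟨hp, hyp', hpz⟩)
  have hA2c : ((s.filter (fun n => ∀ p ∈ Q, ¬ p ∣ n + g)).card : ℝ) ≤
      √t * L ^ (-(1 / 12 : ℝ)) / 2 := by
    have k1 : ((s.filter (fun n => ∀ p ∈ Q, ¬ p ∣ n + g)).image (fun n => n + g)).card =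
        (s.filter (fun n => ∀ p ∈ Q, ¬ p ∣ n + g)).card :=
      Finset.card_image_of_injective _ (fun x y h => by simpa using h)
    rw [← k1]
    refine num_sv (α := 7 / 10) (β := 9 / 10) l0 (by norm_num) l6 hCS hR hs0 ?_
    have hyz : Real.log yb / Real.log zb = L ^ (7 / 10 : ℝ) / L ^ (9 / 10 : ℝ) := by
      rw [hyb, hzb, Real.log_exp, Real.log_exp]
    rw [← hyz]
    refine h4 (2 * R * √t) yb zb hyb2 hyzb hzbx _ ?_
    intro m hm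
    rw [Finset.mem_image] at hm
    obtain ⟨n, hn, rfl⟩ := hm
    rw [mem_filter] at hn
    obtain ⟨g1, g2, -⟩ := hs n hn.1
    refine ⟨by omega, ?_, ?_⟩
    · push_cast
      linarith
    · intro p hp hyp' hpz
      exact hn.2 p (by rw [hQ]; exact (mem_PR hzb0).2 ⟨hp, hyp', hpz⟩)
  -- the cells
  have hEc : ∀ i ∈ P ×ˢ Q ×ˢ range (J + 1),
      ((s.filter (fun n => i.1 ∣ n ∧ i.2.1 ∣ n + g ∧ (i.2.2 : ℝ) * γ ≤ Int.fract (t / n) ∧
          Int.fract (t / n) < (i.2.2 : ℝ) * γ + γ)).card : ℝ) ≤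
      δ * (κ * R * √t) / ((i.1 : ℝ) * i.2.1) + E := by
    intro i hi
    obtain ⟨b1, b2, j⟩ := i
    simp only [mem_product, mem_range] at hi
    obtain ⟨hb1, hb2, hj⟩ := hi
    rw [hP, mem_PR hza0] at hb1
    rw [hQ, mem_PR hzb0] at hb2
    have hjf : (j : ℝ) * γ ≤ c ^ 2 / (200 * g) := by
      have : (j : ℝ) ≤ J := by exact_mod_cast Nat.lt_succ_iff.1 hj
      exact (mul_le_mul_of_nonneg_right this hγ0.le).trans hJ'
    refine hcell b1 b2 (j * γ) hb1.1 hb2.1 hb1.2.1 hb1.2.2 hb2.2.1 hb2.2.2 (by positivity)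
      (hjf.trans hc3) _ ?_
    intro n hn
    simp only [mem_filter] at hn
    obtain ⟨hn, q1, q2, q3, q4⟩ := hn
    obtain ⟨g1, g2, g3, g4, g5, g6, g7, g8⟩ := hs n hn
    rw [hγ] at q3 q4 ⊢
    exact ⟨g1, g2, g3, g4, g5, g6, g7, g8, q1, q2, q3, q4⟩
  have hEs := (sum_le_sum hEc).trans (le_of_eq (sum_pairsM J P Q))
  have hP0' : 0 ≤ ∑ p ∈ P, 1 / (p : ℝ) := sum_nonneg fun p _ => by positivity
  have hQ0' : 0 ≤ ∑ p ∈ Q, 1 / (p : ℝ) := sum_nonneg fun p _ => by positivity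
  have hmain : δ * (κ * R * √t) * ((J : ℝ) + 1) *
      ((∑ p ∈ P, 1 / (p : ℝ)) * ∑ p ∈ Q, 1 / (p : ℝ)) ≤ δ * R * √t * L ^ (1 / 500 : ℝ) := by
    have k1 : (∑ p ∈ P, 1 / (p : ℝ)) * ∑ p ∈ Q, 1 / (p : ℝ) ≤ L ^ (1 / 500 : ℝ) := by
      calc (∑ p ∈ P, 1 / (p : ℝ)) * ∑ p ∈ Q, 1 / (p : ℝ) ≤
          L ^ (1 / 1000 : ℝ) * L ^ (1 / 1000 : ℝ) := by gcongr
        _ = L ^ (1 / 500 : ℝ) := by
          rw [← Real.rpow_add hL1]
          norm_num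
    calc δ * (κ * R * √t) * ((J : ℝ) + 1) *
          ((∑ p ∈ P, 1 / (p : ℝ)) * ∑ p ∈ Q, 1 / (p : ℝ))
        = δ * R * √t * (κ * ((J : ℝ) + 1)) *
          ((∑ p ∈ P, 1 / (p : ℝ)) * ∑ p ∈ Q, 1 / (p : ℝ)) := by ring
      _ ≤ δ * R * √t * 1 * L ^ (1 / 500 : ℝ) := by
          apply mul_le_mul _ k1 (by positivity) (by positivity)
          exact mul_le_mul_of_nonneg_left hJκ (by positivity)
      _ = _ := by ring
  have hErr : (P.card : ℝ) * (Q.card * (J + 1)) * E ≤ Real.exp (L ^ (19 / 20 : ℝ)) * E := by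
    apply mul_le_mul_of_nonneg_right _ hE
    calc (P.card : ℝ) * (Q.card * (J + 1)) ≤ zb * (zb * L) := by gcongr
      _ = Real.exp (2 * L ^ (9 / 10 : ℝ) + Real.log L) := by
          rw [Real.exp_add, Real.exp_log hL1, hzb, two_mul, Real.exp_add]
          ring
      _ ≤ Real.exp (L ^ (19 / 20 : ℝ)) := by
          rw [Real.exp_le_exp]
          linarith
  linarith

end

end Pool.Agent.MR2.LKM
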