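import Pool.Agent.Lib.MR2.LKMp
import Pool.Agent.Lib.MR2.LKMc
import Pool.Agent.Lib.MR2.LKS

/-! # TANK MR2, stage 2, row LKM: the linking statement (helper69, from 88's cell lemma,
67's sum over cells and the parameters) -/

set_option autoImplicit false

namespace Pool.Agent.MR2

open Finset Filter Topology Pool.Agent.MRL

/-- The normalised density of a cell times the number of classes. -/
theorem AA_mul {q P0 b B : ℕ} {PP : Finset ℕ} {κ R t : ℝ} (hq : 1 ≤ q) (hP0 : 1 ≤ P0)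
    (hpp : ∀ p ∈ PP, p.Prime) (hκ : 0 ≤ κ) (hR : 0 ≤ R) (hb : 0 < b) (hB : 0 < B) :
    LKM.AA q P0 b B PP κ R t * ((∏ p ∈ PP, p : ℕ) : ℝ) ^ 3 ≤ (κ * R * √t) / (b * B) := by
  have hQ0 : (0 : ℝ) < ((∏ p ∈ PP, p : ℕ) : ℝ) := by
    exact_mod_cast Finset.prod_pos fun p h1 => (hpp p h1).pos
  have hqr : (1 : ℝ) ≤ q := by exact_mod_cast hq
  have hPr : (1 : ℝ) ≤ P0 := by exact_mod_cast hP0
  have hbr : (0 : ℝ) < b := by exact_mod_cast hb
  have hBr : (0 : ℝ) < B := by exact_mod_cast hB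
  unfold LKM.AA
  push_cast
  push_cast at hQ0
  set Q : ℝ := ∏ p ∈ PP, (p : ℝ) with hQ
  have e1 : 0.05 * κ * (0.01 * R) / ((q : ℝ) * Q ^ 2 * (b * B) * (P0 * Q)) * √t * Q ^ 3 =
      0.0005 * (κ * R * √t) / (b * B) / (q * P0) := by
    have hq0 : (q : ℝ) ≠ 0 := by positivity
    have hP00 : (P0 : ℝ) ≠ 0 := by positivity
    field_simp
    ring
  rw [e1]
  have h0 : 0 ≤ κ * R * √t := by positivity
  have h1 : (1 : ℝ) ≤ q * P0 := by nlinarith
  rw [div_div, div_le_div_iff₀ (by positivity) (by positivity)]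
  have h2 : 0 ≤ κ * R * √t * (b * B) := by positivity
  nlinarith

/-- **ROW LKM.** -/
theorem linkM (h1 : Equi2) (h2 : SMM) (h3 : SpoilS) (h4 : SpoilL) (h5 : ChainM) (h6 : FamLow)
    (h7 : Sieve2) (h8 : MertensUp) : LinkM := by
  obtain ⟨t1, h1⟩ := LKM.eq_iff.1 h1
  obtain ⟨C2, h2⟩ := LKM.smm_iff.1 h2
  obtain ⟨CS, hCS, C3, h3⟩ := LKM.spS_iff.1 h3
  obtain ⟨C4, t4, h4⟩ := LKM.spL_iff.1 h4
  intro q a κ0 hq hκ0 hκ1
  obtain ⟨P0, hP0, hqP, T0, hT0⟩ := LKP.paramP h6 h8 q hq κ0 hκ0 hκ1 C2 C3 C4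
  obtain ⟨T1, hT1⟩ := LKM.sum_cells h7 h8 q κ0 hκ0 hκ1
  refine ⟨P0, hP0, ?_⟩
  obtain ⟨CC, hCC⟩ : ∃ CC : ℝ, CC = C2 + C3 + C4 := ⟨_, rfl⟩
  have hCC0 : 0 ≤ CC := by rw [hCC]; positivity
  have ev := ((((eventually_ge_atTop (1 : ℝ)).and
    (LKP.ev_rpow (α := -(303 / 1000 : ℝ)) (β := -(1 / 20 : ℝ)) (by norm_num) (3 * (8 + 4 * CS)))).and
    (LKP.ev_rpow (α := -(1 / 12 : ℝ)) (β := -(1 / 20 : ℝ)) (by norm_num) 3)).and
    (LKP.ev_rpow (α := 19 / 20) (β := 1) (by norm_num) (8000 * (5 + CC)))).and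
    (LKP.ev_log (α := 1) (by norm_num) 8000)
  obtain ⟨L0, hL0⟩ := eventually_atTop.1 ev
  obtain ⟨T2, hT2⟩ := Filter.eventually_atTop.mp
    (Real.tendsto_log_atTop.eventually (Filter.eventually_ge_atTop (max L0 100000)))
  refine ⟨max (max T0 T1) (max (max t1 t4) (max T2 1)), ?_⟩
  intro t c R z1 ht hc hR hz1 hcon g hg hqg hgL s hs
  have u0 : T0 ≤ t := (le_max_left _ _).trans ((le_max_left _ _).trans ht)
  have u1 : T1 ≤ t := (le_max_right _ _).trans ((le_max_left _ _).trans ht)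
  have u2 : t1 ≤ t := (le_max_left _ _).trans ((le_max_left _ _).trans ((le_max_right _ _).trans ht))
  have u3 : t4 ≤ t := (le_max_right _ _).trans ((le_max_left _ _).trans ((le_max_right _ _).trans ht))
  have u4 : T2 ≤ t := (le_max_left _ _).trans ((le_max_right _ _).trans ((le_max_right _ _).trans ht))
  have u5 : 1 ≤ t := (le_max_right _ _).trans ((le_max_right _ _).trans ((le_max_right _ _).trans ht))
  have ht0 : 0 < t := by linarith
  obtain ⟨L, hL⟩ : ∃ L : ℝ, L = Real.log t := ⟨_, rfl⟩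
  rw [← hL] at hc hR hz1 hgL ⊢
  have hLL := hT2 t u4
  rw [← hL] at hLL
  obtain ⟨⟨⟨⟨g0, g1⟩, g2⟩, g3⟩, g4⟩ := hL0 L ((le_max_left _ _).trans hLL)
  have hL5 : 100000 ≤ L := (le_max_right _ _).trans hLL
  rw [Real.rpow_one] at g3 g4
  have hL1 : 0 < L := by linarith
  obtain ⟨W, PP, p1, p2, p3, -, p4⟩ := hT0 t u0 L c R z1 hL hc hR hz1
  have hts : ∀ x : ℝ, t ^ x = Real.exp (L * x) := by
    intro x
    rw [Real.rpow_def_of_pos ht0, hL]
  have hsq : √t = Real.exp (L / 2) := by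
    rw [Real.sqrt_eq_rpow, hts]
    congr 1
    ring
  have hs0 : 0 < √t := Real.sqrt_pos.2 ht0
  have hadd : ∀ x y : ℝ, L ^ x * L ^ y = L ^ (x + y) := fun x y => (Real.rpow_add hL1 x y).symm
  obtain ⟨κ, hκ⟩ : ∃ κ : ℝ, κ = c / R := ⟨_, rfl⟩
  rw [← hκ] at p3 p4
  have hκp : 0 < κ := by rw [p3]; positivity
  have hR0 : 0 < R := by rw [hR]; positivity
  obtain ⟨E0, hE0⟩ : ∃ E0 : ℝ, E0 = κ * L ^ (11 / 25 : ℝ) := ⟨_, rfl⟩
  have hE0p : 0 < E0 := by rw [hE0]; positivity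
  have hE0e : E0 = L ^ (-κ0 - 1 / 16 + 11 / 25) := by rw [hE0, p3, hadd]
  have hE01 : 1 ≤ E0 := by
    rw [hE0e]
    exact Real.one_le_rpow g0 (by linarith)
  have hz1p : 0 < z1 := by rw [hz1]; positivity
  -- the two numbers
  obtain ⟨δ, hδ⟩ : ∃ δ : ℝ, δ = 8 / E0 + 2 * CS * (1 + κ * Real.log W / E0) / z1 := ⟨_, rfl⟩
  obtain ⟨E1, hE1⟩ : ∃ E1 : ℝ, E1 = Real.exp (3 * L ^ (9 / 20 : ℝ)) *
    (4 * (Real.exp (L * (999 / 2000)) * Real.exp (CC * L ^ (9 / 10 : ℝ)))) := ⟨_, rfl⟩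
  have hlW0 : 0 ≤ Real.log W := Real.log_natCast_nonneg W
  have hδ0 : 0 ≤ δ := by rw [hδ]; positivity
  have hE10 : 0 ≤ E1 := by rw [hE1]; positivity
  have hQ : ((∏ p ∈ PP, p : ℕ) : ℝ) ≤ Real.exp (L ^ (9 / 20 : ℝ)) := by
    refine le_trans ?_ p1
    push_cast
    have h9 : (1 : ℝ) ≤ P0 := by exact_mod_cast hP0
    have h10 : (0 : ℝ) ≤ ∏ p ∈ PP, (p : ℝ) := Finset.prod_nonneg fun p _ => by positivity
    nlinarith
  have key := hT1 t L c R z1 κ u1 hL hc hR hκ a P0 g hg hgL δ E1 hδ0 hE10 ?_ s hs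
  · -- the last numerical line
    refine key.trans ?_
    have e20 : √t / L ^ (1 / 20 : ℝ) = √t * L ^ (-(1 / 20 : ℝ)) := by
      rw [Real.rpow_neg hL1.le]; rfl
    rw [e20]
    -- δ
    have k1 : 1 / E0 ≤ L ^ (-(3675 / 10000 : ℝ)) := by
      rw [hE0e, one_div, ← Real.rpow_neg hL1.le]
      exact Real.rpow_le_rpow_of_exponent_le g0 (by linarith)
    have k2 : κ * Real.log W / E0 ≤ L ^ (1 / 100 : ℝ) := by
      rw [div_le_iff₀ hE0p, hE0]
      have e1 : L ^ (1 / 100 : ℝ) * (κ * L ^ (11 / 25 : ℝ)) = κ * L ^ (9 / 20 : ℝ) := by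
        rw [mul_left_comm, hadd]
        norm_num
      rw [e1]
      exact mul_le_mul_of_nonneg_left p2 hκp.le
    have k3 : (1 : ℝ) ≤ L ^ (1 / 100 : ℝ) := Real.one_le_rpow g0 (by norm_num)
    have k4 : 1 / z1 = L ^ (-(2 / 5 : ℝ)) := by
      rw [hz1, one_div, ← Real.rpow_neg hL1.le]
    have k5 : δ ≤ (8 + 4 * CS) * L ^ (-(3675 / 10000 : ℝ)) := by
      have e1 : 2 * CS * (1 + κ * Real.log W / E0) / z1 ≤ 4 * CS * L ^ (-(3675 / 10000 : ℝ)) := by
        have e2 : 2 * CS * (1 + κ * Real.log W / E0) / z1 =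
            2 * CS * (1 + κ * Real.log W / E0) * (1 / z1) := by ring
        rw [e2, k4]
        calc 2 * CS * (1 + κ * Real.log W / E0) * L ^ (-(2 / 5 : ℝ))
            ≤ 2 * CS * (L ^ (1 / 100 : ℝ) + L ^ (1 / 100 : ℝ)) * L ^ (-(2 / 5 : ℝ)) := by gcongr
          _ = 4 * CS * (L ^ (1 / 100 : ℝ) * L ^ (-(2 / 5 : ℝ))) := by ring
          _ ≤ 4 * CS * L ^ (-(3675 / 10000 : ℝ)) := by
              rw [hadd]
              apply mul_le_mul_of_nonneg_left _ (by positivity)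
              exact Real.rpow_le_rpow_of_exponent_le g0 (by norm_num)
      have e3 : 8 / E0 ≤ 8 * L ^ (-(3675 / 10000 : ℝ)) := by
        have : 8 / E0 = 8 * (1 / E0) := by ring
        rw [this]
        linarith
      rw [hδ]
      linarith
    have k6 : δ * R * √t * L ^ (1 / 500 : ℝ) ≤ √t * L ^ (-(1 / 20 : ℝ)) / 3 := by
      have e1 : L ^ (-(3675 / 10000 : ℝ)) * R * L ^ (1 / 500 : ℝ) = L ^ (-(303 / 1000 : ℝ)) := by
        rw [hR, hadd, hadd]
        norm_num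
      calc δ * R * √t * L ^ (1 / 500 : ℝ)
          ≤ ((8 + 4 * CS) * L ^ (-(3675 / 10000 : ℝ))) * R * √t * L ^ (1 / 500 : ℝ) := by gcongr
        _ = √t * ((8 + 4 * CS) * (L ^ (-(3675 / 10000 : ℝ)) * R * L ^ (1 / 500 : ℝ))) := by ring
        _ = √t * ((8 + 4 * CS) * L ^ (-(303 / 1000 : ℝ))) := by rw [e1]
        _ ≤ √t * (L ^ (-(1 / 20 : ℝ)) / 3) := by
            apply mul_le_mul_of_nonneg_left _ hs0.le
            linarith
        _ = √t * L ^ (-(1 / 20 : ℝ)) / 3 := by ring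
    have k7 : √t * L ^ (-(1 / 12 : ℝ)) ≤ √t * L ^ (-(1 / 20 : ℝ)) / 3 := by
      rw [mul_div_assoc]
      apply mul_le_mul_of_nonneg_left _ hs0.le
      linarith
    have k8 : Real.exp (L ^ (19 / 20 : ℝ)) * E1 ≤ √t * L ^ (-(1 / 20 : ℝ)) / 3 := by
      have m1 : L ^ (9 / 20 : ℝ) ≤ L ^ (19 / 20 : ℝ) :=
        Real.rpow_le_rpow_of_exponent_le g0 (by norm_num)
      have m2 : L ^ (9 / 10 : ℝ) ≤ L ^ (19 / 20 : ℝ) :=
        Real.rpow_le_rpow_of_exponent_le g0 (by norm_num)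
      have m0 : 1 ≤ L ^ (19 / 20 : ℝ) := Real.one_le_rpow g0 (by norm_num)
      have m3 : (12 : ℝ) ≤ Real.exp 3 := by
        have := Real.exp_one_gt_d9
        have h9 : Real.exp 3 = Real.exp 1 * Real.exp 1 * Real.exp 1 := by
          rw [← Real.exp_add, ← Real.exp_add]; norm_num
        rw [h9]
        have h10 : 2.7 * 2.7 ≤ Real.exp 1 * Real.exp 1 := by nlinarith
        nlinarith
      have m4 : L ^ (1 / 20 : ℝ) ≤ Real.exp (Real.log L) := by
        rw [Real.exp_log hL1]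
        calc L ^ (1 / 20 : ℝ) ≤ L ^ (1 : ℝ) := Real.rpow_le_rpow_of_exponent_le g0 (by norm_num)
          _ = L := Real.rpow_one L
      have m5 : 12 * (Real.exp (L ^ (19 / 20 : ℝ)) * Real.exp (3 * L ^ (9 / 20 : ℝ)) *
          (Real.exp (L * (999 / 2000)) * Real.exp (CC * L ^ (9 / 10 : ℝ)))) * L ^ (1 / 20 : ℝ) ≤
          √t := by
        rw [hsq]
        calc 12 * (Real.exp (L ^ (19 / 20 : ℝ)) * Real.exp (3 * L ^ (9 / 20 : ℝ)) *
            (Real.exp (L * (999 / 2000)) * Real.exp (CC * L ^ (9 / 10 : ℝ)))) * L ^ (1 / 20 : ℝ)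
            ≤ Real.exp 3 * (Real.exp (L ^ (19 / 20 : ℝ)) * Real.exp (3 * L ^ (9 / 20 : ℝ)) *
            (Real.exp (L * (999 / 2000)) * Real.exp (CC * L ^ (9 / 10 : ℝ)))) *
              Real.exp (Real.log L) := by gcongr
          _ = Real.exp (3 + (L ^ (19 / 20 : ℝ) + 3 * L ^ (9 / 20 : ℝ) +
              (L * (999 / 2000) + CC * L ^ (9 / 10 : ℝ))) + Real.log L) := by
              simp only [Real.exp_add]
          _ ≤ Real.exp (L / 2) := by
              rw [Real.exp_le_exp]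
              have n1 : CC * L ^ (9 / 10 : ℝ) ≤ CC * L ^ (19 / 20 : ℝ) :=
                mul_le_mul_of_nonneg_left m2 hCC0
              have n2 : 8000 * ((4 + CC) * L ^ (19 / 20 : ℝ)) ≤ L := by
                have : 0 ≤ L ^ (19 / 20 : ℝ) := by positivity
                nlinarith
              linarith
      have m6 : 0 < L ^ (1 / 20 : ℝ) := by positivity
      rw [hE1, Real.rpow_neg hL1.le, ← div_eq_mul_inv, div_div, le_div_iff₀ (by positivity)]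
      calc Real.exp (L ^ (19 / 20 : ℝ)) * (Real.exp (3 * L ^ (9 / 20 : ℝ)) *
          (4 * (Real.exp (L * (999 / 2000)) * Real.exp (CC * L ^ (9 / 10 : ℝ))))) *
            (L ^ (1 / 20 : ℝ) * 3)
          = 12 * (Real.exp (L ^ (19 / 20 : ℝ)) * Real.exp (3 * L ^ (9 / 20 : ℝ)) *
          (Real.exp (L * (999 / 2000)) * Real.exp (CC * L ^ (9 / 10 : ℝ)))) * L ^ (1 / 20 : ℝ) := by
            ring
        _ ≤ √t := m5
    linarith
  · -- the cells
    intro b B f hb hB hb1 hb2 hB1 hB2 hf0 hf1 s' hs'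
    obtain ⟨hCH, hEE⟩ := p4 g hg hqg hgL b B hb hB hb1 hb2 hB1 hB2 f hf0 hf1
    have hpp : ∀ p ∈ PP, p.Prime := fun p hp => (hCH.HF2.PPp p hp).1
    obtain ⟨err, herr⟩ : ∃ err : ℝ, err = t ^ (9 / 20 : ℝ) * (B : ℝ) ^ C2 +
      2 * (t ^ (9 / 20 : ℝ) * t ^ (1 / 1000 : ℝ) * (B : ℝ) ^ C3) +
        (B : ℝ) ^ C4 * t ^ (999 / 2000 : ℝ) := ⟨_, rfl⟩
    have hcell := LKM.cell_of_class (t := t) (X := δ * LKM.AA q P0 b B PP κ R t + err) hpp s' (by
      intro s'' hs'' hsame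
      rw [herr, hδ]
      exact LKM.cell_bound h2 h3 (h4 t u3) h5 (h1 t u2) (hκ ▸ hCH) hCS hcon hE01
        (fun M0 x y hxy => by
          rw [hE0]; exact (hEE M0 x y hxy).2) (fun n hn => hs' n (hs'' hn)) hsame)
    refine hcell.trans ?_
    have hB0 : (0 : ℝ) < B := by exact_mod_cast hB.pos
    have hB1' : (1 : ℝ) ≤ B := by exact_mod_cast hB.one_lt.le
    rw [add_mul]
    refine add_le_add ?_ ?_
    · have h9 := AA_mul (t := t) hq hP0 hpp hκp.le hR0.le hb.pos hB.pos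
      calc δ * LKM.AA q P0 b B PP κ R t * ((∏ p ∈ PP, p : ℕ) : ℝ) ^ 3
          = δ * (LKM.AA q P0 b B PP κ R t * ((∏ p ∈ PP, p : ℕ) : ℝ) ^ 3) := by ring
        _ ≤ δ * ((κ * R * √t) / (b * B)) := mul_le_mul_of_nonneg_left h9 hδ0
        _ = δ * (κ * R * √t) / (b * B) := by ring
    · have n1 : ((∏ p ∈ PP, p : ℕ) : ℝ) ^ 3 ≤ Real.exp (3 * L ^ (9 / 20 : ℝ)) := by
        rw [show 3 * L ^ (9 / 20 : ℝ) = ((3 : ℕ) : ℝ) * L ^ (9 / 20 : ℝ) by norm_num,
          Real.exp_nat_mul]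
        exact pow_le_pow_left₀ (by positivity) hQ 3
      have n2 : ∀ C : ℕ, (C : ℝ) ≤ CC → (B : ℝ) ^ C ≤ Real.exp (CC * L ^ (9 / 10 : ℝ)) := by
        intro C hC
        calc (B : ℝ) ^ C ≤ Real.exp (L ^ (9 / 10 : ℝ)) ^ C := pow_le_pow_left₀ hB0.le hB2 C
          _ = Real.exp (C * L ^ (9 / 10 : ℝ)) := by rw [← Real.exp_nat_mul]
          _ ≤ _ := by
              rw [Real.exp_le_exp]
              apply mul_le_mul_of_nonneg_right hC (by positivity)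
      have c2 : (0 : ℝ) ≤ C2 := by positivity
      have c3 : (0 : ℝ) ≤ C3 := by positivity
      have c4 : (0 : ℝ) ≤ C4 := by positivity
      have n3 := n2 C2 (by rw [hCC]; linarith)
      have n4 := n2 C3 (by rw [hCC]; linarith)
      have n5 := n2 C4 (by rw [hCC]; linarith)
      have n6 : t ^ (9 / 20 : ℝ) ≤ Real.exp (L * (999 / 2000)) := by
        rw [hts, Real.exp_le_exp]
        linarith
      have n7 : t ^ (9 / 20 : ℝ) * t ^ (1 / 1000 : ℝ) ≤ Real.exp (L * (999 / 2000)) := by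
        rw [hts, hts, ← Real.exp_add, Real.exp_le_exp]
        linarith
      have n8 : t ^ (999 / 2000 : ℝ) = Real.exp (L * (999 / 2000)) := hts _
      have n9 : err ≤ 4 * (Real.exp (L * (999 / 2000)) * Real.exp (CC * L ^ (9 / 10 : ℝ))) := by
        have o1 : t ^ (9 / 20 : ℝ) * (B : ℝ) ^ C2 ≤
            Real.exp (L * (999 / 2000)) * Real.exp (CC * L ^ (9 / 10 : ℝ)) :=
          mul_le_mul n6 n3 (by positivity) (Real.exp_pos _).le
        have o2 : t ^ (9 / 20 : ℝ) * t ^ (1 / 1000 : ℝ) * (B : ℝ) ^ C3 ≤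
            Real.exp (L * (999 / 2000)) * Real.exp (CC * L ^ (9 / 10 : ℝ)) :=
          mul_le_mul n7 n4 (by positivity) (Real.exp_pos _).le
        have o3 : (B : ℝ) ^ C4 * t ^ (999 / 2000 : ℝ) ≤
            Real.exp (L * (999 / 2000)) * Real.exp (CC * L ^ (9 / 10 : ℝ)) := by
          rw [n8, mul_comm]
          exact mul_le_mul_of_nonneg_left n5 (Real.exp_pos _).le
        rw [herr]
        linarith
      have n10 : 0 ≤ err := by rw [herr]; positivity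
      rw [hE1, mul_comm]
      exact mul_le_mul n1 n9 n10 (Real.exp_pos _).le

end Pool.Agent.MR2
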