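import Pool.Agent.Lib.MR2.StatM

/-! TANK MR2, stage 2, row LKM, part 1: one pair of primes, one cell, one class. helper88. -/

set_option autoImplicit false

namespace Pool.Agent.MR2.LKM

open Finset Pool.Agent.MRL

noncomputable section

/-- the set counted in `Equi2` -/
def ES (t R : ℝ) (q r Q M0 : ℕ) (u u' : ℝ) : Finset ℕ :=
  (Icc 1 ⌊1.01 * R * √t⌋₊).filter fun n : ℕ => R * √t < n ∧ n % q = r % q ∧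
    ⌊t / n⌋₊ % Q = M0 % Q ∧ u ≤ Int.fract (t / n) ∧ Int.fract (t / n) < u'

theorem mem_ES {t R : ℝ} {q r Q M0 n : ℕ} {u u' : ℝ} :
    n ∈ ES t R q r Q M0 u u' ↔ (1 ≤ n ∧ n ≤ ⌊1.01 * R * √t⌋₊) ∧ R * √t < n ∧ n % q = r % q ∧
      ⌊t / n⌋₊ % Q = M0 % Q ∧ u ≤ Int.fract (t / n) ∧ Int.fract (t / n) < u' := by
  unfold ES
  rw [mem_filter, mem_Icc]

/-- `Equi2` at `t` -/
def EqT (t : ℝ) : Prop := ∀ (q r Q M0 : ℕ) (u u' R : ℝ), 0 < q → 0 < Q →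
  (q : ℝ) ≤ t ^ (1 / 100 : ℝ) → (Q : ℝ) ≤ t ^ (1 / 100 : ℝ) → 0 ≤ u → u ≤ u' → u' ≤ 1 →
  1 ≤ R → R ≤ t ^ (1 / 100 : ℝ) →
  |((ES t R q r Q M0 u u').card : ℝ) - (u' - u) * (0.01 * R) / (q * Q) * √t| ≤ t ^ (9 / 20 : ℝ)

/-- `SMM` with a constant -/
def SMMc (C0 : ℕ) : Prop := ∀ (P0 b B W : ℕ) (PP : Finset ℕ) (κ f : ℝ),
  HF C0 P0 b B W PP κ f → ∀ (M0 : ℕ) (x y : ℕ → ℤ), XY PP x y →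
  1 ≤ EE P0 PP κ f b B W M0 x y →
  ∀ (S : Finset ℕ) (M : ℕ → ℕ) (A η : ℝ), 0 ≤ A → 0 ≤ η →
  (∀ m r : ℕ, 0 < m → m ≤ B ^ 4 → m.Coprime (P0 * ∏ p ∈ PP, p) →
    |((S.filter fun n => M n % m = r % m).card : ℝ) - A / m| ≤ η) →
  ∀ S' ⊆ S, (∀ n ∈ S', (((Fam P0 PP κ f b B W M0 x y).filter
      (fun e => cd b B e ∣ cU b (M n) e)).card : ℝ) ≤ EE P0 PP κ f b B W M0 x y / 2) →
  (S'.card : ℝ) ≤ 8 * A / EE P0 PP κ f b B W M0 x y + η * (B : ℝ) ^ C0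

/-- `SpoilS` with constants -/
def SpSc (C : ℝ) (C0 : ℕ) : Prop := ∀ (P0 b B W : ℕ) (PP : Finset ℕ) (κ f : ℝ),
  HF C0 P0 b B W PP κ f → ∀ (M0 : ℕ) (x y : ℕ → ℤ) (g : ℕ) (z Y : ℝ), 1 ≤ z → z ^ 16 ≤ W →
  0 < g → (g : ℝ) < z → z < Y → (∀ p : ℕ, p.Prime → p ∣ P0 → (p : ℝ) ≤ z) → (∀ p ∈ PP, (p : ℝ) ≤ z) →
  ∀ (S : Finset ℕ) (M : ℕ → ℕ) (A η : ℝ), 0 ≤ A → 0 ≤ η → (∀ n ∈ S, 0 < n ∧ b ∣ n ∧ B ∣ n + g) →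
  (∀ i j m r u v : ℕ, i ≤ 2 → j ≤ 2 → r.Prime → z < r → (r : ℝ) ≤ Y → 0 < m → m ≤ B ^ 4 →
    m.Coprime (P0 * ∏ p ∈ PP, p) →
    ((S.filter fun n => n % (b * B * r ^ i) = u ∧ M n % (m * r ^ j) = v).card : ℝ)
      ≤ A / (m * (r : ℝ) ^ (i + j)) + η) →
  ∀ T : ℕ × ℕ × ℕ → Finset ℕ, (∀ e ∈ Fam P0 PP κ f b B W M0 x y, T e ⊆ S ∧ ∀ n ∈ T e,
    cd b B e ∣ cU b (M n) e ∧ ∃ r : ℕ, r.Prime ∧ z < r ∧ (r : ℝ) ≤ Y ∧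
      ∃ N ∈ num b B g n (M n) e, r ^ 2 ∣ N) →
  ∑ e ∈ Fam P0 PP κ f b B W M0 x y, ((T e).card : ℝ)
    ≤ C * A * (EE P0 PP κ f b B W M0 x y + κ * Real.log W) / z + η * Y * (B : ℝ) ^ C0

/-- `SpoilL` at `t` with a constant -/
def SpLc (C0 : ℕ) (t : ℝ) : Prop := ∀ (P0 b B W : ℕ) (PP : Finset ℕ) (κ f : ℝ),
  HF C0 P0 b B W PP κ f → ∀ (M0 : ℕ) (x y : ℕ → ℤ) (g : ℕ), 0 < g → (g : ℝ) ≤ t ^ (1 / 100 : ℝ) →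
  ∀ S : Finset ℕ, (∀ n ∈ S, 0 < n ∧ b ∣ n ∧ B ∣ n + g ∧
    ∃ e ∈ Fam P0 PP κ f b B W M0 x y, ∃ M : ℕ, cd b B e ∣ cU b M e ∧
      (∀ N ∈ num b B g n M e, t < N ∧ (N : ℝ) < t + √t) ∧
      ∃ N ∈ num b B g n M e, ∃ r : ℕ, r.Prime ∧ t ^ (1 / 1000 : ℝ) < r ∧ r ^ 2 ∣ N) →
  (S.card : ℝ) ≤ (B : ℝ) ^ C0 * t ^ (999 / 2000 : ℝ)

theorem smm_iff : SMM ↔ ∃ C0, SMMc C0 := Iff.rfl
theorem spS_iff : SpoilS ↔ ∃ C : ℝ, 0 < C ∧ ∃ C0, SpSc C C0 := Iff.rfl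
theorem spL_iff : SpoilL ↔ ∃ C0 : ℕ, ∃ t0 : ℝ, ∀ t : ℝ, t0 ≤ t → SpLc C0 t := Iff.rfl
theorem eq_iff : Equi2 ↔ ∃ t0 : ℝ, ∀ t : ℝ, t0 ≤ t → EqT t := Iff.rfl

/-- the hypotheses on the parameters of one pair of primes -/
structure CH (C2 C3 C4 : ℕ) (q P0 g b B W : ℕ) (PP : Finset ℕ) (κ c R t z1 f : ℝ) : Prop where
  q1 : 1 ≤ q
  qg : q ∣ g
  g0 : 0 < g
  qP : q ∣ P0
  c0 : 0 < c
  c1 : c ≤ 1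
  gR : 1000 * (g : ℝ) ≤ c * R
  t4 : 10000 ≤ t
  κe : κ = c / R
  PPz : ∀ p : ℕ, p.Prime → (p : ℝ) ≤ z1 → p ∈ PP ∨ p ^ 2 ∣ P0
  PPle : ∀ p ∈ PP, (p : ℝ) ≤ z1
  HF2 : HF C2 P0 b B W PP κ f
  HF3 : HF C3 P0 b B W PP κ f
  HF4 : HF C4 P0 b B W PP κ f
  Wlt : W < b
  blt : b < B
  bn : ¬ b ∣ P0 * ∏ p ∈ PP, p
  Bn : ¬ B ∣ P0 * ∏ p ∈ PP, p
  z1one : 1 ≤ z1
  z16 : z1 ^ 16 ≤ W
  gz : (g : ℝ) < z1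
  zY : z1 < t ^ (1 / 1000 : ℝ)
  P0z : ∀ p : ℕ, p.Prime → p ∣ P0 → (p : ℝ) ≤ z1
  gt : (g : ℝ) ≤ t ^ (1 / 100 : ℝ)
  R1 : 1 ≤ R
  Rt : R ≤ t ^ (1 / 100 : ℝ)
  mod1 : ((q * (∏ p ∈ PP, p) ^ 2 * (b * B) : ℕ) : ℝ) * (t ^ (1 / 1000 : ℝ)) ^ 2
    ≤ t ^ (1 / 100 : ℝ)
  mod2 : ((P0 * ∏ p ∈ PP, p : ℕ) : ℝ) * (B : ℝ) ^ 4 * (t ^ (1 / 1000 : ℝ)) ^ 2
    ≤ t ^ (1 / 100 : ℝ)

/-- the conditions on the integers of one cell -/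
def Cnd (q a P0 g b B : ℕ) (κ c R t z1 f : ℝ) (n : ℕ) : Prop :=
  R * √t < n ∧ (n : ℝ) ≤ 1.01 * R * √t ∧ n ≡ a [MOD q] ∧ SF z1 n ∧ SF z1 (n + g) ∧
    ⌊t / n⌋₊ ≡ 1 [MOD P0] ∧ Int.fract (t / n) < c ^ 2 / (200 * g) ∧ lam n ≠ lam (n + g) ∧
    b ∣ n ∧ B ∣ n + g ∧ f ≤ Int.fract (t / n) ∧ Int.fract (t / n) < f + 0.05 * κ

/-- the coefficients attached to `n` -/
def xx (g n : ℕ) (p : ℕ) : ℤ :=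
  if p ∣ n ∧ p ∣ g then ((n + g) / p : ℕ) else (n + g : ℕ)
def yy (g n : ℕ) (p : ℕ) : ℤ := if p ∣ n ∧ p ∣ g then (n / p : ℕ) else n

theorem xy_of_SF {g n : ℕ} {PP : Finset ℕ} {z1 : ℝ} (hp : ∀ p ∈ PP, p.Prime ∧ (p : ℝ) ≤ z1)
    (hn : SF z1 n) : XY PP (xx g n) (yy g n) := by
  intro p hpP
  obtain ⟨hp1, hp2⟩ := hp p hpP
  rintro ⟨h1, h2⟩
  unfold xx at h1
  unfold yy at h2
  split_ifs at h1 h2 with h3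
  · rw [Int.natCast_dvd_natCast] at h2
    apply hn p hp1 hp2
    rw [pow_two]
    obtain ⟨k, hk⟩ := h3.1
    rw [hk, Nat.mul_div_cancel_left _ hp1.pos] at h2
    rw [hk]
    exact Nat.mul_dvd_mul_left p h2
  · rw [Int.natCast_dvd_natCast] at h1 h2
    exact h3 ⟨h2, (Nat.dvd_add_right h2).1 h1⟩

theorem siev_congr {b B M0 : ℕ} {x y x' y' : ℤ} {e : ℕ × ℕ × ℕ} {p : ℕ}
    (hx : (p : ℤ) ∣ x' - x) (hy : (p : ℤ) ∣ y' - y) (h : Siev b B M0 x y e p) :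
    Siev b B M0 x' y' e p := by
  obtain ⟨h1, h2, h3, h4⟩ := h
  refine ⟨h1, h2, h3, fun h5 => h4 ?_⟩
  have h6 : (b : ℤ) * e.2.1 * x - B * e.1 * y =
      (b * e.2.1 * x' - B * e.1 * y') - (b * e.2.1 * (x' - x) - B * e.1 * (y' - y)) := by ring
  rw [h6]
  exact dvd_sub h5 (dvd_sub (Dvd.dvd.mul_left hx _) (Dvd.dvd.mul_left hy _))

theorem div_congr {p n n' : ℕ} (hp : 0 < p) (h : n ≡ n' [MOD p ^ 2]) (hn : p ∣ n) (hn' : p ∣ n') :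
    (p : ℤ) ∣ ((n' / p : ℕ) : ℤ) - ((n / p : ℕ) : ℤ) := by
  obtain ⟨k, rfl⟩ := hn
  obtain ⟨k', rfl⟩ := hn'
  rw [Nat.mul_div_cancel_left _ hp, Nat.mul_div_cancel_left _ hp]
  have h1 : ((p ^ 2 : ℕ) : ℤ) ∣ ((p * k' : ℕ) : ℤ) - ((p * k : ℕ) : ℤ) := by
    exact (Nat.modEq_iff_dvd (n := p ^ 2)).1 h
  push_cast at h1
  rw [pow_two, ← mul_sub] at h1
  exact Int.dvd_of_mul_dvd_mul_left (by exact_mod_cast hp.ne') h1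

theorem xx_congr {p g n n' : ℕ} (hp : 0 < p) (h : n ≡ n' [MOD p ^ 2]) :
    (p : ℤ) ∣ xx g n' p - xx g n p := by
  have hpp : p ∣ p ^ 2 := Dvd.intro_left p (by ring)
  have h1 : n ≡ n' [MOD p] := h.of_dvd hpp
  have h2 : p ∣ n ↔ p ∣ n' := by
    rw [← Nat.modEq_zero_iff_dvd, ← Nat.modEq_zero_iff_dvd]
    exact ⟨fun h3 => h1.symm.trans h3, fun h3 => h1.trans h3⟩
  unfold xx
  by_cases h3 : p ∣ n ∧ p ∣ g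
  · rw [if_pos h3, if_pos ⟨h2.1 h3.1, h3.2⟩]
    exact div_congr hp (h.add_right g) ((Nat.dvd_add_right h3.1).2 h3.2)
      ((Nat.dvd_add_right (h2.1 h3.1)).2 h3.2)
  · rw [if_neg h3, if_neg (fun h4 => h3 ⟨h2.2 h4.1, h4.2⟩)]
    exact (Nat.modEq_iff_dvd (n := p)).1 (h1.add_right g)

theorem yy_congr {p g n n' : ℕ} (hp : 0 < p) (h : n ≡ n' [MOD p ^ 2]) :
    (p : ℤ) ∣ yy g n' p - yy g n p := by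
  have hpp : p ∣ p ^ 2 := Dvd.intro_left p (by ring)
  have h1 : n ≡ n' [MOD p] := h.of_dvd hpp
  have h2 : p ∣ n ↔ p ∣ n' := by
    rw [← Nat.modEq_zero_iff_dvd, ← Nat.modEq_zero_iff_dvd]
    exact ⟨fun h3 => h1.symm.trans h3, fun h3 => h1.trans h3⟩
  unfold yy
  by_cases h3 : p ∣ n ∧ p ∣ g
  · rw [if_pos h3, if_pos ⟨h2.1 h3.1, h3.2⟩]
    exact div_congr hp h h3.1 (h2.1 h3.1)
  · rw [if_neg h3, if_neg (fun h4 => h3 ⟨h2.2 h4.1, h4.2⟩)]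
    exact (Nat.modEq_iff_dvd (n := p)).1 h1

end

end Pool.Agent.MR2.LKM
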