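import Pool.Agent.Lib.MR2.LKMa

/-! TANK MR2, stage 2, row LKM, part 2: the bound for one class of one cell. helper88. -/

set_option autoImplicit false

namespace Pool.Agent.MR2.LKM

open Finset Pool.Agent.MRL

noncomputable section

/-- `A`: the expected size of one class -/
def AA (q P0 b B : ℕ) (PP : Finset ℕ) (κ R t : ℝ) : ℝ :=
  0.05 * κ * (0.01 * R) /
    (((q * (∏ p ∈ PP, p) ^ 2 * (b * B) : ℕ) : ℝ) * ((P0 * ∏ p ∈ PP, p : ℕ) : ℝ)) * √t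

variable {C2 C3 C4 q a P0 g b B W : ℕ} {PP : Finset ℕ} {κ c R t z1 f : ℝ}

theorem CH.prime (h : CH C2 C3 C4 q P0 g b B W PP κ c R t z1 f) {p : ℕ} (hp : p ∈ PP) :
    p.Prime := (h.HF2.PPp p hp).1

theorem CH.prod_pos (h : CH C2 C3 C4 q P0 g b B W PP κ c R t z1 f) : 0 < ∏ p ∈ PP, p :=
  Finset.prod_pos fun p hp => (h.prime hp).pos

theorem CH.coP (h : CH C2 C3 C4 q P0 g b B W PP κ c R t z1 f) :
    Nat.Coprime P0 (∏ p ∈ PP, p) := by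
  apply Nat.Coprime.prod_right
  intro p hp
  exact ((Nat.Prime.coprime_iff_not_dvd (h.prime hp)).2 (h.HF2.PPp p hp).2.2).symm

theorem CH.b_co (h : CH C2 C3 C4 q P0 g b B W PP κ c R t z1 f) :
    Nat.Coprime b (P0 * ∏ p ∈ PP, p) := (Nat.Prime.coprime_iff_not_dvd h.HF2.bp).2 h.bn

theorem CH.B_co (h : CH C2 C3 C4 q P0 g b B W PP κ c R t z1 f) :
    Nat.Coprime B (P0 * ∏ p ∈ PP, p) := (Nat.Prime.coprime_iff_not_dvd h.HF2.Bp).2 h.Bn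

theorem CH.bB_co (h : CH C2 C3 C4 q P0 g b B W PP κ c R t z1 f) : Nat.Coprime b B :=
  (Nat.coprime_primes h.HF2.bp h.HF2.Bp).2 h.blt.ne

/-- a number coprime to `P0 ∏ PP` is coprime to `q (∏ PP)²` -/
theorem CH.co_of (h : CH C2 C3 C4 q P0 g b B W PP κ c R t z1 f) {m : ℕ}
    (hm : Nat.Coprime m (P0 * ∏ p ∈ PP, p)) : Nat.Coprime (q * (∏ p ∈ PP, p) ^ 2) m := by
  have h1 : Nat.Coprime m P0 := Nat.Coprime.coprime_mul_right_right hm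
  have h2 : Nat.Coprime m (∏ p ∈ PP, p) := Nat.Coprime.coprime_mul_left_right hm
  exact (Nat.Coprime.mul_right (h1.coprime_dvd_right h.qP) (h2.pow_right 2)).symm

theorem CH.r_co (h : CH C2 C3 C4 q P0 g b B W PP κ c R t z1 f) {r : ℕ} (hr : r.Prime)
    (hrz : z1 < r) : Nat.Coprime r (P0 * ∏ p ∈ PP, p) := by
  rw [Nat.Prime.coprime_iff_not_dvd hr, hr.dvd_mul, not_or]
  refine ⟨fun h1 => ?_, fun h1 => ?_⟩
  · exact absurd (h.P0z r hr h1) (not_le.2 hrz)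
  · obtain ⟨p, hp, h2⟩ := (Prime.dvd_finsetProd_iff hr.prime _).1 h1
    have h3 := (Nat.prime_dvd_prime_iff_eq hr (h.prime hp)).1 h2
    have h4 := h.PPle p hp
    rw [← h3] at h4
    exact absurd h4 (not_le.2 hrz)

theorem CH.kappa_le (h : CH C2 C3 C4 q P0 g b B W PP κ c R t z1 f) : f + 0.05 * κ ≤ 1 := by
  have h1 := h.HF2.f1
  have h2 := h.HF2.κ1
  linarith

theorem CH.AA_nonneg (h : CH C2 C3 C4 q P0 g b B W PP κ c R t z1 f) :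
    0 ≤ AA q P0 b B PP κ R t := by
  have h1 := h.HF2.κ0
  have h2 := h.R1
  unfold AA
  positivity

/-- the residue classes: upper bound after fixing further classes -/
theorem count_le (h : CH C2 C3 C4 q P0 g b B W PP κ c R t z1 f) (hE : EqT t) {n₁ M₁ : ℕ}
    {i j m r u v : ℕ} (hi : i ≤ 2) (hj : j ≤ 2) (hr : r.Prime) (hrz : z1 < r)
    (hrY : (r : ℝ) ≤ t ^ (1 / 1000 : ℝ)) (hm0 : 0 < m) (hmB : m ≤ B ^ 4)
    (hm : Nat.Coprime m (P0 * ∏ p ∈ PP, p)) :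
    ((((ES t R (q * (∏ p ∈ PP, p) ^ 2 * (b * B)) n₁ (P0 * ∏ p ∈ PP, p) M₁ f
      (f + 0.05 * κ)).filter fun n => n % (b * B * r ^ i) = u ∧
        ⌊t / n⌋₊ % (m * r ^ j) = v).card : ℕ) : ℝ) ≤
      AA q P0 b B PP κ R t / (m * (r : ℝ) ^ (i + j)) + t ^ (9 / 20 : ℝ) := by
  classical
  set S := (ES t R (q * (∏ p ∈ PP, p) ^ 2 * (b * B)) n₁ (P0 * ∏ p ∈ PP, p) M₁ f
      (f + 0.05 * κ)).filter fun n => n % (b * B * r ^ i) = u ∧
        ⌊t / n⌋₊ % (m * r ^ j) = v with hS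
  have hA := h.AA_nonneg
  have ht0 : 0 ≤ t := by linarith [h.t4]
  have ht1 : 1 ≤ t := by linarith [h.t4]
  have hq0 : 0 < q := h.q1
  have hP0 : 0 < P0 := h.HF2.P0pos
  have hPP := h.prod_pos
  have hb0 := h.HF2.bp.pos
  have hB0 := h.HF2.Bp.pos
  have hr0 := hr.pos
  have hη : 0 ≤ t ^ (9 / 20 : ℝ) := Real.rpow_nonneg ht0 _
  rcases S.eq_empty_or_nonempty with h0 | ⟨n₂, h2⟩
  · rw [h0, card_empty, Nat.cast_zero]
    have : (0 : ℝ) ≤ AA q P0 b B PP κ R t / (m * (r : ℝ) ^ (i + j)) := by positivity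
    linarith
  rw [hS, mem_filter, mem_ES] at h2
  obtain ⟨⟨h21, h22, h23, h24, h25, h26⟩, h27, h28⟩ := h2
  set N := q * (∏ p ∈ PP, p) ^ 2 * (b * B * r ^ i) with hN
  set Qm := (P0 * ∏ p ∈ PP, p) * (m * r ^ j) with hQm
  have hrc := h.r_co hr hrz
  have hco1 : Nat.Coprime (q * (∏ p ∈ PP, p) ^ 2) (b * B * r ^ i) :=
    h.co_of ((h.b_co.mul_left h.B_co).mul_left (hrc.pow_left i))
  have hco2 : Nat.Coprime (P0 * ∏ p ∈ PP, p) (m * r ^ j) :=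
    (hm.mul_left (hrc.pow_left j)).symm
  have hsub : S ⊆ ES t R N n₂ Qm ⌊t / n₂⌋₊ f (f + 0.05 * κ) := by
    intro n hn
    rw [hS, mem_filter, mem_ES] at hn
    obtain ⟨⟨h31, h32, h33, h34, h35, h36⟩, h37, h38⟩ := hn
    rw [mem_ES]
    refine ⟨h31, h32, ?_, ?_, h35, h36⟩
    · refine (Nat.modEq_and_modEq_iff_modEq_mul hco1).1 ⟨?_, ?_⟩
      · have h4 : n ≡ n₂ [MOD (q * (∏ p ∈ PP, p) ^ 2 * (b * B))] := h33.trans h23.symm
        exact h4.of_mul_right _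
      · exact h37.trans h27.symm
    · refine (Nat.modEq_and_modEq_iff_modEq_mul hco2).1 ⟨?_, ?_⟩
      · exact h34.trans h24.symm
      · exact h38.trans h28.symm
  have hcard : (S.card : ℝ) ≤ ((ES t R N n₂ Qm ⌊t / n₂⌋₊ f (f + 0.05 * κ)).card : ℝ) := by
    exact_mod_cast card_le_card hsub
  have hr1 : (1 : ℝ) ≤ r := by exact_mod_cast hr.one_lt.le
  have hpow : ∀ k : ℕ, k ≤ 2 → (r : ℝ) ^ k ≤ (t ^ (1 / 1000 : ℝ)) ^ 2 := by
    intro k hk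
    calc (r : ℝ) ^ k ≤ (r : ℝ) ^ 2 := pow_le_pow_right₀ hr1 hk
      _ ≤ _ := pow_le_pow_left₀ (by linarith) hrY 2
  have hN1 : (N : ℝ) ≤ t ^ (1 / 100 : ℝ) := by
    refine le_trans ?_ h.mod1
    rw [hN]
    push_cast
    have h5 := hpow i hi
    have h6 : (0 : ℝ) ≤ q * (∏ p ∈ PP, (p : ℝ)) ^ 2 * (b * B) := by positivity
    calc (q : ℝ) * (∏ p ∈ PP, (p : ℝ)) ^ 2 * (b * B * (r : ℝ) ^ i) =
        q * (∏ p ∈ PP, (p : ℝ)) ^ 2 * (b * B) * (r : ℝ) ^ i := by ring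
      _ ≤ _ := mul_le_mul_of_nonneg_left h5 h6
  have hQ1 : (Qm : ℝ) ≤ t ^ (1 / 100 : ℝ) := by
    refine le_trans ?_ h.mod2
    rw [hQm]
    push_cast
    have h5 := hpow j hj
    have h6 : (m : ℝ) ≤ (B : ℝ) ^ 4 := by exact_mod_cast hmB
    have h7 : (0 : ℝ) ≤ P0 * ∏ p ∈ PP, (p : ℝ) := by positivity
    calc (P0 : ℝ) * (∏ p ∈ PP, (p : ℝ)) * (m * (r : ℝ) ^ j) ≤
        (P0 * ∏ p ∈ PP, (p : ℝ)) * ((B : ℝ) ^ 4 * (t ^ (1 / 1000 : ℝ)) ^ 2) := by gcongr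
      _ = _ := by ring
  have h5 := hE N n₂ Qm ⌊t / n₂⌋₊ f (f + 0.05 * κ) R (by positivity) (by positivity) hN1 hQ1
    h.HF2.f0 (by linarith [h.HF2.κ0]) h.kappa_le h.R1 h.Rt
  have h6 := (abs_le.1 h5).2
  have h7 : (f + 0.05 * κ - f) * (0.01 * R) / ((N : ℝ) * Qm) * √t =
      AA q P0 b B PP κ R t / (m * (r : ℝ) ^ (i + j)) := by
    unfold AA
    rw [hN, hQm]
    push_cast
    have e1 : (f + 0.05 * κ - f) = 0.05 * κ := by ring
    rw [e1]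
    rw [pow_add]
    field_simp
  rw [h7] at h6
  linarith

/-- equidistribution of the class modulo `m` -/
theorem equi_mod (h : CH C2 C3 C4 q P0 g b B W PP κ c R t z1 f) (hE : EqT t) {n₁ M₁ m r : ℕ}
    (hm0 : 0 < m) (hmB : m ≤ B ^ 4) (hm : Nat.Coprime m (P0 * ∏ p ∈ PP, p)) :
    |((((ES t R (q * (∏ p ∈ PP, p) ^ 2 * (b * B)) n₁ (P0 * ∏ p ∈ PP, p) M₁ f
      (f + 0.05 * κ)).filter fun n : ℕ => ⌊t / n⌋₊ % m = r % m).card : ℕ) : ℝ) -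
      AA q P0 b B PP κ R t / m| ≤ t ^ (9 / 20 : ℝ) := by
  classical
  have ht1 : 1 ≤ t := by linarith [h.t4]
  have hq0 : 0 < q := h.q1
  have hP0 : 0 < P0 := h.HF2.P0pos
  have hPP := h.prod_pos
  have hb0 := h.HF2.bp.pos
  have hB0 := h.HF2.Bp.pos
  obtain ⟨M', h1, h2⟩ := Nat.chineseRemainder hm.symm M₁ r
  set N := q * (∏ p ∈ PP, p) ^ 2 * (b * B) with hN
  set Qm := (P0 * ∏ p ∈ PP, p) * m with hQm
  have hset : (ES t R N n₁ (P0 * ∏ p ∈ PP, p) M₁ f (f + 0.05 * κ)).filter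
      (fun n : ℕ => ⌊t / n⌋₊ % m = r % m) = ES t R N n₁ Qm M' f (f + 0.05 * κ) := by
    ext n
    rw [mem_filter, mem_ES, mem_ES]
    constructor
    · rintro ⟨⟨h31, h32, h33, h34, h35, h36⟩, h37⟩
      refine ⟨h31, h32, h33, ?_, h35, h36⟩
      exact (Nat.modEq_and_modEq_iff_modEq_mul hm.symm).1 ⟨h34.trans h1.symm, h37.trans h2.symm⟩
    · rintro ⟨h31, h32, h33, h34, h35, h36⟩
      have h4 := (Nat.modEq_and_modEq_iff_modEq_mul hm.symm).2 h34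
      exact ⟨⟨h31, h32, h33, h4.1.trans h1, h35, h36⟩, h4.2.trans h2⟩
  rw [hset]
  have hY1 : (1 : ℝ) ≤ (t ^ (1 / 1000 : ℝ)) ^ 2 :=
    one_le_pow₀ (Real.one_le_rpow ht1 (by norm_num))
  have hN1 : (N : ℝ) ≤ t ^ (1 / 100 : ℝ) := by
    refine le_trans ?_ h.mod1
    exact le_mul_of_one_le_right (by positivity) hY1
  have hQ1 : (Qm : ℝ) ≤ t ^ (1 / 100 : ℝ) := by
    refine le_trans ?_ h.mod2
    rw [hQm]
    push_cast
    have h6 : (m : ℝ) ≤ (B : ℝ) ^ 4 := by exact_mod_cast hmB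
    calc (P0 : ℝ) * (∏ p ∈ PP, (p : ℝ)) * m ≤ (P0 * ∏ p ∈ PP, (p : ℝ)) * (B : ℝ) ^ 4 := by gcongr
      _ ≤ _ := le_mul_of_one_le_right (by positivity) hY1
  have h5 := hE N n₁ Qm M' f (f + 0.05 * κ) R (by positivity) (by positivity) hN1 hQ1
    h.HF2.f0 (by linarith [h.HF2.κ0]) h.kappa_le h.R1 h.Rt
  have h7 : (f + 0.05 * κ - f) * (0.01 * R) / ((N : ℝ) * Qm) * √t =
      AA q P0 b B PP κ R t / m := by
    unfold AA
    rw [hN, hQm]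
    push_cast
    have e1 : (f + 0.05 * κ - f) = 0.05 * κ := by ring
    rw [e1]
    field_simp
  rwa [h7] at h5

end

end Pool.Agent.MR2.LKM
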