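import Pool.Agent.Lib.MR2.LKB
import Pool.Agent.Lib.MR2.LKMa

/-! # TANK MR2, stage 2, row LKM, part B: the parameters in the form of `CH` (helper69) -/

set_option autoImplicit false

namespace Pool.Agent.MR2

open Finset Filter Topology Pool.Agent.MRL

namespace LKP

/-- a smaller constant. -/
theorem HF_mono {C C' P0 b B W : ℕ} {PP : Finset ℕ} {κ f : ℝ} (h : HF C P0 b B W PP κ f)
    (hC : C' ≤ C) (hW : 1 ≤ W) : HF C' P0 b B W PP κ f := by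
  have hP : 0 < P0 * ∏ p ∈ PP, p :=
    Nat.mul_pos h.P0pos (Finset.prod_pos fun p hp => (h.PPp p hp).1.pos)
  refine ⟨h.P0pos, h.PPp, h.κ0, h.κ1, h.f0, h.f1, h.bp, h.Bp, h.bB, ?_, ?_, h.BW⟩
  · refine (pow_le_pow_right₀ ?_ hC).trans h.big
    rw [le_div_iff₀ h.κ0]
    have h1 : (1 : ℝ) ≤ ((P0 * ∏ p ∈ PP, p : ℕ) : ℝ) := by exact_mod_cast hP
    have := h.κ1
    linarith
  · exact (pow_le_pow_right₀ (by exact_mod_cast hW) hC).trans h.Wb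

/-- **Part B in the form of `CH`.** -/
theorem paramP (hFL : FamLow) (hM : MertensUp) (q : ℕ) (hq : 1 ≤ q) (κ0 : ℝ) (hk0 : 0 < κ0)
    (hk1 : κ0 ≤ 1 / 100) (C2 C3 C4 : ℕ) :
    ∃ P0 : ℕ, 0 < P0 ∧ q ∣ P0 ∧ ∃ T0 : ℝ, ∀ t : ℝ, T0 ≤ t → ∀ L c R z1 : ℝ, L = Real.log t →
    c = L ^ (-κ0) → R = L ^ (1 / 16 : ℝ) → z1 = L ^ (2 / 5 : ℝ) → ∃ (W : ℕ) (PP : Finset ℕ),
      ((P0 * ∏ p ∈ PP, p : ℕ) : ℝ) ≤ Real.exp (L ^ (9 / 20 : ℝ)) ∧
      Real.log W ≤ L ^ (9 / 20 : ℝ) ∧ c / R = L ^ (-κ0 - 1 / 16) ∧ 0 < L ∧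
      ∀ g : ℕ, 0 < g → q ∣ g → (g : ℝ) ≤ q * Real.log L → ∀ b B : ℕ, b.Prime → B.Prime →
        Real.exp (L ^ (1 / 2 : ℝ)) < b → (b : ℝ) ≤ Real.exp (L ^ (2 / 3 : ℝ)) →
        Real.exp (L ^ (7 / 10 : ℝ)) < B → (B : ℝ) ≤ Real.exp (L ^ (9 / 10 : ℝ)) →
        ∀ f : ℝ, 0 ≤ f → f ≤ 1 / 200 →
        LKM.CH C2 C3 C4 q P0 g b B W PP (c / R) c R t z1 f ∧
        ∀ (M0 : ℕ) (x y : ℕ → ℤ), XY PP x y →
          1 ≤ EE P0 PP (c / R) f b B W M0 x y ∧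
          c / R * L ^ (11 / 25 : ℝ) ≤ EE P0 PP (c / R) f b B W M0 x y := by
  set C := max C2 (max C3 C4) with hC
  obtain ⟨L0, hL0⟩ := paramB hFL hM q hq κ0 hk0 hk1 C
  refine ⟨P0 q, P0_pos hq, q_dvd_P0 q, ?_⟩
  have ev : ∀ᶠ t : ℝ in atTop, (((((((L0 ≤ Real.log t ∧ 1 ≤ Real.log t) ∧
      1000 * (q : ℝ) * Real.log (Real.log t) ≤ Real.log t ^ (1 / 16 - κ0)) ∧
      ((q : ℝ) + 1) * Real.log (Real.log t) ≤ Real.log t ^ (2 / 5 : ℝ)) ∧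
      625 * Real.log t ^ (9 / 10 : ℝ) ≤ Real.log t ^ (1 : ℝ)) ∧
      1000 * Real.log (Real.log t) ≤ Real.log t ^ (1 : ℝ)) ∧
      1 * Real.log t ^ (0 : ℝ) ≤ Real.log t ^ (2 / 5 : ℝ)) ∧ 10000 ≤ t) ∧
      2 ≤ Real.log (Real.log t) := by
    have h1 := ((((((((eventually_ge_atTop L0).and (eventually_ge_atTop (1 : ℝ))).and
      (ev_log (α := 1 / 16 - κ0) (by linarith) (1000 * q))).and
      (ev_log (α := 2 / 5) (by norm_num) ((q : ℝ) + 1))).and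
      (ev_rpow (α := 9 / 10) (β := 1) (by norm_num) 625)).and
      (ev_log (α := 1) (by norm_num) 1000)).and
      (ev_rpow (α := 0) (β := 2 / 5) (by norm_num) 1)))
    exact ((Real.tendsto_log_atTop.eventually h1).and (eventually_ge_atTop 10000)).and
      (Real.tendsto_log_atTop.eventually (Real.tendsto_log_atTop.eventually
        (eventually_ge_atTop 2)))
  obtain ⟨T0, hT0⟩ := eventually_atTop.1 ev
  refine ⟨T0, ?_⟩
  intro t ht L c R z1 hL hc hR hz1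
  obtain ⟨⟨⟨⟨⟨⟨⟨⟨g0, g1⟩, g2⟩, g3⟩, g4⟩, g5⟩, g6⟩, g7⟩, g8⟩ := hT0 t ht
  rw [← hL] at g0 g1 g2 g3 g4 g5 g6 g8
  rw [Real.rpow_one] at g4 g5
  rw [Real.rpow_zero, mul_one] at g6
  have hL1 : 0 < L := by linarith
  have ht0 : 0 < t := by linarith
  have hcR : c / R = L ^ (-κ0 - 1 / 16) := by
    rw [hc, hR, ← Real.rpow_sub hL1]
  obtain ⟨W, hW⟩ : ∃ W : ℕ, W = ⌊Real.exp (L ^ (9 / 20 : ℝ))⌋₊ := ⟨_, rfl⟩
  obtain ⟨p1, p2, p3, p4, p5, p6⟩ := hL0 L g0 W z1 (c / R) hz1 hcR hW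
  refine ⟨W, PP q z1, p1, p2, hcR, hL1, ?_⟩
  intro g hg hqg hgL b B hb hB hb1 hb2 hB1 hB2 f hf0 hf1
  obtain ⟨r1, r2, r3, r4, r5, r6⟩ := p6 b B hb hB hb1 hb2 hB1 hB2 f hf0 hf1
  have hz1' : 1 ≤ z1 := by rw [hz1]; exact g6
  have hz0 : 0 ≤ z1 := by linarith
  have hq0 : (1 : ℝ) ≤ q := by exact_mod_cast hq
  have hts : ∀ x : ℝ, t ^ x = Real.exp (L * x) := by
    intro x
    rw [Real.rpow_def_of_pos ht0, hL]
  have hW1 : 1 ≤ W := by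
    have h1 : (1 : ℝ) ≤ z1 ^ 16 := one_le_pow₀ hz1'
    have h2 : (1 : ℝ) ≤ W := h1.trans p4
    exact_mod_cast h2
  have hc0 : 0 < c := by rw [hc]; positivity
  have hR0 : 0 < R := by rw [hR]; positivity
  have hR1 : 1 ≤ R := by rw [hR]; exact Real.one_le_rpow g1 (by norm_num)
  have hllL : Real.log L ≤ L / 1000 := by linarith
  have hb0 : (0 : ℝ) < b := by exact_mod_cast hb.pos
  have hB0 : (0 : ℝ) < B := by exact_mod_cast hB.pos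
  have h910 : L ^ (9 / 20 : ℝ) ≤ L ^ (9 / 10 : ℝ) :=
    Real.rpow_le_rpow_of_exponent_le g1 (by norm_num)
  have h23 : L ^ (2 / 3 : ℝ) ≤ L ^ (9 / 10 : ℝ) :=
    Real.rpow_le_rpow_of_exponent_le g1 (by norm_num)
  have hY2 : (t ^ (1 / 1000 : ℝ)) ^ 2 = Real.exp (L / 500) := by
    rw [hts, ← Real.exp_nat_mul]; congr 1; push_cast; ring
  have h100 : t ^ (1 / 100 : ℝ) = Real.exp (L / 100) := by
    rw [hts]; congr 1; ring
  have hgz : (g : ℝ) < z1 := by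
    rw [← hz1] at g3
    have : 0 < Real.log L := by linarith
    nlinarith
  have hL10 : 0 ≤ L ^ (9 / 10 : ℝ) := by positivity
  have hz1L : z1 ≤ L ^ (9 / 10 : ℝ) := by
    rw [hz1]; exact Real.rpow_le_rpow_of_exponent_le g1 (by norm_num)
  refine ⟨⟨hq, hqg, hg, q_dvd_P0 q, hc0, ?_, ?_, g7, rfl, PP_or hz0, PP_le hz0,
    HF_mono r1 (le_max_left _ _) hW1, HF_mono r1 ((le_max_left _ _).trans (le_max_right _ _)) hW1,
    HF_mono r1 ((le_max_right _ _).trans (le_max_right _ _)) hW1, r4, r5, r2, r3, hz1', p4, hgz,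
    ?_, ?_, ?_, hR1, ?_, ?_, ?_⟩, r6⟩
  · rw [hc]; exact Real.rpow_le_one_of_one_le_of_nonpos g1 (by linarith)
  · have e1 : c * R = L ^ (1 / 16 - κ0) := by
      rw [hc, hR, ← Real.rpow_add hL1]; congr 1; ring
    rw [e1]
    calc 1000 * (g : ℝ) ≤ 1000 * (q * Real.log L) := by gcongr
      _ = 1000 * q * Real.log L := by ring
      _ ≤ _ := g2
  · -- z1 < t^(1/1000)
    rw [hts]
    -- `z1 = L^(2/5) ≤ exp (2/5 log L)`
    rw [hz1, Real.rpow_def_of_pos hL1, Real.exp_lt_exp]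
    have : 0 < Real.log L := by linarith
    nlinarith
  · intro p hp hpd
    have h1 := le_of_dvd_P0 hp hpd hq
    have h2 : (p : ℝ) ≤ ((210 * q : ℕ) : ℝ) := by exact_mod_cast h1
    exact h2.trans p3
  · rw [h100]
    have h1 : L / 100 + 1 ≤ Real.exp (L / 100) := Real.add_one_le_exp _
    have h4 : 625 * z1 ≤ L := by linarith
    linarith
  · rw [h100, hR, Real.rpow_def_of_pos hL1, Real.exp_le_exp]
    have : 0 < Real.log L := by linarith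
    linarith
  · rw [hY2, h100]
    have hPP0 : (0 : ℝ) ≤ ((∏ p ∈ PP q z1, p : ℕ) : ℝ) := by positivity
    have e1 : ((q * (∏ p ∈ PP q z1, p) ^ 2 * (b * B) : ℕ) : ℝ) ≤
        ((P0 q * ∏ p ∈ PP q z1, p : ℕ) : ℝ) ^ 2 * (b * B) := by
      push_cast
      have h1 : (q : ℝ) ≤ (P0 q : ℝ) ^ 2 := by
        have h2 : (q : ℝ) ≤ P0 q := by exact_mod_cast Nat.le_of_dvd (P0_pos hq) (q_dvd_P0 q)
        nlinarith
      rw [mul_pow]
      have := mul_le_mul_of_nonneg_right h1 (sq_nonneg ((∏ p ∈ PP q z1, p : ℕ) : ℝ))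
      push_cast at this
      apply mul_le_mul_of_nonneg_right this (by positivity)
    have e2 : ((P0 q * ∏ p ∈ PP q z1, p : ℕ) : ℝ) ^ 2 ≤ Real.exp (2 * L ^ (9 / 20 : ℝ)) := by
      rw [show 2 * L ^ (9 / 20 : ℝ) = ((2 : ℕ) : ℝ) * L ^ (9 / 20 : ℝ) by norm_num,
        Real.exp_nat_mul]
      exact pow_le_pow_left₀ (by positivity) p1 2
    have e3 : (b : ℝ) * B ≤ Real.exp (L ^ (2 / 3 : ℝ) + L ^ (9 / 10 : ℝ)) := by
      rw [Real.exp_add]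
      exact mul_le_mul hb2 hB2 hB0.le (Real.exp_pos _).le
    calc ((q * (∏ p ∈ PP q z1, p) ^ 2 * (b * B) : ℕ) : ℝ) * Real.exp (L / 500)
        ≤ Real.exp (2 * L ^ (9 / 20 : ℝ)) * Real.exp (L ^ (2 / 3 : ℝ) + L ^ (9 / 10 : ℝ)) *
          Real.exp (L / 500) := by
          apply mul_le_mul_of_nonneg_right _ (Real.exp_pos _).le
          exact e1.trans (mul_le_mul e2 e3 (by positivity) (Real.exp_pos _).le)
      _ = Real.exp (2 * L ^ (9 / 20 : ℝ) + (L ^ (2 / 3 : ℝ) + L ^ (9 / 10 : ℝ)) + L / 500) := by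
          rw [← Real.exp_add, ← Real.exp_add]
      _ ≤ Real.exp (L / 100) := by
          rw [Real.exp_le_exp]
          linarith
  · rw [hY2, h100]
    have e3 : (B : ℝ) ^ 4 ≤ Real.exp (4 * L ^ (9 / 10 : ℝ)) := by
      rw [show 4 * L ^ (9 / 10 : ℝ) = ((4 : ℕ) : ℝ) * L ^ (9 / 10 : ℝ) by norm_num,
        Real.exp_nat_mul]
      exact pow_le_pow_left₀ (by positivity) hB2 4
    calc ((P0 q * ∏ p ∈ PP q z1, p : ℕ) : ℝ) * (B : ℝ) ^ 4 * Real.exp (L / 500)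
        ≤ Real.exp (L ^ (9 / 20 : ℝ)) * Real.exp (4 * L ^ (9 / 10 : ℝ)) * Real.exp (L / 500) := by
          apply mul_le_mul_of_nonneg_right _ (Real.exp_pos _).le
          exact mul_le_mul p1 e3 (by positivity) (Real.exp_pos _).le
      _ = Real.exp (L ^ (9 / 20 : ℝ) + 4 * L ^ (9 / 10 : ℝ) + L / 500) := by
          rw [Real.exp_add, Real.exp_add]
      _ ≤ Real.exp (L / 100) := by
          rw [Real.exp_le_exp]
          linarith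

end LKP

end Pool.Agent.MR2
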