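import Pool.Agent.Lib.MR2.Defs
import Pool.Agent.Lib.MRF.LCg
import Pool.Agent.Lib.MRL.MV

/-! ROW LL of the tank MR2: few points where a prime polynomial is at least `(log X)^(-10)`.
helper38 (after helper59's `MRF/LCg`). -/

set_option autoImplicit false

namespace Pool.Agent.MR2

open Finset Pool.Agent.MRL Pool.Agent.MRF

noncomputable section

theorem largeL : LargeL := by
  obtain ⟨C, hC, hMV⟩ := MRL.meanValue
  intro ε hε hε8
  -- the numerics
  have ev1 : ∀ᶠ L : ℝ in Filter.atTop, 10 ≤ Real.log L :=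
    Real.tendsto_log_atTop.eventually_ge_atTop 10
  have ev2 : ∀ᶠ L : ℝ in Filter.atTop, Real.log (132 * C) ≤ Real.log L := by
    exact Real.tendsto_log_atTop.eventually_ge_atTop _
  have ev3 : ∀ᶠ L : ℝ in Filter.atTop, 60 * Real.log L ≤ L ^ ε := by
    have h := (isLittleO_log_rpow_atTop hε).bound (c := 1 / 60) (by norm_num)
    filter_upwards [h, Filter.eventually_ge_atTop 1] with L h1 h2
    have h3 : 0 ≤ L ^ ε := Real.rpow_nonneg (by linarith) _
    rw [Real.norm_eq_abs, Real.norm_eq_abs, abs_of_nonneg h3] at h1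
    have := le_abs_self (Real.log L)
    linarith
  obtain ⟨L0, hL0⟩ := Filter.eventually_atTop.1
    (ev1.and (ev2.and (ev3.and (Filter.eventually_ge_atTop 4))))
  refine ⟨Real.exp L0, fun X hX f hf H v hH hHv hv hvX R hR hbad => ?_⟩
  have hX0 : 0 < X := (Real.exp_pos _).trans_le hX
  set L : ℝ := Real.log X with hL
  have hXL : X = Real.exp L := (Real.exp_log hX0).symm
  have hLL0 : L0 ≤ L := by
    rw [hL, Real.le_log_iff_exp_le hX0]
    exact hX
  obtain ⟨c1, c2, c3, c4⟩ := hL0 L hLL0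
  have hLpos : 0 < L := by linarith
  have hH0 : (0 : ℝ) < H := by exact_mod_cast hH
  have hH1 : (1 : ℝ) ≤ H := by exact_mod_cast hH
  set y : ℝ := (v : ℝ) / H with hy
  have hy1 : 1 ≤ y := by
    rw [hy, le_div_iff₀ hH0, one_mul]
    exact_mod_cast hHv
  have hy0 : 0 < y := by linarith
  -- `y ≤ L / 2`
  have hyL : y ≤ L / 2 := by
    have h1 : Real.exp (((v : ℝ) + 1) / H) ≤ Real.exp (L / 2) := by
      refine hvX.trans ?_
      rw [hXL, Real.sqrt_eq_rpow, ← Real.exp_mul]
      exact le_of_eq (by ring_nf)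
    have h2 := Real.exp_le_exp.1 h1
    have h3 : y ≤ ((v : ℝ) + 1) / H := div_le_div_of_nonneg_right (by linarith) hH0.le
    linarith
  have hLe1 : 1 ≤ L ^ ε := Real.one_le_rpow (by linarith) hε.le
  set l : ℕ := ⌈L / y⌉₊ with hl
  have hl1 : L / y ≤ l := Nat.le_ceil _
  have hl2 : (l : ℝ) < L / y + 1 := Nat.ceil_lt_add_one (by positivity)
  have hly1 : L ≤ l * y := by
    rw [div_le_iff₀ hy0] at hl1
    exact hl1
  have hly2 : l * y ≤ 2 * L := by
    have := mul_le_mul_of_nonneg_right hl2.le hy0.le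
    rw [add_mul, div_mul_cancel₀ _ hy0.ne', one_mul] at this
    linarith
  -- `l ≤ 2 L^ε`
  have hlε : (l : ℝ) ≤ 2 * L ^ ε := by
    have h1 : L / y ≤ L ^ ε := by
      rw [div_le_iff₀ hy0]
      have h2 : L = L ^ ε * L ^ (1 - ε) := by
        rw [← Real.rpow_add hLpos]
        simp
      calc L = L ^ ε * L ^ (1 - ε) := h2
        _ ≤ L ^ ε * y := mul_le_mul_of_nonneg_left hv (by positivity)
    linarith
  have hlL : (l : ℝ) ≤ L := by
    have h1 : L ^ ε ≤ L ^ (1 / 8 : ℝ) := Real.rpow_le_rpow_of_exponent_le (by linarith) hε8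
    have h2 : L ^ (1 / 8 : ℝ) ≤ L ^ (1 / 2 : ℝ) :=
      Real.rpow_le_rpow_of_exponent_le (by linarith) (by norm_num)
    have h3 : L ^ (1 / 2 : ℝ) ≤ L / 2 := by
      rw [← Real.sqrt_eq_rpow]
      rw [Real.sqrt_le_left (by positivity)]
      nlinarith
    linarith
  -- the points
  classical
  have hch : ∀ r : ℤ, ∃ t : ℝ, r ∈ R → t ∈ Set.Icc (r : ℝ) (r + 1) ∧
      L ^ (-(10 : ℝ)) ≤ ‖QF f H v t‖ := by
    intro r
    by_cases hr : r ∈ R
    · obtain ⟨t, ht, h⟩ := hbad r hr
      exact ⟨t, fun _ => ⟨ht, h⟩⟩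
    · exact ⟨0, fun h => absurd h hr⟩
  choose τ hτ using hch
  have hlog0 : 0 < Real.log L := by linarith
  set α : ℝ := 10 * Real.log L / y with hα
  have hαy : α * v / H = 10 * Real.log L := by
    rw [mul_div_assoc, ← hy, hα, div_mul_cancel₀ _ hy0.ne']
  have hcount := LCF.count_v f (fun p _ => hf p) hMV hC (X := X) (by
      rw [hXL]; exact Real.one_le_exp hLpos.le) hH (α := α) (v := v) (l := l)
    (by
      nth_rewrite 1 [hXL]
      exact Real.exp_le_exp.2 hly1) R hR τ (fun r hr => (hτ r hr).1) (by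
      intro r hr
      have h1 := (hτ r hr).2
      have h2 : Real.exp (-(α * v / H)) = L ^ (-(10 : ℝ)) := by
        rw [hαy, Real.rpow_def_of_pos hLpos]
        congr 1
        ring
      rw [h2]
      exact h1)
  refine hcount.trans ?_
  -- the factors
  have f1 : Real.exp (2 * α * (l * ((v : ℝ) / H))) = Real.exp (20 * (l * Real.log L)) := by
    rw [← hy]
    congr 1
    rw [hα]
    field_simp
    ring
  have f2 : 2 + (l * (((v : ℝ) + 1) / H)) ^ 2 ≤ 11 * Real.exp (2 * Real.log L) := by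
    have h1 : (l : ℝ) * (((v : ℝ) + 1) / H) = l * y + l / H := by
      rw [hy]; ring
    have h2 : (l : ℝ) / H ≤ l := div_le_self (Nat.cast_nonneg l) hH1
    have h3 : (l : ℝ) * (((v : ℝ) + 1) / H) ≤ 3 * L := by
      rw [h1]
      linarith
    have h4 : Real.exp (2 * Real.log L) = L ^ 2 := by
      rw [mul_comm, Real.exp_mul, Real.exp_log hLpos]
      norm_cast
    rw [h4]
    have h5 : (0 : ℝ) ≤ l * (((v : ℝ) + 1) / H) := by positivity
    nlinarith [pow_le_pow_left₀ h5 h3 2]
  have f3 : (l.factorial : ℝ) ≤ Real.exp (l * Real.log L) := by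
    have h1 : (l.factorial : ℝ) ≤ (l : ℝ) ^ l := by exact_mod_cast Nat.factorial_le_pow l
    refine h1.trans ?_
    rw [mul_comm, Real.exp_mul, Real.exp_log hLpos, Real.rpow_natCast]
    exact pow_le_pow_left₀ (Nat.cast_nonneg l) hlL l
  have f4 : (3 : ℝ) ^ l * Real.exp l ≤ Real.exp (l * Real.log L) := by
    have h1 : (3 : ℝ) ≤ Real.exp 2 := by
      have := Real.exp_one_gt_d9
      have h2 : Real.exp 2 = Real.exp 1 * Real.exp 1 := by
        rw [← Real.exp_add]; norm_num
      rw [h2]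
      nlinarith
    have h2 : (3 : ℝ) ^ l ≤ Real.exp (l * 2) := by
      rw [Real.exp_nat_mul]
      exact pow_le_pow_left₀ (by norm_num) h1 l
    calc (3 : ℝ) ^ l * Real.exp l ≤ Real.exp (l * 2) * Real.exp l :=
          mul_le_mul_of_nonneg_right h2 (Real.exp_pos _).le
      _ = Real.exp (l * 3) := by rw [← Real.exp_add]; ring_nf
      _ ≤ _ := Real.exp_le_exp.2 (mul_le_mul_of_nonneg_left (by linarith) (Nat.cast_nonneg l))
  have hrw : 3 * C * (4 * Real.exp l) * (2 + (l * (((v : ℝ) + 1) / H)) ^ 2) *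
      (l.factorial * 3 ^ l) = 12 * C * (2 + (l * (((v : ℝ) + 1) / H)) ^ 2) *
      (l.factorial * (3 ^ l * Real.exp l)) := by ring
  rw [hrw, f1]
  have g1 : (l.factorial : ℝ) * (3 ^ l * Real.exp l) ≤
      Real.exp (l * Real.log L) * Real.exp (l * Real.log L) :=
    mul_le_mul f3 f4 (by positivity) (by positivity)
  have g2 : 12 * C * (2 + (l * (((v : ℝ) + 1) / H)) ^ 2) * (l.factorial * (3 ^ l * Real.exp l)) ≤
      12 * C * (11 * Real.exp (2 * Real.log L)) *
        (Real.exp (l * Real.log L) * Real.exp (l * Real.log L)) :=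
    mul_le_mul (mul_le_mul_of_nonneg_left f2 (by positivity)) g1 (by positivity) (by positivity)
  have h7 : 132 * C ≤ Real.exp (Real.log L) := (Real.log_le_iff_le_exp (by positivity)).1 c2
  have h8 : L ^ (2 * ε) = L ^ ε * L ^ ε := by
    rw [← Real.rpow_add hLpos]
    ring_nf
  calc Real.exp (20 * (l * Real.log L)) * (12 * C * (2 + (l * (((v : ℝ) + 1) / H)) ^ 2) *
        (l.factorial * (3 ^ l * Real.exp l)))
      ≤ Real.exp (20 * (l * Real.log L)) * (12 * C * (11 * Real.exp (2 * Real.log L)) *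
        (Real.exp (l * Real.log L) * Real.exp (l * Real.log L))) :=
        mul_le_mul_of_nonneg_left g2 (Real.exp_pos _).le
    _ = 132 * C * (Real.exp (20 * (l * Real.log L)) * (Real.exp (2 * Real.log L) *
        (Real.exp (l * Real.log L) * Real.exp (l * Real.log L)))) := by ring
    _ ≤ Real.exp (Real.log L) * (Real.exp (20 * (l * Real.log L)) * (Real.exp (2 * Real.log L) *
        (Real.exp (l * Real.log L) * Real.exp (l * Real.log L)))) :=
        mul_le_mul_of_nonneg_right h7 (by positivity)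
    _ = Real.exp (Real.log L + (20 * (l * Real.log L) + (2 * Real.log L +
        (l * Real.log L + l * Real.log L)))) := by
        rw [← Real.exp_add, ← Real.exp_add, ← Real.exp_add, ← Real.exp_add]
    _ ≤ Real.exp (L ^ (2 * ε)) := by
        apply Real.exp_le_exp.2
        rw [h8]
        have h9 : (l : ℝ) * Real.log L ≤ 2 * L ^ ε * Real.log L :=
          mul_le_mul_of_nonneg_right hlε hlog0.le
        have h10 : L ^ ε * (60 * Real.log L) ≤ L ^ ε * L ^ ε :=
          mul_le_mul_of_nonneg_left c3 (by positivity)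
        have h11 : Real.log L ≤ L ^ ε * Real.log L := by nlinarith
        nlinarith

end

end Pool.Agent.MR2
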