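import Pool.Agent.Lib.MR2.ZV
import Pool.Agent.Lib.MRL.WeylAP
import Pool.Agent.Lib.MR2.LQDefs
import Pool.Agent.Lib.VMV.ZSDefs

/-!
# MR2, row LQ: `|L(1+a+iτ, χ)| ≤ C (log(2+|τ|))^{4/5}` from `VMV.ZsumS`.
helper65
-/

set_option autoImplicit false

namespace Pool.Agent.MR2

open Finset Complex Pool.Agent.MRL

noncomputable section

namespace LQ

/-- `e^{i t log(qm+b)}` -/
theorem exp_ap (q b m : ℕ) (hq : 1 ≤ q) (hm : 1 ≤ m) (t : ℝ) :
    Complex.exp (((t * Real.log ((q * m + b : ℕ) : ℝ) : ℝ)) * Complex.I) =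
      Complex.exp (((t * Real.log q : ℝ)) * Complex.I) *
      Complex.exp (((t * Real.log ((m : ℝ) + (b : ℝ) / q) : ℝ)) * Complex.I) := by
  have hq' : (1 : ℝ) ≤ q := by exact_mod_cast hq
  have hm' : (1 : ℝ) ≤ m := by exact_mod_cast hm
  have hb : (0 : ℝ) ≤ b := Nat.cast_nonneg b
  have h0 : 0 < (m : ℝ) + (b : ℝ) / q := by positivity
  rw [← Complex.exp_add, ← add_mul, ← Complex.ofReal_add, ← mul_add,
    ← Real.log_mul (by positivity) h0.ne']
  congr 4
  push_cast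
  field_simp

/-- the Vinogradov estimate in a residue class. -/
theorem zap (hZ : VMV.ZsumS) (q : ℕ) (hq : 1 ≤ q) : ∃ c C : ℝ, 0 < c ∧ 1 ≤ C ∧
    ∀ (K K' b : ℕ) (τ : ℝ), 2 ≤ |τ| → K' ≤ 2 * K → (K : ℝ) ≤ |τ| →
    C * (Real.log |τ|) ^ (4 / 5 : ℝ) ≤ Real.log K →
    ‖∑ n ∈ (Ioc K K').filter (fun n => n % q = b), nt n τ‖ ≤
      C * K * Real.exp (-(c * (Real.log K) ^ 3 / (Real.log |τ|) ^ 2)) := by
  obtain ⟨c, C, hc, hC, h⟩ := hZ
  have hq' : (1 : ℝ) ≤ q := by exact_mod_cast hq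
  have hl9 : 0 ≤ Real.log (9 * q ^ 2) := Real.log_nonneg (by nlinarith)
  refine ⟨min (c / 8) 1, 2 * C + 2 + 2 * Real.log (9 * q ^ 2), by positivity, by linarith, ?_⟩
  intro K K' b τ hτ hK' hKτ hlogK
  set t : ℝ := |τ| with ht
  have ht0 : 0 < t := by linarith
  have hx : 0 < Real.log t := Real.log_pos (by linarith)
  set x45 : ℝ := (Real.log t) ^ (4 / 5 : ℝ) with hx45
  have hx45h : 1 / 2 ≤ x45 := by
    calc (1 : ℝ) / 2 = (1 / 2) ^ (1 : ℝ) := by rw [Real.rpow_one]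
      _ ≤ (1 / 2 : ℝ) ^ (4 / 5 : ℝ) :=
          Real.rpow_le_rpow_of_exponent_ge (by norm_num) (by norm_num) (by norm_num)
      _ ≤ x45 := by
          refine Real.rpow_le_rpow (by norm_num) ?_ (by norm_num)
          calc (1 : ℝ) / 2 ≤ Real.log 2 := by linarith [Real.log_two_gt_d9]
            _ ≤ Real.log t := Real.log_le_log (by norm_num) hτ
  have hK9 : Real.log (9 * q ^ 2) ≤ Real.log K := by nlinarith
  have hKpos : 0 < (K : ℝ) := by
    by_contra hcon
    have : (K : ℝ) = 0 := le_antisymm (not_lt.1 hcon) (Nat.cast_nonneg K)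
    rw [this, Real.log_zero] at hlogK
    nlinarith
  have hs : 9 * q ^ 2 ≤ K := by
    have h1 : (9 : ℝ) * q ^ 2 ≤ K := (Real.log_le_log_iff (by positivity) hKpos).1 hK9
    exact_mod_cast h1
  have hK1 : 1 ≤ K := by exact_mod_cast hKpos
  have hKR : (1 : ℝ) ≤ K := by exact_mod_cast hK1
  have hlK0 : 0 ≤ Real.log K := Real.log_nonneg hKR
  have hlKt : Real.log K ≤ Real.log t := Real.log_le_log hKpos hKτ
  set c' : ℝ := min (c / 8) 1 with hc'
  have hc'1 : c' ≤ 1 := min_le_right _ _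
  have hc'8 : c' ≤ c / 8 := min_le_left _ _
  have hc'0 : 0 < c' := by positivity
  -- the size of the saving
  set S : ℝ := Real.exp (-(c' * (Real.log K) ^ 3 / (Real.log t) ^ 2)) with hS
  have hSK : 1 ≤ K * S := by
    have h1 : c' * (Real.log K) ^ 3 / (Real.log t) ^ 2 ≤ Real.log K := by
      rw [div_le_iff₀ (by positivity)]
      have h2 : (Real.log K) ^ 3 = Real.log K * (Real.log K) ^ 2 := by ring
      rw [h2]
      have h3 : (Real.log K) ^ 2 ≤ (Real.log t) ^ 2 := by gcongr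
      calc c' * (Real.log K * (Real.log K) ^ 2) ≤ 1 * (Real.log K * (Real.log K) ^ 2) := by gcongr
        _ = Real.log K * (Real.log K) ^ 2 := one_mul _
        _ ≤ Real.log K * (Real.log t) ^ 2 := by gcongr
    have h2 : Real.exp (-Real.log K) ≤ S := by
      rw [hS]
      gcongr
    calc (1 : ℝ) = K * Real.exp (-Real.log K) := by
          rw [Real.exp_neg, Real.exp_log hKpos]
          field_simp
      _ ≤ K * S := by gcongr
  have hSpos : 0 < S := Real.exp_pos _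
  have hgoal0 : 0 ≤ (2 * C + 2 + 2 * Real.log (9 * q ^ 2)) * K * S := by positivity
  rcases Nat.lt_or_ge b q with hb | hb
  swap
  · have : (Ioc K K').filter (fun n => n % q = b) = ∅ := by
      rw [filter_eq_empty_iff]
      intro n _ hn
      have := Nat.mod_lt n hq
      omega
    rw [this, sum_empty, norm_zero]
    exact hgoal0
  rcases Nat.lt_or_ge K' K with hMM | hMM
  · rw [Ioc_eq_empty (by omega)]
    simp only [filter_empty, sum_empty, norm_zero]
    exact hgoal0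
  have hqM : 9 * q ≤ K := by nlinarith
  set m1 : ℕ := (K - b) / q with hm1
  set m2 : ℕ := (K' - b) / q with hm2
  have hpar : ∀ m, K < q * m + b ↔ m1 < m := by
    intro m
    rw [hm1, Nat.div_lt_iff_lt_mul (by omega), mul_comm m q]
    omega
  have hpar2 : ∀ m, q * m + b ≤ K' ↔ m ≤ m2 := by
    intro m
    rw [hm2, Nat.le_div_iff_mul_le (by omega), mul_comm m q]
    omega
  have hset : (Ioc K K').filter (fun n => n % q = b) = (Ioc m1 m2).image (fun m => q * m + b) := by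
    ext n
    simp only [mem_filter, mem_Ioc, mem_image]
    constructor
    · rintro ⟨⟨h1, h2⟩, h3⟩
      have e : q * (n / q) + b = n := by
        have := Nat.div_add_mod n q
        rw [h3] at this
        exact this
      refine ⟨n / q, ⟨(hpar _).1 (by rw [e]; exact h1), (hpar2 _).1 (by rw [e]; exact h2)⟩, e⟩
    · rintro ⟨m, ⟨h1, h2⟩, rfl⟩
      refine ⟨⟨(hpar m).2 h1, (hpar2 m).2 h2⟩, ?_⟩
      rw [Nat.mul_add_mod]
      exact Nat.mod_eq_of_lt hb
  have hm1q : 3 * q ≤ m1 := by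
    rw [hm1, Nat.le_div_iff_mul_le (by omega)]
    have h1 : 3 * q * q + b ≤ K := by nlinarith
    omega
  have hm1pos : 1 ≤ m1 := by omega
  have hMm1 : K < q * (m1 + 1) + b := (hpar _).2 (by omega)
  have hm2m1 : m2 ≤ 2 * m1 + 2 := by
    by_contra hc
    have h1 : q * (2 * m1 + 3) + b ≤ K' := (hpar2 _).2 (by omega)
    nlinarith
  have hm1R : (1 : ℝ) ≤ m1 := by exact_mod_cast hm1pos
  have hm1K : m1 ≤ K := by
    rw [hm1]
    exact (Nat.div_le_self _ _).trans (by omega)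
  have hm1KR : (m1 : ℝ) ≤ K := by exact_mod_cast hm1K
  have hMm1' : (K : ℝ) ≤ (m1 : ℝ) ^ 2 := by
    have h1 : K ≤ m1 ^ 2 := by nlinarith
    exact_mod_cast h1
  have hlm1 : Real.log K / 2 ≤ Real.log m1 := by
    have h1 := Real.log_le_log hKpos hMm1'
    rw [Real.log_pow] at h1
    push_cast at h1
    linarith
  -- the sum
  set m3 : ℕ := min m2 (2 * m1) with hm3
  have hsum : ‖∑ n ∈ (Ioc K K').filter (fun n => n % q = b), nt n τ‖ =
      ‖∑ m ∈ Ioc m1 m2, Complex.exp (((t * Real.log ((m : ℝ) + (b : ℝ) / q) : ℝ)) * Complex.I)‖ := by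
    rw [ZV.norm_nt_sum, hset, sum_image]
    · have h1 : ∑ m ∈ Ioc m1 m2,
          Complex.exp (((|τ| * Real.log ((q * m + b : ℕ) : ℝ) : ℝ)) * Complex.I) =
          Complex.exp (((t * Real.log q : ℝ)) * Complex.I) *
          ∑ m ∈ Ioc m1 m2,
            Complex.exp (((t * Real.log ((m : ℝ) + (b : ℝ) / q) : ℝ)) * Complex.I) := by
        rw [mul_sum]
        exact sum_congr rfl fun m hm =>
          exp_ap q b m hq (by have := (mem_Ioc.1 hm).1; omega) t
      rw [h1, norm_mul, Complex.norm_exp_ofReal_mul_I, one_mul]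
    · intro x _ y _ hxy
      have : q * x = q * y := by simpa using hxy
      exact Nat.eq_of_mul_eq_mul_left (by omega) this
  rw [hsum]
  by_cases hle : m1 ≤ m2
  swap
  · rw [Ioc_eq_empty (by omega), sum_empty, norm_zero]
    exact hgoal0
  set F : ℕ → ℂ := fun m =>
    Complex.exp (((t * Real.log ((m : ℝ) + (b : ℝ) / q) : ℝ)) * Complex.I) with hF
  have hsplit : ∑ m ∈ Ioc m1 m2, F m = ∑ m ∈ Ioc m1 m3, F m + ∑ m ∈ Ioc m3 m2, F m := by
    rw [← sum_union (disjoint_left.2 fun x hx hx' => by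
      have := (mem_Ioc.1 hx).2
      have := (mem_Ioc.1 hx').1
      omega), Ioc_union_Ioc_eq_Ioc (by omega) (by omega)]
  have hsmall : ‖∑ m ∈ Ioc m3 m2, F m‖ ≤ 2 := by
    refine (norm_sum_le _ _).trans ?_
    have h1 : ∀ m, ‖F m‖ = 1 := fun m => Complex.norm_exp_ofReal_mul_I _
    simp only [h1, sum_const, nsmul_eq_mul, mul_one, Nat.card_Ioc]
    have : m2 - m3 ≤ 2 := by omega
    exact_mod_cast this
  have hmain : ‖∑ m ∈ Ioc m1 m3, F m‖ ≤ C * K * S := by
    refine (h m1 m3 t ((b : ℝ) / q) (by positivity) ?_ hτ (by omega) (by omega)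
      (hm1KR.trans hKτ) ?_).trans ?_
    · rw [div_le_one (by positivity)]
      exact_mod_cast hb.le
    · rw [← hx45]
      nlinarith
    · have h1 : Real.exp (-(c * (Real.log m1) ^ 3 / (Real.log t) ^ 2)) ≤ S := by
        rw [hS]
        apply Real.exp_le_exp.2
        apply neg_le_neg
        apply div_le_div_of_nonneg_right _ (by positivity)
        calc c' * (Real.log K) ^ 3 ≤ c / 8 * (Real.log K) ^ 3 := by gcongr
          _ = c * (Real.log K / 2) ^ 3 := by ring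
          _ ≤ c * (Real.log m1) ^ 3 := by gcongr
      gcongr
  rw [hsplit]
  refine (norm_add_le _ _).trans ((add_le_add hmain hsmall).trans ?_)
  have h9 : 0 ≤ (C + 2 * Real.log (9 * q ^ 2)) * (K * S) := by positivity
  nlinarith

/-- sums with periodic coefficients -/
theorem per_sum (q : ℕ) (hq : 1 ≤ q) (f : ℕ → ℂ) (hf : ∀ n, ‖f n‖ ≤ 1)
    (hper : ∀ n, f (n % q) = f n) (K K' : ℕ) (τ B : ℝ)
    (h : ∀ b, ‖∑ n ∈ (Ioc K K').filter (fun n => n % q = b), nt n τ‖ ≤ B) :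
    ‖∑ n ∈ Ioc K K', f n * nt n τ‖ ≤ q * B := by
  have h1 : ∑ n ∈ Ioc K K', f n * nt n τ =
      ∑ b ∈ range q, f b * ∑ n ∈ (Ioc K K').filter (fun n => n % q = b), nt n τ := by
    rw [← sum_fiberwise_of_maps_to (g := fun n => n % q) (t := range q)
      (fun n _ => mem_range.2 (Nat.mod_lt n hq))]
    refine sum_congr rfl fun b _ => ?_
    rw [mul_sum]
    refine sum_congr rfl fun n hn => ?_
    rw [← hper n, (mem_filter.1 hn).2]
  rw [h1]
  refine (norm_sum_le _ _).trans ?_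
  have h2 : ∀ b ∈ range q, ‖f b * ∑ n ∈ (Ioc K K').filter (fun n => n % q = b), nt n τ‖ ≤ B := by
    intro b _
    rw [norm_mul]
    calc _ ≤ 1 * B := mul_le_mul (hf b) (h b) (norm_nonneg _) zero_le_one
      _ = B := one_mul B
  refine (sum_le_sum h2).trans ?_
  simp

/-- one block, by partial summation. -/
theorem block {a τ B : ℝ} (ha : 0 < a) (f : ℕ → ℂ) {K M : ℕ} (hK : 1 ≤ K) (hM : K ≤ M)
    (hB : ∀ n, K ≤ n → n ≤ M → ‖∑ m ∈ Ioc K n, f m * nt m τ‖ ≤ B) :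
    ‖∑ n ∈ Ioc K M, f n * (n : ℂ) ^ (-(1 + a + τ * Complex.I))‖ ≤ B / K := by
  have hK0 : (0 : ℝ) < K := by exact_mod_cast hK
  have hB0 : 0 ≤ B := (norm_nonneg _).trans (hB K le_rfl hM)
  have h1 : ∑ n ∈ Ioc K M, f n * (n : ℂ) ^ (-(1 + a + τ * Complex.I))
      = ∑ n ∈ Ioc K M, (((n : ℝ) ^ (-(1 + a)) : ℝ) : ℂ) * (f n * nt n τ) := by
    refine Finset.sum_congr rfl fun n hn => ?_
    rw [Finset.mem_Ioc] at hn
    rw [ZU.cpow_eq_nt (by omega) a τ]
    ring
  rw [h1]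
  refine (ZU.abel_bound (fun n => (n : ℝ) ^ (-(1 + a))) (fun n => f n * nt n τ) K M hM B ?_ ?_
    hB).trans ?_
  · intro n hn
    have hn0 : (0 : ℝ) < n := by exact_mod_cast (by omega : 0 < n)
    exact Real.rpow_le_rpow_of_nonpos hn0 (by push_cast; linarith) (by linarith)
  · intro n hn
    positivity
  · rw [div_eq_mul_inv]
    refine mul_le_mul_of_nonneg_left ?_ hB0
    have h2 : ((K + 1 : ℕ) : ℝ) ^ (-(1 + a)) ≤ (K : ℝ) ^ (-(1 : ℝ)) := by
      refine (Real.rpow_le_rpow_of_nonpos hK0 (by push_cast; linarith) (by linarith)).trans ?_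
      exact Real.rpow_le_rpow_of_exponent_le (by exact_mod_cast hK) (by linarith)
    rwa [Real.rpow_neg_one] at h2

/-- harmonic head. -/
theorem head (a τ : ℝ) (ha : 0 < a) (f : ℕ → ℂ) (hf : ∀ n, ‖f n‖ ≤ 1) (M : ℕ) :
    ‖∑ n ∈ Icc 1 M, f n * (n : ℂ) ^ (-(1 + a + τ * Complex.I))‖ ≤ 1 + Real.log M := by
  refine (norm_sum_le _ _).trans ?_
  have h1 : ∑ n ∈ Icc 1 M, ‖f n * (n : ℂ) ^ (-(1 + a + τ * Complex.I))‖ ≤
      ∑ n ∈ Icc 1 M, ((n : ℝ))⁻¹ := by
    refine Finset.sum_le_sum fun n hn => ?_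
    rw [Finset.mem_Icc] at hn
    have hn1 : (1 : ℝ) ≤ n := by exact_mod_cast hn.1
    rw [ZU.cpow_eq_nt hn.1, norm_mul, norm_mul, ZU.norm_nt, mul_one, Complex.norm_real,
      Real.norm_eq_abs, abs_of_nonneg (by positivity), ← Real.rpow_neg_one]
    calc ‖f n‖ * (n : ℝ) ^ (-(1 + a)) ≤ 1 * (n : ℝ) ^ (-(1 + a)) := by
          gcongr
          exact hf n
      _ = (n : ℝ) ^ (-(1 + a)) := one_mul _
      _ ≤ (n : ℝ) ^ (-(1 : ℝ)) := Real.rpow_le_rpow_of_exponent_le hn1 (by linarith)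
  refine h1.trans ?_
  have h2 := harmonic_le_one_add_log M
  rw [harmonic_eq_sum_Icc] at h2
  push_cast at h2
  exact h2

/-- differences of `n^{-s}` -/
theorem cpow_diff {s : ℂ} (hs : 1 ≤ s.re) {n : ℕ} (hn : 1 ≤ n) :
    ‖(n : ℂ) ^ (-s) - ((n + 1 : ℕ) : ℂ) ^ (-s)‖ ≤ ‖s‖ * (1 / (n : ℝ) ^ 2) := by
  have hn0 : (1 : ℝ) ≤ n := by exact_mod_cast hn
  have hd : ∀ x ∈ Set.Icc (n : ℝ) (n + 1),
      HasDerivWithinAt (fun x : ℝ => (x : ℂ) ^ (-s)) (-s * (x : ℂ) ^ (-s - 1))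
        (Set.Icc (n : ℝ) (n + 1)) x := by
    intro x hx
    have hx0 : 0 < x := by linarith [hx.1]
    have h1 : HasDerivAt (fun z : ℂ => z ^ (-s)) (-s * (x : ℂ) ^ (-s - 1)) (x : ℂ) := by
      have := (hasDerivAt_id (x : ℂ)).cpow_const (c := -s) (Or.inl (by simpa using hx0))
      simpa using this
    exact h1.comp_ofReal.hasDerivWithinAt
  have hb : ∀ x ∈ Set.Icc (n : ℝ) (n + 1),
      ‖-s * (x : ℂ) ^ (-s - 1)‖ ≤ ‖s‖ * (1 / (n : ℝ) ^ 2) := by
    intro x hx
    have hx0 : 0 < x := by linarith [hx.1]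
    rw [norm_mul, norm_neg, Complex.norm_cpow_eq_rpow_re_of_pos hx0]
    refine mul_le_mul_of_nonneg_left ?_ (norm_nonneg _)
    have h2 : (-s - 1).re = -s.re - 1 := by simp
    rw [h2]
    calc x ^ (-s.re - 1) ≤ (n : ℝ) ^ (-s.re - 1) :=
          Real.rpow_le_rpow_of_nonpos (by linarith) hx.1 (by linarith)
      _ ≤ (n : ℝ) ^ (-(2 : ℝ)) := Real.rpow_le_rpow_of_exponent_le hn0 (by linarith)
      _ = 1 / (n : ℝ) ^ 2 := by
          rw [Real.rpow_neg (by linarith), one_div]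
          norm_cast
  have h3 := Convex.norm_image_sub_le_of_norm_hasDerivWithin_le hd hb (convex_Icc _ _)
    (Set.right_mem_Icc.2 (by linarith)) (Set.left_mem_Icc.2 (by linarith))
  rw [show (n : ℝ) - (n + 1) = -1 by ring, norm_neg, norm_one, mul_one] at h3
  push_cast at h3 ⊢
  exact h3

theorem tail_sq (N : ℕ) (hN : 1 ≤ N) : ∀ X : ℕ, N ≤ X →
    ∑ n ∈ Ioc N X, 1 / (n : ℝ) ^ 2 ≤ (1 : ℝ) / N - 1 / X := by
  intro X hX
  induction X, hX using Nat.le_induction with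
  | base => simp
  | succ X hX ih =>
    rw [← Finset.insert_Ioc_right_eq_Ioc_add_one hX, Finset.sum_insert (by simp)]
    have hX0 : (0 : ℝ) < X := by exact_mod_cast (by omega : 0 < X)
    have h1 : 1 / ((X + 1 : ℕ) : ℝ) ^ 2 ≤ 1 / (X : ℝ) - 1 / ((X + 1 : ℕ) : ℝ) := by
      push_cast
      rw [div_sub_div _ _ (by positivity) (by positivity), div_le_div_iff₀ (by positivity)
        (by positivity)]
      nlinarith
    linarith

/-- the tail of a series with bounded partial sums of the coefficients. -/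
theorem tail {s : ℂ} (hs : 1 ≤ s.re) (f : ℕ → ℂ) {B : ℝ}
    (hB : ∀ N X, ‖∑ n ∈ Ioc N X, f n‖ ≤ B) {N : ℕ} (hN : 1 ≤ N) (X : ℕ) (hX : N ≤ X) :
    ‖∑ n ∈ Ioc N X, f n * (n : ℂ) ^ (-s)‖ ≤ B * (1 + ‖s‖ / N) := by
  have hB0 : 0 ≤ B := (norm_nonneg _).trans (hB 0 0)
  have hN0 : (0 : ℝ) < N := by exact_mod_cast hN
  have h0 : ∑ n ∈ Ioc N X, f n * (n : ℂ) ^ (-s) = ∑ n ∈ Ioc N X, (n : ℂ) ^ (-s) * f n :=
    sum_congr rfl fun n _ => mul_comm _ _
  rw [h0, ZU.abel_id (fun n : ℕ => (n : ℂ) ^ (-s)) f N X hX]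
  have h1 : ‖((X + 1 : ℕ) : ℂ) ^ (-s) * ∑ n ∈ Ioc N X, f n‖ ≤ B := by
    rw [norm_mul, Complex.norm_natCast_cpow_of_pos (by omega)]
    have : ((X + 1 : ℕ) : ℝ) ^ (-s).re ≤ 1 := by
      refine Real.rpow_le_one_of_one_le_of_nonpos (by exact_mod_cast (by omega : 1 ≤ X + 1)) ?_
      simp only [Complex.neg_re]
      linarith
    calc _ ≤ 1 * B := mul_le_mul this (hB _ _) (norm_nonneg _) zero_le_one
      _ = B := one_mul B
  have h2 : ‖∑ n ∈ Ioc N X, ((n : ℂ) ^ (-s) - ((n + 1 : ℕ) : ℂ) ^ (-s)) * ∑ m ∈ Ioc N n, f m‖ ≤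
      ∑ n ∈ Ioc N X, (‖s‖ * (1 / (n : ℝ) ^ 2)) * B := by
    refine (norm_sum_le _ _).trans (sum_le_sum fun n hn => ?_)
    rw [mem_Ioc] at hn
    rw [norm_mul]
    exact mul_le_mul (cpow_diff hs (by omega)) (hB _ _) (norm_nonneg _) (by positivity)
  have h3 : ∑ n ∈ Ioc N X, (‖s‖ * (1 / (n : ℝ) ^ 2)) * B ≤ B * (‖s‖ / N) := by
    rw [← sum_mul, ← mul_sum]
    have h4 := tail_sq N hN X hX
    have h5 : (0 : ℝ) ≤ 1 / X := by positivity
    have h6 : ∑ n ∈ Ioc N X, 1 / (n : ℝ) ^ 2 ≤ (1 : ℝ) / N := by linarith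
    calc (‖s‖ * ∑ n ∈ Ioc N X, 1 / (n : ℝ) ^ 2) * B ≤ (‖s‖ * ((1 : ℝ) / N)) * B := by gcongr
      _ = B * (‖s‖ / N) := by ring
  refine (norm_add_le _ _).trans ?_
  have h7 := add_le_add h1 (h2.trans h3)
  refine h7.trans (le_of_eq ?_)
  ring

theorem ZsumS_zsum (hZ : VMV.ZsumS) : VMV.Zsum := by
  obtain ⟨c, C, hc, hC, h⟩ := hZ
  refine ⟨c, C, hc, hC, fun N M t ht hNM hM hNt hl => ?_⟩
  have := h N M t 0 le_rfl zero_le_one ht hNM hM hNt hl
  simpa using this

theorem per_shift {q : ℕ} (f : ℕ → ℂ) (hf : ∀ n, f (n + q) = f n) (n : ℕ) :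
    ∑ m ∈ Ioc n (n + q), f m = ∑ m ∈ Ioc 0 q, f m := by
  induction n with
  | zero => simp
  | succ n ih =>
    rw [← ih]
    have h1 : ∑ m ∈ Ioc n (n + 1 + q), f m = f (n + 1) + ∑ m ∈ Ioc (n + 1) (n + 1 + q), f m := by
      rw [← Finset.sum_insert (by simp)]
      congr 1
      ext m
      simp only [mem_insert, mem_Ioc]
      omega
    have h2 : ∑ m ∈ Ioc n (n + 1 + q), f m = ∑ m ∈ Ioc n (n + q), f m + f (n + 1 + q) := by
      rw [show n + 1 + q = (n + q) + 1 by ring, ← Finset.insert_Ioc_right_eq_Ioc_add_one (by omega),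
        Finset.sum_insert (by simp), add_comm]
    rw [hf (n + 1)] at h2
    have h3 := h1.symm.trans h2
    rw [add_comm] at h3
    exact add_right_cancel h3

theorem per_bound {q : ℕ} (hq : 1 ≤ q) (f : ℕ → ℂ) (hf1 : ∀ n, ‖f n‖ ≤ 1)
    (hf : ∀ n, f (n + q) = f n) (h0 : ∑ m ∈ Ioc 0 q, f m = 0) (N X : ℕ) :
    ‖∑ m ∈ Ioc N X, f m‖ ≤ q := by
  induction X using Nat.strong_induction_on with
  | _ X ih =>
    by_cases hX : X ≤ N + q
    · refine (norm_sum_le _ _).trans ((sum_le_sum fun m _ => hf1 m).trans ?_)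
      rw [sum_const, Nat.card_Ioc, nsmul_eq_mul, mul_one]
      exact_mod_cast (by omega : X - N ≤ q)
    · push Not at hX
      have h1 := ih (X - q) (by omega)
      have h2 : ∑ m ∈ Ioc N X, f m = ∑ m ∈ Ioc N (X - q), f m := by
        have h3 := per_shift f hf (X - q)
        rw [Nat.sub_add_cancel (by omega), h0] at h3
        rw [← Ioc_union_Ioc_eq_Ioc (b := X - q) (by omega) (by omega), sum_union
          (disjoint_left.2 fun x hx hx' => by
            have := (mem_Ioc.1 hx).2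
            have := (mem_Ioc.1 hx').1
            omega), h3, add_zero]
      rw [h2]
      exact h1

theorem char_partial {q : ℕ} [NeZero q] (χ : DirichletCharacter ℂ q) (hχ : χ ≠ 1) (N X : ℕ) :
    ‖∑ n ∈ Ioc N X, χ (n : ZMod q)‖ ≤ q := by
  have hq : 1 ≤ q := Nat.one_le_iff_ne_zero.2 (NeZero.ne q)
  refine per_bound hq (fun n => χ (n : ZMod q)) (fun n => DirichletCharacter.norm_le_one χ _)
    (fun n => by simp) ?_ N X
  have h1 : ∑ m ∈ Ioc 0 q, χ (m : ZMod q) = ∑ x : ZMod q, χ x := by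
    refine sum_bij (fun m _ => (m : ZMod q)) (fun _ _ => mem_univ _) ?_ ?_ (fun _ _ => rfl)
    · intro a ha b hb hab
      rw [mem_Ioc] at ha hb
      have h2 := (ZMod.natCast_eq_natCast_iff a b q).1 hab
      rcases Nat.lt_or_ge a q with h3 | h3
      · rcases Nat.lt_or_ge b q with h4 | h4
        · exact Nat.ModEq.eq_of_lt_of_lt h2 h3 h4
        · have hbq : b = q := by omega
          subst hbq
          have h5 : b ∣ a := (Nat.modEq_zero_iff_dvd.1 (h2.trans (by simp [Nat.ModEq])))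
          exact absurd (Nat.le_of_dvd ha.1 h5) (by omega)
      · have haq : a = q := by omega
        rcases Nat.lt_or_ge b q with h4 | h4
        · subst haq
          have h5 : a ∣ b := (Nat.modEq_zero_iff_dvd.1 (h2.symm.trans (by simp [Nat.ModEq])))
          exact absurd (Nat.le_of_dvd hb.1 h5) (by omega)
        · omega
    · intro x _
      by_cases hx : x = 0
      · exact ⟨q, by rw [mem_Ioc]; omega, by rw [hx]; simp⟩
      · refine ⟨x.val, ?_, ZMod.natCast_zmod_val x⟩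
        rw [mem_Ioc]
        have h2 := ZMod.val_lt x
        have h3 : 0 < x.val := Nat.pos_of_ne_zero fun h => hx ((ZMod.val_eq_zero x).1 h)
        omega
  rw [h1]
  exact MulChar.sum_eq_zero_of_ne_one hχ

end LQ

open LQ in
/-- the partial sums of a Dirichlet series with periodic coefficients of mean value zero -/
theorem lq_main (hZ : VMV.ZsumS) (q : ℕ) (hq : 1 ≤ q) (B : ℝ) : ∃ C : ℝ, 0 < C ∧
    ∀ f : ℕ → ℂ, (∀ n, ‖f n‖ ≤ 1) → (∀ n, f (n % q) = f n) →
    (∀ N X, ‖∑ n ∈ Ioc N X, f n‖ ≤ B) → ∀ a τ : ℝ, 0 < a → a ≤ 1 → 2 ≤ |τ| →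
    ∀ X : ℕ, ⌈τ ^ 2⌉₊ ≤ X →
    ‖∑ n ∈ Icc 1 X, f n * (n : ℂ) ^ (-(1 + a + τ * Complex.I))‖ ≤
      C * (Real.log (2 + |τ|)) ^ (4 / 5 : ℝ) := by
  obtain ⟨c, C0, hc, hC0, hZ⟩ := zap hZ q hq
  obtain ⟨δ, hδ, hδ1, CV, hCV, hVD⟩ := VDT.weyl_ap 1 q hq
  have hq' : (1 : ℝ) ≤ q := by exact_mod_cast hq
  refine ⟨C0 + 12 * (q * C0) / c + 24 * (q * CV / δ) + 3 * |B| + 60, by positivity, ?_⟩
  intro f hf hper hfB a τ ha ha1 hτ2 X hX
  set L : ℝ := Real.log (2 + |τ|) with hL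
  set t : ℝ := |τ| with ht
  have ht0 : 0 < t := by linarith
  have hx : 0 < Real.log t := Real.log_pos (by linarith)
  have hL1 : 1 ≤ L := by
    rw [hL, Real.le_log_iff_exp_le (by positivity)]
    have := Real.exp_one_lt_d9
    linarith
  have hL0 : (0 : ℝ) < L := by linarith
  have hxL : Real.log t ≤ L := Real.log_le_log ht0 (by linarith)
  have hLx : L ≤ 2 * Real.log t := by
    have h3 : L ≤ Real.log (t ^ 2) := by
      apply Real.log_le_log (by positivity)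
      nlinarith
    rw [Real.log_pow] at h3
    exact_mod_cast h3
  have hLp : 1 ≤ L ^ (4 / 5 : ℝ) := Real.one_le_rpow hL1 (by norm_num)
  -- lengths
  set N : ℕ := ⌈τ ^ 2⌉₊ with hN
  have hτt : τ ^ 2 = t ^ 2 := by rw [ht, sq_abs]
  have hN1 : 1 ≤ N := Nat.one_le_iff_ne_zero.mpr (by
    rw [hN]; exact (Nat.ceil_pos.mpr (by rw [hτt]; positivity)).ne')
  have hN0 : (0 : ℝ) < N := by exact_mod_cast hN1
  have hNτ : t ^ 2 ≤ N := by rw [← hτt]; exact Nat.le_ceil _
  have hN2 : (N : ℝ) ≤ 2 * t ^ 2 := by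
    have := Nat.ceil_lt_add_one (by positivity : 0 ≤ τ ^ 2)
    rw [← hN, hτt] at this
    nlinarith
  set M1 : ℕ := ⌈t⌉₊ with hM1
  have hM11 : 1 ≤ M1 := Nat.one_le_iff_ne_zero.mpr (Nat.ceil_pos.mpr ht0).ne'
  have hM1N : M1 ≤ N := Nat.ceil_le_ceil (by rw [hτt]; nlinarith)
  have htM1 : t ≤ M1 := Nat.le_ceil _
  have hM1t : (M1 : ℝ) ≤ 2 * t := by
    have := Nat.ceil_lt_add_one ht0.le
    rw [← hM1] at this
    linarith
  set y : ℝ := Real.exp (C0 * (Real.log t) ^ (4 / 5 : ℝ)) with hy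
  have hy1 : 1 ≤ y := Real.one_le_exp (by positivity)
  set M0 : ℕ := ⌈y⌉₊ with hM0
  have hM01 : 1 ≤ M0 := Nat.one_le_iff_ne_zero.mpr (Nat.ceil_pos.mpr (by linarith)).ne'
  have hyM : y ≤ M0 := Nat.le_ceil _
  have hM02 : (M0 : ℝ) ≤ 2 * y := by
    have := Nat.ceil_lt_add_one (by linarith : 0 ≤ y)
    rw [← hM0] at this
    linarith
  have hlogM : Real.log M0 ≤ 1 + C0 * L ^ (4 / 5 : ℝ) := by
    calc Real.log M0 ≤ Real.log (2 * y) := Real.log_le_log (by exact_mod_cast hM01) hM02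
      _ = Real.log 2 + C0 * (Real.log t) ^ (4 / 5 : ℝ) := by
          rw [Real.log_mul (by norm_num) (by linarith), hy, Real.log_exp]
      _ ≤ 1 + C0 * L ^ (4 / 5 : ℝ) := by
          have h1 : (Real.log t) ^ (4 / 5 : ℝ) ≤ L ^ (4 / 5 : ℝ) :=
            Real.rpow_le_rpow hx.le hxL (by norm_num)
          have h2 := Real.log_two_lt_d9
          have h3 : C0 * (Real.log t) ^ (4 / 5 : ℝ) ≤ C0 * L ^ (4 / 5 : ℝ) := by gcongr
          linarith
  set z : ℕ → ℂ := fun n => f n * (n : ℂ) ^ (-(1 + a + τ * Complex.I)) with hz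
  -- the middle range
  set b : ℝ := q * (C0 * Real.exp (-(c * (Real.log t) ^ (2 / 5 : ℝ)))) with hb
  have hb0 : 0 < b := by positivity
  have hmid : ∀ K K' : ℕ, M0 ≤ K → K < M1 → K ≤ K' → K' ≤ 2 * K →
      ‖∑ n ∈ Ioc K K', z n‖ ≤ b := by
    intro K K' hMK hKM hKK' hK'
    have hK0 : (0 : ℝ) < K := by exact_mod_cast (by omega : 0 < K)
    have hKt : (K : ℝ) ≤ t := (Nat.lt_ceil.mp hKM).le
    have hyK : y ≤ K := hyM.trans (by exact_mod_cast hMK)
    have hlK : C0 * (Real.log t) ^ (4 / 5 : ℝ) ≤ Real.log K := by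
      rw [Real.le_log_iff_exp_le hK0]
      exact hyK
    refine (block (B := q * (C0 * K * Real.exp (-(c * (Real.log t) ^ (2 / 5 : ℝ))))) ha f
      (by omega) hKK' ?_).trans (le_of_eq ?_)
    · intro n hKn hn
      refine per_sum q hq f hf hper K n τ _ fun b' => ?_
      refine (hZ K n b' τ hτ2 (by omega) hKt hlK).trans ?_
      have h5 := ZV.saving hC0 hc hτ2 hlK
      gcongr
    · rw [hb]
      field_simp
  -- number of dyadic blocks
  set d : ℕ := ⌈4 * Real.log t⌉₊ + 1 with hd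
  have hdle : (d : ℝ) ≤ 4 * Real.log t + 2 := by
    have := Nat.ceil_lt_add_one (by positivity : 0 ≤ 4 * Real.log t)
    rw [hd]
    push_cast
    linarith
  have hdL : (d : ℝ) ≤ 6 * L := by linarith
  have hNd : N ≤ 2 ^ d := by
    have h5 : (N : ℝ) ≤ 2 ^ d := by
      calc (N : ℝ) ≤ 2 * t ^ 2 := hN2
        _ = 2 * Real.exp (2 * Real.log t) := by
            rw [two_mul (Real.log t), Real.exp_add, Real.exp_log ht0]
            ring
        _ ≤ 2 * Real.exp (Real.log 2 * (⌈4 * Real.log t⌉₊ : ℝ)) := by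
            refine mul_le_mul_of_nonneg_left (Real.exp_le_exp.2 ?_) (by norm_num)
            have h6 : 4 * Real.log t ≤ (⌈4 * Real.log t⌉₊ : ℝ) := Nat.le_ceil _
            have h7 := Real.log_two_gt_d9
            nlinarith
        _ = 2 ^ d := by
            rw [hd, pow_succ, mul_comm (Real.log 2), Real.exp_nat_mul,
              Real.exp_log (by norm_num), mul_comm]
    exact_mod_cast h5
  have hM1d : M1 ≤ 2 ^ d := hM1N.trans hNd
  have hbd : (d : ℝ) * b ≤ 12 * (q * C0) / c * L ^ (4 / 5 : ℝ) := by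
    have h6 : L ^ (2 / 5 : ℝ) ≤ 2 * (Real.log t) ^ (2 / 5 : ℝ) := by
      calc L ^ (2 / 5 : ℝ) ≤ (2 * Real.log t) ^ (2 / 5 : ℝ) :=
            Real.rpow_le_rpow hL0.le hLx (by norm_num)
        _ = 2 ^ (2 / 5 : ℝ) * (Real.log t) ^ (2 / 5 : ℝ) := Real.mul_rpow (by norm_num) hx.le
        _ ≤ 2 * (Real.log t) ^ (2 / 5 : ℝ) := by
            gcongr
            calc (2 : ℝ) ^ (2 / 5 : ℝ) ≤ 2 ^ (1 : ℝ) :=
                  Real.rpow_le_rpow_of_exponent_le (by norm_num) (by norm_num)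
              _ = 2 := Real.rpow_one _
    set z' : ℝ := c * (Real.log t) ^ (2 / 5 : ℝ) with hz'
    have hz0 : 0 < z' := by positivity
    have h7 : Real.exp (-z') ≤ 1 / z' := by
      rw [Real.exp_neg, one_div]
      apply inv_anti₀ hz0
      linarith [Real.add_one_le_exp z']
    have h8 : 1 / z' ≤ 2 / (c * L ^ (2 / 5 : ℝ)) := by
      rw [div_le_div_iff₀ hz0 (by positivity), hz']
      nlinarith
    calc (d : ℝ) * b ≤ 6 * L * (q * (C0 * (2 / (c * L ^ (2 / 5 : ℝ))))) := by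
          rw [hb]
          gcongr
          exact h7.trans h8
      _ = 12 * (q * C0) / c * (L / L ^ (2 / 5 : ℝ)) := by
          field_simp
          ring
      _ = 12 * (q * C0) / c * L ^ (3 / 5 : ℝ) := by
          congr 1
          rw [div_eq_iff (by positivity), ← Real.rpow_add hL0]
          norm_num
      _ ≤ 12 * (q * C0) / c * L ^ (4 / 5 : ℝ) :=
          mul_le_mul_of_nonneg_left (Real.rpow_le_rpow_of_exponent_le hL1 (by norm_num))
            (by positivity)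
  -- the upper range
  set b2 : ℝ := q * (CV * (2 * t ^ (-δ))) with hb2
  have hb20 : 0 < b2 := by positivity
  have hupr : ∀ K K' : ℕ, M1 ≤ K → K < N → K ≤ K' → K' ≤ 2 * K →
      ‖∑ n ∈ Ioc K K', z n‖ ≤ b2 := by
    intro K K' hMK hKN hKK' hK'
    have hK1 : 1 ≤ K := by omega
    have hK0 : (0 : ℝ) < K := by exact_mod_cast hK1
    have htK : t ≤ K := htM1.trans (by exact_mod_cast hMK)
    refine (block (B := q * (CV * (K * (2 * t ^ (-δ))))) ha f hK1 hKK' ?_).trans (le_of_eq ?_)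
    · intro n hKn hn
      refine per_sum q hq f hf hper K n τ _ fun b' => ?_
      refine (hVD K n b' τ hK1 (by omega) (by
        intro h0
        rw [h0, abs_zero] at ht
        linarith) (by rw [Real.rpow_one]; exact htK)).trans ?_
      have e1 : (K : ℝ) / |τ| ≤ K * t ^ (-δ) := by
        rw [div_eq_mul_inv, ← ht]
        refine mul_le_mul_of_nonneg_left ?_ hK0.le
        rw [← Real.rpow_neg_one]
        exact Real.rpow_le_rpow_of_exponent_le (by linarith) (by linarith)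
      have e2 : (K : ℝ) ^ (1 - δ) ≤ K * t ^ (-δ) := by
        rw [sub_eq_add_neg, Real.rpow_add hK0, Real.rpow_one]
        refine mul_le_mul_of_nonneg_left ?_ hK0.le
        exact Real.rpow_le_rpow_of_nonpos ht0 htK (by linarith)
      have e3 : (K : ℝ) / |τ| + (K : ℝ) ^ (1 - δ) ≤ K * (2 * t ^ (-δ)) := by linarith
      gcongr
    · rw [hb2]
      field_simp
  have hbd2 : (d : ℝ) * b2 ≤ 24 * (q * CV / δ) := by
    have h5 : Real.log t ≤ t ^ δ / δ := Real.log_le_rpow_div ht0.le hδ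
    have h6 : (d : ℝ) ≤ 12 * (t ^ δ / δ) := by linarith
    calc (d : ℝ) * b2 ≤ 12 * (t ^ δ / δ) * (q * (CV * (2 * t ^ (-δ)))) := by
          rw [hb2]
          gcongr
      _ = 24 * (q * CV / δ) * (t ^ δ * t ^ (-δ)) := by ring
      _ = 24 * (q * CV / δ) := by
          rw [← Real.rpow_add ht0, add_neg_cancel, Real.rpow_zero, mul_one]
  have s1 : ∀ A B : ℕ, A ≤ B → ∑ n ∈ Icc 1 B, z n = ∑ n ∈ Icc 1 A, z n + ∑ n ∈ Ioc A B, z n := by
    intro A B hAB
    rw [← Finset.sum_union]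
    · congr 1
      ext x; simp only [Finset.mem_Ioc, Finset.mem_Icc, Finset.mem_union]; omega
    · rw [Finset.disjoint_left]
      intro x hx hx'
      simp only [Finset.mem_Ioc, Finset.mem_Icc] at hx hx'
      omega
  have hA : ‖∑ n ∈ Icc 1 M1, z n‖ ≤
      2 + C0 * L ^ (4 / 5 : ℝ) + 12 * (q * C0) / c * L ^ (4 / 5 : ℝ) := by
    by_cases hM : M0 ≤ M1
    · rw [s1 M0 M1 hM]
      refine (norm_add_le _ _).trans ?_
      have h5 := head a τ ha f hf M0
      have h6 := ZV.dyadic_count z hb0.le hmid d M0 le_rfl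
        (hM1d.trans (Nat.le_mul_of_pos_right _ hM01))
      linarith
    · push Not at hM
      have h5 := head a τ ha f hf M1
      have h6 : Real.log M1 ≤ Real.log M0 :=
        Real.log_le_log (by exact_mod_cast hM11) (by exact_mod_cast hM.le)
      have h7 : 0 ≤ 12 * (q * C0) / c * L ^ (4 / 5 : ℝ) := by positivity
      linarith
  have hBb : ‖∑ n ∈ Ioc M1 N, z n‖ ≤ 24 * (q * CV / δ) :=
    (ZV.dyadic_count z hb20.le hupr d M1 le_rfl
      (hNd.trans (Nat.le_mul_of_pos_right _ hM11))).trans hbd2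
  have hBpos : 0 ≤ B := (norm_nonneg _).trans (hfB 0 0)
  have hT : ‖∑ n ∈ Ioc N X, z n‖ ≤ 3 * B := by
    have hre : ((1 : ℂ) + a + τ * Complex.I).re = 1 + a := by simp
    have him : ((1 : ℂ) + a + τ * Complex.I).im = τ := by simp
    refine (tail (s := 1 + a + τ * Complex.I) (by rw [hre]; linarith) f hfB hN1 X hX).trans ?_
    have hns : ‖(1 : ℂ) + a + τ * Complex.I‖ ≤ 2 * t := by
      have := Complex.norm_le_abs_re_add_abs_im (1 + a + τ * Complex.I)
      rw [hre, him, abs_of_pos (by linarith : 0 < 1 + a)] at this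
      linarith
    have h5 : ‖(1 : ℂ) + a + τ * Complex.I‖ / N ≤ 2 := by
      rw [div_le_iff₀ hN0]
      nlinarith
    nlinarith
  rw [s1 N X hX, s1 M1 N hM1N]
  have h20 := norm_add_le (∑ n ∈ Icc 1 M1, z n + ∑ n ∈ Ioc M1 N, z n) (∑ n ∈ Ioc N X, z n)
  have h21 := norm_add_le (∑ n ∈ Icc 1 M1, z n) (∑ n ∈ Ioc M1 N, z n)
  have h22 : 3 * B ≤ 3 * |B| * L ^ (4 / 5 : ℝ) := by
    have := le_abs_self B
    have := abs_nonneg B
    nlinarith
  have h23 : 24 * (q * CV / δ) ≤ 24 * (q * CV / δ) * L ^ (4 / 5 : ℝ) := by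
    have : 0 ≤ 24 * (q * CV / δ) := by positivity
    nlinarith
  have h24 : (C0 + 12 * (q * C0) / c + 24 * (q * CV / δ) + 3 * |B| + 60) * L ^ (4 / 5 : ℝ) =
      C0 * L ^ (4 / 5 : ℝ) + 12 * (q * C0) / c * L ^ (4 / 5 : ℝ) +
        24 * (q * CV / δ) * L ^ (4 / 5 : ℝ) + 3 * |B| * L ^ (4 / 5 : ℝ) +
        60 * L ^ (4 / 5 : ℝ) := by ring
  rw [h24]
  linarith

open LQ in
/-- **Row LQ** -/
theorem lq (hZ : VMV.ZsumS) {q : ℕ} [NeZero q] (χ : DirichletCharacter ℂ q) : ∃ C : ℝ, 0 < C ∧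
    ∀ a τ : ℝ, 0 < a → a ≤ 1 → 1 / 2 ≤ |τ| →
    ‖DirichletCharacter.LFunction χ (1 + a + τ * Complex.I)‖ ≤
      C * (Real.log (2 + |τ|)) ^ (4 / 5 : ℝ) := by
  have hq : 1 ≤ q := Nat.one_le_iff_ne_zero.2 (NeZero.ne q)
  have hLlow : ∀ τ : ℝ, 1 / 2 ≤ |τ| → 1 / 2 ≤ (Real.log (2 + |τ|)) ^ (4 / 5 : ℝ) := by
    intro τ hτ
    calc (1 : ℝ) / 2 = (1 / 2) ^ (1 : ℝ) := by rw [Real.rpow_one]
      _ ≤ (1 / 2 : ℝ) ^ (4 / 5 : ℝ) :=
          Real.rpow_le_rpow_of_exponent_ge (by norm_num) (by norm_num) (by norm_num)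
      _ ≤ (Real.log (2 + |τ|)) ^ (4 / 5 : ℝ) := by
          refine Real.rpow_le_rpow (by norm_num) ?_ (by norm_num)
          calc (1 : ℝ) / 2 ≤ Real.log 2 := by linarith [Real.log_two_gt_d9]
            _ ≤ Real.log (2 + |τ|) := Real.log_le_log (by norm_num) (by linarith)
  by_cases hχ : χ = 1
  · -- principal character
    subst hχ
    obtain ⟨C, hC, h⟩ := zetaV (ZsumS_zsum hZ) vdc_row
    refine ⟨2 ^ (q.primeFactors.card) * C, by positivity, fun a τ ha ha1 hτ => ?_⟩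
    have hs1 : (1 : ℂ) + a + τ * Complex.I ≠ 1 := by
      intro h0
      have h1 := congrArg Complex.re h0
      simp at h1
      linarith
    have h2 := DirichletCharacter.LFunctionTrivChar_eq_mul_riemannZeta (N := q) hs1
    unfold DirichletCharacter.LFunctionTrivChar at h2
    rw [h2, norm_mul, norm_prod]
    have h3 : ∏ p ∈ q.primeFactors, ‖1 - (p : ℂ) ^ (-(1 + a + τ * Complex.I))‖ ≤
        2 ^ q.primeFactors.card := by
      rw [← prod_const]
      refine prod_le_prod (fun _ _ => norm_nonneg _) fun p hp => ?_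
      refine (norm_sub_le _ _).trans ?_
      rw [norm_one, Complex.norm_natCast_cpow_of_pos (Nat.prime_of_mem_primeFactors hp).pos]
      have : (p : ℝ) ^ (-(1 + (a : ℂ) + τ * Complex.I)).re ≤ 1 := by
        refine Real.rpow_le_one_of_one_le_of_nonpos
          (by exact_mod_cast (Nat.prime_of_mem_primeFactors hp).one_le) ?_
        simp
        linarith
      linarith
    calc _ ≤ 2 ^ q.primeFactors.card * (C * (Real.log (2 + |τ|)) ^ (4 / 5 : ℝ)) :=
          mul_le_mul h3 (h a τ ha ha1 hτ) (norm_nonneg _) (by positivity)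
      _ = _ := by ring
  · -- nonprincipal
    have hper : ∀ n : ℕ, χ ((n % q : ℕ) : ZMod q) = χ (n : ZMod q) := by
      intro n
      rw [ZMod.natCast_mod]
    have hB := char_partial χ hχ
    obtain ⟨C, hC, hmain⟩ := lq_main hZ q hq q
    -- small `τ`
    obtain ⟨C1, hC1⟩ : ∃ C1 : ℝ, ∀ a τ : ℝ, 0 ≤ a → a ≤ 1 → |τ| ≤ 2 →
        ‖DirichletCharacter.LFunction χ (1 + a + τ * Complex.I)‖ ≤ C1 := by
      have hcont : ContinuousOn (fun p : ℝ × ℝ =>
          DirichletCharacter.LFunction χ (1 + (p.1 : ℂ) + p.2 * Complex.I))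
          (Set.Icc (0 : ℝ) 1 ×ˢ Set.Icc (-2 : ℝ) 2) := by
        apply Continuous.continuousOn
        exact (DirichletCharacter.differentiable_LFunction hχ).continuous.comp (by fun_prop)
      obtain ⟨C1, h1⟩ := (isCompact_Icc.prod isCompact_Icc).exists_bound_of_continuousOn hcont
      exact ⟨C1, fun a τ h0 h2 h3 => h1 (a, τ) ⟨⟨h0, h2⟩, abs_le.1 h3⟩⟩
    refine ⟨C + 2 * |C1|, by positivity, fun a τ ha ha1 hτ => ?_⟩
    have hL := hLlow τ hτ
    by_cases hτ2 : |τ| ≤ 2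
    · refine (hC1 a τ ha.le ha1 hτ2).trans ?_
      have := le_abs_self C1
      have := abs_nonneg C1
      nlinarith
    push Not at hτ2
    have hre : ((1 : ℂ) + a + τ * Complex.I).re = 1 + a := by simp
    have hs : 1 < ((1 : ℂ) + a + τ * Complex.I).re := by rw [hre]; linarith
    rw [DirichletCharacter.LFunction_eq_LSeries χ hs]
    have hsum := (DirichletCharacter.LSeriesSummable_of_one_lt_re χ hs).hasSum.tendsto_sum_nat
    have hlim : Filter.Tendsto (fun X : ℕ => ‖∑ n ∈ Icc 1 X, χ (n : ZMod q) *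
        (n : ℂ) ^ (-(1 + a + τ * Complex.I))‖) Filter.atTop
        (nhds ‖LSeries (fun n => χ (n : ZMod q)) (1 + a + τ * Complex.I)‖) := by
      have h1 := (hsum.comp (Filter.tendsto_add_atTop_nat 1)).norm
      refine h1.congr fun X => ?_
      congr 1
      simp only [Function.comp]
      rw [Finset.range_eq_Ico, Finset.sum_eq_sum_Ico_succ_bot (by omega), LSeries.term_zero,
        zero_add]
      refine sum_congr ?_ fun n hn => ?_
      · ext n
        simp only [mem_Ico, mem_Icc]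
        omega
      · have hn0 : n ≠ 0 := by
          have := (mem_Icc.1 hn).1
          omega
        rw [LSeries.term_of_ne_zero hn0, Complex.cpow_neg, div_eq_mul_inv]
    refine le_of_tendsto hlim (Filter.eventually_atTop.2 ⟨⌈τ ^ 2⌉₊, fun X hX => ?_⟩)
    refine (hmain (fun n => χ (n : ZMod q)) (fun n => DirichletCharacter.norm_le_one χ _)
      hper hB a τ ha ha1 hτ2.le X hX).trans ?_
    have := abs_nonneg C1
    nlinarith

/-- **Row LQ** -/
theorem lq_row (hZ : VMV.ZsumS) : LQ := fun _ _ χ => lq hZ χ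

end

end Pool.Agent.MR2
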