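import Pool.Agent.Lib.MR2.LQ
import Pool.Agent.Lib.VMV.All

/-! # MR2: `LQ` without hypotheses.  helper65 -/

set_option autoImplicit false

namespace Pool.Agent.MR2

theorem lq_all : LQ := lq_row VMV.zsumS_all

end Pool.Agent.MR2
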