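import Pool.Agent.Lib.MR2.Defs
import Pool.Agent.Lib.MRF.MO

/-! # TANK MR2, row MO: moments of `Q_v^l R` with arbitrary cofactors (`momentR : MomentR`).
helper9. -/

set_option autoImplicit false

namespace Pool.Agent.MR2

open Finset Pool.Agent.MRL Pool.Agent.MRF Pool.Agent.MRF.MO

/-- **Row MO.** -/
theorem momentR : MomentR := by
  refine ⟨72, by norm_num, fun f hf r hr l H v Y hl hH hv hY => ?_⟩
  obtain ⟨N, c, h1, h2, h3, h4, h5⟩ := moment_auxF hf hH hv hl (Ioc ⌊Y⌋₊ ⌊2 * Y⌋₊)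
    (fun m => ((1 / (m : ℝ) : ℝ) : ℂ) * r m) (y0 := Y) (y1 := 2 * Y) (by linarith)
    (fun m hm => by
      have h := mem_Ioc.1 hm
      have h1 := (Nat.floor_lt (by linarith)).1 h.1
      exact ⟨by omega, h1.le, (Nat.le_floor_iff (by linarith)).1 h.2⟩)
    (fun m _ => norm_coef hr m)
    (by linarith)
  refine ⟨N, c, h1, by linarith, fun t => ?_, h4, ?_⟩
  · rw [← h3 t]
    rfl
  · refine h5.trans ?_
    have e : 2 * Y / Y = 2 := by field_simp
    have e2 : (72 * (l : ℝ)) ^ l = 2 ^ l * (36 * l) ^ l := by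
      rw [← mul_pow]
      congr 1
      ring
    rw [e, e2]
    apply mul_le_mul_of_nonneg_right _ (by positivity)
    have h6 := pow_le_pow_right₀ (show (1 : ℝ) ≤ 2 by norm_num) hl
    simpa using h6

end Pool.Agent.MR2
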