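import Pool.Agent.Lib.MR2.PQc
import Pool.Agent.Lib.MRF.LCg

/-! TANK MR2, row MRQ: the mean square over typical integers, assembly.  helper89. -/

set_option autoImplicit false

namespace Pool.Agent.MR2

open Finset MeasureTheory Pool.Agent.MRL Pool.Agent.MRF Pool.Agent.MRHal
open Pool.Agent.MRL.DC (PP)

theorem mrq (hMV : MeanValue) (hD : DecR) (h1 : StepOneR) (hJ : StepJR) (hTl : TailR) (hA : AUR)
    (hS : SupR) (hF : FreeCount) : MRQ := by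
  classical
  intro θ a K θ0 θ1 a0 a1 K1
  obtain ⟨CD, hCD, hD⟩ := hD
  obtain ⟨C1, hC1, h1⟩ := h1
  obtain ⟨CJ, hCJ, hJ⟩ := hJ
  obtain ⟨CT, hCT, hTl⟩ := hTl
  obtain ⟨ϑ, ϑ0, ϑ1, hA⟩ := hA
  obtain ⟨CF, hCF, hF⟩ := hF
  obtain ⟨κ, κe⟩ : ∃ κ : ℝ, κ = a / 16 * Real.exp (-K - 23) := ⟨_, rfl⟩
  have κ0 : 0 < κ := by rw [κe]; positivity
  obtain ⟨η, ηe⟩ : ∃ η : ℝ, η = min (min (ϑ / 512 * κ) (θ / 16)) (1 / 8) := ⟨_, rfl⟩
  have η0 : 0 < η := by rw [ηe]; exact lt_min (lt_min (by positivity) (by positivity)) (by norm_num)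
  have ηκ : η ≤ ϑ / 512 * κ := by rw [ηe]; exact (min_le_left _ _).trans (min_le_left _ _)
  have ηθ : η ≤ θ / 16 := by rw [ηe]; exact (min_le_left _ _).trans (min_le_right _ _)
  have η8 : η ≤ 1 / 8 := by rw [ηe]; exact min_le_right _ _
  obtain ⟨CA, hCA, XA, hA⟩ := hA η η0 η8
  obtain ⟨XL, hLC⟩ := LCF.largeCount_a hMV ϑ ϑ0 ϑ1
  refine ⟨κ, κ0, η / 4, by positivity, fun C0 hC0 => ?_⟩
  obtain ⟨CS, hCS, XS, hS⟩ := hS θ C0 θ0 hC0
  obtain ⟨Ct, hCt⟩ : ∃ Ct : ℝ, Ct = 16 * CD + 2 * (C1 + CJ + CJ +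
      CA * (1 + 4 * CS ^ 2 * Real.exp 22)) + CT := ⟨_, rfl⟩
  have hCt0 : 0 < Ct := by rw [hCt]; positivity
  obtain ⟨M, hM⟩ : ∃ M : ℝ, M = 1000 + 4000 / ϑ + 16 / κ + 1 / η + 2 * CJ + Ct +
      192 * CF * Real.exp 23 := ⟨_, rfl⟩
  have m1 : 0 < 4000 / ϑ := by positivity
  have m2 : 0 < 16 / κ := by positivity
  have m3 : 0 < 1 / η := by positivity
  have m4 : 0 < 192 * CF * Real.exp 23 := by positivity
  obtain ⟨L0, hL0⟩ := Filter.eventually_atTop.1 (MQ.par_ev (M := M) θ0 θ1 ϑ0 ϑ1 a0 a1 K1 κe η0 ηκ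
    ηθ (by linarith) (by linarith) (by linarith) (by linarith))
  refine ⟨max (Real.exp L0) (8 * max (max XA XL) (max XS 1)), fun X hX => ?_⟩
  have hX1 : Real.exp L0 ≤ X := (le_max_left _ _).trans hX
  have hX2 : 8 * max (max XA XL) (max XS 1) ≤ X := (le_max_right _ _).trans hX
  have hX0 : 0 < X := lt_of_lt_of_le (Real.exp_pos _) hX1
  have hp := hL0 (Real.log X) ((Real.le_log_iff_exp_le hX0).2 hX1)
  have hXL : Real.exp (Real.log X) = X := Real.exp_log hX0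
  obtain ⟨s, hs⟩ : ∃ s : TS, s = MQ.sc κ a (3072 / ϑ) η (Real.log X) := ⟨_, rfl⟩
  rw [← hs] at hp
  have hHH := hp.H1
  have hHa1 := hp.ord1
  have hHa2 : s.H ≤ s.a2 := hp.ord1.trans (hp.ord12.trans hp.ord23)
  have hHa3 : s.H ≤ s.a3 := hHa2.trans (hp.ord34.trans hp.ord45)
  have hP1 : ∀ q ∈ s.P1, q.Prime := fun q hq => (hp.P1_mem hq).1
  have hP2 : ∀ q ∈ s.P2, q.Prime := fun q hq => (hp.P2_mem hq).1
  have hP3 : ∀ q ∈ s.P3, q.Prime := fun q hq => (hp.P3_mem hq).1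
  refine ⟨s, fun p hp1 => (hp.P1_mem hp1).2, hp.n19, ?_, ?_⟩
  · -- the count
    have hx : (2 : ℝ) ≤ 16 * X := by
      have h2 : (1 : ℝ) ≤ max (max XA XL) (max XS 1) := (le_max_right _ _).trans (le_max_right _ _)
      linarith
    have hb3 : ∀ m : ℕ, m ≤ s.b3 → Real.exp ((m : ℝ) / s.H) ≤ 16 * X := by
      intro m hm
      refine (Real.exp_le_exp.2 (hp.div_mono hm)).trans ?_
      have h2 := hp.b3_L
      have h3 := hp.Lpos
      calc Real.exp ((s.b3 : ℝ) / s.H) ≤ Real.exp (Real.log X) := Real.exp_le_exp.2 (by linarith)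
        _ = X := hXL
        _ ≤ 16 * X := by linarith
    have c2 := hF (16 * X) hx s.P2 (fun p hp1 => ⟨hP2 p hp1, (MQ.mem_PP hp1).2.2.trans
      (hb3 _ (hp.ord45.trans hp.ord56))⟩)
    have c3 := hF (16 * X) hx s.P3 (fun p hp1 => ⟨hP3 p hp1, (MQ.mem_PP hp1).2.2.trans
      (hb3 _ le_rfl)⟩)
    have hsub : ((Icc 1 ⌊16 * X⌋₊).filter fun n => hit s.P2 n * hit s.P3 n ≠ 1) ⊆
        ((Icc 1 ⌊16 * X⌋₊).filter fun n => ∀ p ∈ s.P2, ¬ p ∣ n) ∪
        ((Icc 1 ⌊16 * X⌋₊).filter fun n => ∀ p ∈ s.P3, ¬ p ∣ n) := by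
      intro n hn
      rw [mem_filter] at hn
      rw [mem_union, mem_filter, mem_filter]
      by_contra hcon
      rw [not_or] at hcon
      apply hn.2
      have e2 : ∃ p ∈ s.P2, p ∣ n := by
        by_contra hc
        push Not at hc
        exact hcon.1 ⟨hn.1, hc⟩
      have e3 : ∃ p ∈ s.P3, p ∣ n := by
        by_contra hc
        push Not at hc
        exact hcon.2 ⟨hn.1, hc⟩
      unfold hit
      rw [if_pos e2, if_pos e3, one_mul]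
    have hcard : ((((Icc 1 ⌊16 * X⌋₊).filter fun n => hit s.P2 n * hit s.P3 n ≠ 1).card : ℕ) : ℝ)
        ≤ (((Icc 1 ⌊16 * X⌋₊).filter fun n => ∀ p ∈ s.P2, ¬ p ∣ n).card : ℝ) +
        (((Icc 1 ⌊16 * X⌋₊).filter fun n => ∀ p ∈ s.P3, ¬ p ∣ n).card : ℝ) := by
      exact_mod_cast (card_le_card hsub).trans (card_union_le _ _)
    refine hcard.trans ?_
    have e2 := hp.expP2
    have e3 := hp.expP3
    have f2 : CF * (16 * X) * Real.exp (-∑ p ∈ s.P2, 1 / (p : ℝ)) ≤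
        CF * (16 * X) * (6 * Real.exp 23 / (Real.log X ^ (η / 8)) ^ 4) :=
      mul_le_mul_of_nonneg_left e2 (by positivity)
    have f3 : CF * (16 * X) * Real.exp (-∑ p ∈ s.P3, 1 / (p : ℝ)) ≤
        CF * (16 * X) * (6 * Real.exp 23 / (Real.log X ^ (η / 8)) ^ 4) :=
      mul_le_mul_of_nonneg_left e3 (by positivity)
    have f4 := hp.final4 (C := 192 * CF * Real.exp 23) (by linarith)
    have f5 : X * (192 * CF * Real.exp 23 / (Real.log X ^ (η / 8)) ^ 4) ≤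
        X * Real.log X ^ (-(η / 4)) := mul_le_mul_of_nonneg_left f4 hX0.le
    have f6 : CF * (16 * X) * (6 * Real.exp 23 / (Real.log X ^ (η / 8)) ^ 4) +
        CF * (16 * X) * (6 * Real.exp 23 / (Real.log X ^ (η / 8)) ^ 4) =
        X * (192 * CF * Real.exp 23 / (Real.log X ^ (η / 8)) ^ 4) := by ring
    linarith
  · -- the mean square
    intro f hf hHal P0 hP0 Y hY1 hY2 T hT1 hTY
    have hP0' : ∀ q ∈ P0, q.Prime := fun q hq => (hP0 q hq).1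
    have hYX : Real.exp (Real.log X) / 8 ≤ Y := by rw [hXL]; exact hY1
    have hYX2 : Y ≤ 8 * Real.exp (Real.log X) := by rw [hXL]; exact hY2
    have hY0 : 0 < Y := hp.Y0 hYX
    have hmax : max (max XA XL) (max XS 1) ≤ Y := by linarith
    have hYA : XA ≤ Y := ((le_max_left _ _).trans (le_max_left _ _)).trans hmax
    have hYL : XL ≤ Y := ((le_max_right _ _).trans (le_max_left _ _)).trans hmax
    have hYS : XS ≤ Y := ((le_max_left _ _).trans (le_max_right _ _)).trans hmax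
    have hYone : 1 ≤ Y := ((le_max_right _ _).trans (le_max_right _ _)).trans hmax
    have hT0 : 0 < T := by linarith
    have hTY' : T ≤ Y := hp.TY hYX hTY
    have hf1 := hf.le
    -- membership facts
    have n01 : ∀ p ∈ s.P1, p ∉ P0 := fun p hp1 hq => by
      have e1 := (hp.P1_mem hp1).2.1
      have e2 := (hP0 p hq).2
      linarith
    have n02 : ∀ p ∈ s.P2, p ∉ P0 := fun p hp1 hq => by
      have e1 := (hp.P2_mem hp1).2
      have e2 := (hP0 p hq).2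
      linarith
    have n03 : ∀ p ∈ s.P3, p ∉ P0 := fun p hp1 hq => by
      have e1 := (hp.P3_mem hp1).2
      have e2 := (hP0 p hq).2
      linarith
    have n12 : ∀ p ∈ s.P2, p ∉ s.P1 := fun p hp2 hp1 => hp.P1P2 hp1 hp2
    have n13 : ∀ p ∈ s.P3, p ∉ s.P1 := fun p hp3 hp1 => hp.P1P3 hp1 hp3
    have n23 : ∀ p ∈ s.P3, p ∉ s.P2 := fun p hp3 hp2 => hp.P2P3 hp2 hp3
    -- the conditions of the other scales
    set w1 : ℕ → ℂ := fun n => free P0 n * (hit s.P2 n * hit s.P3 n) with hw1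
    set w2 : ℕ → ℂ := fun n => free P0 n * (hit s.P1 n * hit s.P3 n) with hw2
    set w3 : ℕ → ℂ := fun n => free P0 n * (hit s.P1 n * hit s.P2 n) with hw3
    have bw1 : ∀ n, ‖w1 n‖ ≤ 1 := fun n => MQ.norm_mul_le_one (MQ.norm_free _ _)
      (MQ.norm_mul_le_one (MQ.norm_hit _ _) (MQ.norm_hit _ _))
    have bw2 : ∀ n, ‖w2 n‖ ≤ 1 := fun n => MQ.norm_mul_le_one (MQ.norm_free _ _)
      (MQ.norm_mul_le_one (MQ.norm_hit _ _) (MQ.norm_hit _ _))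
    have bw3 : ∀ n, ‖w3 n‖ ≤ 1 := fun n => MQ.norm_mul_le_one (MQ.norm_free _ _)
      (MQ.norm_mul_le_one (MQ.norm_hit _ _) (MQ.norm_hit _ _))
    set r1 : ℕ → ℕ → ℂ := fun v m => f m * (w1 m * free (PP s.H s.a1 (v + 1)) m) with hr1
    set r2 : ℕ → ℕ → ℂ := fun v m => f m * (w2 m * free (PP s.H s.a2 (v + 1)) m) with hr2
    set r3 : ℕ → ℕ → ℂ := fun v m => f m * (w3 m * free (PP s.H s.a3 (v + 1)) m) with hr3
    have br1 : ∀ v n, ‖r1 v n‖ ≤ 1 := fun v n => MQ.norm_mul_le_one (hf1 n)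
      (MQ.norm_mul_le_one (bw1 n) (MQ.norm_free _ _))
    have br2 : ∀ v n, ‖r2 v n‖ ≤ 1 := fun v n => MQ.norm_mul_le_one (hf1 n)
      (MQ.norm_mul_le_one (bw2 n) (MQ.norm_free _ _))
    have br3 : ∀ v n, ‖r3 v n‖ ≤ 1 := fun v n => MQ.norm_mul_le_one (hf1 n)
      (MQ.norm_mul_le_one (bw3 n) (MQ.norm_free _ _))
    set F : ℕ → ℂ := fun n => (f n * free P0 n) * s.b n with hFdef
    have bF : ∀ n, ‖F n‖ ≤ 1 := fun n => MQ.norm_mul_le_one
      (MQ.norm_mul_le_one (hf1 n) (MQ.norm_free _ _))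
      (MQ.norm_mul_le_one (MQ.norm_mul_le_one (MQ.norm_hit _ _) (MQ.norm_hit _ _))
        (MQ.norm_hit _ _))
    have eF1 : (fun n => f n * (w1 n * hit (PP s.H s.a1 s.b1) n)) = F := by
      funext n
      simp only [hw1, hFdef, TS.b, TS.P1]
      ring
    have eF2 : (fun n => f n * (w2 n * hit (PP s.H s.a2 s.b2) n)) = F := by
      funext n
      simp only [hw2, hFdef, TS.b, TS.P2]
      ring
    have eF3 : (fun n => f n * (w3 n * hit (PP s.H s.a3 s.b3) n)) = F := by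
      funext n
      simp only [hw3, hFdef, TS.b, TS.P3]
      ring
    -- the decompositions
    have d1 := hD f hf w1 bw1 Y T s.H s.a1 s.b1 hHH (hp.H_le hYX) hHa1 hp.ord12 hp.Hsq1
      (hp.expb1 hYX) hT0 hTY' (fun p hp1 m _ => by
        simp only [hw1]
        rw [MQ.free_mul hP0' (hP1 p hp1) (n01 p hp1), MQ.hit_mul hP2 (hP1 p hp1) (hp.P1P2 hp1),
          MQ.hit_mul hP3 (hP1 p hp1) (hp.P1P3 hp1)])
    have d2 := hD f hf w2 bw2 Y T s.H s.a2 s.b2 hHH (hp.H_le hYX) hHa2 hp.ord34 hp.Hsq2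
      (hp.expb2 hYX) hT0 hTY' (fun p hp1 m _ => by
        simp only [hw2]
        rw [MQ.free_mul hP0' (hP2 p hp1) (n02 p hp1), MQ.hit_mul hP1 (hP2 p hp1) (n12 p hp1),
          MQ.hit_mul hP3 (hP2 p hp1) (hp.P2P3 hp1)])
    have d3 := hD f hf w3 bw3 Y T s.H s.a3 s.b3 hHH (hp.H_le hYX) hHa3 hp.ord56 hp.Hsq3
      (hp.expb3 hYX) hT0 hTY' (fun p hp1 m _ => by
        simp only [hw3]
        rw [MQ.free_mul hP0' (hP3 p hp1) (n03 p hp1), MQ.hit_mul hP1 (hP3 p hp1) (n13 p hp1),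
          MQ.hit_mul hP2 (hP3 p hp1) (n23 p hp1)])
    rw [eF1] at d1
    rw [eF2] at d2
    rw [eF3] at d3
    have hϑ' : ϑ / 32 - ϑ / 64 = ϑ / 64 := by ring
    have hϑ'' : 3 * ϑ / 64 - ϑ / 32 = ϑ / 64 := by ring
    -- step one
    have s1 := h1 f hf1 r1 br1 Y T s.H s.a1 s.b1 (ϑ / 64) hHH hp.ord12 hT0 (by positivity)
      (hp.Texp hYX hT0 hTY) (hp.expb1 hYX)
    have s1' : ∫ t in {t : ℝ | GoodF f s.H s.a1 s.b1 (ϑ / 64) t},
        ‖SR f r1 Y s.H s.a1 s.b1 t‖ ^ 2 * g T t ≤ C1 * (1 / (Real.log X ^ (η / 8)) ^ 8) := by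
      refine s1.trans ?_
      rw [mul_assoc]
      exact mul_le_mul_of_nonneg_left hp.step1 hC1.le
    -- step two
    have s2 := hJ f hf1 r2 br2 Y T s.H s.a1 s.b1 s.H s.a2 s.b2 (ϑ / 64) (ϑ / 32) hHH hHa1 hp.ord12
      le_rfl hHa2 hp.ord34 (by positivity) (by linarith) (by linarith)
      (by rw [hϑ']; exact hp.n6) (by rw [hϑ']; exact hp.n7)
      (by rw [hϑ']; exact hp.n8 hCJ (by linarith)) hT0 hTY' (hp.expb2 hYX)
    rw [hϑ'] at s2
    have s2' : ∫ t in {t : ℝ | GoodF f s.H s.a2 s.b2 (ϑ / 32) t} ∩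
        {t : ℝ | GoodF f s.H s.a1 s.b1 (ϑ / 64) t}ᶜ,
        ‖SR f r2 Y s.H s.a2 s.b2 t‖ ^ 2 * g T t ≤ CJ * (1 / (Real.log X ^ (η / 8)) ^ 8) :=
      le_trans s2 (mul_le_mul_of_nonneg_left hp.expneg2 (by linarith))
    -- step three
    have s3 := hJ f hf1 r3 br3 Y T s.H s.a2 s.b2 s.H s.a3 s.b3 (ϑ / 32) (3 * ϑ / 64) hHH hHa2
      hp.ord34 le_rfl hHa3 hp.ord56 (by positivity) (by linarith) (by linarith)
      (by rw [hϑ'']; exact hp.n9) (by rw [hϑ'']; exact hp.n10)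
      (by rw [hϑ'']; exact hp.n11 hCJ (by linarith)) hT0 hTY' (hp.expb3 hYX)
    rw [hϑ''] at s3
    have s3' : ∫ t in {t : ℝ | GoodF f s.H s.a3 s.b3 (3 * ϑ / 64) t} ∩
        {t : ℝ | GoodF f s.H s.a2 s.b2 (ϑ / 32) t}ᶜ,
        ‖SR f r3 Y s.H s.a3 s.b3 t‖ ^ 2 * g T t ≤ CJ * (1 / (Real.log X ^ (η / 8)) ^ 8) :=
      le_trans s3 (mul_le_mul_of_nonneg_left hp.expneg3 (by linarith))
    -- the sparse set
    have hmG : ∀ (v1 v2 : ℕ) (α : ℝ), MeasurableSet {t : ℝ | GoodF f s.H v1 v2 α t} :=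
      fun v1 v2 α => (isClosed_goodF f s.H v1 v2 α).measurableSet
    set E : Set ℝ := {t : ℝ | GoodF f s.H s.a3 s.b3 (3 * ϑ / 64) t}ᶜ ∩ {t : ℝ | |t| ≤ Y} with hE
    have hEm : MeasurableSet E :=
      (hmG _ _ _).compl.inter (measurableSet_le measurable_id.abs measurable_const)
    set R : Finset ℤ := (Icc (-(⌈Y⌉ + 1)) (⌈Y⌉ + 1)).filter
      (fun r : ℤ => ∃ t ∈ Set.Icc (r : ℝ) (r + 1),
        ¬ GoodF f s.H s.a3 s.b3 (3 * ϑ / 64) t) with hR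
    have hYbig : 2 ≤ Y := by
      have e1 := hp.H_le hYX
      have e2 := hp.Hl
      have e3 := hp.u8
      have e4 := hp.u1000
      have e5 : Real.log X ^ (η / 8) ≤ (Real.log X ^ (η / 8)) ^ 8 :=
        le_self_pow₀ (by linarith) (by norm_num)
      linarith
    have hR2 : ∀ r ∈ R, |(r : ℝ)| ≤ 2 * Y := by
      intro r hr
      have hr := (mem_filter.1 hr).1
      rw [mem_Icc] at hr
      have h2 : (⌈Y⌉ : ℝ) < Y + 1 := Int.ceil_lt_add_one Y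
      have h3 : (r : ℝ) ≤ ⌈Y⌉ + 1 := by exact_mod_cast hr.2
      have h4 : -((⌈Y⌉ : ℝ) + 1) ≤ r := by exact_mod_cast hr.1
      rw [abs_le]
      constructor <;> linarith
    have hRc : (R.card : ℝ) ≤ Y ^ ϑ := by
      refine hLC Y hYL f (fun p _ => hf1 p) s.H s.a3 s.b3 (3 * ϑ / 64) hHH hHa3 hp.ord56
        (by positivity) (by linarith) (hp.n13a hYX) (hp.n13b hYX hYX2) hp.n13c R hR2 ?_
      intro r hr
      obtain ⟨t, ht, hgood⟩ := (mem_filter.1 hr).2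
      unfold GoodF at hgood
      push Not at hgood
      obtain ⟨v, hv, hlt⟩ := hgood
      exact ⟨t, ht, v, hv, hlt⟩
    have hER : ∀ t ∈ E, ∃ r ∈ R, t ∈ Set.Icc (r : ℝ) (r + 1) := by
      intro t ht
      obtain ⟨htG, htX⟩ := ht
      have htX' : -Y ≤ t ∧ t ≤ Y := abs_le.1 htX
      have h2 : (Y : ℝ) ≤ ⌈Y⌉ := Int.le_ceil Y
      have hfl : (⌊t⌋ : ℝ) ≤ t := Int.floor_le t
      have hfl' : t < (⌊t⌋ : ℝ) + 1 := Int.lt_floor_add_one t
      have hmem : t ∈ Set.Icc ((⌊t⌋ : ℤ) : ℝ) ((⌊t⌋ : ℤ) + 1) := ⟨hfl, hfl'.le⟩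
      refine ⟨⌊t⌋, mem_filter.2 ⟨mem_Icc.2 ⟨?_, ?_⟩, t, hmem, htG⟩, hmem⟩
      · have h5 : ((-(⌈Y⌉ + 1) : ℤ) : ℝ) < ⌊t⌋ + 1 := by push_cast; linarith [htX'.1]
        have h6 : -(⌈Y⌉ + 1) < ⌊t⌋ + 1 := by exact_mod_cast h5
        omega
      · have h5 : (⌊t⌋ : ℝ) ≤ ((⌈Y⌉ + 1 : ℤ) : ℝ) := by push_cast; linarith [htX'.2]
        exact_mod_cast h5
    have hrho : ∀ v ∈ Ico s.a3 s.b3, ∀ t : ℝ, |t| ≤ 2 * Y + 1 →
        ‖AF (r3 v) (Y * Real.exp (-((v : ℝ) / s.H))) t‖ ≤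
        2 * CS * Real.exp 11 * (Real.log X ^ (-θ) * (Real.log X ^ (η / 8)) ^ 3) := by
      intro v hv t ht
      rw [mem_Ico] at hv
      obtain ⟨y1, y2⟩ := hp.n15 hYX hv.2
      have e1 := hS Y hYS f hHal P0 s.P1 s.P2 (PP s.H s.a3 (v + 1)) (by
        intro p hp1
        rw [mem_union, mem_union, mem_union] at hp1
        rcases hp1 with ((hp1 | hp1) | hp1) | hp1
        · exact hP0' p hp1
        · exact hP1 p hp1
        · exact hP2 p hp1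
        · exact (MQ.mem_PP hp1).1) _ y1 y2 t ht
      have e2 : (fun m => (f m * free P0 m) * ((hit s.P1 m * hit s.P2 m) *
          free (PP s.H s.a3 (v + 1)) m)) = r3 v := by
        funext m
        simp only [hr3, hw3]
        ring
      rw [e2] at e1
      exact e1.trans (hp.rho hP0 hv.1 hv.2 hYX hCS)
    have s4 := hA Y T hYA hT0 f hf1 r3 br3 s.H s.a3 s.b3 hHH hHa3 hp.ord56 (hp.n14 hYX hYX2)
      (hp.expb3 hYX) E R hEm (fun t ht => ht.2) hR2 hRc hER _ (by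
        have e1 : 0 < Real.log X ^ (-θ) := Real.rpow_pos_of_pos hp.Lpos _
        have e2 := hp.upos
        positivity) hrho
    have s4' : ∫ t in E, ‖SR f r3 Y s.H s.a3 s.b3 t‖ ^ 2 * g T t ≤
        CA * ((1 + 4 * CS ^ 2 * Real.exp 22) / (Real.log X ^ (η / 8)) ^ 8) :=
      s4.trans (mul_le_mul_of_nonneg_left (hp.au hYX hCS) hCA.le)
    -- the tail
    have s5 := hTl F bF Y T (Real.log X ^ a) hYone hT0 (Real.one_le_rpow hp.L1 a0.le) hTY
    have s5' : ∫ t in {t : ℝ | Y < |t|}, ‖AF F Y t‖ ^ 2 * g T t ≤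
        CT * (1 / (Real.log X ^ (η / 8)) ^ 8) := by
      refine s5.trans ?_
      have := mul_le_mul_of_nonneg_left hp.tail hCT.le
      rw [mul_one_div] at this
      exact this
    -- total
    have tot := MQ.core (cb_AF F Y) (MQ.cb_SR f r1 Y s.H s.a1 s.b1) (MQ.cb_SR f r2 Y s.H s.a2 s.b2)
      (MQ.cb_SR f r3 Y s.H s.a3 s.b3) hT0 (hmG s.a1 s.b1 (ϑ / 64)) (hmG s.a2 s.b2 (ϑ / 32))
      (hmG s.a3 s.b3 (3 * ϑ / 64)) d1 d2 d3 s1' s2' s3' s4' s5'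
    refine tot.trans (le_trans ?_ (hp.final8 (C := Ct) (by linarith)))
    have e1 : 8 * (CD / s.H) ≤ 16 * CD * (1 / (Real.log X ^ (η / 8)) ^ 8) := by
      have e2 := mul_le_mul_of_nonneg_left hp.Hinv (by positivity : 0 ≤ 8 * CD)
      have e3 : 8 * (CD / s.H) = 8 * CD * (1 / s.H) := by ring
      rw [e3]
      linarith
    have e4 : Ct / (Real.log X ^ (η / 8)) ^ 8 =
        16 * CD * (1 / (Real.log X ^ (η / 8)) ^ 8) + 2 * (C1 * (1 / (Real.log X ^ (η / 8)) ^ 8) +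
        CJ * (1 / (Real.log X ^ (η / 8)) ^ 8) + CJ * (1 / (Real.log X ^ (η / 8)) ^ 8) +
        CA * ((1 + 4 * CS ^ 2 * Real.exp 22) / (Real.log X ^ (η / 8)) ^ 8)) +
        CT * (1 / (Real.log X ^ (η / 8)) ^ 8) := by
      rw [hCt]
      ring
    rw [e4]
    linarith

end Pool.Agent.MR2
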