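import Pool.Agent.Lib.MR2.Defs
import Pool.Agent.Lib.MRF.AC

/-! TANK MR2, row MRQ (1): elementary facts on `hit`, `free`, and the splitting of the integral.
helper89. -/

set_option autoImplicit false

namespace Pool.Agent.MR2

open Finset MeasureTheory Pool.Agent.MRL Pool.Agent.MRF Pool.Agent.MRHal
open Pool.Agent.MRL.DC (PP)

namespace MQ

/-! ### `hit` and `free` -/

theorem norm_hit (P : Finset ℕ) (n : ℕ) : ‖hit P n‖ ≤ 1 := by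
  unfold hit; split_ifs <;> simp

theorem norm_free (P : Finset ℕ) (n : ℕ) : ‖free P n‖ ≤ 1 := by
  unfold free; split_ifs <;> simp

theorem hit_mul {P : Finset ℕ} (hP : ∀ q ∈ P, q.Prime) {p : ℕ} (hp : p.Prime) (hpP : p ∉ P)
    (m : ℕ) : hit P (p * m) = hit P m := by
  unfold hit
  congr 1
  apply propext
  constructor
  · rintro ⟨q, hq, hd⟩
    rcases (hP q hq).dvd_mul.1 hd with h | h
    · exact absurd (((hP q hq).eq_one_or_self_of_dvd q dvd_rfl).elim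
        (fun h1 => absurd h1 (hP q hq).one_lt.ne')
        (fun _ => (Nat.prime_dvd_prime_iff_eq (hP q hq) hp).1 h)) (fun h2 => hpP (h2 ▸ hq))
    · exact ⟨q, hq, h⟩
  · rintro ⟨q, hq, hd⟩
    exact ⟨q, hq, hd.mul_left p⟩

theorem free_mul {P : Finset ℕ} (hP : ∀ q ∈ P, q.Prime) {p : ℕ} (hp : p.Prime) (hpP : p ∉ P)
    (m : ℕ) : free P (p * m) = free P m := by
  unfold free
  congr 1
  apply propext
  constructor
  · intro h q hq hd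
    exact h q hq (hd.mul_left p)
  · intro h q hq hd
    rcases (hP q hq).dvd_mul.1 hd with h1 | h1
    · exact hpP ((Nat.prime_dvd_prime_iff_eq (hP q hq) hp).1 h1 ▸ hq)
    · exact h q hq h1

theorem norm_mul_le_one {a b : ℂ} (ha : ‖a‖ ≤ 1) (hb : ‖b‖ ≤ 1) : ‖a * b‖ ≤ 1 := by
  rw [norm_mul]
  exact mul_le_one₀ ha (norm_nonneg _) hb

/-! ### continuity -/

theorem cb_SR (f : ℕ → ℂ) (r : ℕ → ℕ → ℂ) (X : ℝ) (H v1 v2 : ℕ) : CB (SR f r X H v1 v2) := by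
  unfold SR
  exact CB.sum _ fun v _ => (cb_QF f H v).mul (cb_AF (r v) _)

/-! ### one piece -/

theorem piece {F S : ℝ → ℂ} (hF : CB F) (hS : CB S) {T B B' : ℝ} (hT : 0 < T) {E : Set ℝ}
    (hE : MeasurableSet E)
    (h1 : ∫ t : ℝ, ‖F t - S t‖ ^ 2 * g T t ≤ B)
    (h2 : ∫ t in E, ‖S t‖ ^ 2 * g T t ≤ B') :
    ∫ t in E, ‖F t‖ ^ 2 * g T t ≤ 2 * B + 2 * B' := by
  have hD := (cb_sub hF hS).integrable hT
  have hS' := hS.integrable hT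
  have hle : ∫ t in E, ‖F t‖ ^ 2 * g T t ≤
      ∫ t in E, (2 * (‖F t - S t‖ ^ 2 * g T t) + 2 * (‖S t‖ ^ 2 * g T t)) := by
    refine setIntegral_mono_on (hF.integrable hT).integrableOn
      ((hD.const_mul 2).add (hS'.const_mul 2)).integrableOn hE fun t _ => ?_
    have e2 : ‖F t‖ ≤ ‖F t - S t‖ + ‖S t‖ := by
      have := norm_add_le (F t - S t) (S t)
      rwa [sub_add_cancel] at this
    have e4 : ‖F t‖ ^ 2 ≤ 2 * ‖F t - S t‖ ^ 2 + 2 * ‖S t‖ ^ 2 := by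
      nlinarith [norm_nonneg (F t), norm_nonneg (S t), norm_nonneg (F t - S t),
        sq_nonneg (‖F t - S t‖ - ‖S t‖)]
    have h5 := mul_le_mul_of_nonneg_right e4 (MRL.g_nonneg T t)
    linarith
  refine hle.trans ?_
  rw [integral_add (hD.const_mul 2).integrableOn (hS'.const_mul 2).integrableOn,
    integral_const_mul, integral_const_mul]
  have h6 : ∫ t in E, ‖F t - S t‖ ^ 2 * g T t ≤ ∫ t : ℝ, ‖F t - S t‖ ^ 2 * g T t :=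
    setIntegral_le_integral hD (Filter.Eventually.of_forall fun t =>
      mul_nonneg (sq_nonneg _) (MRL.g_nonneg T t))
  linarith

/-! ### five pieces -/

theorem core {F S1 S2 S3 : ℝ → ℂ} (hF : CB F) (hS1 : CB S1) (hS2 : CB S2) (hS3 : CB S3)
    {T Y B B1 B2 B3 B4 B5 : ℝ} (hT : 0 < T) {G1 G2 G3 : Set ℝ} (hG1 : MeasurableSet G1)
    (hG2 : MeasurableSet G2) (hG3 : MeasurableSet G3)
    (d1 : ∫ t : ℝ, ‖F t - S1 t‖ ^ 2 * g T t ≤ B)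
    (d2 : ∫ t : ℝ, ‖F t - S2 t‖ ^ 2 * g T t ≤ B)
    (d3 : ∫ t : ℝ, ‖F t - S3 t‖ ^ 2 * g T t ≤ B)
    (h1 : ∫ t in G1, ‖S1 t‖ ^ 2 * g T t ≤ B1)
    (h2 : ∫ t in G2 ∩ G1ᶜ, ‖S2 t‖ ^ 2 * g T t ≤ B2)
    (h3 : ∫ t in G3 ∩ G2ᶜ, ‖S3 t‖ ^ 2 * g T t ≤ B3)
    (h4 : ∫ t in G3ᶜ ∩ {t : ℝ | |t| ≤ Y}, ‖S3 t‖ ^ 2 * g T t ≤ B4)
    (h5 : ∫ t in {t : ℝ | Y < |t|}, ‖F t‖ ^ 2 * g T t ≤ B5) :
    ∫ t : ℝ, ‖F t‖ ^ 2 * g T t ≤ 8 * B + 2 * (B1 + B2 + B3 + B4) + B5 := by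
  have hi := hF.integrable hT
  have hnn : ∀ t, 0 ≤ ‖F t‖ ^ 2 * g T t := fun t => mul_nonneg (sq_nonneg _) (MRL.g_nonneg T t)
  have hY : MeasurableSet {t : ℝ | |t| ≤ Y} := measurableSet_le measurable_id.abs measurable_const
  have hY' : MeasurableSet {t : ℝ | Y < |t|} := measurableSet_lt measurable_const measurable_id.abs
  have p1 := piece hF hS1 hT hG1 d1 h1
  have p2 := piece hF hS2 hT (hG2.inter hG1.compl) d2 h2
  have p3 := piece hF hS3 hT (hG3.inter hG2.compl) d3 h3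
  have p4 := piece hF hS3 hT (hG3.compl.inter hY) d3 h4
  have hcov : (Set.univ : Set ℝ) ⊆ (((G1 ∪ (G2 ∩ G1ᶜ)) ∪ (G3 ∩ G2ᶜ)) ∪
      (G3ᶜ ∩ {t : ℝ | |t| ≤ Y})) ∪ {t : ℝ | Y < |t|} := by
    intro t _
    by_cases c1 : t ∈ G1
    · exact Or.inl (Or.inl (Or.inl (Or.inl c1)))
    by_cases c2 : t ∈ G2
    · exact Or.inl (Or.inl (Or.inl (Or.inr ⟨c2, c1⟩)))
    by_cases c3 : t ∈ G3
    · exact Or.inl (Or.inl (Or.inr ⟨c3, c2⟩))
    rcases le_or_gt |t| Y with c4 | c4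
    · exact Or.inl (Or.inr ⟨c3, c4⟩)
    · exact Or.inr c4
  have q1 : ∫ t : ℝ, ‖F t‖ ^ 2 * g T t ≤ ∫ t in (((G1 ∪ (G2 ∩ G1ᶜ)) ∪ (G3 ∩ G2ᶜ)) ∪
      (G3ᶜ ∩ {t : ℝ | |t| ≤ Y})) ∪ {t : ℝ | Y < |t|}, ‖F t‖ ^ 2 * g T t := by
    rw [← setIntegral_univ]
    exact setIntegral_mono_set hi.integrableOn (Filter.Eventually.of_forall hnn)
      (Filter.Eventually.of_forall hcov)
  have q2 := setIntegral_union_le (E := ((G1 ∪ (G2 ∩ G1ᶜ)) ∪ (G3 ∩ G2ᶜ)) ∪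
      (G3ᶜ ∩ {t : ℝ | |t| ≤ Y})) hY' hi hnn
  have q3 := setIntegral_union_le (E := (G1 ∪ (G2 ∩ G1ᶜ)) ∪ (G3 ∩ G2ᶜ))
    (hG3.compl.inter hY) hi hnn
  have q4 := setIntegral_union_le (E := G1 ∪ (G2 ∩ G1ᶜ)) (hG3.inter hG2.compl) hi hnn
  have q5 := setIntegral_union_le (E := G1) (hG2.inter hG1.compl) hi hnn
  linarith

end MQ

end Pool.Agent.MR2
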