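import Pool.Agent.Lib.MR2.NRgen
import Pool.Agent.Lib.MR2.StatL
import Pool.Agent.Lib.MRF.FL

/-!
# TANK MR2: `NoRuns2 ω` from `MRW`, `SieveWinA` and the sup bounds (helper67)
-/

set_option autoImplicit false

namespace Pool.Agent.MR2.NR2

open Finset MeasureTheory Filter Pool.Agent.MRL Pool.Agent.MRF
open Pool.Agent.MR2.NRg

theorem ev_pow {a b k : ℝ} (hab : a < b) (hk : 0 < k) : ∀ᶠ l : ℝ in atTop, l ^ a ≤ k * l ^ b := by
  have h1 := (tendsto_rpow_atTop (show 0 < b - a by linarith)).eventually_ge_atTop (1 / k)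
  filter_upwards [h1, eventually_gt_atTop 0] with l h2 h3
  have h4 : l ^ b = l ^ a * l ^ (b - a) := by
    rw [← Real.rpow_add h3]
    congr 1
    ring
  have h5 : 1 ≤ k * l ^ (b - a) := by
    rw [div_le_iff₀ hk] at h2
    linarith
  have h6 : 0 ≤ l ^ a := Real.rpow_nonneg h3.le _
  rw [h4]
  nlinarith [mul_le_mul_of_nonneg_left h5 h6]

theorem ev_ge {b : ℝ} (hb : 0 < b) (k : ℝ) : ∀ᶠ l : ℝ in atTop, k ≤ l ^ b :=
  (tendsto_rpow_atTop hb).eventually_ge_atTop k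

/-- the number of integers `≡ a mod q` in a window, from below -/
theorem prog_card_ge {q a y m : ℕ} (hq : 1 ≤ q) :
    (((m : ℝ) - 2 * q) / q) ≤ (((Ioc y (y + m)).filter fun n => n ≡ a [MOD q]).card : ℝ) := by
  have h1 := Pool.Agent.MRAP.NR.prog_sum_ge (F := fun _ => (1 : ℝ)) (fun _ => zero_le_one)
    (q := q) (a := a) (x := y) (m := m) hq
    (s := (Ioc y (y + m)).filter fun n => n ≡ a [MOD q]) (c := 1) zero_le_one
    (fun n h1 h2 h3 => ⟨mem_filter.2 ⟨mem_Ioc.2 ⟨h1, h2⟩, h3⟩, le_rfl⟩)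
  rw [mul_one, sum_const, nsmul_eq_mul, mul_one] at h1
  exact h1

/-- **Row NR2.** -/
theorem noRuns2 (hM : MRW) (hS : SieveWinA)
    (hSup : ∀ (q : ℕ) [NeZero q], ∃ C : ℝ, 0 < C ∧ ∃ X0 : ℝ, ∀ X : ℝ, X0 ≤ X →
      ∀ χ : DirichletCharacter ℂ q, SupW (lamChi χ) (fun _ => 1) (1 / 80) C X) :
    ∃ ω : ℝ, 0 < ω ∧ NoRuns2 ω := by
  classical
  obtain ⟨CS, hCS, hS⟩ := hS
  set K : ℝ := 200 * CS + 1 with hK
  obtain ⟨κ, hκ, a', ha', hM⟩ := hM (1 / 80) (1 / 16) K (by norm_num) (by norm_num) (by norm_num)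
    (by norm_num) (by rw [hK]; linarith)
  set ε' : ℝ := min a' (1 / 32) / 2 with hε'
  have hε0 : 0 < ε' := by
    have : 0 < min a' (1 / 32 : ℝ) := lt_min ha' (by norm_num)
    rw [hε']; linarith
  have hε1 : ε' ≤ a' / 2 := by
    have := min_le_left a' (1 / 32 : ℝ)
    rw [hε']; linarith
  have hε2 : ε' ≤ 1 / 64 := by
    have := min_le_right a' (1 / 32 : ℝ)
    rw [hε']; linarith
  refine ⟨a' / 4, by linarith, ?_⟩
  intro q a hq ha
  haveI : NeZero q := ⟨by omega⟩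
  have hq0 : (1 : ℝ) ≤ q := by exact_mod_cast hq
  obtain ⟨C0, hC0, XS, hXS⟩ := hSup q
  obtain ⟨XM, hXM⟩ := hM C0 hC0
  set τ : ℝ := (Fintype.card (DirichletCharacter ℂ q) : ℝ) with hτ
  set D : ℝ := 4000 * q + 32400 * q ^ 2 * τ ^ 2 with hD
  have hD0 : 0 < D := by positivity
  -- conditions on `l = log X`
  have hev : ∀ᶠ l : ℝ in atTop, 10 ≤ l ^ (1 / 16 : ℝ) ∧
      410003 * q ≤ l ^ ε' ∧ l ^ (1 / 16 + ε') ≤ 1 / 4 * l ^ (1 / 8 : ℝ) ∧ 4 ≤ l ^ (1 / 8 : ℝ) ∧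
      (q : ℝ) < l ^ κ ∧ l ^ (1 / 32 : ℝ) ≤ 3 / q * l ^ (1 / 16 : ℝ) ∧
      l ^ (-(a' / 2)) ≤ 1 / D * l ^ (-(a' / 4)) ∧ (q : ℝ) ≤ 1 / 200 * l ^ (1 / 16 : ℝ) ∧ 1 ≤ l := by
    have e1 := ev_ge (show (0 : ℝ) < 1 / 16 by norm_num) 10
    have e2 := ev_ge hε0 (410003 * q)
    have e3 := ev_pow (show 1 / 16 + ε' < (1 / 8 : ℝ) by linarith) (show (0 : ℝ) < 1 / 4 by norm_num)
    have e4 := ev_ge (show (0 : ℝ) < 1 / 8 by norm_num) 4
    have e5 := ev_ge hκ (q + 1)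
    have e6 := ev_pow (show (1 / 32 : ℝ) < 1 / 16 by norm_num) (show (0 : ℝ) < 3 / q by positivity)
    have e7 := ev_pow (show -(a' / 2) < -(a' / 4) by linarith) (show (0 : ℝ) < 1 / D by positivity)
    have e8 := ev_ge (show (0 : ℝ) < 1 / 16 by norm_num) (200 * q)
    filter_upwards [e1, e2, e3, e4, e5, e6, e7, e8, eventually_ge_atTop 1]
      with l h1 h2 h3 h4 h5 h6 h7 h8 h9
    exact ⟨h1, h2, h3, h4, by linarith, h6, h7, by linarith, h9⟩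
  have hevX : ∀ᶠ X : ℝ in atTop, (10 ≤ (Real.log X) ^ (1 / 16 : ℝ) ∧
      410003 * q ≤ (Real.log X) ^ ε' ∧
      (Real.log X) ^ (1 / 16 + ε') ≤ 1 / 4 * (Real.log X) ^ (1 / 8 : ℝ) ∧
      4 ≤ (Real.log X) ^ (1 / 8 : ℝ) ∧
      (q : ℝ) < (Real.log X) ^ κ ∧
      (Real.log X) ^ (1 / 32 : ℝ) ≤ 3 / q * (Real.log X) ^ (1 / 16 : ℝ) ∧
      (Real.log X) ^ (-(a' / 2)) ≤ 1 / D * (Real.log X) ^ (-(a' / 4)) ∧
      (q : ℝ) ≤ 1 / 200 * (Real.log X) ^ (1 / 16 : ℝ) ∧ 1 ≤ Real.log X) ∧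
      40 * Real.log X ≤ X ∧ 1 ≤ X ∧ XS ≤ X ∧ XM ≤ X := by
    have e1 := Real.tendsto_log_atTop.eventually hev
    have e2 : ∀ᶠ X : ℝ in atTop, 40 * Real.log X ≤ X := by
      have h1 := Real.isLittleO_log_id_atTop.bound (show (0 : ℝ) < 1 / 40 by norm_num)
      filter_upwards [h1, eventually_ge_atTop 1] with X h2 h3
      rw [Real.norm_of_nonneg (Real.log_nonneg h3), id, Real.norm_of_nonneg (by linarith)] at h2
      linarith
    filter_upwards [e1, e2, eventually_ge_atTop 1, eventually_ge_atTop XS,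
      eventually_ge_atTop XM] with X h1 h2 h3 h4 h5
    exact ⟨h1, h2, h3, h4, h5⟩
  obtain ⟨X0, hX0⟩ := eventually_atTop.1 hevX
  refine ⟨X0, fun X hX w hwin => ?_⟩
  obtain ⟨⟨c1, c2, c3, c4, c5, c6, c7, c8, c9⟩, c10, c11, c12, c13⟩ := hX0 X hX
  set l : ℝ := Real.log X with hl
  set h : ℝ := l ^ (1 / 16 : ℝ) with hh
  have hl0 : 0 < l := by linarith
  have hXpos : 0 < X := by linarith
  have hh1 : 1 ≤ h := by linarith
  -- `L`
  set L : ℕ := ⌈l ^ (1 / 16 + ε')⌉₊ with hLd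
  have hpow : l ^ (1 / 16 + ε') = h * l ^ ε' := Real.rpow_add hl0 _ _
  have hLge : h * l ^ ε' ≤ L := by
    rw [← hpow]
    exact Nat.le_ceil _
  have hLlt : (L : ℝ) < h * l ^ ε' + 1 := by
    rw [← hpow]
    exact Nat.ceil_lt_add_one (Real.rpow_nonneg hl0.le _)
  have hlε : 0 < l ^ ε' := Real.rpow_pos_of_pos hl0 _
  have hL1 : 410000 * ((q : ℝ) * h) + 2 ≤ L := by nlinarith
  have hL2 : (2 * L : ℝ) ≤ w := by
    have h1 : (2 * L : ℝ) ≤ l ^ (1 / 8 : ℝ) := by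
      rw [hpow] at c3
      linarith
    exact h1.trans hwin
  have h18 : l ^ (1 / 8 : ℝ) ≤ l := by
    calc l ^ (1 / 8 : ℝ) ≤ l ^ (1 : ℝ) := Real.rpow_le_rpow_of_exponent_le c9 (by norm_num)
      _ = l := Real.rpow_one l
  have h16 : h ≤ l := by
    calc l ^ (1 / 16 : ℝ) ≤ l ^ (1 : ℝ) := Real.rpow_le_rpow_of_exponent_le c9 (by norm_num)
      _ = l := Real.rpow_one l
  have hXL : 4 * ((L : ℝ) + 4 * h + 4) ≤ X := by
    rw [hpow] at c3
    linarith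
  -- the scales
  obtain ⟨s, hs1, hs2, hs3, hs4⟩ := hXM X c13
  set Ex : Finset ℕ := (Icc 1 ⌊16 * X⌋₊).filter fun n => hit s.P2 n * hit s.P3 n ≠ 1 with hExd
  have hP1 : ∀ p ∈ s.P1, p.Prime := fun p hp => Pool.Agent.MRL.DC.prime_of_mem_PP hp
  set m : ℕ := ⌊4 * h⌋₊ with hm
  have hm1 : (m : ℝ) ≤ 4 * h := Nat.floor_le (by positivity)
  have hm2 : 4 * h - 1 < m := Nat.sub_one_lt_floor _
  -- energy
  have hen : ∀ χ : DirichletCharacter ℂ q, ∀ Y : ℝ, X / 8 ≤ Y → Y ≤ 8 * X → ∀ T : ℝ, 1 ≤ T →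
      T ≤ Y / h → ∫ t : ℝ, ‖AF (fun n => (lamChi χ n * (((fun _ => (1 : ℝ)) n : ℝ) : ℂ)) * s.b n)
        Y t‖ ^ 2 * g T t ≤ l ^ (-a') := by
    intro χ Y h1 h2 T h3 h4
    have h5 := hs4 (lamChi χ) (cm_lamChi χ) (fun _ => 1) (fun _ => by simp)
      (fun _ _ _ _ _ => rfl) (hXS X c12 χ) Y h1 h2 T h3 h4
    simp only [Complex.ofReal_one]
    exact h5
  -- the progression
  have hDens : ∀ y : ℕ, 0.45 * (m : ℝ) / q ≤
      (((Ioc y (y + m)).filter fun n => n ≡ a [MOD q] ∧ (fun _ => (1 : ℝ)) n = 1).card : ℝ) := by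
    intro y
    have h1 := prog_card_ge (q := q) (a := a) (y := y) (m := m) hq
    have h2 : ((Ioc y (y + m)).filter fun n => n ≡ a [MOD q] ∧ (fun _ => (1 : ℝ)) n = 1) =
        (Ioc y (y + m)).filter fun n => n ≡ a [MOD q] :=
      filter_congr fun n _ => by simp
    rw [h2]
    refine le_trans ?_ h1
    apply div_le_div_of_nonneg_right _ (by linarith)
    nlinarith
  -- few integers free of `P1`
  have hfree : ∀ y : ℕ, (((Ioc y (y + m)).filter fun n => n ≡ a [MOD q] ∧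
      ∀ p ∈ s.P1, ¬ p ∣ n).card : ℝ) ≤ 0.01 * (m : ℝ) / q := by
    intro y
    have h1 : Ioc y (y + m) = Ico (y + 1) (y + 1 + m) := by
      ext n
      rw [mem_Ioc, mem_Ico]
      omega
    rw [h1]
    have hsum : 0 < ∑ p ∈ s.P1, 1 / (p : ℝ) := by
      have : 1 ≤ K := by rw [hK]; linarith
      linarith
    have h2 := hS q a m (y + 1) hq s.P1 (fun p hp => by
      obtain ⟨h3, h4⟩ := hs1 p hp
      refine ⟨hP1 p hp, ?_, ?_⟩
      · intro hdvd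
        have h5 : p ≤ q := Nat.le_of_dvd (by omega) hdvd
        have h6 : (p : ℝ) ≤ q := by exact_mod_cast h5
        linarith
      · have h5 : (p : ℝ) ^ 2 ≤ l ^ (1 / 32 : ℝ) := by
          calc (p : ℝ) ^ 2 ≤ (l ^ ((1 / 16 : ℝ) / 4)) ^ 2 :=
                pow_le_pow_left₀ (Nat.cast_nonneg _) h4 2
            _ = l ^ (1 / 32 : ℝ) := by
              rw [← Real.rpow_natCast, ← Real.rpow_mul hl0.le]
              norm_num
        have h6 : (q : ℝ) * (p : ℝ) ^ 2 ≤ m := by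
          calc (q : ℝ) * (p : ℝ) ^ 2 ≤ q * (3 / q * h) :=
                mul_le_mul_of_nonneg_left (h5.trans c6) (by linarith)
            _ = 3 * h := by field_simp
            _ ≤ m := by linarith
        exact_mod_cast h6) hsum
    refine h2.trans ?_
    rw [div_le_iff₀ hsum]
    have h3 : 0.01 * (m : ℝ) / q * K ≤ 0.01 * (m : ℝ) / q * ∑ p ∈ s.P1, 1 / (p : ℝ) :=
      mul_le_mul_of_nonneg_left hs2 (by positivity)
    refine le_trans ?_ h3
    have h4 : 0.01 * (m : ℝ) / q * K = (0.01 * K) * ((m : ℝ) / q) := by ring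
    rw [h4]
    apply mul_le_mul_of_nonneg_right _ (by positivity)
    rw [hK]
    linarith
  have hExm : ∀ n : ℕ, 1 ≤ n → (n : ℝ) ≤ 16 * X → n ∉ Ex →
      (∃ p ∈ s.P2, p ∣ n) ∧ ∃ p ∈ s.P3, p ∣ n := by
    intro n h1 h2 h3
    have h4 : hit s.P2 n * hit s.P3 n = 1 := by
      by_contra hcon
      exact h3 (mem_filter.2 ⟨mem_Icc.2 ⟨h1, Nat.le_floor h2⟩, hcon⟩)
    constructor
    · by_contra hcon
      have : hit s.P2 n = 0 := by unfold hit; rw [if_neg hcon]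
      rw [this, zero_mul] at h4
      exact zero_ne_one h4
    · by_contra hcon
      have : hit s.P3 n = 0 := by unfold hit; rw [if_neg hcon]
      rw [this, mul_zero] at h4
      exact zero_ne_one h4
  set R : Finset ℕ := (Icc ⌈X⌉₊ ⌊2 * X⌋₊).filter (fun x => ∀ i < w, ∀ j < w, x + i ≡ a [MOD q] →
    x + j ≡ a [MOD q] → lam (x + i) = lam (x + j)) with hR
  have hmain := runs_gen (q := q) (a := a) ha s (fun _ => (1 : ℝ)) (fun _ => Or.inr rfl)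
    (X := X) (h := h) (ε := l ^ (-a')) (L := L) c1 hXL hL1 (Real.rpow_nonneg hl0.le _) hen hDens
    hfree Ex hExm R (fun x hx => by
      have hx' := mem_filter.1 hx
      have hxI := mem_Icc.1 hx'.1
      refine ⟨Nat.ceil_le.1 hxI.1, (Nat.le_floor_iff (by positivity)).1 hxI.2, ?_⟩
      intro u v h1 h2 h3 h4 h5 h6 _ _ _ _
      have h2L : 2 * L ≤ w := by exact_mod_cast hL2
      obtain ⟨i, rfl⟩ := Nat.exists_eq_add_of_le h1
      obtain ⟨j, rfl⟩ := Nat.exists_eq_add_of_le h3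
      exact hx'.2 i (by omega) j (by omega) h5 h6)
  -- bookkeeping
  have hLh : 2 * (L : ℝ) * (1000 * q / h) ≤ 4000 * q * l ^ ε' := by
    have h1 : (L : ℝ) ≤ 2 * (h * l ^ ε') := by nlinarith
    calc 2 * (L : ℝ) * (1000 * q / h) ≤ 2 * (2 * (h * l ^ ε')) * (1000 * q / h) := by gcongr
      _ = 4000 * q * l ^ ε' := by field_simp; ring
  have hfin : (R.card : ℝ) ≤ D * l ^ (-(a' / 2)) * X := by
    have h1 : 2 * (L : ℝ) * (1000 * q / h) * Ex.card ≤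
        4000 * q * l ^ ε' * (X * l ^ (-a')) :=
      mul_le_mul hLh hs3 (Nat.cast_nonneg _) (by positivity)
    have h2 : l ^ ε' * l ^ (-a') ≤ l ^ (-(a' / 2)) := by
      rw [← Real.rpow_add hl0]
      apply Real.rpow_le_rpow_of_exponent_le c9
      linarith
    have h3 : l ^ (-a') ≤ l ^ (-(a' / 2)) :=
      Real.rpow_le_rpow_of_exponent_le c9 (by linarith)
    have h4 : 4000 * (q : ℝ) * l ^ ε' * (X * l ^ (-a')) ≤ 4000 * q * l ^ (-(a' / 2)) * X := by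
      have h5 := mul_le_mul_of_nonneg_left h2 (show 0 ≤ 4000 * (q : ℝ) * X by positivity)
      nlinarith
    have h5 : 32400 * (q : ℝ) ^ 2 * τ ^ 2 * l ^ (-a') * X ≤
        32400 * q ^ 2 * τ ^ 2 * l ^ (-(a' / 2)) * X := by gcongr
    calc (R.card : ℝ) ≤ _ := hmain
      _ ≤ 4000 * q * l ^ (-(a' / 2)) * X + 32400 * q ^ 2 * τ ^ 2 * l ^ (-(a' / 2)) * X := by
        linarith
      _ = D * l ^ (-(a' / 2)) * X := by rw [hD]; ring
  calc (R.card : ℝ) ≤ D * l ^ (-(a' / 2)) * X := hfin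
    _ ≤ D * (1 / D * l ^ (-(a' / 4))) * X := by gcongr
    _ = X / l ^ (a' / 4) := by
      rw [Real.rpow_neg hl0.le]
      field_simp

end Pool.Agent.MR2.NR2
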