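import Pool.Agent.Lib.MR2.SR
import Pool.Agent.Lib.MR2.Defs2

/-!
# Sup bound for the cofactors with removed squares of primes (tank MR2, stage 2)

`sfw S n = 1` if no `p²`, `p ∈ S`, divides `n`.  From Halász with explicit constant (`HalC`) for a
completely multiplicative `f` the sup bound of row SR for `f · free P0 · sfw S`, for arbitrary finite
sets of primes `P0`, `S`.  helper1.
-/

set_option autoImplicit false
open Finset Complex

namespace Pool.Agent.MR2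

open Pool.Agent.MRL Pool.Agent.MRF Pool.Agent.MRHal

/-- `1` if no `p ^ 2`, `p ∈ S`, divides `n`, else `0`. -/
noncomputable def sfw (S : Finset ℕ) (n : ℕ) : ℂ := if ∀ p ∈ S, ¬ p ^ 2 ∣ n then 1 else 0

/-- indicator of `d ∣ n`. -/
noncomputable def dvi (d n : ℕ) : ℂ := if d ∣ n then 1 else 0

theorem norm_free_le (P : Finset ℕ) (n : ℕ) : ‖free P n‖ ≤ 1 := by
  unfold free; split_ifs <;> simp

theorem norm_sfw_le (S : Finset ℕ) (n : ℕ) : ‖sfw S n‖ ≤ 1 := by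
  unfold sfw; split_ifs <;> simp

theorem sfw_empty (n : ℕ) : sfw ∅ n = 1 := by simp [sfw]

theorem free_empty (n : ℕ) : free ∅ n = 1 := by simp [free]

theorem sfw_expand (S : Finset ℕ) (hS : ∀ p ∈ S, p.Prime) (n : ℕ) :
    sfw S n = ∑ T ∈ S.powerset, (-1 : ℂ) ^ T.card * dvi ((∏ p ∈ T, p) ^ 2) n := by
  have h1 : sfw S n = ∏ p ∈ S, (1 + -dvi (p ^ 2) n) := by
    unfold sfw
    by_cases h : ∀ p ∈ S, ¬ p ^ 2 ∣ n
    · rw [if_pos h]
      symm
      refine Finset.prod_eq_one fun p hp => ?_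
      unfold dvi
      rw [if_neg (h p hp)]; simp
    · rw [if_neg h]
      push Not at h
      obtain ⟨p, hp, hpn⟩ := h
      symm
      refine Finset.prod_eq_zero hp ?_
      unfold dvi
      rw [if_pos hpn]; simp
  rw [h1, Finset.prod_one_add]
  refine Finset.sum_congr rfl fun T hT => ?_
  rw [mem_powerset] at hT
  rw [Finset.prod_neg]
  congr 1
  by_cases h : ∀ p ∈ T, p ^ 2 ∣ n
  · have h2 : (∏ p ∈ T, p) ^ 2 ∣ n := by
      rw [← Finset.prod_pow]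
      refine Finset.prod_dvd_of_isRelPrime ?_ h
      intro p hp q hq hpq
      simp only [Function.onFun]
      rw [← Nat.coprime_iff_isRelPrime]
      exact Nat.Coprime.pow 2 2 ((Nat.coprime_primes (hS p (hT hp)) (hS q (hT hq))).2 hpq)
    unfold dvi
    rw [if_pos h2]
    exact Finset.prod_eq_one fun p hp => by rw [if_pos (h p hp)]
  · have h' := h
    push Not at h'
    obtain ⟨p, hp, hpn⟩ := h'
    have h2 : ¬ (∏ p ∈ T, p) ^ 2 ∣ n := by
      intro hh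
      exact hpn ((pow_dvd_pow_of_dvd (Finset.dvd_prod_of_mem (fun p => p) hp) 2).trans hh)
    have e1 : dvi ((∏ p ∈ T, p) ^ 2) n = 0 := by unfold dvi; rw [if_neg h2]
    rw [e1]
    exact Finset.prod_eq_zero hp (by unfold dvi; rw [if_neg hpn])

/-- the polynomial over the multiples of `d`. -/
theorem AF_dil {f : ℕ → ℂ} (hf : CM f) (Q : Finset ℕ) (hQ : ∀ p ∈ Q, p.Prime) {d : ℕ} (hd : 0 < d)
    (Y t : ℝ) :
    AF (fun m => f m * (free Q m * dvi d m)) Y t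
      = (((1 / (d : ℝ) : ℝ) : ℂ) * (f d * free Q d) * nt d t) * AF (fun m => f m * free Q m) (Y / d) t := by
  have hd' : (d : ℝ) ≠ 0 := by exact_mod_cast hd.ne'
  have e1 : ⌊Y / d⌋₊ = ⌊Y⌋₊ / d := Nat.floor_div_natCast Y d
  have e2 : ⌊2 * (Y / d)⌋₊ = ⌊2 * Y⌋₊ / d := by
    rw [← Nat.floor_div_natCast (2 * Y) d]; congr 1; ring
  unfold AF
  rw [e1, e2, Finset.mul_sum]
  have h1 : ∑ m ∈ Ioc ⌊Y⌋₊ ⌊2 * Y⌋₊, (((1 / (m : ℝ) : ℝ) : ℂ) * (f m * (free Q m * dvi d m))) * nt m t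
      = ∑ m ∈ (Ioc ⌊Y⌋₊ ⌊2 * Y⌋₊).filter (fun m => d ∣ m),
          (((1 / (m : ℝ) : ℝ) : ℂ) * (f m * free Q m)) * nt m t := by
    rw [Finset.sum_filter]
    refine Finset.sum_congr rfl fun m _ => ?_
    unfold dvi
    split_ifs <;> simp
  have h2 : (Ioc ⌊Y⌋₊ ⌊2 * Y⌋₊).filter (fun m => d ∣ m)
      = (Ioc (⌊Y⌋₊ / d) (⌊2 * Y⌋₊ / d)).image (fun m => d * m) := by
    ext m
    simp only [mem_filter, mem_Ioc, mem_image]
    constructor
    · rintro ⟨⟨h1, h2⟩, k, rfl⟩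
      refine ⟨k, ⟨?_, ?_⟩, rfl⟩
      · rw [Nat.div_lt_iff_lt_mul hd, mul_comm]; exact h1
      · rw [Nat.le_div_iff_mul_le hd, mul_comm]; exact h2
    · rintro ⟨k, ⟨h1, h2⟩, rfl⟩
      rw [Nat.div_lt_iff_lt_mul hd, mul_comm] at h1
      rw [Nat.le_div_iff_mul_le hd, mul_comm] at h2
      exact ⟨⟨h1, h2⟩, dvd_mul_right _ _⟩
  beta_reduce
  rw [h1, h2, Finset.sum_image (by intro a _ b _ h; exact Nat.eq_of_mul_eq_mul_left hd h)]
  refine Finset.sum_congr rfl fun k hk => ?_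
  rw [mem_Ioc] at hk
  have hk0 : k ≠ 0 := by omega
  have hk' : (k : ℝ) ≠ 0 := by exact_mod_cast hk0
  have hfree : free Q (d * k) = free Q d * free Q k := by
    unfold free
    by_cases a : ∀ p ∈ Q, ¬ p ∣ d
    · by_cases b : ∀ p ∈ Q, ¬ p ∣ k
      · rw [if_pos a, if_pos b, if_pos (by
          intro p hp hh
          rcases (hQ p hp).dvd_mul.1 hh with h | h
          · exact a p hp h
          · exact b p hp h)]; simp
      · rw [if_pos a, if_neg b, if_neg (fun hh => b fun p hp hpk => hh p hp (hpk.mul_left d))]; simp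
    · rw [if_neg a, if_neg (fun hh => a fun p hp hpd => hh p hp (hpd.mul_right k))]; simp
  rw [hfree, hf.mul, Pool.Agent.MRL.DC.nt_mul hd.ne' hk0]
  push_cast
  have hdc : (d : ℂ) ≠ 0 := by exact_mod_cast hd.ne'
  have hkc : (k : ℂ) ≠ 0 := by exact_mod_cast hk0
  field_simp

/-- trivial bound. -/
theorem norm_AF_le_one {g : ℕ → ℂ} (hg : ∀ n, ‖g n‖ ≤ 1) {Y : ℝ} (hY : 0 ≤ Y) (t : ℝ) :
    ‖AF g Y t‖ ≤ 1 := by
  unfold AF
  have h2Y : ⌊2 * Y⌋₊ ≤ 2 * ⌊Y⌋₊ + 1 := by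
    have h1 : (⌊2 * Y⌋₊ : ℝ) ≤ 2 * Y := Nat.floor_le (by linarith)
    have h2 : Y < ⌊Y⌋₊ + 1 := Nat.lt_floor_add_one Y
    have h3 : (⌊2 * Y⌋₊ : ℝ) < 2 * ⌊Y⌋₊ + 2 := by linarith
    have h4 : ⌊2 * Y⌋₊ < 2 * ⌊Y⌋₊ + 2 := by exact_mod_cast h3
    omega
  have h1 : ∀ m ∈ Ioc ⌊Y⌋₊ ⌊2 * Y⌋₊, ‖(((1 / (m : ℝ) : ℝ) : ℂ) * g m) * nt m t‖
      ≤ 1 / ((⌊Y⌋₊ : ℝ) + 1) := by
    intro m hm
    rw [mem_Ioc] at hm
    rw [norm_mul, MRF.norm_nt, mul_one]
    refine (MRF.norm_coef hg m).trans ?_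
    apply one_div_le_one_div_of_le (by positivity)
    exact_mod_cast hm.1
  refine (norm_sum_le _ _).trans ((Finset.sum_le_sum h1).trans ?_)
  rw [Finset.sum_const, Nat.card_Ioc, nsmul_eq_mul, mul_one_div, div_le_one (by positivity)]
  have : ⌊2 * Y⌋₊ - ⌊Y⌋₊ ≤ ⌊Y⌋₊ + 1 := by omega
  exact_mod_cast this

/-- sup bound for the polynomial over the integers free of the primes of `P`, all lengths. -/
theorem AF_cut {f : ℕ → ℂ} {θ C : ℝ} (hθ : 0 ≤ θ) (hC : 0 < C) (hH : HalC f θ C)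
    (P : Finset ℕ) (hP : ∀ p ∈ P, p.Prime) {Y : ℝ} (hY : 4 ≤ Y) {t : ℝ} (ht : |t| ≤ (Y - 1) ^ 3) :
    ‖AF (fun m => f m * free P m) Y t‖
      ≤ (6 * C) * (Real.log (Y - 1)) ^ (-θ) * Real.exp ((∑ p ∈ P, 1 / (p : ℝ)) / 4) := by
  obtain ⟨N0, hN0def⟩ : ∃ N0, N0 = ⌊Y⌋₊ := ⟨_, rfl⟩
  obtain ⟨N1, hN1def⟩ : ∃ N1, N1 = ⌊2 * Y⌋₊ := ⟨_, rfl⟩
  have h1 : (N0 : ℝ) ≤ Y := by rw [hN0def]; exact Nat.floor_le (by linarith)
  have h2 : Y < N0 + 1 := by rw [hN0def]; exact Nat.lt_floor_add_one Y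
  have h3 : (N1 : ℝ) ≤ 2 * Y := by rw [hN1def]; exact Nat.floor_le (by linarith)
  have h4 : N0 ≤ N1 := by
    rw [hN0def, hN1def]; exact Nat.floor_mono (by linarith)
  have hN0s : Y - 1 < N0 := by linarith
  have h5 : 3 ≤ N0 := by
    have : (3 : ℝ) ≤ N0 := by linarith
    exact_mod_cast this
  have h5r : (3 : ℝ) ≤ N0 := by exact_mod_cast h5
  have hN0c : (Y - 1) ^ 3 ≤ (N0 : ℝ) ^ 3 := pow_le_pow_left₀ (by linarith) hN0s.le 3
  set E : ℝ := Real.exp ((∑ p ∈ P, 1 / (p : ℝ)) / 4) with hE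
  have hE0 : 0 < E := Real.exp_pos _
  have hlog0 : 0 < Real.log (Y - 1) := Real.log_pos (by linarith)
  set B : ℝ := C * (Real.log (Y - 1)) ^ (-θ) * E with hB
  have hB0 : 0 ≤ B := by positivity
  set F : ℕ → ℂ := fun m => f m * free P m with hFdef
  have hF : ∀ m, N0 ≤ m → ‖haF F t m‖ ≤ B * m := by
    intro m hm
    have hmr : (N0 : ℝ) ≤ m := by exact_mod_cast hm
    have h6 := hH (m : ℝ) (by linarith) P hP t (by
      refine ht.trans (hN0c.trans ?_)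
      exact pow_le_pow_left₀ (by positivity) hmr 3)
    rw [Nat.floor_natCast] at h6
    refine (show ‖haF F t m‖ ≤ _ from h6).trans ?_
    have h7 : (Real.log m) ^ (-θ) ≤ (Real.log (Y - 1)) ^ (-θ) :=
      Real.rpow_le_rpow_of_nonpos hlog0 (Real.log_le_log (by linarith) (by linarith)) (by linarith)
    rw [hB]
    calc C * m * (Real.log m) ^ (-θ) * E
        = (Real.log m) ^ (-θ) * (C * m * E) := by ring
      _ ≤ (Real.log (Y - 1)) ^ (-θ) * (C * m * E) :=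
          mul_le_mul_of_nonneg_right h7 (by positivity)
      _ = _ := by ring
  have h8 := ha_abel F (t := t) (B := B) hB0 (by omega : 1 ≤ N0) hF N1 h4
  have hA : AF F Y t = ∑ m ∈ Ioc N0 N1, (((1 / (m : ℝ) : ℝ) : ℂ) * F m) * nt m t := by
    rw [hN0def, hN1def]; rfl
  have h9 : ∀ m, N0 ≤ m → ‖haF F t m / (m : ℂ)‖ ≤ B := by
    intro m hm
    have hmr : (1 : ℝ) ≤ m := by
      have : (N0 : ℝ) ≤ m := by exact_mod_cast hm
      linarith
    rw [norm_div, Complex.norm_natCast, div_le_iff₀ (by linarith)]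
    exact hF m hm
  have h10 : B * ((N1 : ℝ) - N0) / N0 ≤ B * 4 := by
    rw [div_le_iff₀ (by linarith)]
    have : (N1 : ℝ) - N0 ≤ 4 * N0 := by linarith
    calc B * ((N1 : ℝ) - N0) ≤ B * (4 * N0) := by gcongr
      _ = B * 4 * N0 := by ring
  rw [hA]
  have h11 : (∑ m ∈ Ioc N0 N1, (((1 / (m : ℝ) : ℝ) : ℂ) * F m) * nt m t)
      = ((∑ m ∈ Ioc N0 N1, (((1 / (m : ℝ) : ℝ) : ℂ) * F m) * nt m t) - haF F t N1 / N1
          + haF F t N0 / N0) + haF F t N1 / N1 - haF F t N0 / N0 := by ring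
  rw [h11]
  calc _ ≤ _ := norm_sub_le _ _
    _ ≤ (‖(∑ m ∈ Ioc N0 N1, (((1 / (m : ℝ) : ℝ) : ℂ) * F m) * nt m t) - haF F t N1 / N1
          + haF F t N0 / N0‖ + ‖haF F t N1 / N1‖) + ‖haF F t N0 / N0‖ := by
        gcongr; exact norm_add_le _ _
    _ ≤ (B * 4 + B) + B := by
        gcongr
        · exact h8.trans h10
        · exact h9 N1 h4
        · exact h9 N0 le_rfl
    _ = _ := by rw [hB]; ring

/-- sums over the squares of products of distinct primes. -/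
theorem sum_powerset_le (S : Finset ℕ) (hS : ∀ p ∈ S, p.Prime) :
    ∑ T ∈ S.powerset, 1 / ((∏ p ∈ T, p : ℕ) : ℝ) ^ (3 / 2 : ℝ)
      ≤ ∑' n : ℕ, 1 / (n : ℝ) ^ (3 / 2 : ℝ) := by
  have hsm : Summable (fun n : ℕ => 1 / (n : ℝ) ^ (3 / 2 : ℝ)) :=
    Real.summable_one_div_nat_rpow.2 (by norm_num)
  have hinj : Set.InjOn (fun T : Finset ℕ => ∏ p ∈ T, p) (S.powerset : Set (Finset ℕ)) := by
    intro T hT T' hT' h
    simp only [coe_powerset, Set.mem_preimage, Set.mem_powerset_iff, coe_subset] at hT hT'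
    have h1 := Nat.primeFactors_prod (s := T) (fun p hp => hS p (hT hp))
    have h2 := Nat.primeFactors_prod (s := T') (fun p hp => hS p (hT' hp))
    simp only at h
    rw [← h1, ← h2, h]
  have h1 : ∑ T ∈ S.powerset, 1 / ((∏ p ∈ T, p : ℕ) : ℝ) ^ (3 / 2 : ℝ)
      = ∑ n ∈ S.powerset.image (fun T : Finset ℕ => ∏ p ∈ T, p), 1 / (n : ℝ) ^ (3 / 2 : ℝ) := by
    rw [Finset.sum_image hinj]
  rw [h1]
  exact hsm.sum_le_tsum _ (fun n _ => by positivity)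

/-- `Σ n^{-3/2}`. -/
noncomputable def K32 : ℝ := ∑' n : ℕ, 1 / (n : ℝ) ^ (3 / 2 : ℝ)

theorem K32_pos : 0 < K32 := by
  have hsm : Summable (fun n : ℕ => 1 / (n : ℝ) ^ (3 / 2 : ℝ)) :=
    Real.summable_one_div_nat_rpow.2 (by norm_num)
  refine hsm.tsum_pos (fun n => by positivity) 1 ?_
  simp

/-- sup bound with removed primes `Q` and removed squares of the primes of `S`. -/
theorem AF_sf {f : ℕ → ℂ} (hf : CM f) {θ C : ℝ} (hθ : 0 < θ) (hC : 0 < C) (hH : HalC f θ C) :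
    ∀ X : ℝ, 500 ^ 8 ≤ X → ∀ Q S : Finset ℕ, (∀ p ∈ Q, p.Prime) → (∀ p ∈ S, p.Prime) →
    ∀ Y : ℝ, √X / 3 ≤ Y → ∀ t : ℝ, |t| ≤ 16 * X + 1 →
    ‖AF (fun m => f m * (free Q m * sfw S m)) Y t‖
      ≤ (K32 * (6 * C * 4 ^ θ + 3 * (32 * θ) ^ θ)) * (Real.log X) ^ (-θ)
        * Real.exp ((∑ p ∈ Q, 1 / (p : ℝ)) / 4) := by
  intro X hX Q S hQ hS Y hY1 t ht
  have hXpos : 0 < X := lt_of_lt_of_le (by positivity) hX
  have hX1 : 1 ≤ X := le_trans (by norm_num) hX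
  have hX1' : 1 < X := lt_of_lt_of_le (by norm_num) hX
  set Z : ℝ := X ^ (1 / 8 : ℝ) with hZ
  have hZ4 : 500 ≤ Z := by
    have h1 : ((500 : ℝ) ^ 8) ^ (1 / 8 : ℝ) ≤ X ^ (1 / 8 : ℝ) :=
      Real.rpow_le_rpow (by positivity) hX (by norm_num)
    rw [← Real.rpow_natCast, ← Real.rpow_mul (by norm_num)] at h1
    have e : ((8 : ℕ) : ℝ) * (1 / 8) = 1 := by norm_num
    rw [e, Real.rpow_one] at h1
    exact h1
  have hZ0 : 0 < Z := by linarith
  have hZ8 : Z ^ 8 = X := by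
    rw [hZ, ← Real.rpow_natCast, ← Real.rpow_mul hXpos.le]
    have e : (1 / 8 : ℝ) * ((8 : ℕ) : ℝ) = 1 := by norm_num
    rw [e, Real.rpow_one]
  have hsqZ : √X = Z ^ 4 := by
    rw [← hZ8, show Z ^ 8 = (Z ^ 4) ^ 2 by ring, Real.sqrt_sq (by positivity)]
  rw [hsqZ] at hY1
  have hYpos : 0 < Y := lt_of_lt_of_le (by positivity) hY1
  set L : ℝ := Real.log X with hL
  have hL0 : 0 < L := Real.log_pos hX1'
  set E : ℝ := Real.exp ((∑ p ∈ Q, 1 / (p : ℝ)) / 4) with hE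
  have hE1 : 1 ≤ E := Real.one_le_exp (by
    have : 0 ≤ ∑ p ∈ Q, 1 / (p : ℝ) := Finset.sum_nonneg fun _ _ => by positivity
    linarith)
  have hE0 : 0 < E := by linarith
  -- the two bounds
  set b1 : ℝ := (6 * C * 4 ^ θ) * L ^ (-θ) * E with hb1
  set b2 : ℝ := 3 * (32 * θ) ^ θ * L ^ (-θ) * E with hb2
  have hb10 : 0 ≤ b1 := by positivity
  have hb20 : 0 ≤ b2 := by positivity
  -- linearity
  have hlin : AF (fun m => f m * (free Q m * sfw S m)) Y t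
      = ∑ T ∈ S.powerset, (-1 : ℂ) ^ T.card * AF (fun m => f m * (free Q m * dvi ((∏ p ∈ T, p) ^ 2) m)) Y t := by
    unfold AF
    simp only [Finset.mul_sum]
    rw [Finset.sum_comm]
    refine Finset.sum_congr rfl fun m _ => ?_
    rw [sfw_expand S hS, Finset.mul_sum, Finset.mul_sum, Finset.mul_sum, Finset.sum_mul]
    refine Finset.sum_congr rfl fun T _ => ?_
    ring
  have hterm : ∀ T ∈ S.powerset, ‖(-1 : ℂ) ^ T.card
      * AF (fun m => f m * (free Q m * dvi ((∏ p ∈ T, p) ^ 2) m)) Y t‖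
      ≤ (b1 + b2) * (1 / ((∏ p ∈ T, p : ℕ) : ℝ) ^ (3 / 2 : ℝ)) := by
    intro T hT
    rw [mem_powerset] at hT
    set e : ℕ := ∏ p ∈ T, p with he
    have he0 : 0 < e := Finset.prod_pos fun p hp => (hS p (hT hp)).pos
    have he1 : (1 : ℝ) ≤ e := by exact_mod_cast he0
    have hd0 : 0 < e ^ 2 := by positivity
    rw [norm_mul, norm_pow, norm_neg, norm_one, one_pow, one_mul, AF_dil hf Q hQ hd0, norm_mul]
    have hcoef : ‖((1 / ((e ^ 2 : ℕ) : ℝ) : ℝ) : ℂ) * (f (e ^ 2) * free Q (e ^ 2)) * nt (e ^ 2) t‖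
        ≤ 1 / (e : ℝ) ^ 2 := by
      rw [norm_mul, MRF.norm_nt, mul_one, norm_mul, Complex.norm_real,
        Real.norm_of_nonneg (by positivity), norm_mul]
      have h1 : ‖f (e ^ 2)‖ * ‖free Q (e ^ 2)‖ ≤ 1 := by
        have := mul_le_mul (hf.le (e ^ 2)) (norm_free_le Q (e ^ 2)) (norm_nonneg _) zero_le_one
        simpa using this
      have h2 : 1 / ((e ^ 2 : ℕ) : ℝ) = 1 / (e : ℝ) ^ 2 := by push_cast; rfl
      rw [h2]
      exact mul_le_of_le_one_right (by positivity) h1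
    have htriv : ‖AF (fun m => f m * free Q m) (Y / ((e ^ 2 : ℕ) : ℝ)) t‖ ≤ 1 :=
      norm_AF_le_one (fun n => by
        rw [norm_mul]
        have := mul_le_mul (hf.le n) (norm_free_le Q n) (norm_nonneg _) zero_le_one
        simpa using this) (by positivity) t
    have he32 : (e : ℝ) ^ (3 / 2 : ℝ) ≤ (e : ℝ) ^ 2 := by
      rw [← Real.rpow_natCast]
      exact Real.rpow_le_rpow_of_exponent_le he1 (by norm_num)
    have he32' : 0 < (e : ℝ) ^ (3 / 2 : ℝ) := by positivity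
    rcases le_or_gt (e : ℝ) (Y ^ (1 / 8 : ℝ)) with hcase | hcase
    · -- small `e`
      have hY34 : Z ^ 3 / 3 ≤ Y / ((e ^ 2 : ℕ) : ℝ) := by
        have h1 : (e : ℝ) ^ 2 ≤ Y ^ (1 / 4 : ℝ) := by
          have h1 : (e : ℝ) ^ 2 ≤ (Y ^ (1 / 8 : ℝ)) ^ 2 := pow_le_pow_left₀ (by positivity) hcase 2
          rw [← Real.rpow_natCast (Y ^ (1 / 8 : ℝ)), ← Real.rpow_mul hYpos.le] at h1
          norm_num at h1 ⊢
          exact h1
        push_cast
        rw [le_div_iff₀ (by positivity)]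
        have h2 : Z ^ 3 / 3 ≤ Y ^ (3 / 4 : ℝ) := by
          have h2 : (Z ^ 4 / 3) ^ (3 / 4 : ℝ) ≤ Y ^ (3 / 4 : ℝ) :=
            Real.rpow_le_rpow (by positivity) hY1 (by norm_num)
          rw [Real.div_rpow (by positivity) (by norm_num), ← Real.rpow_natCast,
            ← Real.rpow_mul hZ0.le] at h2
          have e3 : ((4 : ℕ) : ℝ) * (3 / 4) = ((3 : ℕ) : ℝ) := by norm_num
          rw [e3, Real.rpow_natCast] at h2
          have e4 : (3 : ℝ) ^ (3 / 4 : ℝ) ≤ 3 := by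
            have := Real.rpow_le_rpow_of_exponent_le (by norm_num : (1 : ℝ) ≤ 3)
              (by norm_num : (3 / 4 : ℝ) ≤ 1)
            rwa [Real.rpow_one] at this
          refine le_trans ?_ h2
          exact div_le_div_of_nonneg_left (by positivity) (by positivity) e4
        calc Z ^ 3 / 3 * (e : ℝ) ^ 2 ≤ Y ^ (3 / 4 : ℝ) * Y ^ (1 / 4 : ℝ) :=
              mul_le_mul h2 h1 (by positivity) (by positivity)
          _ = Y := by rw [← Real.rpow_add hYpos]; norm_num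
      have hZ3 : 125000000 ≤ Z ^ 3 := by
        have := pow_le_pow_left₀ (by norm_num : (0 : ℝ) ≤ 500) hZ4 3
        norm_num at this; exact this
      have hY4 : 4 ≤ Y / ((e ^ 2 : ℕ) : ℝ) := by linarith
      have hmain := AF_cut hθ.le hC hH Q hQ hY4 (t := t) (by
        refine ht.trans ?_
        have h1 : (Z ^ 3 / 3 - 1) ^ 3 ≤ (Y / ((e ^ 2 : ℕ) : ℝ) - 1) ^ 3 :=
          pow_le_pow_left₀ (by linarith) (by linarith) 3
        refine le_trans ?_ h1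
        have h2 : 33 / 100 * Z ^ 3 ≤ Z ^ 3 / 3 - 1 := by linarith
        have h3 : (33 / 100 * Z ^ 3) ^ 3 ≤ (Z ^ 3 / 3 - 1) ^ 3 := pow_le_pow_left₀ (by positivity) h2 3
        refine le_trans ?_ h3
        have h4 : (33 / 100 * Z ^ 3) ^ 3 = (33 / 100) ^ 3 * (Z * X) := by
          rw [← hZ8]; ring
        rw [h4]
        have h5 : 500 * X ≤ Z * X := mul_le_mul_of_nonneg_right hZ4 hXpos.le
        have h6 : (35 / 1000 : ℝ) ≤ (33 / 100) ^ 3 := by norm_num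
        have h7 : (35 / 1000 : ℝ) * (500 * X) ≤ (33 / 100) ^ 3 * (Z * X) :=
          mul_le_mul h6 h5 (by positivity) (by positivity)
        linarith)
      rw [← hE] at hmain
      have hlog : L / 4 ≤ Real.log (Y / ((e ^ 2 : ℕ) : ℝ) - 1) := by
        have h1 : Real.log (Z ^ 2) ≤ Real.log (Y / ((e ^ 2 : ℕ) : ℝ) - 1) := by
          apply Real.log_le_log (by positivity)
          have h2 : Z ^ 3 = Z * Z ^ 2 := by ring
          have h3 : 500 * Z ^ 2 ≤ Z * Z ^ 2 := mul_le_mul_of_nonneg_right hZ4 (by positivity)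
          have h4 : 1 ≤ Z ^ 2 := by nlinarith
          linarith
        have h2 : Real.log (Z ^ 2) = L / 4 := by
          rw [hZ, ← Real.rpow_natCast, ← Real.rpow_mul hXpos.le, Real.log_rpow hXpos, hL]
          push_cast; ring
        linarith
      have h13 : (Real.log (Y / ((e ^ 2 : ℕ) : ℝ) - 1)) ^ (-θ) ≤ 4 ^ θ * L ^ (-θ) := by
        have a1 : (Real.log (Y / ((e ^ 2 : ℕ) : ℝ) - 1)) ^ (-θ) ≤ (L / 4) ^ (-θ) :=
          Real.rpow_le_rpow_of_nonpos (by positivity) hlog (by linarith)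
        refine a1.trans (le_of_eq ?_)
        rw [Real.div_rpow hL0.le (by norm_num), Real.rpow_neg (by norm_num : (0 : ℝ) ≤ 4), div_inv_eq_mul]
        ring
      have hAF : ‖AF (fun m => f m * free Q m) (Y / ((e ^ 2 : ℕ) : ℝ)) t‖ ≤ b1 := by
        refine hmain.trans ?_
        rw [hb1]
        calc 6 * C * (Real.log (Y / ((e ^ 2 : ℕ) : ℝ) - 1)) ^ (-θ) * E
            = (Real.log (Y / ((e ^ 2 : ℕ) : ℝ) - 1)) ^ (-θ) * (6 * C * E) := by ring
          _ ≤ (4 ^ θ * L ^ (-θ)) * (6 * C * E) := mul_le_mul_of_nonneg_right h13 (by positivity)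
          _ = _ := by ring
      have h14 : 1 / (e : ℝ) ^ 2 ≤ 1 / (e : ℝ) ^ (3 / 2 : ℝ) := one_div_le_one_div_of_le he32' he32
      calc _ ≤ (1 / (e : ℝ) ^ 2) * b1 := mul_le_mul hcoef hAF (norm_nonneg _) (by positivity)
        _ ≤ (1 / (e : ℝ) ^ (3 / 2 : ℝ)) * b1 := mul_le_mul_of_nonneg_right h14 hb10
        _ ≤ (1 / (e : ℝ) ^ (3 / 2 : ℝ)) * (b1 + b2) :=
            mul_le_mul_of_nonneg_left (by linarith) (by positivity)
        _ = _ := by ring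
    · -- large `e`
      have hX32 : X ^ (1 / 32 : ℝ) / 3 ≤ (e : ℝ) ^ (1 / 2 : ℝ) := by
        have h1 : Y ^ (1 / 8 : ℝ) ≤ (e : ℝ) := hcase.le
        have h2 : (Y ^ (1 / 8 : ℝ)) ^ (1 / 2 : ℝ) ≤ (e : ℝ) ^ (1 / 2 : ℝ) :=
          Real.rpow_le_rpow (by positivity) h1 (by norm_num)
        refine le_trans ?_ h2
        have h3 : ((X ^ (1 / 2 : ℝ) / 3) ^ (1 / 16 : ℝ)) ≤ (Y ^ (1 / 8 : ℝ)) ^ (1 / 2 : ℝ) := by
          rw [← Real.rpow_mul hYpos.le]
          have e1 : (1 / 8 : ℝ) * (1 / 2) = 1 / 16 := by norm_num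
          rw [e1]
          apply Real.rpow_le_rpow (by positivity) _ (by norm_num)
          rw [← Real.sqrt_eq_rpow, hsqZ]; exact hY1
        refine le_trans ?_ h3
        rw [Real.div_rpow (by positivity) (by norm_num), ← Real.rpow_mul hXpos.le]
        have e2 : (1 / 2 : ℝ) * (1 / 16) = 1 / 32 := by norm_num
        rw [e2]
        have e4 : (3 : ℝ) ^ (1 / 16 : ℝ) ≤ 3 := by
          have := Real.rpow_le_rpow_of_exponent_le (by norm_num : (1 : ℝ) ≤ 3)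
            (by norm_num : (1 / 16 : ℝ) ≤ 1)
          rwa [Real.rpow_one] at this
        exact div_le_div_of_nonneg_left (by positivity) (by positivity) e4
      have hlogb : 1 / (X ^ (1 / 32 : ℝ) / 3) ≤ 3 * (32 * θ) ^ θ * L ^ (-θ) := by
        have h1 : L ≤ X ^ (1 / (32 * θ)) / (1 / (32 * θ)) :=
          Real.log_le_rpow_div hXpos.le (by positivity)
        have h2 : L ^ θ ≤ (X ^ (1 / (32 * θ)) / (1 / (32 * θ))) ^ θ :=
          Real.rpow_le_rpow hL0.le h1 hθ.le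
        have h3 : (X ^ (1 / (32 * θ)) / (1 / (32 * θ))) ^ θ = (32 * θ) ^ θ * X ^ (1 / 32 : ℝ) := by
          rw [div_div_eq_mul_div, div_one, Real.mul_rpow (by positivity) (by positivity),
            ← Real.rpow_mul hXpos.le]
          have : 1 / (32 * θ) * θ = 1 / 32 := by field_simp
          rw [this]; ring
        rw [h3] at h2
        have h4 : 0 < L ^ θ := by positivity
        rw [Real.rpow_neg hL0.le, ← div_eq_mul_inv, div_le_div_iff₀ (by positivity) h4]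
        linarith
      have hb2' : 1 / (X ^ (1 / 32 : ℝ) / 3) ≤ b2 := by
        refine hlogb.trans ?_
        rw [hb2]
        exact le_mul_of_one_le_right (by positivity) hE1
      have h5 : 1 / (e : ℝ) ^ 2 ≤ b2 * (1 / (e : ℝ) ^ (3 / 2 : ℝ)) := by
        have h6 : (e : ℝ) ^ 2 = (e : ℝ) ^ (1 / 2 : ℝ) * (e : ℝ) ^ (3 / 2 : ℝ) := by
          rw [← Real.rpow_add (by linarith), ← Real.rpow_natCast]; norm_num
        have h7 : 1 / (e : ℝ) ^ 2 = (1 / (e : ℝ) ^ (1 / 2 : ℝ)) * (1 / (e : ℝ) ^ (3 / 2 : ℝ)) := by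
          rw [h6]; field_simp
        rw [h7]
        refine mul_le_mul_of_nonneg_right ?_ (by positivity)
        exact (one_div_le_one_div_of_le (by positivity) hX32).trans hb2'
      calc _ ≤ (1 / (e : ℝ) ^ 2) * 1 := mul_le_mul hcoef htriv (norm_nonneg _) (by positivity)
        _ = 1 / (e : ℝ) ^ 2 := mul_one _
        _ ≤ b2 * (1 / (e : ℝ) ^ (3 / 2 : ℝ)) := h5
        _ ≤ (b1 + b2) * (1 / (e : ℝ) ^ (3 / 2 : ℝ)) :=
            mul_le_mul_of_nonneg_right (by linarith) (by positivity)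
  rw [hlin]
  refine (norm_sum_le _ _).trans ((Finset.sum_le_sum hterm).trans ?_)
  rw [← Finset.mul_sum]
  refine (mul_le_mul_of_nonneg_left (sum_powerset_le S hS) (by positivity)).trans (le_of_eq ?_)
  rw [← K32, hb1, hb2]
  ring

/-- **sup bound for `f · free P0 · sfw S`**: any sets of removed primes `P0` and of removed squares
of primes `S`. -/
theorem supW_gen : ∀ θ C0 : ℝ, 0 < θ → 0 < C0 → ∃ C : ℝ, 0 < C ∧ ∃ X0 : ℝ, ∀ X : ℝ, X0 ≤ X →
    ∀ f : ℕ → ℂ, CM f → HalC f θ C0 → ∀ S P0 : Finset ℕ, (∀ p ∈ S, p.Prime) →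
    (∀ p ∈ P0, p.Prime) →
    SupW f (fun n => free P0 n * sfw S n) θ (C * Real.exp ((∑ p ∈ P0, 1 / (p : ℝ)) / 4)) X := by
  intro θ C0 hθ hC0
  have hK := K32_pos
  refine ⟨4 * (K32 * (6 * C0 * 4 ^ θ + 3 * (32 * θ) ^ θ)), by positivity, 500 ^ 8, ?_⟩
  intro X hX f hf hH S P0 hS hP0 P1 P2 P3 hP Y hY1 hY2 t ht
  have hA := AF_sf hf hθ hC0 hH
  set C : ℝ := K32 * (6 * C0 * 4 ^ θ + 3 * (32 * θ) ^ θ) with hC
  have hC1 : 0 < C := by positivity
  set E : ℝ := Real.exp ((∑ p ∈ P0, 1 / (p : ℝ)) / 4)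
    * Real.exp ((∑ p ∈ P1 ∪ P2 ∪ P3, 1 / (p : ℝ)) / 4) with hE
  have hX1' : 1 < X := lt_of_lt_of_le (by norm_num) hX
  have hlogX : 0 < Real.log X := Real.log_pos hX1'
  have hb : ∀ Q : Finset ℕ, Q ⊆ P1 ∪ P2 ∪ P3 →
      ‖AF (fun m => f m * (free (P0 ∪ Q) m * sfw S m)) Y t‖ ≤ C * (Real.log X) ^ (-θ) * E := by
    intro Q hQ
    refine (hA X hX (P0 ∪ Q) S (fun p hp => by
      rcases mem_union.1 hp with h | h
      · exact hP0 p h
      · exact hP p (hQ h)) hS Y hY1 t ht).trans ?_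
    have h1 : ∑ p ∈ Q, 1 / (p : ℝ) ≤ ∑ p ∈ P1 ∪ P2 ∪ P3, 1 / (p : ℝ) :=
      Finset.sum_le_sum_of_subset_of_nonneg hQ (fun _ _ _ => by positivity)
    have h3 : ∑ p ∈ P0 ∪ Q, 1 / (p : ℝ) ≤ ∑ p ∈ P0, 1 / (p : ℝ) + ∑ p ∈ Q, 1 / (p : ℝ) := by
      rw [← Finset.sum_union_inter]
      have : 0 ≤ ∑ p ∈ P0 ∩ Q, 1 / (p : ℝ) := Finset.sum_nonneg fun _ _ => by positivity
      linarith
    have h2 : Real.exp ((∑ p ∈ P0 ∪ Q, 1 / (p : ℝ)) / 4) ≤ E := by
      rw [hE, ← Real.exp_add]; apply Real.exp_le_exp.2; linarith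
    exact mul_le_mul_of_nonneg_left h2 (by positivity)
  have hlin : AF (fun m => (f m * (free P0 m * sfw S m)) * ((hit P1 m * hit P2 m) * free P3 m)) Y t
      = AF (fun m => f m * (free (P0 ∪ P3) m * sfw S m)) Y t
        - AF (fun m => f m * (free (P0 ∪ (P1 ∪ P3)) m * sfw S m)) Y t
        - AF (fun m => f m * (free (P0 ∪ (P2 ∪ P3)) m * sfw S m)) Y t
        + AF (fun m => f m * (free (P0 ∪ (P1 ∪ P2 ∪ P3)) m * sfw S m)) Y t := by
    unfold AF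
    rw [← Finset.sum_sub_distrib, ← Finset.sum_sub_distrib, ← Finset.sum_add_distrib]
    refine Finset.sum_congr rfl fun m _ => ?_
    simp only [hit_eq, free_union]
    ring
  have s13 : P1 ∪ P3 ⊆ P1 ∪ P2 ∪ P3 := by
    intro x hx; simp only [mem_union] at hx ⊢; tauto
  have s23 : P2 ∪ P3 ⊆ P1 ∪ P2 ∪ P3 := by
    intro x hx; simp only [mem_union] at hx ⊢; tauto
  have b0 := hb P3 subset_union_right
  have b1 := hb (P1 ∪ P3) s13
  have b2 := hb (P2 ∪ P3) s23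
  have b3 := hb (P1 ∪ P2 ∪ P3) subset_rfl
  have c0 := norm_add_le (AF (fun m => f m * (free (P0 ∪ P3) m * sfw S m)) Y t
      - AF (fun m => f m * (free (P0 ∪ (P1 ∪ P3)) m * sfw S m)) Y t
      - AF (fun m => f m * (free (P0 ∪ (P2 ∪ P3)) m * sfw S m)) Y t)
      (AF (fun m => f m * (free (P0 ∪ (P1 ∪ P2 ∪ P3)) m * sfw S m)) Y t)
  have c1 := norm_sub_le (AF (fun m => f m * (free (P0 ∪ P3) m * sfw S m)) Y t
      - AF (fun m => f m * (free (P0 ∪ (P1 ∪ P3)) m * sfw S m)) Y t)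
      (AF (fun m => f m * (free (P0 ∪ (P2 ∪ P3)) m * sfw S m)) Y t)
  have c2 := norm_sub_le (AF (fun m => f m * (free (P0 ∪ P3) m * sfw S m)) Y t)
    (AF (fun m => f m * (free (P0 ∪ (P1 ∪ P3)) m * sfw S m)) Y t)
  rw [hlin]
  refine (show _ ≤ 4 * (C * (Real.log X) ^ (-θ) * E) by linarith).trans (le_of_eq ?_)
  rw [hE]; ring

/-- **SUPW2**: removed squares of the primes of `S`. -/
theorem supW_sf : ∀ θ C0 : ℝ, 0 < θ → 0 < C0 → ∃ C : ℝ, 0 < C ∧ ∃ X0 : ℝ, ∀ X : ℝ, X0 ≤ X →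
    ∀ f : ℕ → ℂ, CM f → HalC f θ C0 → ∀ S : Finset ℕ, (∀ p ∈ S, p.Prime) →
    SupW f (sfw S) θ C X := by
  intro θ C0 hθ hC0
  obtain ⟨C, hC, X0, h⟩ := supW_gen θ C0 hθ hC0
  refine ⟨C, hC, X0, fun X hX f hf hH S hS => ?_⟩
  have h1 := h X hX f hf hH S ∅ hS (by simp)
  simpa [free_empty] using h1

/-- **SUPW1**: no weight. -/
theorem supW_one : ∀ θ C0 : ℝ, 0 < θ → 0 < C0 → ∃ C : ℝ, 0 < C ∧ ∃ X0 : ℝ, ∀ X : ℝ, X0 ≤ X →
    ∀ f : ℕ → ℂ, CM f → HalC f θ C0 → SupW f (fun _ => 1) θ C X := by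
  intro θ C0 hθ hC0
  obtain ⟨C, hC, X0, h⟩ := supW_sf θ C0 hθ hC0
  refine ⟨C, hC, X0, fun X hX f hf hH => ?_⟩
  have h1 := h X hX f hf hH ∅ (by simp)
  have e : sfw ∅ = fun _ => 1 := by ext n; exact sfw_empty n
  rwa [e] at h1

/-- `sfw S` does not see the primes outside `S` … -/
theorem sfw_mul_prime {S : Finset ℕ} (hS : ∀ p ∈ S, p.Prime) {p : ℕ} (hp : p.Prime) (hpS : p ∉ S)
    (m : ℕ) : sfw S (p * m) = sfw S m := by
  have h : ∀ r ∈ S, (r ^ 2 ∣ p * m ↔ r ^ 2 ∣ m) := by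
    intro r hr
    constructor
    · intro h
      have hcop : Nat.Coprime (r ^ 2) p := by
        apply Nat.Coprime.pow_left
        rw [Nat.coprime_primes (hS r hr) hp]
        rintro rfl
        exact hpS hr
      exact hcop.dvd_of_dvd_mul_left h
    · intro h; exact h.mul_left p
  unfold sfw
  by_cases hc : ∀ r ∈ S, ¬ r ^ 2 ∣ m
  · rw [if_pos hc, if_pos (fun r hr hh => hc r hr ((h r hr).1 hh))]
  · rw [if_neg hc, if_neg (fun hh => hc fun r hr hrm => hh r hr ((h r hr).2 hrm))]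

end Pool.Agent.MR2
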