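import Pool.Agent.Lib.MR2.NR2
import Pool.Agent.Lib.MR2.StatM
import Pool.Agent.Lib.MR2.SF

/-!
# TANK MR2, stage 2: `NoRunsM ω` from `MRW`, `SieveWinA` and the sup bounds (helper67)
-/

set_option autoImplicit false

namespace Pool.Agent.MR2.NRM

open Finset MeasureTheory Filter Pool.Agent.MRL Pool.Agent.MRF
open Pool.Agent.MR2.NRg Pool.Agent.MR2.NR2

/-- `Σ 1/p² ≤ 1/2` over any finite set of primes. -/
theorem sum_inv_sq_primes (S : Finset ℕ) (hS : ∀ p ∈ S, p.Prime) :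
    ∑ p ∈ S, 1 / (p : ℝ) ^ 2 ≤ 1 / 2 := by
  classical
  obtain ⟨J, hJ⟩ : ∃ J : ℕ, ∀ p ∈ S, p < 2 * J + 3 := by
    refine ⟨∑ p ∈ S, p, fun p hp => ?_⟩
    have h0 : p ≤ ∑ p ∈ S, p := single_le_sum (f := fun p : ℕ => p) (fun _ _ => Nat.zero_le _) hp
    omega
  have hsub : S ⊆ insert 2 ((range J).image fun j => 2 * j + 3) := by
    intro p hp
    rw [mem_insert, mem_image]
    rcases (hS p hp).eq_two_or_odd with h | h
    · exact Or.inl h
    · right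
      have h2 := (hS p hp).two_le
      have h3 := hJ p hp
      refine ⟨(p - 3) / 2, ?_, ?_⟩
      · rw [mem_range]; omega
      · omega
  have htel : ∀ J : ℕ, ∑ j ∈ range J, 1 / ((2 * j + 3 : ℕ) : ℝ) ^ 2 ≤
      1 / 4 - 1 / (4 * ((J : ℝ) + 1)) := by
    intro J
    induction J with
    | zero => simp
    | succ n ih =>
      rw [sum_range_succ]
      have h1 : 1 / ((2 * n + 3 : ℕ) : ℝ) ^ 2 ≤
          1 / (4 * ((n : ℝ) + 1)) - 1 / (4 * ((n : ℝ) + 1 + 1)) := by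
        have h2 : 1 / (4 * ((n : ℝ) + 1)) - 1 / (4 * ((n : ℝ) + 1 + 1)) =
            1 / ((2 * (n : ℝ) + 2) * (2 * n + 4)) := by
          field_simp
          ring
        rw [h2]
        apply one_div_le_one_div_of_le (by positivity)
        push_cast
        nlinarith
      have h3 : ((n + 1 : ℕ) : ℝ) + 1 = (n : ℝ) + 1 + 1 := by push_cast; ring
      rw [h3]
      linarith
  refine (sum_le_sum_of_subset_of_nonneg hsub fun _ _ _ => by positivity).trans ?_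
  have hnot : 2 ∉ (range J).image fun j => 2 * j + 3 := by
    rw [mem_image]
    rintro ⟨j, _, h⟩
    omega
  rw [sum_insert hnot, sum_image (fun a _ b _ h => by
    have h' : 2 * a + 3 = 2 * b + 3 := h
    omega)]
  have h1 := htel J
  have h2 : 0 ≤ 1 / (4 * ((J : ℝ) + 1)) := by positivity
  have h3 : 1 / ((2 : ℕ) : ℝ) ^ 2 = 1 / 4 := by norm_num
  rw [h3]
  linarith

/-- one class in a window, from above -/
theorem cls_le (c M x h : ℕ) (hM : 0 < M) :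
    (((Ico x (x + h)).filter (fun n => n ≡ c [MOD M])).card : ℝ) ≤ (h : ℝ) / M + 1 := by
  have h1 := Nat.Ico_filter_modEq_card (a := x) (b := x + h) hM c
  set k := ((Ico x (x + h)).filter (fun n => n ≡ c [MOD M])).card with hk
  have hMQ : (0 : ℚ) < M := by exact_mod_cast hM
  have e1 : (((x + h : ℕ) : ℚ) - (c : ℚ)) / M = ((x : ℚ) - c) / M + (h : ℚ) / M := by
    push_cast; ring
  rw [e1] at h1
  have c2 := Int.ceil_lt_add_one (((x : ℚ) - c) / M + (h : ℚ) / M)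
  have c3 := Int.le_ceil (((x : ℚ) - c) / M)
  have h3 : (0 : ℚ) ≤ (h : ℚ) / M := by positivity
  have hkQ : (k : ℚ) = max (((⌈((x : ℚ) - c) / M + (h : ℚ) / M⌉ : ℤ) : ℚ)
      - ((⌈((x : ℚ) - c) / M⌉ : ℤ) : ℚ)) 0 := by
    have := congrArg (fun z : ℤ => (z : ℚ)) h1
    push_cast at this
    exact this
  have k2 : (k : ℚ) ≤ (h : ℚ) / M + 1 := by
    rw [hkQ]; refine max_le ?_ ?_ <;> linarith
  have k2' : ((k : ℚ) : ℝ) ≤ (((h : ℚ) / M + 1 : ℚ) : ℝ) := Rat.cast_le.2 k2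
  push_cast at k2'
  exact k2'

/-- one class and a divisibility in a window -/
theorem cls_dvd_le {q a d y m : ℕ} (hq : 0 < q) (hd : 0 < d) (hqd : Nat.Coprime q d) :
    (((Ioc y (y + m)).filter (fun n => n ≡ a [MOD q] ∧ d ∣ n)).card : ℝ) ≤
      (m : ℝ) / (q * d) + 1 := by
  obtain ⟨c, hc1, hc2⟩ := Nat.chineseRemainder hqd a 0
  have h1 : (Ioc y (y + m)).filter (fun n => n ≡ a [MOD q] ∧ d ∣ n) ⊆
      (Ico (y + 1) (y + 1 + m)).filter (fun n => n ≡ c [MOD (q * d)]) := by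
    intro n hn
    rw [mem_filter, mem_Ioc] at hn
    rw [mem_filter, mem_Ico]
    refine ⟨⟨by omega, by omega⟩, ?_⟩
    rw [← Nat.modEq_and_modEq_iff_modEq_mul hqd]
    exact ⟨hn.2.1.trans hc1.symm, (Nat.modEq_zero_iff_dvd.2 hn.2.2).trans hc2.symm⟩
  have h2 := cls_le c (q * d) (y + 1) m (Nat.mul_pos hq hd)
  have h3 : (((Ioc y (y + m)).filter (fun n => n ≡ a [MOD q] ∧ d ∣ n)).card : ℝ) ≤
      (((Ico (y + 1) (y + 1 + m)).filter (fun n => n ≡ c [MOD (q * d)])).card : ℝ) := by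
    exact_mod_cast card_le_card h1
  push_cast at h2
  exact h3.trans h2

/-- the real weight -/
noncomputable def sfr (S : Finset ℕ) (n : ℕ) : ℝ := if ∀ p ∈ S, ¬ p ^ 2 ∣ n then 1 else 0

theorem sfr_cast (S : Finset ℕ) (n : ℕ) : ((sfr S n : ℝ) : ℂ) = sfw S n := by
  unfold sfr sfw
  by_cases h : ∀ p ∈ S, ¬ p ^ 2 ∣ n
  · rw [if_pos h, if_pos h, Complex.ofReal_one]
  · rw [if_neg h, if_neg h, Complex.ofReal_zero]

/-- density of the weight in a window -/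
theorem dens {q a y m : ℕ} (hq : 1 ≤ q) (ha : a.Coprime q) (S : Finset ℕ)
    (hS : ∀ p ∈ S, p.Prime) :
    (m : ℝ) / (2 * q) - 2 - S.card ≤
      (((Ioc y (y + m)).filter fun n => n ≡ a [MOD q] ∧ sfr S n = 1).card : ℝ) := by
  classical
  have hq0 : (1 : ℝ) ≤ q := by exact_mod_cast hq
  have h1 := prog_card_ge (q := q) (a := a) (y := y) (m := m) hq
  set A := (Ioc y (y + m)).filter fun n => n ≡ a [MOD q] with hA
  set B := (Ioc y (y + m)).filter fun n => n ≡ a [MOD q] ∧ sfr S n = 1 with hB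
  set D := S.biUnion fun p => (Ioc y (y + m)).filter fun n => n ≡ a [MOD q] ∧ p ^ 2 ∣ n with hD
  have h2 : A ⊆ B ∪ D := by
    intro n hn
    have hn' := mem_filter.1 hn
    by_cases h : ∀ p ∈ S, ¬ p ^ 2 ∣ n
    · refine mem_union_left _ (mem_filter.2 ⟨hn'.1, hn'.2, ?_⟩)
      unfold sfr
      rw [if_pos h]
    · push Not at h
      obtain ⟨p, hp, hpn⟩ := h
      exact mem_union_right _ (mem_biUnion.2 ⟨p, hp, mem_filter.2 ⟨hn'.1, hn'.2, hpn⟩⟩)
  have h3 : (A.card : ℝ) ≤ B.card + D.card := by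
    exact_mod_cast (card_le_card h2).trans (card_union_le _ _)
  have h4 : (D.card : ℝ) ≤ ∑ p ∈ S, ((m : ℝ) / q * (1 / (p : ℝ) ^ 2) + 1) := by
    have h40 : (D.card : ℝ) ≤ ∑ p ∈ S, (((Ioc y (y + m)).filter fun n =>
        n ≡ a [MOD q] ∧ p ^ 2 ∣ n).card : ℝ) := by
      have := card_biUnion_le (s := S)
        (t := fun p => (Ioc y (y + m)).filter fun n => n ≡ a [MOD q] ∧ p ^ 2 ∣ n)
      exact_mod_cast this
    refine h40.trans ?_
    refine sum_le_sum fun p hp => ?_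
    have hpp := hS p hp
    by_cases hpq : p ∣ q
    · have h5 : (Ioc y (y + m)).filter (fun n => n ≡ a [MOD q] ∧ p ^ 2 ∣ n) = ∅ := by
        rw [filter_eq_empty_iff]
        rintro n _ ⟨h6, h7⟩
        have h8 : p ∣ n := (dvd_pow_self p two_ne_zero).trans h7
        have h9 : p ∣ a := (((h6.of_dvd hpq).dvd_iff (dvd_refl p)).1 h8)
        exact hpp.one_lt.ne' (Nat.dvd_one.1 (ha ▸ Nat.dvd_gcd h9 hpq))
      rw [h5, card_empty, Nat.cast_zero]
      positivity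
    · have hcop : Nat.Coprime q (p ^ 2) :=
        (((Nat.Prime.coprime_iff_not_dvd hpp).2 hpq).symm).pow_right 2
      have h5 := cls_dvd_le (q := q) (a := a) (d := p ^ 2) (y := y) (m := m) (by omega)
        (pow_pos hpp.pos 2) hcop
      refine h5.trans (le_of_eq ?_)
      push_cast
      have : (p : ℝ) ≠ 0 := by exact_mod_cast hpp.ne_zero
      field_simp
  rw [sum_add_distrib, ← mul_sum, sum_const, nsmul_eq_mul, mul_one] at h4
  have h5 : (m : ℝ) / q * ∑ p ∈ S, 1 / (p : ℝ) ^ 2 ≤ (m : ℝ) / q * (1 / 2) :=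
    mul_le_mul_of_nonneg_left (sum_inv_sq_primes S hS) (by positivity)
  have h6 : ((m : ℝ) - 2 * q) / q = (m : ℝ) / q - 2 := by
    field_simp
  have h7 : (m : ℝ) / (2 * q) = (m : ℝ) / q * (1 / 2) := by
    field_simp
  rw [h6] at h1
  rw [h7]
  have h8 : (m : ℝ) / q * (1 / 2) = (m : ℝ) / q - (m : ℝ) / q * (1 / 2) := by ring
  linarith

open Classical in
/-- few integers are divisible by the square of a large integer -/
theorem sq_large {N : ℕ} {z : ℝ} (hz : 1 ≤ z) :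
    (((Icc 1 N).filter fun n => ∃ p : ℕ, z < p ∧ p ^ 2 ∣ n).card : ℝ) ≤ 2 * N / z := by
  have hz0 : 0 < z := by linarith
  set k0 : ℕ := ⌊z⌋₊ with hk0
  have hk1 : 1 ≤ k0 := Nat.one_le_floor_iff _ |>.2 hz
  have hkz : z < k0 + 1 := Nat.lt_floor_add_one z
  have hkz2 : (k0 : ℝ) ≤ z := Nat.floor_le hz0.le
  have h1 : ((Icc 1 N).filter fun n => ∃ p : ℕ, z < p ∧ p ^ 2 ∣ n) ⊆
      (range (N + 1)).biUnion fun j => (Icc 1 N).filter fun n => (k0 + 1 + j) ^ 2 ∣ n := by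
    intro n hn
    obtain ⟨hn1, p, hp1, hp2⟩ := mem_filter.1 hn
    have hnI := mem_Icc.1 hn1
    have hpk : k0 < p := (Nat.floor_lt hz0.le).2 hp1
    have hpn : p ≤ n := by
      have h2 := Nat.le_of_dvd (by omega) hp2
      nlinarith
    refine mem_biUnion.2 ⟨p - (k0 + 1), mem_range.2 (by omega), mem_filter.2 ⟨hn1, ?_⟩⟩
    have : k0 + 1 + (p - (k0 + 1)) = p := by omega
    rw [this]
    exact hp2
  have h2 : (((Icc 1 N).filter fun n => ∃ p : ℕ, z < p ∧ p ^ 2 ∣ n).card : ℝ) ≤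
      ∑ j ∈ range (N + 1), (N : ℝ) * (1 / (((k0 : ℝ) + 1) + j) ^ 2) := by
    have h20 : (((Icc 1 N).filter fun n => ∃ p : ℕ, z < p ∧ p ^ 2 ∣ n).card : ℝ) ≤
        ∑ j ∈ range (N + 1), (((Icc 1 N).filter fun n => (k0 + 1 + j) ^ 2 ∣ n).card : ℝ) := by
      have := (card_le_card h1).trans card_biUnion_le
      exact_mod_cast this
    refine h20.trans ?_
    refine sum_le_sum fun j _ => ?_
    have h3 : ((Icc 1 N).filter fun n => (k0 + 1 + j) ^ 2 ∣ n).card = N / (k0 + 1 + j) ^ 2 := by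
      have := Nat.Ioc_filter_dvd_card_eq_div N ((k0 + 1 + j) ^ 2)
      exact this
    rw [h3]
    have h4 : ((N / (k0 + 1 + j) ^ 2 : ℕ) : ℝ) ≤ (N : ℝ) / (((k0 + 1 + j) ^ 2 : ℕ) : ℝ) :=
      Nat.cast_div_le
    refine h4.trans (le_of_eq ?_)
    push_cast
    ring
  refine h2.trans ?_
  rw [← mul_sum]
  have hk2 : (1 : ℝ) < (k0 : ℝ) + 1 := by
    have : (1 : ℝ) ≤ k0 := by exact_mod_cast hk1
    linarith
  have h5 := Pool.Agent.MRL.NR.sum_inv_sq_le hk2 (N + 1)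
  have h6 : 0 ≤ 1 / ((k0 : ℝ) + 1 - 1 + ((N + 1 : ℕ) : ℝ)) := by
    have : (0 : ℝ) ≤ k0 := Nat.cast_nonneg _
    have : (0 : ℝ) ≤ ((N + 1 : ℕ) : ℝ) := Nat.cast_nonneg _
    apply div_nonneg zero_le_one
    linarith
  have h7 : 1 / ((k0 : ℝ) + 1 - 1) ≤ 2 / z := by
    have hk3 : (1 : ℝ) ≤ k0 := by exact_mod_cast hk1
    rw [add_sub_cancel_right, div_le_div_iff₀ (by linarith) hz0]
    linarith
  calc (N : ℝ) * ∑ j ∈ range (N + 1), 1 / (((k0 : ℝ) + 1) + j) ^ 2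
      ≤ N * (2 / z) := mul_le_mul_of_nonneg_left (by linarith) (Nat.cast_nonneg _)
    _ = 2 * N / z := by ring

/-- **Row M_NRM.** -/
theorem noRunsM (hM : MRW) (hS : SieveWinA)
    (hSup : ∀ (q : ℕ) [NeZero q], ∃ C : ℝ, 0 < C ∧ ∃ X0 : ℝ, ∀ X : ℝ, X0 ≤ X →
      ∀ χ : DirichletCharacter ℂ q, ∀ S : Finset ℕ, (∀ p ∈ S, p.Prime) →
      SupW (lamChi χ) (sfw S) (1 / 80) C X) :
    ∃ ω : ℝ, 0 < ω ∧ NoRunsM ω := by
  classical
  obtain ⟨CS, hCS, hS⟩ := hS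
  set K : ℝ := 200 * CS + 1 with hK
  obtain ⟨κ, hκ, a', ha', hM⟩ := hM (1 / 80) (1 / 32) K (by norm_num) (by norm_num) (by norm_num)
    (by norm_num) (by rw [hK]; linarith)
  set κ' : ℝ := min κ (1 / 128) with hκ'
  have hκ0 : 0 < κ' := lt_min hκ (by norm_num)
  have hκ1 : κ' ≤ κ := min_le_left _ _
  have hκ2 : κ' ≤ 1 / 128 := min_le_right _ _
  set b' : ℝ := min a' κ' with hb'
  have hb0 : 0 < b' := lt_min ha' hκ0
  have hb1 : b' ≤ a' := min_le_left _ _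
  have hb2 : b' ≤ κ' := min_le_right _ _
  set ε' : ℝ := b' / 2 with hε'
  have hε0 : 0 < ε' := by rw [hε']; linarith
  have hε2 : ε' ≤ 1 / 256 := by rw [hε']; linarith
  refine ⟨b' / 4, by linarith, ?_⟩
  intro q a hq ha
  haveI : NeZero q := ⟨by omega⟩
  have hq0 : (1 : ℝ) ≤ q := by exact_mod_cast hq
  obtain ⟨C0, hC0, XS, hXS⟩ := hSup q
  obtain ⟨XM, hXM⟩ := hM C0 hC0
  set τ : ℝ := (Fintype.card (DirichletCharacter ℂ q) : ℝ) with hτ
  set D : ℝ := 132000 * q + 32400 * q ^ 2 * τ ^ 2 with hD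
  have hD0 : 0 < D := by positivity
  -- conditions on `l = log X`
  have hev : ∀ᶠ l : ℝ in atTop, 10 ≤ l ^ (1 / 32 : ℝ) ∧
      410003 * q ≤ l ^ ε' ∧ l ^ (1 / 32 + ε') ≤ 1 / 4 * l ^ (1 / 16 : ℝ) ∧ 4 ≤ l ^ (1 / 16 : ℝ) ∧
      (q : ℝ) < l ^ κ ∧ l ^ (1 / 64 : ℝ) ≤ 3 / q * l ^ (1 / 32 : ℝ) ∧
      l ^ (-(b' / 2)) ≤ 1 / D * l ^ (-(b' / 4)) ∧
      l ^ κ' ≤ 1 / (200 * q) * l ^ (1 / 32 : ℝ) ∧ (q : ℝ) ≤ 1 / 200 * l ^ (1 / 32 : ℝ) ∧
      1 ≤ l := by
    have e1 := ev_ge (show (0 : ℝ) < 1 / 32 by norm_num) 10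
    have e2 := ev_ge hε0 (410003 * q)
    have e3 := ev_pow (show 1 / 32 + ε' < (1 / 16 : ℝ) by linarith)
      (show (0 : ℝ) < 1 / 4 by norm_num)
    have e4 := ev_ge (show (0 : ℝ) < 1 / 16 by norm_num) 4
    have e5 := ev_ge hκ (q + 1)
    have e6 := ev_pow (show (1 / 64 : ℝ) < 1 / 32 by norm_num) (show (0 : ℝ) < 3 / q by positivity)
    have e7 := ev_pow (show -(b' / 2) < -(b' / 4) by linarith) (show (0 : ℝ) < 1 / D by positivity)
    have e8 := ev_pow (show κ' < (1 / 32 : ℝ) by linarith)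
      (show (0 : ℝ) < 1 / (200 * q) by positivity)
    have e9 := ev_ge (show (0 : ℝ) < 1 / 32 by norm_num) (200 * q)
    filter_upwards [e1, e2, e3, e4, e5, e6, e7, e8, e9, eventually_ge_atTop 1]
      with l h1 h2 h3 h4 h5 h6 h7 h8 h9 h10
    exact ⟨h1, h2, h3, h4, by linarith, h6, h7, h8, by linarith, h10⟩
  have hevX : ∀ᶠ X : ℝ in atTop, (10 ≤ (Real.log X) ^ (1 / 32 : ℝ) ∧
      410003 * q ≤ (Real.log X) ^ ε' ∧
      (Real.log X) ^ (1 / 32 + ε') ≤ 1 / 4 * (Real.log X) ^ (1 / 16 : ℝ) ∧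
      4 ≤ (Real.log X) ^ (1 / 16 : ℝ) ∧
      (q : ℝ) < (Real.log X) ^ κ ∧
      (Real.log X) ^ (1 / 64 : ℝ) ≤ 3 / q * (Real.log X) ^ (1 / 32 : ℝ) ∧
      (Real.log X) ^ (-(b' / 2)) ≤ 1 / D * (Real.log X) ^ (-(b' / 4)) ∧
      (Real.log X) ^ κ' ≤ 1 / (200 * q) * (Real.log X) ^ (1 / 32 : ℝ) ∧
      (q : ℝ) ≤ 1 / 200 * (Real.log X) ^ (1 / 32 : ℝ) ∧ 1 ≤ Real.log X) ∧
      40 * Real.log X ≤ X ∧ 1 ≤ X ∧ XS ≤ X ∧ XM ≤ X := by
    have e1 := Real.tendsto_log_atTop.eventually hev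
    have e2 : ∀ᶠ X : ℝ in atTop, 40 * Real.log X ≤ X := by
      have h1 := Real.isLittleO_log_id_atTop.bound (show (0 : ℝ) < 1 / 40 by norm_num)
      filter_upwards [h1, eventually_ge_atTop 1] with X h2 h3
      rw [Real.norm_of_nonneg (Real.log_nonneg h3), id, Real.norm_of_nonneg (by linarith)] at h2
      linarith
    filter_upwards [e1, e2, eventually_ge_atTop 1, eventually_ge_atTop XS,
      eventually_ge_atTop XM] with X h1 h2 h3 h4 h5
    exact ⟨h1, h2, h3, h4, h5⟩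
  obtain ⟨X0, hX0⟩ := eventually_atTop.1 hevX
  refine ⟨X0, fun X hX w hwin R hR => ?_⟩
  obtain ⟨⟨c1, c2, c3, c4, c5, c6, c7, c8, c8', c9⟩, c10, c11, c12, c13⟩ := hX0 X hX
  set l : ℝ := Real.log X with hl
  set h : ℝ := l ^ (1 / 32 : ℝ) with hh
  have hl0 : 0 < l := by linarith
  have hXpos : 0 < X := by linarith
  have hh1 : 1 ≤ h := by linarith
  -- `L`
  set L : ℕ := ⌈l ^ (1 / 32 + ε')⌉₊ with hLd
  have hpow : l ^ (1 / 32 + ε') = h * l ^ ε' := Real.rpow_add hl0 _ _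
  have hLge : h * l ^ ε' ≤ L := by
    rw [← hpow]
    exact Nat.le_ceil _
  have hLlt : (L : ℝ) < h * l ^ ε' + 1 := by
    rw [← hpow]
    exact Nat.ceil_lt_add_one (Real.rpow_nonneg hl0.le _)
  have hlε : 0 < l ^ ε' := Real.rpow_pos_of_pos hl0 _
  have hL1 : 410000 * ((q : ℝ) * h) + 2 ≤ L := by nlinarith
  have hL2 : (2 * L : ℝ) ≤ w := by
    have h1 : (2 * L : ℝ) ≤ l ^ (1 / 16 : ℝ) := by
      rw [hpow] at c3
      linarith
    exact h1.trans hwin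
  have h18 : l ^ (1 / 16 : ℝ) ≤ l := by
    calc l ^ (1 / 16 : ℝ) ≤ l ^ (1 : ℝ) := Real.rpow_le_rpow_of_exponent_le c9 (by norm_num)
      _ = l := Real.rpow_one l
  have h16 : h ≤ l := by
    calc l ^ (1 / 32 : ℝ) ≤ l ^ (1 : ℝ) := Real.rpow_le_rpow_of_exponent_le c9 (by norm_num)
      _ = l := Real.rpow_one l
  have hXL : 4 * ((L : ℝ) + 4 * h + 4) ≤ X := by
    rw [hpow] at c3
    linarith
  -- the weight
  set z : ℝ := l ^ κ' with hz
  have hz1 : 1 ≤ z := Real.one_le_rpow c9 hκ0.le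
  have hzκ : z ≤ l ^ κ := Real.rpow_le_rpow_of_exponent_le c9 hκ1
  set S : Finset ℕ := (Icc 1 ⌊z⌋₊).filter Nat.Prime with hSd
  have hSp : ∀ p ∈ S, p.Prime := fun p hp => (mem_filter.1 hp).2
  have hScard : (S.card : ℝ) ≤ z := by
    have h1 : S.card ≤ ⌊z⌋₊ := by
      have h2 := card_filter_le (Icc 1 ⌊z⌋₊) Nat.Prime
      rw [Nat.card_Icc, Nat.add_sub_cancel] at h2
      exact h2
    calc (S.card : ℝ) ≤ (⌊z⌋₊ : ℝ) := by exact_mod_cast h1
      _ ≤ z := Nat.floor_le (by linarith)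
  have hw01 : ∀ n, sfr S n = 0 ∨ sfr S n = 1 := by
    intro n
    unfold sfr
    by_cases h : ∀ p ∈ S, ¬ p ^ 2 ∣ n
    · right; rw [if_pos h]
    · left; rw [if_neg h]
  -- the scales
  obtain ⟨s, hs1, hs2, hs3, hs4⟩ := hXM X c13
  set E1 : Finset ℕ := (Icc 1 ⌊16 * X⌋₊).filter fun n => hit s.P2 n * hit s.P3 n ≠ 1 with hE1d
  set E2 : Finset ℕ := (Icc 1 ⌊16 * X⌋₊).filter fun n => ∃ p : ℕ, z < p ∧ p ^ 2 ∣ n with hE2d
  set Ex : Finset ℕ := E1 ∪ E2 with hExd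
  have hExc : (Ex.card : ℝ) ≤ 33 * (X * l ^ (-b')) := by
    have h1 : (Ex.card : ℝ) ≤ E1.card + E2.card := by exact_mod_cast card_union_le _ _
    have h2 : (E2.card : ℝ) ≤ 2 * (⌊16 * X⌋₊ : ℝ) / z := by
      exact sq_large (N := ⌊16 * X⌋₊) hz1
    have h3 : (⌊16 * X⌋₊ : ℝ) ≤ 16 * X := Nat.floor_le (by positivity)
    have h4 : 2 * (⌊16 * X⌋₊ : ℝ) / z ≤ 32 * (X * l ^ (-b')) := by
      have h5 : 1 / z ≤ l ^ (-b') := by
        rw [hz, one_div, ← Real.rpow_neg hl0.le]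
        exact Real.rpow_le_rpow_of_exponent_le c9 (by linarith)
      calc 2 * (⌊16 * X⌋₊ : ℝ) / z ≤ 2 * (16 * X) / z := by gcongr
        _ = 32 * X * (1 / z) := by ring
        _ ≤ 32 * X * l ^ (-b') := by gcongr
        _ = 32 * (X * l ^ (-b')) := by ring
    have h5 : X * l ^ (-a') ≤ X * l ^ (-b') :=
      mul_le_mul_of_nonneg_left (Real.rpow_le_rpow_of_exponent_le c9 (by linarith)) hXpos.le
    linarith
  have hP1 : ∀ p ∈ s.P1, p.Prime := fun p hp => Pool.Agent.MRL.DC.prime_of_mem_PP hp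
  set m : ℕ := ⌊4 * h⌋₊ with hm
  have hm1 : (m : ℝ) ≤ 4 * h := Nat.floor_le (by positivity)
  have hm2 : 4 * h - 1 < m := Nat.sub_one_lt_floor _
  -- energy
  have hen : ∀ χ : DirichletCharacter ℂ q, ∀ Y : ℝ, X / 8 ≤ Y → Y ≤ 8 * X → ∀ T : ℝ, 1 ≤ T →
      T ≤ Y / h → ∫ t : ℝ, ‖AF (fun n => (lamChi χ n * ((sfr S n : ℝ) : ℂ)) * s.b n)
        Y t‖ ^ 2 * g T t ≤ l ^ (-a') := by
    intro χ Y h1 h2 T h3 h4
    have h5 := hs4 (lamChi χ) (cm_lamChi χ) (sfw S) (norm_sfw_le S)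
      (fun p hp hpκ k _ => sfw_mul_prime hSp hp (fun hpS => by
        have h6 := (mem_Icc.1 (mem_filter.1 hpS).1).2
        have h7 : (p : ℝ) ≤ z := (Nat.le_floor_iff (by linarith)).1 h6
        linarith) k) (hXS X c12 χ S hSp) Y h1 h2 T h3 h4
    simp only [sfr_cast]
    exact h5
  -- the progression
  have hDens : ∀ y : ℕ, 0.45 * (m : ℝ) / q ≤
      (((Ioc y (y + m)).filter fun n => n ≡ a [MOD q] ∧ sfr S n = 1).card : ℝ) := by
    intro y
    have h1 := dens (q := q) (a := a) (y := y) (m := m) hq ha S hSp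
    refine le_trans ?_ h1
    have h2 : (m : ℝ) / (2 * q) - 2 - S.card ≥ (m : ℝ) / (2 * q) - 2 - 1 / (200 * q) * h := by
      linarith
    refine le_trans ?_ h2
    have h3 : (2 : ℝ) ≤ h / (100 * q) := by
      rw [le_div_iff₀ (by positivity)]
      linarith
    have h4 : 0.45 * (m : ℝ) / q = (m : ℝ) / (2 * q) - 0.05 * m / q := by
      field_simp
      ring
    have h5 : h / (100 * q) + 1 / (200 * q) * h ≤ 0.05 * (m : ℝ) / q := by
      have h6 : h / (100 * q) + 1 / (200 * q) * h = (0.015 * h) / q := by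
        field_simp
        norm_num
      rw [h6]
      apply div_le_div_of_nonneg_right _ (by linarith)
      linarith
    rw [h4]
    linarith
  -- few integers free of `P1`
  have hfree : ∀ y : ℕ, (((Ioc y (y + m)).filter fun n => n ≡ a [MOD q] ∧
      ∀ p ∈ s.P1, ¬ p ∣ n).card : ℝ) ≤ 0.01 * (m : ℝ) / q := by
    intro y
    have h1 : Ioc y (y + m) = Ico (y + 1) (y + 1 + m) := by
      ext n
      rw [mem_Ioc, mem_Ico]
      omega
    rw [h1]
    have hsum : 0 < ∑ p ∈ s.P1, 1 / (p : ℝ) := by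
      have : 1 ≤ K := by rw [hK]; linarith
      linarith
    have h2 := hS q a m (y + 1) hq s.P1 (fun p hp => by
      obtain ⟨h3, h4⟩ := hs1 p hp
      refine ⟨hP1 p hp, ?_, ?_⟩
      · intro hdvd
        have h5 : p ≤ q := Nat.le_of_dvd (by omega) hdvd
        have h6 : (p : ℝ) ≤ q := by exact_mod_cast h5
        linarith
      · have h5 : (p : ℝ) ^ 2 ≤ l ^ (1 / 64 : ℝ) := by
          calc (p : ℝ) ^ 2 ≤ (l ^ ((1 / 32 : ℝ) / 4)) ^ 2 :=
                pow_le_pow_left₀ (Nat.cast_nonneg _) h4 2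
            _ = l ^ (1 / 64 : ℝ) := by
              rw [← Real.rpow_natCast, ← Real.rpow_mul hl0.le]
              norm_num
        have h6 : (q : ℝ) * (p : ℝ) ^ 2 ≤ m := by
          calc (q : ℝ) * (p : ℝ) ^ 2 ≤ q * (3 / q * h) :=
                mul_le_mul_of_nonneg_left (h5.trans c6) (by linarith)
            _ = 3 * h := by field_simp
            _ ≤ m := by linarith
        exact_mod_cast h6) hsum
    refine h2.trans ?_
    rw [div_le_iff₀ hsum]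
    have h3 : 0.01 * (m : ℝ) / q * K ≤ 0.01 * (m : ℝ) / q * ∑ p ∈ s.P1, 1 / (p : ℝ) :=
      mul_le_mul_of_nonneg_left hs2 (by positivity)
    refine le_trans ?_ h3
    have h4 : 0.01 * (m : ℝ) / q * K = (0.01 * K) * ((m : ℝ) / q) := by ring
    rw [h4]
    apply mul_le_mul_of_nonneg_right _ (by positivity)
    rw [hK]
    linarith
  have hExm : ∀ n : ℕ, 1 ≤ n → (n : ℝ) ≤ 16 * X → n ∉ Ex →
      (∃ p ∈ s.P2, p ∣ n) ∧ ∃ p ∈ s.P3, p ∣ n := by
    intro n h1 h2 h3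
    have h4 : hit s.P2 n * hit s.P3 n = 1 := by
      by_contra hcon
      exact h3 (mem_union_left _ (mem_filter.2 ⟨mem_Icc.2 ⟨h1, Nat.le_floor h2⟩, hcon⟩))
    constructor
    · by_contra hcon
      have : hit s.P2 n = 0 := by unfold hit; rw [if_neg hcon]
      rw [this, zero_mul] at h4
      exact zero_ne_one h4
    · by_contra hcon
      have : hit s.P3 n = 0 := by unfold hit; rw [if_neg hcon]
      rw [this, mul_zero] at h4
      exact zero_ne_one h4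
  have hsqf : ∀ n : ℕ, 1 ≤ n → (n : ℝ) ≤ 16 * X → sfr S n = 1 → n ∉ Ex → Squarefree n := by
    intro n h1 h2 h3 h4
    rw [Nat.squarefree_iff_prime_squarefree]
    intro p hp hpn
    have hpn' : p ^ 2 ∣ n := by rw [sq]; exact hpn
    by_cases hpz : (p : ℝ) ≤ z
    · have hpS : p ∈ S :=
        mem_filter.2 ⟨mem_Icc.2 ⟨hp.one_lt.le, Nat.le_floor hpz⟩, hp⟩
      have h5 : sfr S n = 0 := by
        unfold sfr
        rw [if_neg]
        intro hcon
        exact hcon p hpS hpn'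
      rw [h5] at h3
      exact zero_ne_one h3
    · exact h4 (mem_union_right _ (mem_filter.2 ⟨mem_Icc.2 ⟨h1, Nat.le_floor h2⟩, p,
        not_le.1 hpz, hpn'⟩))
  have hmain := runs_gen (q := q) (a := a) ha s (sfr S) hw01
    (X := X) (h := h) (ε := l ^ (-a')) (L := L) c1 hXL hL1 (Real.rpow_nonneg hl0.le _) hen hDens
    hfree Ex hExm R (fun x hx => by
      obtain ⟨hx1, hx2, hx3⟩ := hR x hx
      refine ⟨hx1, hx2, ?_⟩
      intro u v h1 h2 h3 h4 h5 h6 h7 h8 h9 h10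
      have h2L : 2 * L ≤ w := by exact_mod_cast hL2
      have hrange : ∀ n : ℕ, x ≤ n → n < x + 2 * L → 1 ≤ n ∧ (n : ℝ) ≤ 16 * X := by
        intro n hn1 hn2
        have e1 : (x : ℝ) ≤ n := by exact_mod_cast hn1
        have e2 : (n : ℝ) < x + 2 * L := by exact_mod_cast hn2
        refine ⟨?_, by linarith⟩
        have : (1 : ℝ) ≤ n := by linarith
        exact_mod_cast this
      obtain ⟨i, rfl⟩ := Nat.exists_eq_add_of_le h1
      obtain ⟨j, rfl⟩ := Nat.exists_eq_add_of_le h3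
      have hr1 := hrange (x + i) h1 h2
      have hr2 := hrange (x + j) h3 h4
      exact hx3 i (by omega) j (by omega) h5 (hsqf _ hr1.1 hr1.2 h7 h9) h6
        (hsqf _ hr2.1 hr2.2 h8 h10))
  -- bookkeeping
  have hLh : 2 * (L : ℝ) * (1000 * q / h) ≤ 4000 * q * l ^ ε' := by
    have h1 : (L : ℝ) ≤ 2 * (h * l ^ ε') := by nlinarith
    calc 2 * (L : ℝ) * (1000 * q / h) ≤ 2 * (2 * (h * l ^ ε')) * (1000 * q / h) := by gcongr
      _ = 4000 * q * l ^ ε' := by field_simp; ring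
  have hfin : (R.card : ℝ) ≤ D * l ^ (-(b' / 2)) * X := by
    have h1 : 2 * (L : ℝ) * (1000 * q / h) * Ex.card ≤
        4000 * q * l ^ ε' * (33 * (X * l ^ (-b'))) :=
      mul_le_mul hLh hExc (Nat.cast_nonneg _) (by positivity)
    have h2 : l ^ ε' * l ^ (-b') ≤ l ^ (-(b' / 2)) := by
      rw [← Real.rpow_add hl0]
      apply Real.rpow_le_rpow_of_exponent_le c9
      linarith
    have h3 : l ^ (-a') ≤ l ^ (-(b' / 2)) :=
      Real.rpow_le_rpow_of_exponent_le c9 (by linarith)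
    have h4 : 4000 * (q : ℝ) * l ^ ε' * (33 * (X * l ^ (-b'))) ≤
        132000 * q * l ^ (-(b' / 2)) * X := by
      have h5 := mul_le_mul_of_nonneg_left h2 (show 0 ≤ 132000 * (q : ℝ) * X by positivity)
      nlinarith
    have h5 : 32400 * (q : ℝ) ^ 2 * τ ^ 2 * l ^ (-a') * X ≤
        32400 * q ^ 2 * τ ^ 2 * l ^ (-(b' / 2)) * X := by gcongr
    calc (R.card : ℝ) ≤ _ := hmain
      _ ≤ 132000 * q * l ^ (-(b' / 2)) * X + 32400 * q ^ 2 * τ ^ 2 * l ^ (-(b' / 2)) * X := by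
        linarith
      _ = D * l ^ (-(b' / 2)) * X := by rw [hD]; ring
  calc (R.card : ℝ) ≤ D * l ^ (-(b' / 2)) * X := hfin
    _ ≤ D * (1 / D * l ^ (-(b' / 4))) * X := by gcongr
    _ = X / l ^ (b' / 4) := by
      rw [Real.rpow_neg hl0.le]
      field_simp

end Pool.Agent.MR2.NRM
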