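import Pool.Agent.Lib.MR2.NRW

/-! TANK MR2, runs, part 2: `lam` is rarely constant on a class mod `q` in a window, with a weight,
from the mean squares of `lam χ w₀ b` for all characters mod `q`. helper88. -/

set_option autoImplicit false

namespace Pool.Agent.MR2.NR

open Finset MeasureTheory Pool.Agent.MRL Pool.Agent.MRF Pool.Agent.MRHal

theorem sum_shift {M : Type*} [AddCommMonoid M] (F : ℕ → M) (x h : ℕ) :
    ∑ j ∈ Icc 1 h, F (x + j) = ∑ n ∈ Ioc x (x + h), F n := by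
  refine Finset.sum_bij (fun j _ => x + j) ?_ ?_ ?_ ?_
  · intro j hj
    rw [Finset.mem_Icc] at hj
    rw [Finset.mem_Ioc]
    omega
  · intro j _ j' _ h1
    omega
  · intro n hn
    rw [Finset.mem_Ioc] at hn
    exact ⟨n - x, by rw [Finset.mem_Icc]; omega, by omega⟩
  · intro j _
    rfl

/-- first moment of an exceptional set over the windows -/
theorem first_moment (U : ℕ → Prop) [DecidablePred U] {A B N h : ℕ} (hN : B + h ≤ N) :
    ∑ x ∈ Icc A B, ((Ioc x (x + h)).filter U).card ≤ h * ((Icc 1 N).filter U).card := by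
  have h1 : ∀ x ∈ Icc A B, ((Ioc x (x + h)).filter U).card =
      ∑ j ∈ Icc 1 h, if U (x + j) then 1 else 0 := by
    intro x _
    rw [Finset.card_filter, sum_shift (fun n => if U n then 1 else 0)]
  rw [Finset.sum_congr rfl h1, Finset.sum_comm]
  have h2 : ∀ j ∈ Icc 1 h, ∑ x ∈ Icc A B, (if U (x + j) then 1 else 0) ≤
      ((Icc 1 N).filter U).card := by
    intro j hj
    rw [Finset.mem_Icc] at hj
    rw [← Finset.card_filter]
    refine Finset.card_le_card_of_injOn (fun x => x + j) ?_ ?_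
    · intro x hx
      rw [Finset.mem_coe, Finset.mem_filter, Finset.mem_Icc] at hx
      rw [Finset.mem_coe, Finset.mem_filter, Finset.mem_Icc]
      obtain ⟨⟨h3, h4⟩, h5⟩ := hx
      have h6 : 1 ≤ x + j ∧ x + j ≤ N := by omega
      exact ⟨h6, h5⟩
    · intro x _ y _ hxy
      exact Nat.add_right_cancel hxy
  refine (Finset.sum_le_card_nsmul _ _ _ h2).trans ?_
  rw [Nat.card_Icc, smul_eq_mul]
  simp

/-- orthogonality of the characters in a window -/
theorem ortho {q : ℕ} [NeZero q] {a : ℕ} (ha : a.Coprime q) (v : ℕ → ℂ) (x h : ℕ) :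
    ∑ χ : DirichletCharacter ℂ q, χ ((a : ZMod q)⁻¹) *
      ∑ n ∈ Ioc x (x + h), lamChi χ n * v n =
    (q.totient : ℂ) * ∑ n ∈ (Ioc x (x + h)).filter (fun n => n ≡ a [MOD q]),
      ((lam n : ℝ) : ℂ) * v n := by
  have hu : IsUnit (a : ZMod q) := (ZMod.isUnit_iff_coprime a q).2 ha
  have h1 : ∀ χ : DirichletCharacter ℂ q, χ ((a : ZMod q)⁻¹) *
      ∑ n ∈ Ioc x (x + h), lamChi χ n * v n =
      ∑ n ∈ Ioc x (x + h), ((lam n : ℝ) : ℂ) * v n * (χ ((a : ZMod q)⁻¹) * χ (n : ZMod q)) := by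
    intro χ
    rw [Finset.mul_sum]
    refine Finset.sum_congr rfl fun n hn => ?_
    rw [Finset.mem_Ioc] at hn
    rw [show lamChi χ n = ((lam n : ℝ) : ℂ) * χ n from if_neg (by omega)]
    ring
  rw [Finset.sum_congr rfl fun χ _ => h1 χ, Finset.sum_comm, Finset.mul_sum, Finset.sum_filter]
  refine Finset.sum_congr rfl fun n _ => ?_
  rw [← Finset.mul_sum, DirichletCharacter.sum_char_inv_mul_char_eq ℂ hu (n : ZMod q)]
  by_cases h2 : n ≡ a [MOD q]
  · rw [if_pos h2, if_pos ((ZMod.natCast_eq_natCast_iff _ _ _).2 h2).symm]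
    ring
  · rw [if_neg h2, if_neg (fun h' => h2 ((ZMod.natCast_eq_natCast_iff _ _ _).1 h').symm)]
    ring

/-- the integers of a class in a window at which the weight is one -/
noncomputable def cls (q a : ℕ) (w₀ : ℕ → ℂ) (x h : ℕ) : Finset ℕ :=
  open Classical in (Ioc x (x + h)).filter fun n => n ≡ a [MOD q] ∧ w₀ n = 1

theorem mem_cls {q a : ℕ} {w₀ : ℕ → ℂ} {x h n : ℕ} :
    n ∈ cls q a w₀ x h ↔ (x < n ∧ n ≤ x + h) ∧ n ≡ a [MOD q] ∧ w₀ n = 1 := by
  classical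
  unfold cls
  rw [Finset.mem_filter, Finset.mem_Ioc]

/-- a constant sign gives a large sum -/
theorem card_of_const {q a x h : ℕ} {w₀ b : ℕ → ℂ} (hw₀ : ∀ n, w₀ n = 0 ∨ w₀ n = 1)
    (hb : ∀ n, b n = 0 ∨ b n = 1) (hc : ∀ m ∈ cls q a w₀ x h, ∀ n ∈ cls q a w₀ x h,
      lam m = lam n) :
    ‖∑ n ∈ (Ioc x (x + h)).filter (fun n => n ≡ a [MOD q]), ((lam n : ℝ) : ℂ) * (w₀ n * b n)‖ =
      (open Classical in ((cls q a w₀ x h).filter fun n => b n = 1).card : ℝ) := by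
  classical
  obtain ⟨σ, hσ, hσ'⟩ : ∃ σ : ℝ, |σ| = 1 ∧ ∀ n ∈ cls q a w₀ x h, lam n = σ := by
    rcases (cls q a w₀ x h).eq_empty_or_nonempty with h0 | ⟨n₀, h0⟩
    · exact ⟨1, abs_one, fun n hn => by rw [h0] at hn; simp at hn⟩
    · exact ⟨lam n₀, Pool.Agent.MRL.NR.lam_abs n₀, fun n hn => hc n hn n₀ h0⟩
  have h1 : ∑ n ∈ (Ioc x (x + h)).filter (fun n => n ≡ a [MOD q]),
      ((lam n : ℝ) : ℂ) * (w₀ n * b n) =
      ∑ n ∈ (cls q a w₀ x h).filter (fun n => b n = 1), ((σ : ℝ) : ℂ) := by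
    have h2 : (cls q a w₀ x h).filter (fun n => b n = 1) ⊆
        (Ioc x (x + h)).filter (fun n => n ≡ a [MOD q]) := by
      intro n hn
      rw [Finset.mem_filter, mem_cls] at hn
      rw [Finset.mem_filter, Finset.mem_Ioc]
      exact ⟨hn.1.1, hn.1.2.1⟩
    rw [← Finset.sum_subset h2]
    · refine Finset.sum_congr rfl fun n hn => ?_
      rw [Finset.mem_filter] at hn
      rw [hσ' n hn.1, hn.2, (mem_cls.1 hn.1).2.2, mul_one, mul_one]
    · intro n hn hn'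
      rw [Finset.mem_filter, Finset.mem_Ioc] at hn
      rcases hw₀ n with h3 | h3
      · rw [h3, zero_mul, mul_zero]
      · rcases hb n with h4 | h4
        · rw [h4, mul_zero, mul_zero]
        · exact absurd (Finset.mem_filter.2 ⟨mem_cls.2 ⟨hn.1, hn.2, h3⟩, h4⟩) hn'
  rw [h1, Finset.sum_const, nsmul_eq_mul, norm_mul, Complex.norm_real, Real.norm_eq_abs, hσ,
    mul_one, Complex.norm_natCast]

/-- **runs on a class mod `q`, with a weight** -/
theorem runs_core {q : ℕ} [NeZero q] {a : ℕ} (ha : a.Coprime q) {w₀ b : ℕ → ℂ}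
    (hw₀ : ∀ n, w₀ n = 0 ∨ w₀ n = 1) (hb : ∀ n, b n = 0 ∨ b n = 1) {X w δ δ' c0 : ℝ} {h m : ℕ}
    (hw : 1 ≤ w) (hm : 40 * w ≤ m) (hX3 : (h : ℝ) ^ 2 + h + 4 ≤ X) (hX2 : 4 * w ≤ X)
    (hδ : 0 ≤ δ)
    (H : ∀ χ : DirichletCharacter ℂ q, ∀ Y : ℝ, X / 4 ≤ Y → Y ≤ 2 * X → ∀ T : ℝ, 1 ≤ T →
      T ≤ Y / w → ∫ t : ℝ, ‖AF (fun n => (lamChi χ n * w₀ n) * b n) Y t‖ ^ 2 * g T t ≤ δ)
    (hh : 1 ≤ h) (hc0 : 0 < c0)
    (hmh : 97 * (m : ℝ) ≤ c0 / (16 * q * Fintype.card (DirichletCharacter ℂ q)) * h)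
    (hA : ∀ x : ℕ, X ≤ x → (x : ℝ) ≤ 2 * X → c0 * (h / q) ≤ ((cls q a w₀ x h).card : ℝ))
    (U : ℕ → Prop) [DecidablePred U]
    (hE : ∀ x : ℕ, X ≤ x → (x : ℝ) ≤ 2 * X →
      (open Classical in ((cls q a w₀ x h).filter fun n => b n ≠ 1).card : ℝ) ≤
        c0 / 4 * (h / q) + ((Ioc x (x + h)).filter U).card)
    (hU : (((Icc 1 ⌊16 * X⌋₊).filter U).card : ℝ) ≤ X * δ') :
    (open Classical in ((Icc ⌈X⌉₊ ⌊2 * X⌋₊).filter fun x => ∀ m ∈ cls q a w₀ x h,
      ∀ n ∈ cls q a w₀ x h, lam m = lam n).card : ℝ) ≤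
      (Fintype.card (DirichletCharacter ℂ q) *
        (12 * δ / (c0 / (16 * q * Fintype.card (DirichletCharacter ℂ q))) ^ 2) +
        8 * q / c0 * δ') * X := by
  classical
  set P : ℝ := (Fintype.card (DirichletCharacter ℂ q) : ℝ) with hP
  have hq0 : (0 : ℝ) < q := by exact_mod_cast Nat.pos_of_ne_zero (NeZero.ne q)
  have hP0 : 0 < P := by
    rw [hP]
    exact_mod_cast Fintype.card_pos
  set η : ℝ := c0 / (16 * q * P) with hη
  have hη0 : 0 < η := by positivity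
  have hh' : (1 : ℝ) ≤ h := by exact_mod_cast hh
  have hXpos : 0 < X := by nlinarith
  -- the coefficients
  set F : DirichletCharacter ℂ q → ℕ → ℂ := fun χ n => (lamChi χ n * w₀ n) * b n with hF
  have hF1 : ∀ χ n, ‖F χ n‖ ≤ 1 := by
    intro χ n
    have h1 : ‖lamChi χ n‖ ≤ 1 := by
      unfold lamChi
      split_ifs
      · simp
      · rw [norm_mul, Complex.norm_real, Real.norm_eq_abs, Pool.Agent.MRL.NR.lam_abs, one_mul]
        exact χ.norm_le_one n
    have h2 : ‖w₀ n‖ ≤ 1 := by rcases hw₀ n with h3 | h3 <;> simp [h3]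
    have h3 : ‖b n‖ ≤ 1 := by rcases hb n with h4 | h4 <;> simp [h4]
    rw [hF]
    simp only [norm_mul]
    exact mul_le_one₀ (mul_le_one₀ h1 (norm_nonneg _) h2) (norm_nonneg _) h3
  have hwin : ∀ χ, (((Icc ⌈X⌉₊ ⌊2 * X⌋₊).filter fun x =>
      97 * m + η * h < ‖∑ j ∈ Icc 1 h, F χ (x + j)‖).card : ℝ) ≤ 12 * δ * X / η ^ 2 :=
    fun χ => win_large (hF1 χ) hw hm hX3 hX2 hδ (H χ) hη0 hh
  -- the exceptional set
  set B' : Finset ℕ := (Icc ⌈X⌉₊ ⌊2 * X⌋₊).filter fun x =>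
    c0 * (h / q) / 8 < (((Ioc x (x + h)).filter U).card : ℝ) with hB'
  have hB'c : (B'.card : ℝ) ≤ 8 * q / c0 * δ' * X := by
    have h1 : (B'.card : ℝ) * (c0 * (h / q) / 8) ≤ h * (X * δ') := by
      have h2 : (B'.card : ℝ) * (c0 * (h / q) / 8) ≤
          ∑ x ∈ B', (((Ioc x (x + h)).filter U).card : ℝ) := by
        rw [← nsmul_eq_mul]
        refine Finset.card_nsmul_le_sum _ _ _ fun x hx => ?_
        rw [hB', Finset.mem_filter] at hx
        exact hx.2.le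
      have h3 : ∑ x ∈ B', (((Ioc x (x + h)).filter U).card : ℝ) ≤
          ∑ x ∈ Icc ⌈X⌉₊ ⌊2 * X⌋₊, (((Ioc x (x + h)).filter U).card : ℝ) :=
        Finset.sum_le_sum_of_subset_of_nonneg (Finset.filter_subset _ _)
          fun _ _ _ => by positivity
      have h4 : ⌊2 * X⌋₊ + h ≤ ⌊16 * X⌋₊ := by
        apply Nat.le_floor
        push_cast
        have h5 := Nat.floor_le (show 0 ≤ 2 * X by positivity)
        nlinarith
      have h5 := first_moment U (A := ⌈X⌉₊) h4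
      have h6 : (∑ x ∈ Icc ⌈X⌉₊ ⌊2 * X⌋₊, (((Ioc x (x + h)).filter U).card : ℝ)) ≤
          h * (((Icc 1 ⌊16 * X⌋₊).filter U).card : ℝ) := by exact_mod_cast h5
      exact h2.trans (h3.trans (h6.trans (mul_le_mul_of_nonneg_left hU (by linarith))))
    have h7 : (B'.card : ℝ) * (c0 * (h / q) / 8) = (B'.card : ℝ) * (c0 / (8 * q)) * h := by
      field_simp
    have h8 : (h : ℝ) * (X * δ') = 8 * q / c0 * δ' * X * (c0 / (8 * q)) * h := by
      field_simp
    rw [h7, h8] at h1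
    have h9 : (0 : ℝ) < c0 / (8 * q) := by positivity
    exact le_of_mul_le_mul_right (le_of_mul_le_mul_right h1 (by linarith)) h9
  -- the union
  set Z : Finset ℕ := (Icc ⌈X⌉₊ ⌊2 * X⌋₊).filter fun x => ∀ m ∈ cls q a w₀ x h,
      ∀ n ∈ cls q a w₀ x h, lam m = lam n with hZ
  have hsub : Z ⊆ (Finset.univ.biUnion fun χ : DirichletCharacter ℂ q =>
      (Icc ⌈X⌉₊ ⌊2 * X⌋₊).filter fun x =>
        97 * m + η * h < ‖∑ j ∈ Icc 1 h, F χ (x + j)‖) ∪ B' := by
    intro x hx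
    rw [hZ, Finset.mem_filter] at hx
    obtain ⟨hx1, hx2⟩ := hx
    by_contra hne
    rw [Finset.mem_union, not_or, Finset.mem_biUnion] at hne
    obtain ⟨hn1, hn2⟩ := hne
    have hX1 : X ≤ (x : ℝ) ∧ (x : ℝ) ≤ 2 * X := by
      rw [Finset.mem_Icc] at hx1
      exact ⟨Nat.ceil_le.1 hx1.1, (Nat.le_floor_iff (by positivity)).1 hx1.2⟩
    have h1 : ∀ χ, ‖∑ n ∈ Ioc x (x + h), F χ n‖ ≤ 2 * (η * h) := by
      intro χ
      by_contra hc
      apply hn1
      refine ⟨χ, Finset.mem_univ _, Finset.mem_filter.2 ⟨hx1, ?_⟩⟩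
      rw [sum_shift]
      have : 97 * (m : ℝ) ≤ η * h := hmh
      linarith
    have h2 : (((Ioc x (x + h)).filter U).card : ℝ) ≤ c0 * (h / q) / 8 := by
      by_contra hc
      exact hn2 (Finset.mem_filter.2 ⟨hx1, not_le.1 hc⟩)
    -- the characters
    have h3 : (q.totient : ℝ) *
        (((cls q a w₀ x h).filter fun n => b n = 1).card : ℝ) ≤ P * (2 * (η * h)) := by
      rw [← card_of_const hw₀ hb hx2]
      have h4 := ortho ha (fun n => w₀ n * b n) x h
      have h5 : ‖(q.totient : ℂ) * ∑ n ∈ (Ioc x (x + h)).filter (fun n => n ≡ a [MOD q]),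
          ((lam n : ℝ) : ℂ) * (w₀ n * b n)‖ ≤ ∑ χ : DirichletCharacter ℂ q, 2 * (η * h) := by
        rw [← h4]
        refine (norm_sum_le _ _).trans (Finset.sum_le_sum fun χ _ => ?_)
        rw [norm_mul]
        have h6 : ∑ n ∈ Ioc x (x + h), lamChi χ n * (w₀ n * b n) =
            ∑ n ∈ Ioc x (x + h), F χ n := Finset.sum_congr rfl fun n _ => by rw [hF]; ring
        rw [h6]
        exact (mul_le_of_le_one_left (norm_nonneg _) (χ.norm_le_one _)).trans (h1 χ)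
      rw [norm_mul, Complex.norm_natCast] at h5
      refine h5.trans (le_of_eq ?_)
      rw [Finset.sum_const, Finset.card_univ, nsmul_eq_mul]
    have h4 : (((cls q a w₀ x h).filter fun n => b n = 1).card : ℝ) ≤ c0 * (h / q) / 8 := by
      have h5 : (1 : ℝ) ≤ q.totient := by
        exact_mod_cast Nat.totient_pos.2 (Nat.pos_of_ne_zero (NeZero.ne q))
      have h6 : P * (2 * (η * h)) = c0 * (h / q) / 8 := by
        rw [hη]
        field_simp
        ring
      rw [h6] at h3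
      refine le_trans ?_ h3
      exact le_mul_of_one_le_left (by positivity) h5
    have h5 := hA x hX1.1 hX1.2
    have h6 := hE x hX1.1 hX1.2
    have h7 : ((cls q a w₀ x h).card : ℝ) =
        (((cls q a w₀ x h).filter fun n => b n = 1).card : ℝ) +
          (((cls q a w₀ x h).filter fun n => b n ≠ 1).card : ℝ) := by
      exact_mod_cast (Finset.card_filter_add_card_filter_not (s := cls q a w₀ x h)
        (fun n => b n = 1)).symm
    have h8 : 0 < c0 * (h / q) := by positivity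
    have h9 : c0 / 4 * (h / q) = c0 * (h / q) / 4 := by ring
    linarith
  have h1 : (Z.card : ℝ) ≤ ∑ χ : DirichletCharacter ℂ q, 12 * δ * X / η ^ 2 +
      8 * q / c0 * δ' * X := by
    have h2 := (Finset.card_le_card hsub).trans (Finset.card_union_le _ _)
    have h3 : (Z.card : ℝ) ≤ ((Finset.univ.biUnion fun χ : DirichletCharacter ℂ q =>
      (Icc ⌈X⌉₊ ⌊2 * X⌋₊).filter fun x =>
        97 * m + η * h < ‖∑ j ∈ Icc 1 h, F χ (x + j)‖).card : ℝ) + B'.card := by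
      exact_mod_cast h2
    refine h3.trans (add_le_add ?_ hB'c)
    have h4 := Finset.card_biUnion_le (s := (Finset.univ : Finset (DirichletCharacter ℂ q)))
      (t := fun χ => (Icc ⌈X⌉₊ ⌊2 * X⌋₊).filter fun x =>
        97 * m + η * h < ‖∑ j ∈ Icc 1 h, F χ (x + j)‖)
    have h5 : ((Finset.univ.biUnion fun χ : DirichletCharacter ℂ q =>
      (Icc ⌈X⌉₊ ⌊2 * X⌋₊).filter fun x =>
        97 * m + η * h < ‖∑ j ∈ Icc 1 h, F χ (x + j)‖).card : ℝ) ≤
        ∑ χ : DirichletCharacter ℂ q, (((Icc ⌈X⌉₊ ⌊2 * X⌋₊).filter fun x =>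
          97 * m + η * h < ‖∑ j ∈ Icc 1 h, F χ (x + j)‖).card : ℝ) := by
      exact_mod_cast h4
    exact h5.trans (Finset.sum_le_sum fun χ _ => hwin χ)
  refine h1.trans (le_of_eq ?_)
  rw [Finset.sum_const, Finset.card_univ, nsmul_eq_mul]
  ring

end Pool.Agent.MR2.NR
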