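import Pool.Agent.Lib.MR2.Defs
import Pool.Agent.Lib.MRF.NR

/-! TANK MR2, runs, part 1: windows with a large sum are rare, quantitative and for arbitrary
coefficients of modulus at most one. helper88. -/

set_option autoImplicit false

namespace Pool.Agent.MR2.NR

open Finset MeasureTheory Pool.Agent.MRF Pool.Agent.MRF.NR
open Pool.Agent.MRL (nt g gw gw_nonneg gw_continuous gw_integrable gw_integral es es_continuous
  es_int energy tp tp_continuous cs_interval)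

/-- the energy of the Gaussian averages, from the mean squares at the lengths `X/4, ..., 2X` -/
theorem energyQ {f : ℕ → ℂ} {ε h X : ℝ} (hh : 1 ≤ h)
    (H : ∀ Y : ℝ, X / 4 ≤ Y → Y ≤ 2 * X → ∀ T : ℝ, 1 ≤ T → T ≤ Y / h →
      ∫ t : ℝ, ‖AF f Y t‖ ^ 2 * g T t ≤ ε)
    (hX1 : 4 * h ≤ X) (hX : 0 < X) (hε : 0 ≤ ε) :
    ∫ u, ‖es (Ioc ⌊X / 4⌋₊ ⌊4 * X⌋₊) (fun n => Real.log n) (fb f) (4 * h / X) u‖ ^ 2
      ≤ 3 * ε := by
  have hδ : 0 < 4 * h / X := by positivity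
  rw [energy hδ]
  set T : ℝ := 1 / (4 * h / X) with hT
  have hTX : T = X / (4 * h) := by rw [hT]; field_simp
  have hT0 : 0 < T := by rw [hTX]; positivity
  have hT1 : 1 ≤ T := by
    rw [hTX, le_div_iff₀ (by positivity)]
    linarith
  have hk : ∀ Y : ℝ, X / 4 ≤ Y → Y ≤ 2 * X → ∫ t : ℝ, ‖AF f Y t‖ ^ 2 * g T t ≤ ε := by
    intro Y hY hY2
    refine H Y hY hY2 T hT1 ?_
    rw [hTX, show X / (4 * h) = X / 4 / h by field_simp]
    exact div_le_div_of_nonneg_right hY (by linarith)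
  have h1 := hk (X / 4) le_rfl (by linarith)
  have h2 := hk (X / 2) (by linarith) (by linarith)
  have h3 := hk X (by linarith) (by linarith)
  have h4 := hk (2 * X) (by linarith) le_rfl
  have hpt : ∀ t : ℝ, ‖tp (Ioc ⌊X / 4⌋₊ ⌊4 * X⌋₊) (fun n => -Real.log n) (fb f) t‖ ^ 2 *
      Real.exp (-(1 / T ^ 2) * t ^ 2) ≤
      4 * (‖AF f (X / 4) t‖ ^ 2 * g T t + ‖AF f (X / 2) t‖ ^ 2 * g T t +
        ‖AF f X t‖ ^ 2 * g T t + ‖AF f (2 * X) t‖ ^ 2 * g T t) := by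
    intro t
    have hg : g T t = Real.exp (-(1 / T ^ 2) * t ^ 2) := by
      unfold g
      congr 1
      field_simp
    rw [tp_split f hX.le, ← hg]
    have hg0 : 0 ≤ g T t := by unfold g; positivity
    have h5 : ‖AF f (X / 4) t + AF f (X / 2) t + AF f X t + AF f (2 * X) t‖ ≤
        ‖AF f (X / 4) t‖ + ‖AF f (X / 2) t‖ + ‖AF f X t‖ + ‖AF f (2 * X) t‖ := by
      refine (norm_add_le _ _).trans (add_le_add ?_ le_rfl)
      refine (norm_add_le _ _).trans (add_le_add ?_ le_rfl)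
      exact norm_add_le _ _
    have h6 : ‖AF f (X / 4) t + AF f (X / 2) t + AF f X t + AF f (2 * X) t‖ ^ 2 ≤
        4 * (‖AF f (X / 4) t‖ ^ 2 + ‖AF f (X / 2) t‖ ^ 2 + ‖AF f X t‖ ^ 2 +
          ‖AF f (2 * X) t‖ ^ 2) := by
      refine (pow_le_pow_left₀ (norm_nonneg _) h5 2).trans ?_
      nlinarith [sq_nonneg (‖AF f (X / 4) t‖ - ‖AF f (X / 2) t‖),
        sq_nonneg (‖AF f (X / 4) t‖ - ‖AF f X t‖),
        sq_nonneg (‖AF f (X / 4) t‖ - ‖AF f (2 * X) t‖),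
        sq_nonneg (‖AF f (X / 2) t‖ - ‖AF f X t‖),
        sq_nonneg (‖AF f (X / 2) t‖ - ‖AF f (2 * X) t‖),
        sq_nonneg (‖AF f X t‖ - ‖AF f (2 * X) t‖)]
    nlinarith [mul_le_mul_of_nonneg_right h6 hg0]
  have i1 := AF_g_int f (X / 4) hT0
  have i2 := AF_g_int f (X / 2) hT0
  have i3 := AF_g_int f X hT0
  have i4 := AF_g_int f (2 * X) hT0
  have h7 : ∫ t : ℝ, ‖tp (Ioc ⌊X / 4⌋₊ ⌊4 * X⌋₊) (fun n => -Real.log n) (fb f) t‖ ^ 2 *
      Real.exp (-(1 / T ^ 2) * t ^ 2) ≤ 4 * (4 * ε) := by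
    refine (integral_mono_of_nonneg (Filter.Eventually.of_forall fun t => by positivity)
      ((((i1.add i2).add i3).add i4).const_mul 4)
      (Filter.Eventually.of_forall hpt)).trans ?_
    have h8 : ∫ t : ℝ, 4 * (‖AF f (X / 4) t‖ ^ 2 * g T t + ‖AF f (X / 2) t‖ ^ 2 * g T t +
        ‖AF f X t‖ ^ 2 * g T t + ‖AF f (2 * X) t‖ ^ 2 * g T t) =
        4 * ((∫ t, ‖AF f (X / 4) t‖ ^ 2 * g T t) + (∫ t, ‖AF f (X / 2) t‖ ^ 2 * g T t) +
          (∫ t, ‖AF f X t‖ ^ 2 * g T t) + (∫ t, ‖AF f (2 * X) t‖ ^ 2 * g T t)) := by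
      have e1 := integral_add i1 i2
      have e2 := integral_add (i1.add i2) i3
      have e3 := integral_add ((i1.add i2).add i3) i4
      simp only [Pi.add_apply] at e2 e3
      rw [integral_const_mul, e3, e2, e1]
    exact h8.le.trans (by linarith)
  have hpi : 1 / (2 * Real.pi) ≤ 1 / 6 := by
    apply one_div_le_one_div_of_le (by norm_num)
    have := Real.pi_gt_three
    linarith
  have hpi0 : 0 ≤ 1 / (2 * Real.pi) := by positivity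
  calc 1 / (2 * Real.pi) * ∫ t : ℝ,
        ‖tp (Ioc ⌊X / 4⌋₊ ⌊4 * X⌋₊) (fun n => -Real.log n) (fb f) t‖ ^ 2 *
        Real.exp (-(1 / T ^ 2) * t ^ 2) ≤ 1 / (2 * Real.pi) * (4 * (4 * ε)) :=
        mul_le_mul_of_nonneg_left h7 hpi0
    _ ≤ 1 / 6 * (4 * (4 * ε)) := mul_le_mul_of_nonneg_right hpi (by positivity)
    _ ≤ 3 * ε := by linarith

/-- windows with a large sum are rare -/
theorem win_large {f : ℕ → ℂ} (hf : ∀ n, ‖f n‖ ≤ 1) {w X δ : ℝ} {h m : ℕ} (hw : 1 ≤ w)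
    (hm : 40 * w ≤ m) (hX3 : (h : ℝ) ^ 2 + h + 4 ≤ X) (hX2 : 4 * w ≤ X) (hδ : 0 ≤ δ)
    (H : ∀ Y : ℝ, X / 4 ≤ Y → Y ≤ 2 * X → ∀ T : ℝ, 1 ≤ T → T ≤ Y / w →
      ∫ t : ℝ, ‖AF f Y t‖ ^ 2 * g T t ≤ δ)
    {η : ℝ} (hη : 0 < η) (hh1 : 1 ≤ h) :
    (((Icc ⌈X⌉₊ ⌊2 * X⌋₊).filter fun x => 97 * m + η * h < ‖∑ j ∈ Icc 1 h, f (x + j)‖).card : ℝ)
      ≤ 12 * δ * X / η ^ 2 := by
  have hh' : (1 : ℝ) ≤ h := by exact_mod_cast hh1
  have hXpos : 0 < X := by nlinarith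
  have hen := energyQ hw H hX2 hXpos hδ
  set s : Finset ℕ := Ioc ⌊X / 4⌋₊ ⌊4 * X⌋₊ with hs
  set B : ℝ → ℂ := es s (fun n => Real.log n) (fb f) (4 * w / X) with hB
  have hδ' : 0 < 4 * w / X := by positivity
  have hBc : Continuous B := es_continuous _ _ _ _
  have hBi : Integrable fun u => ‖B u‖ ^ 2 := es_int hδ' _ _ _
  set I : ℕ → ℂ := fun x => ∫ u in (Real.log x)..(Real.log ((x : ℝ) + h)), B u with hI
  have hAB : Icc ⌈X⌉₊ ⌊2 * X⌋₊ = Ico ⌈X⌉₊ (⌊2 * X⌋₊ + 1) := by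
    ext n
    rw [Finset.mem_Icc, Finset.mem_Ico]
    omega
  have hA0 : 0 < ⌈X⌉₊ := Nat.ceil_pos.2 hXpos
  have hmemx : ∀ x ∈ Icc ⌈X⌉₊ ⌊2 * X⌋₊, X ≤ (x : ℝ) ∧ (x : ℝ) ≤ 2 * X := by
    intro x hx
    rw [Finset.mem_Icc] at hx
    exact ⟨Nat.ceil_le.1 hx.1, (Nat.le_floor_iff (by positivity)).1 hx.2⟩
  -- the energy of the windows
  have hsq : ∑ x ∈ Icc ⌈X⌉₊ ⌊2 * X⌋₊, ‖I x‖ ^ 2 ≤ h ^ 2 / X * (3 * δ) := by
    have h1 : ∀ x ∈ Icc ⌈X⌉₊ ⌊2 * X⌋₊, ‖I x‖ ^ 2 ≤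
        h / X * ∫ u in (Real.log x)..(Real.log ((x : ℝ) + h)), ‖B u‖ ^ 2 := by
      intro x hx
      obtain ⟨hx1, hx2⟩ := hmemx x hx
      have hx0 : (0 : ℝ) < x := by linarith
      have hlog : Real.log x ≤ Real.log ((x : ℝ) + h) := Real.log_le_log hx0 (by linarith)
      have h2 := cs_interval hBc hlog
      have h3 : Real.log ((x : ℝ) + h) - Real.log x ≤ h / X := by
        rw [← Real.log_div (by linarith) hx0.ne']
        have h3 := Real.log_le_sub_one_of_pos (show 0 < ((x : ℝ) + h) / x by positivity)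
        have h4 : ((x : ℝ) + h) / x - 1 = h / x := by field_simp; ring
        have h5 : (h : ℝ) / x ≤ h / X := div_le_div_of_nonneg_left (by linarith) hXpos hx1
        linarith
      refine h2.trans (mul_le_mul_of_nonneg_right h3 ?_)
      exact intervalIntegral.integral_nonneg hlog fun u _ => by positivity
    refine (Finset.sum_le_sum h1).trans ?_
    rw [← Finset.mul_sum, hAB, Finset.sum_Ico_eq_sum_range]
    have h6 := sum_windows (fun u => by positivity) hBi hA0 (⌊2 * X⌋₊ + 1 - ⌈X⌉₊) h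
    have h7 : (h : ℝ) * ∫ u, ‖B u‖ ^ 2 ≤ h * (3 * δ) :=
      mul_le_mul_of_nonneg_left hen (by linarith)
    calc (h : ℝ) / X * ∑ i ∈ range (⌊2 * X⌋₊ + 1 - ⌈X⌉₊),
          ∫ u in (Real.log ((⌈X⌉₊ + i : ℕ) : ℝ))..
            (Real.log (((⌈X⌉₊ + i : ℕ) : ℝ) + h)), ‖B u‖ ^ 2
        ≤ h / X * (h * (3 * δ)) :=
          mul_le_mul_of_nonneg_left (h6.trans h7) (by positivity)
      _ = h ^ 2 / X * (3 * δ) := by ring
  set Z : Finset ℕ := (Icc ⌈X⌉₊ ⌊2 * X⌋₊).filter fun x =>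
    97 * m + η * h < ‖∑ j ∈ Icc 1 h, f (x + j)‖ with hZ
  have hlow : ∀ x ∈ Z, (η * h / (2 * X)) ^ 2 ≤ ‖I x‖ ^ 2 := by
    intro x hx
    rw [hZ, Finset.mem_filter] at hx
    obtain ⟨hx1, hx2⟩ := hmemx x hx.1
    have h1 := window_le hf hw hm hX3 hx1 hx2
    have h2 : η * h ≤ 2 * X * ‖I x‖ := by
      have h3 := hx.2.trans_le h1
      linarith
    refine pow_le_pow_left₀ (by positivity) ?_ 2
    rw [div_le_iff₀ (by positivity)]
    linarith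
  have h8 : (Z.card : ℝ) * (η * h / (2 * X)) ^ 2 ≤ h ^ 2 / X * (3 * δ) := by
    refine le_trans ?_ hsq
    rw [← nsmul_eq_mul]
    refine (Finset.card_nsmul_le_sum _ _ _ hlow).trans ?_
    exact Finset.sum_le_sum_of_subset_of_nonneg (Finset.filter_subset _ _)
      fun _ _ _ => by positivity
  rw [le_div_iff₀ (by positivity)]
  have h9 : (Z.card : ℝ) * (η * h / (2 * X)) ^ 2 =
      (Z.card : ℝ) * η ^ 2 * (h ^ 2 / (4 * X ^ 2)) := by
    field_simp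
    ring
  have h10 : (h : ℝ) ^ 2 / X * (3 * δ) = 12 * δ * X * (h ^ 2 / (4 * X ^ 2)) := by
    field_simp
    ring
  rw [h9, h10] at h8
  exact le_of_mul_le_mul_right h8 (by positivity)

end Pool.Agent.MR2.NR
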