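import Pool.Agent.Lib.MRAP.NRA
import Pool.Agent.Lib.MR2.Defs

/-!
# TANK MR2: from mean squares to runs, general form (helper67)

The coefficients are `w n / n` with `w n = λ(n) 1[n ≡ a mod q] b(n)`, `b` arbitrary.
-/

set_option autoImplicit false

namespace Pool.Agent.MR2.NRc

open Finset MeasureTheory Pool.Agent.MRL Pool.Agent.MRL.NR Pool.Agent.MRF Pool.Agent.MRAP.NR

/-- the energy of the Gaussian averages of `f(n)/n`, local hypothesis -/
theorem energyF_loc {f : ℕ → ℂ} {ε h X : ℝ} (hh : 1 ≤ h)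
    (H : ∀ Y : ℝ, X / 8 ≤ Y → Y ≤ 8 * X → ∀ T : ℝ, 1 ≤ T → T ≤ Y / h →
      ∫ t : ℝ, ‖AF f Y t‖ ^ 2 * g T t ≤ ε)
    (hX1 : 4 * h ≤ X) (hX : 0 < X) (hε : 0 ≤ ε) :
    ∫ u, ‖es (Ioc ⌊X / 4⌋₊ ⌊4 * X⌋₊) (fun n => Real.log n) (lbF f) (4 * h / X) u‖ ^ 2 ≤
      3 * ε := by
  have hδ : 0 < 4 * h / X := by positivity
  rw [energy hδ]
  set T : ℝ := 1 / (4 * h / X) with hT
  have hTX : T = X / (4 * h) := by rw [hT]; field_simp
  have hT0 : 0 < T := by rw [hTX]; positivity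
  have hT1 : 1 ≤ T := by
    rw [hTX, le_div_iff₀ (by positivity)]
    linarith
  have hk : ∀ Y : ℝ, X / 4 ≤ Y → Y ≤ 8 * X → ∫ t : ℝ, ‖AF f Y t‖ ^ 2 * g T t ≤ ε := by
    intro Y hY hY2
    refine H Y (by linarith) hY2 T hT1 ?_
    rw [hTX, show X / (4 * h) = X / 4 / h by field_simp]
    exact div_le_div_of_nonneg_right hY (by linarith)
  have h1 := hk (X / 4) le_rfl (by linarith)
  have h2 := hk (X / 2) (by linarith) (by linarith)
  have h3 := hk X (by linarith) (by linarith)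
  have h4 := hk (2 * X) (by linarith) (by linarith)
  have hpt : ∀ t : ℝ, ‖tp (Ioc ⌊X / 4⌋₊ ⌊4 * X⌋₊) (fun n => -Real.log n) (lbF f) t‖ ^ 2 *
      Real.exp (-(1 / T ^ 2) * t ^ 2) ≤
      4 * (‖AF f (X / 4) t‖ ^ 2 * g T t + ‖AF f (X / 2) t‖ ^ 2 * g T t +
        ‖AF f X t‖ ^ 2 * g T t + ‖AF f (2 * X) t‖ ^ 2 * g T t) := by
    intro t
    have hg : g T t = Real.exp (-(1 / T ^ 2) * t ^ 2) := by
      unfold g
      congr 1
      field_simp
    rw [tpF_split f hX.le, ← hg]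
    have hg0 : 0 ≤ g T t := by unfold g; positivity
    have h5 : ‖AF f (X / 4) t + AF f (X / 2) t + AF f X t + AF f (2 * X) t‖ ≤
        ‖AF f (X / 4) t‖ + ‖AF f (X / 2) t‖ + ‖AF f X t‖ + ‖AF f (2 * X) t‖ := by
      refine (norm_add_le _ _).trans (add_le_add ?_ le_rfl)
      refine (norm_add_le _ _).trans (add_le_add ?_ le_rfl)
      exact norm_add_le _ _
    have h6 : ‖AF f (X / 4) t + AF f (X / 2) t + AF f X t + AF f (2 * X) t‖ ^ 2 ≤
        4 * (‖AF f (X / 4) t‖ ^ 2 + ‖AF f (X / 2) t‖ ^ 2 + ‖AF f X t‖ ^ 2 +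
          ‖AF f (2 * X) t‖ ^ 2) := by
      refine (pow_le_pow_left₀ (norm_nonneg _) h5 2).trans ?_
      nlinarith [sq_nonneg (‖AF f (X / 4) t‖ - ‖AF f (X / 2) t‖),
        sq_nonneg (‖AF f (X / 4) t‖ - ‖AF f X t‖),
        sq_nonneg (‖AF f (X / 4) t‖ - ‖AF f (2 * X) t‖),
        sq_nonneg (‖AF f (X / 2) t‖ - ‖AF f X t‖),
        sq_nonneg (‖AF f (X / 2) t‖ - ‖AF f (2 * X) t‖),
        sq_nonneg (‖AF f X t‖ - ‖AF f (2 * X) t‖)]
    nlinarith [mul_le_mul_of_nonneg_right h6 hg0]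
  have i1 := AF_g_int f (X / 4) hT0
  have i2 := AF_g_int f (X / 2) hT0
  have i3 := AF_g_int f X hT0
  have i4 := AF_g_int f (2 * X) hT0
  have h7 : ∫ t : ℝ, ‖tp (Ioc ⌊X / 4⌋₊ ⌊4 * X⌋₊) (fun n => -Real.log n) (lbF f) t‖ ^ 2 *
      Real.exp (-(1 / T ^ 2) * t ^ 2) ≤ 4 * (4 * ε) := by
    refine (integral_mono_of_nonneg (Filter.Eventually.of_forall fun t => by positivity)
      ((((i1.add i2).add i3).add i4).const_mul 4)
      (Filter.Eventually.of_forall hpt)).trans ?_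
    have h8 : ∫ t : ℝ, 4 * (‖AF f (X / 4) t‖ ^ 2 * g T t + ‖AF f (X / 2) t‖ ^ 2 * g T t +
        ‖AF f X t‖ ^ 2 * g T t + ‖AF f (2 * X) t‖ ^ 2 * g T t) =
        4 * ((∫ t, ‖AF f (X / 4) t‖ ^ 2 * g T t) + (∫ t, ‖AF f (X / 2) t‖ ^ 2 * g T t) +
          (∫ t, ‖AF f X t‖ ^ 2 * g T t) + (∫ t, ‖AF f (2 * X) t‖ ^ 2 * g T t)) := by
      have e1 := integral_add i1 i2
      have e2 := integral_add (i1.add i2) i3
      have e3 := integral_add ((i1.add i2).add i3) i4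
      simp only [Pi.add_apply] at e2 e3
      rw [integral_const_mul, e3, e2, e1]
    exact h8.le.trans (by linarith)
  have hpi : 1 / (2 * Real.pi) ≤ 1 / 6 := by
    apply one_div_le_one_div_of_le (by norm_num)
    have := Real.pi_gt_three
    linarith
  have hpi0 : 0 ≤ 1 / (2 * Real.pi) := by positivity
  calc 1 / (2 * Real.pi) * ∫ t : ℝ,
        ‖tp (Ioc ⌊X / 4⌋₊ ⌊4 * X⌋₊) (fun n => -Real.log n) (lbF f) t‖ ^ 2 *
        Real.exp (-(1 / T ^ 2) * t ^ 2) ≤ 1 / (2 * Real.pi) * (4 * (4 * ε)) :=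
        mul_le_mul_of_nonneg_left h7 hpi0
    _ ≤ 1 / 6 * (4 * (4 * ε)) := mul_le_mul_of_nonneg_right hpi (by positivity)
    _ ≤ 3 * ε := by linarith

/-- the coefficients at the integers `≡ a mod q`, times `b`. -/
noncomputable def lbB (b : ℕ → ℂ) (q a n : ℕ) : ℂ := lbA q a n * b n

theorem esB_eq (b : ℕ → ℂ) {q : ℕ} [NeZero q] {a : ℕ} (ha : a.Coprime q) (X δ u : ℝ) :
    es (Ioc ⌊X / 4⌋₊ ⌊4 * X⌋₊) (fun n => Real.log n) (lbB b q a) δ u =
      (1 / (q.totient : ℂ)) * ∑ χ : DirichletCharacter ℂ q, χ ((a : ZMod q)⁻¹) *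
        es (Ioc ⌊X / 4⌋₊ ⌊4 * X⌋₊) (fun n => Real.log n)
          (lbF (fun n => lamChi χ n * b n)) δ u := by
  unfold es
  have h1 : ∀ n ∈ Ioc ⌊X / 4⌋₊ ⌊4 * X⌋₊, lbB b q a n * (gw δ (Real.log n - u) : ℂ) =
      ∑ χ : DirichletCharacter ℂ q, (1 / (q.totient : ℂ)) * (χ ((a : ZMod q)⁻¹) *
        (lbF (fun n => lamChi χ n * b n) n * (gw δ (Real.log n - u) : ℂ))) := by
    intro n hn
    have hn0 : n ≠ 0 := by
      have := mem_Ioc.1 hn
      omega
    unfold lbB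
    rw [lbA_eq ha hn0, mul_assoc, mul_assoc, sum_mul, mul_sum]
    refine sum_congr rfl fun χ _ => ?_
    unfold lbF
    ring
  rw [sum_congr rfl h1, sum_comm, mul_sum]
  refine sum_congr rfl fun χ _ => ?_
  rw [mul_sum, mul_sum]

/-- the energy of the Gaussian averages over the integers `≡ a mod q`, weight `b`. -/
theorem energyB (b : ℕ → ℂ) {q : ℕ} [NeZero q] {a : ℕ} (ha : a.Coprime q) {ε h X : ℝ}
    (hh : 1 ≤ h)
    (H : ∀ χ : DirichletCharacter ℂ q, ∀ Y : ℝ, X / 8 ≤ Y → Y ≤ 8 * X → ∀ T : ℝ, 1 ≤ T →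
      T ≤ Y / h → ∫ t : ℝ, ‖AF (fun n => lamChi χ n * b n) Y t‖ ^ 2 * g T t ≤ ε)
    (hX1 : 4 * h ≤ X) (hX : 0 < X) (hε : 0 ≤ ε) :
    ∫ u, ‖es (Ioc ⌊X / 4⌋₊ ⌊4 * X⌋₊) (fun n => Real.log n) (lbB b q a) (4 * h / X) u‖ ^ 2 ≤
      (Fintype.card (DirichletCharacter ℂ q) : ℝ) ^ 2 * (3 * ε) := by
  set δ : ℝ := 4 * h / X with hδd
  have hδ : 0 < δ := by positivity
  set F : DirichletCharacter ℂ q → ℝ → ℝ := fun χ u =>
    ‖es (Ioc ⌊X / 4⌋₊ ⌊4 * X⌋₊) (fun n => Real.log n)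
      (lbF (fun n => lamChi χ n * b n)) δ u‖ ^ 2 with hF
  have hint : ∀ χ ∈ (univ : Finset (DirichletCharacter ℂ q)), Integrable (F χ) := fun χ _ =>
    es_int hδ (Ioc ⌊X / 4⌋₊ ⌊4 * X⌋₊) (fun n => Real.log n) (lbF (fun n => lamChi χ n * b n))
  have hpt : ∀ u, ‖es (Ioc ⌊X / 4⌋₊ ⌊4 * X⌋₊) (fun n => Real.log n) (lbB b q a) δ u‖ ^ 2 ≤
      (Fintype.card (DirichletCharacter ℂ q) : ℝ) * ∑ χ : DirichletCharacter ℂ q, F χ u := by
    intro u
    rw [esB_eq b ha]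
    have hφ : ‖(1 / (q.totient : ℂ))‖ ≤ 1 := by
      rw [norm_div, norm_one, Complex.norm_natCast]
      have : (1 : ℝ) ≤ q.totient := by
        exact_mod_cast Nat.totient_pos.2 (Nat.pos_of_ne_zero (NeZero.ne q))
      exact (div_le_one (by linarith)).2 this
    have h1 : ‖(1 / (q.totient : ℂ)) * ∑ χ : DirichletCharacter ℂ q, χ ((a : ZMod q)⁻¹) *
        es (Ioc ⌊X / 4⌋₊ ⌊4 * X⌋₊) (fun n => Real.log n)
          (lbF (fun n => lamChi χ n * b n)) δ u‖ ≤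
        ∑ χ : DirichletCharacter ℂ q,
          ‖es (Ioc ⌊X / 4⌋₊ ⌊4 * X⌋₊) (fun n => Real.log n)
            (lbF (fun n => lamChi χ n * b n)) δ u‖ := by
      rw [norm_mul]
      refine (mul_le_of_le_one_left (norm_nonneg _) hφ).trans ?_
      refine (norm_sum_le _ _).trans (sum_le_sum fun χ _ => ?_)
      rw [norm_mul]
      exact mul_le_of_le_one_left (norm_nonneg _) (χ.norm_le_one _)
    refine (pow_le_pow_left₀ (norm_nonneg _) h1 2).trans ?_
    have h2 := sq_sum_le_card_mul_sum_sq (s := (univ : Finset (DirichletCharacter ℂ q)))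
      (f := fun χ => ‖es (Ioc ⌊X / 4⌋₊ ⌊4 * X⌋₊) (fun n => Real.log n)
        (lbF (fun n => lamChi χ n * b n)) δ u‖)
    rw [card_univ] at h2
    exact h2
  have hle : ∀ χ ∈ (univ : Finset (DirichletCharacter ℂ q)), ∫ u, F χ u ≤ 3 * ε :=
    fun χ _ => energyF_loc hh (H χ) hX1 hX hε
  calc ∫ u, ‖es (Ioc ⌊X / 4⌋₊ ⌊4 * X⌋₊) (fun n => Real.log n) (lbB b q a) (4 * h / X) u‖ ^ 2
      ≤ ∫ u, (Fintype.card (DirichletCharacter ℂ q) : ℝ) *
          ∑ χ : DirichletCharacter ℂ q, F χ u := by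
        refine integral_mono_of_nonneg (Filter.Eventually.of_forall fun u => by positivity) ?_
          (Filter.Eventually.of_forall hpt)
        exact (integrable_finset_sum _ hint).const_mul _
    _ = (Fintype.card (DirichletCharacter ℂ q) : ℝ) *
          ∑ χ : DirichletCharacter ℂ q, ∫ u, F χ u := by
        rw [integral_const_mul, integral_finset_sum _ hint]
    _ ≤ (Fintype.card (DirichletCharacter ℂ q) : ℝ) *
          ∑ _χ : DirichletCharacter ℂ q, (3 * ε) :=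
        mul_le_mul_of_nonneg_left (sum_le_sum hle) (Nat.cast_nonneg _)
    _ = (Fintype.card (DirichletCharacter ℂ q) : ℝ) ^ 2 * (3 * ε) := by
        rw [sum_const, card_univ, nsmul_eq_mul]
        ring

/-- the mass of the kernel outside of a window of length `2 L` around the centre -/
theorem outside {h X u : ℝ} {x L : ℕ} (hh : 1 ≤ h) (hX : 4 * ((L : ℝ) + 4 * h + 4) ≤ X)
    (hL3 : 3 ≤ L) (hx1 : X ≤ x) (hx2 : (x : ℝ) ≤ 2 * X)
    (hu1 : ((x + L : ℕ) : ℝ) ≤ Real.exp u) (hu2 : Real.exp u < ((x + L : ℕ) : ℝ) + 1) :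
    ∑ n ∈ (Ioc ⌊X / 4⌋₊ ⌊4 * X⌋₊).filter (fun n => ¬ (x ≤ n ∧ n < x + 2 * L)),
      1 / (n : ℝ) * gw (4 * h / X) (Real.log n - u) ≤ 410 * h / ((L : ℝ) - 2) := by
  have hL0 : (3 : ℝ) ≤ L := by exact_mod_cast hL3
  have hX0 : 0 < X := by linarith
  push_cast at hu1 hu2
  have hδ : 0 < 4 * h / X := by positivity
  set s : Finset ℕ := Ioc ⌊X / 4⌋₊ ⌊4 * X⌋₊ with hs
  set F : ℕ → ℝ := fun n => 1 / (n : ℝ) * gw (4 * h / X) (Real.log n - u) with hF
  set R : ℕ → Prop := fun n => x ≤ n ∧ n < x + 2 * L with hR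
  have hsm : ∀ n ∈ s, X / 4 < (n : ℝ) ∧ (n : ℝ) ≤ 4 * X := by
    intro n hn
    rw [hs, Finset.mem_Ioc] at hn
    exact ⟨(Nat.floor_lt (by positivity)).1 hn.1, (Nat.le_floor_iff (by positivity)).1 hn.2⟩
  have hLm : (1 : ℝ) < (L : ℝ) - 1 := by linarith
  have hsum : ∀ K : ℕ, ∑ k ∈ range K, 205 * h * (1 / ((L : ℝ) - 1 + k) ^ 2) ≤
      205 * h * (1 / ((L : ℝ) - 1 - 1)) := by
    intro K
    rw [← Finset.mul_sum]
    refine mul_le_mul_of_nonneg_left ?_ (by positivity)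
    have h2 := sum_inv_sq_le hLm K
    have h3 : 0 ≤ 1 / ((L : ℝ) - 1 - 1 + K) := by
      have : (0 : ℝ) ≤ K := Nat.cast_nonneg _
      apply div_nonneg zero_le_one
      linarith
    linarith
  change ∑ n ∈ s.filter (fun n => ¬ R n), F n ≤ _
  rw [← Finset.sum_filter_add_sum_filter_not (s.filter (fun n => ¬ R n)) (fun n => n < x)]
  have hA1 : ∑ n ∈ (s.filter (fun n => ¬ R n)).filter (fun n => n < x), F n ≤
      205 * h * (1 / ((L : ℝ) - 1 - 1)) := by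
    refine le_trans ?_ (hsum x)
    have h2 : ∀ n ∈ (s.filter (fun n => ¬ R n)).filter (fun n => n < x),
        F n ≤ 205 * h * (1 / ((L : ℝ) - 1 + ((x - 1 - n : ℕ) : ℝ)) ^ 2) := by
      intro n hn
      rw [Finset.mem_filter, Finset.mem_filter] at hn
      have h3 := hsm n hn.1.1
      have h4 : ((x - 1 - n : ℕ) : ℝ) = (x : ℝ) - 1 - n := by
        rw [Nat.cast_sub (by omega), Nat.cast_sub (by omega), Nat.cast_one]
      have hn5 : (n : ℝ) + 1 ≤ x := by exact_mod_cast hn.2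
      refine ker_le hh hX0 h3.1 h3.2 (by linarith) ?_ ?_
      · rw [h4]; linarith
      · rw [abs_sub_comm, abs_of_nonneg (by linarith), h4]
        linarith
    refine (Finset.sum_le_sum h2).trans ?_
    have h5 : ∑ n ∈ (s.filter (fun n => ¬ R n)).filter (fun n => n < x),
        205 * h * (1 / ((L : ℝ) - 1 + ((x - 1 - n : ℕ) : ℝ)) ^ 2) =
        ∑ k ∈ ((s.filter (fun n => ¬ R n)).filter (fun n => n < x)).image
          (fun n => x - 1 - n), 205 * h * (1 / ((L : ℝ) - 1 + (k : ℝ)) ^ 2) := by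
      rw [Finset.sum_image]
      intro a ha b hb hab
      have h6 := (Finset.mem_filter.mp ha).2
      have h7 := (Finset.mem_filter.mp hb).2
      simp only at hab
      omega
    rw [h5]
    refine Finset.sum_le_sum_of_subset_of_nonneg ?_ fun k _ _ => by positivity
    intro k hk
    obtain ⟨n, hn, rfl⟩ := Finset.mem_image.mp hk
    have h6 := (Finset.mem_filter.mp hn).2
    rw [Finset.mem_range]
    omega
  have hA2 : ∑ n ∈ (s.filter (fun n => ¬ R n)).filter (fun n => ¬ n < x), F n ≤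
      205 * h * (1 / ((L : ℝ) - 1 - 1)) := by
    refine le_trans ?_ (hsum (⌊4 * X⌋₊ + 1))
    have h2 : ∀ n ∈ (s.filter (fun n => ¬ R n)).filter (fun n => ¬ n < x),
        F n ≤ 205 * h * (1 / ((L : ℝ) - 1 + ((n - (x + 2 * L) : ℕ) : ℝ)) ^ 2) := by
      intro n hn
      rw [Finset.mem_filter, Finset.mem_filter] at hn
      have h3 := hsm n hn.1.1
      have hge : x + 2 * L ≤ n := by
        by_contra hcon
        exact hn.1.2 ⟨by omega, by omega⟩
      have h4 : ((n - (x + 2 * L) : ℕ) : ℝ) = (n : ℝ) - (x + 2 * L) := by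
        rw [Nat.cast_sub hge]; push_cast; ring
      have hn5 : (x : ℝ) + 2 * L ≤ n := by exact_mod_cast hge
      refine ker_le hh hX0 h3.1 h3.2 (by linarith) ?_ ?_
      · rw [h4]; linarith
      · rw [abs_of_nonneg (by linarith), h4]
        linarith
    refine (Finset.sum_le_sum h2).trans ?_
    have h5 : ∑ n ∈ (s.filter (fun n => ¬ R n)).filter (fun n => ¬ n < x),
        205 * h * (1 / ((L : ℝ) - 1 + ((n - (x + 2 * L) : ℕ) : ℝ)) ^ 2) =
        ∑ k ∈ ((s.filter (fun n => ¬ R n)).filter (fun n => ¬ n < x)).image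
          (fun n => n - (x + 2 * L)), 205 * h * (1 / ((L : ℝ) - 1 + (k : ℝ)) ^ 2) := by
      rw [Finset.sum_image]
      intro a ha b hb hab
      have ha' := Finset.mem_filter.mp ha
      have hb' := Finset.mem_filter.mp hb
      have ha2 := (Finset.mem_filter.mp ha'.1).2
      have hb2 := (Finset.mem_filter.mp hb'.1).2
      have ha3 : x + 2 * L ≤ a := by
        by_contra hcon
        exact ha2 ⟨by omega, by omega⟩
      have hb3 : x + 2 * L ≤ b := by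
        by_contra hcon
        exact hb2 ⟨by omega, by omega⟩
      simp only at hab
      omega
    rw [h5]
    refine Finset.sum_le_sum_of_subset_of_nonneg ?_ fun k _ _ => by positivity
    intro k hk
    obtain ⟨n, hn, rfl⟩ := Finset.mem_image.mp hk
    have h6 := (Finset.mem_filter.mp (Finset.mem_filter.mp hn).1).1
    rw [hs, Finset.mem_Ioc] at h6
    rw [Finset.mem_range]
    omega
  have e : 410 * h / ((L : ℝ) - 2) =
      205 * h * (1 / ((L : ℝ) - 1 - 1)) + 205 * h * (1 / ((L : ℝ) - 1 - 1)) := by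
    have : (L : ℝ) - 1 - 1 = L - 2 := by ring
    rw [this]
    ring
  rw [e]
  exact add_le_add hA1 hA2

/-- lower bound of the Gaussian average of real coefficients `w n / n`, `|w| ≤ 1`: `q0 w = 1` on
`Z` (near the centre) and `q0 w ≥ -e` on the window of length `2 L`. -/
theorem es_lowerG {h X u : ℝ} {x L : ℕ} (hh : 1 ≤ h) (hX : 4 * ((L : ℝ) + 4 * h + 4) ≤ X)
    (hL3 : 3 ≤ L) (hLh : 4 * h < L) (hx1 : X ≤ x) (hx2 : (x : ℝ) ≤ 2 * X)
    (hu1 : ((x + L : ℕ) : ℝ) ≤ Real.exp u) (hu2 : Real.exp u < ((x + L : ℕ) : ℝ) + 1)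
    (w : ℕ → ℝ) (hw : ∀ n, |w n| ≤ 1) {q0 : ℝ} (hq0 : |q0| = 1)
    {Z : Finset ℕ} (hZ : ∀ n ∈ Z, x + L < n ∧ n ≤ x + L + ⌊4 * h⌋₊ ∧ q0 * w n = 1)
    (e : ℕ → ℝ) (he : ∀ n, x ≤ n → n < x + 2 * L → -e n ≤ q0 * w n) (he0 : ∀ n, 0 ≤ e n)
    {B : ℝ} (hB : ∑ n ∈ (Ioc ⌊X / 4⌋₊ ⌊4 * X⌋₊).filter (fun n => x ≤ n ∧ n < x + 2 * L),
      e n * (1 / (n : ℝ) * gw (4 * h / X) (Real.log n - u)) ≤ B) :
    (Z.card : ℝ) * (0.0149 / h) - B - 410 * h / ((L : ℝ) - 2) ≤
      ‖es (Ioc ⌊X / 4⌋₊ ⌊4 * X⌋₊) (fun n => Real.log n)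
        (fun n => ((w n / n : ℝ) : ℂ)) (4 * h / X) u‖ := by
  have hL0 : (3 : ℝ) ≤ L := by exact_mod_cast hL3
  have hX0 : 0 < X := by linarith
  have hout := outside hh hX hL3 hx1 hx2 hu1 hu2
  push_cast at hu1 hu2
  have hδ : 0 < 4 * h / X := by positivity
  set s : Finset ℕ := Ioc ⌊X / 4⌋₊ ⌊4 * X⌋₊ with hs
  set F : ℕ → ℝ := fun n => 1 / (n : ℝ) * gw (4 * h / X) (Real.log n - u) with hF
  have hF0 : ∀ n, 0 ≤ F n := fun n => by
    simp only [hF]
    exact mul_nonneg (by positivity) (gw_nonneg hδ _)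
  have hes : es s (fun n => Real.log n) (fun n => ((w n / n : ℝ) : ℂ)) (4 * h / X) u
      = ((∑ n ∈ s, w n * F n : ℝ) : ℂ) := by
    unfold es
    push_cast
    refine Finset.sum_congr rfl fun n _ => ?_
    simp only [hF]
    push_cast
    ring
  rw [hes, Complex.norm_real, Real.norm_eq_abs]
  have h1 : q0 * ∑ n ∈ s, w n * F n ≤ |∑ n ∈ s, w n * F n| := by
    refine (le_abs_self _).trans ?_
    rw [abs_mul, hq0, one_mul]
  refine le_trans ?_ h1
  set R : ℕ → Prop := fun n => x ≤ n ∧ n < x + 2 * L with hR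
  rw [Finset.mul_sum, ← Finset.sum_filter_add_sum_filter_not s R]
  -- outside
  have hout' : -(∑ n ∈ s.filter (fun n => ¬ R n), F n) ≤
      ∑ n ∈ s.filter (fun n => ¬ R n), q0 * (w n * F n) := by
    rw [← Finset.sum_neg_distrib]
    refine Finset.sum_le_sum fun n _ => ?_
    have h2 : |q0 * w n| ≤ 1 := by rw [abs_mul, hq0, one_mul]; exact hw n
    have h3 : -1 ≤ q0 * w n := (abs_le.1 h2).1
    nlinarith [mul_le_mul_of_nonneg_right h3 (hF0 n)]
  -- inside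
  set m : ℕ := ⌊4 * h⌋₊ with hm
  have hm1 : (m : ℝ) ≤ 4 * h := Nat.floor_le (by positivity)
  have hmL : m < L := by
    have : (m : ℝ) < L := by linarith
    exact_mod_cast this
  have hZs : Z ⊆ s.filter R := by
    intro n hn
    obtain ⟨h2, h3, -⟩ := hZ n hn
    have h4 : (x : ℝ) + L + 1 ≤ n := by exact_mod_cast h2
    have h5 : (n : ℝ) ≤ x + L + m := by exact_mod_cast h3
    rw [Finset.mem_filter, hs, Finset.mem_Ioc]
    refine ⟨⟨?_, ?_⟩, by omega, by omega⟩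
    · rw [Nat.floor_lt (by positivity)]
      linarith
    · rw [Nat.le_floor_iff (by positivity)]
      linarith
  have hin : (Z.card : ℝ) * (0.0149 / h) - B ≤ ∑ n ∈ s.filter R, q0 * (w n * F n) := by
    have h2 : ∑ n ∈ s.filter R, ((if n ∈ Z then 0.0149 / h else 0) - e n * F n) ≤
        ∑ n ∈ s.filter R, q0 * (w n * F n) := by
      refine sum_le_sum fun n hn => ?_
      have hnR := (mem_filter.1 hn).2
      have h3 := he n hnR.1 hnR.2
      have h4 : -(e n * F n) ≤ q0 * (w n * F n) := by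
        nlinarith [mul_le_mul_of_nonneg_right h3 (hF0 n)]
      by_cases hnZ : n ∈ Z
      · rw [if_pos hnZ]
        obtain ⟨h5, h6, h7⟩ := hZ n hnZ
        have h8 : (x : ℝ) + L + 1 ≤ n := by exact_mod_cast h5
        have h9 : (n : ℝ) ≤ x + L + m := by exact_mod_cast h6
        have h10 : 0.0149 / h ≤ F n :=
          ker_ge hh hX0 (by linarith) (by linarith) (by linarith) (by linarith)
        have h11 : q0 * (w n * F n) = F n := by rw [← mul_assoc, h7, one_mul]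
        have h12 : 0 ≤ e n * F n := mul_nonneg (he0 n) (hF0 n)
        linarith
      · rw [if_neg hnZ]
        linarith
    refine le_trans ?_ h2
    rw [sum_sub_distrib, ← sum_filter, sum_const, nsmul_eq_mul]
    have h3 : (s.filter R).filter (fun n => n ∈ Z) = Z := by
      ext n
      rw [mem_filter]
      exact ⟨fun h => h.2, fun h => ⟨hZs h, h⟩⟩
    rw [h3]
    linarith [hB]
  have hlast : ∑ n ∈ s.filter (fun n => ¬ R n), F n ≤ 410 * h / ((L : ℝ) - 2) := hout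
  linarith

/-- counting the starting points of windows with a large Gaussian average. -/
theorem count_le {h X ρ A : ℝ} {L : ℕ} (hh : 1 ≤ h) (hX : 4 * ((L : ℝ) + 4 * h + 4) ≤ X)
    (hρ : 0 ≤ ρ) (cf : ℕ → ℂ)
    (hen : ∫ u, ‖es (Ioc ⌊X / 4⌋₊ ⌊4 * X⌋₊) (fun n => Real.log n) cf (4 * h / X) u‖ ^ 2 ≤ A)
    (R : Finset ℕ) (hR1 : ∀ x ∈ R, X ≤ (x : ℝ) ∧ (x : ℝ) ≤ 2 * X)
    (hR2 : ∀ x ∈ R, ∀ u : ℝ, ((x + L : ℕ) : ℝ) ≤ Real.exp u →
      Real.exp u < ((x + L : ℕ) : ℝ) + 1 →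
      ρ ≤ ‖es (Ioc ⌊X / 4⌋₊ ⌊4 * X⌋₊) (fun n => Real.log n) cf (4 * h / X) u‖) :
    (R.card : ℝ) * ρ ^ 2 ≤ 3 * X * A := by
  have hL0 : (0 : ℝ) ≤ L := Nat.cast_nonneg _
  have hXpos : 0 < X := by linarith
  set E : ℝ → ℝ := fun u =>
    ‖es (Ioc ⌊X / 4⌋₊ ⌊4 * X⌋₊) (fun n => Real.log n) cf (4 * h / X) u‖ ^ 2 with hE
  have hEi : Integrable E := es_int (by positivity) _ _ _
  set I : ℕ → Set ℝ := fun x =>
    Set.Ico (Real.log ((x + L : ℕ) : ℝ)) (Real.log (((x + L : ℕ) : ℝ) + 1)) with hI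
  have hdisj : Set.Pairwise (↑R : Set ℕ) (Function.onFun Disjoint I) := by
    intro x hx y hy hxy
    have hx0 : (0 : ℝ) < ((x + L : ℕ) : ℝ) := by
      push_cast; linarith [(hR1 x hx).1]
    have hy0 : (0 : ℝ) < ((y + L : ℕ) : ℝ) := by
      push_cast; linarith [(hR1 y hy).1]
    rw [Function.onFun, Set.disjoint_left]
    intro u hux huy
    simp only [hI, Set.mem_Ico] at hux huy
    have a1 := (Real.log_le_iff_le_exp hx0).1 hux.1
    have a2 := (Real.lt_log_iff_exp_lt (by linarith)).1 hux.2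
    have b1 := (Real.log_le_iff_le_exp hy0).1 huy.1
    have b2 := (Real.lt_log_iff_exp_lt (by linarith)).1 huy.2
    have c1 : ((x + L : ℕ) : ℝ) < ((y + L : ℕ) : ℝ) + 1 := lt_of_le_of_lt a1 b2
    have c2 : ((y + L : ℕ) : ℝ) < ((x + L : ℕ) : ℝ) + 1 := lt_of_le_of_lt b1 a2
    have c3 : x + L < y + L + 1 := by exact_mod_cast c1
    have c4 : y + L < x + L + 1 := by exact_mod_cast c2
    exact hxy (by omega)
  have hunion : ∑ x ∈ R, ∫ u in I x, E u ≤ ∫ u, E u := by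
    rw [← integral_biUnion_finset R (fun x _ => measurableSet_Ico) hdisj
      (fun x _ => hEi.integrableOn)]
    exact setIntegral_le_integral hEi (Filter.Eventually.of_forall fun u => by
      simp only [hE, Pi.zero_apply]; positivity)
  have hone : ∀ x ∈ R, ρ ^ 2 * (1 / (3 * X)) ≤ ∫ u in I x, E u := by
    intro x hx
    obtain ⟨hx1, hx2⟩ := hR1 x hx
    have hx0 : (0 : ℝ) < ((x + L : ℕ) : ℝ) := by push_cast; linarith
    have h1 : ∫ _ in I x, ρ ^ 2 ≤ ∫ u in I x, E u := by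
      refine setIntegral_mono_on ?_ hEi.integrableOn measurableSet_Ico fun u hu => ?_
      · exact integrableOn_const (by simp [hI])
      · simp only [hI, Set.mem_Ico] at hu
        have a1 := (Real.log_le_iff_le_exp hx0).1 hu.1
        have a2 := (Real.lt_log_iff_exp_lt (by linarith)).1 hu.2
        have h2 := hR2 x hx u a1 a2
        simp only [hE]
        exact pow_le_pow_left₀ hρ h2 2
    refine le_trans ?_ h1
    rw [setIntegral_const]
    simp only [hI, measureReal_def, Real.volume_Ico, smul_eq_mul]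
    have h3 : (((x + L : ℕ) : ℝ) + 1 - ((x + L : ℕ) : ℝ)) / (3 * X) ≤
        Real.log (((x + L : ℕ) : ℝ) + 1) - Real.log ((x + L : ℕ) : ℝ) := by
      apply log_spacing_real hx0 (by linarith)
      push_cast
      linarith
    have h4 : (((x + L : ℕ) : ℝ) + 1 - ((x + L : ℕ) : ℝ)) = 1 := by ring
    rw [h4] at h3
    have h5 : 0 ≤ Real.log (((x + L : ℕ) : ℝ) + 1) - Real.log ((x + L : ℕ) : ℝ) :=
      le_trans (by positivity) h3
    rw [ENNReal.toReal_ofReal h5, mul_comm]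
    exact mul_le_mul_of_nonneg_right h3 (by positivity)
  have hcard : (R.card : ℝ) * (ρ ^ 2 * (1 / (3 * X))) ≤ A := by
    calc (R.card : ℝ) * (ρ ^ 2 * (1 / (3 * X)))
        = ∑ _x ∈ R, ρ ^ 2 * (1 / (3 * X)) := by
          rw [Finset.sum_const, nsmul_eq_mul]
      _ ≤ ∑ x ∈ R, ∫ u in I x, E u := Finset.sum_le_sum hone
      _ ≤ ∫ u, E u := hunion
      _ ≤ A := hen
  have h6 : (R.card : ℝ) * (ρ ^ 2 * (1 / (3 * X))) = (R.card : ℝ) * ρ ^ 2 / (3 * X) := by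
    ring
  rw [h6, div_le_iff₀ (by positivity)] at hcard
  linarith

end Pool.Agent.MR2.NRc
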