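import Pool.Agent.Lib.MR2.NRcore
import Pool.Agent.Lib.MR2.Defs2

/-!
# TANK MR2: runs, general theorem with a weight `w` and a sparse exceptional set (helper67)
-/

set_option autoImplicit false

namespace Pool.Agent.MR2.NRg

open Finset MeasureTheory Pool.Agent.MRL Pool.Agent.MRL.NR Pool.Agent.MRF Pool.Agent.MRAP.NR
open Pool.Agent.MR2.NRc

/-- the typical integers, as a predicate. -/
def Typ (s : TS) (n : ℕ) : Prop := (∃ p ∈ s.P1, p ∣ n) ∧ (∃ p ∈ s.P2, p ∣ n) ∧ ∃ p ∈ s.P3, p ∣ n

open Classical in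
/-- real form of `s.b`. -/
noncomputable def br (s : TS) (n : ℕ) : ℝ := if Typ s n then 1 else 0

open Classical in
theorem hit_cast (P : Finset ℕ) (n : ℕ) :
    hit P n = (((if ∃ p ∈ P, p ∣ n then (1 : ℝ) else 0) : ℝ) : ℂ) := by
  unfold hit
  by_cases h : ∃ p ∈ P, p ∣ n
  · rw [if_pos h, if_pos h, Complex.ofReal_one]
  · rw [if_neg h, if_neg h, Complex.ofReal_zero]

theorem b_eq (s : TS) (n : ℕ) : s.b n = ((br s n : ℝ) : ℂ) := by
  classical
  have hT : br s n = (if ∃ p ∈ s.P1, p ∣ n then (1 : ℝ) else 0) *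
      (if ∃ p ∈ s.P2, p ∣ n then (1 : ℝ) else 0) * (if ∃ p ∈ s.P3, p ∣ n then (1 : ℝ) else 0) := by
    unfold br
    by_cases h1 : ∃ p ∈ s.P1, p ∣ n
    · by_cases h2 : ∃ p ∈ s.P2, p ∣ n
      · by_cases h3 : ∃ p ∈ s.P3, p ∣ n
        · have hT : Typ s n := ⟨h1, h2, h3⟩
          rw [if_pos h1, if_pos h2, if_pos h3, if_pos hT]
          norm_num
        · have hT : ¬ Typ s n := fun h => h3 h.2.2
          rw [if_pos h1, if_pos h2, if_neg h3, if_neg hT]
          norm_num
      · have hT : ¬ Typ s n := fun h => h2 h.2.1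
        rw [if_pos h1, if_neg h2, if_neg hT]
        norm_num
    · have hT : ¬ Typ s n := fun h => h1 h.1
      rw [if_neg h1, if_neg hT]
      norm_num
  rw [hT, Complex.ofReal_mul, Complex.ofReal_mul, ← hit_cast, ← hit_cast, ← hit_cast]
  rfl

theorem br_cases (s : TS) (n : ℕ) : br s n = 0 ∨ br s n = 1 := by
  classical
  unfold br
  by_cases h : Typ s n
  · right; rw [if_pos h]
  · left; rw [if_neg h]

/-- the total real weight. -/
noncomputable def wt (s : TS) (w : ℕ → ℝ) (q a n : ℕ) : ℝ :=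
  if n ≡ a [MOD q] then lam n * (w n * br s n) else 0

theorem lbB_eq (s : TS) (w : ℕ → ℝ) (q a : ℕ) :
    lbB (fun n => ((w n : ℝ) : ℂ) * s.b n) q a = fun n => ((wt s w q a n / n : ℝ) : ℂ) := by
  funext n
  unfold lbB lbA wt lb
  by_cases h : n ≡ a [MOD q]
  · rw [if_pos h, if_pos h]
    simp only [b_eq]
    push_cast
    ring
  · rw [if_neg h, if_neg h]
    simp

theorem abs_wt_le (s : TS) {w : ℕ → ℝ} (hw : ∀ n, w n = 0 ∨ w n = 1) (q a n : ℕ) :
    |wt s w q a n| ≤ 1 := by
  unfold wt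
  by_cases h : n ≡ a [MOD q]
  · rw [if_pos h, abs_mul, lam_abs, one_mul]
    rcases hw n with h1 | h1 <;> rcases br_cases s n with h2 | h2 <;> rw [h1, h2] <;> simp
  · rw [if_neg h]; simp

/-- crude upper bound of the kernel. -/
theorem ker_crude {h X u : ℝ} {n : ℕ} (hh : 1 ≤ h) (hX : 0 < X) (hn : X / 4 < n) :
    1 / (n : ℝ) * gw (4 * h / X) (Real.log n - u) ≤ 0.4 / h := by
  have hn0 : (0 : ℝ) < n := by linarith [show 0 < X / 4 by positivity]
  have hδ : 0 < 4 * h / X := by positivity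
  have h1 : gw (4 * h / X) (Real.log n - u) ≤ 1 / (4 * h / X * 2.5) := by
    unfold gw
    apply div_le_div₀ zero_le_one _ (by positivity)
      (mul_le_mul_of_nonneg_left sqrt_two_pi_ge hδ.le)
    rw [Real.exp_le_one_iff]
    have : 0 ≤ 1 / (2 * (4 * h / X) ^ 2) := by positivity
    nlinarith [mul_nonneg this (sq_nonneg (Real.log n - u))]
  have h2 : 1 / (n : ℝ) ≤ 4 / X := by
    rw [div_le_div_iff₀ hn0 hX]
    linarith
  calc 1 / (n : ℝ) * gw (4 * h / X) (Real.log n - u) ≤ 4 / X * (1 / (4 * h / X * 2.5)) :=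
        mul_le_mul h2 h1 (gw_nonneg hδ _) (by positivity)
    _ = 0.4 / h := by
        field_simp
        norm_num

/-- **Runs, general form.** -/
theorem runs_gen {q a : ℕ} [NeZero q] (ha : a.Coprime q) (s : TS) (w : ℕ → ℝ)
    (hw : ∀ n, w n = 0 ∨ w n = 1) {X h ε : ℝ} {L : ℕ} (hh : 10 ≤ h)
    (hX : 4 * ((L : ℝ) + 4 * h + 4) ≤ X) (hL : 410000 * (q * h) + 2 ≤ L) (hε : 0 ≤ ε)
    (hen : ∀ χ : DirichletCharacter ℂ q, ∀ Y : ℝ, X / 8 ≤ Y → Y ≤ 8 * X → ∀ T : ℝ, 1 ≤ T →
      T ≤ Y / h → ∫ t : ℝ, ‖AF (fun n => (lamChi χ n * ((w n : ℝ) : ℂ)) * s.b n) Y t‖ ^ 2 * g T t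
        ≤ ε)
    (hD : ∀ y : ℕ, 0.45 * (⌊4 * h⌋₊ : ℝ) / q ≤
      (((Ioc y (y + ⌊4 * h⌋₊)).filter fun n => n ≡ a [MOD q] ∧ w n = 1).card : ℝ))
    (hS : ∀ y : ℕ, (((Ioc y (y + ⌊4 * h⌋₊)).filter fun n => n ≡ a [MOD q] ∧
      ∀ p ∈ s.P1, ¬ p ∣ n).card : ℝ) ≤ 0.01 * (⌊4 * h⌋₊ : ℝ) / q)
    (Ex : Finset ℕ)
    (hEx : ∀ n : ℕ, 1 ≤ n → (n : ℝ) ≤ 16 * X → n ∉ Ex →
      (∃ p ∈ s.P2, p ∣ n) ∧ ∃ p ∈ s.P3, p ∣ n)
    (R : Finset ℕ) (hR : ∀ x ∈ R, X ≤ (x : ℝ) ∧ (x : ℝ) ≤ 2 * X ∧
      ∀ m n : ℕ, x ≤ m → m < x + 2 * L → x ≤ n → n < x + 2 * L → m ≡ a [MOD q] →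
        n ≡ a [MOD q] → w m = 1 → w n = 1 → m ∉ Ex → n ∉ Ex → lam m = lam n) :
    (R.card : ℝ) ≤ 2 * L * (1000 * q / h) * Ex.card +
      32400 * q ^ 2 * (Fintype.card (DirichletCharacter ℂ q) : ℝ) ^ 2 * ε * X := by
  classical
  have hq0 : (1 : ℝ) ≤ q := by
    exact_mod_cast Nat.one_le_iff_ne_zero.2 (NeZero.ne q)
  have hh1 : (1 : ℝ) ≤ h := by linarith
  have hqh : h ≤ q * h := le_mul_of_one_le_left (by linarith) hq0
  have hL0 : (0 : ℝ) ≤ L := Nat.cast_nonneg _
  have hX0 : 0 < X := by linarith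
  have hL3 : 3 ≤ L := by
    have : (3 : ℝ) ≤ L := by nlinarith
    exact_mod_cast this
  have hLh : 4 * h < L := by nlinarith
  set m : ℕ := ⌊4 * h⌋₊ with hm
  have hm1 : (m : ℝ) ≤ 4 * h := Nat.floor_le (by positivity)
  have hm2 : 4 * h - 1 < m := Nat.sub_one_lt_floor _
  have hmL : m < L := by
    have : (m : ℝ) < L := by linarith
    exact_mod_cast this
  set ρ : ℝ := 1 / (60 * q) with hρ
  -- windows with many exceptional elements
  set bad : Finset ℕ := R.filter fun x =>
    h / (1000 * q) < ((Ex.filter fun n => x ≤ n ∧ n < x + 2 * L).card : ℝ) with hbad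
  set good : Finset ℕ := R.filter fun x =>
    ¬ h / (1000 * q) < ((Ex.filter fun n => x ≤ n ∧ n < x + 2 * L).card : ℝ) with hgood
  have hsplit : (R.card : ℝ) = bad.card + good.card := by
    rw [hbad, hgood]
    exact_mod_cast (Finset.card_filter_add_card_filter_not (s := R) _).symm
  have hc0 : 0 < h / (1000 * q) := by positivity
  have hbadle : (bad.card : ℝ) ≤ 2 * L * (1000 * q / h) * Ex.card := by
    have h1 : (bad.card : ℝ) * (h / (1000 * q)) ≤
        ∑ x ∈ bad, ((Ex.filter fun n => x ≤ n ∧ n < x + 2 * L).card : ℝ) := by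
      rw [← nsmul_eq_mul, ← sum_const]
      exact sum_le_sum fun x hx => (mem_filter.1 hx).2.le
    have h2 : ∑ x ∈ bad, ((Ex.filter fun n => x ≤ n ∧ n < x + 2 * L).card : ℝ) ≤
        2 * L * Ex.card := by
      have e1 : ∀ x, ((Ex.filter fun n => x ≤ n ∧ n < x + 2 * L).card : ℝ) =
          ∑ n ∈ Ex, if x ≤ n ∧ n < x + 2 * L then (1 : ℝ) else 0 := by
        intro x
        rw [← sum_filter, sum_const, nsmul_eq_mul, mul_one]
      simp only [e1]
      rw [sum_comm]
      have e2 : ∀ n ∈ Ex, (∑ x ∈ bad, if x ≤ n ∧ n < x + 2 * L then (1 : ℝ) else 0) ≤ 2 * L := by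
        intro n _
        rw [← sum_filter, sum_const, nsmul_eq_mul, mul_one]
        have h3 : bad.filter (fun x => x ≤ n ∧ n < x + 2 * L) ⊆ Ioc (n - 2 * L) n ∪
            (if n < 2 * L then {0} else ∅) := by
          intro x hx
          have hx' := (mem_filter.1 hx).2
          rw [mem_union, mem_Ioc]
          by_cases hn : n < 2 * L
          · rcases Nat.eq_zero_or_pos x with h0 | h0
            · right
              rw [if_pos hn, mem_singleton]
              exact h0
            · left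
              omega
          · left
            omega
        by_cases hn : n < 2 * L
        · -- impossible: `x ≥ X > 2 L`
          have h4 : bad.filter (fun x => x ≤ n ∧ n < x + 2 * L) = ∅ := by
            rw [filter_eq_empty_iff]
            intro x hx hx2
            have hxX := (hR x (mem_filter.1 hx).1).1
            have h5 : (x : ℝ) ≤ n := by exact_mod_cast hx2.1
            have h6 : (n : ℝ) < 2 * L := by exact_mod_cast hn
            linarith
          rw [h4, card_empty, Nat.cast_zero]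
          positivity
        · have h4 := card_le_card h3
          rw [if_neg hn, union_empty, Nat.card_Ioc] at h4
          have h5 : (bad.filter (fun x => x ≤ n ∧ n < x + 2 * L)).card ≤ 2 * L := by omega
          exact_mod_cast h5
      refine (sum_le_sum e2).trans ?_
      rw [sum_const, nsmul_eq_mul]
      linarith
    have h3 : (bad.card : ℝ) ≤ (2 * L * Ex.card) / (h / (1000 * q)) := by
      rw [le_div_iff₀ hc0]
      exact h1.trans h2
    refine h3.trans (le_of_eq ?_)
    field_simp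
  -- the energy
  have hen' : ∀ χ : DirichletCharacter ℂ q, ∀ Y : ℝ, X / 8 ≤ Y → Y ≤ 8 * X → ∀ T : ℝ, 1 ≤ T →
      T ≤ Y / h → ∫ t : ℝ, ‖AF (fun n => lamChi χ n * (((w n : ℝ) : ℂ) * s.b n)) Y t‖ ^ 2 * g T t
        ≤ ε := by
    intro χ Y h1 h2 T h3 h4
    have h5 := hen χ Y h1 h2 T h3 h4
    have h6 : (fun n => lamChi χ n * (((w n : ℝ) : ℂ) * s.b n)) =
        fun n => (lamChi χ n * ((w n : ℝ) : ℂ)) * s.b n := by
      funext n
      ring
    rw [h6]
    exact h5
  have hE := energyB (fun n => ((w n : ℝ) : ℂ) * s.b n) ha hh1 hen' (by linarith) hX0 hε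
  rw [lbB_eq] at hE
  -- the good windows
  have hgoodle : (good.card : ℝ) * ρ ^ 2 ≤
      3 * X * ((Fintype.card (DirichletCharacter ℂ q) : ℝ) ^ 2 * (3 * ε)) := by
    refine count_le hh1 hX (by positivity) _ hE good
      (fun x hx => ⟨(hR x (mem_filter.1 hx).1).1, (hR x (mem_filter.1 hx).1).2.1⟩) ?_
    intro x hx u hu1 hu2
    obtain ⟨hx1, hx2, hx3⟩ := hR x (mem_filter.1 hx).1
    have hxb := not_lt.1 (mem_filter.1 hx).2
    -- the set `Z`
    set Z : Finset ℕ := (Ioc (x + L) (x + L + m)).filter fun n =>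
      (n ≡ a [MOD q] ∧ w n = 1) ∧ (∃ p ∈ s.P1, p ∣ n) ∧ n ∉ Ex with hZd
    have hZin : ∀ n ∈ Z, x + L < n ∧ n ≤ x + L + m := fun n hn => by
      have := mem_Ioc.1 (mem_filter.1 hn).1
      exact this
    have hZcard : 1.7 * h / q ≤ (Z.card : ℝ) := by
      have h1 := hD (x + L)
      have h2 := hS (x + L)
      set A := (Ioc (x + L) (x + L + m)).filter fun n => n ≡ a [MOD q] ∧ w n = 1 with hA
      set S1 := (Ioc (x + L) (x + L + m)).filter fun n => n ≡ a [MOD q] ∧
        ∀ p ∈ s.P1, ¬ p ∣ n with hS1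
      set E1 := Ex.filter fun n => x ≤ n ∧ n < x + 2 * L with hE1
      have h3 : A ⊆ Z ∪ (S1 ∪ E1) := by
        intro n hn
        have hn' := mem_filter.1 hn
        have hnI := mem_Ioc.1 hn'.1
        by_cases hp : ∃ p ∈ s.P1, p ∣ n
        · by_cases he : n ∈ Ex
          · refine mem_union_right _ (mem_union_right _ (mem_filter.2 ⟨he, ?_, ?_⟩)) <;> omega
          · exact mem_union_left _ (mem_filter.2 ⟨hn'.1, hn'.2, hp, he⟩)
        · refine mem_union_right _ (mem_union_left _ (mem_filter.2 ⟨hn'.1, hn'.2.1, ?_⟩))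
          intro p hp1 hp2
          exact hp ⟨p, hp1, hp2⟩
      have h4 : (A.card : ℝ) ≤ Z.card + (S1.card + E1.card) := by
        have h5 := (card_le_card h3).trans ((card_union_le _ _).trans
          (Nat.add_le_add_left (card_union_le _ _) _))
        exact_mod_cast h5
      have h6 : 0.45 * (m : ℝ) / q - 0.01 * (m : ℝ) / q - h / (1000 * q) ≤ Z.card := by
        linarith
      refine le_trans ?_ h6
      have h7 : 0.45 * (m : ℝ) / q - 0.01 * (m : ℝ) / q - h / (1000 * q) =
          (0.44 * m - 0.001 * h) / q := by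
        field_simp
        ring
      rw [h7]
      apply div_le_div_of_nonneg_right _ (by linarith)
      linarith
    have hZne : Z.Nonempty := by
      rw [← card_pos]
      have : (0 : ℝ) < Z.card := lt_of_lt_of_le (by positivity) hZcard
      exact_mod_cast this
    obtain ⟨n0, hn0⟩ := hZne
    have hn0' := mem_filter.1 hn0
    have hn0I := hZin n0 hn0
    -- every non exceptional member of the window has the sign of `n0`
    have hsign : ∀ n, x ≤ n → n < x + 2 * L → n ≡ a [MOD q] → w n = 1 → n ∉ Ex →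
        lam n = lam n0 := by
      intro n h1 h2 h3 h4 h5
      exact hx3 n n0 h1 h2 (by omega) (by omega) h3 hn0'.2.1.1 h4 hn0'.2.1.2 h5 hn0'.2.2.2
    have hll : lam n0 * lam n0 = 1 := by
      have h1 : |lam n0| = 1 := lam_abs _
      have h2 := congrArg (fun z => z ^ 2) h1
      simp only [sq_abs] at h2
      nlinarith
    have hkey := es_lowerG (h := h) (X := X) (u := u) (x := x) (L := L) hh1 hX hL3 hLh hx1 hx2
      hu1 hu2 (wt s w q a) (abs_wt_le s hw q a) (q0 := lam n0) (lam_abs n0) (Z := Z)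
      (fun n hn => by
        obtain ⟨h1, h2⟩ := hZin n hn
        refine ⟨h1, h2, ?_⟩
        have hn' := (mem_filter.1 hn).2
        have hx1' : (1 : ℝ) ≤ n := by
          have : (x : ℝ) ≤ n := by exact_mod_cast (by omega : x ≤ n)
          linarith
        have hn16 : (n : ℝ) ≤ 16 * X := by
          have : (n : ℝ) ≤ x + L + m := by exact_mod_cast h2
          linarith
        have h3 := hEx n (by exact_mod_cast hx1') hn16 hn'.2.2
        have h4 : br s n = 1 := by
          unfold br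
          rw [if_pos ⟨hn'.2.1, h3.1, h3.2⟩]
        unfold wt
        rw [if_pos hn'.1.1, hn'.1.2, h4,
          hsign n (by omega) (by omega) hn'.1.1 hn'.1.2 hn'.2.2]
        rw [one_mul, mul_one, hll])
      (fun n => if n ∈ Ex then 1 else 0)
      (fun n h1 h2 => by
        by_cases hE : n ∈ Ex
        · rw [if_pos hE]
          have h3 : |lam n0 * wt s w q a n| ≤ 1 := by
            rw [abs_mul, lam_abs, one_mul]
            exact abs_wt_le s hw q a n
          exact (abs_le.1 h3).1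
        · rw [if_neg hE, neg_zero]
          unfold wt
          by_cases h3 : n ≡ a [MOD q]
          · rw [if_pos h3]
            rcases hw n with h4 | h4
            · rw [h4]; simp
            · rw [h4, hsign n h1 h2 h3 h4 hE, one_mul, ← mul_assoc, hll, one_mul]
              rcases br_cases s n with h5 | h5 <;> rw [h5] <;> norm_num
          · rw [if_neg h3, mul_zero])
      (fun n => by
        by_cases hE : n ∈ Ex
        · rw [if_pos hE]; norm_num
        · rw [if_neg hE])
      (B := 0.4 / (1000 * q)) (by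
        have h1 : ∀ n ∈ (Ioc ⌊X / 4⌋₊ ⌊4 * X⌋₊).filter (fun n => x ≤ n ∧ n < x + 2 * L),
            (if n ∈ Ex then (1 : ℝ) else 0) *
              (1 / (n : ℝ) * gw (4 * h / X) (Real.log n - u)) ≤
            (if n ∈ Ex then 0.4 / h else 0) := by
          intro n hn
          by_cases hE : n ∈ Ex
          · rw [if_pos hE, if_pos hE, one_mul]
            have hn1 : X / 4 < n :=
              (Nat.floor_lt (by positivity)).1 (mem_Ioc.1 (mem_filter.1 hn).1).1
            exact ker_crude hh1 hX0 hn1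
          · rw [if_neg hE, if_neg hE, zero_mul]
        refine (sum_le_sum h1).trans ?_
        rw [← sum_filter, sum_const, nsmul_eq_mul]
        have h2 : ((Ioc ⌊X / 4⌋₊ ⌊4 * X⌋₊).filter (fun n => x ≤ n ∧ n < x + 2 * L)).filter
            (fun n => n ∈ Ex) ⊆ Ex.filter fun n => x ≤ n ∧ n < x + 2 * L := by
          intro n hn
          have hn' := mem_filter.1 hn
          exact mem_filter.2 ⟨hn'.2, (mem_filter.1 hn'.1).2⟩
        have h3 : ((((Ioc ⌊X / 4⌋₊ ⌊4 * X⌋₊).filter (fun n => x ≤ n ∧ n < x + 2 * L)).filter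
            (fun n => n ∈ Ex)).card : ℝ) ≤ h / (1000 * q) :=
          le_trans (by exact_mod_cast card_le_card h2) hxb
        calc _ ≤ h / (1000 * q) * (0.4 / h) := mul_le_mul_of_nonneg_right h3 (by positivity)
          _ = 0.4 / (1000 * q) := by field_simp)
    refine le_trans ?_ hkey
    have h1 : 1.7 * h / q * (0.0149 / h) ≤ (Z.card : ℝ) * (0.0149 / h) :=
      mul_le_mul_of_nonneg_right hZcard (by positivity)
    have h2 : 1.7 * h / q * (0.0149 / h) = 0.02533 / q := by
      field_simp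
      norm_num
    have h3 : 410 * h / ((L : ℝ) - 2) ≤ 0.001 / q := by
      rw [div_le_div_iff₀ (by nlinarith) (by linarith)]
      nlinarith
    have h4 : (0.4 : ℝ) / (1000 * q) = 0.0004 / q := by
      field_simp
      norm_num
    have h5 : ρ = (1 / 60) / q := by
      rw [hρ]
      field_simp
    have h6 : ρ ≤ 0.02533 / q - 0.0004 / q - 0.001 / q := by
      rw [h5, ← sub_div, ← sub_div]
      apply div_le_div_of_nonneg_right _ (by linarith)
      norm_num
    rw [h4]
    linarith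
  have hg2 : (good.card : ℝ) ≤
      32400 * q ^ 2 * (Fintype.card (DirichletCharacter ℂ q) : ℝ) ^ 2 * ε * X := by
    have h1 : ρ ^ 2 = 1 / (3600 * q ^ 2) := by
      rw [hρ]
      field_simp
      norm_num
    rw [h1, mul_one_div, div_le_iff₀ (by positivity)] at hgoodle
    linarith
  rw [hsplit]
  linarith

end Pool.Agent.MR2.NRg
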