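import Pool.Agent.Lib.MR2.MRQa
import Pool.Agent.Lib.MRL.ML

/-! TANK MR2, row PQ: the parameters of MRQ.  `L = log X`, `u = L ^ (η / 8)`.  helper89. -/

set_option autoImplicit false

namespace Pool.Agent.MR2.MQ

open Finset Pool.Agent.MRL Pool.Agent.MRF Pool.Agent.MRHal
open Pool.Agent.MRL.DC (PP)

noncomputable section

/-- the scales. -/
def sc (κ a c η L : ℝ) : TS where
  H := ⌊L ^ η⌋₊
  a1 := ⌈(⌊L ^ η⌋₊ : ℝ) * (κ * Real.log L)⌉₊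
  b1 := ⌊(⌊L ^ η⌋₊ : ℝ) * (a / 4 * Real.log L)⌋₊
  a2 := ⌈(⌊L ^ η⌋₊ : ℝ) * (c * Real.log L)⌉₊
  b2 := ⌊(⌊L ^ η⌋₊ : ℝ) * L ^ η⌋₊
  a3 := ⌈(⌊L ^ η⌋₊ : ℝ) * (2 * L) ^ (1 - η)⌉₊
  b3 := ⌊(⌊L ^ η⌋₊ : ℝ) * L ^ (1 - η / 2)⌋₊

/-- what we need about the scales and about `L = log X`. -/
structure Par (θ ϑ a K κ η M L : ℝ) (s : TS) : Prop where
  θ0 : 0 < θ
  θ1 : θ ≤ 1
  ϑ0 : 0 < ϑ
  ϑ1 : ϑ ≤ 1
  a0 : 0 < a
  a1 : a ≤ 1
  K1 : 1 ≤ K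
  κe : κ = a / 16 * Real.exp (-K - 23)
  η0 : 0 < η
  ηκ : η ≤ ϑ / 512 * κ
  ηθ : η ≤ θ / 16
  M1 : 1000 ≤ M
  Mϑ : 4000 / ϑ ≤ M
  Mκ : 16 / κ ≤ M
  Mη : 1 / η ≤ M
  L1 : 1 ≤ L
  Lℓ : M ^ 2 ≤ Real.log L
  big : M * (Real.log L + 1) ≤ L ^ (η / 8)
  H1 : 1 ≤ s.H
  Hu : (s.H : ℝ) ≤ L ^ η
  Hl : L ^ η ≤ 2 * s.H
  l1 : κ * Real.log L ≤ (s.a1 : ℝ) / s.H
  u1 : (s.a1 : ℝ) / s.H ≤ κ * Real.log L + 1
  m1 : (s.b1 : ℝ) / s.H ≤ a / 4 * Real.log L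
  n1 : a / 4 * Real.log L - 1 ≤ (s.b1 : ℝ) / s.H
  l2 : 3072 / ϑ * Real.log L ≤ (s.a2 : ℝ) / s.H
  u2 : (s.a2 : ℝ) / s.H ≤ 3072 / ϑ * Real.log L + 1
  m2 : (s.b2 : ℝ) / s.H ≤ L ^ η
  n2 : L ^ η - 1 ≤ (s.b2 : ℝ) / s.H
  l3 : (2 * L) ^ (1 - η) ≤ (s.a3 : ℝ) / s.H
  u3 : (s.a3 : ℝ) / s.H ≤ (2 * L) ^ (1 - η) + 1
  m3 : (s.b3 : ℝ) / s.H ≤ L ^ (1 - η / 2)
  n3 : L ^ (1 - η / 2) - 1 ≤ (s.b3 : ℝ) / s.H

theorem ceil_div {H : ℕ} (hH : 1 ≤ H) {y : ℝ} (hy : 0 ≤ y) :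
    y ≤ (⌈(H : ℝ) * y⌉₊ : ℝ) / H ∧ (⌈(H : ℝ) * y⌉₊ : ℝ) / H ≤ y + 1 := by
  have h0 : (1 : ℝ) ≤ H := by exact_mod_cast hH
  have h1 := Nat.le_ceil ((H : ℝ) * y)
  have h2 := Nat.ceil_lt_add_one (a := (H : ℝ) * y) (by positivity)
  constructor
  · rw [le_div_iff₀ (by linarith)]
    linarith
  · rw [div_le_iff₀ (by linarith)]
    nlinarith

theorem floor_div {H : ℕ} (hH : 1 ≤ H) {y : ℝ} (hy : 0 ≤ y) :
    (⌊(H : ℝ) * y⌋₊ : ℝ) / H ≤ y ∧ y - 1 ≤ (⌊(H : ℝ) * y⌋₊ : ℝ) / H := by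
  have h0 : (1 : ℝ) ≤ H := by exact_mod_cast hH
  have h1 := Nat.floor_le (a := (H : ℝ) * y) (by positivity)
  have h2 := Nat.lt_floor_add_one ((H : ℝ) * y)
  constructor
  · rw [div_le_iff₀ (by linarith)]
    linarith
  · rw [le_div_iff₀ (by linarith)]
    nlinarith

/-- the parameters exist for large `L`. -/
theorem par_ev {θ ϑ a K κ η M : ℝ} (θ0 : 0 < θ) (θ1 : θ ≤ 1) (ϑ0 : 0 < ϑ) (ϑ1 : ϑ ≤ 1)
    (a0 : 0 < a) (a1 : a ≤ 1) (K1 : 1 ≤ K) (κe : κ = a / 16 * Real.exp (-K - 23)) (η0 : 0 < η)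
    (ηκ : η ≤ ϑ / 512 * κ) (ηθ : η ≤ θ / 16) (M1 : 1000 ≤ M) (Mϑ : 4000 / ϑ ≤ M)
    (Mκ : 16 / κ ≤ M) (Mη : 1 / η ≤ M) :
    ∀ᶠ L : ℝ in Filter.atTop, Par θ ϑ a K κ η M L (sc κ a (3072 / ϑ) η L) := by
  have ev1 : ∀ᶠ L : ℝ in Filter.atTop, M ^ 2 ≤ Real.log L :=
    Real.tendsto_log_atTop.eventually_ge_atTop _
  have ev2 : ∀ᶠ L : ℝ in Filter.atTop, Real.log L ≤ 1 / (2 * M) * L ^ (η / 8) := by
    have h := (isLittleO_log_rpow_atTop (r := η / 8) (by positivity)).bound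
      (c := 1 / (2 * M)) (by positivity)
    filter_upwards [h, Filter.eventually_ge_atTop 1] with L h1 h2
    have h3 : 0 ≤ L ^ (η / 8) := Real.rpow_nonneg (by linarith) _
    rw [Real.norm_eq_abs, Real.norm_eq_abs, abs_of_nonneg h3] at h1
    exact (le_abs_self _).trans h1
  have ev3 : ∀ᶠ L : ℝ in Filter.atTop, 2 * M ≤ L ^ (η / 8) :=
    (tendsto_rpow_atTop (by positivity)).eventually_ge_atTop _
  filter_upwards [ev1, ev2, ev3, Filter.eventually_ge_atTop 1] with L e1 e2 e3 L1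
  have hM0 : 0 < M := by linarith
  have hκ0 : 0 < κ := by rw [κe]; positivity
  have hℓ0 : 0 ≤ Real.log L := Real.log_nonneg L1
  have hLη : (1 : ℝ) ≤ L ^ η := Real.one_le_rpow L1 η0.le
  have hH1 : 1 ≤ ⌊L ^ η⌋₊ := (Nat.one_le_floor_iff _).2 hLη
  have hHu : ((⌊L ^ η⌋₊ : ℕ) : ℝ) ≤ L ^ η := Nat.floor_le (by linarith)
  have hHl : L ^ η ≤ 2 * ((⌊L ^ η⌋₊ : ℕ) : ℝ) := by
    have h1 := Nat.lt_floor_add_one (L ^ η)
    have h2 : (1 : ℝ) ≤ ((⌊L ^ η⌋₊ : ℕ) : ℝ) := by exact_mod_cast hH1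
    linarith
  have b1 : 0 ≤ κ * Real.log L := by positivity
  have b2 : 0 ≤ a / 4 * Real.log L := by positivity
  have b3 : 0 ≤ 3072 / ϑ * Real.log L := by positivity
  have b4 : 0 ≤ (2 * L) ^ (1 - η) := Real.rpow_nonneg (by linarith) _
  have b5 : 0 ≤ L ^ (1 - η / 2) := Real.rpow_nonneg (by linarith) _
  exact {
    θ0 := θ0, θ1 := θ1, ϑ0 := ϑ0, ϑ1 := ϑ1, a0 := a0, a1 := a1, K1 := K1, κe := κe, η0 := η0
    ηκ := ηκ, ηθ := ηθ, M1 := M1, Mϑ := Mϑ, Mκ := Mκ, Mη := Mη, L1 := L1, Lℓ := e1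
    big := by
      have h1 : M * Real.log L ≤ L ^ (η / 8) / 2 := by
        have := mul_le_mul_of_nonneg_left e2 hM0.le
        have h2 : M * (1 / (2 * M) * L ^ (η / 8)) = L ^ (η / 8) / 2 := by
          field_simp
        linarith
      linarith
    H1 := hH1, Hu := hHu, Hl := hHl
    l1 := (ceil_div hH1 b1).1, u1 := (ceil_div hH1 b1).2
    m1 := (floor_div hH1 b2).1, n1 := (floor_div hH1 b2).2
    l2 := (ceil_div hH1 b3).1, u2 := (ceil_div hH1 b3).2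
    m2 := (floor_div hH1 (by linarith)).1, n2 := (floor_div hH1 (by linarith)).2
    l3 := (ceil_div hH1 b4).1, u3 := (ceil_div hH1 b4).2
    m3 := (floor_div hH1 b5).1, n3 := (floor_div hH1 b5).2 }

namespace Par

variable {θ ϑ a K κ η M L : ℝ} {s : TS} (h : Par θ ϑ a K κ η M L s)

include h

theorem κ0 : 0 < κ := by rw [h.κe]; have := h.a0; positivity

theorem κa : κ ≤ a / 16 := by
  rw [h.κe]
  have h1 : Real.exp (-K - 23) ≤ 1 := Real.exp_le_one_iff.2 (by linarith [h.K1])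
  have := h.a0
  nlinarith

theorem κ1 : κ ≤ 1 / 16 := by linarith [h.κa, h.a1]

theorem η1 : η ≤ 1 / 8192 := by
  have h1 := h.ηκ
  have h2 := h.κ1
  have h3 := h.ϑ1
  have h4 := h.κ0
  nlinarith [h.ϑ0]

theorem η2κ : 2 * η ≤ κ := by
  have h1 := h.ηκ
  have h3 := h.ϑ1
  have h4 := h.κ0
  nlinarith [h.ϑ0]

theorem ℓM : M ≤ Real.log L := by
  have h1 := h.M1
  have h2 := h.Lℓ
  nlinarith

theorem ℓ0 : 1000 ≤ Real.log L := h.M1.trans h.ℓM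

/-- `κ log L ≥ 16`. -/
theorem κℓ : 16 * M ≤ κ * Real.log L := by
  have h1 := h.Mκ
  have h4 := h.κ0
  rw [div_le_iff₀ h4] at h1
  have h2 := h.Lℓ
  have h3 := h.M1
  have h5 : κ * M ^ 2 ≤ κ * Real.log L := mul_le_mul_of_nonneg_left h2 h4.le
  nlinarith

theorem ηℓ : M ≤ η * Real.log L := by
  have h1 := h.Mη
  have h4 := h.η0
  rw [div_le_iff₀ h4] at h1
  have h2 := h.Lℓ
  have h3 := h.M1
  have h5 : η * M ^ 2 ≤ η * Real.log L := mul_le_mul_of_nonneg_left h2 h4.le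
  nlinarith

theorem Lpos : 0 < L := by linarith [h.L1]

theorem upos : 0 < L ^ (η / 8) := Real.rpow_pos_of_pos h.Lpos _

theorem uM : M * (Real.log L + 1) ≤ L ^ (η / 8) := h.big

theorem u1000 : 1000000 ≤ L ^ (η / 8) := by
  have h1 := h.big
  have h2 := h.ℓ0
  have h3 := h.M1
  nlinarith

theorem uM' : 1000 * M ≤ L ^ (η / 8) := by
  have h1 := h.big
  have h2 := h.ℓ0
  have h3 := h.M1
  nlinarith

theorem upow (n : ℕ) : (L ^ (η / 8)) ^ n = L ^ (η / 8 * n) := by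
  rw [← Real.rpow_natCast, ← Real.rpow_mul h.Lpos.le]

theorem u8 : L ^ η = (L ^ (η / 8)) ^ 8 := by
  rw [h.upow]
  congr 1
  push_cast
  ring

theorem u4 : L ^ (η / 2) = (L ^ (η / 8)) ^ 4 := by
  rw [h.upow]
  congr 1
  push_cast
  ring

theorem u64 : (L ^ (η / 8)) ^ 64 ≤ L := by
  rw [h.upow]
  calc L ^ (η / 8 * (64 : ℕ)) ≤ L ^ (1 : ℝ) := by
        apply Real.rpow_le_rpow_of_exponent_le h.L1
        push_cast
        linarith [h.η1]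
    _ = L := Real.rpow_one L

theorem L3 : L ^ (1 - η) = L / (L ^ (η / 8)) ^ 8 := by
  rw [Real.rpow_sub h.Lpos, Real.rpow_one, h.u8]

theorem L3' : L ^ (1 - η / 2) = L / (L ^ (η / 8)) ^ 4 := by
  rw [Real.rpow_sub h.Lpos, Real.rpow_one, h.u4]

theorem a3l : L / (L ^ (η / 8)) ^ 8 ≤ (s.a3 : ℝ) / s.H := by
  rw [← h.L3]
  refine le_trans ?_ h.l3
  exact Real.rpow_le_rpow h.Lpos.le (by linarith [h.Lpos]) (by linarith [h.η1])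

theorem L8 : (L ^ (η / 8)) ^ 56 ≤ L / (L ^ (η / 8)) ^ 8 := by
  have h1 := h.upos
  rw [le_div_iff₀ (by positivity), ← pow_add]
  exact h.u64

theorem a3u : (s.a3 : ℝ) / s.H ≤ 3 * (L / (L ^ (η / 8)) ^ 8) := by
  have h1 : (2 * L) ^ (1 - η) ≤ 2 * L ^ (1 - η) := by
    rw [Real.mul_rpow (by norm_num) h.Lpos.le]
    refine mul_le_mul_of_nonneg_right ?_ (Real.rpow_nonneg h.Lpos.le _)
    calc (2 : ℝ) ^ (1 - η) ≤ (2 : ℝ) ^ (1 : ℝ) :=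
          Real.rpow_le_rpow_of_exponent_le (by norm_num) (by linarith [h.η0])
      _ = 2 := Real.rpow_one 2
  rw [h.L3] at h1
  have h2 := h.L8
  have h3 : (1 : ℝ) ≤ (L ^ (η / 8)) ^ 56 := one_le_pow₀ (by linarith [h.u1000])
  linarith [h.u3]

theorem b3u : (s.b3 : ℝ) / s.H ≤ L / (L ^ (η / 8)) ^ 4 := by
  rw [← h.L3']
  exact h.m3

theorem b3l : L / (L ^ (η / 8)) ^ 4 / 2 ≤ (s.b3 : ℝ) / s.H := by
  have h1 := h.n3
  rw [h.L3'] at h1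
  have h2 : (2 : ℝ) ≤ L / (L ^ (η / 8)) ^ 4 := by
    have h1 := h.upos
    have h3 := h.u1000
    rw [le_div_iff₀ (by positivity)]
    refine le_trans ?_ h.u64
    calc 2 * (L ^ (η / 8)) ^ 4 ≤ (L ^ (η / 8)) ^ 60 * (L ^ (η / 8)) ^ 4 := by
          refine mul_le_mul_of_nonneg_right ?_ (by positivity)
          calc (2 : ℝ) ≤ L ^ (η / 8) := by linarith
            _ ≤ (L ^ (η / 8)) ^ 60 := le_self_pow₀ (by linarith) (by norm_num)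
      _ = (L ^ (η / 8)) ^ 64 := by rw [← pow_add]
  linarith

theorem b2u : (s.b2 : ℝ) / s.H ≤ (L ^ (η / 8)) ^ 8 := by
  rw [← h.u8]
  exact h.m2

theorem b2l : (L ^ (η / 8)) ^ 8 / 2 ≤ (s.b2 : ℝ) / s.H := by
  have h1 := h.n2
  rw [h.u8] at h1
  have h3 := h.u1000
  have h2 : (2 : ℝ) ≤ (L ^ (η / 8)) ^ 8 := by
    calc (2 : ℝ) ≤ L ^ (η / 8) := by linarith
      _ ≤ (L ^ (η / 8)) ^ 8 := le_self_pow₀ (by linarith) (by norm_num)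
  linarith

theorem a2u : (s.a2 : ℝ) / s.H ≤ L ^ (η / 8) := by
  have h1 := h.u2
  have h2 := h.Mϑ
  have h3 := h.big
  have h4 := h.ϑ0
  have h5 := h.ℓ0
  have h6 : 3072 / ϑ ≤ M := by
    refine le_trans ?_ h2
    exact div_le_div_of_nonneg_right (by norm_num) h4.le
  have h7 := h.M1
  nlinarith

theorem Hpos : (0 : ℝ) < s.H := by exact_mod_cast h.H1

theorem ord1 : s.H ≤ s.a1 := by
  have h1 : (1 : ℝ) ≤ (s.a1 : ℝ) / s.H := by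
    have := h.κℓ
    have := h.M1
    have := h.l1
    linarith
  rw [le_div_iff₀ h.Hpos, one_mul] at h1
  exact_mod_cast h1

theorem le_of_div {m n : ℕ} (hmn : (m : ℝ) / s.H ≤ (n : ℝ) / s.H) : m ≤ n := by
  rw [div_le_div_iff_of_pos_right h.Hpos] at hmn
  exact_mod_cast hmn

theorem ord12 : s.a1 ≤ s.b1 := by
  apply h.le_of_div
  have h1 := h.u1
  have h2 := h.n1
  have h3 := h.κa
  have h4 := h.κℓ
  have h5 := h.M1
  have h6 : κ * Real.log L ≤ a / 16 * Real.log L :=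
    mul_le_mul_of_nonneg_right h3 (by linarith [h.ℓ0])
  linarith

theorem ord23 : s.b1 ≤ s.a2 := by
  apply h.le_of_div
  have h1 := h.m1
  have h2 := h.l2
  have h3 : a / 4 ≤ 3072 / ϑ := by
    rw [le_div_iff₀ h.ϑ0]
    nlinarith [h.a1, h.ϑ1, h.ϑ0, h.a0]
  have h6 : a / 4 * Real.log L ≤ 3072 / ϑ * Real.log L :=
    mul_le_mul_of_nonneg_right h3 (by linarith [h.ℓ0])
  linarith

theorem ord34 : s.a2 ≤ s.b2 := by
  apply h.le_of_div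
  have h1 := h.a2u
  have h2 := h.b2l
  have h3 := h.u1000
  have h4 : (L ^ (η / 8)) ^ 2 ≤ (L ^ (η / 8)) ^ 8 := pow_le_pow_right₀ (by linarith) (by norm_num)
  nlinarith

theorem ord45 : s.b2 ≤ s.a3 := by
  apply h.le_of_div
  have h1 := h.b2u
  have h2 := h.a3l
  have h3 := h.L8
  have h4 : (L ^ (η / 8)) ^ 8 ≤ (L ^ (η / 8)) ^ 56 :=
    pow_le_pow_right₀ (by linarith [h.u1000]) (by norm_num)
  linarith

theorem ord56 : s.a3 ≤ s.b3 := by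
  apply h.le_of_div
  refine h.a3u.trans (le_trans ?_ h.b3l)
  have h1 := h.upos
  have h2 := h.u1000
  have h3 := h.Lpos
  have e1 : L / (L ^ (η / 8)) ^ 4 / 2 = L / (L ^ (η / 8)) ^ 8 * ((L ^ (η / 8)) ^ 4 / 2) := by
    field_simp
  rw [e1, mul_comm (3 : ℝ)]
  refine mul_le_mul_of_nonneg_left ?_ (by positivity)
  have h4 : (L ^ (η / 8)) ^ 1 ≤ (L ^ (η / 8)) ^ 4 := pow_le_pow_right₀ (by linarith) (by norm_num)
  linarith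

end Par

end

end Pool.Agent.MR2.MQ
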