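import Pool.Agent.Lib.MR2.PQ

/-! TANK MR2, row PQ (2): the numerical conditions.  `L = log X`, `exp L / 8 ≤ Y ≤ 8 exp L`.
helper89. -/

set_option autoImplicit false

namespace Pool.Agent.MR2.MQ

open Finset Pool.Agent.MRL Pool.Agent.MRF Pool.Agent.MRHal
open Pool.Agent.MRL.DC (PP)

noncomputable section

namespace Par

variable {θ ϑ a K κ η M L : ℝ} {s : TS} (h : Par θ ϑ a K κ η M L s)

include h

theorem rpow_exp (x : ℝ) : L ^ x = Real.exp (x * Real.log L) := by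
  rw [Real.rpow_def_of_pos h.Lpos, mul_comm]

theorem L1000 : 1000000 ≤ L := by
  refine le_trans ?_ h.u64
  calc (1000000 : ℝ) ≤ L ^ (η / 8) := h.u1000
    _ ≤ _ := le_self_pow₀ (by linarith [h.u1000]) (by norm_num)

/-! #### the size of `Y` -/

theorem Y0 {Y : ℝ} (hY : Real.exp L / 8 ≤ Y) : 0 < Y :=
  lt_of_lt_of_le (by positivity) hY

theorem logY_l {Y : ℝ} (hY : Real.exp L / 8 ≤ Y) : L / 2 ≤ Real.log Y := by
  rw [Real.le_log_iff_exp_le (h.Y0 hY)]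
  refine le_trans ?_ hY
  rw [le_div_iff₀ (by norm_num)]
  have h1 := h.L1000
  have e1 : Real.exp L = Real.exp (L / 2) * Real.exp (L / 2) := by
    rw [← Real.exp_add]; congr 1; ring
  rw [e1]
  refine mul_le_mul_of_nonneg_left ?_ (Real.exp_pos _).le
  have h2 := Real.add_one_le_exp (L / 2)
  linarith

theorem logY_u {Y : ℝ} (hY0 : 0 < Y) (hY : Y ≤ 8 * Real.exp L) : Real.log Y ≤ 2 * L := by
  rw [Real.log_le_iff_le_exp hY0]
  refine hY.trans ?_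
  have h1 := h.L1000
  have e1 : Real.exp (2 * L) = Real.exp L * Real.exp L := by
    rw [← Real.exp_add]; congr 1; ring
  rw [e1]
  refine mul_le_mul_of_nonneg_right ?_ (Real.exp_pos _).le
  have h2 := Real.add_one_le_exp L
  linarith

theorem H_le_L : (s.H : ℝ) ≤ L := by
  refine h.Hu.trans ?_
  calc L ^ η ≤ L ^ (1 : ℝ) := Real.rpow_le_rpow_of_exponent_le h.L1 (by linarith [h.η1])
    _ = L := Real.rpow_one L

theorem H_le {Y : ℝ} (hY : Real.exp L / 8 ≤ Y) : (s.H : ℝ) ≤ Y := by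
  refine h.H_le_L.trans (le_trans ?_ hY)
  rw [le_div_iff₀ (by norm_num)]
  have h1 := h.L1000
  have h2 := Real.add_one_le_exp (L / 2)
  have e1 : Real.exp L = Real.exp (L / 2) * Real.exp (L / 2) := by
    rw [← Real.exp_add]; congr 1; ring
  rw [e1]
  nlinarith

/-! #### the cells -/

theorem Hsq1 : (s.H : ℝ) ^ 2 ≤ Real.exp ((s.a1 : ℝ) / s.H) := by
  have h1 := h.Hu
  have h2 := h.l1
  have h0 := h.Hpos
  calc (s.H : ℝ) ^ 2 ≤ (L ^ η) ^ 2 := pow_le_pow_left₀ h0.le h1 2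
    _ = Real.exp (2 * (η * Real.log L)) := by
        rw [h.rpow_exp, ← Real.exp_nat_mul]
        norm_num
    _ ≤ _ := by
        apply Real.exp_le_exp.2
        refine le_trans ?_ h2
        have h3 := h.η2κ
        have h4 := h.ℓ0
        nlinarith

theorem div_mono {m n : ℕ} (hmn : m ≤ n) : (m : ℝ) / s.H ≤ (n : ℝ) / s.H :=
  div_le_div_of_nonneg_right (by exact_mod_cast hmn) h.Hpos.le

theorem Hsq2 : (s.H : ℝ) ^ 2 ≤ Real.exp ((s.a2 : ℝ) / s.H) :=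
  h.Hsq1.trans (Real.exp_le_exp.2 (h.div_mono (h.ord12.trans h.ord23)))

theorem Hsq3 : (s.H : ℝ) ^ 2 ≤ Real.exp ((s.a3 : ℝ) / s.H) :=
  h.Hsq2.trans (Real.exp_le_exp.2 (h.div_mono (h.ord34.trans h.ord45)))

theorem b3_L : (s.b3 : ℝ) / s.H ≤ L / 1000 := by
  refine h.b3u.trans ?_
  have h1 := h.u1000
  have h2 : (1000 : ℝ) ≤ (L ^ (η / 8)) ^ 4 := by
    calc (1000 : ℝ) ≤ L ^ (η / 8) := by linarith
      _ ≤ _ := le_self_pow₀ (by linarith) (by norm_num)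
  exact div_le_div_of_nonneg_left h.Lpos.le (by norm_num) h2

theorem expb3 {Y : ℝ} (hY : Real.exp L / 8 ≤ Y) : Real.exp ((s.b3 : ℝ) / s.H) ≤ √Y := by
  apply Real.le_sqrt_of_sq_le
  refine le_trans ?_ hY
  have h1 := h.b3_L
  have h2 := h.L1000
  rw [← Real.exp_nat_mul, le_div_iff₀ (by norm_num)]
  have e1 : Real.exp L = Real.exp (L / 2) * Real.exp (L / 2) := by
    rw [← Real.exp_add]; congr 1; ring
  rw [e1]
  refine mul_le_mul (Real.exp_le_exp.2 ?_) ?_ (by norm_num) (Real.exp_pos _).le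
  · push_cast
    linarith
  · have h2 := Real.add_one_le_exp (L / 2)
    linarith

theorem expb2 {Y : ℝ} (hY : Real.exp L / 8 ≤ Y) : Real.exp ((s.b2 : ℝ) / s.H) ≤ √Y :=
  (Real.exp_le_exp.2 (h.div_mono (h.ord45.trans h.ord56))).trans (h.expb3 hY)

theorem expb1 {Y : ℝ} (hY : Real.exp L / 8 ≤ Y) : Real.exp ((s.b1 : ℝ) / s.H) ≤ √Y :=
  (Real.exp_le_exp.2 (h.div_mono (h.ord23.trans h.ord34))).trans (h.expb2 hY)

/-- (N4). -/
theorem Texp {Y T : ℝ} (hY : Real.exp L / 8 ≤ Y) (hT0 : 0 < T) (hT : T ≤ Y / L ^ a) :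
    T * Real.exp ((s.b1 : ℝ) / s.H) ≤ Y := by
  have hY0 := h.Y0 hY
  have h1 : Real.exp ((s.b1 : ℝ) / s.H) ≤ L ^ a := by
    rw [h.rpow_exp]
    apply Real.exp_le_exp.2
    refine h.m1.trans ?_
    have := h.a0
    have := h.ℓ0
    nlinarith
  have h2 : 0 < L ^ a := Real.rpow_pos_of_pos h.Lpos _
  calc T * Real.exp ((s.b1 : ℝ) / s.H) ≤ Y / L ^ a * L ^ a :=
        mul_le_mul hT h1 (Real.exp_pos _).le (by positivity)
    _ = Y := by field_simp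

theorem TY {Y T : ℝ} (hY : Real.exp L / 8 ≤ Y) (hT : T ≤ Y / L ^ a) : T ≤ Y := by
  have hY0 := h.Y0 hY
  refine hT.trans (div_le_self hY0.le ?_)
  exact Real.one_le_rpow h.L1 h.a0.le

/-! #### first scale -/

theorem expneg_le {x : ℝ} (hx : 16 * η * Real.log L ≤ x) :
    Real.exp (-x) ≤ 1 / (L ^ (η / 8)) ^ 128 := by
  have h1 := h.upos
  rw [le_div_iff₀ (by positivity), h.upow, h.rpow_exp, ← Real.exp_add]
  apply Real.exp_le_one_iff.2
  push_cast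
  linarith

/-- (N5). -/
theorem step1 : (s.b1 : ℝ) ^ 2 * Real.exp (-(2 * (ϑ / 64) * s.a1 / s.H)) ≤
    1 / (L ^ (η / 8)) ^ 8 := by
  have hu := h.upos
  have hu1 : 1 ≤ L ^ (η / 8) := by linarith [h.u1000]
  have e1 : Real.exp (-(2 * (ϑ / 64) * s.a1 / s.H)) ≤ 1 / (L ^ (η / 8)) ^ 128 := by
    apply h.expneg_le
    have e2 : 2 * (ϑ / 64) * (s.a1 : ℝ) / s.H = ϑ / 32 * ((s.a1 : ℝ) / s.H) := by ring
    rw [e2]
    have h1 := h.l1
    have h2 := h.ηκ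
    have h3 := h.ϑ0
    have h4 := h.ℓ0
    have h5 : ϑ / 32 * (κ * Real.log L) ≤ ϑ / 32 * ((s.a1 : ℝ) / s.H) :=
      mul_le_mul_of_nonneg_left h1 (by positivity)
    refine le_trans ?_ h5
    have h6 : 16 * η ≤ ϑ / 32 * κ := by linarith
    calc 16 * η * Real.log L ≤ ϑ / 32 * κ * Real.log L :=
          mul_le_mul_of_nonneg_right h6 (by linarith)
      _ = _ := by ring
  have e2 : (s.b1 : ℝ) ≤ (L ^ (η / 8)) ^ 9 := by
    have h1 := h.m1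
    rw [div_le_iff₀ h.Hpos] at h1
    refine h1.trans ?_
    have h2 : a / 4 * Real.log L ≤ L ^ (η / 8) := by
      have := h.big
      have := h.M1
      have := h.ℓ0
      have := h.a1
      have := h.a0
      nlinarith
    have h3 := h.Hu
    rw [h.u8] at h3
    calc a / 4 * Real.log L * s.H ≤ L ^ (η / 8) * (L ^ (η / 8)) ^ 8 :=
          mul_le_mul h2 h3 h.Hpos.le hu.le
      _ = (L ^ (η / 8)) ^ 9 := by ring
  have e3 : (s.b1 : ℝ) ^ 2 ≤ (L ^ (η / 8)) ^ 18 := by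
    calc (s.b1 : ℝ) ^ 2 ≤ ((L ^ (η / 8)) ^ 9) ^ 2 := pow_le_pow_left₀ (Nat.cast_nonneg _) e2 2
      _ = _ := by rw [← pow_mul]
  calc (s.b1 : ℝ) ^ 2 * Real.exp (-(2 * (ϑ / 64) * s.a1 / s.H)) ≤
        (L ^ (η / 8)) ^ 18 * (1 / (L ^ (η / 8)) ^ 128) :=
          mul_le_mul e3 e1 (Real.exp_pos _).le (by positivity)
    _ = 1 / (L ^ (η / 8)) ^ 110 := by
          have : (L ^ (η / 8)) ^ 128 = (L ^ (η / 8)) ^ 18 * (L ^ (η / 8)) ^ 110 := by
            rw [← pow_add]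
          rw [this]
          field_simp
    _ ≤ _ := one_div_le_one_div_of_le (by positivity) (pow_le_pow_right₀ hu1 (by norm_num))

/-! #### logarithms of the cell indices -/

theorem log_L_le {y : ℝ} (hy0 : 0 < y) (hy : y ≤ L ^ 2) : Real.log y ≤ 2 * Real.log L := by
  have h1 := Real.log_le_log hy0 hy
  rwa [Real.log_pow, Nat.cast_ofNat] at h1

theorem b3L2 : (s.b3 : ℝ) + 2 ≤ L ^ 2 := by
  have h1 := h.b3_L
  rw [div_le_iff₀ h.Hpos] at h1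
  have h2 := h.H_le_L
  have h3 := h.L1000
  have h4 := h.Hpos
  nlinarith

theorem logb3 : 12 * Real.log ((s.b3 : ℝ) + 2) ≤ 24 * Real.log L := by
  have := h.log_L_le (y := (s.b3 : ℝ) + 2) (by positivity) h.b3L2
  linarith

theorem logb2 : 12 * Real.log ((s.b2 : ℝ) + 2) ≤ 24 * Real.log L := by
  refine le_trans ?_ h.logb3
  have h1 : (s.b2 : ℝ) ≤ s.b3 := by exact_mod_cast h.ord45.trans h.ord56
  have := Real.log_le_log (x := (s.b2 : ℝ) + 2) (by positivity) (add_le_add_left h1 2)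
  linarith

/-- `24 log L ≤ (ϑ/64) a_2 / H`, in fact with `48`. -/
theorem a2big : 48 * Real.log L ≤ ϑ / 64 * ((s.a2 : ℝ) / s.H) := by
  have h1 := h.l2
  have h2 := h.ϑ0
  have h3 : ϑ / 64 * (3072 / ϑ * Real.log L) ≤ ϑ / 64 * ((s.a2 : ℝ) / s.H) :=
    mul_le_mul_of_nonneg_left h1 (by positivity)
  have h4 : ϑ / 64 * (3072 / ϑ * Real.log L) = 48 * Real.log L := by
    field_simp
    ring
  linarith

theorem a3big : 48 * Real.log L ≤ ϑ / 64 * ((s.a3 : ℝ) / s.H) := by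
  refine h.a2big.trans (mul_le_mul_of_nonneg_left (h.div_mono (h.ord34.trans h.ord45)) ?_)
  have := h.ϑ0
  positivity

/-- (N6). -/
theorem n6 : 12 * ((s.b1 : ℝ) / s.H) ≤ ϑ / 64 * ((s.a2 : ℝ) / s.H) := by
  refine le_trans ?_ h.a2big
  have h1 := h.m1
  have h2 := h.a1
  have h3 := h.ℓ0
  nlinarith

/-- (N7). -/
theorem n7 : 12 * Real.log ((s.b2 : ℝ) + 2) ≤ ϑ / 64 * ((s.a2 : ℝ) / s.H) := by
  refine h.logb2.trans (le_trans ?_ h.a2big)
  linarith [h.ℓ0]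

/-- (N8). -/
theorem n8 {C : ℝ} (hC : 1 ≤ C) (hCM : 2 * C ≤ M) :
    Real.log (C * ((s.b2 : ℝ) / s.H) + C) ≤ ϑ / 64 / 2 * ((s.a1 : ℝ) / s.H) := by
  have hu1 : 1 ≤ L ^ (η / 8) := by linarith [h.u1000]
  have h1 := h.b2u
  have h2 : C * ((s.b2 : ℝ) / s.H) + C ≤ 2 * C * (L ^ (η / 8)) ^ 8 := by
    have h3 : (1 : ℝ) ≤ (L ^ (η / 8)) ^ 8 := one_le_pow₀ hu1
    nlinarith
  have h4 : 2 * C * (L ^ (η / 8)) ^ 8 ≤ (L ^ (η / 8)) ^ 9 := by
    rw [pow_succ _ 8, mul_comm]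
    refine mul_le_mul_of_nonneg_left ?_ (by positivity)
    have := h.uM'
    linarith [h.M1]
  have h5 : 0 < C * ((s.b2 : ℝ) / s.H) + C := by positivity
  have h6 := Real.log_le_log h5 (h2.trans h4)
  refine h6.trans ?_
  rw [h.upow, Real.log_rpow h.Lpos]
  have h7 := h.ηκ
  have h8 := h.l1
  have h9 := h.ϑ0
  have h10 := h.ℓ0
  have h11 : ϑ / 64 / 2 * (κ * Real.log L) ≤ ϑ / 64 / 2 * ((s.a1 : ℝ) / s.H) :=
    mul_le_mul_of_nonneg_left h8 (by positivity)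
  refine le_trans ?_ h11
  push_cast
  have h12 : η / 8 * 9 ≤ ϑ / 64 / 2 * κ := by
    have := h.κ0
    have : 0 ≤ ϑ * κ := by positivity
    linarith
  calc η / 8 * 9 * Real.log L ≤ ϑ / 64 / 2 * κ * Real.log L :=
        mul_le_mul_of_nonneg_right h12 (by linarith)
    _ = _ := by ring

/-- (N9). -/
theorem n9 : 12 * ((s.b2 : ℝ) / s.H) ≤ ϑ / 64 * ((s.a3 : ℝ) / s.H) := by
  have h1 := h.b2u
  have h2 := h.a3l
  have h3 := h.L8
  have h4 := h.ϑ0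
  have h5 := h.uM'
  have h6 := h.Mϑ
  have hu1 : 1 ≤ L ^ (η / 8) := by linarith [h.u1000]
  have h7 : 768 ≤ ϑ * L ^ (η / 8) := by
    rw [div_le_iff₀ h4] at h6
    have h8 := h.M1
    nlinarith
  have h8 : 12 * (L ^ (η / 8)) ^ 8 ≤ ϑ / 64 * (L ^ (η / 8)) ^ 56 := by
    have e1 : ϑ / 64 * (L ^ (η / 8)) ^ 56 =
        (ϑ * L ^ (η / 8)) / 64 * ((L ^ (η / 8)) ^ 8 * (L ^ (η / 8)) ^ 47) := by ring
    rw [e1]
    have h9 : (1 : ℝ) ≤ (L ^ (η / 8)) ^ 47 := one_le_pow₀ hu1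
    have h10 : (0 : ℝ) ≤ (L ^ (η / 8)) ^ 8 := by positivity
    have h11 : 12 ≤ (ϑ * L ^ (η / 8)) / 64 := by linarith
    have h12 : (L ^ (η / 8)) ^ 8 ≤ (L ^ (η / 8)) ^ 8 * (L ^ (η / 8)) ^ 47 :=
      le_mul_of_one_le_right h10 h9
    exact mul_le_mul h11 h12 h10 (by linarith)
  have h9 : ϑ / 64 * (L ^ (η / 8)) ^ 56 ≤ ϑ / 64 * ((s.a3 : ℝ) / s.H) :=
    mul_le_mul_of_nonneg_left (h3.trans h2) (by positivity)
  linarith

/-- (N10). -/
theorem n10 : 12 * Real.log ((s.b3 : ℝ) + 2) ≤ ϑ / 64 * ((s.a3 : ℝ) / s.H) := by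
  refine h.logb3.trans (le_trans ?_ h.a3big)
  linarith [h.ℓ0]

/-- (N11). -/
theorem n11 {C : ℝ} (hC : 1 ≤ C) (hCM : 2 * C ≤ M) :
    Real.log (C * ((s.b3 : ℝ) / s.H) + C) ≤ ϑ / 64 / 2 * ((s.a2 : ℝ) / s.H) := by
  have h1 := h.b3_L
  have h3 := h.L1000
  have h4 := h.uM'
  have h5 : L ^ (η / 8) ≤ L := by
    refine le_trans ?_ h.u64
    exact le_self_pow₀ (by linarith [h.u1000]) (by norm_num)
  have h2 : C * ((s.b3 : ℝ) / s.H) + C ≤ L ^ 2 := by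
    have h7 : C * ((s.b3 : ℝ) / s.H) + C ≤ C * L + C * L := by
      have : C * ((s.b3 : ℝ) / s.H) ≤ C * L := mul_le_mul_of_nonneg_left (by linarith) (by linarith)
      have : C * 1 ≤ C * L := mul_le_mul_of_nonneg_left (by linarith) (by linarith)
      linarith
    have h6 : 2 * C ≤ L := by linarith [h.M1]
    nlinarith
  have h6 := h.log_L_le (y := C * ((s.b3 : ℝ) / s.H) + C) (by positivity) h2
  have h7 := h.a2big
  have h8 := h.ℓ0
  have h9 : ϑ / 64 / 2 * ((s.a2 : ℝ) / s.H) = (ϑ / 64 * ((s.a2 : ℝ) / s.H)) / 2 := by ring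
  rw [h9]
  linarith

/-- (N12). -/
theorem expneg2 : Real.exp (-(ϑ / 64 * s.a2 / s.H)) ≤ 1 / (L ^ (η / 8)) ^ 8 := by
  have hu1 : 1 ≤ L ^ (η / 8) := by linarith [h.u1000]
  refine (h.expneg_le ?_).trans
    (one_div_le_one_div_of_le (by positivity) (pow_le_pow_right₀ hu1 (by norm_num)))
  have h1 := h.a2big
  have h2 := h.η1
  have h3 := h.ℓ0
  have e1 : ϑ / 64 * (s.a2 : ℝ) / s.H = ϑ / 64 * ((s.a2 : ℝ) / s.H) := by ring
  rw [e1]
  nlinarith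

theorem expneg3 : Real.exp (-(ϑ / 64 * s.a3 / s.H)) ≤ 1 / (L ^ (η / 8)) ^ 8 := by
  refine le_trans (Real.exp_le_exp.2 ?_) h.expneg2
  have h1 := h.div_mono (h.ord34.trans h.ord45)
  have e1 : ϑ / 64 * (s.a2 : ℝ) / s.H = ϑ / 64 * ((s.a2 : ℝ) / s.H) := by ring
  have e2 : ϑ / 64 * (s.a3 : ℝ) / s.H = ϑ / 64 * ((s.a3 : ℝ) / s.H) := by ring
  rw [e1, e2]
  have h2 := h.ϑ0
  have := mul_le_mul_of_nonneg_left h1 (by positivity : 0 ≤ ϑ / 64)
  linarith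

/-! #### the third scale -/

/-- (N13 a). -/
theorem n13a {Y : ℝ} (hY : Real.exp L / 8 ≤ Y) :
    (s.b3 : ℝ) / s.H ≤ ϑ / 16 * Real.log Y := by
  have h1 := h.b3u
  have h2 := h.logY_l hY
  have h4 := h.ϑ0
  have h5 := h.uM'
  have h6 := h.Mϑ
  have hu1 : 1 ≤ L ^ (η / 8) := by linarith [h.u1000]
  have h7 : 768 ≤ ϑ * L ^ (η / 8) := by
    rw [div_le_iff₀ h4] at h6
    have h8 := h.M1
    nlinarith
  have h8 : L / (L ^ (η / 8)) ^ 4 ≤ ϑ / 32 * L := by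
    rw [div_le_iff₀ (by positivity)]
    have h9 : (1 : ℝ) ≤ (L ^ (η / 8)) ^ 3 := one_le_pow₀ hu1
    have h10 := h.Lpos
    have e1 : ϑ / 32 * L * (L ^ (η / 8)) ^ 4 =
        L * ((ϑ * L ^ (η / 8)) / 32 * (L ^ (η / 8)) ^ 3) := by ring
    rw [e1]
    have h11 : (1 : ℝ) ≤ (ϑ * L ^ (η / 8)) / 32 * (L ^ (η / 8)) ^ 3 := by
      calc (1 : ℝ) = 1 * 1 := by norm_num
        _ ≤ _ := mul_le_mul (by linarith) h9 (by norm_num) (by linarith)
    exact le_mul_of_one_le_right h10.le h11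
  have h9 : ϑ / 16 * (L / 2) ≤ ϑ / 16 * Real.log Y := mul_le_mul_of_nonneg_left h2 (by positivity)
  linarith

/-- (N13 b). -/
theorem n13b {Y : ℝ} (hY : Real.exp L / 8 ≤ Y) (hY2 : Y ≤ 8 * Real.exp L) :
    16 / ϑ * Real.log (Real.log Y) ≤ (s.a3 : ℝ) / s.H := by
  have h1 := h.logY_l hY
  have h2 := h.logY_u (h.Y0 hY) hY2
  have h3 := h.L1000
  have h4 : Real.log (Real.log Y) ≤ 2 * Real.log L := by
    apply h.log_L_le (by linarith)
    nlinarith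
  have h5 := h.a3big
  have h6 := h.ϑ0
  have h7 := h.ϑ1
  have h8 : 3072 / ϑ * Real.log L ≤ (s.a3 : ℝ) / s.H :=
    h.l2.trans (h.div_mono (h.ord34.trans h.ord45))
  have h9 : 16 / ϑ * Real.log (Real.log Y) ≤ 16 / ϑ * (2 * Real.log L) :=
    mul_le_mul_of_nonneg_left h4 (by positivity)
  have h10 : 16 / ϑ * (2 * Real.log L) ≤ 3072 / ϑ * Real.log L := by
    have e1 : 16 / ϑ * (2 * Real.log L) = 32 / ϑ * Real.log L := by ring
    rw [e1]
    refine mul_le_mul_of_nonneg_right ?_ (by linarith [h.ℓ0])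
    exact div_le_div_of_nonneg_right (by norm_num) h6.le
  linarith

/-- (N13 c). -/
theorem n13c : 12 * Real.log ((s.b3 : ℝ) + 2) ≤ (s.a3 : ℝ) / s.H := by
  have h1 := h.n10
  have h2 := h.ϑ1
  have h3 := h.ϑ0
  have h4 : 0 ≤ (s.a3 : ℝ) / s.H := by positivity
  nlinarith

/-- (N14). -/
theorem n14 {Y : ℝ} (hY : Real.exp L / 8 ≤ Y) (hY2 : Y ≤ 8 * Real.exp L) :
    (Real.log Y) ^ (1 - η) ≤ (s.a3 : ℝ) / s.H := by
  refine le_trans ?_ h.l3
  refine Real.rpow_le_rpow ?_ (h.logY_u (h.Y0 hY) hY2) (by linarith [h.η1])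
  have := h.logY_l hY
  linarith [h.Lpos]

/-- (N15). -/
theorem n15 {Y : ℝ} (hY : Real.exp L / 8 ≤ Y) {v : ℕ} (hv : v < s.b3) :
    √Y ≤ Y * Real.exp (-((v : ℝ) / s.H)) ∧ Y * Real.exp (-((v : ℝ) / s.H)) ≤ Y := by
  have hY0 := h.Y0 hY
  constructor
  · have h1 : Real.exp ((v : ℝ) / s.H) ≤ √Y :=
      (Real.exp_le_exp.2 (h.div_mono hv.le)).trans (h.expb3 hY)
    rw [Real.exp_neg, ← div_eq_mul_inv, le_div_iff₀ (Real.exp_pos _)]
    calc √Y * Real.exp ((v : ℝ) / s.H) ≤ √Y * √Y :=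
          mul_le_mul_of_nonneg_left h1 (Real.sqrt_nonneg _)
      _ = Y := Real.mul_self_sqrt hY0.le
  · have h1 : Real.exp (-((v : ℝ) / s.H)) ≤ 1 := Real.exp_le_one_iff.2 (by
      have : 0 ≤ (v : ℝ) / s.H := by positivity
      linarith)
    exact mul_le_of_le_one_right hY0.le h1

end Par

end

end Pool.Agent.MR2.MQ
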