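import Pool.Agent.Lib.MR2.PQb

/-! TANK MR2, row PQ (3): sums over primes of the scales, the sup bound, the counts.  helper89. -/

set_option autoImplicit false

namespace Pool.Agent.MR2.MQ

open Finset Pool.Agent.MRL Pool.Agent.MRF Pool.Agent.MRHal
open Pool.Agent.MRL.DC (PP)

noncomputable section

/-! ### primes of a scale -/

theorem mem_PP {H v1 v2 p : ℕ} (hp : p ∈ PP H v1 v2) :
    p.Prime ∧ Real.exp ((v1 : ℝ) / H) < p ∧ (p : ℝ) ≤ Real.exp ((v2 : ℝ) / H) := by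
  unfold PP at hp
  rw [mem_biUnion] at hp
  obtain ⟨v, hv, hpv⟩ := hp
  rw [mem_Ico] at hv
  rw [MRL.DC.mem_W] at hpv
  refine ⟨hpv.2.2, lt_of_le_of_lt (Real.exp_le_exp.2 ?_) hpv.1,
    hpv.2.1.trans (Real.exp_le_exp.2 ?_)⟩
  · exact div_le_div_of_nonneg_right (by exact_mod_cast hv.1) (Nat.cast_nonneg _)
  · exact div_le_div_of_nonneg_right (by exact_mod_cast hv.2) (Nat.cast_nonneg _)

theorem PP_mono {H v1 v2 v2' : ℕ} (hv : v2 ≤ v2') : PP H v1 v2 ⊆ PP H v1 v2' := by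
  unfold PP
  exact biUnion_subset_biUnion_of_subset_left _ (Ico_subset_Ico_right hv)

theorem sum_PP_LL (H v1 v2 : ℕ) : ∑ p ∈ PP H v1 v2, 1 / (p : ℝ) = LL H v1 v2 := by
  rw [MRL.DC.sum_PP]
  rfl

theorem sum_union_le (A B : Finset ℕ) :
    ∑ p ∈ A ∪ B, 1 / (p : ℝ) ≤ ∑ p ∈ A, 1 / (p : ℝ) + ∑ p ∈ B, 1 / (p : ℝ) := by
  rw [← sum_union_inter]
  have : 0 ≤ ∑ p ∈ A ∩ B, 1 / (p : ℝ) := sum_nonneg fun _ _ => by positivity
  linarith

/-- primes up to `exp y`. -/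
theorem sum_primes_le {P : Finset ℕ} {y : ℝ} (hy : 1 ≤ y)
    (hP : ∀ p ∈ P, p.Prime ∧ (p : ℝ) ≤ Real.exp y) :
    ∑ p ∈ P, 1 / (p : ℝ) ≤ Real.log y + 20 := by
  have h2 : 2 ≤ ⌊Real.exp y⌋₊ := by
    apply Nat.le_floor
    have := Real.add_one_le_exp y
    push_cast
    linarith
  have h1 : ∑ p ∈ P, 1 / (p : ℝ) ≤ MRL.Mer.P ⌊Real.exp y⌋₊ := by
    unfold MRL.Mer.P
    refine sum_le_sum_of_subset_of_nonneg (fun p hp => ?_) fun _ _ _ => by positivity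
    rw [mem_filter, mem_Ioc]
    exact ⟨⟨(hP p hp).1.pos, Nat.le_floor (hP p hp).2⟩, (hP p hp).1⟩
  refine h1.trans ((MRL.Mer.P_upper h2).trans ?_)
  have h3 : (⌊Real.exp y⌋₊ : ℝ) ≤ Real.exp y := Nat.floor_le (Real.exp_pos _).le
  have h4 : (2 : ℝ) ≤ (⌊Real.exp y⌋₊ : ℝ) := by exact_mod_cast h2
  have h5 : 0 < Real.log (⌊Real.exp y⌋₊ : ℝ) := Real.log_pos (by linarith)
  have h6 : Real.log (⌊Real.exp y⌋₊ : ℝ) ≤ y := by
    rw [Real.log_le_iff_le_exp (by linarith)]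
    exact h3
  have := Real.log_le_log h5 h6
  linarith

namespace Par

variable {θ ϑ a K κ η M L : ℝ} {s : TS} (h : Par θ ϑ a K κ η M L s)

include h

theorem P1_mem {p : ℕ} (hp : p ∈ s.P1) : p.Prime ∧ L ^ κ < (p : ℝ) ∧ (p : ℝ) ≤ L ^ (a / 4) := by
  obtain ⟨h1, h2, h3⟩ := mem_PP hp
  refine ⟨h1, lt_of_le_of_lt ?_ h2, h3.trans ?_⟩
  · rw [h.rpow_exp]
    exact Real.exp_le_exp.2 h.l1
  · rw [h.rpow_exp]
    exact Real.exp_le_exp.2 h.m1

theorem P2_mem {p : ℕ} (hp : p ∈ s.P2) : p.Prime ∧ L ^ κ < (p : ℝ) := by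
  obtain ⟨h1, h2, h3⟩ := mem_PP hp
  refine ⟨h1, lt_of_le_of_lt ?_ h2⟩
  rw [h.rpow_exp]
  exact Real.exp_le_exp.2 (h.l1.trans (h.div_mono (h.ord12.trans h.ord23)))

theorem P3_mem {p : ℕ} (hp : p ∈ s.P3) : p.Prime ∧ L ^ κ < (p : ℝ) := by
  obtain ⟨h1, h2, h3⟩ := mem_PP hp
  refine ⟨h1, lt_of_le_of_lt ?_ h2⟩
  rw [h.rpow_exp]
  exact Real.exp_le_exp.2 (h.l1.trans (h.div_mono
    ((h.ord12.trans h.ord23).trans (h.ord34.trans h.ord45))))

theorem P1P2 {p : ℕ} (hp : p ∈ s.P1) : p ∉ s.P2 := fun hq => by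
  have h1 := (mem_PP hp).2.2
  have h2 := (mem_PP hq).2.1
  have h3 := Real.exp_le_exp.2 (h.div_mono h.ord23)
  linarith

theorem P1P3 {p : ℕ} (hp : p ∈ s.P1) : p ∉ s.P3 := fun hq => by
  have h1 := (mem_PP hp).2.2
  have h2 := (mem_PP hq).2.1
  have h3 := Real.exp_le_exp.2 (h.div_mono ((h.ord23.trans h.ord34).trans h.ord45))
  linarith

theorem P2P3 {p : ℕ} (hp : p ∈ s.P2) : p ∉ s.P3 := fun hq => by
  have h1 := (mem_PP hp).2.2
  have h2 := (mem_PP hq).2.1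
  have h3 := Real.exp_le_exp.2 (h.div_mono h.ord45)
  linarith

/-- (N19). -/
theorem n19 : K ≤ ∑ p ∈ s.P1, 1 / (p : ℝ) := by
  have h1 := (MRL.Mer.window h.H1 h.ord1 h.ord12).1
  rw [show ∑ p ∈ s.P1, 1 / (p : ℝ) = LL s.H s.a1 s.b1 from sum_PP_LL _ _ _]
  have hH := h.Hpos
  have ha1 : (0 : ℝ) < s.a1 := lt_of_lt_of_le hH (by exact_mod_cast h.ord1)
  have hκ := h.κℓ
  have hM := h.M1
  have ha0 := h.a0
  have hκ0 := h.κ0
  have hℓ := h.ℓ0
  have h2 : K + 23 ≤ Real.log ((s.b1 : ℝ) / s.a1) := by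
    rw [Real.le_log_iff_exp_le (by
      have : s.a1 ≤ s.b1 := h.ord12
      have : (s.a1 : ℝ) ≤ s.b1 := by exact_mod_cast this
      exact div_pos (by linarith) ha1)]
    have e1 : (s.b1 : ℝ) / s.a1 = ((s.b1 : ℝ) / s.H) / ((s.a1 : ℝ) / s.H) := by
      field_simp
    have e2 : 0 < (s.a1 : ℝ) / s.H := by positivity
    rw [e1, le_div_iff₀ e2]
    have e3 : Real.exp (K + 23) * κ = a / 16 := by
      rw [h.κe, mul_left_comm, ← Real.exp_add]
      ring_nf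
      simp
    have e4 : Real.exp (K + 23) * ((s.a1 : ℝ) / s.H) ≤ Real.exp (K + 23) * (2 * (κ * Real.log L)) := by
      refine mul_le_mul_of_nonneg_left ?_ (Real.exp_pos _).le
      have := h.u1
      linarith
    have e5 : Real.exp (K + 23) * (2 * (κ * Real.log L)) = a / 8 * Real.log L := by
      have : Real.exp (K + 23) * (2 * (κ * Real.log L)) =
        2 * (Real.exp (K + 23) * κ) * Real.log L := by ring
      rw [this, e3]
      ring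
    have e6 := h.n1
    have e7 : κ * Real.log L ≤ a / 16 * Real.log L :=
      mul_le_mul_of_nonneg_right h.κa (by linarith)
    have e8 : a / 8 * Real.log L ≤ a / 4 * Real.log L - 1 := by
      have : a / 16 * Real.log L = a / 8 * Real.log L / 2 := by ring
      have : a / 4 * Real.log L = 2 * (a / 8 * Real.log L) := by ring
      linarith
    linarith
  linarith

theorem loginv4 : Real.log ((L ^ (η / 8)) ^ 4) = η / 2 * Real.log L := by
  rw [h.upow, Real.log_rpow h.Lpos]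
  push_cast
  ring

theorem loginv8 : Real.log ((L ^ (η / 8)) ^ 8) = η * Real.log L := by
  rw [h.upow, Real.log_rpow h.Lpos]
  push_cast
  ring

theorem ratio3 : (s.b3 : ℝ) / s.a3 ≤ (L ^ (η / 8)) ^ 4 := by
  have hH := h.Hpos
  have h1 := h.a3l
  have h2 := h.b3u
  have hu := h.upos
  have hL := h.Lpos
  have e0 : 0 < L / (L ^ (η / 8)) ^ 8 := by positivity
  have e2 : 0 < (s.a3 : ℝ) / s.H := lt_of_lt_of_le e0 h1
  have e1 : (s.b3 : ℝ) / s.a3 = ((s.b3 : ℝ) / s.H) / ((s.a3 : ℝ) / s.H) := by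
    field_simp
  rw [e1, div_le_iff₀ e2]
  refine h2.trans ?_
  have e3 : L / (L ^ (η / 8)) ^ 4 = (L ^ (η / 8)) ^ 4 * (L / (L ^ (η / 8)) ^ 8) := by
    field_simp
  rw [e3]
  exact mul_le_mul_of_nonneg_left h1 (by positivity)

theorem ratio3l : (L ^ (η / 8)) ^ 4 / 6 ≤ (s.b3 : ℝ) / s.a3 := by
  have hH := h.Hpos
  have h0 := h.a3l
  have h1 := h.a3u
  have h2 := h.b3l
  have hu := h.upos
  have hL := h.Lpos
  have e0 : 0 < L / (L ^ (η / 8)) ^ 8 := by positivity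
  have e2 : 0 < (s.a3 : ℝ) / s.H := lt_of_lt_of_le e0 h0
  have e1 : (s.b3 : ℝ) / s.a3 = ((s.b3 : ℝ) / s.H) / ((s.a3 : ℝ) / s.H) := by
    field_simp
  rw [e1, le_div_iff₀ e2]
  refine le_trans ?_ h2
  have e3 : L / (L ^ (η / 8)) ^ 4 / 2 =
      (L ^ (η / 8)) ^ 4 / 6 * (3 * (L / (L ^ (η / 8)) ^ 8)) := by
    field_simp
    ring
  rw [e3]
  exact mul_le_mul_of_nonneg_left h1 (by positivity)

theorem ratio2l : (L ^ (η / 8)) ^ 4 / 6 ≤ (s.b2 : ℝ) / s.a2 := by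
  have hH := h.Hpos
  have h1 := h.a2u
  have h2 := h.b2l
  have hu := h.upos
  have hu1 : 1 ≤ L ^ (η / 8) := by linarith [h.u1000]
  have e2 : 0 < (s.a2 : ℝ) / s.H := by
    have : s.H ≤ s.a2 := h.ord1.trans (h.ord12.trans h.ord23)
    have : (s.H : ℝ) ≤ s.a2 := by exact_mod_cast this
    exact div_pos (by linarith) hH
  have e1 : (s.b2 : ℝ) / s.a2 = ((s.b2 : ℝ) / s.H) / ((s.a2 : ℝ) / s.H) := by
    have : (0 : ℝ) < s.a2 := by
      rcases lt_or_ge (0 : ℝ) s.a2 with h5 | h5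
      · exact h5
      · exact absurd e2 (not_lt.2 (div_nonpos_of_nonpos_of_nonneg h5 hH.le))
    field_simp
  rw [e1, le_div_iff₀ e2]
  refine le_trans ?_ h2
  calc (L ^ (η / 8)) ^ 4 / 6 * ((s.a2 : ℝ) / s.H) ≤ (L ^ (η / 8)) ^ 4 / 6 * L ^ (η / 8) :=
        mul_le_mul_of_nonneg_left h1 (by positivity)
    _ = (L ^ (η / 8)) ^ 5 / 6 := by ring
    _ ≤ (L ^ (η / 8)) ^ 8 / 2 := by
        have := pow_le_pow_right₀ hu1 (show 5 ≤ 8 by norm_num)
        have : (0 : ℝ) < (L ^ (η / 8)) ^ 8 := by positivity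
        linarith

/-- the sum in the sup bound. -/
theorem sum_all {P0 : Finset ℕ} (hP0 : ∀ p ∈ P0, p.Prime ∧ (p : ℝ) ≤ L ^ κ) {v : ℕ}
    (hv1 : s.a3 ≤ v) (hv2 : v < s.b3) :
    ∑ p ∈ P0 ∪ s.P1 ∪ s.P2 ∪ PP s.H s.a3 (v + 1), 1 / (p : ℝ) ≤ 3 / 2 * η * Real.log L + 43 := by
  have hH := h.Hpos
  have hu1 : 1 ≤ L ^ (η / 8) := by linarith [h.u1000]
  have h1 : ∑ p ∈ P0 ∪ s.P1 ∪ s.P2, 1 / (p : ℝ) ≤ η * Real.log L + 20 := by
    rw [← h.loginv8]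
    apply sum_primes_le (one_le_pow₀ hu1)
    intro p hp
    rw [mem_union, mem_union] at hp
    have hκ1 := h.κ1
    have hu8 : L ^ (η / 8) ≤ (L ^ (η / 8)) ^ 8 := le_self_pow₀ hu1 (by norm_num)
    have hbig : Real.log L ≤ L ^ (η / 8) := by
      have := h.big
      have := h.M1
      have := h.ℓ0
      nlinarith
    have hℓ := h.ℓ0
    rcases hp with (hp | hp) | hp
    · refine ⟨(hP0 p hp).1, (hP0 p hp).2.trans ?_⟩
      rw [h.rpow_exp κ]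
      apply Real.exp_le_exp.2
      nlinarith [h.κ0]
    · refine ⟨(mem_PP hp).1, (mem_PP hp).2.2.trans (Real.exp_le_exp.2 ?_)⟩
      have := h.m1
      have := h.a1
      nlinarith
    · exact ⟨(mem_PP hp).1, (mem_PP hp).2.2.trans (Real.exp_le_exp.2 h.b2u)⟩
  have h2 : ∑ p ∈ PP s.H s.a3 (v + 1), 1 / (p : ℝ) ≤ η / 2 * Real.log L + 23 := by
    rw [sum_PP_LL]
    have hHa3 : s.H ≤ s.a3 := h.ord1.trans (h.ord12.trans (h.ord23.trans (h.ord34.trans h.ord45)))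
    have h3 := mertens_window_upper (v2 := v + 1) h.H1 hHa3 (by omega)
    refine h3.trans ?_
    have ha3 : (0 : ℝ) < s.a3 := lt_of_lt_of_le hH (by exact_mod_cast hHa3)
    have h4 : Real.log (((v + 1 : ℕ) : ℝ) / s.a3) ≤ Real.log ((L ^ (η / 8)) ^ 4) := by
      apply Real.log_le_log (by positivity)
      refine le_trans ?_ h.ratio3
      refine div_le_div_of_nonneg_right ?_ ha3.le
      exact_mod_cast hv2
    rw [h.loginv4] at h4
    linarith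
  have h5 := sum_union_le (P0 ∪ s.P1 ∪ s.P2) (PP s.H s.a3 (v + 1))
  linarith

/-- (N16): the number `ρ`. -/
theorem rho {P0 : Finset ℕ} (hP0 : ∀ p ∈ P0, p.Prime ∧ (p : ℝ) ≤ L ^ κ) {v : ℕ}
    (hv1 : s.a3 ≤ v) (hv2 : v < s.b3) {Y : ℝ} (hY : Real.exp L / 8 ≤ Y) {C : ℝ} (hC : 0 < C) :
    C * (Real.log Y) ^ (-θ) *
      Real.exp ((∑ p ∈ P0 ∪ s.P1 ∪ s.P2 ∪ PP s.H s.a3 (v + 1), 1 / (p : ℝ)) / 4) ≤
    2 * C * Real.exp 11 * (L ^ (-θ) * (L ^ (η / 8)) ^ 3) := by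
  have h1 := h.sum_all hP0 hv1 hv2
  have hL := h.Lpos
  have h2 : (Real.log Y) ^ (-θ) ≤ 2 * L ^ (-θ) := by
    have h3 := h.logY_l hY
    calc (Real.log Y) ^ (-θ) ≤ (L / 2) ^ (-θ) :=
          Real.rpow_le_rpow_of_nonpos (by positivity) h3 (by linarith [h.θ0])
      _ = L ^ (-θ) * 2 ^ θ := by
          rw [Real.div_rpow hL.le (by norm_num), Real.rpow_neg (by norm_num : (0 : ℝ) ≤ 2)]
          field_simp
      _ ≤ L ^ (-θ) * 2 := by
          refine mul_le_mul_of_nonneg_left ?_ (Real.rpow_nonneg hL.le _)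
          calc (2 : ℝ) ^ θ ≤ 2 ^ (1 : ℝ) :=
                Real.rpow_le_rpow_of_exponent_le (by norm_num) h.θ1
            _ = 2 := Real.rpow_one 2
      _ = _ := by ring
  have h3 : Real.exp ((∑ p ∈ P0 ∪ s.P1 ∪ s.P2 ∪ PP s.H s.a3 (v + 1), 1 / (p : ℝ)) / 4) ≤
      Real.exp 11 * (L ^ (η / 8)) ^ 3 := by
    rw [h.upow, h.rpow_exp, ← Real.exp_add]
    apply Real.exp_le_exp.2
    push_cast
    linarith
  have h4 : 0 ≤ L ^ (-θ) := Real.rpow_nonneg hL.le _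
  calc C * (Real.log Y) ^ (-θ) *
      Real.exp ((∑ p ∈ P0 ∪ s.P1 ∪ s.P2 ∪ PP s.H s.a3 (v + 1), 1 / (p : ℝ)) / 4)
      ≤ C * (2 * L ^ (-θ)) * (Real.exp 11 * (L ^ (η / 8)) ^ 3) := by
        refine mul_le_mul ?_ h3 (Real.exp_pos _).le (by positivity)
        exact mul_le_mul_of_nonneg_left h2 hC.le
    _ = _ := by ring

/-- the bound on the sparse set. -/
theorem au {Y : ℝ} (hY : Real.exp L / 8 ≤ Y) {C : ℝ} (_hC : 0 < C) :
    (s.b3 : ℝ) ^ 2 * (Real.log Y) ^ (-(19 : ℝ)) +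
      (2 * C * Real.exp 11 * (L ^ (-θ) * (L ^ (η / 8)) ^ 3)) ^ 2 * (s.H : ℝ) ^ 2 *
        ((s.b3 : ℝ) / s.a3) ≤ (1 + 4 * C ^ 2 * Real.exp 22) / (L ^ (η / 8)) ^ 8 := by
  have hL := h.Lpos
  have hu := h.upos
  have hu1 : 1 ≤ L ^ (η / 8) := by linarith [h.u1000]
  have hL1 := h.L1000
  have h1 : (s.b3 : ℝ) ^ 2 * (Real.log Y) ^ (-(19 : ℝ)) ≤ 1 / (L ^ (η / 8)) ^ 8 := by
    have h2 := h.logY_l hY
    have h3 : (Real.log Y) ^ (-(19 : ℝ)) ≤ 1 / (L / 2) ^ 19 := by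
      calc (Real.log Y) ^ (-(19 : ℝ)) ≤ (L / 2) ^ (-(19 : ℝ)) :=
            Real.rpow_le_rpow_of_nonpos (by positivity) h2 (by norm_num)
        _ = 1 / (L / 2) ^ 19 := by
            rw [Real.rpow_neg (by positivity), one_div]
            congr 1
            exact_mod_cast Real.rpow_natCast (L / 2) 19
    have h4 : (s.b3 : ℝ) ^ 2 ≤ L ^ 4 := by
      have h5 := h.b3L2
      have h6 : (s.b3 : ℝ) ≤ L ^ 2 := by linarith
      calc (s.b3 : ℝ) ^ 2 ≤ (L ^ 2) ^ 2 := pow_le_pow_left₀ (Nat.cast_nonneg _) h6 2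
        _ = L ^ 4 := by rw [← pow_mul]
    calc (s.b3 : ℝ) ^ 2 * (Real.log Y) ^ (-(19 : ℝ)) ≤ L ^ 4 * (1 / (L / 2) ^ 19) :=
          mul_le_mul h4 h3 (Real.rpow_nonneg (by linarith) _) (by positivity)
      _ = 2 ^ 19 / L ^ 15 := by
          field_simp
      _ ≤ 1 / (L ^ (η / 8)) ^ 8 := by
          rw [div_le_div_iff₀ (by positivity) (by positivity), one_mul]
          have h6 : (L ^ (η / 8)) ^ 8 ≤ L := by
            refine le_trans ?_ h.u64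
            exact pow_le_pow_right₀ hu1 (by norm_num)
          calc (2 : ℝ) ^ 19 * (L ^ (η / 8)) ^ 8 ≤ L * L :=
                mul_le_mul (by norm_num; linarith) h6 (by positivity) hL.le
            _ = L ^ 2 := by ring
            _ ≤ L ^ 15 := pow_le_pow_right₀ (by linarith) (by norm_num)
  have h2 : (L ^ (-θ)) ^ 2 ≤ 1 / (L ^ (η / 8)) ^ 128 := by
    rw [h.upow, one_div, ← Real.rpow_neg hL.le, ← Real.rpow_natCast, ← Real.rpow_mul hL.le]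
    apply Real.rpow_le_rpow_of_exponent_le h.L1
    have := h.ηθ
    have := h.θ0
    push_cast
    linarith
  have h3 : (2 * C * Real.exp 11 * (L ^ (-θ) * (L ^ (η / 8)) ^ 3)) ^ 2 * (s.H : ℝ) ^ 2 *
        ((s.b3 : ℝ) / s.a3) ≤ 4 * C ^ 2 * Real.exp 22 * (1 / (L ^ (η / 8)) ^ 8) := by
    have h4 := h.Hu
    rw [h.u8] at h4
    have h5 : (s.H : ℝ) ^ 2 ≤ (L ^ (η / 8)) ^ 16 := by
      calc (s.H : ℝ) ^ 2 ≤ ((L ^ (η / 8)) ^ 8) ^ 2 := pow_le_pow_left₀ h.Hpos.le h4 2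
        _ = _ := by rw [← pow_mul]
    have h6 := h.ratio3
    have e1 : Real.exp 22 = Real.exp 11 ^ 2 := by
      rw [← Real.exp_nat_mul]
      norm_num
    have e2 : (2 * C * Real.exp 11 * (L ^ (-θ) * (L ^ (η / 8)) ^ 3)) ^ 2 * (s.H : ℝ) ^ 2 *
        ((s.b3 : ℝ) / s.a3) = 4 * C ^ 2 * Real.exp 22 * ((L ^ (-θ)) ^ 2 * ((L ^ (η / 8)) ^ 6 *
          (s.H : ℝ) ^ 2 * ((s.b3 : ℝ) / s.a3))) := by
      rw [e1]
      ring
    rw [e2]
    refine mul_le_mul_of_nonneg_left ?_ (by positivity)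
    calc (L ^ (-θ)) ^ 2 * ((L ^ (η / 8)) ^ 6 * (s.H : ℝ) ^ 2 * ((s.b3 : ℝ) / s.a3))
        ≤ 1 / (L ^ (η / 8)) ^ 128 * ((L ^ (η / 8)) ^ 6 * (L ^ (η / 8)) ^ 16 *
            (L ^ (η / 8)) ^ 4) := by
          refine mul_le_mul h2 ?_ (by positivity) (by positivity)
          refine mul_le_mul ?_ h6 (by positivity) (by positivity)
          exact mul_le_mul_of_nonneg_left h5 (by positivity)
      _ = 1 / (L ^ (η / 8)) ^ 102 := by
          have : (L ^ (η / 8)) ^ 128 = (L ^ (η / 8)) ^ 26 * (L ^ (η / 8)) ^ 102 := by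
            rw [← pow_add]
          rw [this]
          field_simp
      _ ≤ _ := one_div_le_one_div_of_le (by positivity) (pow_le_pow_right₀ hu1 (by norm_num))
  have e3 : (1 + 4 * C ^ 2 * Real.exp 22) / (L ^ (η / 8)) ^ 8 =
      1 / (L ^ (η / 8)) ^ 8 + 4 * C ^ 2 * Real.exp 22 * (1 / (L ^ (η / 8)) ^ 8) := by ring
  rw [e3]
  linarith

/-- tail. -/
theorem tail : 1 / (L ^ a) ^ 2 ≤ 1 / (L ^ (η / 8)) ^ 8 := by
  have hL := h.Lpos
  have hu := h.upos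
  apply one_div_le_one_div_of_le (by positivity)
  rw [h.upow, ← Real.rpow_natCast, ← Real.rpow_mul hL.le]
  apply Real.rpow_le_rpow_of_exponent_le h.L1
  have h1 := h.η2κ
  have h2 := h.κa
  have h3 := h.a0
  push_cast
  linarith

theorem Hinv : 1 / (s.H : ℝ) ≤ 2 * (1 / (L ^ (η / 8)) ^ 8) := by
  have hu := h.upos
  have h1 := h.Hl
  rw [h.u8] at h1
  have hH := h.Hpos
  rw [mul_one_div, div_le_div_iff₀ hH (by positivity)]
  linarith

/-- exponentials of the sums over the second and third scales. -/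
theorem expP2 : Real.exp (-∑ p ∈ s.P2, 1 / (p : ℝ)) ≤ 6 * Real.exp 23 / (L ^ (η / 8)) ^ 4 := by
  have hu := h.upos
  have hHa : s.H ≤ s.a2 := h.ord1.trans (h.ord12.trans h.ord23)
  have h1 := (MRL.Mer.window h.H1 hHa h.ord34).1
  rw [show ∑ p ∈ s.P2, 1 / (p : ℝ) = LL s.H s.a2 s.b2 from sum_PP_LL _ _ _]
  have h2 := h.ratio2l
  have h3 : Real.log ((L ^ (η / 8)) ^ 4 / 6) ≤ Real.log ((s.b2 : ℝ) / s.a2) :=
    Real.log_le_log (by positivity) h2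
  calc Real.exp (-LL s.H s.a2 s.b2) ≤ Real.exp (23 + -Real.log ((L ^ (η / 8)) ^ 4 / 6)) := by
        apply Real.exp_le_exp.2
        linarith
    _ = _ := by
        rw [Real.exp_add, Real.exp_neg, Real.exp_log (by positivity)]
        field_simp

theorem expP3 : Real.exp (-∑ p ∈ s.P3, 1 / (p : ℝ)) ≤ 6 * Real.exp 23 / (L ^ (η / 8)) ^ 4 := by
  have hu := h.upos
  have hHa : s.H ≤ s.a3 := h.ord1.trans (h.ord12.trans (h.ord23.trans (h.ord34.trans h.ord45)))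
  have h1 := (MRL.Mer.window h.H1 hHa h.ord56).1
  rw [show ∑ p ∈ s.P3, 1 / (p : ℝ) = LL s.H s.a3 s.b3 from sum_PP_LL _ _ _]
  have h2 := h.ratio3l
  have h3 : Real.log ((L ^ (η / 8)) ^ 4 / 6) ≤ Real.log ((s.b3 : ℝ) / s.a3) :=
    Real.log_le_log (by positivity) h2
  calc Real.exp (-LL s.H s.a3 s.b3) ≤ Real.exp (23 + -Real.log ((L ^ (η / 8)) ^ 4 / 6)) := by
        apply Real.exp_le_exp.2
        linarith
    _ = _ := by
        rw [Real.exp_add, Real.exp_neg, Real.exp_log (by positivity)]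
        field_simp

/-- `L^(-η/4)`. -/
theorem target : L ^ (-(η / 4)) = 1 / (L ^ (η / 8)) ^ 2 := by
  rw [h.upow, one_div, ← Real.rpow_neg h.Lpos.le]
  congr 1
  push_cast
  ring

theorem final8 {C : ℝ} (hC : C ≤ M) : C / (L ^ (η / 8)) ^ 8 ≤ L ^ (-(η / 4)) := by
  have hu := h.upos
  have hu1 : 1 ≤ L ^ (η / 8) := by linarith [h.u1000]
  rw [h.target, div_le_div_iff₀ (by positivity) (by positivity), one_mul]
  have h1 : C ≤ L ^ (η / 8) := by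
    have := h.uM'
    linarith [h.M1]
  calc C * (L ^ (η / 8)) ^ 2 ≤ L ^ (η / 8) * (L ^ (η / 8)) ^ 2 :=
        mul_le_mul_of_nonneg_right h1 (by positivity)
    _ = (L ^ (η / 8)) ^ 3 := by ring
    _ ≤ _ := pow_le_pow_right₀ hu1 (by norm_num)

theorem final4 {C : ℝ} (hC : C ≤ M) : C / (L ^ (η / 8)) ^ 4 ≤ L ^ (-(η / 4)) := by
  have hu := h.upos
  have hu1 : 1 ≤ L ^ (η / 8) := by linarith [h.u1000]
  rw [h.target, div_le_div_iff₀ (by positivity) (by positivity), one_mul]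
  have h1 : C ≤ L ^ (η / 8) := by
    have := h.uM'
    linarith [h.M1]
  calc C * (L ^ (η / 8)) ^ 2 ≤ L ^ (η / 8) * (L ^ (η / 8)) ^ 2 :=
        mul_le_mul_of_nonneg_right h1 (by positivity)
    _ = (L ^ (η / 8)) ^ 3 := by ring
    _ ≤ _ := pow_le_pow_right₀ hu1 (by norm_num)

end Par

end

end Pool.Agent.MR2.MQ
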