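import Pool.Agent.Lib.MR2.Defs
import Pool.Agent.Lib.MRF.S1

/-! TANK MR2, row S1: the set where all prime polynomials of the first scale are small, for
arbitrary cofactor coefficients of modulus at most one. helper88. -/

set_option autoImplicit false

namespace Pool.Agent.MR2

open Finset MeasureTheory Pool.Agent.MRL Pool.Agent.MRF Pool.Agent.MRHal

/-- the mean square of `AF f Y`, uniformly over all coefficients of modulus at most one. -/
theorem AF_meanU (h1 : MeanValue) : ∃ C : ℝ, 0 < C ∧ ∀ f : ℕ → ℂ, (∀ n, ‖f n‖ ≤ 1) →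
    ∀ Y T : ℝ, 1 ≤ Y → 0 < T → T ≤ Y → ∫ t : ℝ, ‖AF f Y t‖ ^ 2 * g T t ≤ C := by
  obtain ⟨C, hC, h⟩ := h1
  refine ⟨6 * C, by positivity, fun f hf Y T hY hT hTY => ?_⟩
  set N := ⌊2 * Y⌋₊ with hN
  have hN1 : 1 ≤ N := by
    rw [hN, Nat.one_le_floor_iff]
    linarith
  have hNY : (N : ℝ) ≤ 2 * Y := Nat.floor_le (by linarith)
  set a : ℕ → ℂ := fun n => if n ∈ Ioc ⌊Y⌋₊ N then ((1 / (n : ℝ) : ℝ) : ℂ) * f n else 0 with ha
  have hsub : Ioc ⌊Y⌋₊ N ⊆ Icc 1 N := by
    intro n hn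
    rw [Finset.mem_Ioc] at hn
    rw [Finset.mem_Icc]
    omega
  have hA : ∀ t, AF f Y t = ∑ n ∈ Icc 1 N, a n * nt n t := by
    intro t
    unfold AF
    rw [← Finset.sum_subset hsub]
    · refine Finset.sum_congr rfl fun n hn => ?_
      rw [ha]
      simp only [hn, if_true]
    · intro n _ hn
      rw [ha]
      simp only [hn, if_false, zero_mul]
  have h2 := h N T a hN1 hT
  have h3 : ∑ n ∈ Icc 1 N, ‖a n‖ ^ 2 ≤ 2 / Y := by
    have h4 : ∑ n ∈ Icc 1 N, ‖a n‖ ^ 2 = ∑ n ∈ Ioc ⌊Y⌋₊ N, ‖a n‖ ^ 2 := by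
      rw [← Finset.sum_subset hsub]
      intro n _ hn
      rw [ha]
      simp only [hn, if_false, norm_zero]
      norm_num
    rw [h4]
    have h5 : ∀ n ∈ Ioc ⌊Y⌋₊ N, ‖a n‖ ^ 2 ≤ 1 / Y ^ 2 := by
      intro n hn
      have hn' := Finset.mem_Ioc.mp hn
      have hYn : Y < n := (Nat.floor_lt (by linarith)).mp hn'.1
      have h6 : ‖a n‖ ≤ 1 / (n : ℝ) := by
        rw [ha]
        simp only [hn, if_true]
        exact norm_coef hf n
      calc ‖a n‖ ^ 2 ≤ (1 / (n : ℝ)) ^ 2 := pow_le_pow_left₀ (norm_nonneg _) h6 2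
        _ = 1 / (n : ℝ) ^ 2 := by rw [div_pow, one_pow]
        _ ≤ 1 / Y ^ 2 := by
            apply one_div_le_one_div_of_le (by positivity)
            exact pow_le_pow_left₀ (by linarith) hYn.le 2
    refine (Finset.sum_le_card_nsmul _ _ _ h5).trans ?_
    rw [nsmul_eq_mul, Nat.card_Ioc]
    have h6 : ((N - ⌊Y⌋₊ : ℕ) : ℝ) ≤ 2 * Y := by
      calc ((N - ⌊Y⌋₊ : ℕ) : ℝ) ≤ (N : ℝ) := by exact_mod_cast Nat.sub_le _ _
        _ ≤ 2 * Y := hNY
    calc ((N - ⌊Y⌋₊ : ℕ) : ℝ) * (1 / Y ^ 2) ≤ 2 * Y * (1 / Y ^ 2) := by gcongr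
      _ = 2 / Y := by field_simp
  simp_rw [hA]
  refine h2.trans ?_
  have h7 : T + N ≤ 3 * Y := by linarith
  have h8 : 0 ≤ ∑ n ∈ Icc 1 N, ‖a n‖ ^ 2 := by positivity
  calc C * (T + N) * ∑ n ∈ Icc 1 N, ‖a n‖ ^ 2 ≤ C * (3 * Y) * (2 / Y) := by gcongr
    _ = 6 * C := by field_simp; ring

/-- ROW S1. -/
theorem stepOneR (h1 : MeanValue) : StepOneR := by
  obtain ⟨C, hC, hA⟩ := AF_meanU h1
  refine ⟨C, hC, fun f hf r hr X T H v1 v2 α hH hv hT hα hTX hX => ?_⟩
  have hHr : (0 : ℝ) < H := by exact_mod_cast hH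
  have hX1 : 1 ≤ √X := le_trans (Real.one_le_exp (by positivity)) hX
  have hX0 : 0 < X := by
    by_contra hneg
    rw [Real.sqrt_eq_zero_of_nonpos (not_lt.mp hneg)] at hX1
    linarith
  -- the pointwise bound
  have hpt : ∀ t ∈ {t : ℝ | GoodF f H v1 v2 α t}, ‖SR f r X H v1 v2 t‖ ^ 2 * g T t ≤
      ∑ v ∈ Ico v1 v2, (v2 : ℝ) * Real.exp (-(2 * α * v1 / H)) *
        (‖AF (r v) (X * Real.exp (-((v : ℝ) / H))) t‖ ^ 2 * g T t) := by
    intro t ht
    have hs : ‖SR f r X H v1 v2 t‖ ^ 2 ≤ ∑ v ∈ Ico v1 v2, (v2 : ℝ) *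
        Real.exp (-(2 * α * v1 / H)) * ‖AF (r v) (X * Real.exp (-((v : ℝ) / H))) t‖ ^ 2 := by
      unfold SR
      calc ‖∑ v ∈ Ico v1 v2, QF f H v t * AF (r v) (X * Real.exp (-((v : ℝ) / H))) t‖ ^ 2
          ≤ (∑ v ∈ Ico v1 v2, ‖QF f H v t * AF (r v) (X * Real.exp (-((v : ℝ) / H))) t‖) ^ 2 :=
            pow_le_pow_left₀ (norm_nonneg _) (norm_sum_le _ _) 2
        _ ≤ (Ico v1 v2).card * ∑ v ∈ Ico v1 v2,
              ‖QF f H v t * AF (r v) (X * Real.exp (-((v : ℝ) / H))) t‖ ^ 2 :=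
            sq_sum_le_card_mul_sum_sq
        _ ≤ (v2 : ℝ) * ∑ v ∈ Ico v1 v2, Real.exp (-(2 * α * v1 / H)) *
              ‖AF (r v) (X * Real.exp (-((v : ℝ) / H))) t‖ ^ 2 := by
            have hcard : (((Ico v1 v2).card : ℕ) : ℝ) ≤ v2 := by
              rw [Nat.card_Ico]
              exact_mod_cast Nat.sub_le _ _
            refine mul_le_mul hcard (Finset.sum_le_sum fun v hv' => ?_) (by positivity)
              (by positivity)
            rw [norm_mul, mul_pow]
            refine mul_le_mul_of_nonneg_right ?_ (by positivity)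
            have hv1 : v1 ≤ v := (Finset.mem_Ico.mp hv').1
            calc ‖QF f H v t‖ ^ 2 ≤ Real.exp (-(α * v / H)) ^ 2 :=
                  pow_le_pow_left₀ (norm_nonneg _) (ht v hv') 2
              _ = Real.exp (-(2 * α * v / H)) := by
                  rw [← Real.exp_nat_mul]
                  congr 1
                  push_cast
                  ring
              _ ≤ Real.exp (-(2 * α * v1 / H)) := by
                  rw [Real.exp_le_exp, neg_le_neg_iff]
                  have : (v1 : ℝ) ≤ v := by exact_mod_cast hv1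
                  gcongr
        _ = _ := by
            rw [Finset.mul_sum]
            exact Finset.sum_congr rfl fun v _ => by ring
    calc ‖SR f r X H v1 v2 t‖ ^ 2 * g T t ≤ (∑ v ∈ Ico v1 v2, (v2 : ℝ) *
          Real.exp (-(2 * α * v1 / H)) * ‖AF (r v) (X * Real.exp (-((v : ℝ) / H))) t‖ ^ 2) *
            g T t := mul_le_mul_of_nonneg_right hs (MRF.AT.g_pos T t).le
      _ = _ := by
          rw [Finset.sum_mul]
          exact Finset.sum_congr rfl fun v _ => by ring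
  have hint : ∀ v ∈ Ico v1 v2, Integrable fun t => (v2 : ℝ) * Real.exp (-(2 * α * v1 / H)) *
      (‖AF (r v) (X * Real.exp (-((v : ℝ) / H))) t‖ ^ 2 * g T t) := fun v _ =>
    (MRF.AT.integrable_AF (hr v) _ hT).const_mul _
  have hint' : Integrable fun t => ∑ v ∈ Ico v1 v2, (v2 : ℝ) * Real.exp (-(2 * α * v1 / H)) *
      (‖AF (r v) (X * Real.exp (-((v : ℝ) / H))) t‖ ^ 2 * g T t) := integrable_finsetSum _ hint
  calc ∫ t in {t : ℝ | GoodF f H v1 v2 α t}, ‖SR f r X H v1 v2 t‖ ^ 2 * g T t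
      ≤ ∫ t in {t : ℝ | GoodF f H v1 v2 α t}, ∑ v ∈ Ico v1 v2, (v2 : ℝ) *
          Real.exp (-(2 * α * v1 / H)) *
            (‖AF (r v) (X * Real.exp (-((v : ℝ) / H))) t‖ ^ 2 * g T t) := by
        refine integral_mono_of_nonneg ?_ hint'.integrableOn ?_
        · exact Filter.Eventually.of_forall fun t => by
            have := MRF.AT.g_pos T t
            positivity
        · exact (ae_restrict_iff' (isClosed_goodF f H v1 v2 α).measurableSet).mpr
            (Filter.Eventually.of_forall hpt)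
    _ ≤ ∫ t, ∑ v ∈ Ico v1 v2, (v2 : ℝ) * Real.exp (-(2 * α * v1 / H)) *
          (‖AF (r v) (X * Real.exp (-((v : ℝ) / H))) t‖ ^ 2 * g T t) := by
        refine setIntegral_le_integral hint' (Filter.Eventually.of_forall fun t => ?_)
        exact Finset.sum_nonneg fun v _ => by
          have := MRF.AT.g_pos T t
          positivity
    _ = ∑ v ∈ Ico v1 v2, (v2 : ℝ) * Real.exp (-(2 * α * v1 / H)) *
          ∫ t, ‖AF (r v) (X * Real.exp (-((v : ℝ) / H))) t‖ ^ 2 * g T t := by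
        rw [integral_finsetSum _ hint]
        exact Finset.sum_congr rfl fun v _ => integral_const_mul _ _
    _ ≤ ∑ v ∈ Ico v1 v2, (v2 : ℝ) * Real.exp (-(2 * α * v1 / H)) * C := by
        refine Finset.sum_le_sum fun v hv' => ?_
        refine mul_le_mul_of_nonneg_left ?_ (by positivity)
        have hv2 : (v : ℝ) ≤ v2 := by exact_mod_cast (Finset.mem_Ico.mp hv').2.le
        have hexp : Real.exp ((v : ℝ) / H) ≤ Real.exp ((v2 : ℝ) / H) := by
          rw [Real.exp_le_exp]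
          gcongr
        have hinv : X * Real.exp (-((v : ℝ) / H)) = X / Real.exp ((v : ℝ) / H) := by
          rw [Real.exp_neg]
          rfl
        apply hA _ (hr v)
        · rw [hinv, le_div_iff₀ (Real.exp_pos _), one_mul]
          calc Real.exp ((v : ℝ) / H) ≤ √X := hexp.trans hX
            _ ≤ √X * √X := by nlinarith
            _ = X := Real.mul_self_sqrt hX0.le
        · exact hT
        · rw [hinv, le_div_iff₀ (Real.exp_pos _)]
          exact (mul_le_mul_of_nonneg_left hexp hT.le).trans hTX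
    _ = ((v2 - v1 : ℕ) : ℝ) * ((v2 : ℝ) * Real.exp (-(2 * α * v1 / H)) * C) := by
        rw [Finset.sum_const, Nat.card_Ico, nsmul_eq_mul]
    _ ≤ (v2 : ℝ) * ((v2 : ℝ) * Real.exp (-(2 * α * v1 / H)) * C) := by
        refine mul_le_mul_of_nonneg_right ?_ (by positivity)
        exact_mod_cast Nat.sub_le _ _
    _ = C * (v2 : ℝ) ^ 2 * Real.exp (-(2 * α * v1 / H)) := by ring

end Pool.Agent.MR2
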