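import Pool.Agent.Lib.MR2.SF
import Pool.Agent.Lib.MR2.FQ

/-!
# `SupW` for `λ χ`, all characters modulo `q` at once, with removed squares (tank MR2).  helper1.
-/

set_option autoImplicit false

namespace Pool.Agent.MR2

open Finset Pool.Agent.MRL Pool.Agent.MRF Pool.Agent.MRHal

/-- `SupW (lamChi χ) (sfw S) (1/80) C X` for all `X ≥ X0`, all `χ mod q`, all finite sets `S` of
primes. -/
theorem supW_lamChi (hL : LQ) (q : ℕ) [NeZero q] : ∃ C : ℝ, 0 < C ∧ ∃ X0 : ℝ, ∀ X : ℝ, X0 ≤ X →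
    ∀ χ : DirichletCharacter ℂ q, ∀ S : Finset ℕ, (∀ p ∈ S, p.Prime) →
    SupW (lamChi χ) (sfw S) (1 / 80) C X := by
  obtain ⟨C0, hC0, h⟩ := halC_lamChiU hL q
  obtain ⟨C, hC, X0, hs⟩ := supW_sf (1 / 80) C0 (by norm_num) hC0
  exact ⟨C, hC, X0, fun X hX χ S hS => hs X hX (lamChi χ) (cm_lamChi χ) (h χ) S hS⟩

/-- the same without weight. -/
theorem supW_lamChi_one (hL : LQ) (q : ℕ) [NeZero q] : ∃ C : ℝ, 0 < C ∧ ∃ X0 : ℝ, ∀ X : ℝ, X0 ≤ X →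
    ∀ χ : DirichletCharacter ℂ q, SupW (lamChi χ) (fun _ => 1) (1 / 80) C X := by
  obtain ⟨C0, hC0, h⟩ := halC_lamChiU hL q
  obtain ⟨C, hC, X0, hs⟩ := supW_one (1 / 80) C0 (by norm_num) hC0
  exact ⟨C, hC, X0, fun X hX χ => hs X hX (lamChi χ) (cm_lamChi χ) (h χ)⟩

end Pool.Agent.MR2
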