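import Mathlib

/-!
# Integers without squares of primes in windows and residue classes (tank MR2, stage 2).  helper1.
-/

set_option autoImplicit false

namespace Pool.Agent.MR2.SFW

open Finset

/-- `Σ 1/p² ≤ 12/25` over any finite set of primes. -/
theorem sum_inv_sq_le (S : Finset ℕ) (hS : ∀ p ∈ S, p.Prime) :
    ∑ p ∈ S, 1 / (p : ℝ) ^ 2 ≤ 12 / 25 := by
  classical
  have hsplit : ∑ p ∈ S, 1 / (p : ℝ) ^ 2
      = ∑ p ∈ S.filter (fun p => p < 11), 1 / (p : ℝ) ^ 2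
        + ∑ p ∈ S.filter (fun p => ¬ p < 11), 1 / (p : ℝ) ^ 2 :=
    (Finset.sum_filter_add_sum_filter_not _ _ _).symm
  have h1 : ∑ p ∈ S.filter (fun p => p < 11), 1 / (p : ℝ) ^ 2
      ≤ ∑ p ∈ ({2, 3, 5, 7} : Finset ℕ), 1 / (p : ℝ) ^ 2 := by
    apply Finset.sum_le_sum_of_subset_of_nonneg
    · intro p hp
      rw [mem_filter] at hp
      have hpp := hS p hp.1
      have hlt := hp.2
      interval_cases p <;> first | (simp; done) | (exfalso; revert hpp; norm_num)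
    · intro p _ _; positivity
  have h2 : ∑ p ∈ S.filter (fun p => ¬ p < 11), 1 / (p : ℝ) ^ 2 ≤ 1 / 20 := by
    set S' := S.filter (fun p => ¬ p < 11) with hS'
    have hodd : ∀ p ∈ S', 11 ≤ p ∧ p = 2 * (p / 2) + 1 := by
      intro p hp
      rw [hS', mem_filter] at hp
      have hpp := hS p hp.1
      have hge : 11 ≤ p := by omega
      refine ⟨hge, ?_⟩
      have := hpp.eq_two_or_odd
      omega
    have h3 : ∀ p ∈ S', 1 / (p : ℝ) ^ 2 ≤ 1 / (4 * ((p / 2 : ℕ) : ℝ) * (((p / 2 : ℕ) : ℝ) + 1)) := by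
      intro p hp
      obtain ⟨hge, he⟩ := hodd p hp
      have hk : (5 : ℝ) ≤ ((p / 2 : ℕ) : ℝ) := by
        have : 5 ≤ p / 2 := by omega
        exact_mod_cast this
      have hpr : (p : ℝ) = 2 * ((p / 2 : ℕ) : ℝ) + 1 := by exact_mod_cast he
      rw [hpr]
      apply one_div_le_one_div_of_le (by positivity)
      nlinarith
    refine (Finset.sum_le_sum h3).trans ?_
    have hinj : Set.InjOn (fun p : ℕ => p / 2) (S' : Set ℕ) := by
      intro p hp p' hp' h
      have a := (hodd p hp).2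
      have b := (hodd p' hp').2
      simp only at h
      omega
    have h4 : ∑ p ∈ S', 1 / (4 * ((p / 2 : ℕ) : ℝ) * (((p / 2 : ℕ) : ℝ) + 1))
        = ∑ k ∈ S'.image (fun p : ℕ => p / 2), 1 / (4 * (k : ℝ) * ((k : ℝ) + 1)) := by
      rw [Finset.sum_image hinj]
    rw [h4]
    obtain ⟨N, hN⟩ : ∃ N : ℕ, S'.image (fun p : ℕ => p / 2) ⊆ Ico 5 (5 + N) := by
      refine ⟨(S'.image (fun p : ℕ => p / 2)).sup id + 1, ?_⟩
      intro k hk
      have hle : k ≤ (S'.image (fun p : ℕ => p / 2)).sup id := Finset.le_sup (f := id) hk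
      rw [mem_image] at hk
      obtain ⟨p, hp, rfl⟩ := hk
      have := (hodd p hp).1
      rw [mem_Ico]
      omega
    refine (Finset.sum_le_sum_of_subset_of_nonneg hN (fun k _ _ => by positivity)).trans ?_
    have h5 : ∀ N : ℕ, ∑ k ∈ Ico 5 (5 + N), 1 / (4 * (k : ℝ) * ((k : ℝ) + 1))
        = 1 / 20 - 1 / (4 * ((5 + N : ℕ) : ℝ)) := by
      intro N
      induction N with
      | zero => norm_num
      | succ N ih =>
        rw [← Nat.add_assoc, Finset.sum_Ico_succ_top (by omega), ih]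
        push_cast
        field_simp
        ring
    rw [h5]
    have : (0 : ℝ) ≤ 1 / (4 * ((5 + N : ℕ) : ℝ)) := by positivity
    linarith
  have h3 : ∑ p ∈ ({2, 3, 5, 7} : Finset ℕ), 1 / (p : ℝ) ^ 2 ≤ 43 / 100 := by
    rw [Finset.sum_insert (by simp), Finset.sum_insert (by simp), Finset.sum_insert (by simp),
      Finset.sum_singleton]
    norm_num
  rw [hsplit]
  linarith

/-- the integers of one class modulo `r` in a window. -/
theorem class_card {r : ℕ} (hr : 0 < r) (v y m : ℕ) :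
    (m : ℝ) / r - 1 ≤ (((Ioc y (y + m)).filter (fun n => n ≡ v [MOD r])).card : ℝ) ∧
    (((Ioc y (y + m)).filter (fun n => n ≡ v [MOD r])).card : ℝ) ≤ (m : ℝ) / r + 1 := by
  have h1 := Nat.Ioc_filter_modEq_card (a := y) (b := y + m) hr v
  set c := ((Ioc y (y + m)).filter (fun n => n ≡ v [MOD r])).card with hc
  have hdQ : (0 : ℚ) < r := by exact_mod_cast hr
  have e1 : (((y + m : ℕ) : ℚ) - (v : ℚ)) / r = ((y : ℚ) - v) / r + (m : ℚ) / r := by
    push_cast; ring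
  rw [e1] at h1
  have c1 := Int.floor_le (((y : ℚ) - v) / r + (m : ℚ) / r)
  have c2 := Int.lt_floor_add_one (((y : ℚ) - v) / r + (m : ℚ) / r)
  have c3 := Int.floor_le (((y : ℚ) - v) / r)
  have c4 := Int.lt_floor_add_one (((y : ℚ) - v) / r)
  have h3 : (0 : ℚ) ≤ (m : ℚ) / r := by positivity
  have hcQ : (c : ℚ) = max (((⌊((y : ℚ) - v) / r + (m : ℚ) / r⌋ : ℤ) : ℚ)
      - ((⌊((y : ℚ) - v) / r⌋ : ℤ) : ℚ)) 0 := by
    have := congrArg (fun z : ℤ => (z : ℚ)) h1
    push_cast at this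
    exact this
  have k1 : (m : ℚ) / r - 1 ≤ c := by
    rw [hcQ]; refine le_max_of_le_left ?_; linarith
  have k2 : (c : ℚ) ≤ (m : ℚ) / r + 1 := by
    rw [hcQ]; refine max_le ?_ ?_ <;> linarith
  have k1' : (((m : ℚ) / r - 1 : ℚ) : ℝ) ≤ ((c : ℚ) : ℝ) := Rat.cast_le.2 k1
  have k2' : ((c : ℚ) : ℝ) ≤ (((m : ℚ) / r + 1 : ℚ) : ℝ) := Rat.cast_le.2 k2
  push_cast at k1' k2'
  exact ⟨k1', k2'⟩

/-- integers `≡ a mod q`, `(a, q) = 1`, without `p²`, `p ∈ S`, in a window: lower bound. -/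
theorem sf_window {q a : ℕ} (hq : 1 ≤ q) (ha : a.Coprime q) (S : Finset ℕ)
    (hS : ∀ p ∈ S, p.Prime) (y m : ℕ) :
    13 / 25 * ((m : ℝ) / q) - 1 - S.card ≤
      (((Ioc y (y + m)).filter (fun n => n ≡ a [MOD q] ∧ ∀ p ∈ S, ¬ p ^ 2 ∣ n)).card : ℝ) := by
  classical
  set A := (Ioc y (y + m)).filter (fun n => n ≡ a [MOD q]) with hA
  set G := (Ioc y (y + m)).filter (fun n => n ≡ a [MOD q] ∧ ∀ p ∈ S, ¬ p ^ 2 ∣ n) with hG
  set B : ℕ → Finset ℕ := fun p => A.filter (fun n => p ^ 2 ∣ n) with hB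
  have hq0 : (0 : ℝ) < q := by exact_mod_cast hq
  have hsub : A ⊆ G ∪ S.biUnion B := by
    intro n hn
    rw [mem_union, mem_biUnion]
    by_cases h : ∀ p ∈ S, ¬ p ^ 2 ∣ n
    · left
      rw [hA, mem_filter] at hn
      rw [hG, mem_filter]
      exact ⟨hn.1, hn.2, h⟩
    · right
      push Not at h
      obtain ⟨p, hp, hpn⟩ := h
      exact ⟨p, hp, by rw [hB, mem_filter]; exact ⟨hn, hpn⟩⟩
  have hBc : ∀ p ∈ S, ((B p).card : ℝ) ≤ (m : ℝ) / q * (1 / (p : ℝ) ^ 2) + 1 := by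
    intro p hp
    have hpp := hS p hp
    have hp0 : (0 : ℝ) < p := by exact_mod_cast hpp.pos
    by_cases hpq : p ∣ q
    · have : B p = ∅ := by
        rw [hB]
        simp only
        rw [filter_eq_empty_iff]
        intro n hn hpn
        rw [hA, mem_filter] at hn
        have h1 : p ∣ n := (dvd_pow_self p two_ne_zero).trans hpn
        have h2 : n.Coprime q := by
          have := hn.2.gcd_eq
          rw [Nat.Coprime, this]
          exact ha
        exact (Nat.Prime.not_coprime_iff_dvd).2 ⟨p, hpp, h1, hpq⟩ h2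
      rw [this, card_empty, Nat.cast_zero]
      positivity
    · have hcop : Nat.Coprime q (p ^ 2) :=
        Nat.Coprime.pow_right 2 ((Nat.Prime.coprime_iff_not_dvd hpp).2 hpq).symm
      obtain ⟨v, hv1, hv2⟩ := Nat.chineseRemainder hcop a 0
      have h1 : B p ⊆ (Ioc y (y + m)).filter (fun n => n ≡ v [MOD (q * p ^ 2)]) := by
        intro n hn
        rw [hB] at hn
        simp only at hn
        rw [mem_filter, hA, mem_filter] at hn
        rw [mem_filter]
        refine ⟨hn.1.1, ?_⟩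
        rw [← Nat.modEq_and_modEq_iff_modEq_mul hcop]
        exact ⟨hn.1.2.trans hv1.symm, ((Nat.modEq_zero_iff_dvd).2 hn.2).trans hv2.symm⟩
      have h2 := (class_card (r := q * p ^ 2) (by have := hpp.pos; positivity) v y m).2
      have h3 : ((B p).card : ℝ) ≤ (((Ioc y (y + m)).filter (fun n => n ≡ v [MOD (q * p ^ 2)])).card : ℝ) := by
        exact_mod_cast card_le_card h1
      refine h3.trans (h2.trans (le_of_eq ?_))
      push_cast
      field_simp
  have h1 : (A.card : ℝ) ≤ G.card + ∑ p ∈ S, ((B p).card : ℝ) := by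
    have h2 : A.card ≤ G.card + ∑ p ∈ S, (B p).card :=
      (card_le_card hsub).trans ((card_union_le _ _).trans
        (Nat.add_le_add_left card_biUnion_le _))
    exact_mod_cast h2
  have h2 : ∑ p ∈ S, ((B p).card : ℝ) ≤ (m : ℝ) / q * (12 / 25) + S.card := by
    refine (Finset.sum_le_sum hBc).trans ?_
    rw [Finset.sum_add_distrib, ← Finset.mul_sum, Finset.sum_const, nsmul_eq_mul, mul_one]
    have := mul_le_mul_of_nonneg_left (sum_inv_sq_le S hS) (show 0 ≤ (m : ℝ) / q by positivity)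
    linarith
  have h3 := (class_card (r := q) (by omega) a y m).1
  rw [← hA] at h3
  linarith

/-- few integers are divisible by the square of an integer `> z`. -/
theorem card_sq_large (N : ℕ) {z : ℝ} (hz : 1 ≤ z) (T : Finset ℕ)
    (hT : ∀ n ∈ T, 1 ≤ n ∧ n ≤ N ∧ ∃ p : ℕ, z < p ∧ p ^ 2 ∣ n) :
    (T.card : ℝ) ≤ 2 * N / z := by
  classical
  set k : ℕ := ⌊z⌋₊ + 1 with hk
  have hkz : z < k := by rw [hk]; push_cast; exact Nat.lt_floor_add_one z
  have hk2 : 2 ≤ k := by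
    have : 1 ≤ ⌊z⌋₊ := Nat.le_floor (by simpa using hz)
    omega
  have hsub : T ⊆ (Ico k (k + N)).biUnion (fun p => (Ioc 0 N).filter (fun n => p ^ 2 ∣ n)) := by
    intro n hn
    obtain ⟨h1, h2, p, hp, hpn⟩ := hT n hn
    rw [mem_biUnion]
    have hkp : k ≤ p := by
      have : ⌊z⌋₊ < p := (Nat.floor_lt (by linarith)).2 hp
      omega
    refine ⟨p, ?_, ?_⟩
    · rw [mem_Ico]
      refine ⟨hkp, ?_⟩
      have h3 : p ^ 2 ≤ n := Nat.le_of_dvd (by omega) hpn
      nlinarith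
    · rw [mem_filter, mem_Ioc]
      exact ⟨⟨by omega, h2⟩, hpn⟩
  have h1 : (T.card : ℝ) ≤ ∑ p ∈ Ico k (k + N), (N : ℝ) * (1 / (p : ℝ) ^ 2) := by
    have h2 : T.card ≤ ∑ p ∈ Ico k (k + N), ((Ioc 0 N).filter (fun n => p ^ 2 ∣ n)).card :=
      (card_le_card hsub).trans card_biUnion_le
    have h3 : (T.card : ℝ) ≤ ∑ p ∈ Ico k (k + N), (((Ioc 0 N).filter (fun n => p ^ 2 ∣ n)).card : ℝ) := by
      exact_mod_cast h2
    refine h3.trans (Finset.sum_le_sum fun p hp => ?_)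
    rw [mem_Ico] at hp
    have hp0 : 0 < p := by omega
    rw [Nat.Ioc_filter_dvd_card_eq_div]
    have : ((N / p ^ 2 : ℕ) : ℝ) ≤ (N : ℝ) / ((p ^ 2 : ℕ) : ℝ) := Nat.cast_div_le
    refine this.trans (le_of_eq ?_)
    push_cast
    ring
  have h5 : ∀ M : ℕ, ∑ p ∈ Ico k (k + M), 1 / (p : ℝ) ^ 2 ≤ 1 / ((k : ℝ) - 1) - 1 / (((k + M : ℕ) : ℝ) - 1) := by
    intro M
    have hkr : (2 : ℝ) ≤ k := by exact_mod_cast hk2
    induction M with
    | zero => simp
    | succ M ih =>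
      rw [← Nat.add_assoc, Finset.sum_Ico_succ_top (by omega)]
      have hx : (2 : ℝ) ≤ ((k + M : ℕ) : ℝ) := by push_cast; have : (0 : ℝ) ≤ M := Nat.cast_nonneg M; linarith
      have h6 : 1 / (((k + M : ℕ) : ℝ)) ^ 2
          ≤ 1 / (((k + M : ℕ) : ℝ) - 1) - 1 / (((k + M + 1 : ℕ) : ℝ) - 1) := by
        have e : (((k + M + 1 : ℕ) : ℝ) - 1) = ((k + M : ℕ) : ℝ) := by push_cast; ring
        rw [e]
        set x : ℝ := ((k + M : ℕ) : ℝ) with hxdef
        have e2 : 1 / (x - 1) - 1 / x = 1 / ((x - 1) * x) := by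
          have : x - 1 ≠ 0 := by linarith
          have : x ≠ 0 := by linarith
          field_simp
          ring
        rw [e2]
        apply one_div_le_one_div_of_le
        · apply mul_pos <;> linarith
        · nlinarith
      linarith
  have h6 : ∑ p ∈ Ico k (k + N), (N : ℝ) * (1 / (p : ℝ) ^ 2) ≤ N * (1 / ((k : ℝ) - 1)) := by
    rw [← Finset.mul_sum]
    have hkr : (2 : ℝ) ≤ k := by exact_mod_cast hk2
    have h7 := h5 N
    have h8 : 0 ≤ 1 / (((k + N : ℕ) : ℝ) - 1) := by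
      apply div_nonneg zero_le_one
      push_cast
      have : (0 : ℝ) ≤ N := Nat.cast_nonneg N
      linarith
    exact mul_le_mul_of_nonneg_left (by linarith) (Nat.cast_nonneg N)
  refine h1.trans (h6.trans ?_)
  have h7 : z / 2 ≤ (k : ℝ) - 1 := by
    have h8 : ((⌊z⌋₊ : ℕ) : ℝ) = (k : ℝ) - 1 := by rw [hk]; push_cast; ring
    rw [← h8]
    have h9 : z < (⌊z⌋₊ : ℝ) + 1 := Nat.lt_floor_add_one z
    have h10 : (1 : ℝ) ≤ (⌊z⌋₊ : ℝ) := by
      have : 1 ≤ ⌊z⌋₊ := Nat.le_floor (by simpa using hz)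
      exact_mod_cast this
    linarith
  have h8 : 1 / ((k : ℝ) - 1) ≤ 2 / z := by
    rw [div_le_div_iff₀ (by linarith) (by linarith)]
    linarith
  calc (N : ℝ) * (1 / ((k : ℝ) - 1)) ≤ N * (2 / z) :=
        mul_le_mul_of_nonneg_left h8 (Nat.cast_nonneg N)
    _ = 2 * N / z := by ring

end Pool.Agent.MR2.SFW
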