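import Pool.Agent.Lib.MR2.Defs
import Pool.Agent.Lib.MRF.SJ
import Pool.Agent.Lib.MR2.MO

/-! TANK MR2, row SJ: the set `T_j minus T_(j-1)` with arbitrary cofactors (helper22, after MRF/SJ
of helper64). -/

set_option autoImplicit false

namespace Pool.Agent.MR2

open Finset MeasureTheory Pool.Agent.MRL Pool.Agent.MRF Pool.Agent.MRHal
open Pool.Agent.MRL.SJ (g_nonneg int_sq bdd_pow_mul bdd_mul term_le)
open Pool.Agent.MRF.SJ (bdd_A bdd_Q meas_good one_le_of_not_good)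

namespace SJR

variable (f : ℕ → ℂ) (r : ℕ → ℕ → ℂ)

theorem continuous_SR (X : ℝ) (H v1 v2 : ℕ) : Continuous (SR f r X H v1 v2) := by
  unfold SR
  exact continuous_finsetSum _ fun v _ => (continuous_QF f H v).mul (continuous_AF (r v) _)

theorem bdd_S (X : ℝ) (H v1 v2 : ℕ) : ∃ B, ∀ t, ‖SR f r X H v1 v2 t‖ ≤ B := by
  have h : ∀ v : ℕ, ∃ B, ∀ t, ‖QF f H v t * AF (r v) (X * Real.exp (-((v : ℝ) / H))) t‖ ≤ B :=
    fun v => bdd_mul (bdd_Q f H v) (bdd_A (r v) _)
  choose B hB using h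
  refine ⟨∑ v ∈ Ico v1 v2, B v, fun t => ?_⟩
  unfold SR
  exact (norm_sum_le _ _).trans (sum_le_sum fun v _ => hB v t)

/-- The mean value of `Q^l A`. -/
theorem mv_moment (hMV : MeanValue) (hMO : MomentR) : ∃ C : ℝ, 1 ≤ C ∧
    ∀ f : ℕ → ℂ, (∀ n, ‖f n‖ ≤ 1) → ∀ r : ℕ → ℂ, (∀ n, ‖r n‖ ≤ 1) →
    ∀ (l H v : ℕ) (Y T : ℝ), 1 ≤ l → 1 ≤ H → H ≤ v → 1 ≤ Y → 0 < T →
      T ≤ Real.exp (l * ((v : ℝ) / H)) * Y →
      ∫ t : ℝ, ‖QF f H v t ^ l * AF r Y t‖ ^ 2 * g T t ≤ C * (C * l) ^ l := by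
  obtain ⟨C1, hC1, h1⟩ := hMV
  obtain ⟨C2, hC2, h2⟩ := hMO
  -- `C1 (T + N) / N0 ≤ 3 C1 e^l`
  refine ⟨max (max 1 (3 * C1)) (Real.exp 1 * C2), (le_max_left _ _).trans (le_max_left _ _), ?_⟩
  intro f hf r hr l H v Y T hl hH hv hY hT hTY
  obtain ⟨N, c, hN1, hN, hid, hsupp, hsum⟩ := h2 f hf r hr l H v Y hl hH hv hY
  set N0 : ℝ := Real.exp (l * ((v : ℝ) / H)) * Y with hN0
  have hN0p : 0 < N0 := by positivity
  have hHr : (0 : ℝ) < H := by exact_mod_cast hH
  have hHr1 : (1 : ℝ) ≤ H := by exact_mod_cast hH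
  have hl0 : (1 : ℝ) ≤ l := by exact_mod_cast hl
  -- the sum of squares
  have hsq : ∑ n ∈ Icc 1 N, ‖c n‖ ^ 2 ≤ (C2 * l) ^ l / N0 := by
    rw [le_div_iff₀ hN0p, sum_mul]
    refine le_trans (sum_le_sum fun n _ => ?_) hsum
    by_cases hc : c n = 0
    · simp [hc]
    · exact mul_le_mul_of_nonneg_left (hsupp n hc) (by positivity)
  have hN2 : (N : ℝ) ≤ 2 * Real.exp l * N0 := by
    refine hN.trans ?_
    have h3 : (l : ℝ) * (((v : ℝ) + 1) / H) = l * ((v : ℝ) / H) + l / H := by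
      field_simp
    rw [h3, Real.exp_add, hN0]
    have h4 : Real.exp ((l : ℝ) / H) ≤ Real.exp l :=
      Real.exp_le_exp.mpr (div_le_self (by positivity) hHr1)
    have h5 : 0 ≤ Real.exp (l * ((v : ℝ) / H)) * Y := hN0p.le
    nlinarith [mul_le_mul_of_nonneg_left h4 h5]
  have hT2 : T ≤ Real.exp l * N0 := by
    refine hTY.trans ?_
    have : (1 : ℝ) ≤ Real.exp l := Real.one_le_exp (by positivity)
    nlinarith
  have hmv := h1 N T c hN1 hT
  have heq : ∫ t : ℝ, ‖QF f H v t ^ l * AF r Y t‖ ^ 2 * g T t =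
      ∫ t : ℝ, ‖∑ n ∈ Icc 1 N, c n * nt n t‖ ^ 2 * g T t := by
    congr 1
    ext t
    rw [hid t]
  rw [heq]
  refine hmv.trans ?_
  have hM0 : 0 ≤ (C2 * l) ^ l := by positivity
  have h6 : C1 * (T + N) * ∑ n ∈ Icc 1 N, ‖c n‖ ^ 2 ≤
      C1 * (3 * Real.exp l * N0) * ((C2 * l) ^ l / N0) := by
    apply mul_le_mul
    · exact mul_le_mul_of_nonneg_left (by linarith) hC1.le
    · exact hsq
    · exact sum_nonneg fun n _ => by positivity
    · positivity
  refine h6.trans ?_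
  have h7 : C1 * (3 * Real.exp l * N0) * ((C2 * l) ^ l / N0) =
      3 * C1 * (Real.exp 1 * C2 * l) ^ l := by
    have h8 : Real.exp (l : ℝ) = Real.exp 1 ^ l := by
      rw [← Real.exp_nat_mul, mul_one]
    rw [h8, mul_assoc (Real.exp 1), mul_pow (Real.exp 1)]
    field_simp
  rw [h7]
  have h9 : 3 * C1 ≤ max (max 1 (3 * C1)) (Real.exp 1 * C2) :=
    (le_max_right _ _).trans (le_max_left _ _)
  have h10 : Real.exp 1 * C2 ≤ max (max 1 (3 * C1)) (Real.exp 1 * C2) := le_max_right _ _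
  apply mul_le_mul h9
  · apply pow_le_pow_left₀ (by positivity)
    exact mul_le_mul_of_nonneg_right h10 (by positivity)
  · positivity
  · exact le_trans (by positivity) h9

/-- Cauchy–Schwarz and `Good`. -/
theorem S_sq_le {X : ℝ} {H v1 v2 : ℕ} {α t : ℝ} (hG : GoodF f H v1 v2 α t) :
    ‖SR f r X H v1 v2 t‖ ^ 2 ≤ ((Ico v1 v2).card : ℝ) * ∑ v ∈ Ico v1 v2,
      Real.exp (-(2 * α * v / H)) * ‖AF (r v) (X * Real.exp (-((v : ℝ) / H))) t‖ ^ 2 := by
  unfold SR
  have h1 : ‖∑ v ∈ Ico v1 v2, QF f H v t * AF (r v) (X * Real.exp (-((v : ℝ) / H))) t‖ ≤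
      ∑ v ∈ Ico v1 v2, Real.exp (-(α * v / H)) * ‖AF (r v) (X * Real.exp (-((v : ℝ) / H))) t‖ := by
    refine (norm_sum_le _ _).trans (sum_le_sum fun v hv => ?_)
    rw [norm_mul]
    exact mul_le_mul_of_nonneg_right (hG v hv) (norm_nonneg _)
  have h2 := pow_le_pow_left₀ (norm_nonneg _) h1 2
  refine h2.trans ((sq_sum_le_card_mul_sum_sq).trans (le_of_eq ?_))
  congr 1
  refine sum_congr rfl fun v _ => ?_
  rw [mul_pow, ← Real.exp_nat_mul]
  congr 2
  push_cast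
  ring

/-- The integral over `E` in terms of the moments. -/
theorem int_le {X T : ℝ} {H' v1' v2' H v1 v2 : ℕ} {α' α : ℝ} (hT : 0 < T) (l : ℕ → ℕ → ℕ) :
    ∫ t in {t : ℝ | GoodF f H v1 v2 α t ∧ ¬ GoodF f H' v1' v2' α' t}, ‖SR f r X H v1 v2 t‖ ^ 2 * g T t ≤
      ((Ico v1 v2).card : ℝ) * ∑ v ∈ Ico v1 v2, ∑ w ∈ Ico v1' v2',
        Real.exp (-(2 * α * v / H)) * Real.exp (2 * l v w * (α' * w / H')) *
        ∫ t : ℝ, ‖QF f H' w t ^ l v w * AF (r v) (X * Real.exp (-((v : ℝ) / H))) t‖ ^ 2 * g T t := by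
  set E : Set ℝ := {t : ℝ | GoodF f H v1 v2 α t ∧ ¬ GoodF f H' v1' v2' α' t} with hE
  have hEm : MeasurableSet E := (meas_good f H v1 v2 α).inter (meas_good f H' v1' v2' α').compl
  set F : ℝ → ℝ := fun t => ((Ico v1 v2).card : ℝ) * ∑ v ∈ Ico v1 v2, ∑ w ∈ Ico v1' v2',
    Real.exp (-(2 * α * v / H)) * Real.exp (2 * l v w * (α' * w / H')) *
      (‖QF f H' w t ^ l v w * AF (r v) (X * Real.exp (-((v : ℝ) / H))) t‖ ^ 2 * g T t) with hF
  have hint : ∀ v w : ℕ, Integrable fun t : ℝ =>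
      ‖QF f H' w t ^ l v w * AF (r v) (X * Real.exp (-((v : ℝ) / H))) t‖ ^ 2 * g T t := fun v w =>
    int_sq hT (((continuous_QF f H' w).pow _).mul (continuous_AF (r v) _)) (bdd_pow_mul _ (bdd_Q f _ _) (bdd_A (r v) _))
  have hFi : Integrable F := by
    refine Integrable.const_mul ?_ _
    refine integrable_finsetSum _ fun v _ => ?_
    refine integrable_finsetSum _ fun w _ => ?_
    exact (hint v w).const_mul _
  have hFint : ∫ t : ℝ, F t = ((Ico v1 v2).card : ℝ) * ∑ v ∈ Ico v1 v2, ∑ w ∈ Ico v1' v2',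
        Real.exp (-(2 * α * v / H)) * Real.exp (2 * l v w * (α' * w / H')) *
        ∫ t : ℝ, ‖QF f H' w t ^ l v w * AF (r v) (X * Real.exp (-((v : ℝ) / H))) t‖ ^ 2 * g T t := by
    rw [hF, integral_const_mul, integral_finsetSum]
    · congr 1
      refine sum_congr rfl fun v _ => ?_
      rw [integral_finsetSum]
      · refine sum_congr rfl fun w _ => ?_
        rw [integral_const_mul]
      · intro w _
        exact (hint v w).const_mul _
    · intro v _
      refine integrable_finsetSum _ fun w _ => ?_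
      exact (hint v w).const_mul _
  rw [← hFint]
  have hF0 : ∀ t, 0 ≤ F t := by
    intro t
    simp only [hF]
    refine mul_nonneg (by positivity) (sum_nonneg fun v _ => sum_nonneg fun w _ => ?_)
    have := g_nonneg T t
    positivity
  have h1 : ∫ t in E, ‖SR f r X H v1 v2 t‖ ^ 2 * g T t ≤ ∫ t in E, F t := by
    refine setIntegral_mono_on (int_sq hT (continuous_SR f r X H v1 v2) (bdd_S f r X H v1 v2)).integrableOn
      hFi.integrableOn hEm ?_
    intro t ht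
    have h2 := S_sq_le f r (X := X) ht.1
    have h3 : ∀ v ∈ Ico v1 v2, ‖AF (r v) (X * Real.exp (-((v : ℝ) / H))) t‖ ^ 2 ≤
        ∑ w ∈ Ico v1' v2', Real.exp (2 * l v w * (α' * w / H')) *
          ‖QF f H' w t ^ l v w * AF (r v) (X * Real.exp (-((v : ℝ) / H))) t‖ ^ 2 := by
      intro v _
      have h4 := one_le_of_not_good f ht.2 (l v)
      have h5 := mul_le_mul_of_nonneg_right h4
        (sq_nonneg ‖AF (r v) (X * Real.exp (-((v : ℝ) / H))) t‖)
      rw [one_mul, sum_mul] at h5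
      refine h5.trans (le_of_eq ?_)
      refine sum_congr rfl fun w _ => ?_
      rw [norm_mul, mul_pow, mul_assoc]
    have h6 : ‖SR f r X H v1 v2 t‖ ^ 2 ≤ ((Ico v1 v2).card : ℝ) * ∑ v ∈ Ico v1 v2,
        Real.exp (-(2 * α * v / H)) * ∑ w ∈ Ico v1' v2', Real.exp (2 * l v w * (α' * w / H')) *
          ‖QF f H' w t ^ l v w * AF (r v) (X * Real.exp (-((v : ℝ) / H))) t‖ ^ 2 := by
      refine h2.trans (mul_le_mul_of_nonneg_left (sum_le_sum fun v hv => ?_) (by positivity))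
      exact mul_le_mul_of_nonneg_left (h3 v hv) (Real.exp_pos _).le
    have h7 := mul_le_mul_of_nonneg_right h6 (g_nonneg T t)
    refine h7.trans (le_of_eq ?_)
    simp only [hF]
    rw [mul_assoc, sum_mul]
    congr 1
    refine sum_congr rfl fun v _ => ?_
    rw [mul_sum, sum_mul]
    refine sum_congr rfl fun w _ => ?_
    ring
  exact h1.trans (setIntegral_le_integral hFi (Filter.Eventually.of_forall hF0))


end SJR

open SJR in
/-- **Row SJ.** -/
theorem stepJR (hMV : MeanValue) (hMO : MomentR) : StepJR := by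
  obtain ⟨C, hC, hmv⟩ := mv_moment hMV hMO
  refine ⟨C, hC, ?_⟩
  intro f hf r hr X T H' v1' v2' H v1 v2 α' α hH' hv1' hv12' hHH hv1 hv12 hα' hD hα h12 hlog2 hlog3 hT hTX
    hX
  have hH : 1 ≤ H := hH'.trans hHH
  have hHr : (0 : ℝ) < H := by exact_mod_cast hH
  have hH'r : (0 : ℝ) < H' := by exact_mod_cast hH'
  set A1 : ℝ := (v1 : ℝ) / H with hA1
  set B1 : ℝ := (v1' : ℝ) / H' with hB1
  set B2 : ℝ := (v2' : ℝ) / H' with hB2
  have hA1' : 1 ≤ A1 := by
    rw [hA1, le_div_iff₀ hHr, one_mul]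
    exact_mod_cast hv1
  have hB1' : 1 ≤ B1 := by
    rw [hB1, le_div_iff₀ hH'r, one_mul]
    exact_mod_cast hv1'
  have hX1 : 1 ≤ √X := (Real.one_le_exp (by positivity)).trans hX
  have hX0 : 0 < X := by
    by_contra h
    rw [Real.sqrt_eq_zero_of_nonpos (not_lt.mp h)] at hX1
    linarith
  set l : ℕ → ℕ → ℕ := fun v w => ⌈((v : ℝ) / H) / ((w : ℝ) / H')⌉₊ with hl
  have hterm : ∀ v ∈ Ico v1 v2, ∀ w ∈ Ico v1' v2',
      Real.exp (-(2 * α * v / H)) * Real.exp (2 * l v w * (α' * w / H')) *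
        ∫ t : ℝ, ‖QF f H' w t ^ l v w * AF (r v) (X * Real.exp (-((v : ℝ) / H))) t‖ ^ 2 * g T t ≤
      C * Real.exp (-(31 / 24 * ((α - α') * A1))) := by
    intro v hv w hw
    rw [mem_Ico] at hv hw
    have ha1 : A1 ≤ (v : ℝ) / H := by
      rw [hA1]
      gcongr
      exact_mod_cast hv.1
    have ha2 : (v : ℝ) / H ≤ (v2 : ℝ) / H := by
      gcongr
      exact_mod_cast hv.2.le
    have hb1 : B1 ≤ (w : ℝ) / H' := by
      rw [hB1]
      gcongr
      exact_mod_cast hw.1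
    have hb2 : (w : ℝ) / H' ≤ B2 := by
      rw [hB2]
      gcongr
      exact_mod_cast hw.2.le
    set a : ℝ := (v : ℝ) / H with ha
    set b : ℝ := (w : ℝ) / H' with hb
    have ha0 : 0 < a := by linarith
    have hb0 : 0 < b := by linarith
    have hl1 : 1 ≤ l v w := Nat.one_le_iff_ne_zero.mpr (Nat.ceil_pos.mpr (by positivity)).ne'
    have hl2 : (l v w : ℝ) ≤ a / b + 1 := (Nat.ceil_lt_add_one (by positivity)).le
    have hl3 : a / b ≤ l v w := Nat.le_ceil _
    have hY : X * Real.exp (-a) ≥ √X := by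
      have h1 : Real.exp a ≤ √X := (Real.exp_le_exp.mpr ha2).trans hX
      rw [Real.exp_neg, ← div_eq_mul_inv, ge_iff_le, le_div_iff₀ (Real.exp_pos _)]
      calc √X * Real.exp a ≤ √X * √X := mul_le_mul_of_nonneg_left h1 (by positivity)
        _ = X := Real.mul_self_sqrt hX0.le
    have hTY : T ≤ Real.exp (l v w * b) * (X * Real.exp (-a)) := by
      refine hTX.trans ?_
      have h1 : a ≤ l v w * b := by
        rwa [div_le_iff₀ hb0] at hl3
      have h2 : Real.exp a ≤ Real.exp (l v w * b) := Real.exp_le_exp.mpr h1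
      have h3 : Real.exp a * Real.exp (-a) = 1 := by
        rw [← Real.exp_add, add_neg_cancel, Real.exp_zero]
      calc X = Real.exp a * (X * Real.exp (-a)) := by
            rw [mul_left_comm, h3, mul_one]
        _ ≤ _ := mul_le_mul_of_nonneg_right h2 (by positivity)
    have h1 := hmv f hf (r v) (hr v) (l v w) H' w (X * Real.exp (-a)) T hl1 hH' (hv1'.trans hw.1)
      (hX1.trans hY) hT hTY
    have h2 : Real.exp (-(2 * α * v / H)) * Real.exp (2 * l v w * (α' * w / H')) *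
        ∫ t : ℝ, ‖QF f H' w t ^ l v w * AF (r v) (X * Real.exp (-a)) t‖ ^ 2 * g T t ≤
        Real.exp (-(2 * α * v / H)) * Real.exp (2 * l v w * (α' * w / H')) *
          (C * (C * l v w) ^ l v w) :=
      mul_le_mul_of_nonneg_left h1 (by positivity)
    refine h2.trans ?_
    have h3 := term_le (C := C) (α := α) (α' := α') (a := a) (b := b) (A1 := A1) (B1 := B1)
      (B2 := B2) (V := (v2 : ℝ) / H) (l := l v w) hC hα' hD hα hB1' hb1 hb2 ha1 ha2 hA1' h12
      hlog3 hl1 hl2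
    have h4 : 2 * α * v / H = 2 * α * a := by
      rw [ha]
      ring
    have h5 : α' * w / H' = α' * b := by
      rw [hb]
      ring
    rw [h4, h5]
    exact h3
  have h1 := int_le f r (X := X) (T := T) (H' := H') (v1' := v1') (v2' := v2') (H := H) (v1 := v1)
    (v2 := v2) (α' := α') (α := α) hT l
  refine h1.trans ?_
  have h2 : ∑ v ∈ Ico v1 v2, ∑ w ∈ Ico v1' v2',
        Real.exp (-(2 * α * v / H)) * Real.exp (2 * l v w * (α' * w / H')) *
        ∫ t : ℝ, ‖QF f H' w t ^ l v w * AF (r v) (X * Real.exp (-((v : ℝ) / H))) t‖ ^ 2 * g T t ≤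
      ((Ico v1 v2).card : ℝ) * (((Ico v1' v2').card : ℝ) *
        (C * Real.exp (-(31 / 24 * ((α - α') * A1))))) := by
    have h3 : ∀ v ∈ Ico v1 v2, ∑ w ∈ Ico v1' v2',
        Real.exp (-(2 * α * v / H)) * Real.exp (2 * l v w * (α' * w / H')) *
        ∫ t : ℝ, ‖QF f H' w t ^ l v w * AF (r v) (X * Real.exp (-((v : ℝ) / H))) t‖ ^ 2 * g T t ≤
        ((Ico v1' v2').card : ℝ) * (C * Real.exp (-(31 / 24 * ((α - α') * A1)))) := by
      intro v hv
      have := sum_le_card_nsmul (Ico v1' v2') _ _ (hterm v hv)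
      rwa [nsmul_eq_mul] at this
    have := sum_le_card_nsmul (Ico v1 v2) _ _ h3
    rwa [nsmul_eq_mul] at this
  -- the number of terms
  have hV : (v2' : ℝ) ≤ v2 := by
    have h3 : 12 * B2 ≤ A1 := by
      refine h12.trans ?_
      nlinarith
    have h4 : A1 ≤ (v1 : ℝ) / H' := by
      rw [hA1]
      exact div_le_div_of_nonneg_left (by positivity) hH'r (by exact_mod_cast hHH)
    have h5 : 12 * ((v2' : ℝ) / H') ≤ (v1 : ℝ) / H' := h3.trans h4
    rw [← mul_div_assoc, div_le_div_iff_of_pos_right hH'r] at h5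
    have h6 : (v1 : ℝ) ≤ v2 := by exact_mod_cast hv12
    have h7 : (0 : ℝ) ≤ v2' := by positivity
    linarith
  have hc1 : ((Ico v1 v2).card : ℝ) ≤ (v2 : ℝ) + 2 := by
    rw [Nat.card_Ico]
    have : ((v2 - v1 : ℕ) : ℝ) ≤ v2 := by exact_mod_cast Nat.sub_le _ _
    linarith
  have hc2 : ((Ico v1' v2').card : ℝ) ≤ (v2 : ℝ) + 2 := by
    rw [Nat.card_Ico]
    have : ((v2' - v1' : ℕ) : ℝ) ≤ v2' := by exact_mod_cast Nat.sub_le _ _
    linarith
  have hP : ((v2 : ℝ) + 2) ^ 3 ≤ Real.exp ((α - α') * A1 / 4) := by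
    have h3 : ((v2 : ℝ) + 2) ^ 3 = Real.exp (3 * Real.log ((v2 : ℝ) + 2)) := by
      have : (3 : ℝ) = ((3 : ℕ) : ℝ) := by norm_num
      rw [this, Real.exp_nat_mul, Real.exp_log (by positivity)]
    rw [h3]
    exact Real.exp_le_exp.mpr (by linarith)
  have hE0 : 0 ≤ C * Real.exp (-(31 / 24 * ((α - α') * A1))) := by positivity
  calc ((Ico v1 v2).card : ℝ) * _ ≤ ((Ico v1 v2).card : ℝ) * (((Ico v1 v2).card : ℝ) *
        (((Ico v1' v2').card : ℝ) * (C * Real.exp (-(31 / 24 * ((α - α') * A1)))))) :=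
        mul_le_mul_of_nonneg_left h2 (by positivity)
    _ ≤ ((v2 : ℝ) + 2) * (((v2 : ℝ) + 2) *
        (((v2 : ℝ) + 2) * (C * Real.exp (-(31 / 24 * ((α - α') * A1)))))) := by
        gcongr
    _ = ((v2 : ℝ) + 2) ^ 3 * (C * Real.exp (-(31 / 24 * ((α - α') * A1)))) := by ring
    _ ≤ Real.exp ((α - α') * A1 / 4) * (C * Real.exp (-(31 / 24 * ((α - α') * A1)))) :=
        mul_le_mul_of_nonneg_right hP hE0
    _ = C * Real.exp (-(25 / 24 * ((α - α') * A1))) := by
        rw [mul_left_comm, ← Real.exp_add]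
        congr 2
        ring
    _ ≤ C * Real.exp (-((α - α') * v1 / H)) := by
        refine mul_le_mul_of_nonneg_left (Real.exp_le_exp.mpr ?_) (by linarith)
        have h3 : (α - α') * v1 / H = (α - α') * A1 := by
          rw [hA1]
          ring
        rw [h3]
        have : 0 ≤ (α - α') * A1 := mul_nonneg (by linarith) (by linarith)
        linarith

end Pool.Agent.MR2
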