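import Pool.Agent.Lib.MR2.SM2G
import Pool.Agent.Lib.MR2.StatL

/-! Row SM2, part 2: the expectation and the final theorem. -/

set_option autoImplicit false

namespace Pool.Agent.MR2

open Finset Pool.Agent.Lib.PO69

/-! ## Sums of reciprocals -/

theorem sum_inv_sq_le (n : ℕ) : ∑ g ∈ Icc 1 n, 1 / (g : ℝ) ^ 2 ≤ 2 := by
  have h : ∀ n : ℕ, ∑ g ∈ Icc 1 (n + 1), 1 / (g : ℝ) ^ 2 ≤ 2 - 1 / ((n : ℝ) + 1) := by
    intro n
    induction n with
    | zero => norm_num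
    | succ k ih =>
      rw [sum_Icc_succ_top (by omega)]
      have hk : (0 : ℝ) ≤ k := Nat.cast_nonneg k
      have h1 : 1 / (((k + 1 + 1 : ℕ) : ℝ)) ^ 2 ≤ 1 / ((k : ℝ) + 1) - 1 / (((k + 1 : ℕ) : ℝ) + 1) := by
        push_cast
        rw [div_sub_div _ _ (by positivity) (by positivity), div_le_div_iff₀ (by positivity)
          (by positivity)]
        nlinarith
      linarith
  rcases Nat.eq_zero_or_pos n with h0 | h0
  · rw [h0]; norm_num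
  · obtain ⟨k, rfl⟩ : ∃ k, n = k + 1 := ⟨n - 1, by omega⟩
    have h1 := h k
    have h2 : 0 ≤ 1 / ((k : ℝ) + 1) := by positivity
    linarith

theorem log_le_sum (m n : ℕ) (h : m ≤ n) :
    Real.log ((n : ℝ) + 1) - Real.log ((m : ℝ) + 1) ≤ ∑ k ∈ Ico m n, 1 / ((k : ℝ) + 1) := by
  induction n, h using Nat.le_induction with
  | base => simp
  | succ k hk ih =>
    rw [sum_Ico_succ_top hk]
    have hk0 : (0 : ℝ) ≤ k := Nat.cast_nonneg k
    have h1 : Real.log (((k + 1 : ℕ) : ℝ) + 1) - Real.log ((k : ℝ) + 1) ≤ 1 / ((k : ℝ) + 1) := by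
      rw [← Real.log_div (by positivity) (by positivity)]
      have h2 := Real.log_le_sub_one_of_pos
        (x := (((k + 1 : ℕ) : ℝ) + 1) / ((k : ℝ) + 1)) (by positivity)
      refine h2.trans (le_of_eq ?_)
      push_cast
      field_simp
      ring
    linarith

/-- the sum of `1/s` over the integers coprime to `P` in `[w0, W]`. -/
theorem sum_cop_ge (P w0 W : ℕ) (hP : 1 ≤ P) (hw0 : 1 ≤ w0)
    (hW : ((P : ℝ) * (w0 + 1)) ^ 2 ≤ W) :
    Real.log W / (2 * P) ≤ ∑ s ∈ (Icc w0 W).filter (fun s => s.Coprime P), 1 / (s : ℝ) := by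
  classical
  have hP' : (1 : ℝ) ≤ P := by exact_mod_cast hP
  have hP0 : (0 : ℝ) < P := by linarith
  have hw0' : (1 : ℝ) ≤ w0 := by exact_mod_cast hw0
  have hy1 : (1 : ℝ) ≤ P * (w0 + 1) := by nlinarith
  have hW1 : (1 : ℝ) ≤ W := le_trans (by nlinarith) hW
  have hWn : 1 ≤ W := by exact_mod_cast hW1
  set k1 : ℕ := (W - 1) / P + 1 with hk1
  have hPk : (W : ℝ) ≤ P * k1 := by
    have h1 : W - 1 < P * k1 := by
      rw [hk1]
      exact Nat.lt_mul_div_succ _ hP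
    have h2 : W ≤ P * k1 := by omega
    exact_mod_cast h2
  have hk1w : w0 ≤ k1 := by
    have h1 : (P : ℝ) * w0 ≤ P * k1 := by nlinarith
    have h2 : (w0 : ℝ) ≤ k1 := le_of_mul_le_mul_left h1 hP0
    exact_mod_cast h2
  have hsub : ((Ico w0 k1).image (fun k => 1 + P * k)) ⊆
      (Icc w0 W).filter (fun s => s.Coprime P) := by
    intro s hs
    rw [mem_image] at hs
    obtain ⟨k, hk, rfl⟩ := hs
    rw [mem_Ico] at hk
    rw [mem_filter, mem_Icc]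
    refine ⟨⟨?_, ?_⟩, ?_⟩
    · have : k ≤ P * k := Nat.le_mul_of_pos_left k hP
      omega
    · have h1 : k ≤ (W - 1) / P := by omega
      have h2 : k * P ≤ W - 1 := (Nat.le_div_iff_mul_le hP).1 h1
      have h3 : P * k = k * P := Nat.mul_comm _ _
      omega
    · rw [Nat.coprime_add_mul_left_left]
      exact Nat.coprime_one_left P
  have h1 : ∑ s ∈ (Ico w0 k1).image (fun k => 1 + P * k), 1 / (s : ℝ)
      = ∑ k ∈ Ico w0 k1, 1 / ((1 + P * k : ℕ) : ℝ) := by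
    rw [sum_image]
    intro x _ y _ hxy
    simp only at hxy
    exact Nat.eq_of_mul_eq_mul_left hP (by omega)
  have h2 : ∑ s ∈ (Ico w0 k1).image (fun k => 1 + P * k), 1 / (s : ℝ)
      ≤ ∑ s ∈ (Icc w0 W).filter (fun s => s.Coprime P), 1 / (s : ℝ) :=
    sum_le_sum_of_subset_of_nonneg hsub fun _ _ _ => by positivity
  refine le_trans ?_ h2
  rw [h1]
  have h3 : ∑ k ∈ Ico w0 k1, (1 / (P : ℝ)) * (1 / ((k : ℝ) + 1))
      ≤ ∑ k ∈ Ico w0 k1, 1 / ((1 + P * k : ℕ) : ℝ) := by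
    refine sum_le_sum fun k _ => ?_
    have hk0 : (0 : ℝ) ≤ k := Nat.cast_nonneg k
    rw [one_div_mul_one_div]
    apply one_div_le_one_div_of_le
    · positivity
    · push_cast
      nlinarith
  refine le_trans ?_ h3
  rw [← mul_sum]
  have h4 := log_le_sum w0 k1 hk1w
  have h5 : Real.log W / 2 ≤ Real.log ((k1 : ℝ) + 1) - Real.log ((w0 : ℝ) + 1) := by
    have hk0 : (0 : ℝ) < (k1 : ℝ) + 1 := by positivity
    have a1 : Real.log (((P : ℝ) * (w0 + 1)) ^ 2) ≤ Real.log W :=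
      Real.log_le_log (by positivity) hW
    rw [Real.log_pow, Real.log_mul hP0.ne' (by positivity)] at a1
    have a2 : Real.log W ≤ Real.log (P * ((k1 : ℝ) + 1)) :=
      Real.log_le_log (by linarith) (by nlinarith)
    rw [Real.log_mul hP0.ne' hk0.ne'] at a2
    push_cast at a1
    linarith
  calc Real.log W / (2 * P) = (1 / P) * (Real.log W / 2) := by field_simp
    _ ≤ (1 / P) * (Real.log ((k1 : ℝ) + 1) - Real.log ((w0 : ℝ) + 1)) :=
        mul_le_mul_of_nonneg_left h5 (by positivity)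
    _ ≤ _ := mul_le_mul_of_nonneg_left h4 (by positivity)

/-! ## The expectation -/

/-- The cone, without coprimality. -/
def ConeC (κ X0 : ℝ) (a B : ℕ) (p : ℕ × ℕ) : Prop :=
  0 < p.1 ∧ 0 < p.2 ∧ (1 + 0.49 * κ / X0) * ((B : ℝ) * p.1) < a * p.2 ∧
    (a : ℝ) * p.2 < (1 + 0.51 * κ / X0) * (B * p.1)

theorem cone_reduce {κ X0 : ℝ} {a B : ℕ} {p : ℕ × ℕ} (h : ConeC κ X0 a B p) :
    AdmC κ X0 a B (p.1 / Nat.gcd p.1 p.2, p.2 / Nat.gcd p.1 p.2) := by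
  obtain ⟨h1, h2, h3, h4⟩ := h
  have hg : 0 < Nat.gcd p.1 p.2 := Nat.gcd_pos_of_pos_left _ h1
  have hg' : (0 : ℝ) < (Nat.gcd p.1 p.2 : ℕ) := by exact_mod_cast hg
  have ex : ((Nat.gcd p.1 p.2 : ℕ) : ℝ) * ((p.1 / Nat.gcd p.1 p.2 : ℕ) : ℝ) = p.1 := by
    exact_mod_cast Nat.mul_div_cancel' (Nat.gcd_dvd_left p.1 p.2)
  have ey : ((Nat.gcd p.1 p.2 : ℕ) : ℝ) * ((p.2 / Nat.gcd p.1 p.2 : ℕ) : ℝ) = p.2 := by
    exact_mod_cast Nat.mul_div_cancel' (Nat.gcd_dvd_right p.1 p.2)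
  refine ⟨Nat.div_pos (Nat.gcd_le_left _ h1) hg, Nat.div_pos (Nat.gcd_le_right _ h2) hg,
    Nat.coprime_div_gcd_div_gcd hg, ?_, ?_⟩
  · refine lt_of_mul_lt_mul_left ?_ hg'.le
    calc ((Nat.gcd p.1 p.2 : ℕ) : ℝ) * ((1 + 0.49 * κ / X0) *
          ((B : ℝ) * ((p.1 / Nat.gcd p.1 p.2 : ℕ) : ℝ)))
        = (1 + 0.49 * κ / X0) * ((B : ℝ) * (((Nat.gcd p.1 p.2 : ℕ) : ℝ) *
          ((p.1 / Nat.gcd p.1 p.2 : ℕ) : ℝ))) := by ring
      _ = (1 + 0.49 * κ / X0) * ((B : ℝ) * p.1) := by rw [ex]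
      _ < a * p.2 := h3
      _ = a * (((Nat.gcd p.1 p.2 : ℕ) : ℝ) * ((p.2 / Nat.gcd p.1 p.2 : ℕ) : ℝ)) := by rw [ey]
      _ = _ := by ring
  · refine lt_of_mul_lt_mul_left ?_ hg'.le
    calc ((Nat.gcd p.1 p.2 : ℕ) : ℝ) * ((a : ℝ) * ((p.2 / Nat.gcd p.1 p.2 : ℕ) : ℝ))
        = a * (((Nat.gcd p.1 p.2 : ℕ) : ℝ) * ((p.2 / Nat.gcd p.1 p.2 : ℕ) : ℝ)) := by ring
      _ = a * p.2 := by rw [ey]
      _ < (1 + 0.51 * κ / X0) * ((B : ℝ) * p.1) := h4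
      _ = (1 + 0.51 * κ / X0) * ((B : ℝ) * (((Nat.gcd p.1 p.2 : ℕ) : ℝ) *
          ((p.1 / Nat.gcd p.1 p.2 : ℕ) : ℝ))) := by rw [ex]
      _ = _ := by ring

/-- Passing to coprime pairs costs a factor `∑ 1 / g ^ 2 ≤ 2`. -/
theorem sum_T_le {κ X0 : ℝ} {b B P W : ℕ} (hX : 0.35 * κ ≤ X0) (hX0 : 0 < X0) (hb : 0 < b)
    (hP : 0 < P) (T : Finset (ℕ × ℕ))
    (hT : ∀ p ∈ T, p.1 ≤ W ∧ p.1.Coprime P ∧ ConeC κ X0 (b * P) B p) :
    ∑ p ∈ T, 1 / (p.1 : ℝ) ^ 2 ≤ 2 * ∑ p ∈ FC κ X0 b B P W, 1 / (p.1 : ℝ) ^ 2 := by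
  classical
  obtain ⟨φ, hφ⟩ : ∃ φ : ℕ × ℕ → ℕ × (ℕ × ℕ), ∀ p, φ p =
    (Nat.gcd p.1 p.2, (p.1 / Nat.gcd p.1 p.2, p.2 / Nat.gcd p.1 p.2)) := ⟨_, fun _ => rfl⟩
  have hinj : Set.InjOn φ (T : Set (ℕ × ℕ)) := by
    intro x _ y _ h
    rw [hφ, hφ, Prod.mk.injEq, Prod.mk.injEq] at h
    obtain ⟨h1, h2, h3⟩ := h
    have a1 := Nat.mul_div_cancel' (Nat.gcd_dvd_left x.1 x.2)
    have a2 := Nat.mul_div_cancel' (Nat.gcd_dvd_right x.1 x.2)
    have b1 := Nat.mul_div_cancel' (Nat.gcd_dvd_left y.1 y.2)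
    have b2 := Nat.mul_div_cancel' (Nat.gcd_dvd_right y.1 y.2)
    refine Prod.ext ?_ ?_
    · rw [← a1, ← b1, h2, h1]
    · rw [← a2, ← b2, h3, h1]
  have e1 : ∑ p ∈ T, 1 / (p.1 : ℝ) ^ 2
      = ∑ z ∈ T.image φ, (1 / (z.1 : ℝ) ^ 2) * (1 / (z.2.1 : ℝ) ^ 2) := by
    rw [sum_image hinj]
    refine sum_congr rfl fun p hp => ?_
    rw [hφ]
    simp only
    have ex : ((Nat.gcd p.1 p.2 : ℕ) : ℝ) * ((p.1 / Nat.gcd p.1 p.2 : ℕ) : ℝ) = p.1 := by
      exact_mod_cast Nat.mul_div_cancel' (Nat.gcd_dvd_left p.1 p.2)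
    rw [one_div_mul_one_div, ← mul_pow, ex]
  have e2 : T.image φ ⊆ Icc 1 W ×ˢ FC κ X0 b B P W := by
    intro z hz
    rw [mem_image] at hz
    obtain ⟨p, hp, rfl⟩ := hz
    obtain ⟨h1, h2, h3⟩ := hT p hp
    have hg : 0 < Nat.gcd p.1 p.2 := Nat.gcd_pos_of_pos_left _ h3.1
    rw [hφ, mem_product, mem_Icc]
    refine ⟨⟨hg, (Nat.gcd_le_left _ h3.1).trans h1⟩, ?_⟩
    refine FC_mem hX hX0 hb hP ((Nat.div_le_self _ _).trans h1) ?_ (cone_reduce h3)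
    exact Nat.Coprime.coprime_dvd_left (Nat.div_dvd_of_dvd (Nat.gcd_dvd_left _ _)) h2
  rw [e1]
  refine (sum_le_sum_of_subset_of_nonneg e2 fun _ _ _ => by positivity).trans ?_
  rw [sum_product]
  simp only
  rw [← sum_mul_sum]
  exact mul_le_mul_of_nonneg_right (sum_inv_sq_le W) (sum_nonneg fun _ _ => by positivity)

open Classical in
/-- the number of `L` in the cone. -/
theorem count_cone_ge (κ X0 : ℝ) (a B s : ℕ) (hκ : 0 < κ) (hX : 0 < X0) (ha : 0 < a)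
    (hs : 0 < s) (hbig : 2 ≤ 0.02 * (κ / X0) * ((B : ℝ) * s / a)) (W : ℕ)
    (hW : ∀ L : ℕ, (a : ℝ) * L < (1 + 0.51 * κ / X0) * (B * s) → L < W) :
    0.01 * (κ / X0) * ((B : ℝ) * s / a)
      ≤ (((range W).filter (fun L => ConeC κ X0 a B (s, L))).card : ℝ) := by
  have har : (0 : ℝ) < a := by exact_mod_cast ha
  obtain ⟨u, hu⟩ : ∃ u, u = (1 + 0.49 * κ / X0) * ((B : ℝ) * s) / a := ⟨_, rfl⟩
  obtain ⟨e, he⟩ : ∃ e, e = (1 + 0.51 * κ / X0) * ((B : ℝ) * s) / a := ⟨_, rfl⟩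
  obtain ⟨l, hl⟩ : ∃ l, l = 0.02 * (κ / X0) * ((B : ℝ) * s / a) := ⟨_, rfl⟩
  have hl' : e - u = l := by
    rw [hu, he, hl]
    field_simp
    ring
  have hu0 : 0 ≤ u := by rw [hu]; positivity
  have he0 : 0 ≤ e := by rw [he]; positivity
  have hl2 : 2 ≤ l := by rw [hl]; exact hbig
  have hgoal : 0.01 * (κ / X0) * ((B : ℝ) * s / a) = l / 2 := by rw [hl]; ring
  rw [hgoal]
  have hsub : Ico (⌊u⌋₊ + 1) ⌈e⌉₊ ⊆ (range W).filter (fun L => ConeC κ X0 a B (s, L)) := by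
    intro L hL
    rw [mem_Ico] at hL
    have h1 : u < L := (Nat.floor_lt hu0).1 hL.1
    have h2 : (L : ℝ) < e := Nat.lt_ceil.1 hL.2
    rw [hu, div_lt_iff₀ har] at h1
    rw [he, lt_div_iff₀ har] at h2
    rw [mem_filter, mem_range]
    refine ⟨hW L (by linarith), hs, by simp only; omega, ?_, ?_⟩
    · simp only; linarith
    · simp only; linarith
  have hf : (⌊u⌋₊ : ℝ) ≤ u := Nat.floor_le hu0
  have hc : e ≤ ⌈e⌉₊ := Nat.le_ceil e
  have hle : ⌊u⌋₊ + 1 ≤ ⌈e⌉₊ := by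
    have : ((⌊u⌋₊ + 1 : ℕ) : ℝ) ≤ (⌈e⌉₊ : ℝ) := by
      push_cast
      linarith
    exact_mod_cast this
  have hN : l - 1 ≤ ((Ico (⌊u⌋₊ + 1) ⌈e⌉₊).card : ℝ) := by
    rw [Nat.card_Ico, Nat.cast_sub hle]
    push_cast
    linarith
  have hfin : ((Ico (⌊u⌋₊ + 1) ⌈e⌉₊).card : ℝ)
      ≤ (((range W).filter (fun L => ConeC κ X0 a B (s, L))).card : ℝ) := by
    exact_mod_cast card_le_card hsub
  linarith

/-- lower bound of the sum of `1 / s ^ 2` over the family. -/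
theorem sum_FC_ge {κ X0 : ℝ} {b B P w0 W : ℕ} (hκ : 0 < κ) (hX : 0.35 * κ ≤ X0)
    (hX1 : X0 ≤ 0.006) (hb : 0 < b) (hbB : b < B) (hP : 1 ≤ P) (hw0 : (P : ℝ) ≤ κ * w0) :
    0.005 * (κ / X0) * (B / (b * P)) *
      ∑ s ∈ (Icc w0 W).filter (fun s => s.Coprime P), 1 / (s : ℝ)
      ≤ ∑ p ∈ FC κ X0 b B P W, 1 / (p.1 : ℝ) ^ 2 := by
  classical
  have hX0 : 0 < X0 := by linarith
  have hb' : (0 : ℝ) < b := by exact_mod_cast hb
  have hbB' : (b : ℝ) < B := by exact_mod_cast hbB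
  have hB' : (0 : ℝ) < B := by linarith
  have hP' : (1 : ℝ) ≤ P := by exact_mod_cast hP
  have hP0 : (0 : ℝ) < P := by linarith
  have hbP : 0 < b * P := Nat.mul_pos hb hP
  have hw0p : (0 : ℝ) < w0 := by
    by_contra h
    push Not at h
    nlinarith
  set R := range (3 * B * W + 1) with hR
  set SS := (Icc w0 W).filter (fun s => s.Coprime P) with hSS
  set T := (SS ×ˢ R).filter (fun p => ConeC κ X0 (b * P) B p) with hT
  have h1 := sum_T_le (W := W) hX hX0 hb hP T (by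
    intro p hp
    rw [hT, mem_filter, mem_product, hSS, mem_filter, mem_Icc] at hp
    exact ⟨hp.1.1.1.2, hp.1.1.2, hp.2⟩)
  have h2 : ∑ p ∈ T, 1 / (p.1 : ℝ) ^ 2
      = ∑ s ∈ SS, ((R.filter (fun L => ConeC κ X0 (b * P) B (s, L))).card : ℝ)
        * (1 / (s : ℝ) ^ 2) := by
    rw [hT, sum_filter, sum_product]
    refine sum_congr rfl fun s _ => ?_
    rw [← sum_filter]
    simp only
    rw [sum_const, nsmul_eq_mul]
  have h3 : 0.01 * (κ / X0) * (B / (b * P)) * ∑ s ∈ SS, 1 / (s : ℝ)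
      ≤ ∑ p ∈ T, 1 / (p.1 : ℝ) ^ 2 := by
    rw [h2, mul_sum]
    refine sum_le_sum fun s hs => ?_
    rw [hSS, mem_filter, mem_Icc] at hs
    have hsw : (w0 : ℝ) ≤ s := by exact_mod_cast hs.1.1
    have hsW : (s : ℝ) ≤ W := by exact_mod_cast hs.1.2
    have hs0 : (0 : ℝ) < s := by linarith
    have hs0n : 0 < s := by exact_mod_cast hs0
    have h4 := count_cone_ge κ X0 (b * P) B s hκ hX0 hbP hs0n ?_ (3 * B * W + 1) ?_
    · calc 0.01 * (κ / X0) * (B / (b * P)) * (1 / (s : ℝ))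
          = 0.01 * (κ / X0) * ((B : ℝ) * s / (b * P : ℕ)) * (1 / (s : ℝ) ^ 2) := by
            push_cast
            field_simp
        _ ≤ _ := mul_le_mul_of_nonneg_right h4 (by positivity)
    · have h5 : (1 : ℝ) ≤ (B : ℝ) / b := by
        rw [le_div_iff₀ hb']; linarith
      have h6 : (P : ℝ) ≤ κ * s := by nlinarith
      have h7 : (1 : ℝ) / 0.006 ≤ κ / X0 * (s / P) := by
        rw [div_mul_div_comm, div_le_div_iff₀ (by norm_num) (by positivity)]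
        nlinarith
      have h8 : 0.02 * (κ / X0) * ((B : ℝ) * s / (b * P : ℕ))
          = 0.02 * (κ / X0 * (s / P)) * (B / b) := by
        push_cast
        field_simp
      rw [h8]
      nlinarith
    · intro L hL
      have hκX : κ / X0 ≤ 20 / 7 := by
        rw [div_le_iff₀ hX0]; linarith
      have e2 : 0.51 * κ / X0 = 0.51 * (κ / X0) := by ring
      rw [e2] at hL
      have h5 : (1 + 0.51 * (κ / X0)) * ((B : ℝ) * s) ≤ 3 * (B * W) := by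
        have h6 : (B : ℝ) * s ≤ B * W := mul_le_mul_of_nonneg_left hsW hB'.le
        have h7 : 0 ≤ (B : ℝ) * s := by positivity
        have h8 : 1 + 0.51 * (κ / X0) ≤ 3 := by linarith
        exact mul_le_mul h8 h6 h7 (by norm_num)
      have h9 : (1 : ℝ) ≤ (b * P : ℕ) := by exact_mod_cast hbP
      have h10 : (L : ℝ) ≤ (b * P : ℕ) * L := by
        have : (0 : ℝ) ≤ L := Nat.cast_nonneg _
        nlinarith
      have h11 : (L : ℝ) ≤ ((3 * B * W : ℕ) : ℝ) := by push_cast; linarith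
      have h12 : L ≤ 3 * B * W := by exact_mod_cast h11
      omega
  have h13 : 0.01 * (κ / X0) * (B / (b * P)) * ∑ s ∈ SS, 1 / (s : ℝ)
      = 2 * (0.005 * (κ / X0) * (B / (b * P)) * ∑ s ∈ SS, 1 / (s : ℝ)) := by ring
  linarith

/-- the lower bound of the expectation. -/
theorem E_geC {κ X0 : ℝ} {b B P w0 W : ℕ} (hκ : 0 < κ) (hX : 0.35 * κ ≤ X0)
    (hX1 : X0 ≤ 0.006) (hb : 0 < b) (hbB : b < B) (hP : 1 ≤ P) (hw0 : (P : ℝ) ≤ κ * w0)
    (hw01 : 1 ≤ w0) (hW : ((P : ℝ) * (w0 + 1)) ^ 2 ≤ W)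
    (hbig : 100 * ((W : ℝ) * P) ≤ κ * b) :
    4.75e-5 * κ / (P : ℝ) ^ 3 * Real.log W ≤ ∑ p ∈ FC κ X0 b B P W, rhoC κ X0 b B P p := by
  have hX0 : 0 < X0 := by linarith
  have hb' : (0 : ℝ) < b := by exact_mod_cast hb
  have hbB' : (b : ℝ) < B := by exact_mod_cast hbB
  have hB' : (0 : ℝ) < B := by linarith
  have hP' : (1 : ℝ) ≤ P := by exact_mod_cast hP
  have hP0 : (0 : ℝ) < P := by linarith
  have h1 := sum_FC_ge (W := W) hκ hX hX1 hb hbB hP hw0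
  have h2 := sum_cop_ge P w0 W hP hw01 hW
  have h3 : ∑ p ∈ FC κ X0 b B P W, 0.019 * (X0 * b / (P * B)) * (1 / (p.1 : ℝ) ^ 2)
      ≤ ∑ p ∈ FC κ X0 b B P W, rhoC κ X0 b B P p := by
    refine sum_le_sum fun p hp => ?_
    obtain ⟨a1, a2, a3⟩ := mem_FC hp
    refine rho_geC a3 hκ hX hb (by omega) hP ?_
    have c1 : (0 : ℝ) < p.1 := by exact_mod_cast a3.1
    have c2 : (p.1 : ℝ) ≤ W := by exact_mod_cast a1
    push_cast
    rw [← mul_div_assoc, le_div_iff₀ (by positivity)]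
    have : (p.1 : ℝ) * P ≤ W * P := mul_le_mul_of_nonneg_right c2 hP0.le
    linarith
  rw [← mul_sum] at h3
  refine le_trans ?_ h3
  calc 4.75e-5 * κ / (P : ℝ) ^ 3 * Real.log W
      = 0.019 * (X0 * b / (P * B)) * (0.005 * (κ / X0) * (B / (b * P)) *
        (Real.log W / (2 * P))) := by
        field_simp
        ring
    _ ≤ 0.019 * (X0 * b / (P * B)) * (0.005 * (κ / X0) * (B / (b * P)) *
      ∑ s ∈ (Icc w0 W).filter (fun s => s.Coprime P), 1 / (s : ℝ)) := by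
        gcongr
    _ ≤ _ := mul_le_mul_of_nonneg_left h1 (by positivity)

/-! ## Residues -/

theorem residue_sum (S : Finset ℕ) (M : ℕ → ℕ) (A η : ℝ) (m : ℕ) (hm : 0 < m)
    (hS : ∀ r : ℕ, |((S.filter fun n => M n % m = r % m).card : ℝ) - A / m| ≤ η)
    (f : ℕ → ℝ) (hf : ∀ x, f (x % m) = f x) (h0 : ∀ x, 0 ≤ f x) (h1 : ∀ x, f x ≤ 1) :
    |∑ n ∈ S, f (M n) - A / m * ∑ r ∈ range m, f r| ≤ η * m := by
  classical
  have e1 : ∑ n ∈ S, f (M n)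
      = ∑ r ∈ range m, f r * ((S.filter fun n => M n % m = r % m).card : ℝ) := by
    rw [← sum_fiberwise_of_maps_to (s := S) (t := range m) (g := fun n => M n % m)
      (fun n _ => mem_range.2 (Nat.mod_lt _ hm))]
    refine sum_congr rfl fun r hr => ?_
    rw [mem_range] at hr
    have : S.filter (fun n => M n % m = r % m) = S.filter (fun n => M n % m = r) := by
      rw [Nat.mod_eq_of_lt hr]
    rw [this, mul_comm, ← nsmul_eq_mul, ← sum_const]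
    refine sum_congr rfl fun n hn => ?_
    rw [← hf (M n), (mem_filter.1 hn).2]
  rw [e1, mul_sum, ← sum_sub_distrib]
  refine (abs_sum_le_sum_abs _ _).trans ?_
  have : ∀ r ∈ range m,
      |f r * ((S.filter fun n => M n % m = r % m).card : ℝ) - A / m * f r| ≤ η := by
    intro r _
    have e : f r * ((S.filter fun n => M n % m = r % m).card : ℝ) - A / m * f r
       = f r * (((S.filter fun n => M n % m = r % m).card : ℝ) - A / m) := by ring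
    rw [e, abs_mul, abs_of_nonneg (h0 r)]
    calc f r * |((S.filter fun n => M n % m = r % m).card : ℝ) - A / m| ≤ 1 * η :=
          mul_le_mul (h1 r) (hS r) (abs_nonneg _) zero_le_one
      _ = η := one_mul _
  refine (sum_le_sum this).trans (le_of_eq ?_)
  rw [sum_const, card_range, nsmul_eq_mul, mul_comm]

theorem cnt_mod (b w' d lo hi m x : ℕ) (h : d ∣ m) :
    cnt b w' d lo hi (x % m) = cnt b w' d lo hi x := by
  unfold cnt
  have : (Ico lo hi).filter (fun D => d ∣ b * (x % m) + w' * D)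
      = (Ico lo hi).filter (fun D => d ∣ b * x + w' * D) := by
    refine filter_congr fun D _ => ?_
    have h3 : b * (x % m) + w' * D ≡ b * x + w' * D [MOD d] :=
      Nat.ModEq.add_right _ (Nat.ModEq.mul_left _ ((Nat.mod_modEq x m).of_dvd h))
    exact ⟨fun h4 => (Nat.modEq_zero_iff_dvd).1 (h3.symm.trans ((Nat.modEq_zero_iff_dvd).2 h4)),
      fun h4 => (Nat.modEq_zero_iff_dvd).1 (h3.trans ((Nat.modEq_zero_iff_dvd).2 h4))⟩
  rw [this]

/-- The second moment, over a set. -/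
theorem sm_S {ι : Type*} [DecidableEq ι] (F : Finset ι) (S S' : Finset ℕ) (Z : ι → ℕ → ℝ)
    (ρ : ι → ℝ) (A θ e : ℝ) (hS' : S' ⊆ S) (h0 : (S.card : ℝ) ≤ A + θ)
    (h1 : ∀ i ∈ F, ρ i * A - θ ≤ ∑ n ∈ S, Z i n)
    (h2 : ∀ i ∈ F, ∑ n ∈ S, Z i n * Z i n ≤ ρ i * A + θ)
    (h3 : ∑ i ∈ F, ∑ j ∈ F.erase i, ∑ n ∈ S, Z i n * Z j n
      ≤ ((∑ i ∈ F, ρ i) ^ 2 + e) * A + (F.card : ℝ) ^ 2 * θ)
    (hE : 0 ≤ ∑ i ∈ F, ρ i) (hz : ∀ n ∈ S', ∀ i ∈ F, Z i n = 0) :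
    (S'.card : ℝ) * (∑ i ∈ F, ρ i) ^ 2 ≤ ((∑ i ∈ F, ρ i) + e) * A
      + θ * ((F.card : ℝ) ^ 2 + F.card + 2 * (∑ i ∈ F, ρ i) * F.card
        + (∑ i ∈ F, ρ i) ^ 2) := by
  set E := ∑ i ∈ F, ρ i with hEdef
  obtain ⟨T, hT⟩ : ∃ T : ℕ → ℝ, ∀ n, T n = ∑ i ∈ F, Z i n := ⟨_, fun _ => rfl⟩
  have a1 : (S'.card : ℝ) * E ^ 2 ≤ ∑ n ∈ S, (T n - E) ^ 2 := by
    have h4 : ∑ n ∈ S', (T n - E) ^ 2 = S'.card * E ^ 2 := by
      rw [sum_congr rfl (g := fun _ => E ^ 2), sum_const, nsmul_eq_mul]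
      intro n hn
      rw [hT, sum_eq_zero (hz n hn)]
      ring
    rw [← h4]
    exact sum_le_sum_of_subset_of_nonneg hS' fun _ _ _ => sq_nonneg _
  have a2 : ∑ n ∈ S, (T n - E) ^ 2
      = ∑ n ∈ S, T n * T n - 2 * E * ∑ n ∈ S, T n + S.card * E ^ 2 := by
    rw [mul_sum, ← sum_sub_distrib, ← nsmul_eq_mul, ← sum_const, ← sum_add_distrib]
    exact sum_congr rfl fun n _ => by ring
  have a3 : E * A - F.card * θ ≤ ∑ n ∈ S, T n := by
    have h4 : ∑ n ∈ S, T n = ∑ i ∈ F, ∑ n ∈ S, Z i n := by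
      simp_rw [hT]
      exact sum_comm
    rw [h4]
    have h := sum_le_sum h1
    rw [sum_sub_distrib, ← sum_mul, sum_const, nsmul_eq_mul] at h
    exact h
  have a4 : ∑ n ∈ S, T n * T n
      ≤ E * A + F.card * θ + ((E ^ 2 + e) * A + (F.card : ℝ) ^ 2 * θ) := by
    have e1 : ∑ n ∈ S, T n * T n = ∑ i ∈ F, ∑ j ∈ F, ∑ n ∈ S, Z i n * Z j n := by
      simp_rw [hT, sum_mul_sum]
      rw [sum_comm]
      refine sum_congr rfl fun i _ => ?_
      rw [sum_comm]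
    have e2 : ∀ i ∈ F, ∑ j ∈ F, ∑ n ∈ S, Z i n * Z j n
        = ∑ n ∈ S, Z i n * Z i n + ∑ j ∈ F.erase i, ∑ n ∈ S, Z i n * Z j n :=
      fun i hi => (add_sum_erase F _ hi).symm
    rw [e1, sum_congr rfl e2, sum_add_distrib]
    have h := sum_le_sum h2
    rw [sum_add_distrib, ← sum_mul, sum_const, nsmul_eq_mul] at h
    linarith
  have a5 := mul_le_mul_of_nonneg_left a3 (by positivity : 0 ≤ 2 * E)
  have a6 := mul_le_mul_of_nonneg_right h0 (sq_nonneg E)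
  rw [a2] at a1
  refine a1.trans ?_
  linarith

end Pool.Agent.MR2
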