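import Pool.Agent.Lib.MR2.SM2

/-! Row SM2: the final theorem. -/

set_option autoImplicit false

namespace Pool.Agent.MR2

open Finset Pool.Agent.Lib.PO69

/-- the size of the family. -/
theorem card_FC_le (κ X0 : ℝ) (b B P W : ℕ) (hB : 1 ≤ B) (hW : 4 * (W : ℝ) ^ 2 ≤ B)
    (hW1 : 1 ≤ W) : ((FC κ X0 b B P W).card : ℝ) ≤ (B : ℝ) ^ 2 := by
  classical
  have h1 : (FC κ X0 b B P W).card ≤ W * (3 * B * W + 1) := by
    unfold FC
    refine (card_filter_le _ _).trans ?_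
    rw [card_product, card_range]
    refine Nat.mul_le_mul_right _ ?_
    refine (card_filter_le _ _).trans ?_
    rw [Nat.card_Icc]
    omega
  have h2 : ((FC κ X0 b B P W).card : ℝ) ≤ W * (3 * B * W + 1) := by exact_mod_cast h1
  have h3 : (1 : ℝ) ≤ B := by exact_mod_cast hB
  have h4 : (1 : ℝ) ≤ W := by exact_mod_cast hW1
  have h5 : (1 : ℝ) ≤ B * W := by nlinarith
  have h6 : (W : ℝ) * (3 * B * W + 1) ≤ B * (4 * (W : ℝ) ^ 2) := by nlinarith
  have h7 : (B : ℝ) * (4 * (W : ℝ) ^ 2) ≤ B * B := mul_le_mul_of_nonneg_left hW (by linarith)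
  nlinarith

theorem secondMoment2 : SecondMoment2 := by
  classical
  refine ⟨2e-5, by norm_num, 40, ?_⟩
  intro P b B W κ f hP hκ hκ1 hf hf1 hb hB hbB hW hWb40 hlog S M A η hA hη hS S' hS' hSol
  have hP' : (1 : ℝ) ≤ P := by exact_mod_cast hP
  have hP0 : (0 : ℝ) < P := by linarith
  obtain ⟨x, hx⟩ : ∃ x : ℝ, x = (P : ℝ) / κ := ⟨_, rfl⟩
  rw [← hx] at hW
  have hPx : (P : ℝ) = x * κ := by rw [hx]; field_simp
  have hx1 : 1000 ≤ x := by
    rw [hx, le_div_iff₀ hκ]; linarith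
  have hx0 : 0 < x := by linarith
  have hPx' : (P : ℝ) ≤ x := by rw [hPx]; nlinarith
  have hxk : ∀ k ≤ 40, x ^ k ≤ W := fun k hk => (pow_le_pow_right₀ (by linarith) hk).trans hW
  have hxW : x ≤ W := by simpa using hxk 1 (by norm_num)
  have hW6 : (1000000 : ℝ) ≤ W := by
    have := hxk 2 (by norm_num)
    nlinarith
  have hW1 : (1 : ℝ) ≤ W := by linarith
  have hW0 : (0 : ℝ) < W := by linarith
  have hW1n : 1 ≤ W := by exact_mod_cast hW1
  have hWk : ∀ k ≤ 40, (W : ℝ) ^ k ≤ b := fun k hk => (pow_le_pow_right₀ hW1 hk).trans hWb40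
  have hb' : (0 : ℝ) < b := by exact_mod_cast hb.pos
  have hbB' : (b : ℝ) < B := by exact_mod_cast hbB
  have hB' : (0 : ℝ) < B := by linarith
  have hWb' : (W : ℝ) < b := by
    have := hWk 2 (by norm_num)
    nlinarith
  have hWb : W < b := by exact_mod_cast hWb'
  have hPb : P < b := by
    have : (P : ℝ) < b := by linarith
    exact_mod_cast this
  have hW3b := hWk 3 (by norm_num)
  have hbig : 100 * ((W : ℝ) * P) ≤ κ * b := by
    have h1 : 100 * ((W : ℝ) * P) = κ * (100 * W * x) := by rw [hPx]; ring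
    rw [h1]
    refine mul_le_mul_of_nonneg_left (le_trans ?_ hW3b) hκ.le
    have h2 : 100 * (W : ℝ) * x ≤ W * W * W := by
      have : 100 * (W : ℝ) ≤ W * W := by nlinarith
      exact mul_le_mul this hxW hx0.le (by positivity)
    calc 100 * (W : ℝ) * x ≤ W * W * W := h2
      _ = (W : ℝ) ^ 3 := by ring
  have hbW20 : (W : ℝ) ^ 20 ≤ √b :=
    Real.le_sqrt_of_sq_le (by rw [← pow_mul]; exact hWk 40 le_rfl)
  -- w0
  obtain ⟨w0, hw0def⟩ : ∃ w0 : ℕ, w0 = ⌈x⌉₊ := ⟨_, rfl⟩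
  have hw0x : x ≤ w0 := by rw [hw0def]; exact Nat.le_ceil x
  have hw0x' : (w0 : ℝ) < x + 1 := by rw [hw0def]; exact Nat.ceil_lt_add_one hx0.le
  have hw0 : (P : ℝ) ≤ κ * w0 := by
    rw [hPx, mul_comm]
    exact mul_le_mul_of_nonneg_left hw0x hκ.le
  have hw01 : 1 ≤ w0 := by
    have : (1 : ℝ) ≤ w0 := by linarith
    exact_mod_cast this
  have hWw : ((P : ℝ) * (w0 + 1)) ^ 2 ≤ W := by
    have h1 : (P : ℝ) * (w0 + 1) ≤ x * (2 * x) :=
      mul_le_mul hPx' (by linarith) (by positivity) hx0.le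
    have h2 : ((P : ℝ) * (w0 + 1)) ^ 2 ≤ (x * (2 * x)) ^ 2 :=
      pow_le_pow_left₀ (by positivity) h1 2
    have h3 : (x * (2 * x)) ^ 2 ≤ x ^ 5 := by
      have : (x * (2 * x)) ^ 2 = 4 * x ^ 4 := by ring
      rw [this]
      have h4 : 0 < x ^ 4 := by positivity
      nlinarith
    exact h2.trans (h3.trans (hxk 5 (by norm_num)))
  -- X0
  obtain ⟨X0, hX0def⟩ : ∃ X0 : ℝ, X0 = f + 0.35 * κ := ⟨_, rfl⟩
  have hX : 0.35 * κ ≤ X0 := by linarith
  have hX1 : X0 ≤ 0.006 := by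
    rw [hX0def]
    norm_num at hf1 hκ1 ⊢
    linarith
  have hX0 : 0 < X0 := by linarith
  have hκX : κ / X0 ≤ 20 / 7 := by
    rw [div_le_iff₀ hX0]; linarith
  obtain ⟨F, hF⟩ : ∃ F, F = FC κ X0 b B P W := ⟨_, rfl⟩
  have hmem : ∀ p ∈ F, p.1 ≤ W ∧ p.1.Coprime P ∧ AdmC κ X0 (b * P) B p :=
    fun p hp => mem_FC (hF ▸ hp)
  have hlt : ∀ p ∈ F, B * p.1 < b * P * p.2 := fun p hp => (hmem p hp).2.2.lt hκ hX0 hB.pos
  have hdpos : ∀ p ∈ F, 0 < dd (b * P) B p := fun p hp => Nat.sub_pos_of_lt (hlt p hp)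
  have hcop : ∀ p ∈ F, Nat.Coprime b (dd (b * P) B p) ∧
      Nat.Coprime (p.1 * P) (dd (b * P) B p) := by
    intro p hp
    obtain ⟨h2, h3, h4⟩ := hmem p hp
    obtain ⟨p1, p2, _, _⟩ := copC (L := p.2) hb hB h4.1 hbB (by omega) hPb hP h3 h4.2.2.1
      (hlt p hp)
    exact ⟨p1, p2⟩
  have hW2B : 4 * (W : ℝ) ^ 2 ≤ B := by
    have : 4 * (W : ℝ) ^ 2 ≤ (W : ℝ) ^ 3 := by
      have h4 : 0 < (W : ℝ) ^ 2 := by positivity
      nlinarith
    linarith
  have hdB2 : ∀ p ∈ F, dd (b * P) B p ≤ B ^ 2 := by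
    intro p hp
    obtain ⟨h2, h3, h4⟩ := hmem p hp
    have h5 := h4.d_lt hκ hX0 hB.pos
    have h2' : (p.1 : ℝ) ≤ W := by exact_mod_cast h2
    have h6 : 0.51 * (κ / X0) * (B * p.1) ≤ 2 * (B * W) := by
      have h7 : 0.51 * (κ / X0) ≤ 2 := by linarith
      have h8 : (B : ℝ) * p.1 ≤ B * W := mul_le_mul_of_nonneg_left h2' hB'.le
      exact mul_le_mul h7 h8 (by positivity) (by norm_num)
    have h9 : 2 * ((B : ℝ) * W) ≤ B ^ 2 := by nlinarith
    have h10 : ((dd (b * P) B p : ℕ) : ℝ) ≤ ((B ^ 2 : ℕ) : ℝ) := by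
      push_cast
      unfold dd
      linarith
    exact_mod_cast h10
  have hbs : ∀ p ∈ F, 100 ≤ κ * ((b : ℝ) / (p.1 * P : ℕ)) := by
    intro p hp
    have h1 : (0 : ℝ) < p.1 := by exact_mod_cast (hmem p hp).2.2.1
    have h2 : (p.1 : ℝ) ≤ W := by exact_mod_cast (hmem p hp).1
    push_cast
    rw [← mul_div_assoc, le_div_iff₀ (by positivity)]
    have : (p.1 : ℝ) * P ≤ W * P := mul_le_mul_of_nonneg_right h2 hP0.le
    linarith
  obtain ⟨X, hXX⟩ : ∃ X : ℕ × ℕ → ℕ → ℝ, ∀ p m, X p m =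
    cnt b (p.1 * P) (dd (b * P) B p) (lo κ X0 b (p.1 * P)) (hi κ X0 b (p.1 * P)) m :=
      ⟨_, fun _ _ => rfl⟩
  have hXn : ∀ p m, 0 ≤ X p m := by
    intro p m
    rw [hXX]
    exact cnt_nonneg _ _ _ _ _ _
  have hX1' : ∀ p ∈ F, ∀ m, X p m ≤ 1 := by
    intro p hp m
    rw [hXX]
    exact cnt_le_one _ _ _ _ _ _ (hcop p hp).2
      (hi_leC (hmem p hp).2.2 hκ hX hX1 hb.pos hbB hP (hbs p hp))
  obtain ⟨E, hE⟩ : ∃ E : ℝ, E = ∑ p ∈ F, rhoC κ X0 b B P p := ⟨_, rfl⟩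
  have hlogW : 1 ≤ Real.log W := by
    rw [Real.le_log_iff_exp_le hW0]
    have := Real.exp_one_lt_d9
    linarith
  have hElow : 4.75e-5 * κ / (P : ℝ) ^ 3 * Real.log W ≤ E := by
    rw [hE, hF]
    exact E_geC hκ hX hX1 hb.pos hbB hP hw0 hw01 hWw hbig
  have hEW : 1 / (W : ℝ) ^ 2 ≤ E := by
    refine le_trans ?_ hElow
    have h1 : 1 / (W : ℝ) ≤ κ / (P : ℝ) ^ 3 := by
      rw [div_le_div_iff₀ hW0 (by positivity), hPx]
      have h2 := hxk 3 (by norm_num)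
      have h3 : (x * κ) ^ 3 = x ^ 3 * κ ^ 3 := by ring
      have h4 : κ ^ 3 ≤ κ := by
        have : κ ^ 2 ≤ 1 := by nlinarith
        nlinarith
      calc 1 * (x * κ) ^ 3 = x ^ 3 * κ ^ 3 := by ring
        _ ≤ W * κ := mul_le_mul h2 h4 (by positivity) hW0.le
        _ = κ * W := by ring
    have h5 : 1 / (W : ℝ) ≤ 4.75e-5 := by
      rw [div_le_iff₀ hW0]
      linarith
    have h6 : 0 < κ / (P : ℝ) ^ 3 := by positivity
    calc 1 / (W : ℝ) ^ 2 = 1 / (W : ℝ) * (1 / (W : ℝ)) := by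
          rw [one_div_mul_one_div, sq]
      _ ≤ 4.75e-5 * (κ / (P : ℝ) ^ 3) := mul_le_mul h5 h1 (by positivity) (by norm_num)
      _ = 4.75e-5 * κ / (P : ℝ) ^ 3 * 1 := by ring
      _ ≤ 4.75e-5 * κ / (P : ℝ) ^ 3 * Real.log W :=
          mul_le_mul_of_nonneg_left hlogW (by positivity)
  have hE0 : 0 < E := lt_of_lt_of_le (by positivity) hEW
  -- the off diagonal total
  obtain ⟨G, hGdef⟩ : ∃ G : ℝ, G = ∑ p ∈ F, ∑ q ∈ F.erase p,
      ((Nat.gcd (b * P * p.2 - B * p.1) (b * P * q.2 - B * q.1) : ℕ) : ℝ) := ⟨_, rfl⟩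
  have hGle : G ≤ (W : ℝ) ^ 2 * (37 * (W : ℝ) ^ 4 * (B / b) ^ 2 * (1 + Real.log B)) := by
    rw [hGdef, hF]
    exact gcd_totalC hκ hX hb hB hbB hP hPb hW1n hWb
  obtain ⟨K, hK⟩ : ∃ K : ℝ, K = 0.07 * (X0 * b / B) * (3 * (X0 / κ) / B) := ⟨_, rfl⟩
  have hK0 : 0 ≤ K := by rw [hK]; positivity
  have hKG : K * G ≤ 1 / (W : ℝ) ^ 2 := by
    have h1 : K * G ≤ K * ((W : ℝ) ^ 2 * (37 * (W : ℝ) ^ 4 * (B / b) ^ 2 * (1 + Real.log B))) :=
      mul_le_mul_of_nonneg_left hGle hK0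
    have h2 : K * ((W : ℝ) ^ 2 * (37 * (W : ℝ) ^ 4 * (B / b) ^ 2 * (1 + Real.log B)))
        = (0.07 * 3 * 37) * X0 ^ 2 * ((W : ℝ) ^ 6 / κ) * ((1 + Real.log B) / b) := by
      rw [hK]
      field_simp
    have h3 : (1 + Real.log B) / b ≤ 1 / √b := by
      rw [div_le_div_iff₀ hb' (by positivity)]
      have h4 : √(b : ℝ) * √b = b := Real.mul_self_sqrt hb'.le
      have h5 : 0 ≤ √(b : ℝ) := Real.sqrt_nonneg _
      nlinarith
    have h6 : X0 ^ 2 ≤ 0.006 ^ 2 := pow_le_pow_left₀ hX0.le hX1 2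
    have h7 : (0.07 * 3 * 37) * X0 ^ 2 ≤ 1 := by nlinarith
    have h8 : (0 : ℝ) ≤ (W : ℝ) ^ 6 / κ := by positivity
    have hB1 : (1 : ℝ) ≤ B := by exact_mod_cast hB.one_lt.le
    have h9 : 0 ≤ (1 + Real.log B) / b := by
      have := Real.log_nonneg hB1
      positivity
    have h10 : (W : ℝ) ^ 6 / κ * (1 / √b) ≤ 1 / (W : ℝ) ^ 2 := by
      have hs : 0 < √(b : ℝ) := Real.sqrt_pos.2 hb'
      rw [div_mul_div_comm, div_le_div_iff₀ (by positivity) (by positivity)]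
      have h11 : 1 ≤ κ * W := by
        have : (P : ℝ) ≤ κ * W := by
          rw [hPx, mul_comm]
          exact mul_le_mul_of_nonneg_left hxW hκ.le
        linarith
      have h12 : (W : ℝ) ^ 8 ≤ κ * W ^ 20 := by
        have h13 : (W : ℝ) ^ 8 ≤ W ^ 19 := pow_le_pow_right₀ hW1 (by norm_num)
        have h14 : (0 : ℝ) < W ^ 19 := by positivity
        calc (W : ℝ) ^ 8 ≤ 1 * W ^ 19 := by linarith
          _ ≤ (κ * W) * W ^ 19 := mul_le_mul_of_nonneg_right h11 h14.le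
          _ = κ * W ^ 20 := by ring
      calc (W : ℝ) ^ 6 * 1 * W ^ 2 = W ^ 8 := by ring
        _ ≤ κ * W ^ 20 := h12
        _ ≤ κ * √b := mul_le_mul_of_nonneg_left hbW20 hκ.le
        _ = 1 * (κ * √b) := by ring
    calc K * G ≤ (0.07 * 3 * 37) * X0 ^ 2 * ((W : ℝ) ^ 6 / κ) * ((1 + Real.log B) / b) :=
          h2 ▸ h1
      _ ≤ 1 * ((W : ℝ) ^ 6 / κ) * ((1 + Real.log B) / b) := by gcongr
      _ ≤ 1 * ((W : ℝ) ^ 6 / κ) * (1 / √b) := by gcongr
      _ ≤ 1 / (W : ℝ) ^ 2 := by linarith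
  -- the errors
  obtain ⟨θ, hθ⟩ : ∃ θ : ℝ, θ = η * (B : ℝ) ^ 4 := ⟨_, rfl⟩
  have hθ0 : 0 ≤ θ := by rw [hθ]; positivity
  have hηm : ∀ m : ℕ, m ≤ B ^ 4 → η * m ≤ θ := by
    intro m hm
    rw [hθ]
    have : (m : ℝ) ≤ (B : ℝ) ^ 4 := by exact_mod_cast hm
    exact mul_le_mul_of_nonneg_left this hη
  have hB1 : (1 : ℝ) ≤ B := by exact_mod_cast hB.one_lt.le
  have hB1n : 1 ≤ B := hB.one_lt.le
  have hres : ∀ m : ℕ, 0 < m → m ≤ B ^ 4 → ∀ g : ℕ → ℝ, (∀ y, g (y % m) = g y) →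
      (∀ y, 0 ≤ g y) → (∀ y, g y ≤ 1) →
      |∑ n ∈ S, g (M n) - A / m * ∑ r ∈ range m, g r| ≤ θ := by
    intro m hm hmB g hg hg0 hg1
    exact (residue_sum S M A η m hm (fun r => hS m r hm hmB) g hg hg0 hg1).trans (hηm m hmB)
  have hcard : (S.card : ℝ) ≤ A + θ := by
    have h1 := hres 1 one_pos (Nat.one_le_pow _ _ hB.pos) (fun _ => 1) (fun _ => rfl)
      (fun _ => zero_le_one) (fun _ => le_rfl)
    rw [sum_const, nsmul_eq_mul, mul_one, sum_const, card_range, Nat.cast_one, div_one,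
      nsmul_eq_mul, Nat.cast_one, mul_one, mul_one] at h1
    have := (abs_le.1 h1).2
    linarith
  have hfirst : ∀ p ∈ F, |∑ n ∈ S, X p (M n) - rhoC κ X0 b B P p * A| ≤ θ := by
    intro p hp
    have hd := hdpos p hp
    have hd' : (0 : ℝ) < (dd (b * P) B p : ℕ) := by exact_mod_cast hd
    have hdB4 : dd (b * P) B p ≤ B ^ 4 :=
      (hdB2 p hp).trans (Nat.pow_le_pow_right hB.pos (by norm_num))
    have h1 := hres _ hd hdB4 (X p) (fun y => by rw [hXX, hXX, cnt_mod _ _ _ _ _ _ _ dvd_rfl])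
      (hXn p) (hX1' p hp)
    have h2 : ∑ r ∈ range (dd (b * P) B p), X p r
        = ((Ico (lo κ X0 b (p.1 * P)) (hi κ X0 b (p.1 * P))).card : ℝ) /
          (dd (b * P) B p : ℕ) * (dd (b * P) B p : ℕ) := by
      rw [← sum_cnt b (p.1 * P) (dd (b * P) B p) (lo κ X0 b (p.1 * P)) (hi κ X0 b (p.1 * P))
        (dd (b * P) B p) hd (hcop p hp).1 dvd_rfl]
      exact sum_congr rfl fun r _ => hXX p r
    rw [h2] at h1
    have h3 : A / (dd (b * P) B p : ℕ) *
        (((Ico (lo κ X0 b (p.1 * P)) (hi κ X0 b (p.1 * P))).card : ℝ) /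
          (dd (b * P) B p : ℕ) * (dd (b * P) B p : ℕ)) = rhoC κ X0 b B P p * A := by
      rw [div_mul_cancel₀ _ hd'.ne']
      unfold rhoC
      ring
    rw [h3] at h1
    exact h1
  have hmix : ∀ p ∈ F, ∀ q ∈ F, ∑ n ∈ S, X p (M n) * X q (M n)
      ≤ (rhoC κ X0 b B P p * rhoC κ X0 b B P q
          + K * (Nat.gcd (b * P * p.2 - B * p.1) (b * P * q.2 - B * q.1) : ℕ)) * A + θ := by
    intro p hp q hq
    have hm0 : 0 < dd (b * P) B p * dd (b * P) B q := Nat.mul_pos (hdpos p hp) (hdpos q hq)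
    have hmB : dd (b * P) B p * dd (b * P) B q ≤ B ^ 4 := by
      calc dd (b * P) B p * dd (b * P) B q ≤ B ^ 2 * B ^ 2 :=
            Nat.mul_le_mul (hdB2 p hp) (hdB2 q hq)
        _ = B ^ 4 := by ring
    have hm0' : (0 : ℝ) < (dd (b * P) B p * dd (b * P) B q : ℕ) := by exact_mod_cast hm0
    have h1 := hres _ hm0 hmB (fun y => X p y * X q y) (fun y => by
        rw [hXX, hXX, hXX, hXX, cnt_mod _ _ _ _ _ _ _ (dvd_mul_right _ _),
          cnt_mod _ _ _ _ _ _ _ (dvd_mul_left _ _)])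
      (fun y => mul_nonneg (hXn p y) (hXn q y))
      (fun y => mul_le_one₀ (hX1' p hp y) (hXn q y) (hX1' q hq y))
    obtain ⟨hpW, hpP, hpA⟩ := hmem p hp
    obtain ⟨hqW, hqP, hqA⟩ := hmem q hq
    have h2 := mixedC hpA hqA (dd (b * P) B p * dd (b * P) B q) hκ hX hb hB hbB hP hPb hpP hqP
      (by omega) (by omega) (hbs p hp) dvd_rfl
    have h3 : ∑ r ∈ range (dd (b * P) B p * dd (b * P) B q), X p r * X q r
        ≤ (rhoC κ X0 b B P p * rhoC κ X0 b B P q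
          + K * (Nat.gcd (b * P * p.2 - B * p.1) (b * P * q.2 - B * q.1) : ℕ))
          * (dd (b * P) B p * dd (b * P) B q : ℕ) := by
      rw [hK]
      refine le_trans (le_of_eq (sum_congr rfl fun r _ => ?_)) h2
      rw [hXX, hXX]
    have h4 := (abs_le.1 h1).2
    have h5 : A / (dd (b * P) B p * dd (b * P) B q : ℕ) *
        ∑ r ∈ range (dd (b * P) B p * dd (b * P) B q), X p r * X q r
        ≤ (rhoC κ X0 b B P p * rhoC κ X0 b B P q
          + K * (Nat.gcd (b * P * p.2 - B * p.1) (b * P * q.2 - B * q.1) : ℕ)) * A := by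
      refine (mul_le_mul_of_nonneg_left h3 (by positivity)).trans (le_of_eq ?_)
      field_simp
    linarith
  have hz : ∀ n ∈ S', ∀ p ∈ F, X p (M n) = 0 := by
    intro n hn p hpF
    by_contra hp
    obtain ⟨hpW, hpP, hpA⟩ := hmem p hpF
    have h2 : ((Ico (lo κ X0 b (p.1 * P)) (hi κ X0 b (p.1 * P))).filter
        (fun D => dd (b * P) B p ∣ b * M n + p.1 * P * D)).Nonempty := by
      rw [nonempty_iff_ne_empty]
      intro h3
      apply hp
      rw [hXX]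
      unfold cnt
      rw [h3, card_empty, Nat.cast_zero]
    obtain ⟨D, hD⟩ := h2
    rw [mem_filter] at hD
    obtain ⟨hDI, hDd⟩ := hD
    have hdM : dd (b * P) B p ∣ b * M n + p.1 * (P * D) := by
      rw [← mul_assoc]
      exact hDd
    have hBd : B * p.1 + dd (b * P) B p = b * (P * p.2) := by
      have := hlt p hpF
      unfold dd
      rw [← mul_assoc]
      omega
    have hcopb := (hcop p hpF).1
    obtain ⟨a1, a2, a3, a4⟩ := windowC hpA hκ hX hb.pos hB.pos hP hDI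
    have hD0 : 0 < D := by
      have := (mem_Ico.1 hDI).1
      unfold lo at this
      omega
    refine hSol n hn ⟨P * D, p.1, P * p.2, dd (b * P) B p, Nat.mul_pos hP hD0, hpA.1,
      Nat.mul_pos hP hpA.2.1, hdpos p hpF, dvd_mul_right _ _, hBd,
      hdM, ?_, by linarith, by linarith, by linarith, by linarith⟩
    have h3 : dd (b * P) B p ∣ b * (B * M n + P * p.2 * (P * D)) := by
      have h4 : b * (B * M n + P * p.2 * (P * D))
          = B * (b * M n + p.1 * (P * D)) + dd (b * P) B p * (P * D) := by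
        have h5 : b * (B * M n + P * p.2 * (P * D))
            = B * (b * M n) + (b * (P * p.2)) * (P * D) := by ring
        rw [h5, ← hBd]
        ring
      rw [h4]
      exact dvd_add (hdM.mul_left _) (dvd_mul_right _ _)
    exact (Nat.Coprime.dvd_of_dvd_mul_left hcopb.symm h3)
  -- the second moment
  have hsm := sm_S F S S' (fun p n => X p (M n)) (fun p => rhoC κ X0 b B P p) A θ
    (1 / (W : ℝ) ^ 2) hS' hcard (fun p hp => by
      have := (abs_le.1 (hfirst p hp)).1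
      linarith) (fun p hp => by
      have h1 := (abs_le.1 (hfirst p hp)).2
      have h2 : ∑ n ∈ S, X p (M n) * X p (M n) ≤ ∑ n ∈ S, X p (M n) := by
        refine sum_le_sum fun n _ => ?_
        have a0 := hXn p (M n)
        have a1 := hX1' p hp (M n)
        nlinarith
      linarith) ?_ (by rw [← hE]; exact hE0.le) hz
  · rw [← hE] at hsm
    -- N
    have hN : (F.card : ℝ) ≤ (B : ℝ) ^ 2 := by
      rw [hF]
      exact card_FC_le κ X0 b B P W hB1n hW2B hW1n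
    have hNsq : (F.card : ℝ) ≤ (F.card : ℝ) ^ 2 := by
      rcases Nat.eq_zero_or_pos F.card with h | h
      · rw [h]; norm_num
      · have : (1 : ℝ) ≤ F.card := by exact_mod_cast h
        nlinarith
    have hEN : E ≤ F.card := by
      rw [hE]
      have h1 : ∀ p ∈ F, rhoC κ X0 b B P p ≤ 1 := by
        intro p hp
        refine (rho_leC (hmem p hp).2.2 hκ hX hb.pos hB.pos hP (hbs p hp)).trans ?_
        have h2 : X0 * b / B ≤ 1 := by
          rw [div_le_one hB']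
          nlinarith
        linarith
      have h3 := sum_le_sum h1
      rw [sum_const, nsmul_eq_mul, mul_one] at h3
      exact h3
    have hN0 : (0 : ℝ) ≤ F.card := Nat.cast_nonneg _
    have hB4 : (F.card : ℝ) ^ 2 ≤ (B : ℝ) ^ 4 := by
      calc (F.card : ℝ) ^ 2 ≤ ((B : ℝ) ^ 2) ^ 2 := pow_le_pow_left₀ hN0 hN 2
        _ = (B : ℝ) ^ 4 := by ring
    have hcoef : (F.card : ℝ) ^ 2 + F.card + 2 * E * F.card + E ^ 2 ≤ 5 * (B : ℝ) ^ 4 := by
      have h1 : E * F.card ≤ (F.card : ℝ) ^ 2 := by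
        rw [sq]
        exact mul_le_mul_of_nonneg_right hEN hN0
      have h2 : E ^ 2 ≤ (F.card : ℝ) ^ 2 := pow_le_pow_left₀ hE0.le hEN 2
      linarith
    have h1 : (S'.card : ℝ) * E ^ 2 ≤ 2 * E * A + θ * (5 * (B : ℝ) ^ 4) := by
      refine hsm.trans (add_le_add ?_ (mul_le_mul_of_nonneg_left hcoef hθ0))
      exact mul_le_mul_of_nonneg_right (by linarith) hA
    have h2 : (S'.card : ℝ) ≤ 2 * A / E + θ * (5 * (B : ℝ) ^ 4) / E ^ 2 := by
      have h3 : (S'.card : ℝ) ≤ (2 * E * A + θ * (5 * (B : ℝ) ^ 4)) / E ^ 2 := by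
        rw [le_div_iff₀ (by positivity)]
        exact h1
      refine h3.trans (le_of_eq ?_)
      rw [add_div]
      congr 1
      field_simp
    refine h2.trans (add_le_add ?_ ?_)
    · -- main term
      have h4 : 0 < Real.log W := by linarith
      rw [div_le_div_iff₀ hE0 (by positivity)]
      have h5 : 4.75e-5 * κ * Real.log W ≤ E * (P : ℝ) ^ 3 := by
        have h6 : 4.75e-5 * κ / (P : ℝ) ^ 3 * Real.log W * (P : ℝ) ^ 3
            = 4.75e-5 * κ * Real.log W := by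
          field_simp
        rw [← h6]
        exact mul_le_mul_of_nonneg_right hElow (by positivity)
      have h7 : 0 ≤ κ * Real.log W := by positivity
      calc 2 * A * (2e-5 * κ * Real.log W) = A * (4e-5 * (κ * Real.log W)) := by ring
        _ ≤ A * (4.75e-5 * κ * Real.log W) := by
            refine mul_le_mul_of_nonneg_left ?_ hA
            nlinarith
        _ ≤ A * (E * (P : ℝ) ^ 3) := mul_le_mul_of_nonneg_left h5 hA
        _ = (P : ℝ) ^ 3 * A * E := by ring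
    · rw [hθ, div_le_iff₀ (by positivity)]
      have hE2 : 1 / (W : ℝ) ^ 4 ≤ E ^ 2 := by
        calc 1 / (W : ℝ) ^ 4 = (1 / (W : ℝ) ^ 2) ^ 2 := by
              rw [div_pow, one_pow, ← pow_mul]
          _ ≤ E ^ 2 := pow_le_pow_left₀ (by positivity) hEW 2
      have hW4 : (W : ℝ) ^ 4 ≤ B := by
        have := hWk 4 (by norm_num)
        linarith
      have h5B : (5 : ℝ) ≤ B := by linarith
      have h8 : 1 / (B : ℝ) ≤ E ^ 2 := by
        refine le_trans ?_ hE2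
        exact one_div_le_one_div_of_le (by positivity) hW4
      have h9 : 5 * (B : ℝ) ^ 8 ≤ (B : ℝ) ^ 40 * (1 / B) := by
        have h10 : (B : ℝ) ^ 40 * (1 / B) = (B : ℝ) ^ 39 := by
          field_simp
        rw [h10]
        calc 5 * (B : ℝ) ^ 8 ≤ B * (B : ℝ) ^ 8 := mul_le_mul_of_nonneg_right h5B (by positivity)
          _ = (B : ℝ) ^ 9 := by ring
          _ ≤ (B : ℝ) ^ 39 := pow_le_pow_right₀ hB1 (by norm_num)
      calc η * (B : ℝ) ^ 4 * (5 * (B : ℝ) ^ 4) = η * (5 * (B : ℝ) ^ 8) := by ring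
        _ ≤ η * ((B : ℝ) ^ 40 * (1 / B)) := mul_le_mul_of_nonneg_left h9 hη
        _ ≤ η * ((B : ℝ) ^ 40 * E ^ 2) := by
            refine mul_le_mul_of_nonneg_left ?_ hη
            exact mul_le_mul_of_nonneg_left h8 (by positivity)
        _ = η * (B : ℝ) ^ 40 * E ^ 2 := by ring
  · have h1 : ∀ p ∈ F, ∑ q ∈ F.erase p, ∑ n ∈ S, X p (M n) * X q (M n)
        ≤ ∑ q ∈ F.erase p, ((rhoC κ X0 b B P p * rhoC κ X0 b B P q
          + K * (Nat.gcd (b * P * p.2 - B * p.1) (b * P * q.2 - B * q.1) : ℕ)) * A + θ) := by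
      intro p hp
      refine sum_le_sum fun q hq => ?_
      rw [mem_erase] at hq
      exact hmix p hp q hq.2
    refine (sum_le_sum h1).trans ?_
    have h2 : ∑ p ∈ F, ∑ q ∈ F.erase p, ((rhoC κ X0 b B P p * rhoC κ X0 b B P q
          + K * (Nat.gcd (b * P * p.2 - B * p.1) (b * P * q.2 - B * q.1) : ℕ)) * A + θ)
        = (∑ p ∈ F, ∑ q ∈ F.erase p, rhoC κ X0 b B P p * rhoC κ X0 b B P q + K * G) * A
          + ∑ p ∈ F, ∑ q ∈ F.erase p, θ := by
      rw [hGdef, mul_sum, ← sum_add_distrib, sum_mul, ← sum_add_distrib]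
      refine sum_congr rfl fun p _ => ?_
      rw [mul_sum, ← sum_add_distrib, sum_mul, ← sum_add_distrib]
    rw [h2]
    refine add_le_add (mul_le_mul_of_nonneg_right ?_ hA) ?_
    · have h3 : ∑ p ∈ F, ∑ q ∈ F.erase p, rhoC κ X0 b B P p * rhoC κ X0 b B P q
          ≤ (∑ p ∈ F, rhoC κ X0 b B P p) ^ 2 := by
        rw [sq, sum_mul_sum]
        refine sum_le_sum fun p _ => ?_
        exact sum_le_sum_of_subset_of_nonneg (erase_subset _ _) fun q _ _ =>
          mul_nonneg (rhoC_nonneg p) (rhoC_nonneg q)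
      linarith
    · have h4 : ∀ p ∈ F, ∑ q ∈ F.erase p, θ ≤ F.card * θ := by
        intro p _
        rw [sum_const, nsmul_eq_mul]
        refine mul_le_mul_of_nonneg_right ?_ hθ0
        exact_mod_cast card_le_card (erase_subset p F)
      refine (sum_le_sum h4).trans (le_of_eq ?_)
      rw [sum_const, nsmul_eq_mul]
      ring

end Pool.Agent.MR2
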