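import Pool.Agent.Lib.MR2.SMMG
import Pool.Agent.Lib.MR2.StatM

/-! Row M_SMM, part 2: the family and the second moment. -/

set_option autoImplicit false

namespace Pool.Agent.MR2

open Finset Pool.Agent.Lib.PO69

/-- The second moment, over a set; half of the expectation. -/
theorem sm_half {ι : Type*} [DecidableEq ι] (F : Finset ι) (S S' : Finset ℕ) (Z : ι → ℕ → ℝ)
    (ρ : ι → ℝ) (A θ e : ℝ) (hS' : S' ⊆ S) (h0 : (S.card : ℝ) ≤ A + θ)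
    (h1 : ∀ i ∈ F, ρ i * A - θ ≤ ∑ n ∈ S, Z i n)
    (h2 : ∀ i ∈ F, ∑ n ∈ S, Z i n * Z i n ≤ ρ i * A + θ)
    (h3 : ∑ i ∈ F, ∑ j ∈ F.erase i, ∑ n ∈ S, Z i n * Z j n
      ≤ ((∑ i ∈ F, ρ i) ^ 2 + e) * A + (F.card : ℝ) ^ 2 * θ)
    (hE : 0 ≤ ∑ i ∈ F, ρ i) (hz : ∀ n ∈ S', ∑ i ∈ F, Z i n ≤ (∑ i ∈ F, ρ i) / 2) :
    (S'.card : ℝ) * ((∑ i ∈ F, ρ i) ^ 2 / 4) ≤ ((∑ i ∈ F, ρ i) + e) * A
      + θ * ((F.card : ℝ) ^ 2 + F.card + 2 * (∑ i ∈ F, ρ i) * F.card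
        + (∑ i ∈ F, ρ i) ^ 2) := by
  set E := ∑ i ∈ F, ρ i with hEdef
  obtain ⟨T, hT⟩ : ∃ T : ℕ → ℝ, ∀ n, T n = ∑ i ∈ F, Z i n := ⟨_, fun _ => rfl⟩
  have a1 : (S'.card : ℝ) * (E ^ 2 / 4) ≤ ∑ n ∈ S, (T n - E) ^ 2 := by
    have h4 : (S'.card : ℝ) * (E ^ 2 / 4) ≤ ∑ n ∈ S', (T n - E) ^ 2 := by
      rw [← nsmul_eq_mul, ← sum_const]
      refine sum_le_sum fun n hn => ?_
      have h5 := hz n hn
      rw [← hT] at h5
      nlinarith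
    exact h4.trans (sum_le_sum_of_subset_of_nonneg hS' fun _ _ _ => sq_nonneg _)
  have a2 : ∑ n ∈ S, (T n - E) ^ 2
      = ∑ n ∈ S, T n * T n - 2 * E * ∑ n ∈ S, T n + S.card * E ^ 2 := by
    rw [mul_sum, ← sum_sub_distrib, ← nsmul_eq_mul, ← sum_const, ← sum_add_distrib]
    exact sum_congr rfl fun n _ => by ring
  have a3 : E * A - F.card * θ ≤ ∑ n ∈ S, T n := by
    have h4 : ∑ n ∈ S, T n = ∑ i ∈ F, ∑ n ∈ S, Z i n := by
      simp_rw [hT]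
      exact sum_comm
    rw [h4]
    have h := sum_le_sum h1
    rw [sum_sub_distrib, ← sum_mul, sum_const, nsmul_eq_mul] at h
    exact h
  have a4 : ∑ n ∈ S, T n * T n
      ≤ E * A + F.card * θ + ((E ^ 2 + e) * A + (F.card : ℝ) ^ 2 * θ) := by
    have e1 : ∑ n ∈ S, T n * T n = ∑ i ∈ F, ∑ j ∈ F, ∑ n ∈ S, Z i n * Z j n := by
      simp_rw [hT, sum_mul_sum]
      rw [sum_comm]
      refine sum_congr rfl fun i _ => ?_
      rw [sum_comm]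
    have e2 : ∀ i ∈ F, ∑ j ∈ F, ∑ n ∈ S, Z i n * Z j n
        = ∑ n ∈ S, Z i n * Z i n + ∑ j ∈ F.erase i, ∑ n ∈ S, Z i n * Z j n :=
      fun i hi => (add_sum_erase F _ hi).symm
    rw [e1, sum_congr rfl e2, sum_add_distrib]
    have h := sum_le_sum h2
    rw [sum_add_distrib, ← sum_mul, sum_const, nsmul_eq_mul] at h
    linarith
  have a5 := mul_le_mul_of_nonneg_left a3 (by positivity : 0 ≤ 2 * E)
  have a6 := mul_le_mul_of_nonneg_right h0 (sq_nonneg E)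
  rw [a2] at a1
  refine a1.trans ?_
  linarith

/-- a set of integers of small diameter. -/
theorem card_le_diam (I : Finset ℕ) (R : ℝ) (hR : 0 ≤ R)
    (h : ∀ x ∈ I, ∀ y ∈ I, (x : ℝ) < y + R) : (I.card : ℝ) ≤ R + 1 := by
  rcases I.eq_empty_or_nonempty with h0 | h0
  · rw [h0, card_empty, Nat.cast_zero]; linarith
  · have h1 : I ⊆ Icc (I.min' h0) (I.min' h0 + ⌊R⌋₊) := by
      intro x hx
      rw [mem_Icc]
      have h2 := min'_le _ _ hx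
      refine ⟨h2, ?_⟩
      have h3 := h x hx _ (min'_mem _ h0)
      have h4 : ((x - I.min' h0 : ℕ) : ℝ) ≤ R := by
        rw [Nat.cast_sub h2]; linarith
      have h5 : x - I.min' h0 ≤ ⌊R⌋₊ := Nat.le_floor h4
      omega
    have h2 := card_le_card h1
    rw [Nat.card_Icc] at h2
    have h3 : I.card ≤ ⌊R⌋₊ + 1 := by omega
    have h4 : (⌊R⌋₊ : ℝ) ≤ R := Nat.floor_le hR
    have h5 : (I.card : ℝ) ≤ (⌊R⌋₊ + 1 : ℕ) := by exact_mod_cast h3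
    push_cast at h5
    linarith

theorem cop_sub {m X Y : ℕ} (hm : m ∣ X) (h : Nat.Coprime m Y) (hlt : Y < X) :
    Nat.Coprime m (X - Y) := by
  rw [Nat.coprime_iff_gcd_eq_one] at h ⊢
  have h1 : Nat.gcd m (X - Y) ∣ Y := by
    have h2 := Nat.gcd_dvd_left m (X - Y)
    have h3 := Nat.gcd_dvd_right m (X - Y)
    exact (Nat.dvd_sub_iff_right hlt.le (h2.trans hm)).1 h3
  have h4 : Nat.gcd m (X - Y) ∣ Nat.gcd m Y := Nat.dvd_gcd (Nat.gcd_dvd_left _ _) h1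
  rw [h] at h4
  exact Nat.dvd_one.1 h4

section fam

variable {P0 : ℕ} {PP : Finset ℕ} {κ f : ℝ} {b B W M0 : ℕ} {x y : ℕ → ℤ}

theorem mem_Fam {e : ℕ × ℕ × ℕ} : e ∈ Fam P0 PP κ f b B W M0 x y ↔
    (e.1 ∈ Icc 1 W ∧ e.2.1 ∈ Icc 1 (3 * B * W) ∧ e.2.2 ∈ Icc 1 b) ∧
    Conf0 P0 κ f b B W e ∧ ∀ p ∈ PP, Siev b B M0 (x p) (y p) e p := by
  classical
  unfold Fam
  rw [mem_filter, mem_product, mem_product]

/-- size of `d`. -/
theorem Conf0.d_ge {e : ℕ × ℕ × ℕ} (h : Conf0 P0 κ f b B W e) (hκ : 0 < κ)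
    (hf : f + 0.4 * κ ≤ 0.006) (hb : 0 < b) (hB : 0 < B) :
    66 * κ * (B * e.1) ≤ ((b * e.2.1 - B * e.1 : ℕ) : ℝ) := by
  have hb' : (0 : ℝ) < b := by exact_mod_cast hb
  have hB' : (0 : ℝ) < B := by exact_mod_cast hB
  have hs : (0 : ℝ) < e.1 := by exact_mod_cast h.s_pos
  have hD : (0 : ℝ) < e.2.2 := by exact_mod_cast h.D_pos
  have w2 := h.w2
  have w3 := h.w3
  rw [div_lt_iff₀ hb'] at w2
  rw [lt_div_iff₀ hB'] at w3
  rw [Nat.cast_sub h.lt.le]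
  push_cast
  set d : ℝ := (b : ℝ) * e.2.1 - B * e.1 with hd
  have h1 : 0.4 * κ * (b * B) < d * e.2.2 := by
    have h2 : (b : ℝ) * (e.2.1 * e.2.2) > b * ((f + 0.8 * κ) * B) := by nlinarith
    have h3 : (B : ℝ) * (e.1 * e.2.2) < B * ((f + 0.4 * κ) * b) := by nlinarith
    have h4 : d * e.2.2 = b * (e.2.1 * e.2.2) - B * (e.1 * e.2.2) := by rw [hd]; ring
    rw [h4]
    linarith
  have hd0 : 0 < d := by
    have h2 : 0 < d * e.2.2 := lt_trans (by positivity) h1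
    by_contra h3
    push Not at h3
    have := mul_nonpos_of_nonpos_of_nonneg h3 hD.le
    linarith
  have h5 : (e.1 : ℝ) * e.2.2 ≤ 0.006 * b := by nlinarith
  have h6 : d * (e.1 * e.2.2) ≤ d * (0.006 * b) := mul_le_mul_of_nonneg_left h5 hd0.le
  have h7 : 0.4 * κ * (b * B) * e.1 ≤ d * (e.1 * e.2.2) := by
    have := mul_le_mul_of_nonneg_right h1.le hs.le
    linarith
  have h8 : (0.4 * κ * (B * e.1)) * b ≤ (0.006 * d) * b := by linarith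
  have h9 : 0.4 * κ * (B * e.1) ≤ 0.006 * d := le_of_mul_le_mul_right h8 hb'
  linarith

theorem Conf0.pair {e : ℕ × ℕ × ℕ} (h : Conf0 P0 κ f b B W e) (hf : 0 ≤ f)
    (hb : 0 < b) (hB : 0 < B) : PairOK b B W (e.1, e.2.1) := by
  refine ⟨h.s_pos, h.L_pos, h.s_le, h.sL, h.lt, ?_⟩
  have hb' : (0 : ℝ) < b := by exact_mod_cast hb
  have hB' : (0 : ℝ) < B := by exact_mod_cast hB
  have hD : (0 : ℝ) < e.2.2 := by exact_mod_cast h.D_pos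
  have w1 := h.w1
  have w4 := h.w4
  rw [lt_div_iff₀ hb'] at w1
  rw [div_lt_iff₀ hB'] at w4
  have h1 : ((b : ℝ) * e.2.1) * e.2.2 ≤ (3 * (B * e.1)) * e.2.2 := by
    have h2 : (b : ℝ) * (e.2.1 * e.2.2) ≤ b * ((f + 0.9 * κ) * B) :=
      mul_le_mul_of_nonneg_left w4.le hb'.le
    have h3 : (B : ℝ) * ((f + 0.3 * κ) * b) ≤ B * (e.1 * e.2.2) :=
      mul_le_mul_of_nonneg_left w1.le hB'.le
    have h4 : (b : ℝ) * ((f + 0.9 * κ) * B) ≤ 3 * (B * ((f + 0.3 * κ) * b)) := by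
      have : 0 ≤ f * (b * B) := by positivity
      nlinarith
    calc ((b : ℝ) * e.2.1) * e.2.2 = b * (e.2.1 * e.2.2) := by ring
      _ ≤ b * ((f + 0.9 * κ) * B) := h2
      _ ≤ 3 * (B * ((f + 0.3 * κ) * b)) := h4
      _ ≤ 3 * (B * (e.1 * e.2.2)) := by linarith
      _ = _ := by ring
  have h5 : (b : ℝ) * e.2.1 ≤ 3 * (B * e.1) := le_of_mul_le_mul_right h1 hD
  exact_mod_cast h5

/-- two `D` of the same pair. -/
theorem Conf0.D_lt {s L D D' : ℕ} (h : Conf0 P0 κ f b B W (s, L, D))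
    (h' : Conf0 P0 κ f b B W (s, L, D')) (hκ : 0 < κ) (hb : 0 < b) :
    (D : ℝ) < D' + 0.1 * κ * b := by
  have hb' : (0 : ℝ) < b := by exact_mod_cast hb
  have hs : (1 : ℝ) ≤ s := by exact_mod_cast h.s_pos
  have w2 := h.w2
  have w1 := h'.w1
  simp only at w1 w2
  rw [lt_div_iff₀ hb'] at w1
  rw [div_lt_iff₀ hb'] at w2
  have h1 : (s : ℝ) * D - s * D' < 0.1 * κ * b := by linarith
  rcases le_total (D : ℝ) D' with h2 | h2
  · have : 0 < 0.1 * κ * b := by positivity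
    linarith
  · nlinarith

/-- the conditions on `D` modulo `P0 * ∏ PP`. -/
def QQ (P0 : ℕ) (PP : Finset ℕ) (b B M0 : ℕ) (p : ℕ × ℕ) (D : ℕ) : Prop :=
  P0 ∣ D ∧ ∀ r ∈ PP, ¬ r ∣ b * M0 + p.1 * D ∧ ¬ r ∣ B * M0 + p.2 * D

theorem QQ_mod (p : ℕ × ℕ) (D : ℕ) :
    QQ P0 PP b B M0 p (D % (P0 * ∏ r ∈ PP, r)) ↔ QQ P0 PP b B M0 p D := by
  unfold QQ
  refine and_congr (Nat.dvd_mod_iff (dvd_mul_right _ _)) ?_
  refine forall₂_congr fun r hr => ?_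
  have hr1 : r ∣ P0 * ∏ r ∈ PP, r := (dvd_prod_of_mem _ hr).mul_left _
  have key : ∀ a c : ℕ, r ∣ a + c * (D % (P0 * ∏ r ∈ PP, r)) ↔ r ∣ a + c * D := by
    intro a c
    have h3 : a + c * (D % (P0 * ∏ r ∈ PP, r)) ≡ a + c * D [MOD r] :=
      Nat.ModEq.add_left _ (Nat.ModEq.mul_left _ ((Nat.mod_modEq D _).of_dvd hr1))
    exact ⟨fun h4 => (Nat.modEq_zero_iff_dvd).1 (h3.symm.trans ((Nat.modEq_zero_iff_dvd).2 h4)),
      fun h4 => (Nat.modEq_zero_iff_dvd).1 (h3.trans ((Nat.modEq_zero_iff_dvd).2 h4))⟩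
  rw [key, key]

open Classical in
/-- the set of the `D` that belong to a pair. -/
noncomputable def IP (P0 : ℕ) (PP : Finset ℕ) (κ f : ℝ) (b B W M0 : ℕ) (x y : ℕ → ℤ)
    (p : ℕ × ℕ) : Finset ℕ :=
  (Icc 1 b).filter (fun D => (p.1, p.2, D) ∈ Fam P0 PP κ f b B W M0 x y)

open Classical in
/-- the set of the pairs. -/
noncomputable def GP (P0 : ℕ) (PP : Finset ℕ) (κ f : ℝ) (b B W M0 : ℕ) (x y : ℕ → ℤ) :
    Finset (ℕ × ℕ) :=
  (Fam P0 PP κ f b B W M0 x y).image (fun e => (e.1, e.2.1))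

theorem mem_IP {p : ℕ × ℕ} {D : ℕ} : D ∈ IP P0 PP κ f b B W M0 x y p ↔
    (p.1, p.2, D) ∈ Fam P0 PP κ f b B W M0 x y := by
  classical
  unfold IP
  rw [mem_filter]
  exact ⟨fun h => h.2, fun h => ⟨(mem_Fam.1 h).1.2.2, h⟩⟩

theorem mem_GP {p : ℕ × ℕ} (h : p ∈ GP P0 PP κ f b B W M0 x y) :
    ∃ D, (p.1, p.2, D) ∈ Fam P0 PP κ f b B W M0 x y := by
  classical
  unfold GP at h
  rw [mem_image] at h
  obtain ⟨e, he, rfl⟩ := h
  exact ⟨e.2.2, he⟩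

theorem sum_Fam (F : ℕ × ℕ × ℕ → ℝ) : ∑ e ∈ Fam P0 PP κ f b B W M0 x y, F e
    = ∑ p ∈ GP P0 PP κ f b B W M0 x y, ∑ D ∈ IP P0 PP κ f b B W M0 x y p, F (p.1, p.2, D) := by
  classical
  rw [← sum_fiberwise_of_maps_to (s := Fam P0 PP κ f b B W M0 x y)
    (t := GP P0 PP κ f b B W M0 x y) (g := fun e => (e.1, e.2.1))
    (fun e he => by unfold GP; exact mem_image_of_mem _ he)]
  refine sum_congr rfl fun p _ => ?_
  refine sum_nbij' (fun e => e.2.2) (fun D => (p.1, p.2, D)) ?_ ?_ ?_ ?_ ?_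
  · intro e he
    rw [mem_filter] at he
    obtain ⟨h1, h2⟩ := he
    rw [mem_IP]
    subst h2
    exact h1
  · intro D hD
    rw [mem_IP] at hD
    rw [mem_filter]
    exact ⟨hD, rfl⟩
  · intro e he
    rw [mem_filter] at he
    obtain ⟨h1, h2⟩ := he
    subst h2
    rfl
  · intro D _
    rfl
  · intro e he
    rw [mem_filter] at he
    obtain ⟨h1, h2⟩ := he
    subst h2
    rfl

open Classical in
theorem IP_eq {p : ℕ × ℕ} (hb : 0 < b) (hB : 0 < B) (hp : p ∈ GP P0 PP κ f b B W M0 x y) :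
    ∃ lo hi : ℕ, IP P0 PP κ f b B W M0 x y p = (Ico lo hi).filter (QQ P0 PP b B M0 p) := by
  have hb' : (0 : ℝ) < b := by exact_mod_cast hb
  have hB' : (0 : ℝ) < B := by exact_mod_cast hB
  obtain ⟨D0, hD0⟩ := mem_GP hp
  obtain ⟨⟨m1, m2, m3⟩, hC, hS⟩ := mem_Fam.1 hD0
  simp only at m1 m2 m3
  set J := (Icc 1 b).filter (fun D : ℕ => f + 0.3 * κ < (p.1 : ℝ) * D / b ∧
    (p.1 : ℝ) * D / b < f + 0.4 * κ ∧ f + 0.8 * κ < (p.2 : ℝ) * D / B ∧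
    (p.2 : ℝ) * D / B < f + 0.9 * κ) with hJ
  obtain ⟨lo, hi, hlh⟩ := exists_Ico J (by
    intro u hu w hw v huv hvw
    rw [hJ, mem_filter, mem_Icc] at hu hw ⊢
    obtain ⟨u0, u1, u2, u3, u4⟩ := hu
    obtain ⟨z0, z1, z2, z3, z4⟩ := hw
    have huv' : (u : ℝ) ≤ v := by exact_mod_cast huv
    have hvw' : (v : ℝ) ≤ w := by exact_mod_cast hvw
    have a1 : (p.1 : ℝ) * u / b ≤ (p.1 : ℝ) * v / b := by gcongr
    have a2 : (p.1 : ℝ) * v / b ≤ (p.1 : ℝ) * w / b := by gcongr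
    have a3 : (p.2 : ℝ) * u / B ≤ (p.2 : ℝ) * v / B := by gcongr
    have a4 : (p.2 : ℝ) * v / B ≤ (p.2 : ℝ) * w / B := by gcongr
    exact ⟨⟨by omega, by omega⟩, by linarith, by linarith, by linarith, by linarith⟩)
  refine ⟨lo, hi, ?_⟩
  rw [← hlh]
  ext D
  rw [mem_IP, mem_Fam, mem_filter, hJ, mem_filter]
  constructor
  · rintro ⟨⟨n1, n2, n3⟩, hC', hS'⟩
    refine ⟨⟨n3, hC'.w1, hC'.w2, hC'.w3, hC'.w4⟩, hC'.P0D, fun r hr => ?_⟩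
    exact ⟨(hS' r hr).2.1, (hS' r hr).2.2.1⟩
  · rintro ⟨⟨n3, w1, w2, w3, w4⟩, q1, q2⟩
    refine ⟨⟨m1, m2, n3⟩, ⟨hC.s_pos, hC.L_pos, ?_, hC.s_ge, hC.s_le, hC.P0L, q1, hC.sP0, hC.sL,
      hC.lt, w1, w2, w3, w4⟩, fun r hr => ⟨(hS r hr).1, (q2 r hr).1, (q2 r hr).2,
      (hS r hr).2.2.2⟩⟩
    rw [mem_Icc] at n3
    exact n3.1

end fam

end Pool.Agent.MR2
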