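import Pool.Agent.Lib.MR2.SMM

/-! Row M_SMM: the final theorem. -/

set_option autoImplicit false

namespace Pool.Agent.MR2

open Finset Pool.Agent.Lib.PO69

section fam

variable {P0 : ℕ} {PP : Finset ℕ} {κ f : ℝ} {b B W M0 : ℕ} {x y : ℕ → ℤ}

/-- `d` of a pair. -/
def dP (b B : ℕ) (p : ℕ × ℕ) : ℕ := b * p.2 - B * p.1

/-- expected number of solutions of a pair. -/
noncomputable def rhoP (P0 : ℕ) (PP : Finset ℕ) (κ f : ℝ) (b B W M0 : ℕ) (x y : ℕ → ℤ)
    (p : ℕ × ℕ) : ℝ := ((IP P0 PP κ f b B W M0 x y p).card : ℝ) / (dP b B p : ℕ)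

theorem EE_eq : EE P0 PP κ f b B W M0 x y
    = ∑ p ∈ GP P0 PP κ f b B W M0 x y, rhoP P0 PP κ f b B W M0 x y p := by
  unfold EE
  rw [sum_Fam]
  refine sum_congr rfl fun p _ => ?_
  unfold rhoP dP cd
  simp only
  rw [sum_const, nsmul_eq_mul]
  ring

open Classical in
theorem count_eq (m : ℕ) : (((Fam P0 PP κ f b B W M0 x y).filter
      (fun e => cd b B e ∣ cU b m e)).card : ℝ)
    = ∑ p ∈ GP P0 PP κ f b B W M0 x y,
      cntD b p.1 (dP b B p) (IP P0 PP κ f b B W M0 x y p) m := by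
  rw [card_filter]
  push_cast
  rw [sum_Fam]
  refine sum_congr rfl fun p _ => ?_
  rw [cntD_eq_sum]
  rfl

/-- all facts about a pair. -/
structure PF (P0 : ℕ) (PP : Finset ℕ) (κ f : ℝ) (b B W M0 : ℕ) (x y : ℕ → ℤ)
    (p : ℕ × ℕ) : Prop where
  ok : PairOK b B W p
  dpos : 0 < dP b B p
  dge : 66 * κ * (B : ℝ) ≤ (dP b B p : ℕ)
  dle : dP b B p ≤ B ^ 2
  copb : Nat.Coprime b (dP b B p)
  cops : Nat.Coprime p.1 (dP b B p)
  copP : Nat.Coprime (P0 * ∏ r ∈ PP, r) (dP b B p)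
  diam : ∀ D ∈ IP P0 PP κ f b B W M0 x y p, ∀ D' ∈ IP P0 PP κ f b B W M0 x y p,
    (D : ℝ) < D' + 0.1 * κ * b
  card : ((IP P0 PP κ f b B W M0 x y p).card : ℝ) ≤ 0.1 * κ * b + 1
  form : ∃ lo hi : ℕ, ∃ Q : ℕ → Prop, ∃ _ : DecidablePred Q,
    (∀ z, Q (z % (P0 * ∏ r ∈ PP, r)) ↔ Q z) ∧
    IP P0 PP κ f b B W M0 x y p = (Ico lo hi).filter Q

theorem PF_of {p : ℕ × ℕ} (hκ : 0 < κ) (hf0 : 0 ≤ f) (hf : f + 0.4 * κ ≤ 0.006)
    (hb : b.Prime) (hB : B.Prime) (hbB : b < B) (hWb : W < b) (hPB : P0 < B) (hP0 : 1 ≤ P0)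
    (hPP : ∀ r ∈ PP, r.Prime) (h3W : 3 * W ≤ B)
    (hp : p ∈ GP P0 PP κ f b B W M0 x y) : PF P0 PP κ f b B W M0 x y p := by
  classical
  obtain ⟨D0, hD0⟩ := mem_GP hp
  obtain ⟨_, hC, hS⟩ := mem_Fam.1 hD0
  have hok := hC.pair hf0 hb.pos hB.pos
  have hs1 : (1 : ℝ) ≤ p.1 := by exact_mod_cast hok.s_pos
  have hsb : p.1 < b := lt_of_le_of_lt hok.s_le hWb
  have hlt := hok.lt
  simp only at hlt
  obtain ⟨c1, c2, _⟩ := copP (L := p.2) hb hB hok.s_pos hbB hsb hok.cop hlt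
  have hdge : 66 * κ * (B : ℝ) ≤ (dP b B p : ℕ) := by
    have h1 := hC.d_ge hκ hf hb.pos hB.pos
    simp only at h1
    refine le_trans ?_ h1
    have h2 : 0 ≤ 66 * κ * (B : ℝ) := by positivity
    nlinarith
  have hdiam : ∀ D ∈ IP P0 PP κ f b B W M0 x y p, ∀ D' ∈ IP P0 PP κ f b B W M0 x y p,
      (D : ℝ) < D' + 0.1 * κ * b := by
    intro D hD D' hD'
    rw [mem_IP] at hD hD'
    exact ((mem_Fam.1 hD).2.1).D_lt (mem_Fam.1 hD').2.1 hκ hb.pos
  refine ⟨hok, Nat.sub_pos_of_lt hlt, hdge, ?_, c1, c2, ?_, hdiam,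
    card_le_diam _ _ (by positivity) hdiam, ?_⟩
  · have h1 := hok.le3
    have h2 := hok.s_le
    simp only at h1 h2
    calc dP b B p ≤ b * p.2 := Nat.sub_le _ _
      _ ≤ 3 * (B * p.1) := h1
      _ = B * (3 * p.1) := by ring
      _ ≤ B * B := Nat.mul_le_mul_left B (by omega)
      _ = B ^ 2 := by ring
  · refine Nat.Coprime.mul_left ?_ ?_
    · refine cop_sub (hC.P0L.mul_left b) ?_ hlt
      exact (Pool.Agent.MRZ.cop_of_lt hB hP0 hPB).mul_right hC.sP0.symm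
    · refine Nat.Coprime.prod_left fun r hr => ?_
      rw [Nat.Prime.coprime_iff_not_dvd (hPP r hr)]
      exact (hS r hr).1
  · obtain ⟨lo, hi, h⟩ := IP_eq hb.pos hB.pos hp
    exact ⟨lo, hi, QQ P0 PP b B M0 p, Classical.decPred _, QQ_mod p, h⟩

end fam

theorem alg_mix (g ip iq dp dq P : ℝ) (hg : g ≠ 0) (hdp : dp ≠ 0) (hdq : dq ≠ 0) :
    g / (dp * dq) * (ip * (iq / g + 2 * P))
      = ip / dp * (iq / dq) + ip / dp * (2 * P) * (1 / dq) * g := by
  field_simp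

theorem smm : SMM := by
  classical
  refine ⟨40, ?_⟩
  intro P0 b B W PP κ f hH M0 x y _ hE1 S M A η hA hη hS S' hS' hhalf
  obtain ⟨hP0, hPP, hκ, hκ1, hf, hf1, hb, hB, hb3, hW, hWb40, hBW⟩ := hH
  obtain ⟨P, hPdef⟩ : ∃ P : ℕ, P = P0 * ∏ p ∈ PP, p := ⟨_, rfl⟩
  rw [← hPdef] at hW
  have hprod : 0 < ∏ p ∈ PP, p := prod_pos fun r hr => (hPP r hr).1.pos
  have hP : 1 ≤ P := by rw [hPdef]; exact Nat.mul_pos hP0 hprod
  have hP' : (1 : ℝ) ≤ P := by exact_mod_cast hP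
  have hP0le : P0 ≤ P := by rw [hPdef]; exact Nat.le_mul_of_pos_right _ hprod
  obtain ⟨z, hz⟩ : ∃ z : ℝ, z = (P : ℝ) / κ := ⟨_, rfl⟩
  rw [← hz] at hW
  have hPz : (P : ℝ) = z * κ := by rw [hz]; field_simp
  have hz1 : 1000 ≤ z := by
    rw [hz, le_div_iff₀ hκ]; linarith
  have hz0 : 0 < z := by linarith
  have hPz' : (P : ℝ) ≤ z := by rw [hPz]; nlinarith
  have hzk : ∀ k ≤ 40, z ^ k ≤ W := fun k hk => (pow_le_pow_right₀ (by linarith) hk).trans hW
  have hzW : z ≤ W := by simpa using hzk 1 (by norm_num)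
  have hW6 : (1000000 : ℝ) ≤ W := by
    have := hzk 2 (by norm_num)
    nlinarith
  have hW1 : (1 : ℝ) ≤ W := by linarith
  have hW0 : (0 : ℝ) < W := by linarith
  have hW1n : 1 ≤ W := by exact_mod_cast hW1
  have hW2n : 2 ≤ W := by
    have : (2 : ℝ) ≤ W := by linarith
    exact_mod_cast this
  have hWk : ∀ k ≤ 40, (W : ℝ) ^ k ≤ b := fun k hk => (pow_le_pow_right₀ hW1 hk).trans hWb40
  have hb' : (0 : ℝ) < b := by exact_mod_cast hb.pos
  have hbB : b < B := by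
    have h2 : 2 ≤ b := hb.two_le
    have h3 : b < b ^ 3 := by
      calc b = b ^ 1 := (pow_one b).symm
        _ < b ^ 3 := Nat.pow_lt_pow_right (by omega) (by norm_num)
    omega
  have hbB' : (b : ℝ) < B := by exact_mod_cast hbB
  have hB' : (0 : ℝ) < B := by linarith
  have hWb' : (W : ℝ) < b := by
    have := hWk 2 (by norm_num)
    nlinarith
  have hWb : W < b := by exact_mod_cast hWb'
  have hPB : P0 < B := by
    have h1 : (P : ℝ) < B := by linarith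
    have h2 : P < B := by exact_mod_cast h1
    omega
  have hf4 : f + 0.4 * κ ≤ 0.006 := by
    norm_num at hf1 hκ1 ⊢
    linarith
  have hW2B : 4 * (W : ℝ) ^ 2 ≤ B := by
    have h3 := hWk 3 (by norm_num)
    have : 4 * (W : ℝ) ^ 2 ≤ (W : ℝ) ^ 3 := by
      have h4 : 0 < (W : ℝ) ^ 2 := by positivity
      nlinarith
    linarith
  have h3W : 3 * W ≤ B := by
    have : (3 : ℝ) * W ≤ B := by nlinarith
    exact_mod_cast this
  obtain ⟨F, hF⟩ : ∃ F, F = GP P0 PP κ f b B W M0 x y := ⟨_, rfl⟩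
  obtain ⟨I, hI⟩ : ∃ I : ℕ × ℕ → Finset ℕ, ∀ p, I p = IP P0 PP κ f b B W M0 x y p :=
    ⟨_, fun _ => rfl⟩
  obtain ⟨ρ, hρ⟩ : ∃ ρ : ℕ × ℕ → ℝ, ∀ p, ρ p = rhoP P0 PP κ f b B W M0 x y p :=
    ⟨_, fun _ => rfl⟩
  have hρ' : ∀ p, ρ p = ((I p).card : ℝ) / (dP b B p : ℕ) := by
    intro p
    rw [hρ, hI]
    rfl
  have hpf : ∀ p ∈ F, PF P0 PP κ f b B W M0 x y p := fun p hp =>
    PF_of hκ hf hf4 hb hB hbB hWb hPB hP0 (fun r hr => (hPP r hr).1) h3W (hF ▸ hp)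
  obtain ⟨E, hE⟩ : ∃ E : ℝ, E = EE P0 PP κ f b B W M0 x y := ⟨_, rfl⟩
  rw [← hE] at hE1
  have hEsum : E = ∑ p ∈ F, ρ p := by
    rw [hE, EE_eq, ← hF]
    exact sum_congr rfl fun p _ => (hρ p).symm
  have hE0 : 0 < E := by linarith
  -- sizes
  have hκb : 10 ≤ κ * b := by
    have h1 : 1 ≤ κ * W := by
      have h2 : (P : ℝ) ≤ κ * W := by
        rw [hPz, mul_comm]
        exact mul_le_mul_of_nonneg_left hzW hκ.le
      linarith
    have h3 := hWk 2 (by norm_num)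
    calc (10 : ℝ) ≤ (κ * W) * W := by nlinarith
      _ = κ * (W : ℝ) ^ 2 := by ring
      _ ≤ κ * b := mul_le_mul_of_nonneg_left h3 hκ.le
  have hd66 : ∀ p ∈ F, 0.1 * κ * b ≤ (dP b B p : ℕ) := by
    intro p hp
    have h1 := (hpf p hp).dge
    have h2 : κ * (b : ℝ) ≤ κ * B := mul_le_mul_of_nonneg_left hbB'.le hκ.le
    have h3 : 0 < κ * (b : ℝ) := by positivity
    linarith
  have hρle : ∀ p ∈ F, ρ p ≤ b / B := by
    intro p hp
    have hd := (hpf p hp).dpos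
    have hd' : (0 : ℝ) < (dP b B p : ℕ) := by exact_mod_cast hd
    rw [hρ', div_le_div_iff₀ hd' hB']
    have h1 := (hpf p hp).card
    rw [← hI] at h1
    have h2 := (hpf p hp).dge
    have h3 : ((I p).card : ℝ) * B ≤ (0.1 * κ * b + 1) * B := mul_le_mul_of_nonneg_right h1 hB'.le
    have h4 : (b : ℝ) * (66 * κ * B) ≤ b * (dP b B p : ℕ) := mul_le_mul_of_nonneg_left h2 hb'.le
    have h5 : B * 10 ≤ B * (κ * b) := mul_le_mul_of_nonneg_left hκb hB'.le
    nlinarith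
  have hρ1 : ∀ p ∈ F, ρ p ≤ 1 := by
    intro p hp
    refine (hρle p hp).trans ?_
    rw [div_le_one hB']
    exact hbB'.le
  have hρ0 : ∀ p, 0 ≤ ρ p := by
    intro p
    rw [hρ']
    exact div_nonneg (Nat.cast_nonneg _) (Nat.cast_nonneg _)
  have hinv : ∀ p ∈ F, 1 / ((dP b B p : ℕ) : ℝ) ≤ 1 / (κ * B) := by
    intro p hp
    refine one_div_le_one_div_of_le (by positivity) ?_
    have h1 := (hpf p hp).dge
    have : 0 < κ * (B : ℝ) := by positivity
    linarith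
  obtain ⟨X, hXX⟩ : ∃ X : ℕ × ℕ → ℕ → ℝ, ∀ p m, X p m = cntD b p.1 (dP b B p) (I p) m :=
    ⟨_, fun _ _ => rfl⟩
  have hXn : ∀ p m, 0 ≤ X p m := by
    intro p m
    rw [hXX]
    exact cntD_nonneg _ _ _ _ _
  have hX1' : ∀ p ∈ F, ∀ m, X p m ≤ 1 := by
    intro p hp m
    rw [hXX]
    refine cntD_le_one _ _ _ _ _ (hpf p hp).cops ?_
    intro u hu v hv
    rw [hI] at hu hv
    have h1 := (hpf p hp).diam u hu v hv
    have h2 := hd66 p hp
    have h3 : (u : ℝ) < ((v + dP b B p : ℕ) : ℝ) := by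
      push_cast
      linarith
    exact_mod_cast h3
  -- the off diagonal total
  obtain ⟨G, hGdef⟩ : ∃ G : ℝ, G = ∑ p ∈ F, ∑ q ∈ F.erase p,
      ((Nat.gcd (b * p.2 - B * p.1) (b * q.2 - B * q.1) : ℕ) : ℝ) := ⟨_, rfl⟩
  have hGle : G ≤ (W : ℝ) ^ 2 * (84 * (W : ℝ) ^ 4 * (B / b) ^ 2 * (1 + Real.log B)) := by
    rw [hGdef]
    exact gcd_totalP F (fun p hp => (hpf p hp).ok) hb hB hbB hW2n hWb
  obtain ⟨K, hK⟩ : ∃ K : ℝ, K = (b : ℝ) / B * (2 * P) * (1 / (κ * B)) := ⟨_, rfl⟩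
  have hK0 : 0 ≤ K := by rw [hK]; positivity
  have hB1 : (1 : ℝ) ≤ B := by exact_mod_cast hB.one_lt.le
  have hB1n : 1 ≤ B := hB.one_lt.le
  have hlogB0 : 0 ≤ Real.log B := Real.log_nonneg hB1
  have hlogB : Real.log B ≤ W := by
    rcases le_total (Real.log B) 1 with h | h
    · linarith
    · calc Real.log B = Real.log B ^ 1 := (pow_one _).symm
        _ ≤ Real.log B ^ 16 := pow_le_pow_right₀ h (by norm_num)
        _ ≤ W := hBW
  have hKG : K * G ≤ 1 := by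
    have h1 : K * G ≤ K * ((W : ℝ) ^ 2 * (84 * (W : ℝ) ^ 4 * (B / b) ^ 2 * (1 + Real.log B))) :=
      mul_le_mul_of_nonneg_left hGle hK0
    have h2 : K * ((W : ℝ) ^ 2 * (84 * (W : ℝ) ^ 4 * (B / b) ^ 2 * (1 + Real.log B)))
        = 168 * z * (W : ℝ) ^ 6 * (1 + Real.log B) / b := by
      rw [hK, hPz]
      field_simp
      ring
    rw [h2] at h1
    refine h1.trans ?_
    rw [div_le_one hb']
    have h3 : 168 * z * (W : ℝ) ^ 6 * (1 + Real.log B) ≤ 168 * W * (W : ℝ) ^ 6 * (2 * W) := by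
      have h4 : 1 + Real.log B ≤ 2 * W := by linarith
      gcongr
    have h5 := hWk 9 (by norm_num)
    have h6 : 168 * (W : ℝ) * (W : ℝ) ^ 6 * (2 * W) ≤ W ^ 9 := by
      have h7 : 168 * (W : ℝ) * (W : ℝ) ^ 6 * (2 * W) = 336 * (W : ℝ) ^ 8 := by ring
      have h8 : (W : ℝ) ^ 9 = W * W ^ 8 := by ring
      have h9 : 0 < (W : ℝ) ^ 8 := by positivity
      rw [h7, h8]
      exact mul_le_mul_of_nonneg_right (by linarith) h9.le
    linarith
  -- the errors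
  obtain ⟨θ, hθ⟩ : ∃ θ : ℝ, θ = η * (B : ℝ) ^ 4 := ⟨_, rfl⟩
  have hθ0 : 0 ≤ θ := by rw [hθ]; positivity
  have hηm : ∀ m : ℕ, m ≤ B ^ 4 → η * m ≤ θ := by
    intro m hm
    rw [hθ]
    have : (m : ℝ) ≤ (B : ℝ) ^ 4 := by exact_mod_cast hm
    exact mul_le_mul_of_nonneg_left this hη
  have hres : ∀ m : ℕ, 0 < m → m ≤ B ^ 4 → Nat.Coprime m P → ∀ g : ℕ → ℝ,
      (∀ y, g (y % m) = g y) → (∀ y, 0 ≤ g y) → (∀ y, g y ≤ 1) →
      |∑ n ∈ S, g (M n) - A / m * ∑ r ∈ range m, g r| ≤ θ := by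
    intro m hm hmB hmP g hg hg0 hg1
    exact (residue_sum S M A η m hm (fun r => hS m r hm hmB (hPdef ▸ hmP)) g hg hg0 hg1).trans
      (hηm m hmB)
  have hcopP : ∀ p ∈ F, Nat.Coprime (dP b B p) P := by
    intro p hp
    rw [hPdef]
    exact (hpf p hp).copP.symm
  have hcard : (S.card : ℝ) ≤ A + θ := by
    have h1 := hres 1 one_pos (Nat.one_le_pow _ _ hB.pos) (Nat.coprime_one_left P) (fun _ => 1)
      (fun _ => rfl) (fun _ => zero_le_one) (fun _ => le_rfl)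
    rw [sum_const, nsmul_eq_mul, mul_one, sum_const, card_range, Nat.cast_one, div_one,
      nsmul_eq_mul, Nat.cast_one, mul_one, mul_one] at h1
    have := (abs_le.1 h1).2
    linarith
  have hfirst : ∀ p ∈ F, |∑ n ∈ S, X p (M n) - ρ p * A| ≤ θ := by
    intro p hp
    have hd := (hpf p hp).dpos
    have hd' : (0 : ℝ) < (dP b B p : ℕ) := by exact_mod_cast hd
    have hdB4 : dP b B p ≤ B ^ 4 :=
      ((hpf p hp).dle).trans (Nat.pow_le_pow_right hB.pos (by norm_num))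
    have h1 := hres _ hd hdB4 (hcopP p hp) (X p)
      (fun y => by rw [hXX, hXX, cntD_mod _ _ _ _ _ _ dvd_rfl]) (hXn p) (hX1' p hp)
    have h2 : ∑ r ∈ range (dP b B p), X p r
        = ((I p).card : ℝ) / (dP b B p : ℕ) * (dP b B p : ℕ) := by
      rw [← sum_cntD b p.1 (dP b B p) (I p) (dP b B p) hd (hpf p hp).copb dvd_rfl]
      exact sum_congr rfl fun r _ => hXX p r
    rw [h2] at h1
    have h3 : A / (dP b B p : ℕ) * (((I p).card : ℝ) / (dP b B p : ℕ) * (dP b B p : ℕ))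
        = ρ p * A := by
      rw [div_mul_cancel₀ _ hd'.ne', hρ']
      ring
    rw [h3] at h1
    exact h1
  have hmix : ∀ p ∈ F, ∀ q ∈ F, ∑ n ∈ S, X p (M n) * X q (M n)
      ≤ (ρ p * ρ q
          + K * (Nat.gcd (b * p.2 - B * p.1) (b * q.2 - B * q.1) : ℕ)) * A + θ := by
    intro p hp q hq
    have hdp := (hpf p hp).dpos
    have hdq := (hpf q hq).dpos
    have hm0 : 0 < dP b B p * dP b B q := Nat.mul_pos hdp hdq
    have hmB : dP b B p * dP b B q ≤ B ^ 4 := by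
      calc dP b B p * dP b B q ≤ B ^ 2 * B ^ 2 :=
            Nat.mul_le_mul (hpf p hp).dle (hpf q hq).dle
        _ = B ^ 4 := by ring
    have hm0' : (0 : ℝ) < (dP b B p * dP b B q : ℕ) := by exact_mod_cast hm0
    have hdp' : (0 : ℝ) < (dP b B p : ℕ) := by exact_mod_cast hdp
    have hdq' : (0 : ℝ) < (dP b B q : ℕ) := by exact_mod_cast hdq
    have h1 := hres _ hm0 hmB ((hcopP p hp).mul_left (hcopP q hq)) (fun y => X p y * X q y)
      (fun y => by
        rw [hXX, hXX, hXX, hXX, cntD_mod _ _ _ _ _ _ (dvd_mul_right _ _),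
          cntD_mod _ _ _ _ _ _ (dvd_mul_left _ _)])
      (fun y => mul_nonneg (hXn p y) (hXn q y))
      (fun y => mul_le_one₀ (hX1' p hp y) (hXn q y) (hX1' q hq y))
    obtain ⟨g, hg⟩ : ∃ g : ℕ, g = Nat.gcd (dP b B p) (dP b B q) := ⟨_, rfl⟩
    have hg0 : 0 < g := by rw [hg]; exact Nat.gcd_pos_of_pos_left _ hdp
    have hg' : (0 : ℝ) < g := by exact_mod_cast hg0
    have hcg : Nat.Coprime P g := by
      rw [hg]
      exact (Nat.Coprime.coprime_dvd_left (Nat.gcd_dvd_left _ _) (hcopP p hp)).symm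
    have h2 := sum_cntD_mul b p.1 (dP b B p) (I p) q.1 (dP b B q) (I q)
      (dP b B p * dP b B q) (((I q).card : ℝ) / g + 2 * P) hdp hdq (hpf p hp).copb
      (hpf q hq).copb dvd_rfl
      (Nat.Coprime.coprime_dvd_right (Nat.gcd_dvd_right _ _) (hpf q hq).cops) (by
        rw [← hg]
        intro T hT hc
        obtain ⟨lo, hi, Q, hdec, hQ, hform⟩ := (hpf q hq).form
        rw [hI, hform] at hT ⊢
        rw [← hPdef] at hQ
        exact card_period_le lo hi P g hP hg0 hcg Q hQ T hT hc)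
    rw [← hg] at h2
    have h3 : ∑ r ∈ range (dP b B p * dP b B q), X p r * X q r
        ≤ (ρ p * ρ q + K * (g : ℕ)) * (dP b B p * dP b B q : ℕ) := by
      refine le_trans (le_of_eq (sum_congr rfl fun r _ => ?_)) (h2.trans ?_)
      · rw [hXX, hXX]
      · refine mul_le_mul_of_nonneg_right ?_ hm0'.le
        have e1 : (g : ℝ) / ((dP b B p : ℕ) * (dP b B q : ℕ)) *
            (((I p).card : ℝ) * (((I q).card : ℝ) / g + 2 * P))
            = ρ p * ρ q + ρ p * (2 * P) * (1 / (dP b B q : ℕ)) * g := by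
          rw [hρ', hρ']
          exact alg_mix _ _ _ _ _ _ hg'.ne' hdp'.ne' hdq'.ne'
        rw [e1]
        have e2 : ρ p * (2 * P) * (1 / ((dP b B q : ℕ) : ℝ)) * g ≤ K * g := by
          refine mul_le_mul_of_nonneg_right ?_ hg'.le
          rw [hK]
          exact mul_le_mul (mul_le_mul_of_nonneg_right (hρle p hp) (by positivity)) (hinv q hq)
            (one_div_nonneg.2 hdq'.le) (by positivity)
        linarith
    have h4 := (abs_le.1 h1).2
    have h5 : A / (dP b B p * dP b B q : ℕ) *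
        ∑ r ∈ range (dP b B p * dP b B q), X p r * X q r
        ≤ (ρ p * ρ q + K * (g : ℕ)) * A := by
      refine (mul_le_mul_of_nonneg_left h3 (by positivity)).trans (le_of_eq ?_)
      field_simp
    have h6 : Nat.gcd (b * p.2 - B * p.1) (b * q.2 - B * q.1) = g := hg.symm
    rw [h6]
    linarith
  -- the second moment
  have hsm := sm_half F S S' (fun p n => X p (M n)) ρ A θ 1 hS' hcard (fun p hp => by
      have := (abs_le.1 (hfirst p hp)).1
      linarith) (fun p hp => by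
      have h1 := (abs_le.1 (hfirst p hp)).2
      have h2 : ∑ n ∈ S, X p (M n) * X p (M n) ≤ ∑ n ∈ S, X p (M n) := by
        refine sum_le_sum fun n _ => ?_
        have a0 := hXn p (M n)
        have a1 := hX1' p hp (M n)
        nlinarith
      linarith) ?_ (by rw [← hEsum]; exact hE0.le) (by
      intro n hn
      have h1 := hhalf n hn
      rw [count_eq, ← hE, ← hF] at h1
      rw [← hEsum]
      refine le_trans (le_of_eq (sum_congr rfl fun p _ => ?_)) h1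
      rw [hXX, hI])
  · rw [← hEsum] at hsm
    rw [← hE]
    have hN : (F.card : ℝ) ≤ (B : ℝ) ^ 2 := by
      have h1 : F ⊆ Icc 1 W ×ˢ Icc 1 (3 * B * W) := by
        intro p hp
        obtain ⟨D0, hD0⟩ := mem_GP (hF ▸ hp)
        obtain ⟨⟨m1, m2, _⟩, _, _⟩ := mem_Fam.1 hD0
        rw [mem_product]
        exact ⟨m1, m2⟩
      have h2 := card_le_card h1
      rw [card_product, Nat.card_Icc, Nat.card_Icc, Nat.add_sub_cancel, Nat.add_sub_cancel] at h2
      have h3 : (F.card : ℝ) ≤ W * (3 * B * W) := by exact_mod_cast h2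
      have h4 : (W : ℝ) * (3 * B * W) ≤ B * (4 * (W : ℝ) ^ 2) := by
        have : 0 ≤ (B : ℝ) * (W : ℝ) ^ 2 := by positivity
        nlinarith
      have h5 : (B : ℝ) * (4 * (W : ℝ) ^ 2) ≤ B * B := mul_le_mul_of_nonneg_left hW2B hB'.le
      nlinarith
    have hNsq : (F.card : ℝ) ≤ (F.card : ℝ) ^ 2 := by
      rcases Nat.eq_zero_or_pos F.card with h | h
      · rw [h]; norm_num
      · have : (1 : ℝ) ≤ F.card := by exact_mod_cast h
        nlinarith
    have hEN : E ≤ F.card := by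
      rw [hEsum]
      have h3 := sum_le_sum hρ1
      rw [sum_const, nsmul_eq_mul, mul_one] at h3
      exact h3
    have hN0 : (0 : ℝ) ≤ F.card := Nat.cast_nonneg _
    have hB4 : (F.card : ℝ) ^ 2 ≤ (B : ℝ) ^ 4 := by
      calc (F.card : ℝ) ^ 2 ≤ ((B : ℝ) ^ 2) ^ 2 := pow_le_pow_left₀ hN0 hN 2
        _ = (B : ℝ) ^ 4 := by ring
    have hcoef : (F.card : ℝ) ^ 2 + F.card + 2 * E * F.card + E ^ 2 ≤ 5 * (B : ℝ) ^ 4 := by
      have h1 : E * F.card ≤ (F.card : ℝ) ^ 2 := by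
        rw [sq]
        exact mul_le_mul_of_nonneg_right hEN hN0
      have h2 : E ^ 2 ≤ (F.card : ℝ) ^ 2 := pow_le_pow_left₀ hE0.le hEN 2
      linarith
    have h1 : (S'.card : ℝ) * (E ^ 2 / 4) ≤ 2 * E * A + θ * (5 * (B : ℝ) ^ 4) := by
      refine hsm.trans (add_le_add ?_ (mul_le_mul_of_nonneg_left hcoef hθ0))
      exact mul_le_mul_of_nonneg_right (by linarith) hA
    have h2 : (S'.card : ℝ) ≤ 8 * A / E + 4 * (θ * (5 * (B : ℝ) ^ 4)) / E ^ 2 := by
      have h3 : (S'.card : ℝ) ≤ (2 * E * A + θ * (5 * (B : ℝ) ^ 4)) / (E ^ 2 / 4) := by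
        rw [le_div_iff₀ (by positivity)]
        exact h1
      refine h3.trans (le_of_eq ?_)
      field_simp
      ring
    refine h2.trans (add_le_add le_rfl ?_)
    rw [hθ]
    have hEsq : 1 ≤ E ^ 2 := by nlinarith
    have h20B : (20 : ℝ) ≤ B := by linarith
    have hnum : 0 ≤ 4 * (η * (B : ℝ) ^ 4 * (5 * (B : ℝ) ^ 4)) := by positivity
    calc 4 * (η * (B : ℝ) ^ 4 * (5 * (B : ℝ) ^ 4)) / E ^ 2
        ≤ 4 * (η * (B : ℝ) ^ 4 * (5 * (B : ℝ) ^ 4)) := div_le_self hnum hEsq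
      _ = η * (20 * (B : ℝ) ^ 8) := by ring
      _ ≤ η * (B * (B : ℝ) ^ 8) := by gcongr
      _ = η * (B : ℝ) ^ 9 := by ring
      _ ≤ η * (B : ℝ) ^ 40 :=
          mul_le_mul_of_nonneg_left (pow_le_pow_right₀ hB1 (by norm_num)) hη
  · have h1 : ∀ p ∈ F, ∑ q ∈ F.erase p, ∑ n ∈ S, X p (M n) * X q (M n)
        ≤ ∑ q ∈ F.erase p, ((ρ p * ρ q
          + K * (Nat.gcd (b * p.2 - B * p.1) (b * q.2 - B * q.1) : ℕ)) * A + θ) := by
      intro p hp
      refine sum_le_sum fun q hq => ?_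
      rw [mem_erase] at hq
      exact hmix p hp q hq.2
    refine (sum_le_sum h1).trans ?_
    have h2 : ∑ p ∈ F, ∑ q ∈ F.erase p, ((ρ p * ρ q
          + K * (Nat.gcd (b * p.2 - B * p.1) (b * q.2 - B * q.1) : ℕ)) * A + θ)
        = (∑ p ∈ F, ∑ q ∈ F.erase p, ρ p * ρ q + K * G) * A
          + ∑ p ∈ F, ∑ q ∈ F.erase p, θ := by
      rw [hGdef, mul_sum, ← sum_add_distrib, sum_mul, ← sum_add_distrib]
      refine sum_congr rfl fun p _ => ?_
      rw [mul_sum, ← sum_add_distrib, sum_mul, ← sum_add_distrib]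
    rw [h2]
    refine add_le_add (mul_le_mul_of_nonneg_right ?_ hA) ?_
    · have h3 : ∑ p ∈ F, ∑ q ∈ F.erase p, ρ p * ρ q ≤ (∑ p ∈ F, ρ p) ^ 2 := by
        rw [sq, sum_mul_sum]
        refine sum_le_sum fun p _ => ?_
        exact sum_le_sum_of_subset_of_nonneg (erase_subset _ _) fun q _ _ =>
          mul_nonneg (hρ0 p) (hρ0 q)
      linarith
    · have h4 : ∀ p ∈ F, ∑ q ∈ F.erase p, θ ≤ F.card * θ := by
        intro p _
        rw [sum_const, nsmul_eq_mul]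
        refine mul_le_mul_of_nonneg_right ?_ hθ0
        exact_mod_cast card_le_card (erase_subset p F)
      refine (sum_le_sum h4).trans (le_of_eq ?_)
      rw [sum_const, nsmul_eq_mul]
      ring

end Pool.Agent.MR2
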