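import Pool.Agent.Lib.MR2.SM2

/-! Row M_SMM, part 1: counting functions over general sets, periodic sets, gcd sums. -/

set_option autoImplicit false

namespace Pool.Agent.MR2

open Finset Pool.Agent.Lib.PO69

/-! ## Counting functions -/

/-- number of the `D ∈ I` with `d ∣ b M + w D`. -/
def cntD (b w d : ℕ) (I : Finset ℕ) (M : ℕ) : ℝ :=
  ((I.filter (fun D => d ∣ b * M + w * D)).card : ℝ)

theorem cntD_eq_sum (b w d : ℕ) (I : Finset ℕ) (M : ℕ) :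
    cntD b w d I M = ∑ D ∈ I, if d ∣ b * M + w * D then (1 : ℝ) else 0 := by
  unfold cntD
  rw [card_filter]
  push_cast
  rfl

theorem cntD_nonneg (b w d : ℕ) (I : Finset ℕ) (M : ℕ) : 0 ≤ cntD b w d I M := by
  unfold cntD; positivity

theorem sum_cntD (b w d : ℕ) (I : Finset ℕ) (Q : ℕ) (hd : 0 < d) (hb : Nat.Coprime b d)
    (hdQ : d ∣ Q) : ∑ M ∈ range Q, cntD b w d I M = (I.card : ℝ) / d * Q := by
  simp_rw [cntD_eq_sum]
  rw [sum_comm]
  have : ∀ D ∈ I, (∑ M ∈ range Q, if d ∣ b * M + w * D then (1 : ℝ) else 0)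
      = (Q : ℝ) / d := by
    intro D _
    rw [← card_one b d (w * D) Q hd hb hdQ, card_filter]
    push_cast
    rfl
  rw [sum_congr rfl this, sum_const, nsmul_eq_mul]
  ring

theorem cntD_le_one (b w d : ℕ) (I : Finset ℕ) (M : ℕ) (hw : Nat.Coprime w d)
    (h : ∀ x ∈ I, ∀ y ∈ I, x < y + d) : cntD b w d I M ≤ 1 := by
  classical
  unfold cntD
  have : (I.filter (fun D => d ∣ b * M + w * D)).card ≤ 1 := by
    rw [card_le_one]
    intro x hx y hy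
    rw [mem_filter] at hx hy
    have h1 : x ≡ y [MOD d] := by
      refine congr_of_dvd (b := w) (a := b * M) hw ?_ ?_
      · rw [add_comm]; exact hx.2
      · rw [add_comm]; exact hy.2
    have hxy' := h x hx.1 y hy.1
    have hyx' := h y hy.1 x hx.1
    rcases Nat.lt_or_ge x y with hxy | hxy
    · have := (Nat.modEq_iff_dvd' hxy.le).1 h1
      have := Nat.le_of_dvd (by omega) this
      omega
    · rcases Nat.lt_or_ge y x with hyx | hyx
      · have := (Nat.modEq_iff_dvd' hyx.le).1 h1.symm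
        have := Nat.le_of_dvd (by omega) this
        omega
      · omega
  exact_mod_cast this

theorem cntD_mod (b w d : ℕ) (I : Finset ℕ) (m x : ℕ) (h : d ∣ m) :
    cntD b w d I (x % m) = cntD b w d I x := by
  unfold cntD
  have : I.filter (fun D => d ∣ b * (x % m) + w * D)
      = I.filter (fun D => d ∣ b * x + w * D) := by
    refine filter_congr fun D _ => ?_
    have h3 : b * (x % m) + w * D ≡ b * x + w * D [MOD d] :=
      Nat.ModEq.add_right _ (Nat.ModEq.mul_left _ ((Nat.mod_modEq x m).of_dvd h))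
    exact ⟨fun h4 => (Nat.modEq_zero_iff_dvd).1 (h3.symm.trans ((Nat.modEq_zero_iff_dvd).2 h4)),
      fun h4 => (Nat.modEq_zero_iff_dvd).1 (h3.trans ((Nat.modEq_zero_iff_dvd).2 h4))⟩
  rw [this]

/-- Mixed moment. -/
theorem sum_cntD_mul (b w₁ d₁ : ℕ) (I₁ : Finset ℕ) (w₂ d₂ : ℕ) (I₂ : Finset ℕ) (Q : ℕ) (K : ℝ)
    (hd₁ : 0 < d₁) (hd₂ : 0 < d₂)
    (hb₁ : Nat.Coprime b d₁) (hb₂ : Nat.Coprime b d₂) (hQ : d₁ * d₂ ∣ Q)
    (hw : Nat.Coprime w₂ (Nat.gcd d₁ d₂))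
    (hK : ∀ T ⊆ I₂, (∀ x ∈ T, ∀ y ∈ T, x ≡ y [MOD Nat.gcd d₁ d₂]) → (T.card : ℝ) ≤ K) :
    ∑ M ∈ range Q, cntD b w₁ d₁ I₁ M * cntD b w₂ d₂ I₂ M
      ≤ ((Nat.gcd d₁ d₂ : ℕ) : ℝ) / ((d₁ : ℝ) * d₂) * ((I₁.card : ℝ) * K) * Q := by
  classical
  set g := Nat.gcd d₁ d₂ with hg
  have hg0 : 0 < g := Nat.gcd_pos_of_pos_left _ hd₁
  have hg' : (0 : ℝ) < g := by exact_mod_cast hg0
  have hd₁' : (0 : ℝ) < d₁ := by exact_mod_cast hd₁
  have hd₂' : (0 : ℝ) < d₂ := by exact_mod_cast hd₂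
  have hlcm : 0 < Nat.lcm d₁ d₂ := Nat.lcm_pos hd₁ hd₂
  have hlcmQ : Nat.lcm d₁ d₂ ∣ Q :=
    (Nat.lcm_dvd (dvd_mul_right _ _) (dvd_mul_left _ _)).trans hQ
  have hgl : (g : ℝ) * (Nat.lcm d₁ d₂ : ℕ) = (d₁ : ℝ) * d₂ := by
    have := Nat.gcd_mul_lcm d₁ d₂
    rw [hg]
    exact_mod_cast this
  have hL' : (0 : ℝ) < (Nat.lcm d₁ d₂ : ℕ) := by exact_mod_cast hlcm
  -- expand
  have e1 : ∑ M ∈ range Q, cntD b w₁ d₁ I₁ M * cntD b w₂ d₂ I₂ M
      = ∑ D ∈ I₁, ∑ D' ∈ I₂,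
        (((range Q).filter (fun M => d₁ ∣ b * M + w₁ * D ∧ d₂ ∣ b * M + w₂ * D')).card : ℝ) := by
    simp_rw [cntD_eq_sum, sum_mul_sum]
    rw [sum_comm]
    refine sum_congr rfl fun D _ => ?_
    rw [sum_comm]
    refine sum_congr rfl fun D' _ => ?_
    rw [card_filter]
    push_cast
    refine sum_congr rfl fun M _ => ?_
    by_cases h1 : d₁ ∣ b * M + w₁ * D <;> by_cases h2 : d₂ ∣ b * M + w₂ * D' <;>
      simp [h1, h2]
  rw [e1]
  -- for fixed D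
  have e2 : ∀ D ∈ I₁, ∑ D' ∈ I₂,
        (((range Q).filter (fun M => d₁ ∣ b * M + w₁ * D ∧ d₂ ∣ b * M + w₂ * D')).card : ℝ)
      ≤ K * (Q / (Nat.lcm d₁ d₂ : ℕ)) := by
    intro D _
    set S := I₂.filter (fun D' => ∃ M, d₁ ∣ b * M + w₁ * D ∧ d₂ ∣ b * M + w₂ * D')
      with hS
    have hzero : ∀ D' ∈ I₂, D' ∉ S →
        (((range Q).filter (fun M => d₁ ∣ b * M + w₁ * D ∧ d₂ ∣ b * M + w₂ * D')).card : ℝ)
          = 0 := by
      intro D' hD' hnot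
      rw [Nat.cast_eq_zero, card_eq_zero, filter_eq_empty_iff]
      intro M _ hM
      exact hnot (by rw [hS, mem_filter]; exact ⟨hD', M, hM⟩)
    have hsub : S ⊆ I₂ := filter_subset _ _
    rw [← sum_subset hsub hzero]
    have hone : ∀ D' ∈ S,
        (((range Q).filter (fun M => d₁ ∣ b * M + w₁ * D ∧ d₂ ∣ b * M + w₂ * D')).card : ℝ)
          ≤ Q / (Nat.lcm d₁ d₂ : ℕ) := by
      intro D' _
      refine card_le_of_congr Q _ hlcm hlcmQ _ (filter_subset _ _) ?_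
      intro x hx y hy
      rw [mem_filter] at hx hy
      have h1 := congr_of_dvd hb₁ hx.2.1 hy.2.1
      have h2 := congr_of_dvd hb₂ hx.2.2 hy.2.2
      rw [Nat.modEq_iff_dvd] at h1 h2 ⊢
      exact Int.natCast_dvd.2 (Nat.lcm_dvd (Int.natCast_dvd.1 h1) (Int.natCast_dvd.1 h2))
    refine (sum_le_sum hone).trans ?_
    rw [sum_const, nsmul_eq_mul]
    refine mul_le_mul_of_nonneg_right ?_ (by positivity)
    refine hK S hsub ?_
    intro x hx y hy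
    rw [hS, mem_filter] at hx hy
    obtain ⟨_, M, hM1, hM2⟩ := hx
    obtain ⟨_, M', hM1', hM2'⟩ := hy
    have h1 : M ≡ M' [MOD g] :=
      (congr_of_dvd hb₁ hM1 hM1').of_dvd (Nat.gcd_dvd_left _ _)
    have h2 : b * M + w₂ * x ≡ b * M' + w₂ * y [MOD g] :=
      ((Nat.modEq_zero_iff_dvd).2 ((Nat.gcd_dvd_right _ _).trans hM2)).trans
        ((Nat.modEq_zero_iff_dvd).2 ((Nat.gcd_dvd_right _ _).trans hM2')).symm
    have h3 : w₂ * x ≡ w₂ * y [MOD g] := Nat.ModEq.add_left_cancel (h1.mul_left b) h2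
    exact Nat.ModEq.cancel_left_of_coprime (by rwa [Nat.coprime_comm] at hw) h3
  refine (sum_le_sum e2).trans (le_of_eq ?_)
  rw [sum_const, nsmul_eq_mul, ← hgl]
  field_simp

/-! ## Periodic sets -/

theorem card_Ico_mod_ge (lo hi m v : ℕ) (hm : 0 < m) :
    ((hi - lo : ℕ) : ℝ) / m - 1 ≤ (((Ico lo hi).filter (fun D => D % m = v % m)).card : ℝ) := by
  have hm' : (0 : ℝ) < m := by exact_mod_cast hm
  rcases Nat.lt_or_ge hi lo with h | h
  · rw [Nat.sub_eq_zero_of_le h.le, Nat.cast_zero, zero_div]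
    have : (0 : ℝ) ≤ (((Ico lo hi).filter (fun D => D % m = v % m)).card : ℝ) := by positivity
    linarith
  · have h1 := Nat.Ico_filter_modEq_card lo hi hm v
    have h2 : (((Ico lo hi).filter (fun D => D % m = v % m)).card : ℤ)
        = max (⌈((hi : ℚ) - v) / (m : ℚ)⌉ - ⌈((lo : ℚ) - v) / (m : ℚ)⌉) 0 := h1
    have hmq : (0 : ℚ) < m := by exact_mod_cast hm
    have h3 : ((hi : ℚ) - v) / m ≤ ⌈((hi : ℚ) - v) / (m : ℚ)⌉ := Int.le_ceil _
    have h4 : (⌈((lo : ℚ) - v) / (m : ℚ)⌉ : ℚ) < ((lo : ℚ) - v) / m + 1 := Int.ceil_lt_add_one _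
    have h5 : (((Ico lo hi).filter (fun D => D % m = v % m)).card : ℤ)
        ≥ ⌈((hi : ℚ) - v) / (m : ℚ)⌉ - ⌈((lo : ℚ) - v) / (m : ℚ)⌉ := by
      rw [h2]; exact le_max_left _ _
    have h6 : ((((Ico lo hi).filter (fun D => D % m = v % m)).card : ℤ) : ℚ)
        ≥ ⌈((hi : ℚ) - v) / (m : ℚ)⌉ - ⌈((lo : ℚ) - v) / (m : ℚ)⌉ := by exact_mod_cast h5
    have h7 : ((hi : ℚ) - lo) / m - 1
        ≤ ((((Ico lo hi).filter (fun D => D % m = v % m)).card : ℕ) : ℚ) := by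
      have h8 : ((hi : ℚ) - v) / m - ((lo : ℚ) - v) / m = ((hi : ℚ) - lo) / m := by ring
      push_cast at h6
      linarith
    have h9 : ((((hi - lo : ℕ) : ℚ) / m - 1 : ℚ) : ℝ)
        ≤ (((((Ico lo hi).filter (fun D => D % m = v % m)).card : ℕ) : ℚ) : ℝ) := by
      rw [Nat.cast_sub h]
      exact_mod_cast h7
    push_cast at h9 ⊢
    exact_mod_cast h9

/-- elements of one class modulo `g` in a set that is periodic modulo `m`. -/
theorem card_period_le (lo hi m g : ℕ) (hm : 0 < m) (hg : 0 < g) (hmg : Nat.Coprime m g)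
    (Q : ℕ → Prop) [DecidablePred Q] (hQ : ∀ x, Q (x % m) ↔ Q x) (T : Finset ℕ)
    (hT : T ⊆ (Ico lo hi).filter Q) (hc : ∀ x ∈ T, ∀ y ∈ T, x ≡ y [MOD g]) :
    (T.card : ℝ) ≤ ((((Ico lo hi).filter Q).card : ℕ) : ℝ) / g + 2 * m := by
  classical
  have hm' : (0 : ℝ) < m := by exact_mod_cast hm
  have hg' : (0 : ℝ) < g := by exact_mod_cast hg
  have hg1 : (1 : ℝ) ≤ g := by exact_mod_cast hg
  set Ω := (range m).filter Q with hΩ
  set l : ℝ := ((Ico lo hi).card : ℝ) with hl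
  have hΩm : (Ω.card : ℝ) ≤ m := by
    have : Ω.card ≤ m := by
      rw [hΩ]
      exact (card_filter_le _ _).trans (by rw [card_range])
    exact_mod_cast this
  have h1 : (T.card : ℝ) ≤ Ω.card * (l / (m * g) + 1) := by
    have hmap : ∀ x ∈ T, x % m ∈ Ω := by
      intro x hx
      have := (mem_filter.1 (hT hx)).2
      rw [hΩ, mem_filter, mem_range]
      exact ⟨Nat.mod_lt _ hm, (hQ x).2 this⟩
    have h2 : (T.card : ℝ) = ∑ ω ∈ Ω, ((T.filter (fun x => x % m = ω)).card : ℝ) := by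
      rw [card_eq_sum_card_fiberwise hmap]
      push_cast
      rfl
    rw [h2, ← nsmul_eq_mul, ← sum_const]
    refine sum_le_sum fun ω _ => ?_
    have := card_le_of_congr_Ico lo hi (m * g) (Nat.mul_pos hm hg) (T.filter (fun x => x % m = ω))
      (fun x hx => (mem_filter.1 (hT (mem_filter.1 hx).1)).1) (by
        intro x hx y hy
        rw [mem_filter] at hx hy
        have a1 : x ≡ y [MOD m] := hx.2.trans hy.2.symm
        have a2 := hc x hx.1 y hy.1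
        exact (Nat.modEq_and_modEq_iff_modEq_mul hmg).1 ⟨a1, a2⟩)
    push_cast at this
    exact this
  have h3 : Ω.card * (l / m - 1) ≤ ((((Ico lo hi).filter Q).card : ℕ) : ℝ) := by
    have hmap : ∀ x ∈ (Ico lo hi).filter Q, x % m ∈ Ω := by
      intro x hx
      have := (mem_filter.1 hx).2
      rw [hΩ, mem_filter, mem_range]
      exact ⟨Nat.mod_lt _ hm, (hQ x).2 this⟩
    have h4 : ((((Ico lo hi).filter Q).card : ℕ) : ℝ)
        = ∑ ω ∈ Ω, ((((Ico lo hi).filter Q).filter (fun x => x % m = ω)).card : ℝ) := by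
      rw [card_eq_sum_card_fiberwise hmap]
      push_cast
      rfl
    rw [h4, ← nsmul_eq_mul, ← sum_const]
    refine sum_le_sum fun ω hω => ?_
    rw [hΩ, mem_filter, mem_range] at hω
    have h5 := card_Ico_mod_ge lo hi m ω hm
    rw [Nat.mod_eq_of_lt hω.1] at h5
    have h6 : ((Ico lo hi).filter Q).filter (fun x => x % m = ω)
        = (Ico lo hi).filter (fun D => D % m = ω) := by
      rw [filter_filter]
      refine filter_congr fun x _ => ?_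
      constructor
      · intro h; exact h.2
      · intro h
        refine ⟨?_, h⟩
        rw [← hQ x, h]
        exact hω.2
    rw [h6, hl, Nat.card_Ico]
    exact h5
  have hΩ0 : (0 : ℝ) ≤ Ω.card := Nat.cast_nonneg _
  have h7 : (Ω.card : ℝ) * (l / (m * g) + 1)
      = (Ω.card * (l / m - 1)) / g + (Ω.card / g + Ω.card) := by
    field_simp
    ring
  have h8 : (Ω.card : ℝ) / g ≤ Ω.card := div_le_self hΩ0 hg1
  have h9 : (Ω.card * (l / m - 1)) / g ≤ ((((Ico lo hi).filter Q).card : ℕ) : ℝ) / g :=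
    div_le_div_of_nonneg_right h3 hg'.le
  linarith

/-- a convex finite set of integers is an interval. -/
theorem exists_Ico (J : Finset ℕ) (h : ∀ x ∈ J, ∀ z ∈ J, ∀ y, x ≤ y → y ≤ z → y ∈ J) :
    ∃ lo hi : ℕ, J = Ico lo hi := by
  rcases J.eq_empty_or_nonempty with h0 | h0
  · exact ⟨0, 0, by rw [h0]; simp⟩
  · refine ⟨J.min' h0, J.max' h0 + 1, ?_⟩
    ext y
    rw [mem_Ico]
    constructor
    · intro hy
      exact ⟨min'_le _ _ hy, Nat.lt_succ_of_le (le_max' _ _ hy)⟩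
    · rintro ⟨h1, h2⟩
      exact h _ (min'_mem _ h0) _ (max'_mem _ h0) y h1 (Nat.lt_succ_iff.1 h2)

/-! ## Pairs -/

/-- a pair `(s, L)`. -/
structure PairOK (b B W : ℕ) (p : ℕ × ℕ) : Prop where
  s_pos : 0 < p.1
  L_pos : 0 < p.2
  s_le : p.1 ≤ W
  cop : p.1.Coprime p.2
  lt : B * p.1 < b * p.2
  le3 : b * p.2 ≤ 3 * (B * p.1)

theorem copP {b B s L : ℕ} (hb : b.Prime) (hB : B.Prime) (hs : 0 < s) (hbB : b < B)
    (hsb : s < b) (hsL : s.Coprime L) (hlt : B * s < b * L) :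
    Nat.Coprime b (b * L - B * s) ∧ Nat.Coprime s (b * L - B * s) ∧ Nat.Coprime b (B * s) := by
  have h := copC (P := 1) hb hB hs hbB hsb hb.one_lt le_rfl (Nat.coprime_one_right s) hsL
    (by rw [mul_one]; exact hlt)
  rw [mul_one, mul_one] at h
  exact ⟨h.1, h.2.1, h.2.2.2⟩

theorem PairOK.det_ne {b B W : ℕ} {p q : ℕ × ℕ} (hp : PairOK b B W p) (hq : PairOK b B W q)
    (hne : p ≠ q) : ((p.1 : ℤ) * q.2 - q.1 * p.2) ≠ 0 := by
  intro h0
  have h1 : p.1 * q.2 = q.1 * p.2 := by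
    have : (p.1 : ℤ) * q.2 = q.1 * p.2 := by linarith
    exact_mod_cast this
  have h2 : p.1 ∣ q.1 := by
    have : p.1 ∣ q.1 * p.2 := ⟨q.2, h1.symm⟩
    exact hp.cop.dvd_of_dvd_mul_right this
  have h3 : q.1 ∣ p.1 := by
    have : q.1 ∣ p.1 * q.2 := ⟨p.2, h1⟩
    exact hq.cop.dvd_of_dvd_mul_right this
  have h4 : p.1 = q.1 := Nat.dvd_antisymm h2 h3
  rw [h4] at h1
  have h5 := Nat.eq_of_mul_eq_mul_left hq.s_pos h1
  exact hne (Prod.ext h4 h5.symm)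

theorem PairOK.gcd_dvd_det {b B W : ℕ} {p q : ℕ × ℕ} (hp : PairOK b B W p) (hq : PairOK b B W q)
    (hcop : Nat.Coprime b (b * p.2 - B * p.1)) :
    ((Nat.gcd (b * p.2 - B * p.1) (b * q.2 - B * q.1) : ℕ) : ℤ)
      ∣ ((p.1 : ℤ) * q.2 - q.1 * p.2) := by
  set g := Nat.gcd (b * p.2 - B * p.1) (b * q.2 - B * q.1) with hg
  have h1 : (g : ℤ) ∣ (b : ℤ) * p.2 - B * p.1 := by
    have : (g : ℤ) ∣ ((b * p.2 - B * p.1 : ℕ) : ℤ) :=
      Int.natCast_dvd_natCast.2 (Nat.gcd_dvd_left _ _)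
    rw [Nat.cast_sub hp.lt.le] at this
    push_cast at this
    exact this
  have h2 : (g : ℤ) ∣ (b : ℤ) * q.2 - B * q.1 := by
    have : (g : ℤ) ∣ ((b * q.2 - B * q.1 : ℕ) : ℤ) :=
      Int.natCast_dvd_natCast.2 (Nat.gcd_dvd_right _ _)
    rw [Nat.cast_sub hq.lt.le] at this
    push_cast at this
    exact this
  have h3 : (g : ℤ) ∣ (b : ℤ) * ((p.1 : ℤ) * q.2 - q.1 * p.2) := by
    have : (b : ℤ) * ((p.1 : ℤ) * q.2 - q.1 * p.2)
        = p.1 * ((b : ℤ) * q.2 - B * q.1) - q.1 * ((b : ℤ) * p.2 - B * p.1) := by ring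
    rw [this]
    exact dvd_sub (h2.mul_left _) (h1.mul_left _)
  have h4 : IsCoprime (g : ℤ) (b : ℤ) := by
    rw [Nat.isCoprime_iff_coprime]
    exact (Nat.Coprime.coprime_dvd_right (Nat.gcd_dvd_left _ _) hcop).symm
  exact h4.dvd_of_dvd_mul_left h3

theorem PairOK.snd_le {b B W : ℕ} {p : ℕ × ℕ} (hp : PairOK b B W p) (hb : 0 < b) :
    (p.2 : ℝ) ≤ 3 * W * (B / b) := by
  have hb' : (0 : ℝ) < b := by exact_mod_cast hb
  have h1 : (b : ℝ) * p.2 ≤ 3 * (B * p.1) := by exact_mod_cast hp.le3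
  have h2 : (p.1 : ℝ) ≤ W := by exact_mod_cast hp.s_le
  have h3 : (B : ℝ) * p.1 ≤ B * W := mul_le_mul_of_nonneg_left h2 (Nat.cast_nonneg _)
  rw [mul_div_assoc', le_div_iff₀ hb']
  linarith

theorem PairOK.gcd_le {b B W : ℕ} {p q : ℕ × ℕ} (hp : PairOK b B W p) (hq : PairOK b B W q)
    (hne : p ≠ q) (hb : 0 < b) (hcop : Nat.Coprime b (b * p.2 - B * p.1)) :
    ((Nat.gcd (b * p.2 - B * p.1) (b * q.2 - B * q.1) : ℕ) : ℝ) ≤ 3 * (W : ℝ) ^ 2 * (B / b) := by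
  have hdvd := hp.gcd_dvd_det hq hcop
  have hdet := hp.det_ne hq hne
  have h1 : ((Nat.gcd (b * p.2 - B * p.1) (b * q.2 - B * q.1) : ℕ) : ℤ)
      ≤ |((p.1 : ℤ) * q.2 - q.1 * p.2)| :=
    Int.le_of_dvd (abs_pos.2 hdet) ((dvd_abs _ _).2 hdvd)
  have h2 : ((Nat.gcd (b * p.2 - B * p.1) (b * q.2 - B * q.1) : ℕ) : ℝ)
      ≤ |((p.1 : ℝ) * q.2 - q.1 * p.2)| := by
    exact_mod_cast h1
  refine h2.trans ?_
  have hp2 := hp.snd_le hb
  have hq2 := hq.snd_le hb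
  have hpW' : (p.1 : ℝ) ≤ W := by exact_mod_cast hp.s_le
  have hqW' : (q.1 : ℝ) ≤ W := by exact_mod_cast hq.s_le
  have hW0 : (0 : ℝ) ≤ W := Nat.cast_nonneg _
  have a1 : (p.1 : ℝ) * q.2 ≤ 3 * (W : ℝ) ^ 2 * (B / b) := by
    calc (p.1 : ℝ) * q.2 ≤ W * (3 * W * (B / b)) :=
          mul_le_mul hpW' hq2 (by positivity) hW0
      _ = _ := by ring
  have a2 : (q.1 : ℝ) * p.2 ≤ 3 * (W : ℝ) ^ 2 * (B / b) := by
    calc (q.1 : ℝ) * p.2 ≤ W * (3 * W * (B / b)) :=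
          mul_le_mul hqW' hp2 (by positivity) hW0
      _ = _ := by ring
  rw [abs_le]
  have a3 : (0 : ℝ) ≤ (p.1 : ℝ) * q.2 := by positivity
  have a4 : (0 : ℝ) ≤ (q.1 : ℝ) * p.2 := by positivity
  constructor <;> linarith

/-- size of the gcd total for fixed `(s, s')`. -/
theorem T_leP (W0 B b : ℕ) (hW : 1 ≤ W0) (hb : 0 < b) (hbB : b < B) :
    (3 * (W0 : ℝ) * (B / b)) ^ 2 * (1 + Real.log (⌊3 * (W0 : ℝ) ^ 2 * (B / b)⌋₊ : ℕ))
      + 2 * (3 * (W0 : ℝ) * (B / b)) * (⌊3 * (W0 : ℝ) ^ 2 * (B / b)⌋₊ : ℕ)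
      + ((⌊3 * (W0 : ℝ) ^ 2 * (B / b)⌋₊ : ℕ) : ℝ) ^ 2
      ≤ 84 * (W0 : ℝ) ^ 4 * (B / b) ^ 2 * (1 + Real.log B) := by
  have h := T_le W0 B b hW hb hbB
  have hb' : (0 : ℝ) < b := by exact_mod_cast hb
  have hbB' : (b : ℝ) < B := by exact_mod_cast hbB
  have hr1 : 1 ≤ (B : ℝ) / b := by
    rw [le_div_iff₀ hb']; linarith
  have hW' : (1 : ℝ) ≤ W0 := by exact_mod_cast hW
  set G : ℕ := ⌊3 * (W0 : ℝ) ^ 2 * (B / b)⌋₊ with hG
  have hG1 : 1 ≤ G := by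
    rw [hG]
    apply Nat.le_floor
    push_cast
    nlinarith [mul_le_mul hW' hW' (by norm_num) (by linarith)]
  have hG1' : (1 : ℝ) ≤ G := by exact_mod_cast hG1
  have hlog : 0 ≤ Real.log G := Real.log_nonneg hG1'
  set r : ℝ := (B : ℝ) / b with hr
  have hB1 : (1 : ℝ) ≤ B := by
    have : 1 ≤ B := by omega
    exact_mod_cast this
  have hlB : 0 ≤ Real.log B := Real.log_nonneg hB1
  have c1 : 0 ≤ (W0 : ℝ) * r := by positivity
  have c2 : 0 ≤ (W0 : ℝ) * r * G := by positivity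
  have c3 : 0 ≤ (W0 : ℝ) ^ 4 * r ^ 2 * (1 + Real.log B) := by positivity
  have c4 : (3 * (W0 : ℝ) * r) ^ 2 * (1 + Real.log G)
      = 2.25 * ((2 * (W0 : ℝ) * r) ^ 2 * (1 + Real.log G)) := by ring
  have c5 : 2 * (3 * (W0 : ℝ) * r) * G = 1.5 * (2 * (2 * (W0 : ℝ) * r) * G) := by ring
  have c6 : 0 ≤ (2 * (W0 : ℝ) * r) ^ 2 * (1 + Real.log G) := by positivity
  have c7 : 0 ≤ (G : ℝ) ^ 2 := sq_nonneg _
  rw [c4, c5]
  nlinarith

/-- upper bound of the sum of the gcd's. -/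
theorem gcd_totalP {b B W : ℕ} (F : Finset (ℕ × ℕ)) (hF : ∀ p ∈ F, PairOK b B W p)
    (hb : b.Prime) (hB : B.Prime) (hbB : b < B) (hW2 : 2 ≤ W) (hWb : W < b) :
    ∑ p ∈ F, ∑ q ∈ F.erase p,
      ((Nat.gcd (b * p.2 - B * p.1) (b * q.2 - B * q.1) : ℕ) : ℝ)
      ≤ (W : ℝ) ^ 2 * (84 * (W : ℝ) ^ 4 * (B / b) ^ 2 * (1 + Real.log B)) := by
  classical
  have hb' : (0 : ℝ) < b := by exact_mod_cast hb.pos
  have hbB' : (b : ℝ) < B := by exact_mod_cast hbB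
  have hB' : (0 : ℝ) < B := by linarith
  have hB1 : (1 : ℝ) ≤ B := by exact_mod_cast hB.one_lt.le
  have hlog : 0 ≤ Real.log B := Real.log_nonneg hB1
  have hr1 : 1 ≤ (B : ℝ) / b := by
    rw [le_div_iff₀ hb']; linarith
  have hW2' : (2 : ℝ) ≤ W := by exact_mod_cast hW2
  have h0 := off_total F (Icc 1 W)
    (84 * (W : ℝ) ^ 4 * (B / b) ^ 2 * (1 + Real.log B))
    (fun p q => ((Nat.gcd (b * p.2 - B * p.1) (b * q.2 - B * q.1) : ℕ) : ℝ)) ?_ ?_
  · refine h0.trans (le_of_eq ?_)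
    rw [Nat.card_Icc, Nat.add_sub_cancel]
  · intro p hp
    rw [mem_Icc]
    exact ⟨(hF p hp).s_pos, (hF p hp).s_le⟩
  · intro s hs s' hs' A hA0
    rw [mem_Icc] at hs hs'
    by_cases hAe : A = ∅
    · rw [hAe, sum_empty]
      positivity
    obtain ⟨x0, hx0⟩ := nonempty_iff_ne_empty.2 hAe
    have c1 := hF _ (hA0 x0 hx0).1
    have c2 := hF _ (hA0 x0 hx0).2.1
    have hsb : s < b := by omega
    have hsb' : s' < b := by omega
    obtain ⟨_, _, p4⟩ := copP (L := x0.1) hb hB hs.1 hbB hsb c1.cop c1.lt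
    obtain ⟨_, _, q4⟩ := copP (L := x0.2) hb hB hs'.1 hbB hsb' c2.cop c2.lt
    -- windows
    have hwin : ∀ u : ℕ, u ≤ W → ((3 * B * u / b + 1 - B * u / b : ℕ) : ℝ) ≤ 3 * W * (B / b) := by
      intro u hu
      have hu' : (u : ℝ) ≤ W := by exact_mod_cast hu
      have hle : B * u / b ≤ 3 * B * u / b + 1 := by
        refine le_trans (Nat.div_le_div_right ?_) (Nat.le_succ _)
        rw [mul_assoc]
        omega
      rw [Nat.cast_sub hle]
      have h1 : ((3 * B * u / b : ℕ) : ℝ) ≤ (3 * B * u : ℕ) / (b : ℝ) := Nat.cast_div_le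
      have h2 : ((B * u : ℕ) : ℝ) / b < ((B * u / b : ℕ) : ℝ) + 1 := by
        have := Nat.lt_floor_add_one (((B * u : ℕ) : ℝ) / b)
        rwa [Nat.floor_div_eq_div] at this
      push_cast at h1 h2 ⊢
      have h3 : (3 * (B : ℝ) * u) / b - B * u / b = 2 * (u * (B / b)) := by ring
      have h4 : (u : ℝ) * (B / b) ≤ W * (B / b) := mul_le_mul_of_nonneg_right hu' (by positivity)
      have h5 : (2 : ℝ) ≤ W * (B / b) := by nlinarith
      linarith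
    have hrange : ∀ u : ℕ, ∀ L : ℕ, PairOK b B W (u, L) →
        B * u / b ≤ L ∧ L < 3 * B * u / b + 1 := by
      intro u L h
      have h1 := h.lt
      have h2 := h.le3
      simp only at h1 h2
      refine ⟨Nat.div_le_of_le_mul h1.le, Nat.lt_succ_of_le ?_⟩
      rw [Nat.le_div_iff_mul_le hb.pos, mul_comm L b, mul_assoc]
      exact h2
    have hmain := gcd_sum' b B s s' (B * s / b) (3 * B * s / b + 1) (B * s' / b)
      (3 * B * s' / b + 1) ⌊3 * (W : ℝ) ^ 2 * (B / b)⌋₊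
      (3 * (W : ℝ) * (B / b)) p4 q4 A (by
        intro x hx
        obtain ⟨hF1, hF2, hne⟩ := hA0 x hx
        have a1 := hF _ hF1
        have a2 := hF _ hF2
        obtain ⟨r1, _, _⟩ := copP (L := x.1) hb hB hs.1 hbB hsb a1.cop a1.lt
        refine ⟨(hrange _ _ a1).1, (hrange _ _ a1).2, (hrange _ _ a2).1, (hrange _ _ a2).2,
          a1.lt, a2.lt, ?_⟩
        exact Nat.le_floor (a1.gcd_le a2 hne hb.pos r1))
      (hwin s hs.2) (hwin s' hs'.2)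
    exact hmain.trans (T_leP W B b (by omega) hb.pos hbB)

end Pool.Agent.MR2
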