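import Mathlib
import Pool.Agent.Lib.MRL.HMcore
import Pool.Agent.Lib.VMV.Defs

/-!
# MR2, row SPV, part a: sums of n^(iu) with the Vinogradov saving and the sieve majorant
-/

set_option autoImplicit false
open Finset Complex

namespace Pool.Agent.MR2.SPV

open Pool.Agent.MRL Pool.Agent.MRL.HM

/-- the sum of the inverses of the least common multiples -/
lemma lcm_sum (R : ℕ) :
    ∑ d ∈ Icc 1 R, ∑ d' ∈ Icc 1 R, 1 / (Nat.lcm d d' : ℝ) ≤ (1 + Real.log R) ^ 3 := by
  have hH : ∑ d ∈ Icc 1 R, 1 / (d : ℝ) ≤ 1 + Real.log R := by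
    have h1 := harmonic_le_one_add_log R
    rw [harmonic_eq_sum_Icc] at h1
    push_cast at h1
    simpa [one_div] using h1
  have hH0 : 0 ≤ ∑ d ∈ Icc 1 R, 1 / (d : ℝ) := Finset.sum_nonneg fun d _ => by positivity
  -- 1/lcm = gcd/(d d') ≤ Σ_{g | d, g | d'} g/(d d')
  have h1 : ∀ d ∈ Icc 1 R, ∀ d' ∈ Icc 1 R, 1 / (Nat.lcm d d' : ℝ)
      ≤ ∑ g ∈ Icc 1 R, (if g ∣ d then 1 / (d : ℝ) else 0) * (if g ∣ d' then 1 / (d' : ℝ) else 0) * g := by
    intro d hd d' hd'
    rw [mem_Icc] at hd hd'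
    have hg0 : 0 < Nat.gcd d d' := Nat.gcd_pos_of_pos_left _ hd.1
    have hg : Nat.gcd d d' ∈ Icc 1 R := by
      rw [mem_Icc]
      exact ⟨hg0, (Nat.le_of_dvd hd.1 (Nat.gcd_dvd_left d d')).trans hd.2⟩
    have h2 : 1 / (Nat.lcm d d' : ℝ)
        = (if Nat.gcd d d' ∣ d then 1 / (d : ℝ) else 0) * (if Nat.gcd d d' ∣ d' then 1 / (d' : ℝ) else 0)
          * (Nat.gcd d d' : ℕ) := by
      rw [if_pos (Nat.gcd_dvd_left d d'), if_pos (Nat.gcd_dvd_right d d')]
      have h3 : (Nat.gcd d d' : ℝ) * Nat.lcm d d' = d * d' := by exact_mod_cast Nat.gcd_mul_lcm d d'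
      have hd0 : (0 : ℝ) < d := by exact_mod_cast hd.1
      have hd0' : (0 : ℝ) < d' := by exact_mod_cast hd'.1
      have hl0 : (0 : ℝ) < Nat.lcm d d' := by exact_mod_cast Nat.lcm_pos hd.1 hd'.1
      field_simp
      linarith
    rw [h2]
    exact Finset.single_le_sum (f := fun g : ℕ => (if g ∣ d then 1 / (d : ℝ) else 0)
      * (if g ∣ d' then 1 / (d' : ℝ) else 0) * (g : ℝ)) (fun g _ => by positivity) hg
  have h2 : ∀ g ∈ Icc 1 R, ∑ d ∈ Icc 1 R, (if g ∣ d then 1 / (d : ℝ) else 0)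
      ≤ (1 / (g : ℝ)) * (1 + Real.log R) := by
    intro g hg
    rw [mem_Icc] at hg
    have hg0 : (0 : ℝ) < g := by exact_mod_cast hg.1
    rw [← Finset.sum_filter]
    have h3 : (Icc 1 R).filter (fun d => g ∣ d) ⊆ (Icc 1 R).image (fun m => g * m) := by
      intro d hd
      rw [mem_filter, mem_Icc] at hd
      obtain ⟨⟨h4, h5⟩, m, rfl⟩ := hd
      rw [mem_image]
      refine ⟨m, ?_, rfl⟩
      rw [mem_Icc]
      constructor
      · rcases Nat.eq_zero_or_pos m with rfl | h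
        · simp at h4
        · exact h
      · exact (Nat.le_mul_of_pos_left m hg.1).trans h5
    refine (Finset.sum_le_sum_of_subset_of_nonneg h3 fun i _ _ => by positivity).trans ?_
    rw [Finset.sum_image (by intro a _ b _ h; exact Nat.eq_of_mul_eq_mul_left hg.1 h)]
    have h4 : ∀ m ∈ Icc 1 R, 1 / ((g * m : ℕ) : ℝ) = (1 / (g : ℝ)) * (1 / (m : ℝ)) := by
      intro m _
      push_cast
      rw [one_div_mul_one_div]
    rw [Finset.sum_congr rfl h4, ← Finset.mul_sum]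
    exact mul_le_mul_of_nonneg_left hH (by positivity)
  calc ∑ d ∈ Icc 1 R, ∑ d' ∈ Icc 1 R, 1 / (Nat.lcm d d' : ℝ)
      ≤ ∑ d ∈ Icc 1 R, ∑ d' ∈ Icc 1 R, ∑ g ∈ Icc 1 R,
        (if g ∣ d then 1 / (d : ℝ) else 0) * (if g ∣ d' then 1 / (d' : ℝ) else 0) * g :=
        Finset.sum_le_sum fun d hd => Finset.sum_le_sum fun d' hd' => h1 d hd d' hd'
    _ = ∑ g ∈ Icc 1 R, (∑ d ∈ Icc 1 R, (if g ∣ d then 1 / (d : ℝ) else 0))
        * (∑ d' ∈ Icc 1 R, (if g ∣ d' then 1 / (d' : ℝ) else 0)) * g := by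
        simp_rw [Finset.sum_mul_sum, Finset.sum_mul]
        rw [Finset.sum_comm (s := Icc 1 R) (t := Icc 1 R) (f := fun g d => ∑ d' ∈ Icc 1 R,
          (if g ∣ d then 1 / (d : ℝ) else 0) * (if g ∣ d' then 1 / (d' : ℝ) else 0) * (g : ℝ))]
        exact Finset.sum_congr rfl fun d _ => Finset.sum_comm
    _ ≤ ∑ g ∈ Icc 1 R, ((1 / (g : ℝ)) * (1 + Real.log R)) * ((1 / (g : ℝ)) * (1 + Real.log R)) * g := by
        refine Finset.sum_le_sum fun g hg => ?_
        have h3 := h2 g hg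
        have h4 : 0 ≤ ∑ d ∈ Icc 1 R, (if g ∣ d then 1 / (d : ℝ) else 0) :=
          Finset.sum_nonneg fun d _ => by positivity
        exact mul_le_mul_of_nonneg_right (mul_le_mul h3 h3 h4 (h4.trans h3)) (by positivity)
    _ = (1 + Real.log R) ^ 2 * ∑ g ∈ Icc 1 R, 1 / (g : ℝ) := by
        rw [Finset.mul_sum]
        refine Finset.sum_congr rfl fun g hg => ?_
        rw [mem_Icc] at hg
        have hg0 : (0 : ℝ) < g := by exact_mod_cast hg.1
        field_simp
    _ ≤ (1 + Real.log R) ^ 2 * (1 + Real.log R) := mul_le_mul_of_nonneg_left hH (by positivity)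
    _ = (1 + Real.log R) ^ 3 := by ring

/-- **large frequencies**, with a bound proportional to the length -/
theorem VV_large2 {lam : ℕ → ℝ} {R : ℕ} {K : ℝ} (hS : SW lam R K) (P : ℕ) (hP : 0 < P)
    (u a b : ℝ) (ha : 0 ≤ a) (hB : ∀ N ≤ 3 * P, ‖ZZ u N‖ ≤ a * N + b) :
    ‖VV lam P R u‖ ≤ 6 * a * P * (1 + Real.log R) ^ 3 + (R : ℝ) ^ 2 * (2 * b) := by
  have hP' : (0 : ℝ) < P := by exact_mod_cast hP
  rw [VV_eq]
  have h1 : ∀ d ∈ Icc 1 R, ∀ d' ∈ Icc 1 R, ‖((lam d * lam d' : ℝ) : ℂ) * VD P (Nat.lcm d d') u‖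
      ≤ (6 * a * P) * (1 / (Nat.lcm d d' : ℝ)) + 2 * b := by
    intro d hd d' hd'
    rw [mem_Icc] at hd hd'
    rw [norm_mul, Complex.norm_real, Real.norm_eq_abs, abs_mul]
    have h1 : |lam d| * |lam d'| ≤ 1 := by
      have := mul_le_mul (hS.abs d) (hS.abs d') (abs_nonneg _) zero_le_one
      simpa using this
    have hl := Nat.lcm_pos hd.1 hd'.1
    have hl' : (0 : ℝ) < Nat.lcm d d' := by exact_mod_cast hl
    have h2 : ‖VD P (Nat.lcm d d') u‖ ≤ (6 * a * P) * (1 / (Nat.lcm d d' : ℝ)) + 2 * b := by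
      unfold VD
      rw [norm_mul]
      have h3 : ‖(1 / (P : ℂ))‖ = 1 / P := by
        rw [norm_div, norm_one, Complex.norm_natCast]
      rw [h3]
      have hN : ∀ y : ℕ, y ≤ 3 * P → ‖SD (Nat.lcm d d') u y‖ ≤ 3 * a * P * (1 / (Nat.lcm d d' : ℝ)) + b := by
        intro y hy
        rw [norm_SD_le _ hl]
        refine (hB (y / Nat.lcm d d') ((Nat.div_le_self _ _).trans hy)).trans ?_
        have e1 : ((y / Nat.lcm d d' : ℕ) : ℝ) ≤ (3 * P) / (Nat.lcm d d' : ℝ) := by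
          refine Nat.cast_div_le.trans ?_
          have : (y : ℝ) ≤ 3 * P := by exact_mod_cast hy
          exact div_le_div_of_nonneg_right this hl'.le
        have e2 := mul_le_mul_of_nonneg_left e1 ha
        have e3 : a * ((3 * P) / (Nat.lcm d d' : ℝ)) = 3 * a * P * (1 / (Nat.lcm d d' : ℝ)) := by ring
        linarith
      have h4 : ‖∑ j ∈ range P, (SD (Nat.lcm d d') u (2 * P + j) - SD (Nat.lcm d d') u j)‖
          ≤ P * ((6 * a * P) * (1 / (Nat.lcm d d' : ℝ)) + 2 * b) := by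
        refine (norm_sum_le _ _).trans ?_
        have : ∀ j ∈ range P, ‖SD (Nat.lcm d d') u (2 * P + j) - SD (Nat.lcm d d') u j‖
            ≤ (6 * a * P) * (1 / (Nat.lcm d d' : ℝ)) + 2 * b := by
          intro j hj
          rw [mem_range] at hj
          refine (norm_sub_le _ _).trans ?_
          have a1 := hN (2 * P + j) (by omega)
          have a2 := hN j (by omega)
          linarith
        refine (Finset.sum_le_sum this).trans ?_
        rw [Finset.sum_const, Finset.card_range, nsmul_eq_mul]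
      refine (mul_le_mul_of_nonneg_left h4 (by positivity)).trans (le_of_eq ?_)
      field_simp
    refine (mul_le_mul h1 h2 (norm_nonneg _) zero_le_one).trans ?_
    rw [one_mul]
  refine (norm_sum_le _ _).trans ?_
  refine (Finset.sum_le_sum fun d hd => (norm_sum_le _ _).trans (Finset.sum_le_sum (h1 d hd))).trans ?_
  simp_rw [Finset.sum_add_distrib, Finset.sum_const, ← Finset.mul_sum, Nat.card_Icc, nsmul_eq_mul]
  have h2 := mul_le_mul_of_nonneg_left (lcm_sum R) (by positivity : 0 ≤ 6 * a * P)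
  simp only [Nat.add_sub_cancel]
  have h3 : (R : ℝ) * ((R : ℝ) * (2 * b)) = (R : ℝ) ^ 2 * (2 * b) := by ring
  rw [h3]
  linarith

lemma ZZ_rec2 (u : ℝ) (X a : ℝ) (hX : 1 ≤ X) (Q : ℕ) (ha : 0 ≤ a)
    (hB : ∀ M : ℕ, X ≤ M → M ≤ Q → ‖∑ n ∈ Ioc M (2 * M), ee u n‖ ≤ a * M) :
    ∀ N : ℕ, N ≤ Q → ‖ZZ u N‖ ≤ 2 * a * N + ((Nat.log 2 N : ℝ) + (2 * X + 2)) := by
  intro N
  induction N using Nat.strong_induction_on with
  | _ N ih =>
    intro hN
    rcases lt_or_ge ((N / 2 : ℕ) : ℝ) X with h | h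
    · have h1 := norm_ZZ_le u N
      have h2 : (N : ℝ) ≤ 2 * X + 1 := by
        have : (N : ℝ) ≤ 2 * ((N / 2 : ℕ) : ℝ) + 1 := by
          have : N ≤ 2 * (N / 2) + 1 := by omega
          exact_mod_cast this
        linarith
      have h3 : 0 ≤ (Nat.log 2 N : ℝ) := by positivity
      have h4 : 0 ≤ 2 * a * N := by positivity
      linarith
    · have hN2 : 2 ≤ N := by
        by_contra hh
        have : N / 2 = 0 := by omega
        rw [this] at h
        simp at h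
        linarith
      have h1 := ih (N / 2) (by omega) (by omega)
      have h2 := hB (N / 2) h (by omega)
      have h3 := ZZ_split u N
      have h4 : Nat.log 2 N = Nat.log 2 (N / 2) + 1 := by
        rw [Nat.log_of_one_lt_of_le (by norm_num) hN2]
      have h5 : ((N / 2 : ℕ) : ℝ) ≤ N / 2 := by
        have := @Nat.cast_div_le ℝ _ _ _ N 2
        exact_mod_cast this
      have h6 := mul_le_mul_of_nonneg_left h5 ha
      rw [h4]
      push_cast
      nlinarith

end Pool.Agent.MR2.SPV
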