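import Mathlib
import Pool.Agent.Lib.MR2.SPVa

/-!
# MR2, row SPV, part b: the Halász–Montgomery inequality over primes with the Vinogradov saving
-/

set_option autoImplicit false
open Finset Complex

namespace Pool.Agent.MR2.SPV

open Pool.Agent.MRL Pool.Agent.MRL.HM

lemma norm_sum_neg (S : Finset ℕ) (w : ℝ) : ‖∑ n ∈ S, ee (-w) n‖ = ‖∑ n ∈ S, ee w n‖ := by
  have : ∑ n ∈ S, ee (-w) n = (starRingEnd ℂ) (∑ n ∈ S, ee w n) := by
    rw [map_sum]
    exact Finset.sum_congr rfl fun n _ => ee_neg w n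
  rw [this, Complex.norm_conj]

lemma norm_sum_abs (S : Finset ℕ) (w : ℝ) : ‖∑ n ∈ S, ee |w| n‖ = ‖∑ n ∈ S, ee w n‖ := by
  rcases abs_choice w with h | h
  · rw [h]
  · rw [h, norm_sum_neg]

/-- sums up to `3P` at frequencies between `2 P^(1/2)` and `V` -/
theorem ZZ_bound2 (hW : VDC) (hZ : VMV.Zsum) : ∃ c : ℝ, 0 < c ∧ c ≤ 1 / 8 ∧ ∃ C : ℝ, 1 ≤ C ∧
    ∀ (P N : ℕ) (u V : ℝ), 2 ≤ P → N ≤ 3 * P → (P : ℝ) ≤ V →
    C * (Real.log V) ^ (4 / 5 : ℝ) ≤ Real.log P / 2 →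
    2 * (P : ℝ) ^ (1 / 2 : ℝ) ≤ |u| → |u| ≤ V →
    ‖ZZ u N‖ ≤ (C * Real.exp (-(c * (Real.log P) ^ 3 / (Real.log V) ^ 2))) * N
      + 12 * (P : ℝ) ^ (1 / 2 : ℝ) := by
  obtain ⟨c0, C0, hc0, hC0, hz⟩ := hZ
  obtain ⟨η0, hη0, C1, hC1, hw⟩ := hW 1 le_rfl
  set c : ℝ := min (c0 / 8) (min (η0 / 2) (1 / 8)) with hc
  have hcp : 0 < c := lt_min (by positivity) (lt_min (by positivity) (by norm_num))
  have hc1 : c ≤ c0 / 8 := min_le_left _ _
  have hc2 : c ≤ η0 / 2 := (min_le_right _ _).trans (min_le_left _ _)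
  have hc3 : c ≤ 1 / 8 := (min_le_right _ _).trans (min_le_right _ _)
  refine ⟨c, hcp, hc3, 2 * (C0 + C1), by linarith, ?_⟩
  intro P N u V hP hN hPV hVP hu1 hu2
  have hPr : (2 : ℝ) ≤ P := by exact_mod_cast hP
  have hP1 : (1 : ℝ) ≤ P := by linarith
  have hP0 : (0 : ℝ) < P := by linarith
  have hlP : 0 < Real.log P := Real.log_pos (by linarith)
  have hlPV : Real.log P ≤ Real.log V := Real.log_le_log hP0 hPV
  have hlV : 0 < Real.log V := by linarith
  set E : ℝ := Real.exp (-(c * (Real.log P) ^ 3 / (Real.log V) ^ 2)) with hE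
  have hE0 : 0 < E := Real.exp_pos _
  set X : ℝ := (P : ℝ) ^ (1 / 2 : ℝ) with hX
  have hX2 : X ^ 2 = P := by
    rw [hX, ← Real.rpow_natCast, ← Real.rpow_mul hP0.le]; norm_num
  have hX1 : 1 ≤ X := Real.one_le_rpow hP1 (by norm_num)
  have hX14 : 1.4 ≤ X := by nlinarith
  have hlogX : Real.log X = Real.log P / 2 := by
    rw [hX, Real.log_rpow hP0]; ring
  have hblock : ∀ M : ℕ, X ≤ M → M ≤ 3 * P → ‖∑ n ∈ Ioc M (2 * M), ee u n‖ ≤ ((C0 + C1) * E) * M := by
    intro M hM1 hM2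
    have hM0 : (1 : ℝ) ≤ M := hX1.trans hM1
    have hM0' : 1 ≤ M := by exact_mod_cast hM0
    have hMpos : (0 : ℝ) < M := by linarith
    have hMP : (M : ℝ) ≤ 3 * P := by exact_mod_cast hM2
    have hlM : Real.log P / 2 ≤ Real.log M := by
      rw [← hlogX]; exact Real.log_le_log (by linarith) hM1
    rcases le_or_gt (M : ℝ) |u| with hMu | hMu
    · have hlu : 0 < Real.log |u| := Real.log_pos (by linarith)
      have hluV : Real.log |u| ≤ Real.log V := Real.log_le_log (by linarith) hu2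
      have h1 := hz M (2 * M) |u| (by linarith) (by omega) le_rfl hMu (by
        refine le_trans ?_ hlM
        refine le_trans ?_ hVP
        have h2 : (Real.log |u|) ^ (4 / 5 : ℝ) ≤ (Real.log V) ^ (4 / 5 : ℝ) :=
          Real.rpow_le_rpow hlu.le hluV (by norm_num)
        have h3 : 0 ≤ (Real.log V) ^ (4 / 5 : ℝ) := by positivity
        nlinarith)
      have h2 : ∑ n ∈ Ioc M (2 * M), Complex.exp (((|u| * Real.log n : ℝ)) * Complex.I)
          = ∑ n ∈ Ioc M (2 * M), ee |u| n := rfl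
      rw [h2, norm_sum_abs] at h1
      refine h1.trans ?_
      have h3 : Real.exp (-(c0 * (Real.log M) ^ 3 / (Real.log |u|) ^ 2)) ≤ E := by
        rw [hE]
        apply Real.exp_le_exp.2
        apply neg_le_neg
        have a1 : (Real.log P / 2) ^ 3 ≤ (Real.log M) ^ 3 := pow_le_pow_left₀ (by positivity) hlM 3
        have a2 : (Real.log |u|) ^ 2 ≤ (Real.log V) ^ 2 := pow_le_pow_left₀ hlu.le hluV 2
        rw [div_le_div_iff₀ (by positivity) (by positivity)]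
        have a3 : c * Real.log P ^ 3 ≤ c0 * Real.log M ^ 3 := by
          have a4 : c * Real.log P ^ 3 ≤ c0 / 8 * Real.log P ^ 3 :=
            mul_le_mul_of_nonneg_right hc1 (by positivity)
          nlinarith
        exact mul_le_mul a3 a2 (by positivity) (by positivity)
      have h4 : C0 * M * Real.exp (-(c0 * (Real.log M) ^ 3 / (Real.log |u|) ^ 2)) ≤ C0 * M * E :=
        mul_le_mul_of_nonneg_left h3 (by positivity)
      have h5 : 0 ≤ C1 * E * M := by positivity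
      nlinarith
    · have hsq : √(M : ℝ) ≤ |u| := by
        refine le_trans ?_ hu1
        rw [Real.sqrt_le_left (by positivity)]
        nlinarith
      have h1 := hw M (2 * M) hM0' le_rfl (-u) (by rw [abs_neg]; exact hsq) (by
        rw [abs_neg, Real.rpow_one]; exact hMu.le)
      have e2 : ∑ n ∈ Ioc M (2 * M), nt n (-u) = ∑ n ∈ Ioc M (2 * M), ee u n := by
        refine Finset.sum_congr rfl fun n hn => ?_
        rw [nt_eq_ee, neg_neg]
      rw [e2] at h1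
      refine h1.trans ?_
      have h2 : (M : ℝ) ^ (1 - η0) ≤ M * E := by
        rw [sub_eq_add_neg, Real.rpow_add hMpos, Real.rpow_one]
        refine mul_le_mul_of_nonneg_left ?_ hMpos.le
        rw [Real.rpow_def_of_pos hMpos, hE]
        apply Real.exp_le_exp.2
        have a1 : c * Real.log P ^ 3 / Real.log V ^ 2 ≤ η0 / 2 * Real.log P := by
          rw [div_le_iff₀ (by positivity)]
          have a2 : (Real.log P) ^ 2 ≤ (Real.log V) ^ 2 := pow_le_pow_left₀ hlP.le hlPV 2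
          have a3 : c * Real.log P ^ 3 ≤ η0 / 2 * Real.log P * Real.log P ^ 2 := by
            have : c * Real.log P ^ 3 ≤ η0 / 2 * Real.log P ^ 3 :=
              mul_le_mul_of_nonneg_right hc2 (by positivity)
            linarith [this, (by ring : η0 / 2 * Real.log P * Real.log P ^ 2 = η0 / 2 * Real.log P ^ 3)]
          exact a3.trans (mul_le_mul_of_nonneg_left a2 (by positivity))
        nlinarith
      have h3 := mul_le_mul_of_nonneg_left h2 hC1.le
      have h4 : 0 ≤ C0 * E * M := by positivity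
      nlinarith
  have h1 := ZZ_rec2 u X ((C0 + C1) * E) hX1 (3 * P) (by positivity) hblock N hN
  have hlog2 : 0.693 < Real.log 2 := by linarith [Real.log_two_gt_d9]
  have h2 : (Nat.log 2 N : ℝ) ≤ 6 * X := by
    rcases Nat.eq_zero_or_pos N with rfl | hN0
    · simp; positivity
    have a1 : (2 : ℝ) ^ (Nat.log 2 N) ≤ N := by exact_mod_cast Nat.pow_log_le_self 2 hN0.ne'
    have a2 : (Nat.log 2 N : ℝ) * Real.log 2 ≤ Real.log N := by
      have := Real.log_le_log (by positivity) a1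
      rwa [Real.log_pow] at this
    have a3 : Real.log N ≤ Real.log (3 * P) :=
      Real.log_le_log (by exact_mod_cast hN0) (by exact_mod_cast hN)
    have a4 : Real.log (3 * P) ≤ (3 * P : ℝ) ^ (1 / 2 : ℝ) / (1 / 2) :=
      Real.log_le_rpow_div (by positivity) (by positivity)
    have a5 : (3 * P : ℝ) ^ (1 / 2 : ℝ) ≤ 1.8 * X := by
      rw [Real.mul_rpow (by norm_num) hP0.le, ← Real.sqrt_eq_rpow 3]
      have : √(3 : ℝ) ≤ 1.8 := by
        rw [Real.sqrt_le_left (by norm_num)]; norm_num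
      exact mul_le_mul_of_nonneg_right this (by positivity)
    have a6 : (Nat.log 2 N : ℝ) * 0.693 ≤ (Nat.log 2 N : ℝ) * Real.log 2 :=
      mul_le_mul_of_nonneg_left hlog2.le (by positivity)
    linarith
  have e1 : 2 * (C0 + C1) * E * N = 2 * ((C0 + C1) * E) * N := by ring
  rw [e1]
  linarith

/-- the core inequality -/
theorem hm_core2 (hW : VDC) (hZ : VMV.Zsum) : ∃ c : ℝ, 0 < c ∧ ∃ C : ℝ, 1 ≤ C ∧ ∃ P0 : ℕ,
    ∀ P : ℕ, P0 ≤ P → ∀ V : ℝ, (P : ℝ) ≤ V → C * (Real.log V) ^ (4 / 5 : ℝ) ≤ Real.log P / 2 →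
    ∀ (T : Finset ℝ), (∀ s ∈ T, ∀ t ∈ T, s ≠ t → 1 ≤ |s - t|) →
    (∀ s ∈ T, ∀ t ∈ T, |s - t| ≤ V) → ∀ (S : Finset ℕ),
    (∀ p ∈ S, p.Prime ∧ P ≤ p ∧ p ≤ 2 * P) → ∀ a : ℕ → ℂ,
    ∑ t ∈ T, ‖∑ p ∈ S, a p * ee (-t) p‖ ^ 2
      ≤ C * (P / Real.log P + T.card * (P * (Real.exp (-(c * (Real.log P) ^ 3 / (Real.log V) ^ 2))
        * (1 + Real.log P) ^ 3) + (P : ℝ) ^ (3 / 4 : ℝ))) * ∑ p ∈ S, ‖a p‖ ^ 2 := by
  obtain ⟨c, hc, hc8, C0, hC0, hz⟩ := ZZ_bound2 hW hZ
  obtain ⟨C1, hC1, hsel⟩ := Pool.Agent.Lib.MP_663568_nt.Nul.selberg_weights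
  obtain ⟨C2, hC2, hsp⟩ := exists_spaced
  set κ : ℝ := 1 / 32 with hκ
  have hκ0 : 0 < κ := by positivity
  set P0 : ℕ := ⌈(2 : ℝ) ^ (2 / κ)⌉₊ + 3 with hP0
  have hC3 : 0 ≤ (14 * C1 * (2 / κ)) * C2 := by positivity
  refine ⟨c, hc, (14 * C1 * (2 / κ)) * C2 + (96 + 6 * C0), by linarith, P0, ?_⟩
  intro P hP V hPV hVP T hT1 hT2 S hS a
  have hP3 : 3 ≤ P := by omega
  have hPr : (3 : ℝ) ≤ P := by exact_mod_cast hP3
  have hP1 : (1 : ℝ) ≤ P := by linarith
  have hPpos : (0 : ℝ) < P := by linarith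
  have hlogP : 0 < Real.log P := Real.log_pos (by linarith)
  have hlogV : 0 < Real.log V := Real.log_pos (by linarith)
  have hVP' : C0 * (Real.log V) ^ (4 / 5 : ℝ) ≤ Real.log P / 2 := by
    refine le_trans (mul_le_mul_of_nonneg_right ?_ (by positivity)) hVP
    linarith
  have hPκ : (2 : ℝ) ≤ (P : ℝ) ^ (κ / 2) := by
    have h1 : (2 : ℝ) ^ (2 / κ) ≤ P := by
      have : ((⌈(2 : ℝ) ^ (2 / κ)⌉₊ + 3 : ℕ) : ℝ) ≤ P := by exact_mod_cast hP
      push_cast at this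
      linarith [Nat.le_ceil ((2 : ℝ) ^ (2 / κ))]
    have h2 : ((2 : ℝ) ^ (2 / κ)) ^ (κ / 2) ≤ (P : ℝ) ^ (κ / 2) :=
      Real.rpow_le_rpow (by positivity) h1 (by positivity)
    rw [← Real.rpow_mul (by norm_num)] at h2
    have e : 2 / κ * (κ / 2) = 1 := by field_simp
    rwa [e, Real.rpow_one] at h2
  set Y : ℝ := (P : ℝ) ^ (κ / 2) with hY
  have hYY : (P : ℝ) ^ κ = Y ^ 2 := by
    rw [hY, ← Real.rpow_natCast, ← Real.rpow_mul hPpos.le]; congr 1; push_cast; ring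
  set R : ℕ := ⌊(P : ℝ) ^ κ⌋₊ with hR
  have hRle : (R : ℝ) ≤ (P : ℝ) ^ κ := Nat.floor_le (by positivity)
  have hRge : Y ≤ R := by
    have h1 : (P : ℝ) ^ κ < R + 1 := Nat.lt_floor_add_one _
    rw [hYY] at h1
    nlinarith
  have hR2 : 2 ≤ R := by
    have : (2 : ℝ) ≤ R := hPκ.trans hRge
    exact_mod_cast this
  have hRP : R < P := by
    have h1 : (P : ℝ) ^ κ < (P : ℝ) ^ (1 : ℝ) :=
      Real.rpow_lt_rpow_of_exponent_lt (by linarith) (by rw [hκ]; norm_num)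
    rw [Real.rpow_one] at h1
    exact_mod_cast hRle.trans_lt h1
  have hlogR : κ / 2 * Real.log P ≤ Real.log R := by
    rw [← Real.log_rpow hPpos]
    exact Real.log_le_log (by positivity) hRge
  obtain ⟨lam, hl1, hl2, hl3, hl4⟩ := hsel 1 R le_rfl hR2
  have hmass : ∑ d ∈ Icc 1 R, ∑ d' ∈ Icc 1 R, lam d * lam d' / (Nat.lcm d d' : ℝ)
      ≤ C1 * (2 / κ) / Real.log P := by
    refine hl4.trans ?_
    simp only [Nat.cast_one, Nat.totient_one, div_one, mul_one]
    have h1 : 0 < κ / 2 * Real.log P := by positivity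
    refine (div_le_div_of_nonneg_left hC1.le h1 hlogR).trans (le_of_eq ?_)
    field_simp
  have hSW : SW lam R (C1 * (2 / κ) / Real.log P) := ⟨hl1, hl2, hmass, mass_nonneg lam R⟩
  have hRsq : (R : ℝ) ^ 2 ≤ (P : ℝ) ^ (1 / 16 : ℝ) := by
    have h1 : (R : ℝ) ^ 2 ≤ ((P : ℝ) ^ κ) ^ 2 := pow_le_pow_left₀ (by positivity) hRle 2
    refine h1.trans (le_of_eq ?_)
    rw [← Real.rpow_natCast, ← Real.rpow_mul hPpos.le]; congr 1; rw [hκ]; norm_num
  set F : ℝ := Real.exp (-(c * (Real.log P) ^ 3 / (Real.log V) ^ 2)) * (1 + Real.log P) ^ 3 with hF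
  have hF0 : 0 ≤ F := by positivity
  set G : ℝ := (P : ℝ) ^ (3 / 4 : ℝ) with hG
  have hG0 : 0 ≤ G := by positivity
  set E : ℝ := P * F + G with hE
  have hE0 : 0 ≤ E := by positivity
  -- pointwise bound
  have hV : ∀ u : ℝ, |u| ≤ V → ‖VV lam P R u‖
      ≤ (14 * C1 * (2 / κ)) * (P / Real.log P) * (1 / (1 + u ^ 2)) + (96 + 6 * C0) * E := by
    intro u hu
    rcases le_or_gt (2 * (P : ℝ) ^ (1 / 2 : ℝ)) |u| with h | h
    · have h1 := VV_large2 hSW P (by omega) u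
        (C0 * Real.exp (-(c * (Real.log P) ^ 3 / (Real.log V) ^ 2))) (12 * (P : ℝ) ^ (1 / 2 : ℝ))
        (by positivity) (fun N hN => hz P N u V (by omega) hN hPV hVP' h hu)
      have h2 : (R : ℝ) ^ 2 * (2 * (12 * (P : ℝ) ^ (1 / 2 : ℝ))) ≤ 24 * G := by
        have e : (P : ℝ) ^ (1 / 16 : ℝ) * (P : ℝ) ^ (1 / 2 : ℝ) ≤ G := by
          rw [hG, ← Real.rpow_add hPpos]
          exact Real.rpow_le_rpow_of_exponent_le hP1 (by norm_num)
        have h3 : (R : ℝ) ^ 2 * (P : ℝ) ^ (1 / 2 : ℝ) ≤ G :=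
          (mul_le_mul_of_nonneg_right hRsq (by positivity)).trans e
        linarith
      have h3 : 6 * (C0 * Real.exp (-(c * (Real.log P) ^ 3 / (Real.log V) ^ 2))) * P
          * (1 + Real.log R) ^ 3 ≤ 6 * C0 * (P * F) := by
        have hlR : 1 + Real.log R ≤ 1 + Real.log P := by
          have : Real.log R ≤ Real.log P :=
            Real.log_le_log (by positivity) (by exact_mod_cast hRP.le)
          linarith
        have hlR0 : 0 ≤ 1 + Real.log R := by
          have : 0 ≤ Real.log R := Real.log_natCast_nonneg R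
          linarith
        have a1 : (1 + Real.log R) ^ 3 ≤ (1 + Real.log P) ^ 3 := pow_le_pow_left₀ hlR0 hlR 3
        have a2 := mul_le_mul_of_nonneg_left a1 (by positivity :
          0 ≤ 6 * (C0 * Real.exp (-(c * (Real.log P) ^ 3 / (Real.log V) ^ 2))) * P)
        refine a2.trans (le_of_eq ?_)
        rw [hF]; ring
      have h4 : 0 ≤ (14 * C1 * (2 / κ)) * (P / Real.log P) * (1 / (1 + u ^ 2)) := by positivity
      have h5 : 0 ≤ P * F := by positivity
      have h6 : 0 ≤ C0 * G := by positivity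
      rw [hE]
      nlinarith
    · have h1 := VV_small hSW P (by omega) u
      have h2 : C1 * (2 / κ) / Real.log P * (14 * P / (1 + u ^ 2))
          = (14 * C1 * (2 / κ)) * (P / Real.log P) * (1 / (1 + u ^ 2)) := by
        field_simp
      have h3 : (R : ℝ) ^ 2 * (8 + 2 * (|u| * Real.log (3 * P + 1))) ≤ 72 * G := by
        have a1 : Real.log (3 * P + 1) ≤ 16 * (P : ℝ) ^ (1 / 8 : ℝ) := by
          have b1 : Real.log (3 * P + 1) ≤ Real.log (4 * P) :=
            Real.log_le_log (by positivity) (by linarith)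
          have b2 : Real.log (4 * P) ≤ (4 * P : ℝ) ^ (1 / 8 : ℝ) / (1 / 8) :=
            Real.log_le_rpow_div (by positivity) (by norm_num)
          have b3 : (4 * P : ℝ) ^ (1 / 8 : ℝ) = 4 ^ (1 / 8 : ℝ) * (P : ℝ) ^ (1 / 8 : ℝ) :=
            Real.mul_rpow (by norm_num) hPpos.le
          have b4 : (4 : ℝ) ^ (1 / 8 : ℝ) ≤ 2 := by
            have : (4 : ℝ) ^ (1 / 8 : ℝ) ≤ 4 ^ (1 / 2 : ℝ) :=
              Real.rpow_le_rpow_of_exponent_le (by norm_num) (by norm_num)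
            refine this.trans (le_of_eq ?_)
            rw [← Real.sqrt_eq_rpow, show (4 : ℝ) = 2 ^ 2 by norm_num]
            exact Real.sqrt_sq (by norm_num)
          have b5 : 0 ≤ (P : ℝ) ^ (1 / 8 : ℝ) := by positivity
          rw [b3] at b2
          nlinarith
        have a2 : |u| * Real.log (3 * P + 1) ≤ 32 * (P : ℝ) ^ (5 / 8 : ℝ) := by
          have c1 : |u| * Real.log (3 * P + 1)
              ≤ (2 * (P : ℝ) ^ (1 / 2 : ℝ)) * (16 * (P : ℝ) ^ (1 / 8 : ℝ)) :=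
            mul_le_mul h.le a1 (Real.log_nonneg (by linarith)) (by positivity)
          have c2 : (P : ℝ) ^ (1 / 2 : ℝ) * (P : ℝ) ^ (1 / 8 : ℝ) = (P : ℝ) ^ (5 / 8 : ℝ) := by
            rw [← Real.rpow_add hPpos]; norm_num
          calc _ ≤ _ := c1
            _ = 32 * ((P : ℝ) ^ (1 / 2 : ℝ) * (P : ℝ) ^ (1 / 8 : ℝ)) := by ring
            _ = _ := by rw [c2]
        have a3 : (1 : ℝ) ≤ (P : ℝ) ^ (5 / 8 : ℝ) := Real.one_le_rpow hP1 (by norm_num)
        have a4 : 8 + 2 * (|u| * Real.log (3 * P + 1)) ≤ 72 * (P : ℝ) ^ (5 / 8 : ℝ) := by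
          linarith
        have a5 : (R : ℝ) ^ 2 ≤ (P : ℝ) ^ (1 / 8 : ℝ) :=
          hRsq.trans (Real.rpow_le_rpow_of_exponent_le hP1 (by norm_num))
        have a6 : (P : ℝ) ^ (1 / 8 : ℝ) * (P : ℝ) ^ (5 / 8 : ℝ) ≤ G := by
          rw [← Real.rpow_add hPpos, hG]
          exact Real.rpow_le_rpow_of_exponent_le hP1 (by norm_num)
        have a7 : 0 ≤ 8 + 2 * (|u| * Real.log (3 * P + 1)) := by
          have := mul_nonneg (abs_nonneg u) (Real.log_nonneg (by linarith : (1 : ℝ) ≤ 3 * P + 1))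
          linarith
        calc (R : ℝ) ^ 2 * (8 + 2 * (|u| * Real.log (3 * P + 1)))
            ≤ (P : ℝ) ^ (1 / 8 : ℝ) * (72 * (P : ℝ) ^ (5 / 8 : ℝ)) :=
              mul_le_mul a5 a4 a7 (by positivity)
          _ = 72 * ((P : ℝ) ^ (1 / 8 : ℝ) * (P : ℝ) ^ (5 / 8 : ℝ)) := by ring
          _ ≤ 72 * G := by linarith
      rw [h2] at h1
      have h4 : 0 ≤ C0 * E := by positivity
      have h5 : G ≤ E := by
        rw [hE]
        have : 0 ≤ P * F := by positivity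
        linarith
      linarith
  -- row sums
  set K : ℝ := ((14 * C1 * (2 / κ)) * C2 + (96 + 6 * C0)) * (P / Real.log P + T.card * E) with hK
  have hK0 : 0 ≤ K := by positivity
  have hrow : ∀ t ∈ T, ∑ s ∈ T, ‖VV lam P R (t - s)‖ ≤ K := by
    intro t ht
    have h1 : ∀ s ∈ T, ‖VV lam P R (t - s)‖
        ≤ (14 * C1 * (2 / κ)) * (P / Real.log P) * (1 / (1 + (t - s) ^ 2)) + (96 + 6 * C0) * E :=
      fun s hs => hV (t - s) (hT2 t ht s hs)
    refine (Finset.sum_le_sum h1).trans ?_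
    rw [Finset.sum_add_distrib, ← Finset.mul_sum, Finset.sum_const, nsmul_eq_mul]
    have h2 := hsp T hT1 t
    have h3 : 0 ≤ (14 * C1 * (2 / κ)) * (P / Real.log P) := by positivity
    have h4 := mul_le_mul_of_nonneg_left h2 h3
    have h5 : 0 ≤ (96 + 6 * C0) * (P / Real.log P) := by positivity
    have h6 : 0 ≤ (14 * C1 * (2 / κ)) * C2 * (T.card * E) := by positivity
    rw [hK]
    nlinarith
  have hfin := dual lam P R T K hK0 hrow S (fun p hp => by
    obtain ⟨h1, h2, h3⟩ := hS p hp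
    refine ⟨by omega, by omega, ?_⟩
    rw [nu_prime lam P R p h1 hl1 (by omega) hRP h2 h3]) a
  exact hfin

end Pool.Agent.MR2.SPV
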