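import Mathlib
import Pool.Agent.Lib.MR2.SPVb
import Pool.Agent.Lib.MRL.SP
import Pool.Agent.Lib.MR2.Defs

/-!
# MR2, row SPV: `VDC`, `Zsum` imply `SPV`
-/

set_option autoImplicit false
open Finset Complex Filter

namespace Pool.Agent.MR2.SPV

open Pool.Agent.MRL Pool.Agent.MRL.HM Pool.Agent.MRF

lemma ev_rpow (a b k : ℝ) (hab : a < b) (hk : 0 < k) : ∀ᶠ L : ℝ in atTop, L ^ a ≤ k * L ^ b := by
  have h1 := tendsto_rpow_neg_atTop (sub_pos.2 hab)
  have h2 := h1.eventually (eventually_le_nhds hk)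
  filter_upwards [h2, eventually_gt_atTop 0] with L hL hL0
  have h3 : L ^ a = L ^ (-(b - a)) * L ^ b := by
    rw [← Real.rpow_add hL0]; congr 1; ring
  rw [h3]
  exact mul_le_mul_of_nonneg_right hL (by positivity)

/-- all the inequalities between functions of `L = log X` -/
lemma ev_all (ε c C K : ℝ) (hε : 0 < ε) (hε8 : ε ≤ 1 / 8) (hc : 0 < c) (hC : 0 < C) :
    ∀ᶠ L : ℝ in atTop, 16 ≤ L ∧ K ≤ L ^ (1 - ε) ∧ C * (2 * L) ^ (4 / 5 : ℝ) ≤ L ^ (1 - ε) / 4 ∧
      Real.exp (L ^ (1 - 4 * ε)) * (Real.exp (-(c / 32 * L ^ (1 - 3 * ε))) * (1 + L) ^ 3) * (2 * L) ≤ 1 ∧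
      Real.exp (L ^ (1 - 4 * ε)) * Real.exp (-(L ^ (1 - ε) / 8)) * (2 * L) ≤ 1 := by
  have e1 := ev_rpow (1 - 4 * ε) (1 - 3 * ε) (c / 64) (by linarith) (by positivity)
  have e2 := ev_rpow (1 / 8) (1 - 3 * ε) (c / 64 / 100) (by linarith) (by positivity)
  have e3 := ev_rpow (1 - 4 * ε) (1 - ε) (1 / 16) (by linarith) (by positivity)
  have e4 := ev_rpow (1 / 8) (1 - ε) (1 / 16 / 100) (by linarith) (by positivity)
  have e5 := ev_rpow (4 / 5) (1 - ε) (1 / (8 * C)) (by linarith) (by positivity)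
  have e6 : ∀ᶠ L : ℝ in atTop, K ≤ L ^ (1 - ε) :=
    (tendsto_rpow_atTop (by linarith : 0 < 1 - ε)).eventually_ge_atTop K
  filter_upwards [e1, e2, e3, e4, e5, e6, eventually_ge_atTop 16] with L h1 h2 h3 h4 h5 h6 h7
  have hL0 : 0 < L := by linarith
  have hL1 : 1 ≤ L := by linarith
  have hl : Real.log (1 + L) ≤ 16 * L ^ (1 / 8 : ℝ) := by
    have a1 : Real.log (1 + L) ≤ (1 + L) ^ (1 / 8 : ℝ) / (1 / 8) :=
      Real.log_le_rpow_div (by positivity) (by norm_num)
    have a2 : (1 + L) ^ (1 / 8 : ℝ) ≤ (2 * L) ^ (1 / 8 : ℝ) :=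
      Real.rpow_le_rpow (by positivity) (by linarith) (by norm_num)
    have a3 : (2 * L) ^ (1 / 8 : ℝ) ≤ 2 * L ^ (1 / 8 : ℝ) := by
      rw [Real.mul_rpow (by norm_num) hL0.le]
      refine mul_le_mul_of_nonneg_right ?_ (by positivity)
      have : (2 : ℝ) ^ (1 / 8 : ℝ) ≤ 2 ^ (1 : ℝ) :=
        Real.rpow_le_rpow_of_exponent_le (by norm_num) (by norm_num)
      rwa [Real.rpow_one] at this
    linarith
  have hlog : 2 * L ≤ Real.exp (16 * L ^ (1 / 8 : ℝ)) * 2 := by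
    have a1 : 1 + L ≤ Real.exp (16 * L ^ (1 / 8 : ℝ)) := by
      rw [← Real.log_le_iff_le_exp (by positivity)]
      exact hl
    linarith
  have h2e : (2 : ℝ) ≤ Real.exp (16 * L ^ (1 / 8 : ℝ)) := by
    have a1 : 1 + L ≤ Real.exp (16 * L ^ (1 / 8 : ℝ)) := by
      rw [← Real.log_le_iff_le_exp (by positivity)]
      exact hl
    linarith
  have h1L : 1 + L ≤ Real.exp (16 * L ^ (1 / 8 : ℝ)) := by
    rw [← Real.log_le_iff_le_exp (by positivity)]
    exact hl
  have h2L : 2 * L ≤ Real.exp (32 * L ^ (1 / 8 : ℝ)) := by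
    have : Real.exp (32 * L ^ (1 / 8 : ℝ)) = Real.exp (16 * L ^ (1 / 8 : ℝ)) * Real.exp (16 * L ^ (1 / 8 : ℝ)) := by
      rw [← Real.exp_add]; congr 1; ring
    rw [this]
    refine hlog.trans (mul_le_mul_of_nonneg_left h2e (Real.exp_pos _).le)
  have h3L : (1 + L) ^ 3 ≤ Real.exp (48 * L ^ (1 / 8 : ℝ)) := by
    have : Real.exp (48 * L ^ (1 / 8 : ℝ)) = Real.exp (16 * L ^ (1 / 8 : ℝ)) ^ 3 := by
      rw [← Real.exp_nat_mul]; congr 1; push_cast; ring
    rw [this]
    exact pow_le_pow_left₀ (by positivity) h1L 3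
  refine ⟨h7, h6, ?_, ?_, ?_⟩
  · have a1 : (2 * L) ^ (4 / 5 : ℝ) ≤ 2 * L ^ (4 / 5 : ℝ) := by
      rw [Real.mul_rpow (by norm_num) hL0.le]
      refine mul_le_mul_of_nonneg_right ?_ (by positivity)
      have : (2 : ℝ) ^ (4 / 5 : ℝ) ≤ 2 ^ (1 : ℝ) :=
        Real.rpow_le_rpow_of_exponent_le (by norm_num) (by norm_num)
      rwa [Real.rpow_one] at this
    have a2 := mul_le_mul_of_nonneg_left (a1.trans (mul_le_mul_of_nonneg_left h5 (by norm_num))) hC.le
    refine a2.trans (le_of_eq ?_)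
    field_simp
    norm_num
  · have a1 : Real.exp (L ^ (1 - 4 * ε)) * (Real.exp (-(c / 32 * L ^ (1 - 3 * ε))) * (1 + L) ^ 3) * (2 * L)
        ≤ Real.exp (L ^ (1 - 4 * ε)) * (Real.exp (-(c / 32 * L ^ (1 - 3 * ε)))
          * Real.exp (48 * L ^ (1 / 8 : ℝ))) * Real.exp (32 * L ^ (1 / 8 : ℝ)) := by
      refine mul_le_mul ?_ h2L (by positivity) (by positivity)
      refine mul_le_mul_of_nonneg_left ?_ (by positivity)
      exact mul_le_mul_of_nonneg_left h3L (by positivity)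
    refine a1.trans ?_
    rw [← Real.exp_add, ← Real.exp_add, ← Real.exp_add, Real.exp_le_one_iff]
    have a2 : 0 ≤ L ^ (1 / 8 : ℝ) := by positivity
    linarith
  · have a1 : Real.exp (L ^ (1 - 4 * ε)) * Real.exp (-(L ^ (1 - ε) / 8)) * (2 * L)
        ≤ Real.exp (L ^ (1 - 4 * ε)) * Real.exp (-(L ^ (1 - ε) / 8)) * Real.exp (32 * L ^ (1 / 8 : ℝ)) :=
      mul_le_mul_of_nonneg_left h2L (by positivity)
    refine a1.trans ?_
    rw [← Real.exp_add, ← Real.exp_add, Real.exp_le_one_iff]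
    have a2 : 0 ≤ L ^ (1 / 8 : ℝ) := by positivity
    linarith

/-- one window `[B, 2B]` -/
lemma window2 (C G : ℝ) (hC : 0 < C) (B : ℕ) (hB : 3 ≤ B) (T : Finset ℝ)
    (hG : T.card * G ≤ B / Real.log B) (S : Finset ℕ) (a : ℕ → ℂ) (ha : ∀ p ∈ S, ‖a p‖ ≤ 1 / p)
    (hS : ∀ p ∈ S, p.Prime ∧ B ≤ p ∧ p ≤ 2 * B)
    (h : ∑ t ∈ T, ‖∑ p ∈ S, a p * ee (-t) p‖ ^ 2
      ≤ C * (B / Real.log B + T.card * G) * ∑ p ∈ S, ‖a p‖ ^ 2) :
    ∑ t ∈ T, ‖∑ p ∈ S, a p * ee (-t) p‖ ^ 2 ≤ 8 * C / (Real.log B) ^ 2 := by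
  have hBr : (3 : ℝ) ≤ B := by exact_mod_cast hB
  have hB0 : (0 : ℝ) < B := by linarith
  have hlog : 0 < Real.log B := Real.log_pos (by linarith)
  have h2 : ∑ p ∈ S, ‖a p‖ ^ 2 ≤ 4 / (B * Real.log B) := by
    have a1 : ∀ p ∈ S, ‖a p‖ ^ 2 ≤ 1 / (B : ℝ) ^ 2 := by
      intro p hp
      obtain ⟨_, h4, _⟩ := hS p hp
      have h4' : (B : ℝ) ≤ p := by exact_mod_cast h4
      have h5 : ‖a p‖ ≤ 1 / B := (ha p hp).trans (one_div_le_one_div_of_le hB0 h4')
      have h6 := pow_le_pow_left₀ (norm_nonneg _) h5 2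
      rwa [div_pow, one_pow] at h6
    refine (Finset.sum_le_sum a1).trans ?_
    rw [Finset.sum_const, nsmul_eq_mul, mul_one_div, div_le_div_iff₀ (by positivity) (by positivity)]
    have a2 := card_primes B (by omega) S hS
    nlinarith
  have h4 : 0 ≤ ∑ p ∈ S, ‖a p‖ ^ 2 := Finset.sum_nonneg fun p _ => sq_nonneg _
  refine h.trans ?_
  have h5 : C * (B / Real.log B + T.card * G) ≤ C * (2 * (B / Real.log B)) := by
    refine mul_le_mul_of_nonneg_left ?_ hC.le
    linarith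
  refine (mul_le_mul h5 h2 h4 (by positivity)).trans (le_of_eq ?_)
  field_simp
  norm_num

/-- **Row SPV.** -/
theorem SPV_row (hW : VDC) (hZ : VMV.Zsum) : SPV := by
  intro ε hε hε8
  obtain ⟨c, hc, C, hC, P0, hcore⟩ := hm_core2 hW hZ
  have hCpos : 0 < C := by linarith
  obtain ⟨L0, hL0⟩ := eventually_atTop.1 (ev_all ε c C (2 * ((P0 : ℝ) + 10)) hε hε8 hc hCpos)
  refine ⟨32 * (8 * C) * 4, by positivity, Real.exp (max L0 16), ?_⟩
  intro X hX f hf H v hH hHv hv1 hv2 R τ hR hcard hτ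
  have hXpos : 0 < X := (Real.exp_pos _).trans_le hX
  set L : ℝ := Real.log X with hL
  have hLge : max L0 16 ≤ L := by
    rw [hL, ← Real.log_exp (max L0 16)]
    exact Real.log_le_log (Real.exp_pos _) hX
  obtain ⟨hL16, hK, hCL, hA, hB⟩ := hL0 L ((le_max_left _ _).trans hLge)
  have hX16 : 16 ≤ X := by
    have h1 : Real.exp 16 ≤ X := (Real.exp_le_exp.2 (le_max_right _ _)).trans hX
    have h2 := Real.add_one_le_exp (16 : ℝ)
    linarith
  have hX1 : 1 ≤ X := by linarith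
  set y : ℝ := (v : ℝ) / H with hy
  have hyL : L ^ (1 - ε) ≤ y := hv1
  have hP0r : (0 : ℝ) ≤ P0 := Nat.cast_nonneg P0
  have hy20 : 2 * ((P0 : ℝ) + 10) ≤ y := hK.trans hyL
  have hH' : (1 : ℝ) ≤ H := by exact_mod_cast hH
  set P : ℕ := ⌊Real.exp y⌋₊ with hP
  have hPle : (P : ℝ) ≤ Real.exp y := Nat.floor_le (Real.exp_pos _).le
  have hPlt : Real.exp y < P + 1 := Nat.lt_floor_add_one _
  -- `P` is large
  have hPexp : Real.exp (y / 2) ≤ P := by
    have h1 : Real.exp y = Real.exp (y / 2) * Real.exp (y / 2) := by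
      rw [← Real.exp_add]; congr 1; ring
    have h2 := Real.add_one_le_exp (y / 2)
    nlinarith
  have hPge : (P0 : ℝ) + 10 ≤ P := by
    have h2 := Real.add_one_le_exp (y / 2)
    linarith
  have hPge' : P0 + 10 ≤ P := by exact_mod_cast hPge
  have hPpos : (0 : ℝ) < P := by linarith
  have hlogP : y / 2 ≤ Real.log P := by
    rw [← Real.log_exp (y / 2)]
    exact Real.log_le_log (Real.exp_pos _) hPexp
  have hexple : Real.exp y ≤ √X := by
    refine le_trans ?_ hv2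
    apply Real.exp_le_exp.2
    rw [hy]
    exact div_le_div_of_nonneg_right (by linarith) (by linarith)
  have hsq : √X * √X = X := Real.mul_self_sqrt hXpos.le
  have hsq0 : 0 ≤ √X := Real.sqrt_nonneg X
  have hsq4 : 4 ≤ √X := by
    apply Real.le_sqrt_of_sq_le
    linarith
  have hPX : (2 * P : ℝ) ≤ X := by
    have : (P : ℝ) ≤ √X := hPle.trans hexple
    nlinarith
  set V : ℝ := X ^ 2 with hV
  have hlogV : Real.log V = 2 * L := by rw [hV, Real.log_pow]; push_cast; ring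
  have hXV : X ≤ V := by rw [hV]; nlinarith
  -- the windows: `B = P` and `B = 2P`
  have hwin : ∀ B : ℕ, P ≤ B → B ≤ 2 * P → (B : ℝ) ≤ V ∧
      C * (Real.log V) ^ (4 / 5 : ℝ) ≤ Real.log B / 2 ∧ y / 2 ≤ Real.log B ∧
      ∀ N : ℝ, 0 ≤ N → N ≤ Real.exp (L ^ (1 - 4 * ε)) →
        N * (B * (Real.exp (-(c * (Real.log B) ^ 3 / (Real.log V) ^ 2)) * (1 + Real.log B) ^ 3)
          + (B : ℝ) ^ (3 / 4 : ℝ)) ≤ B / Real.log B := by
    intro B hB1 hB2
    have hB1' : (P : ℝ) ≤ B := by exact_mod_cast hB1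
    have hB2' : (B : ℝ) ≤ 2 * P := by exact_mod_cast hB2
    have hBpos : (0 : ℝ) < B := by linarith
    have hlB : Real.log P ≤ Real.log B := Real.log_le_log hPpos hB1'
    have hlB2 : Real.log B ≤ L := Real.log_le_log hBpos (by linarith)
    have hlBy : y / 2 ≤ Real.log B := hlogP.trans hlB
    have hlB0 : 0 < Real.log B := by linarith
    have hyy : L ^ (1 - ε) / 2 ≤ Real.log B := by linarith
    refine ⟨by linarith, ?_, hlBy, ?_⟩
    · rw [hlogV]; linarith
    · intro N hN0 hN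
      set ly : ℝ := L ^ (1 - ε) with hly
      have hly0 : 0 < ly := by positivity
      have hly3 : ly ^ 3 = L ^ (1 - 3 * ε) * L ^ 2 := by
        rw [hly, ← Real.rpow_natCast, ← Real.rpow_mul (by linarith), ← Real.rpow_natCast L 2,
          ← Real.rpow_add (by linarith)]
        congr 1; push_cast; ring
      have h1 : Real.exp (-(c * (Real.log B) ^ 3 / (Real.log V) ^ 2))
          ≤ Real.exp (-(c / 32 * L ^ (1 - 3 * ε))) := by
        apply Real.exp_le_exp.2
        apply neg_le_neg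
        rw [hlogV, le_div_iff₀ (by positivity)]
        have a1 : (ly / 2) ^ 3 ≤ (Real.log B) ^ 3 := pow_le_pow_left₀ (by positivity) hyy 3
        have a2 : c / 32 * L ^ (1 - 3 * ε) * (2 * L) ^ 2 = c * (ly / 2) ^ 3 := by
          rw [div_pow, hly3]; ring
        rw [a2]
        exact mul_le_mul_of_nonneg_left a1 hc.le
      have h2 : (1 + Real.log B) ^ 3 ≤ (1 + L) ^ 3 :=
        pow_le_pow_left₀ (by positivity) (by linarith) 3
      have h3 : (B : ℝ) ^ (3 / 4 : ℝ) ≤ B * Real.exp (-(ly / 8)) := by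
        have a1 : (B : ℝ) ^ (3 / 4 : ℝ) = B * Real.exp (-(Real.log B / 4)) := by
          have : (3 / 4 : ℝ) = 1 + (-(1 / 4)) := by norm_num
          rw [this, Real.rpow_add hBpos, Real.rpow_one, Real.rpow_def_of_pos hBpos]
          congr 2; ring
        rw [a1]
        refine mul_le_mul_of_nonneg_left (Real.exp_le_exp.2 ?_) hBpos.le
        linarith
      have h4 : N * (Real.exp (-(c * (Real.log B) ^ 3 / (Real.log V) ^ 2)) * (1 + Real.log B) ^ 3)
          * (2 * Real.log B) ≤ 1 := by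
        refine le_trans ?_ hA
        refine mul_le_mul ?_ (by linarith) (by positivity) (by positivity)
        exact mul_le_mul hN (mul_le_mul h1 h2 (by positivity) (by positivity)) (by positivity)
          (by positivity)
      have h5 : N * Real.exp (-(ly / 8)) * (2 * Real.log B) ≤ 1 := by
        refine le_trans ?_ hB
        refine mul_le_mul ?_ (by linarith) (by positivity) (by positivity)
        exact mul_le_mul_of_nonneg_right hN (by positivity)
      rw [le_div_iff₀ hlB0]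
      have h6 : N * (B : ℝ) ^ (3 / 4 : ℝ) ≤ N * (B * Real.exp (-(ly / 8))) :=
        mul_le_mul_of_nonneg_left h3 hN0
      have h7 := mul_le_mul_of_nonneg_right h6 hlB0.le
      have h8 := mul_le_mul_of_nonneg_left h4 hBpos.le
      have h9 := mul_le_mul_of_nonneg_left h5 hBpos.le
      nlinarith
  -- all primes of the window lie in [P, 4P]
  have hWmem : ∀ p ∈ W H v, p.Prime ∧ P ≤ p ∧ p ≤ 4 * P := by
    intro p hp
    unfold W at hp
    rw [mem_filter, mem_Ioc] at hp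
    refine ⟨hp.2, hp.1.1.le, ?_⟩
    have h1 : (p : ℝ) ≤ Real.exp (((v : ℝ) + 1) / H) := by
      have h1 : (p : ℝ) ≤ (⌊Real.exp (((v : ℝ) + 1) / H)⌋₊ : ℝ) := by exact_mod_cast hp.1.2
      exact h1.trans (Nat.floor_le (Real.exp_pos _).le)
    have h2 : Real.exp (((v : ℝ) + 1) / H) ≤ Real.exp 1 * Real.exp y := by
      rw [← Real.exp_add]
      apply Real.exp_le_exp.2
      rw [add_div]
      have : 1 / (H : ℝ) ≤ 1 := by rw [div_le_one (by linarith)]; exact hH'
      linarith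
    have h4 := Real.exp_one_lt_d9
    have h5 : (p : ℝ) ≤ 4 * P := by
      have h6 : Real.exp 1 * Real.exp y ≤ 2.7182818286 * (P + 1) :=
        mul_le_mul h4.le hPlt.le (Real.exp_pos _).le (by norm_num)
      linarith
    exact_mod_cast h5
  set S1 := (W H v).filter (fun p => p ≤ 2 * P) with hS1
  set S2 := (W H v).filter (fun p => ¬ p ≤ 2 * P) with hS2
  set a : ℕ → ℂ := fun p => (((1 / (p : ℝ) : ℝ) : ℂ) * f p) with ha
  have ha1 : ∀ p : ℕ, ‖a p‖ ≤ 1 / p := by
    intro p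
    rw [ha]
    simp only
    rw [norm_mul, Complex.norm_real, Real.norm_of_nonneg (by positivity)]
    exact mul_le_of_le_one_right (by positivity) (hf p)
  have hQ : ∀ t : ℝ, QF f H v t = ∑ p ∈ S1, a p * ee (-t) p + ∑ p ∈ S2, a p * ee (-t) p := by
    intro t
    unfold QF
    rw [hS1, hS2, Finset.sum_filter_add_sum_filter_not]
    refine Finset.sum_congr rfl fun p _ => ?_
    rw [nt_eq_ee]
  have hy0 : 0 < y := by linarith
  -- one parity class
  have hclass : ∀ R' : Finset ℤ, R' ⊆ R → (∀ r ∈ R', ∀ s ∈ R', r ≠ s → 2 ≤ |r - s|) →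
      ∑ r ∈ R', ‖QF f H v (τ r)‖ ^ 2 ≤ 16 * (8 * C) * 4 / y ^ 2 := by
    intro R' hR' hpar
    obtain ⟨hsep, hcd, hsum⟩ := parity R' τ (fun r hr => hτ r (hR' hr)) hpar
      (fun t => ‖QF f H v t‖ ^ 2)
    rw [hsum]
    set T := R'.image τ with hT
    have hTb : ∀ s ∈ T, |s| ≤ 2 * X + 1 := by
      intro s hs
      rw [hT, mem_image] at hs
      obtain ⟨r, hr, rfl⟩ := hs
      have h1 := hR r (hR' hr)
      have h2 := hτ r (hR' hr)
      rw [abs_le] at h1 ⊢
      constructor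
      · linarith [h2.1]
      · linarith [h2.2]
    have hTdist : ∀ s ∈ T, ∀ t ∈ T, |s - t| ≤ V := by
      intro s hs t ht
      have h1 := hTb s hs
      have h2 := hTb t ht
      have h3 : |s - t| ≤ |s| + |t| := abs_sub s t
      rw [hV]
      nlinarith
    have hTcard : (T.card : ℝ) ≤ Real.exp (L ^ (1 - 4 * ε)) := by
      refine le_trans ?_ hcard
      exact_mod_cast hcd.trans (Finset.card_le_card hR')
    obtain ⟨w1, w2, w3, w4⟩ := hwin P le_rfl (by omega)
    obtain ⟨z1, z2, z3, z4⟩ := hwin (2 * P) (by omega) le_rfl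
    have hA1 := window2 C _ hCpos P (by omega) T (w4 _ (Nat.cast_nonneg _) hTcard) S1 a
      (fun p _ => ha1 p) (by
      intro p hp
      rw [hS1, mem_filter] at hp
      exact ⟨(hWmem p hp.1).1, (hWmem p hp.1).2.1, hp.2⟩)
      (hcore P (by omega) V w1 w2 T hsep hTdist S1 (by
        intro p hp
        rw [hS1, mem_filter] at hp
        exact ⟨(hWmem p hp.1).1, (hWmem p hp.1).2.1, hp.2⟩) a)
    have hA2 := window2 C _ hCpos (2 * P) (by omega) T (z4 _ (Nat.cast_nonneg _) hTcard) S2 a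
      (fun p _ => ha1 p) (by
      intro p hp
      rw [hS2, mem_filter] at hp
      exact ⟨(hWmem p hp.1).1, by omega, by have := (hWmem p hp.1).2.2; omega⟩)
      (hcore (2 * P) (by omega) V z1 z2 T hsep hTdist S2 (by
        intro p hp
        rw [hS2, mem_filter] at hp
        exact ⟨(hWmem p hp.1).1, by omega, by have := (hWmem p hp.1).2.2; omega⟩) a)
    have hfin : ∀ B : ℕ, y / 2 ≤ Real.log B → 8 * C / (Real.log B) ^ 2 ≤ 8 * C * 4 / y ^ 2 := by
      intro B hB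
      have h1 : (y / 2) ^ 2 ≤ (Real.log B) ^ 2 := pow_le_pow_left₀ (by positivity) hB 2
      refine (div_le_div_of_nonneg_left (by positivity) (by positivity) h1).trans (le_of_eq ?_)
      field_simp
      norm_num
    have hpt : ∀ t ∈ T, ‖QF f H v t‖ ^ 2 ≤ 2 * ‖∑ p ∈ S1, a p * ee (-t) p‖ ^ 2
        + 2 * ‖∑ p ∈ S2, a p * ee (-t) p‖ ^ 2 := by
      intro t _
      rw [hQ t]
      exact norm_add_sq_le _ _
    refine (Finset.sum_le_sum hpt).trans ?_
    rw [Finset.sum_add_distrib, ← Finset.mul_sum, ← Finset.mul_sum]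
    have b1 := hfin P w3
    have b2 := hfin (2 * P) z3
    have e16 : 16 * (8 * C) * 4 / y ^ 2 = 16 * (8 * C * 4 / y ^ 2) := by ring
    rw [e16]
    have : 0 ≤ 8 * C * 4 / y ^ 2 := by positivity
    linarith
  have hsplit : ∑ r ∈ R, ‖QF f H v (τ r)‖ ^ 2
      = ∑ r ∈ R.filter (fun r => Even r), ‖QF f H v (τ r)‖ ^ 2
        + ∑ r ∈ R.filter (fun r => ¬ Even r), ‖QF f H v (τ r)‖ ^ 2 := by
    rw [Finset.sum_filter_add_sum_filter_not]
  have hpar2 : ∀ r s : ℤ, Even (r - s) → r ≠ s → 2 ≤ |r - s| := by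
    intro r s hev hne
    obtain ⟨k, hk⟩ := hev
    have hk0 : k ≠ 0 := by rintro rfl; omega
    rw [hk]
    have : 1 ≤ |k| := Int.one_le_abs hk0
    have e : |k + k| = 2 * |k| := by
      rw [← two_mul, abs_mul]; norm_num
    rw [e]; omega
  rw [hsplit]
  have h1 := hclass (R.filter (fun r => Even r)) (Finset.filter_subset _ _) (by
    intro r hr s hs hne
    rw [mem_filter] at hr hs
    exact hpar2 r s (hr.2.sub hs.2) hne)
  have h2 := hclass (R.filter (fun r => ¬ Even r)) (Finset.filter_subset _ _) (by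
    intro r hr s hs hne
    rw [mem_filter, Int.not_even_iff_odd] at hr hs
    exact hpar2 r s (hr.2.sub_odd hs.2) hne)
  have e : 32 * (8 * C) * 4 / y ^ 2 = 16 * (8 * C) * 4 / y ^ 2 + 16 * (8 * C) * 4 / y ^ 2 := by ring
  rw [e]
  exact add_le_add h1 h2

end Pool.Agent.MR2.SPV
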