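import Pool.Agent.Lib.MR2.Defs
import Pool.Agent.Lib.MRF.HA

/-!
# Row SR of tank MR2: sup bound for the cofactors, from Halász with explicit constant
-/

set_option autoImplicit false
open Finset Complex

namespace Pool.Agent.MR2

open Pool.Agent.MRL Pool.Agent.MRF

theorem hit_eq (P : Finset ℕ) (n : ℕ) : hit P n = 1 - free P n := by
  unfold hit free
  by_cases h : ∃ p ∈ P, p ∣ n
  · rw [if_pos h, if_neg (by push Not; exact h)]; simp
  · rw [if_neg h, if_pos (by push Not at h; exact h)]; simp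

theorem free_union (P Q : Finset ℕ) (n : ℕ) : free (P ∪ Q) n = free P n * free Q n := by
  unfold free
  by_cases h : ∀ p ∈ P, ¬ p ∣ n
  · by_cases h' : ∀ p ∈ Q, ¬ p ∣ n
    · rw [if_pos h, if_pos h', if_pos (by
        intro p hp
        rcases mem_union.1 hp with hp | hp
        · exact h p hp
        · exact h' p hp)]; simp
    · rw [if_pos h, if_neg h', if_neg (fun hh => h' fun p hp => hh p (mem_union_right _ hp))]; simp
  · rw [if_neg h, if_neg (fun hh => h fun p hp => hh p (mem_union_left _ hp))]; simp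

/-- inclusion–exclusion for the coefficient of row SR. -/
theorem hhf_eq (f : ℕ → ℂ) (P0 P1 P2 P3 : Finset ℕ) (m : ℕ) :
    (f m * free P0 m) * ((hit P1 m * hit P2 m) * free P3 m)
      = f m * free (P0 ∪ P3) m - f m * free (P0 ∪ P1 ∪ P3) m - f m * free (P0 ∪ P2 ∪ P3) m
        + f m * free (P0 ∪ P1 ∪ P2 ∪ P3) m := by
  simp only [hit_eq, free_union]
  ring

/-- sup bound for the polynomial over the integers free of the primes of `P`. -/
theorem AF_free {f : ℕ → ℂ} {θ C : ℝ} (hθ : 0 ≤ θ) (hC : 0 < C) (hH : HalC f θ C) : ∀ X : ℝ,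
    100 ≤ X → ∀ P : Finset ℕ, (∀ p ∈ P, p.Prime) → ∀ Y : ℝ, √X ≤ Y → Y ≤ X →
    ∀ t : ℝ, |t| ≤ 2 * X + 1 →
    ‖AF (fun m => f m * free P m) Y t‖
      ≤ (6 * C * 4 ^ θ) * (Real.log X) ^ (-θ) * Real.exp ((∑ p ∈ P, 1 / (p : ℝ)) / 4) := by
  intro X hX P hP Y hY1 hY2 t ht
  have hXpos : 0 < X := by linarith
  have hsq : √X ^ 2 = X := Real.sq_sqrt hXpos.le
  have hsq10 : 10 ≤ √X := by
    apply Real.le_sqrt_of_sq_le; norm_num; linarith
  obtain ⟨N0, hN0def⟩ : ∃ N0, N0 = ⌊Y⌋₊ := ⟨_, rfl⟩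
  obtain ⟨N1, hN1def⟩ : ∃ N1, N1 = ⌊2 * Y⌋₊ := ⟨_, rfl⟩
  have h1 : (N0 : ℝ) ≤ Y := by rw [hN0def]; exact Nat.floor_le (by linarith)
  have h2 : Y < N0 + 1 := by rw [hN0def]; exact Nat.lt_floor_add_one Y
  have h3 : (N1 : ℝ) ≤ 2 * Y := by rw [hN1def]; exact Nat.floor_le (by linarith)
  have h4 : N0 ≤ N1 := by
    rw [hN0def, hN1def]; exact Nat.floor_mono (by linarith)
  have hN0s : √X - 1 < N0 := by linarith
  have h5 : 3 ≤ N0 := by
    have : (3 : ℝ) ≤ N0 := by linarith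
    exact_mod_cast this
  have h5r : (3 : ℝ) ≤ N0 := by exact_mod_cast h5
  have hN0c : 2 * X + 1 ≤ (N0 : ℝ) ^ 3 := by
    have a1 : 9 / 10 * √X ≤ N0 := by linarith
    have a2 : (9 / 10 * √X) ^ 3 ≤ (N0 : ℝ) ^ 3 := pow_le_pow_left₀ (by positivity) a1 3
    have a3 : (9 / 10 * √X) ^ 3 = 729 / 1000 * (X * √X) := by
      calc (9 / 10 * √X) ^ 3 = 729 / 1000 * (√X ^ 2 * √X) := by ring
        _ = _ := by rw [hsq]
    have a4 : X * 10 ≤ X * √X := mul_le_mul_of_nonneg_left hsq10 hXpos.le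
    linarith
  have hlogN0 : Real.log X / 4 ≤ Real.log N0 := by
    have a1 : √√X ≤ N0 := by
      have b1 : √√X * 3 ≤ √X := by
        have b2 : √√X * √√X = √X := Real.mul_self_sqrt (Real.sqrt_nonneg _)
        have b3 : 3 ≤ √√X := by
          apply Real.le_sqrt_of_sq_le; norm_num; linarith
        nlinarith
      linarith
    have a2 : Real.log (√√X) ≤ Real.log N0 := by
      apply Real.log_le_log _ a1
      exact Real.sqrt_pos.2 (Real.sqrt_pos.2 hXpos)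
    have a3 : Real.log (√√X) = Real.log X / 4 := by
      rw [Real.log_sqrt (Real.sqrt_nonneg _), Real.log_sqrt hXpos.le]; ring
    linarith
  have hlogX : 0 < Real.log X := Real.log_pos (by linarith)
  set E : ℝ := Real.exp ((∑ p ∈ P, 1 / (p : ℝ)) / 4) with hE
  have hE0 : 0 < E := Real.exp_pos _
  set B : ℝ := C * (Real.log N0) ^ (-θ) * E with hB
  have hlog0 : 0 < Real.log N0 := Real.log_pos (by linarith)
  have hB0 : 0 ≤ B := by positivity
  set F : ℕ → ℂ := fun m => f m * free P m with hFdef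
  have hF : ∀ m, N0 ≤ m → ‖haF F t m‖ ≤ B * m := by
    intro m hm
    have hmr : (N0 : ℝ) ≤ m := by exact_mod_cast hm
    have h6 := hH (m : ℝ) (by linarith) P hP t (by
      refine ht.trans (hN0c.trans ?_)
      exact pow_le_pow_left₀ (by positivity) hmr 3)
    rw [Nat.floor_natCast] at h6
    refine (show ‖haF F t m‖ ≤ _ from h6).trans ?_
    have h7 : (Real.log m) ^ (-θ) ≤ (Real.log N0) ^ (-θ) :=
      Real.rpow_le_rpow_of_nonpos hlog0 (Real.log_le_log (by linarith) hmr) (by linarith)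
    rw [hB]
    calc C * m * (Real.log m) ^ (-θ) * E
        = (Real.log m) ^ (-θ) * (C * m * E) := by ring
      _ ≤ (Real.log N0) ^ (-θ) * (C * m * E) :=
          mul_le_mul_of_nonneg_right h7 (by positivity)
      _ = _ := by ring
  have h8 := ha_abel F (t := t) (B := B) hB0 (by omega : 1 ≤ N0) hF N1 h4
  have hA : AF F Y t = ∑ m ∈ Ioc N0 N1, (((1 / (m : ℝ) : ℝ) : ℂ) * F m) * nt m t := by
    rw [hN0def, hN1def]; rfl
  have h9 : ∀ m, N0 ≤ m → ‖haF F t m / (m : ℂ)‖ ≤ B := by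
    intro m hm
    have hmr : (1 : ℝ) ≤ m := by
      have : (N0 : ℝ) ≤ m := by exact_mod_cast hm
      linarith
    rw [norm_div, Complex.norm_natCast, div_le_iff₀ (by linarith)]
    exact hF m hm
  have h10 : B * ((N1 : ℝ) - N0) / N0 ≤ B * 4 := by
    rw [div_le_iff₀ (by linarith)]
    have : (N1 : ℝ) - N0 ≤ 4 * N0 := by linarith
    calc B * ((N1 : ℝ) - N0) ≤ B * (4 * N0) := by gcongr
      _ = B * 4 * N0 := by ring
  rw [hA]
  have h11 : (∑ m ∈ Ioc N0 N1, (((1 / (m : ℝ) : ℝ) : ℂ) * F m) * nt m t)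
      = ((∑ m ∈ Ioc N0 N1, (((1 / (m : ℝ) : ℝ) : ℂ) * F m) * nt m t) - haF F t N1 / N1
          + haF F t N0 / N0) + haF F t N1 / N1 - haF F t N0 / N0 := by ring
  have h12 : ‖∑ m ∈ Ioc N0 N1, (((1 / (m : ℝ) : ℝ) : ℂ) * F m) * nt m t‖ ≤ 6 * B := by
    rw [h11]
    calc _ ≤ _ := norm_sub_le _ _
      _ ≤ (‖(∑ m ∈ Ioc N0 N1, (((1 / (m : ℝ) : ℝ) : ℂ) * F m) * nt m t) - haF F t N1 / N1
            + haF F t N0 / N0‖ + ‖haF F t N1 / N1‖) + ‖haF F t N0 / N0‖ := by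
          gcongr; exact norm_add_le _ _
      _ ≤ (B * 4 + B) + B := by
          gcongr
          · exact h8.trans h10
          · exact h9 N1 h4
          · exact h9 N0 le_rfl
      _ = 6 * B := by ring
  refine h12.trans ?_
  have h13 : (Real.log N0) ^ (-θ) ≤ 4 ^ θ * (Real.log X) ^ (-θ) := by
    have a1 : (Real.log N0) ^ (-θ) ≤ (Real.log X / 4) ^ (-θ) :=
      Real.rpow_le_rpow_of_nonpos (by positivity) hlogN0 (by linarith)
    refine a1.trans (le_of_eq ?_)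
    rw [Real.div_rpow hlogX.le (by norm_num), Real.rpow_neg (by norm_num : (0 : ℝ) ≤ 4), div_inv_eq_mul]
    ring
  rw [hB]
  calc 6 * (C * (Real.log N0) ^ (-θ) * E) = (Real.log N0) ^ (-θ) * (6 * C * E) := by ring
    _ ≤ (4 ^ θ * (Real.log X) ^ (-θ)) * (6 * C * E) :=
        mul_le_mul_of_nonneg_right h13 (by positivity)
    _ = _ := by ring

/-- **Row SR.** -/
theorem supR : SupR := by
  intro θ C0 hθ hC0
  refine ⟨4 * (6 * C0 * 4 ^ θ), by positivity, 100, ?_⟩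
  intro X hX f hf P0 P1 P2 P3 hP Y hY1 hY2 t ht
  have hA := AF_free hθ.le hC0 hf
  set C : ℝ := 6 * C0 * 4 ^ θ with hC
  have hC1 : 0 < C := by positivity
  set E : ℝ := Real.exp ((∑ p ∈ P0 ∪ P1 ∪ P2 ∪ P3, 1 / (p : ℝ)) / 4) with hE
  have hlogX : 0 < Real.log X := Real.log_pos (by linarith)
  have hb : ∀ Q : Finset ℕ, Q ⊆ P0 ∪ P1 ∪ P2 ∪ P3 →
      ‖AF (fun m => f m * free Q m) Y t‖ ≤ C * (Real.log X) ^ (-θ) * E := by
    intro Q hQ
    refine (hA X hX Q (fun p hp => hP p (hQ hp)) Y hY1 hY2 t ht).trans ?_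
    have h1 : ∑ p ∈ Q, 1 / (p : ℝ) ≤ ∑ p ∈ P0 ∪ P1 ∪ P2 ∪ P3, 1 / (p : ℝ) :=
      Finset.sum_le_sum_of_subset_of_nonneg hQ (fun _ _ _ => by positivity)
    have h2 : Real.exp ((∑ p ∈ Q, 1 / (p : ℝ)) / 4) ≤ E := by
      rw [hE]; apply Real.exp_le_exp.2; linarith
    exact mul_le_mul_of_nonneg_left h2 (by positivity)
  have hlin : AF (fun m => (f m * free P0 m) * ((hit P1 m * hit P2 m) * free P3 m)) Y t
      = AF (fun m => f m * free (P0 ∪ P3) m) Y t - AF (fun m => f m * free (P0 ∪ P1 ∪ P3) m) Y t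
        - AF (fun m => f m * free (P0 ∪ P2 ∪ P3) m) Y t
        + AF (fun m => f m * free (P0 ∪ P1 ∪ P2 ∪ P3) m) Y t := by
    unfold AF
    rw [← Finset.sum_sub_distrib, ← Finset.sum_sub_distrib, ← Finset.sum_add_distrib]
    refine Finset.sum_congr rfl fun m _ => ?_
    beta_reduce
    rw [hhf_eq]
    ring
  rw [hlin]
  have s03 : P0 ∪ P3 ⊆ P0 ∪ P1 ∪ P2 ∪ P3 := by
    intro x hx; simp only [mem_union] at hx ⊢; tauto
  have s13 : P0 ∪ P1 ∪ P3 ⊆ P0 ∪ P1 ∪ P2 ∪ P3 := by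
    intro x hx; simp only [mem_union] at hx ⊢; tauto
  have s23 : P0 ∪ P2 ∪ P3 ⊆ P0 ∪ P1 ∪ P2 ∪ P3 := by
    intro x hx; simp only [mem_union] at hx ⊢; tauto
  have b0 := hb (P0 ∪ P3) s03
  have b1 := hb (P0 ∪ P1 ∪ P3) s13
  have b2 := hb (P0 ∪ P2 ∪ P3) s23
  have b3 := hb (P0 ∪ P1 ∪ P2 ∪ P3) subset_rfl
  refine (norm_add_le _ _).trans ?_
  have c1 := norm_sub_le (AF (fun m => f m * free (P0 ∪ P3) m) Y t
      - AF (fun m => f m * free (P0 ∪ P1 ∪ P3) m) Y t) (AF (fun m => f m * free (P0 ∪ P2 ∪ P3) m) Y t)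
  have c2 := norm_sub_le (AF (fun m => f m * free (P0 ∪ P3) m) Y t)
    (AF (fun m => f m * free (P0 ∪ P1 ∪ P3) m) Y t)
  linarith

end Pool.Agent.MR2
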