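import Pool.Agent.Lib.MR2.Defs

/-! # TANK MR2, row SV: Turán–Kubilius in a window (`sieveWin : SieveWin`). helper9. -/

set_option autoImplicit false

namespace Pool.Agent.MR2

open Finset

namespace SV

/-- multiples of `d` in a window -/
lemma cnt (d x h : ℕ) (hd : 0 < d) :
    (h : ℝ) / d - 1 ≤ (((Ico x (x + h)).filter (fun n => d ∣ n)).card : ℝ) ∧
    (((Ico x (x + h)).filter (fun n => d ∣ n)).card : ℝ) ≤ (h : ℝ) / d + 1 := by
  have h1 := Nat.Ico_filter_modEq_card (a := x) (b := x + h) hd 0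
  have h2 : ((Ico x (x + h)).filter (fun n => n ≡ 0 [MOD d])) =
      ((Ico x (x + h)).filter (fun n => d ∣ n)) := by
    refine filter_congr fun n _ => ?_
    exact Nat.modEq_zero_iff_dvd
  rw [h2] at h1
  set c := ((Ico x (x + h)).filter (fun n => d ∣ n)).card with hc
  have hdQ : (0 : ℚ) < d := by exact_mod_cast hd
  have e1 : (((x + h : ℕ) : ℚ) - ((0 : ℕ) : ℚ)) / d = (x : ℚ) / d + (h : ℚ) / d := by
    push_cast; ring
  have e2 : (((x : ℕ) : ℚ) - ((0 : ℕ) : ℚ)) / d = (x : ℚ) / d := by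
    push_cast; ring
  rw [e1, e2] at h1
  have c1 := Int.le_ceil ((x : ℚ) / d + (h : ℚ) / d)
  have c2 := Int.ceil_lt_add_one ((x : ℚ) / d + (h : ℚ) / d)
  have c3 := Int.le_ceil ((x : ℚ) / d)
  have c4 := Int.ceil_lt_add_one ((x : ℚ) / d)
  have h3 : (0 : ℚ) ≤ (h : ℚ) / d := by positivity
  have hcQ : (c : ℚ) = max (((⌈(x : ℚ) / d + (h : ℚ) / d⌉ : ℤ) : ℚ) - ((⌈(x : ℚ) / d⌉ : ℤ) : ℚ)) 0 := by
    have := congrArg (fun z : ℤ => (z : ℚ)) h1
    push_cast at this
    exact this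
  have k1 : (h : ℚ) / d - 1 ≤ c := by
    rw [hcQ]; refine le_max_of_le_left ?_; linarith
  have k2 : (c : ℚ) ≤ (h : ℚ) / d + 1 := by
    rw [hcQ]; refine max_le ?_ ?_ <;> linarith
  have k1' : (((h : ℚ) / d - 1 : ℚ) : ℝ) ≤ ((c : ℚ) : ℝ) := Rat.cast_le.2 k1
  have k2' : ((c : ℚ) : ℝ) ≤ (((h : ℚ) / d + 1 : ℚ) : ℝ) := Rat.cast_le.2 k2
  push_cast at k1' k2'
  exact ⟨k1', k2'⟩

end SV

open Pool.Agent.Lib.MP_663568_nt.Katai (om) in
/-- **Row SV.** -/
theorem sieveWin : SieveWin := by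
  classical
  refine ⟨4, by norm_num, fun h x hh P hP hS => ?_⟩
  set S := ∑ p ∈ P, 1 / (p : ℝ) with hSdef
  set I := Ico x (x + h) with hI
  have hh1 : (1 : ℝ) ≤ h := by exact_mod_cast hh
  have hsq1 : 1 ≤ √(h : ℝ) := by rw [Real.one_le_sqrt]; exact hh1
  have hsq2 : √(h : ℝ) * √(h : ℝ) = h := Real.mul_self_sqrt (by linarith)
  -- size of `P`
  have hpos : ∀ p ∈ P, 0 < p := fun p hp => (hP p hp).1.pos
  have hple : ∀ p ∈ P, (p : ℝ) ≤ √(h : ℝ) := by
    intro p hp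
    apply Real.le_sqrt_of_sq_le
    exact_mod_cast (hP p hp).2
  have hcS : (P.card : ℝ) ≤ S * √(h : ℝ) := by
    rw [hSdef, sum_mul, card_eq_sum_ones, Nat.cast_sum]
    refine sum_le_sum fun p hp => ?_
    have h1 : (0 : ℝ) < p := by exact_mod_cast hpos p hp
    rw [Nat.cast_one, one_div, ← div_eq_inv_mul, le_div_iff₀ h1, one_mul]
    exact hple p hp
  have hcs : (P.card : ℝ) ≤ √(h : ℝ) := by
    have h1 : P ⊆ Icc 1 ⌊√(h : ℝ)⌋₊ := by
      intro p hp
      rw [mem_Icc]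
      exact ⟨hpos p hp, Nat.le_floor (hple p hp)⟩
    have h2 := card_le_card h1
    rw [Nat.card_Icc] at h2
    calc (P.card : ℝ) ≤ (⌊√(h : ℝ)⌋₊ : ℝ) := by exact_mod_cast (by omega : P.card ≤ ⌊√(h : ℝ)⌋₊)
      _ ≤ √(h : ℝ) := Nat.floor_le (by positivity)
  -- first moment
  have hom : ∀ n, om P n = ∑ p ∈ P, if p ∣ n then (1 : ℝ) else 0 := fun n => rfl
  have hI1 : (∑ n ∈ I, (1 : ℝ)) = h := by
    rw [sum_const, hI, Nat.card_Ico]; simp
  have h1m : (h : ℝ) * S - P.card ≤ ∑ n ∈ I, om P n := by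
    simp only [hom]
    rw [sum_comm]
    have : (h : ℝ) * S - P.card = ∑ p ∈ P, ((h : ℝ) / p - 1) := by
      rw [sum_sub_distrib, hSdef, mul_sum, card_eq_sum_ones, Nat.cast_sum]
      congr 1
      · refine sum_congr rfl fun p _ => ?_
        ring
      · simp
    rw [this]
    refine sum_le_sum fun p hp => ?_
    rw [← sum_filter, sum_const, nsmul_eq_mul, mul_one]
    exact (SV.cnt p x h (hpos p hp)).1
  -- second moment
  have h2m : ∑ n ∈ I, om P n ^ 2 ≤ (h : ℝ) * S ^ 2 + (P.card : ℝ) ^ 2 + (h : ℝ) * S := by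
    have e1 : ∀ n, om P n ^ 2 = ∑ p ∈ P, ∑ q ∈ P, if p ∣ n ∧ q ∣ n then (1 : ℝ) else 0 := by
      intro n
      rw [hom, sq, sum_mul_sum]
      refine sum_congr rfl fun p _ => sum_congr rfl fun q _ => ?_
      by_cases h1 : p ∣ n <;> by_cases h2 : q ∣ n <;> simp [h1, h2]
    have e2 : ∑ n ∈ I, om P n ^ 2 =
        ∑ p ∈ P, ∑ q ∈ P, ∑ n ∈ I, if p ∣ n ∧ q ∣ n then (1 : ℝ) else 0 := by
      rw [sum_congr rfl fun n _ => e1 n, sum_comm]
      refine sum_congr rfl fun p _ => ?_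
      rw [sum_comm]
    rw [e2]
    have e3 : ∀ p ∈ P, ∀ q ∈ P, (∑ n ∈ I, if p ∣ n ∧ q ∣ n then (1 : ℝ) else 0) ≤
        (h : ℝ) * ((1 / p) * (1 / q)) + 1 + (if p = q then (h : ℝ) * (1 / p) else 0) := by
      intro p hp q hq
      rw [← sum_filter, sum_const, nsmul_eq_mul, mul_one]
      have hpp : (0 : ℝ) < p := by exact_mod_cast hpos p hp
      have hqp : (0 : ℝ) < q := by exact_mod_cast hpos q hq
      by_cases hpq : p = q
      · subst hpq
        rw [if_pos rfl]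
        have h1 := (SV.cnt p x h (hpos p hp)).2
        have h2 : (I.filter fun n => p ∣ n ∧ p ∣ n) = I.filter fun n => p ∣ n :=
          filter_congr fun n _ => by tauto
        rw [h2]
        have h3 : 0 ≤ (h : ℝ) * ((1 / p) * (1 / p)) := by positivity
        have h4 : (h : ℝ) / p = h * (1 / p) := by ring
        rw [h4] at h1
        linarith
      · rw [if_neg hpq]
        have hcop : Nat.Coprime p q := (Nat.coprime_primes (hP p hp).1 (hP q hq).1).2 hpq
        have h2 : (I.filter fun n => p ∣ n ∧ q ∣ n) = I.filter fun n => p * q ∣ n :=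
          filter_congr fun n _ => ⟨fun h => hcop.mul_dvd_of_dvd_of_dvd h.1 h.2,
            fun h => ⟨dvd_of_mul_right_dvd h, dvd_of_mul_left_dvd h⟩⟩
        rw [h2]
        have h1 := (SV.cnt (p * q) x h (Nat.mul_pos (hpos p hp) (hpos q hq))).2
        have h4 : (h : ℝ) / ((p * q : ℕ) : ℝ) = h * ((1 / p) * (1 / q)) := by
          push_cast
          field_simp
        rw [h4] at h1
        linarith
    refine (sum_le_sum fun p hp => sum_le_sum fun q hq => e3 p hp q hq).trans ?_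
    have e4 : ∑ p ∈ P, ∑ q ∈ P, ((h : ℝ) * ((1 / p) * (1 / q)) + 1 +
        (if p = q then (h : ℝ) * (1 / p) else 0)) =
        (h : ℝ) * S ^ 2 + (P.card : ℝ) ^ 2 + (h : ℝ) * S := by
      simp only [sum_add_distrib]
      congr 1
      · congr 1
        · rw [hSdef, sq, sum_mul_sum, mul_sum]
          refine sum_congr rfl fun p _ => ?_
          rw [mul_sum]
        · rw [sum_const, sum_const, nsmul_eq_mul, nsmul_eq_mul, mul_one, sq]
      · rw [hSdef, mul_sum]
        refine sum_congr rfl fun p hp => ?_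
        rw [sum_ite_eq, if_pos hp]
    exact e4.le
  -- variance
  have hvar : ∑ n ∈ I, (om P n - S) ^ 2 ≤ 4 * h * S := by
    have e1 : ∑ n ∈ I, (om P n - S) ^ 2 =
        ∑ n ∈ I, om P n ^ 2 - 2 * S * ∑ n ∈ I, om P n + S ^ 2 * h := by
      have e0 : ∀ n, (om P n - S) ^ 2 = om P n ^ 2 - 2 * S * om P n + S ^ 2 * 1 := fun n => by ring
      simp only [e0]
      rw [sum_add_distrib, sum_sub_distrib, ← mul_sum, ← mul_sum, hI1]
    rw [e1]
    have f1 : (P.card : ℝ) ^ 2 ≤ h * S := by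
      have h1 : (P.card : ℝ) * P.card ≤ (S * √(h : ℝ)) * √(h : ℝ) :=
        mul_le_mul hcS hcs (by positivity) (by positivity)
      rw [mul_assoc, hsq2] at h1
      rw [sq]; linarith
    have f2 : (P.card : ℝ) ≤ h := by
      have : √(h : ℝ) ≤ h := by nlinarith
      linarith
    nlinarith [mul_le_mul_of_nonneg_left h1m hS.le, mul_le_mul_of_nonneg_left f2 hS.le]
  -- conclusion
  rw [le_div_iff₀ hS]
  have hfin : (((I.filter fun n => ∀ p ∈ P, ¬ p ∣ n).card : ℝ)) * S ^ 2 ≤ 4 * h * S := by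
    refine le_trans ?_ hvar
    rw [← nsmul_eq_mul, ← sum_const]
    refine le_trans (sum_le_sum fun n hn => ?_)
      (sum_le_sum_of_subset_of_nonneg (filter_subset _ _) fun n _ _ => sq_nonneg _)
    have h1 : om P n = 0 := by
      rw [hom]
      refine sum_eq_zero fun p hp => ?_
      rw [if_neg ((mem_filter.1 hn).2 p hp)]
    rw [h1]
    nlinarith
  have h5 : (((I.filter fun n => ∀ p ∈ P, ¬ p ∣ n).card : ℝ)) * S * S ≤ (4 * h) * S := by
    nlinarith
  exact le_of_mul_le_mul_right h5 hS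

end Pool.Agent.MR2
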