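import Pool.Agent.Lib.MR2.Defs2
import Pool.Agent.Lib.MR2.SV

/-! # TANK MR2, row SVA: Turán–Kubilius in a window and a residue class. helper67. -/

set_option autoImplicit false

namespace Pool.Agent.MR2.SVAr

open Finset

/-- one class in a window, both sides -/
theorem cls (c M x h : ℕ) (hM : 0 < M) :
    (h : ℝ) / M - 1 ≤ (((Ico x (x + h)).filter (fun n => n ≡ c [MOD M])).card : ℝ) ∧
    (((Ico x (x + h)).filter (fun n => n ≡ c [MOD M])).card : ℝ) ≤ (h : ℝ) / M + 1 := by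
  have h1 := Nat.Ico_filter_modEq_card (a := x) (b := x + h) hM c
  set k := ((Ico x (x + h)).filter (fun n => n ≡ c [MOD M])).card with hk
  have hMQ : (0 : ℚ) < M := by exact_mod_cast hM
  have e1 : (((x + h : ℕ) : ℚ) - (c : ℚ)) / M = ((x : ℚ) - c) / M + (h : ℚ) / M := by
    push_cast; ring
  rw [e1] at h1
  have c1 := Int.le_ceil (((x : ℚ) - c) / M + (h : ℚ) / M)
  have c2 := Int.ceil_lt_add_one (((x : ℚ) - c) / M + (h : ℚ) / M)
  have c3 := Int.le_ceil (((x : ℚ) - c) / M)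
  have c4 := Int.ceil_lt_add_one (((x : ℚ) - c) / M)
  have h3 : (0 : ℚ) ≤ (h : ℚ) / M := by positivity
  have hkQ : (k : ℚ) = max (((⌈((x : ℚ) - c) / M + (h : ℚ) / M⌉ : ℤ) : ℚ)
      - ((⌈((x : ℚ) - c) / M⌉ : ℤ) : ℚ)) 0 := by
    have := congrArg (fun z : ℤ => (z : ℚ)) h1
    push_cast at this
    exact this
  have k1 : (h : ℚ) / M - 1 ≤ k := by
    rw [hkQ]; refine le_max_of_le_left ?_; linarith
  have k2 : (k : ℚ) ≤ (h : ℚ) / M + 1 := by
    rw [hkQ]; refine max_le ?_ ?_ <;> linarith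
  have k1' : (((h : ℚ) / M - 1 : ℚ) : ℝ) ≤ ((k : ℚ) : ℝ) := Rat.cast_le.2 k1
  have k2' : ((k : ℚ) : ℝ) ≤ (((h : ℚ) / M + 1 : ℚ) : ℝ) := Rat.cast_le.2 k2
  push_cast at k1' k2'
  exact ⟨k1', k2'⟩

/-- one class and a divisibility in a window -/
theorem clsd {q a d x h : ℕ} (hq : 0 < q) (hd : 0 < d) (hqd : Nat.Coprime q d) :
    (h : ℝ) / q / d - 1 ≤
      (((Ico x (x + h)).filter (fun n => n ≡ a [MOD q] ∧ d ∣ n)).card : ℝ) ∧
    (((Ico x (x + h)).filter (fun n => n ≡ a [MOD q] ∧ d ∣ n)).card : ℝ) ≤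
      (h : ℝ) / q / d + 1 := by
  obtain ⟨c, hc1, hc2⟩ := Nat.chineseRemainder hqd a 0
  have h1 : (Ico x (x + h)).filter (fun n => n ≡ a [MOD q] ∧ d ∣ n) =
      (Ico x (x + h)).filter (fun n => n ≡ c [MOD (q * d)]) := by
    refine filter_congr fun n _ => ?_
    rw [← Nat.modEq_and_modEq_iff_modEq_mul hqd]
    constructor
    · rintro ⟨h1, h2⟩
      exact ⟨h1.trans hc1.symm, (Nat.modEq_zero_iff_dvd.2 h2).trans hc2.symm⟩
    · rintro ⟨h1, h2⟩
      exact ⟨h1.trans hc1, Nat.modEq_zero_iff_dvd.1 (h2.trans hc2)⟩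
  rw [h1]
  have h2 := cls c (q * d) x h (Nat.mul_pos hq hd)
  have h3 : (h : ℝ) / ((q * d : ℕ) : ℝ) = (h : ℝ) / q / d := by
    push_cast
    rw [div_div]
  rw [h3] at h2
  exact h2

open Pool.Agent.Lib.MP_663568_nt.Katai (om) in
theorem main {q a h x : ℕ} (hq : 1 ≤ q) (P : Finset ℕ)
    (hP : ∀ p ∈ P, p.Prime ∧ ¬ p ∣ q ∧ q * p ^ 2 ≤ h) (hS : 0 < ∑ p ∈ P, 1 / (p : ℝ)) :
    (((Ico x (x + h)).filter fun n => n ≡ a [MOD q] ∧ ∀ p ∈ P, ¬ p ∣ n).card : ℝ)
      ≤ 5 * ((h : ℝ) / q) / ∑ p ∈ P, 1 / (p : ℝ) := by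
  classical
  set S := ∑ p ∈ P, 1 / (p : ℝ) with hSdef
  set I := (Ico x (x + h)).filter (fun n => n ≡ a [MOD q]) with hI
  set V : ℝ := (h : ℝ) / q with hV
  have hq0 : (0 : ℝ) < q := by exact_mod_cast hq
  obtain ⟨p0, hp0⟩ : P.Nonempty := by
    rw [nonempty_iff_ne_empty]
    intro h0
    rw [hSdef, h0, sum_empty] at hS
    exact lt_irrefl _ hS
  have hpos : ∀ p ∈ P, 0 < p := fun p hp => (hP p hp).1.pos
  have hpV : ∀ p ∈ P, (p : ℝ) ^ 2 ≤ V := by
    intro p hp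
    rw [hV, le_div_iff₀ hq0]
    have := (hP p hp).2.2
    have h2 : (q : ℝ) * (p : ℝ) ^ 2 ≤ h := by exact_mod_cast this
    linarith
  have hV1 : 1 ≤ V := by
    have h1 := hpV p0 hp0
    have h2 : (1 : ℝ) ≤ p0 := by exact_mod_cast hpos p0 hp0
    nlinarith
  have hsq1 : 1 ≤ √V := by rw [Real.one_le_sqrt]; exact hV1
  have hsq2 : √V * √V = V := Real.mul_self_sqrt (by linarith)
  have hsqV : √V ≤ V := by nlinarith
  have hple : ∀ p ∈ P, (p : ℝ) ≤ √V := fun p hp => Real.le_sqrt_of_sq_le (hpV p hp)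
  have hcS : (P.card : ℝ) ≤ S * √V := by
    rw [hSdef, sum_mul, card_eq_sum_ones, Nat.cast_sum]
    refine sum_le_sum fun p hp => ?_
    have h1 : (0 : ℝ) < p := by exact_mod_cast hpos p hp
    rw [Nat.cast_one, one_div, ← div_eq_inv_mul, le_div_iff₀ h1, one_mul]
    exact hple p hp
  have hcs : (P.card : ℝ) ≤ √V := by
    have h1 : P ⊆ Icc 1 ⌊√V⌋₊ := by
      intro p hp
      rw [mem_Icc]
      exact ⟨hpos p hp, Nat.le_floor (hple p hp)⟩
    have h2 := card_le_card h1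
    rw [Nat.card_Icc, Nat.add_sub_cancel] at h2
    calc (P.card : ℝ) ≤ (⌊√V⌋₊ : ℝ) := by exact_mod_cast h2
      _ ≤ √V := Nat.floor_le (by positivity)
  have hSc : S ≤ P.card := by
    rw [hSdef, card_eq_sum_ones, Nat.cast_sum]
    refine sum_le_sum fun p hp => ?_
    have h1 : (1 : ℝ) ≤ p := by exact_mod_cast hpos p hp
    rw [Nat.cast_one, div_le_one (by linarith)]
    exact h1
  have hcop : ∀ p ∈ P, Nat.Coprime q p := fun p hp =>
    (((Nat.Prime.coprime_iff_not_dvd (hP p hp).1).2 (hP p hp).2.1).symm)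
  -- first moment
  have hom : ∀ n, om P n = ∑ p ∈ P, if p ∣ n then (1 : ℝ) else 0 := fun n => rfl
  have hIcard : (I.card : ℝ) ≤ V + 1 := (cls a q x h hq).2
  have hI1 : (∑ n ∈ I, (1 : ℝ)) ≤ V + 1 := by
    rw [sum_const, nsmul_eq_mul, mul_one]
    exact hIcard
  have hfd : ∀ d : ℕ, (I.filter fun n => d ∣ n) =
      (Ico x (x + h)).filter (fun n => n ≡ a [MOD q] ∧ d ∣ n) := by
    intro d
    rw [hI, filter_filter]
  have h1m : V * S - P.card ≤ ∑ n ∈ I, om P n := by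
    simp only [hom]
    rw [sum_comm]
    have : V * S - P.card = ∑ p ∈ P, (V / p - 1) := by
      rw [sum_sub_distrib, hSdef, mul_sum, card_eq_sum_ones, Nat.cast_sum]
      congr 1
      · refine sum_congr rfl fun p _ => ?_
        ring
      · simp
    rw [this]
    refine sum_le_sum fun p hp => ?_
    rw [← sum_filter, sum_const, nsmul_eq_mul, mul_one, hfd]
    exact (clsd hq (hpos p hp) (hcop p hp)).1
  -- second moment
  have h2m : ∑ n ∈ I, om P n ^ 2 ≤ V * S ^ 2 + (P.card : ℝ) ^ 2 + V * S := by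
    have e1 : ∀ n, om P n ^ 2 = ∑ p ∈ P, ∑ r ∈ P, if p ∣ n ∧ r ∣ n then (1 : ℝ) else 0 := by
      intro n
      rw [hom, sq, sum_mul_sum]
      refine sum_congr rfl fun p _ => sum_congr rfl fun r _ => ?_
      by_cases h1 : p ∣ n <;> by_cases h2 : r ∣ n <;> simp [h1, h2]
    have e2 : ∑ n ∈ I, om P n ^ 2 =
        ∑ p ∈ P, ∑ r ∈ P, ∑ n ∈ I, if p ∣ n ∧ r ∣ n then (1 : ℝ) else 0 := by
      rw [sum_congr rfl fun n _ => e1 n, sum_comm]
      refine sum_congr rfl fun p _ => ?_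
      rw [sum_comm]
    rw [e2]
    have e3 : ∀ p ∈ P, ∀ r ∈ P, (∑ n ∈ I, if p ∣ n ∧ r ∣ n then (1 : ℝ) else 0) ≤
        V * ((1 / p) * (1 / r)) + 1 + (if p = r then V * (1 / p) else 0) := by
      intro p hp r hr
      rw [← sum_filter, sum_const, nsmul_eq_mul, mul_one]
      have hpp : (0 : ℝ) < p := by exact_mod_cast hpos p hp
      have hrp : (0 : ℝ) < r := by exact_mod_cast hpos r hr
      by_cases hpr : p = r
      · subst hpr
        rw [if_pos rfl]
        have h1 := (clsd (a := a) (x := x) (h := h) hq (hpos p hp) (hcop p hp)).2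
        have h2 : (I.filter fun n => p ∣ n ∧ p ∣ n) = I.filter fun n => p ∣ n :=
          filter_congr fun n _ => by tauto
        rw [h2, hfd]
        have h3 : 0 ≤ V * ((1 / p) * (1 / p)) := by positivity
        have h4 : V / p = V * (1 / p) := by ring
        rw [← hV, h4] at h1
        linarith
      · rw [if_neg hpr]
        have hc : Nat.Coprime p r := (Nat.coprime_primes (hP p hp).1 (hP r hr).1).2 hpr
        have h2 : (I.filter fun n => p ∣ n ∧ r ∣ n) = I.filter fun n => p * r ∣ n :=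
          filter_congr fun n _ => ⟨fun h => hc.mul_dvd_of_dvd_of_dvd h.1 h.2,
            fun h => ⟨dvd_of_mul_right_dvd h, dvd_of_mul_left_dvd h⟩⟩
        rw [h2, hfd]
        have h1 := (clsd (a := a) (x := x) (h := h) hq (Nat.mul_pos (hpos p hp) (hpos r hr))
          ((hcop p hp).mul_right (hcop r hr))).2
        have h4 : V / ((p * r : ℕ) : ℝ) = V * ((1 / p) * (1 / r)) := by
          push_cast
          field_simp
        rw [← hV, h4] at h1
        linarith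
    refine (sum_le_sum fun p hp => sum_le_sum fun r hr => e3 p hp r hr).trans ?_
    have e4 : ∑ p ∈ P, ∑ r ∈ P, (V * ((1 / p) * (1 / r)) + 1 +
        (if p = r then V * (1 / p) else 0)) =
        V * S ^ 2 + (P.card : ℝ) ^ 2 + V * S := by
      simp only [sum_add_distrib]
      congr 1
      · congr 1
        · rw [hSdef, sq, sum_mul_sum, mul_sum]
          refine sum_congr rfl fun p _ => ?_
          rw [mul_sum]
        · rw [sum_const, sum_const, nsmul_eq_mul, nsmul_eq_mul, mul_one, sq]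
      · rw [hSdef, mul_sum]
        refine sum_congr rfl fun p hp => ?_
        rw [sum_ite_eq, if_pos hp]
    exact e4.le
  -- variance
  have hvar : ∑ n ∈ I, (om P n - S) ^ 2 ≤ 5 * V * S := by
    have e1 : ∑ n ∈ I, (om P n - S) ^ 2 =
        ∑ n ∈ I, om P n ^ 2 - 2 * S * ∑ n ∈ I, om P n + S ^ 2 * ∑ n ∈ I, (1 : ℝ) := by
      have e0 : ∀ n, (om P n - S) ^ 2 = om P n ^ 2 - 2 * S * om P n + S ^ 2 * 1 := fun n => by ring
      simp only [e0]
      rw [sum_add_distrib, sum_sub_distrib, ← mul_sum, ← mul_sum]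
    rw [e1]
    have f1 : (P.card : ℝ) ^ 2 ≤ V * S := by
      have h1 : (P.card : ℝ) * P.card ≤ (S * √V) * √V :=
        mul_le_mul hcS hcs (by positivity) (by positivity)
      rw [mul_assoc, hsq2] at h1
      rw [sq]; linarith
    have f2 : (P.card : ℝ) ≤ V := by linarith
    have f3 : S ≤ V := by linarith
    have f4 : S ^ 2 * ∑ n ∈ I, (1 : ℝ) ≤ S ^ 2 * (V + 1) :=
      mul_le_mul_of_nonneg_left hI1 (sq_nonneg S)
    have f5 := mul_le_mul_of_nonneg_left h1m hS.le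
    have f6 := mul_le_mul_of_nonneg_left f2 hS.le
    have f7 := mul_le_mul_of_nonneg_left f3 hS.le
    nlinarith
  -- conclusion
  rw [le_div_iff₀ hS]
  have hfilt : ((Ico x (x + h)).filter fun n => n ≡ a [MOD q] ∧ ∀ p ∈ P, ¬ p ∣ n) =
      I.filter fun n => ∀ p ∈ P, ¬ p ∣ n := by
    rw [hI, filter_filter]
  rw [hfilt]
  have hfin : (((I.filter fun n => ∀ p ∈ P, ¬ p ∣ n).card : ℝ)) * S ^ 2 ≤ 5 * V * S := by
    refine le_trans ?_ hvar
    rw [← nsmul_eq_mul, ← sum_const]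
    refine le_trans (sum_le_sum fun n hn => ?_)
      (sum_le_sum_of_subset_of_nonneg (filter_subset _ _) fun n _ _ => sq_nonneg _)
    have h1 : om P n = 0 := by
      rw [hom]
      refine sum_eq_zero fun p hp => ?_
      rw [if_neg ((mem_filter.1 hn).2 p hp)]
    rw [h1]
    nlinarith
  have h5 : (((I.filter fun n => ∀ p ∈ P, ¬ p ∣ n).card : ℝ)) * S * S ≤ (5 * V) * S := by
    nlinarith
  exact le_of_mul_le_mul_right h5 hS

end Pool.Agent.MR2.SVAr

namespace Pool.Agent.MR2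

/-- **Row SVA.** -/
theorem sieveWinA : SieveWinA :=
  ⟨5, by norm_num, fun _ _ _ _ hq P hP hS => SVAr.main hq P hP hS⟩

end Pool.Agent.MR2
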