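import Pool.Agent.Lib.MR2.StatL
import Pool.Agent.Lib.MRL.ML

/-! TANK MR2, row SV2: integers without a prime factor in `(y, z]` (`sieve2 : Sieve2`), and Mertens'
upper bound (`mertensUp : MertensUp`).  helper22. -/

set_option autoImplicit false

namespace Pool.Agent.MR2

open Finset
open scoped ArithmeticFunction.vonMangoldt

namespace Siv

/-- the sum of the von Mangoldt function -/
theorem psi_nat_le (n : ℕ) : ∑ d ∈ Ioc 0 n, Λ d ≤ (Real.log 4 + 4) * n := by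
  have h := Chebyshev.psi_le_const_mul_self (x := (n : ℝ)) (Nat.cast_nonneg n)
  rw [Chebyshev.psi, Nat.floor_natCast] at h
  exact h

/-- `Σ_{n ∈ F} log n ≤ Σ_{m ∈ F} ψ(N / m)` for a divisor-closed set `F ⊆ [1, N]` -/
theorem sum_log_le {N : ℕ} (F : Finset ℕ) (hF : ∀ n ∈ F, 1 ≤ n ∧ n ≤ N)
    (hd : ∀ n ∈ F, ∀ m, m ∣ n → m ∈ F) :
    ∑ n ∈ F, Real.log n ≤ (Real.log 4 + 4) * (N * ∑ m ∈ F, 1 / (m : ℝ)) := by
  have hc : (0 : ℝ) ≤ Real.log 4 + 4 := by
    have := Real.log_nonneg (show (1 : ℝ) ≤ 4 by norm_num)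
    linarith
  have h1 : ∑ n ∈ F, Real.log n = ∑ n ∈ F, ∑ d ∈ n.divisors, Λ d := by
    refine sum_congr rfl fun n _ => ?_
    rw [ArithmeticFunction.vonMangoldt_sum]
  have h2 : ∑ n ∈ F, ∑ d ∈ n.divisors, Λ d ≤ ∑ m ∈ F, ∑ d ∈ Ioc 0 (N / m), Λ d := by
    rw [sum_sigma', sum_sigma']
    have hinj : Set.InjOn (fun x : (Σ _ : ℕ, ℕ) => (⟨x.1 / x.2, x.2⟩ : Σ _ : ℕ, ℕ))
        (F.sigma fun n => n.divisors : Finset (Σ _ : ℕ, ℕ)) := by
      rintro ⟨a, b⟩ h ⟨a', b'⟩ h' he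
      rw [mem_coe, mem_sigma, Nat.mem_divisors] at h h'
      simp only [Sigma.mk.injEq, heq_eq_eq] at he
      obtain ⟨he1, he2⟩ := he
      subst he2
      have e1 : a = a / b * b := (Nat.div_mul_cancel h.2.1).symm
      have e2 : a' = a' / b * b := (Nat.div_mul_cancel h'.2.1).symm
      rw [e1, e2, he1]
    have h3 := sum_image (f := fun x : (Σ _ : ℕ, ℕ) => Λ x.2) hinj
    rw [← h3]
    refine sum_le_sum_of_subset_of_nonneg ?_ fun _ _ _ => ArithmeticFunction.vonMangoldt_nonneg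
    intro x hx
    rw [mem_image] at hx
    obtain ⟨⟨a, b⟩, hab, rfl⟩ := hx
    rw [mem_sigma, Nat.mem_divisors] at hab
    obtain ⟨ha, hb, ha0⟩ := hab
    have ha1 : 0 < a := Nat.pos_of_ne_zero ha0
    have hb0 : 0 < b := Nat.pos_of_dvd_of_pos hb ha1
    rw [mem_sigma, mem_Ioc]
    refine ⟨hd a ha _ (Nat.div_dvd_of_dvd hb), hb0, ?_⟩
    have e1 : a / b * b = a := Nat.div_mul_cancel hb
    have hq : 0 < a / b := Nat.div_pos (Nat.le_of_dvd ha1 hb) hb0
    rw [Nat.le_div_iff_mul_le hq, mul_comm, e1]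
    exact (hF a ha).2
  refine h1.le.trans (h2.trans ?_)
  calc ∑ m ∈ F, ∑ d ∈ Ioc 0 (N / m), Λ d ≤ ∑ m ∈ F, (Real.log 4 + 4) * ((N / m : ℕ) : ℝ) :=
        sum_le_sum fun m _ => psi_nat_le _
    _ ≤ ∑ m ∈ F, (Real.log 4 + 4) * ((N : ℝ) * (1 / m)) := by
        refine sum_le_sum fun m hm => mul_le_mul_of_nonneg_left ?_ hc
        rw [mul_one_div]
        exact Nat.cast_div_le
    _ = _ := by rw [← mul_sum, ← mul_sum]

/-- the trivial part: `Σ_{n ∈ F} log (N / n) ≤ N Σ 1 / n` -/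
theorem sum_log_div_le {N : ℕ} (F : Finset ℕ) (hF : ∀ n ∈ F, 1 ≤ n ∧ n ≤ N) (hN : 1 ≤ N) :
    (F.card : ℝ) * Real.log N ≤ ∑ n ∈ F, Real.log n + N * ∑ m ∈ F, 1 / (m : ℝ) := by
  have hN0 : (0 : ℝ) < N := by exact_mod_cast hN
  have h : (F.card : ℝ) * Real.log N = ∑ _n ∈ F, Real.log N := by
    rw [sum_const, nsmul_eq_mul]
  rw [h, mul_sum, ← sum_add_distrib]
  refine sum_le_sum fun n hn => ?_
  have hn0 : (0 : ℝ) < n := by exact_mod_cast (hF n hn).1
  have h1 := Real.log_le_sub_one_of_pos (div_pos hN0 hn0)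
  rw [Real.log_div hN0.ne' hn0.ne'] at h1
  rw [mul_one_div]
  linarith

/-- `Σ_{p ∈ Q} 1 / (p - 1) ≤ Σ_{p ∈ Q} 1 / p + 1` for a finite set of integers `≥ 2` -/
theorem sum_inv_pred_le (Q : Finset ℕ) (hQ : ∀ p ∈ Q, 2 ≤ p) :
    ∑ p ∈ Q, 1 / ((p : ℝ) - 1) ≤ ∑ p ∈ Q, 1 / (p : ℝ) + 1 := by
  obtain ⟨K, hK⟩ : ∃ K : ℕ, ∀ p ∈ Q, p ≤ K + 1 :=
    ⟨Q.sup id, fun p hp => (Finset.le_sup (f := id) hp).trans (Nat.le_succ _)⟩
  have h1 : ∑ p ∈ Q, (1 / ((p : ℝ) - 1) - 1 / p) ≤ ∑ p ∈ Finset.Ico 2 (K + 2), (1 / ((p : ℝ) - 1) - 1 / p) := by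
    refine sum_le_sum_of_subset_of_nonneg ?_ ?_
    · intro p hp
      rw [mem_Ico]
      exact ⟨hQ p hp, by have := hK p hp; omega⟩
    · intro p hp _
      rw [mem_Ico] at hp
      have hp1 : (2 : ℝ) ≤ p := by exact_mod_cast hp.1
      rw [sub_nonneg]
      exact one_div_le_one_div_of_le (by linarith) (by linarith)
  have h2 : ∀ K : ℕ, ∑ p ∈ Finset.Ico 2 (K + 2), (1 / ((p : ℝ) - 1) - 1 / p) = 1 - 1 / ((K : ℝ) + 1) := by
    intro K
    induction K with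
    | zero => norm_num
    | succ K ih =>
      rw [show K + 1 + 2 = (K + 2) + 1 by ring, Finset.sum_Ico_succ_top (by omega), ih]
      push_cast
      ring
  rw [h2] at h1
  have h3 : 0 ≤ 1 / ((K : ℝ) + 1) := by positivity
  rw [sum_sub_distrib] at h1
  linarith

/-- the sum of the reciprocals of the integers composed of the primes in `Q` -/
theorem sum_inv_le (Q : Finset ℕ) (hQ : ∀ p ∈ Q, p.Prime) (F : Finset ℕ) (h0 : ∀ n ∈ F, n ≠ 0)
    (hF : ∀ n ∈ F, ∀ p : ℕ, p.Prime → p ∣ n → p ∈ Q) :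
    ∑ n ∈ F, 1 / (n : ℝ) ≤ Real.exp (∑ p ∈ Q, 1 / (p : ℝ) + 1) := by
  classical
  let f : ℕ →* ℝ := { toFun := fun n => (n : ℝ)⁻¹, map_one' := by simp, map_mul' := fun m n => by
                        push_cast; rw [mul_inv] }
  have hf : ∀ {p : ℕ}, p.Prime → ‖f p‖ < 1 := by
    intro p hp
    have h1 : (1 : ℝ) < p := by exact_mod_cast hp.one_lt
    change ‖(p : ℝ)⁻¹‖ < 1
    rw [norm_inv, Real.norm_eq_abs, abs_of_pos (by linarith)]
    exact inv_lt_one_of_one_lt₀ h1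
  obtain ⟨-, h2⟩ := EulerProduct.summable_and_hasSum_factoredNumbers_prod_filter_prime_geometric hf Q
  have hQf : Q.filter Nat.Prime = Q := filter_true_of_mem hQ
  rw [hQf] at h2
  have hmem : ∀ n ∈ F, n ∈ Nat.factoredNumbers Q := by
    intro n hn
    rw [Nat.mem_factoredNumbers_iff_forall_le]
    exact ⟨h0 n hn, fun p _ hp hpn => hF n hn p hp hpn⟩
  let g : F → Nat.factoredNumbers Q := fun n => ⟨n.1, hmem n.1 n.2⟩
  have hg : Function.Injective g := by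
    intro a b hab
    have := congrArg (fun x : Nat.factoredNumbers Q => (x : ℕ)) hab
    exact Subtype.ext this
  have h5 : ∑ n : F, f (g n) ≤ ∏ p ∈ Q, (1 - f p)⁻¹ := by
    have h6 := sum_le_hasSum (f := fun m : Nat.factoredNumbers Q => f m)
      (Finset.univ.map ⟨g, hg⟩) (fun m _ => by
        change 0 ≤ ((m : ℕ) : ℝ)⁻¹
        positivity) h2
    rw [Finset.sum_map] at h6
    exact h6
  have h6 : ∑ n ∈ F, 1 / (n : ℝ) = ∑ n : F, f (g n) := by
    rw [← Finset.sum_coe_sort F (fun n => 1 / (n : ℝ))]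
    refine sum_congr rfl fun n _ => ?_
    rw [one_div]
    rfl
  rw [h6]
  refine h5.trans ?_
  have h7 : ∏ p ∈ Q, (1 - f p)⁻¹ ≤ ∏ p ∈ Q, Real.exp (1 / ((p : ℝ) - 1)) := by
    refine prod_le_prod ?_ ?_
    · intro p hp
      have h1 : (1 : ℝ) < p := by exact_mod_cast (hQ p hp).one_lt
      have h3 : (p : ℝ)⁻¹ < 1 := inv_lt_one_of_one_lt₀ h1
      exact inv_nonneg.2 (by change 0 ≤ 1 - (p : ℝ)⁻¹; linarith)
    · intro p hp
      have h1 : (1 : ℝ) < p := by exact_mod_cast (hQ p hp).one_lt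
      have h3 : (1 - f p)⁻¹ = 1 / ((p : ℝ) - 1) + 1 := by
        change (1 - (p : ℝ)⁻¹)⁻¹ = _
        have : (p : ℝ) - 1 ≠ 0 := by linarith
        have : (p : ℝ) ≠ 0 := by linarith
        field_simp
        ring
      rw [h3]
      exact Real.add_one_le_exp _
  refine h7.trans ?_
  rw [← Real.exp_sum]
  exact Real.exp_le_exp.2 (sum_inv_pred_le Q fun p hp => (hQ p hp).two_le)

/-- the prime sum over the complement of an interval -/
theorem sum_compl_le {N Y Z : ℕ} (hY : 2 ≤ Y) (hYZ : Y ≤ Z) (hZN : Z ≤ N) :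
    ∑ p ∈ ((Ioc 0 N).filter Nat.Prime).filter (fun p => ¬ (Y < p ∧ p ≤ Z)), 1 / (p : ℝ)
      ≤ Real.log (Real.log N) + Real.log (Real.log Y) - Real.log (Real.log Z) + 41 := by
  have h1 := MRL.Mer.P_upper (n := N) (by omega)
  have h2 := MRL.Mer.P_upper hY
  have h3 := MRL.Mer.P_lower (n := Z) (by omega)
  have h4 := MRL.Mer.P_sub hYZ
  have h5 : ∑ p ∈ ((Ioc 0 N).filter Nat.Prime).filter (fun p => ¬ (Y < p ∧ p ≤ Z)), 1 / (p : ℝ)
      + ∑ p ∈ (Ioc Y Z).filter Nat.Prime, 1 / (p : ℝ) = MRL.Mer.P N := by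
    unfold MRL.Mer.P
    rw [← sum_filter_add_sum_filter_not ((Ioc 0 N).filter Nat.Prime) (fun p => Y < p ∧ p ≤ Z),
      add_comm]
    congr 1
    refine sum_congr ?_ fun _ _ => rfl
    ext p
    simp only [mem_filter, mem_Ioc]
    constructor
    · rintro ⟨⟨h1, h2⟩, h3⟩
      exact ⟨⟨⟨by omega, by omega⟩, h3⟩, h1, h2⟩
    · rintro ⟨⟨⟨h1, h2⟩, h3⟩, h4, h5⟩
      exact ⟨⟨h4, h5⟩, h3⟩
  rw [← h4] at h5
  linarith

end Siv

/-- **Mertens' upper bound.** -/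
theorem mertensUp : MertensUp := by
  refine ⟨20, fun x hx => ?_⟩
  have hN : 2 ≤ ⌊x⌋₊ := Nat.le_floor (by push_cast; linarith)
  have h1 := MRL.Mer.P_upper hN
  have h2 : ∑ p ∈ (Icc 1 ⌊x⌋₊).filter Nat.Prime, 1 / (p : ℝ) = MRL.Mer.P ⌊x⌋₊ := by
    unfold MRL.Mer.P
    rfl
  rw [h2]
  refine h1.trans ?_
  have h3 : (1 : ℝ) < (⌊x⌋₊ : ℝ) := by exact_mod_cast (by omega : 1 < ⌊x⌋₊)
  have h4 : (⌊x⌋₊ : ℝ) ≤ x := Nat.floor_le (by linarith)
  have h5 : Real.log (Real.log (⌊x⌋₊ : ℝ)) ≤ Real.log (Real.log x) :=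
    Real.log_le_log (Real.log_pos h3) (Real.log_le_log (by linarith) h4)
  linarith

/-- **Row SV2.** -/
theorem sieve2 : Sieve2 := by
  classical
  have hc : (0 : ℝ) ≤ Real.log 4 + 4 := by
    have := Real.log_nonneg (show (1 : ℝ) ≤ 4 by norm_num)
    linarith
  refine ⟨(Real.log 4 + 5) * Real.exp 42 * 2, by
    have := Real.exp_pos (42 : ℝ)
    have : (0 : ℝ) < Real.log 4 + 5 := by linarith
    positivity, fun x y z hy hyz hzx s hs => ?_⟩
  set N := ⌊x⌋₊ with hNdef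
  set Y := ⌊y⌋₊ with hYdef
  set Z := ⌊z⌋₊ with hZdef
  have hY : 2 ≤ Y := Nat.le_floor (by push_cast; exact hy)
  have hYZ : Y ≤ Z := Nat.floor_le_floor hyz
  have hZN : Z ≤ N := Nat.floor_le_floor hzx
  have hNx : (N : ℝ) ≤ x := Nat.floor_le (by linarith)
  have hYy : (Y : ℝ) ≤ y := Nat.floor_le (by linarith)
  have hN2 : (2 : ℝ) ≤ N := by exact_mod_cast (by omega : 2 ≤ N)
  have hY2 : (2 : ℝ) ≤ Y := by exact_mod_cast hY
  have hZ2 : (2 : ℝ) ≤ Z := by exact_mod_cast (by omega : 2 ≤ Z)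
  have hlN : 0 < Real.log N := Real.log_pos (by linarith)
  have hlY : 0 < Real.log Y := Real.log_pos (by linarith)
  have hlZ : 0 < Real.log Z := Real.log_pos (by linarith)
  have hlz : 0 < Real.log z := Real.log_pos (by linarith)
  have hly : 0 < Real.log y := Real.log_pos (by linarith)
  set F : Finset ℕ := (Icc 1 N).filter (fun n => ∀ p : ℕ, p.Prime → Y < p → p ≤ Z → ¬ p ∣ n)
    with hFdef
  have hsF : s ⊆ F := by
    intro n hn
    obtain ⟨h1, h2, h3⟩ := hs n hn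
    rw [hFdef, mem_filter, mem_Icc]
    refine ⟨⟨h1, Nat.le_floor h2⟩, fun p hp hYp hpZ => h3 p hp ?_ ?_⟩
    · exact (Nat.floor_lt (by linarith)).1 hYp
    · exact (Nat.cast_le.2 hpZ).trans (Nat.floor_le (by linarith))
  have hF : ∀ n ∈ F, 1 ≤ n ∧ n ≤ N := by
    intro n hn
    rw [hFdef, mem_filter, mem_Icc] at hn
    exact hn.1
  have hFd : ∀ n ∈ F, ∀ m, m ∣ n → m ∈ F := by
    intro n hn m hm
    have h1 := hF n hn
    rw [hFdef, mem_filter, mem_Icc] at hn ⊢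
    have h2 := Nat.le_of_dvd h1.1 hm
    have h3 := Nat.pos_of_dvd_of_pos hm h1.1
    exact ⟨⟨h3, by omega⟩, fun p hp hYp hpZ hpm => hn.2 p hp hYp hpZ (hpm.trans hm)⟩
  have hA := Siv.sum_log_le F hF hFd
  have hB := Siv.sum_log_div_le F hF (by omega)
  set Q : Finset ℕ := ((Ioc 0 N).filter Nat.Prime).filter (fun p => ¬ (Y < p ∧ p ≤ Z)) with hQdef
  have hC := Siv.sum_inv_le Q (fun p hp => (mem_filter.1 (mem_filter.1 hp).1).2) F
    (fun n hn => by have := (hF n hn).1; omega) (by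
      intro n hn p hp hpn
      have h1 := hF n hn
      have h2 := Nat.le_of_dvd h1.1 hpn
      rw [hFdef, mem_filter] at hn
      rw [hQdef, mem_filter, mem_filter, mem_Ioc]
      exact ⟨⟨⟨hp.pos, by omega⟩, hp⟩, fun h => hn.2 p hp h.1 h.2 hpn⟩)
  have hD := Siv.sum_compl_le hY hYZ hZN
  have hE : Real.exp (∑ p ∈ Q, 1 / (p : ℝ) + 1) ≤ Real.exp 42 * (Real.log N * (Real.log Y / Real.log Z)) := by
    have h1 : Real.exp 42 * (Real.log N * (Real.log Y / Real.log Z)) =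
        Real.exp (42 + (Real.log (Real.log N) + (Real.log (Real.log Y) - Real.log (Real.log Z)))) := by
      rw [Real.exp_add, Real.exp_add, Real.exp_log hlN, Real.exp_sub, Real.exp_log hlY,
        Real.exp_log hlZ]
    rw [h1]
    refine Real.exp_le_exp.2 ?_
    rw [hQdef]
    linarith
  -- combine
  have hG : (F.card : ℝ) * Real.log N ≤ (Real.log 4 + 5) * N *
      (Real.exp 42 * (Real.log N * (Real.log Y / Real.log Z))) := by
    have h1 : (F.card : ℝ) * Real.log N ≤ (Real.log 4 + 5) * (N * ∑ m ∈ F, 1 / (m : ℝ)) := by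
      linarith
    refine h1.trans ?_
    have h2 : (0 : ℝ) ≤ (Real.log 4 + 5) * N := by
      have : (0 : ℝ) ≤ Real.log 4 + 5 := by linarith
      positivity
    calc (Real.log 4 + 5) * (N * ∑ m ∈ F, 1 / (m : ℝ)) = (Real.log 4 + 5) * N * ∑ m ∈ F, 1 / (m : ℝ) := by
          ring
      _ ≤ _ := mul_le_mul_of_nonneg_left (hC.trans hE) h2
  have hH : (F.card : ℝ) ≤ (Real.log 4 + 5) * N * (Real.exp 42 * (Real.log Y / Real.log Z)) := by
    have h1 : (Real.log 4 + 5) * N * (Real.exp 42 * (Real.log N * (Real.log Y / Real.log Z)))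
        = (Real.log 4 + 5) * N * (Real.exp 42 * (Real.log Y / Real.log Z)) * Real.log N := by ring
    rw [h1] at hG
    exact le_of_mul_le_mul_right hG hlN
  -- `log Z ≥ log z / 2`
  have hZz : Real.log z ≤ 2 * Real.log Z := by
    have h1 : z < Z + 1 := Nat.lt_floor_add_one z
    have h2 : z ≤ (Z : ℝ) ^ 2 := by nlinarith
    have h3 := Real.log_le_log (by linarith) h2
    rw [Real.log_pow] at h3
    push_cast at h3
    exact h3
  have hYy' : Real.log Y ≤ Real.log y := Real.log_le_log (by linarith) hYy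
  have hI : Real.log Y / Real.log Z ≤ 2 * (Real.log y / Real.log z) := by
    rw [← mul_div_assoc, div_le_div_iff₀ hlZ hlz]
    calc Real.log Y * Real.log z ≤ Real.log y * (2 * Real.log Z) :=
          mul_le_mul hYy' hZz hlz.le hly.le
      _ = _ := by ring
  have h5 : (0 : ℝ) ≤ Real.log 4 + 5 := by linarith
  calc (s.card : ℝ) ≤ F.card := by exact_mod_cast card_le_card hsF
    _ ≤ (Real.log 4 + 5) * N * (Real.exp 42 * (Real.log Y / Real.log Z)) := hH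
    _ ≤ (Real.log 4 + 5) * x * (Real.exp 42 * (2 * (Real.log y / Real.log z))) := by
        have h6 : 0 ≤ Real.log Y / Real.log Z := by positivity
        have h7 := Real.exp_pos (42 : ℝ)
        have h8 : 0 ≤ (Real.log 4 + 5) * x := mul_nonneg h5 (by linarith)
        gcongr
    _ = _ := by ring

end Pool.Agent.MR2
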