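import Pool.Agent.Lib.MR2.StatM
import Pool.Agent.Lib.MP_456481_pr.Divisor

/-! # TANK MR2, row SPL: solutions spoiled by the square of a large prime (helper19). -/

set_option autoImplicit false

namespace Pool.Agent.MR2

open Finset

noncomputable section

namespace SPL

/-- a finite set of naturals of real diameter `≤ ℓ` has at most `ℓ + 1` elements. -/
theorem card_le_diam (s : Finset ℕ) (l : ℝ) (hl : 0 ≤ l)
    (h : ∀ x ∈ s, ∀ y ∈ s, (y : ℝ) - x ≤ l) : (s.card : ℝ) ≤ l + 1 := by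
  rcases s.eq_empty_or_nonempty with rfl | hs
  · simp; linarith
  have h1 : s ⊆ Icc (s.min' hs) (s.max' hs) := by
    intro x hx
    exact mem_Icc.2 ⟨min'_le s x hx, le_max' s x hx⟩
  have h2 := card_le_card h1
  rw [Nat.card_Icc] at h2
  have h3 := h _ (min'_mem s hs) _ (max'_mem s hs)
  have h4 : s.min' hs ≤ s.max' hs := min'_le _ _ (max'_mem s hs)
  have h5 : ((s.max' hs + 1 - s.min' hs : ℕ) : ℝ) = (s.max' hs : ℝ) + 1 - s.min' hs := by
    rw [Nat.cast_sub (by omega)]; push_cast; ring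
  have h6 : (s.card : ℝ) ≤ ((s.max' hs + 1 - s.min' hs : ℕ) : ℝ) := by exact_mod_cast h2
  rw [h5] at h6
  linarith

open Classical in
/-- the integers in `(t, t + √t)` divisible by `r²` for some prime `r > z`. -/
def Sq (t z : ℝ) : Finset ℕ := (range (⌊t + √t⌋₊ + 1)).filter
  (fun N : ℕ => (t < (N : ℝ) ∧ (N : ℝ) < t + √t) ∧ ∃ r : ℕ, r.Prime ∧ z < r ∧ r ^ 2 ∣ N)

theorem mem_Sq {t z : ℝ} {N : ℕ} : N ∈ Sq t z ↔
    (t < N ∧ (N : ℝ) < t + √t) ∧ ∃ r : ℕ, r.Prime ∧ z < r ∧ r ^ 2 ∣ N := by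
  classical
  unfold Sq
  rw [mem_filter, mem_range]
  constructor
  · exact fun h => h.2
  · intro h
    refine ⟨?_, h⟩
    exact Nat.lt_succ_of_le (Nat.le_floor h.1.2.le)

open Classical in
/-- multiples of `d` in `(t, t + √t)`. -/
theorem card_mult (t : ℝ) (d : ℕ) (hd : 0 < d) :
    (((range (⌊t + √t⌋₊ + 1)).filter
      (fun N : ℕ => (t < (N : ℝ) ∧ (N : ℝ) < t + √t) ∧ d ∣ N)).card : ℝ) ≤ √t / d + 1 := by
  set s := (range (⌊t + √t⌋₊ + 1)).filter (fun N : ℕ => (t < (N : ℝ) ∧ (N : ℝ) < t + √t) ∧ d ∣ N) with hs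
  have hd' : (0 : ℝ) < d := by exact_mod_cast hd
  have hinj : Set.InjOn (fun N : ℕ => N / d) s := by
    intro x hx y hy hxy
    rw [mem_coe, hs, mem_filter] at hx hy
    have h1 := Nat.div_mul_cancel hx.2.2
    have h2 := Nat.div_mul_cancel hy.2.2
    simp only at hxy
    rw [← h1, ← h2, hxy]
  rw [← card_image_of_injOn hinj]
  refine card_le_diam _ _ (by positivity) ?_
  intro x hx y hy
  rw [mem_image] at hx hy
  obtain ⟨a, ha, rfl⟩ := hx
  obtain ⟨c, hc, rfl⟩ := hy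
  rw [hs, mem_filter] at ha hc
  rw [Nat.cast_div hc.2.2 hd'.ne', Nat.cast_div ha.2.2 hd'.ne', ← sub_div]
  gcongr
  linarith [ha.2.1.1, hc.2.1.2]

open Classical in
/-- numbers `k r²` in `(t, t + √t)`, `k` fixed: at most one. -/
theorem card_kr (t : ℝ) (ht : 1 ≤ t) (k : ℕ) :
    (((range (⌊t + √t⌋₊ + 1)).filter
      (fun N : ℕ => (t < (N : ℝ) ∧ (N : ℝ) < t + √t) ∧ ∃ r : ℕ, N = k * r ^ 2)).card : ℝ) ≤ 1 := by
  have h0 : 0 < √t := Real.sqrt_pos.2 (by linarith)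
  have hsq : √t ^ 2 = t := Real.sq_sqrt (by linarith)
  rw [Nat.cast_le_one, card_le_one]
  have key : ∀ r r' : ℕ, r < r' → t < ((k * r ^ 2 : ℕ) : ℝ) → ((k * r' ^ 2 : ℕ) : ℝ) < t + √t →
      False := by
    intro r r' hrr h1 h2
    push_cast at h1 h2
    have hk : 1 ≤ k := by
      rcases Nat.eq_zero_or_pos k with rfl | h
      · simp at h1; linarith
      · exact h
    have hk' : (1 : ℝ) ≤ k := by exact_mod_cast hk
    have hr' : (r : ℝ) + 1 ≤ r' := by exact_mod_cast hrr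
    have hr0 : (0 : ℝ) ≤ r := Nat.cast_nonneg _
    have h3 : (k : ℝ) * (r + 1) ^ 2 ≤ k * r' ^ 2 := by gcongr
    have h4 : (k : ℝ) * (2 * r + 1) < √t := by nlinarith
    have h5 : ((k : ℝ) * (2 * r + 1)) ^ 2 < t := by
      rw [← hsq]
      exact pow_lt_pow_left₀ h4 (by positivity) (by norm_num)
    have h6 : (k : ℝ) * r ^ 2 ≤ ((k : ℝ) * (2 * r + 1)) ^ 2 := by
      have : (k : ℝ) * r ^ 2 ≤ (k : ℝ) ^ 2 * r ^ 2 := by
        have : (k : ℝ) ≤ k ^ 2 := by nlinarith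
        exact mul_le_mul_of_nonneg_right this (by positivity)
      have h8 : (r : ℝ) ^ 2 ≤ (2 * r + 1) ^ 2 := by nlinarith
      calc (k : ℝ) * r ^ 2 ≤ (k : ℝ) ^ 2 * r ^ 2 := this
        _ ≤ (k : ℝ) ^ 2 * (2 * r + 1) ^ 2 := by gcongr
        _ = _ := by ring
    linarith
  intro x hx y hy
  rw [mem_filter] at hx hy
  obtain ⟨r, hr⟩ := hx.2.2
  obtain ⟨r', hr'⟩ := hy.2.2
  rcases lt_trichotomy r r' with h | h | h
  · exact (key r r' h (hr ▸ hx.2.1.1) (hr' ▸ hy.2.1.2)).elim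
  · rw [hr, hr', h]
  · exact (key r' r h (hr' ▸ hy.2.1.1) (hr ▸ hx.2.1.2)).elim

theorem sum_card (t z : ℝ) (ht : 1 ≤ t) (hz : 1 ≤ z) :
    ((Sq t z).card : ℝ) ≤ 2 * √t / z + t ^ (3 / 8 : ℝ) + 2 * t ^ (1 / 4 : ℝ) := by
  classical
  set R := ⌊t ^ (3 / 8 : ℝ)⌋₊ with hR
  set K := ⌊2 * t ^ (1 / 4 : ℝ)⌋₊ with hK
  set A : ℕ → Finset ℕ := fun r => (range (⌊t + √t⌋₊ + 1)).filter
      (fun N : ℕ => (t < (N : ℝ) ∧ (N : ℝ) < t + √t) ∧ r ^ 2 ∣ N) with hA
  set D : ℕ → Finset ℕ := fun k => (range (⌊t + √t⌋₊ + 1)).filter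
      (fun N : ℕ => (t < (N : ℝ) ∧ (N : ℝ) < t + √t) ∧ ∃ r : ℕ, N = k * r ^ 2) with hD
  have ht0 : 0 < t := by linarith
  have hsub : Sq t z ⊆ (Ioo ⌊z⌋₊ (R + 1)).biUnion A ∪ (Icc 1 K).biUnion D := by
    intro N hN
    obtain ⟨h1, r, hr, hzr, hrN⟩ := mem_Sq.1 hN
    have hmem : N ∈ range (⌊t + √t⌋₊ + 1) := mem_range.2 (Nat.lt_succ_of_le (Nat.le_floor h1.2.le))
    rw [mem_union]
    by_cases hrR : r ≤ R
    · left
      rw [mem_biUnion]
      refine ⟨r, mem_Ioo.2 ⟨(Nat.floor_lt (by linarith)).2 hzr, by omega⟩, ?_⟩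
      rw [hA]
      exact mem_filter.2 ⟨hmem, h1, hrN⟩
    · right
      push Not at hrR
      have hr1 : t ^ (3 / 8 : ℝ) < r := (Nat.floor_lt (by positivity)).1 hrR
      obtain ⟨k, hk⟩ := hrN
      have hN0 : 0 < N := by
        have : (0 : ℝ) < N := by linarith [h1.1]
        exact_mod_cast this
      have hk0 : 0 < k := by
        rcases Nat.eq_zero_or_pos k with rfl | h
        · simp at hk; omega
        · exact h
      rw [mem_biUnion]
      refine ⟨k, mem_Icc.2 ⟨hk0, ?_⟩, ?_⟩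
      · apply Nat.le_floor
        have h2 : (N : ℝ) = (r : ℝ) ^ 2 * k := by rw [hk]; push_cast; ring
        have h3 : t ^ (3 / 4 : ℝ) ≤ (r : ℝ) ^ 2 := by
          have : t ^ (3 / 4 : ℝ) = (t ^ (3 / 8 : ℝ)) ^ 2 := by
            rw [← Real.rpow_natCast, ← Real.rpow_mul ht0.le]; norm_num
          rw [this]
          exact pow_le_pow_left₀ (by positivity) hr1.le 2
        have h4 : √t ≤ t := by
          rw [Real.sqrt_le_left ht0.le]; nlinarith
        have h5 : (N : ℝ) ≤ 2 * t := by linarith [h1.2]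
        have h6 : t ^ (3 / 4 : ℝ) * k ≤ 2 * t := by
          calc t ^ (3 / 4 : ℝ) * k ≤ (r : ℝ) ^ 2 * k := by gcongr
            _ ≤ 2 * t := by linarith
        have h7 : t ^ (3 / 4 : ℝ) * (2 * t ^ (1 / 4 : ℝ)) = 2 * t := by
          rw [mul_left_comm, ← Real.rpow_add ht0]; norm_num
        have h8 : 0 < t ^ (3 / 4 : ℝ) := by positivity
        rw [← h7] at h6
        exact le_of_mul_le_mul_left h6 h8
      · rw [hD]
        exact mem_filter.2 ⟨hmem, h1, r, by rw [hk]; ring⟩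
  have hc := card_le_card hsub
  have hc2 : ((Sq t z).card : ℝ) ≤ ∑ r ∈ Ioo ⌊z⌋₊ (R + 1), ((A r).card : ℝ)
      + ∑ k ∈ Icc 1 K, ((D k).card : ℝ) := by
    have := hc.trans (card_union_le _ _)
    have h2 := card_biUnion_le (s := Ioo ⌊z⌋₊ (R + 1)) (t := A)
    have h3 := card_biUnion_le (s := Icc 1 K) (t := D)
    exact_mod_cast this.trans (add_le_add h2 h3)
  have hA1 : ∑ r ∈ Ioo ⌊z⌋₊ (R + 1), ((A r).card : ℝ) ≤ 2 * √t / z + t ^ (3 / 8 : ℝ) := by
    have h1 : ∑ r ∈ Ioo ⌊z⌋₊ (R + 1), ((A r).card : ℝ)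
        ≤ ∑ r ∈ Ioo ⌊z⌋₊ (R + 1), (√t * ((r : ℝ) ^ 2)⁻¹ + 1) := by
      apply sum_le_sum
      intro r hr
      have hr0 : 0 < r := by
        have := (mem_Ioo.1 hr).1; omega
      have := card_mult t (r ^ 2) (by positivity)
      rw [hA]
      refine this.trans (le_of_eq ?_)
      push_cast
      rw [div_eq_mul_inv]
    have h2 : ∑ r ∈ Ioo ⌊z⌋₊ (R + 1), (√t * ((r : ℝ) ^ 2)⁻¹ + 1)
        = √t * ∑ r ∈ Ioo ⌊z⌋₊ (R + 1), ((r : ℝ) ^ 2)⁻¹ + ((Ioo ⌊z⌋₊ (R + 1)).card : ℝ) := by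
      rw [sum_add_distrib, ← mul_sum, sum_const, nsmul_eq_mul, mul_one]
    have h3 : ∑ r ∈ Ioo ⌊z⌋₊ (R + 1), ((r : ℝ) ^ 2)⁻¹ ≤ 2 / (⌊z⌋₊ + 1) :=
      sum_Ioo_inv_sq_le _ _
    have h4 : (2 : ℝ) / (⌊z⌋₊ + 1) ≤ 2 / z := by
      have : z < ⌊z⌋₊ + 1 := Nat.lt_floor_add_one z
      gcongr
    have h5 : ((Ioo ⌊z⌋₊ (R + 1)).card : ℝ) ≤ t ^ (3 / 8 : ℝ) := by
      have h6 : (Ioo ⌊z⌋₊ (R + 1)).card ≤ R := by
        rw [Nat.card_Ioo]; omega
      calc ((Ioo ⌊z⌋₊ (R + 1)).card : ℝ) ≤ R := by exact_mod_cast h6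
        _ ≤ _ := Nat.floor_le (by positivity)
    rw [h2] at h1
    have h7 : √t * ∑ r ∈ Ioo ⌊z⌋₊ (R + 1), ((r : ℝ) ^ 2)⁻¹ ≤ √t * (2 / z) := by
      gcongr
      exact h3.trans h4
    have h8 : √t * (2 / z) = 2 * √t / z := by ring
    linarith
  have hD1 : ∑ k ∈ Icc 1 K, ((D k).card : ℝ) ≤ 2 * t ^ (1 / 4 : ℝ) := by
    calc ∑ k ∈ Icc 1 K, ((D k).card : ℝ) ≤ ∑ k ∈ Icc 1 K, (1 : ℝ) :=
          sum_le_sum (fun k _ => card_kr t ht k)
      _ = K := by simp
      _ ≤ _ := Nat.floor_le (by positivity)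
  linarith

theorem sq_card (t : ℝ) (ht : 1 ≤ t) :
    ((Sq t (t ^ (1 / 1000 : ℝ))).card : ℝ) ≤ 5 * t ^ (499 / 1000 : ℝ) := by
  have ht0 : 0 < t := by linarith
  have h := sum_card t (t ^ (1 / 1000 : ℝ)) ht (Real.one_le_rpow ht (by norm_num))
  have h1 : 2 * √t / t ^ (1 / 1000 : ℝ) = 2 * t ^ (499 / 1000 : ℝ) := by
    rw [Real.sqrt_eq_rpow, mul_div_assoc, ← Real.rpow_sub ht0]; norm_num
  have h2 : t ^ (3 / 8 : ℝ) ≤ t ^ (499 / 1000 : ℝ) :=
    Real.rpow_le_rpow_of_exponent_le ht (by norm_num)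
  have h3 : t ^ (1 / 4 : ℝ) ≤ t ^ (499 / 1000 : ℝ) :=
    Real.rpow_le_rpow_of_exponent_le ht (by norm_num)
  rw [h1] at h
  linarith

/-- the prime `p'` determines `n`. -/
theorem cp_inj {b B g n n' : ℕ} {e : ℕ × ℕ × ℕ} (hB : B * e.1 < b * e.2.1) (hb0 : 0 < b)
    (hn : b ∣ n) (hn' : b ∣ n') (hg : B ∣ n + g) (hg' : B ∣ n' + g)
    (h0 : 0 < cp b B g n e) (h : cp b B g n e = cp b B g n' e) : n = n' := by
  obtain ⟨u, hu⟩ := hn
  obtain ⟨u', hu'⟩ := hn'
  obtain ⟨v, hv⟩ := hg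
  obtain ⟨v', hv'⟩ := hg'
  have hB0 : 0 < B := by
    rcases Nat.eq_zero_or_pos B with rfl | h1
    · exfalso
      unfold cp at h0
      simp at h0
    · exact h1
  have h0' : 0 < cp b B g n' e := h ▸ h0
  unfold cp at h0 h0' h
  rw [hv, hu, Nat.mul_div_cancel_left _ hB0, Nat.mul_div_cancel_left _ hb0] at h0
  rw [hv', hu', Nat.mul_div_cancel_left _ hB0, Nat.mul_div_cancel_left _ hb0] at h0'
  rw [hv, hu, hv', hu', Nat.mul_div_cancel_left _ hB0, Nat.mul_div_cancel_left _ hb0,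
    Nat.mul_div_cancel_left _ hB0, Nat.mul_div_cancel_left _ hb0] at h
  have e1 : e.2.1 * v + e.1 * u' = e.2.1 * v' + e.1 * u := by omega
  have e2 : b * u + B * v' = b * u' + B * v := by
    have : b * u + g = B * v := by rw [← hu, hv]
    have : b * u' + g = B * v' := by rw [← hu', hv']
    omega
  have e1' : (e.2.1 : ℤ) * v + e.1 * u' = e.2.1 * v' + e.1 * u := by exact_mod_cast e1
  have e2' : (b : ℤ) * u + B * v' = b * u' + B * v := by exact_mod_cast e2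
  have e3 : ((b : ℤ) * e.2.1 - B * e.1) * ((v : ℤ) - v') = 0 := by linear_combination b * e1' + e.1 * e2'
  have hB' : (B : ℤ) * e.1 < b * e.2.1 := by exact_mod_cast hB
  have e4 : (v : ℤ) = v' := by
    rcases mul_eq_zero.1 e3 with h1 | h1
    · omega
    · omega
  have e5 : v = v' := by exact_mod_cast e4
  have : n + g = n' + g := by rw [hv, hv', e5]
  omega

end SPL

open SPL in
/-- ROW SPL. -/
theorem spoilL : SpoilL := by
  classical
  obtain ⟨C, hC1, hC⟩ := Pool.Agent.Lib.MP_456481_pr.divisor_bound (1 / 4000) (by norm_num)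
  refine ⟨3, max 1 ((60 * C) ^ (4000 : ℝ)), ?_⟩
  intro t ht P0 b B W PP κ f hF M0 x y g _ _ S hS
  have ht1 : 1 ≤ t := (le_max_left _ _).trans ht
  have ht0 : 0 < t := by linarith
  have htC : (60 * C) ^ (4000 : ℝ) ≤ t := (le_max_right _ _).trans ht
  set F := Fam P0 PP κ f b B W M0 x y with hFdef
  set Q := Sq t (t ^ (1 / 1000 : ℝ)) with hQ
  have hb2 := hF.bp.two_le
  have hb0 : 0 < b := by omega
  have hbB := hF.bB
  have hB8 : 8 ≤ B := by
    have : 2 ^ 3 ≤ b ^ 3 := Nat.pow_le_pow_left hb2 3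
    omega
  have hB0 : 0 < B := by omega
  have hWb : W ≤ b := by
    have h := hF.Wb
    have h1 : W ^ 3 ≤ b := by exact_mod_cast h
    have h2 : W ≤ W ^ 3 := Nat.le_self_pow (by norm_num) W
    omega
  -- the number of configurations
  have hFc : (F.card : ℝ) ≤ (B : ℝ) ^ 3 := by
    have h1 : F.card ≤ W * ((3 * B * W) * b) := by
      rw [hFdef]
      unfold Fam
      refine (card_filter_le _ _).trans ?_
      rw [card_product, card_product]
      simp
    have h2 : W * ((3 * B * W) * b) ≤ B ^ 3 := by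
      calc W * ((3 * B * W) * b) ≤ b * ((3 * B * b) * b) := by gcongr
        _ = 3 * (B * b ^ 3) := by ring
        _ ≤ 8 * (B * B) := by gcongr; norm_num
        _ ≤ B * (B * B) := by gcongr
        _ = B ^ 3 := by ring
    exact_mod_cast h1.trans h2
  -- covering
  set G : (ℕ × ℕ × ℕ) × ℕ → Finset ℕ := fun p => S.filter (fun n => n / b ∣ p.2 ∨
    (n + g) / B ∣ p.2 ∨ (0 < cp b B g n p.1 ∧ cp b B g n p.1 ∣ p.2)) with hG
  have hcov : S ⊆ (F ×ˢ Q).biUnion G := by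
    intro n hn
    obtain ⟨-, -, -, e, he, M, -, hall, N, hN, r, hr, htr, hrN⟩ := hS n hn
    have hNt := hall N hN
    have hN0 : 0 < N := by
      have : (0 : ℝ) < N := by linarith [hNt.1]
      exact_mod_cast this
    rw [mem_biUnion]
    refine ⟨(e, N), mem_product.2 ⟨he, mem_Sq.2 ⟨hNt, r, hr, htr, hrN⟩⟩, ?_⟩
    rw [hG]
    refine mem_filter.2 ⟨hn, ?_⟩
    simp only
    unfold num at hN
    simp only [mem_insert, mem_singleton] at hN
    rcases hN with h | h | h | h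
    · exact Or.inl ⟨_, h⟩
    · right; right
      have h1 : cp b B g n e ∣ N := ⟨B * (cU b M e / cd b B e), by rw [h]; ring⟩
      exact ⟨Nat.pos_of_dvd_of_pos h1 hN0, h1⟩
    · exact Or.inr (Or.inl ⟨_, h⟩)
    · right; right
      have h1 : cp b B g n e ∣ N := ⟨b * (cV B M e / cd b B e), by rw [h]; ring⟩
      exact ⟨Nat.pos_of_dvd_of_pos h1 hN0, h1⟩
  have hGc : ∀ p ∈ F ×ˢ Q, ((G p).card : ℝ) ≤ 6 * C * t ^ (1 / 4000 : ℝ) := by
    rintro ⟨e, N⟩ hp
    obtain ⟨he, hNQ⟩ := mem_product.1 hp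
    obtain ⟨hNt, -⟩ := mem_Sq.1 hNQ
    have hN0 : N ≠ 0 := by
      rintro rfl
      have := hNt.1
      push_cast at this
      linarith
    have hconf : Conf0 P0 κ f b B W e := by
      have := he
      rw [hFdef] at this
      unfold Fam at this
      exact (mem_filter.1 this).2.1
    have hlt : B * e.1 < b * e.2.1 := hconf.lt
    have c1 : (S.filter (fun n => n / b ∣ N)).card ≤ N.divisors.card := by
      refine card_le_card_of_injOn (fun n => n / b) ?_ ?_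
      · intro n hn
        exact Nat.mem_divisors.2 ⟨(mem_filter.1 hn).2, hN0⟩
      · intro n hn m hm hnm
        have h1 := (hS n (mem_filter.1 hn).1).2.1
        have h2 := (hS m (mem_filter.1 hm).1).2.1
        have h3 := Nat.div_mul_cancel h1
        have h4 := Nat.div_mul_cancel h2
        simp only at hnm
        rw [← h3, ← h4, hnm]
    have c2 : (S.filter (fun n => (n + g) / B ∣ N)).card ≤ N.divisors.card := by
      refine card_le_card_of_injOn (fun n => (n + g) / B) ?_ ?_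
      · intro n hn
        exact Nat.mem_divisors.2 ⟨(mem_filter.1 hn).2, hN0⟩
      · intro n hn m hm hnm
        have h1 := (hS n (mem_filter.1 hn).1).2.2.1
        have h2 := (hS m (mem_filter.1 hm).1).2.2.1
        have h3 := Nat.div_mul_cancel h1
        have h4 := Nat.div_mul_cancel h2
        simp only at hnm
        rw [hnm] at h3
        omega
    have c3 : (S.filter (fun n => 0 < cp b B g n e ∧ cp b B g n e ∣ N)).card
        ≤ N.divisors.card := by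
      refine card_le_card_of_injOn (fun n => cp b B g n e) ?_ ?_
      · intro n hn
        exact Nat.mem_divisors.2 ⟨(mem_filter.1 hn).2.2, hN0⟩
      · intro n hn m hm hnm
        have h1 := hS n (mem_filter.1 hn).1
        have h2 := hS m (mem_filter.1 hm).1
        exact cp_inj hlt hb0 h1.2.1 h2.2.1 h1.2.2.1 h2.2.2.1 (mem_filter.1 hn).2.1 hnm
    have hle : (G (e, N)).card ≤ 3 * N.divisors.card := by
      have hsub : G (e, N) ⊆ S.filter (fun n => n / b ∣ N) ∪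
          (S.filter (fun n => (n + g) / B ∣ N) ∪
            S.filter (fun n => 0 < cp b B g n e ∧ cp b B g n e ∣ N)) := by
        intro n hn
        rw [hG] at hn
        obtain ⟨hn1, hn2⟩ := mem_filter.1 hn
        simp only [mem_union, mem_filter]
        rcases hn2 with h | h | h
        · exact Or.inl ⟨hn1, h⟩
        · exact Or.inr (Or.inl ⟨hn1, h⟩)
        · exact Or.inr (Or.inr ⟨hn1, h⟩)
      have h1 := card_le_card hsub
      have h2 := card_union_le (S.filter (fun n => n / b ∣ N))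
        (S.filter (fun n => (n + g) / B ∣ N) ∪
            S.filter (fun n => 0 < cp b B g n e ∧ cp b B g n e ∣ N))
      have h3 := card_union_le (S.filter (fun n => (n + g) / B ∣ N))
            (S.filter (fun n => 0 < cp b B g n e ∧ cp b B g n e ∣ N))
      omega
    have hN2 : (N : ℝ) ≤ 2 * t := by
      have h4 : √t ≤ t := by
        rw [Real.sqrt_le_left ht0.le]; nlinarith
      linarith [hNt.2]
    have hdiv := hC N hN0
    have h5 : (N : ℝ) ^ (1 / 4000 : ℝ) ≤ 2 * t ^ (1 / 4000 : ℝ) := by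
      calc (N : ℝ) ^ (1 / 4000 : ℝ) ≤ (2 * t) ^ (1 / 4000 : ℝ) := by
            apply Real.rpow_le_rpow (Nat.cast_nonneg _) hN2 (by norm_num)
        _ = 2 ^ (1 / 4000 : ℝ) * t ^ (1 / 4000 : ℝ) := Real.mul_rpow (by norm_num) ht0.le
        _ ≤ 2 * t ^ (1 / 4000 : ℝ) := by
            gcongr
            calc (2 : ℝ) ^ (1 / 4000 : ℝ) ≤ 2 ^ (1 : ℝ) :=
                  Real.rpow_le_rpow_of_exponent_le (by norm_num) (by norm_num)
              _ = 2 := by norm_num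
    calc ((G (e, N)).card : ℝ) ≤ 3 * N.divisors.card := by exact_mod_cast hle
      _ ≤ 3 * (C * (N : ℝ) ^ (1 / 4000 : ℝ)) := by gcongr
      _ ≤ 3 * (C * (2 * t ^ (1 / 4000 : ℝ))) := by gcongr
      _ = _ := by ring
  have hfin : (S.card : ℝ) ≤ (F.card : ℝ) * (Q.card : ℝ) * (6 * C * t ^ (1 / 4000 : ℝ)) := by
    have h1 := (card_le_card hcov).trans card_biUnion_le
    have h2 : (S.card : ℝ) ≤ ∑ p ∈ F ×ˢ Q, ((G p).card : ℝ) := by exact_mod_cast h1
    refine h2.trans ((sum_le_sum hGc).trans ?_)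
    rw [sum_const, card_product, nsmul_eq_mul]
    push_cast
    exact le_rfl
  have hQc := sq_card t ht1
  have h60 : 60 * C ≤ t ^ (1 / 4000 : ℝ) := by
    have h1 : ((60 * C) ^ (4000 : ℝ)) ^ (1 / 4000 : ℝ) = 60 * C := by
      rw [← Real.rpow_mul (by positivity)]; norm_num
    rw [← h1]
    exact Real.rpow_le_rpow (by positivity) htC (by norm_num)
  calc (S.card : ℝ) ≤ (F.card : ℝ) * (Q.card : ℝ) * (6 * C * t ^ (1 / 4000 : ℝ)) := hfin
    _ ≤ (B : ℝ) ^ 3 * (5 * t ^ (499 / 1000 : ℝ)) * (6 * C * t ^ (1 / 4000 : ℝ)) := by gcongr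
    _ = (B : ℝ) ^ 3 * (30 * C * (t ^ (499 / 1000 : ℝ) * t ^ (1 / 4000 : ℝ))) := by ring
    _ ≤ (B : ℝ) ^ 3 * (t ^ (1 / 4000 : ℝ) * (t ^ (499 / 1000 : ℝ) * t ^ (1 / 4000 : ℝ))) := by
        gcongr
        nlinarith
    _ = (B : ℝ) ^ 3 * t ^ (999 / 2000 : ℝ) := by
        rw [← Real.rpow_add ht0, ← Real.rpow_add ht0]; norm_num

end

end Pool.Agent.MR2
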