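import Mathlib
import Pool.Agent.Lib.MR2.StatM

/-! # TANK MR2, stage 2, row SPS: solutions spoiled by the square of a prime in `(z, Y]`.
helper4. -/

set_option autoImplicit false

namespace Pool.Agent.MR2

open Finset Pool.Agent.MRL

noncomputable section

namespace SPS

theorem cls_bound {S : Finset ℕ} {M : ℕ → ℕ} {m1 m2 : ℕ} {β : ℝ} (hβ : 0 ≤ β)
    (h : ∀ u v : ℕ, ((S.filter fun n => n % m1 = u ∧ M n % m2 = v).card : ℝ) ≤ β)
    (F : Finset ℕ) (hF : F ⊆ S)
    (hc : ∀ n ∈ F, ∀ n' ∈ F, ((m1 : ℤ) ∣ n' - n) ∧ ((m2 : ℤ) ∣ M n' - M n)) :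
    (F.card : ℝ) ≤ β := by
  rcases F.eq_empty_or_nonempty with h0 | ⟨n0, hn0⟩
  · rw [h0]; simpa using hβ
  · refine le_trans ?_ (h (n0 % m1) (M n0 % m2))
    have : F ⊆ S.filter fun n => n % m1 = n0 % m1 ∧ M n % m2 = M n0 % m2 := by
      intro n hn
      rw [Finset.mem_filter]
      obtain ⟨h1, h2⟩ := hc n0 hn0 n hn
      exact ⟨hF hn, (Nat.modEq_iff_dvd.2 h1).symm, (Nat.modEq_iff_dvd.2 h2).symm⟩
    exact_mod_cast Finset.card_le_card this

theorem two {r x y : ℕ} (hr : r.Prime) (h : r ^ 2 ∣ x * y) :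
    r ^ 2 ∣ x ∨ (r ∣ x ∧ r ∣ y) ∨ r ^ 2 ∣ y := by
  by_cases hx : r ∣ x
  · by_cases hy : r ∣ y
    · exact Or.inr (Or.inl ⟨hx, hy⟩)
    · exact Or.inl (Nat.Coprime.dvd_of_dvd_mul_right
        (Nat.Coprime.pow_left 2 ((Nat.Prime.coprime_iff_not_dvd hr).2 hy)) h)
  · exact Or.inr (Or.inr (Nat.Coprime.dvd_of_dvd_mul_left
        (Nat.Coprime.pow_left 2 ((Nat.Prime.coprime_iff_not_dvd hr).2 hx)) h))

theorem prod3 (F : Finset ℕ) (x y : ℕ → ℕ) (r : ℕ) (hr : r.Prime) (β : ℝ)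
    (h : ∀ i j, i + j = 2 → ((F.filter fun n => r ^ i ∣ x n ∧ r ^ j ∣ y n).card : ℝ) ≤ β) :
    ((F.filter fun n => r ^ 2 ∣ x n * y n).card : ℝ) ≤ 3 * β := by
  have hsub : (F.filter fun n => r ^ 2 ∣ x n * y n) ⊆
      (F.filter fun n => r ^ 2 ∣ x n ∧ r ^ 0 ∣ y n) ∪
      ((F.filter fun n => r ^ 1 ∣ x n ∧ r ^ 1 ∣ y n) ∪
        (F.filter fun n => r ^ 0 ∣ x n ∧ r ^ 2 ∣ y n)) := by
    intro n hn
    rw [Finset.mem_filter] at hn
    obtain ⟨hn, h2⟩ := hn
    rcases two hr h2 with h | ⟨h, h'⟩ | h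
    · exact Finset.mem_union_left _ (Finset.mem_filter.2 ⟨hn, h, by simp⟩)
    · exact Finset.mem_union_right _ (Finset.mem_union_left _
        (Finset.mem_filter.2 ⟨hn, by simpa using h, by simpa using h'⟩))
    · exact Finset.mem_union_right _ (Finset.mem_union_right _
        (Finset.mem_filter.2 ⟨hn, by simp, h⟩))
  have h1 : (F.filter fun n => r ^ 2 ∣ x n * y n).card ≤
      (F.filter fun n => r ^ 2 ∣ x n ∧ r ^ 0 ∣ y n).card +
      ((F.filter fun n => r ^ 1 ∣ x n ∧ r ^ 1 ∣ y n).card +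
        (F.filter fun n => r ^ 0 ∣ x n ∧ r ^ 2 ∣ y n).card) :=
    (Finset.card_le_card hsub).trans ((Finset.card_union_le _ _).trans
      (Nat.add_le_add_left (Finset.card_union_le _ _) _))
  have h1' : ((F.filter fun n => r ^ 2 ∣ x n * y n).card : ℝ) ≤
      (F.filter fun n => r ^ 2 ∣ x n ∧ r ^ 0 ∣ y n).card +
      ((F.filter fun n => r ^ 1 ∣ x n ∧ r ^ 1 ∣ y n).card +
        (F.filter fun n => r ^ 0 ∣ x n ∧ r ^ 2 ∣ y n).card) := by exact_mod_cast h1
  have h2 := h 2 0 rfl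
  have h3 := h 1 1 rfl
  have h4 := h 0 2 rfl
  linarith

/-- facts about a configuration. -/
structure EF (b B s L D d : ℕ) : Prop where
  bp : b.Prime
  Bp : B.Prime
  bB : b < B
  s0 : 0 < s
  L0 : 0 < L
  D0 : 0 < D
  sD : s * D < b
  LD : L * D < B
  sL : s.Coprime L
  hd : d + B * s = b * L
  d0 : 0 < d

namespace EF

variable {b B s L D d : ℕ}

theorem bs (h : EF b B s L D d) : ¬ b ∣ s := fun h' => by
  have h1 := Nat.le_of_dvd h.s0 h'
  have h2 : s * 1 ≤ s * D := Nat.mul_le_mul_left s h.D0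
  have := h.sD
  omega

theorem BL (h : EF b B s L D d) : ¬ B ∣ L := fun h' => by
  have h1 := Nat.le_of_dvd h.L0 h'
  have h2 : L * 1 ≤ L * D := Nat.mul_le_mul_left L h.D0
  have := h.LD
  omega

theorem bB' (h : EF b B s L D d) : ¬ b ∣ B := fun h' => by
  rcases (Nat.dvd_prime h.Bp).1 h' with h1 | h1
  · exact h.bp.one_lt.ne' h1
  · exact h.bB.ne h1

theorem Bb' (h : EF b B s L D d) : ¬ B ∣ b := fun h' => by
  have h1 := Nat.le_of_dvd h.bp.pos h'
  have := h.bB
  omega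

theorem bd (h : EF b B s L D d) : ¬ b ∣ d := fun h' => by
  have h1 : b ∣ d + B * s := by rw [h.hd]; exact dvd_mul_right _ _
  have h2 : b ∣ B * s := (Nat.dvd_add_right h').1 h1
  rcases (Nat.Prime.dvd_mul h.bp).1 h2 with h3 | h3
  · exact h.bB' h3
  · exact h.bs h3

theorem Bd (h : EF b B s L D d) : ¬ B ∣ d := fun h' => by
  have h1 : B ∣ d + B * s := dvd_add h' (dvd_mul_right _ _)
  rw [h.hd] at h1
  rcases (Nat.Prime.dvd_mul h.Bp).1 h1 with h3 | h3
  · exact h.Bb' h3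
  · exact h.BL h3

theorem bU (h : EF b B s L D d) (M : ℕ) : ¬ b ∣ b * M + s * D := fun h' => by
  have h1 : b ∣ s * D := (Nat.dvd_add_right (dvd_mul_right b M)).1 h'
  have h2 := Nat.le_of_dvd (Nat.mul_pos h.s0 h.D0) h1
  have := h.sD
  omega

theorem BV (h : EF b B s L D d) (M : ℕ) : ¬ B ∣ B * M + L * D := fun h' => by
  have h1 : B ∣ L * D := (Nat.dvd_add_right (dvd_mul_right B M)).1 h'
  have h2 := Nat.le_of_dvd (Nat.mul_pos h.L0 h.D0) h1
  have := h.LD
  omega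

theorem UV (h : EF b B s L D d) {M : ℕ} (hU : d ∣ b * M + s * D) : d ∣ B * M + L * D := by
  have h1 : b * (B * M + L * D) = B * (b * M + s * D) + d * D := by
    have := h.hd
    zify at this ⊢
    linear_combination (-(D : ℤ)) * this
  have h2 : d ∣ b * (B * M + L * D) := by
    rw [h1]; exact dvd_add (Dvd.dvd.mul_left hU B) (dvd_mul_right _ _)
  exact Nat.Coprime.dvd_of_dvd_mul_left
    ((Nat.Prime.coprime_iff_not_dvd h.bp).2 h.bd).symm h2

theorem cp_eq (h : EF b B s L D d) {n g : ℕ} (hb : b ∣ n) (hB : B ∣ n + g) :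
    b * B * (L * ((n + g) / B) - s * (n / b)) = d * n + b * L * g := by
  obtain ⟨n1, hn1⟩ := hb
  obtain ⟨n2, hn2⟩ := hB
  have e1 : n / b = n1 := by rw [hn1]; exact Nat.mul_div_cancel_left _ h.bp.pos
  have e2 : (n + g) / B = n2 := by rw [hn2]; exact Nat.mul_div_cancel_left _ h.Bp.pos
  rw [e1, e2]
  have key : (b : ℤ) * B * (L * n2 - s * n1) = d * n + b * L * g := by
    have h1 := h.hd
    zify at h1 hn1 hn2
    linear_combination (-(b : ℤ) * L) * hn2 + (B : ℤ) * s * hn1 + (-(n : ℤ)) * h1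
  have hle : s * n1 ≤ L * n2 := by
    by_contra hcon
    push Not at hcon
    have h2 : ((L : ℤ) * n2 - s * n1) < 0 := by
      have : ((L * n2 : ℕ) : ℤ) < ((s * n1 : ℕ) : ℤ) := by exact_mod_cast hcon
      push_cast at this
      linarith
    have h3 : (0 : ℤ) < b * B := by
      have := h.bp.pos; have := h.Bp.pos; positivity
    have h4 : (b : ℤ) * B * (L * n2 - s * n1) < 0 := mul_neg_of_pos_of_neg h3 h2
    have h5 : (0 : ℤ) ≤ d * n + b * L * g := by positivity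
    linarith
  zify [hle]
  linarith [key]

end EF

/-! ### congruences -/

theorem dvd_of_cop {m k : ℕ} {x : ℤ} (hc : Nat.Coprime m k) (h : (m : ℤ) ∣ k * x) :
    (m : ℤ) ∣ x :=
  IsCoprime.dvd_of_dvd_mul_left (Nat.isCoprime_iff_coprime.2 hc) h

section cong

variable {b B s L D d r : ℕ}

theorem cop_pow (hd : ¬ r ∣ d) (hr : r.Prime) (j : ℕ) : Nat.Coprime d (r ^ j) :=
  (Nat.Coprime.pow_left j ((Nat.Prime.coprime_iff_not_dvd hr).2 hd)).symm

theorem ne_of_dvd_pow {p : ℕ} (hr : r.Prime) (hp : p.Prime) {j x : ℕ} (hj : r ^ j ∣ x)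
    (hx : ¬ p ∣ x) : Nat.Coprime (r ^ j) p := by
  rcases Nat.eq_zero_or_pos j with h0 | h0
  · rw [h0]; simp
  · apply Nat.Coprime.pow_left
    rw [Nat.coprime_primes hr hp]
    rintro rfl
    exact hx ((dvd_pow_self r h0.ne').trans hj)

theorem congU (h : EF b B s L D d) (hr : r.Prime) (j : ℕ) {M M' : ℕ}
    (h1 : d * r ^ j ∣ b * M + s * D) (h2 : d * r ^ j ∣ b * M' + s * D) :
    ((d * r ^ j : ℕ) : ℤ) ∣ (M' : ℤ) - M := by
  apply dvd_of_cop (k := b)
  · apply Nat.Coprime.mul_left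
    · exact ((Nat.Prime.coprime_iff_not_dvd h.bp).2 h.bd).symm
    · exact ne_of_dvd_pow hr h.bp ((dvd_mul_left _ _).trans h1) (h.bU M)
  · have h3 := dvd_sub (Int.natCast_dvd_natCast.2 h2) (Int.natCast_dvd_natCast.2 h1)
    have h4 : ((b * M' + s * D : ℕ) : ℤ) - ((b * M + s * D : ℕ) : ℤ) = b * ((M' : ℤ) - M) := by
      push_cast; ring
    rwa [h4] at h3

theorem congV (h : EF b B s L D d) (hr : r.Prime) (j : ℕ) {M M' : ℕ}
    (h1 : d * r ^ j ∣ B * M + L * D) (h2 : d * r ^ j ∣ B * M' + L * D) :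
    ((d * r ^ j : ℕ) : ℤ) ∣ (M' : ℤ) - M := by
  apply dvd_of_cop (k := B)
  · apply Nat.Coprime.mul_left
    · exact ((Nat.Prime.coprime_iff_not_dvd h.Bp).2 h.Bd).symm
    · exact ne_of_dvd_pow hr h.Bp ((dvd_mul_left _ _).trans h1) (h.BV M)
  · have h3 := dvd_sub (Int.natCast_dvd_natCast.2 h2) (Int.natCast_dvd_natCast.2 h1)
    have h4 : ((B * M' + L * D : ℕ) : ℤ) - ((B * M + L * D : ℕ) : ℤ) = B * ((M' : ℤ) - M) := by
      push_cast; ring
    rwa [h4] at h3

/-- `r^i ∣ n / b`. -/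
theorem congA (h : EF b B s L D d) (hr : r.Prime) (i : ℕ) {g n n' : ℕ} (hg : 0 < g) (hgB : g < B)
    (hb : b ∣ n) (hB : B ∣ n + g) (hb' : b ∣ n') (hB' : B ∣ n' + g)
    (h1 : r ^ i ∣ n / b) (h2 : r ^ i ∣ n' / b) : ((b * B * r ^ i : ℕ) : ℤ) ∣ (n' : ℤ) - n := by
  have e1 : b * r ^ i ∣ n := Nat.mul_dvd_of_dvd_div hb h1
  have e2 : b * r ^ i ∣ n' := Nat.mul_dvd_of_dvd_div hb' h2
  have hBn : ¬ B ∣ n := fun h' => by
    have := Nat.le_of_dvd hg ((Nat.dvd_add_right h').1 hB)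
    omega
  have hc : Nat.Coprime (b * r ^ i) B := by
    apply Nat.Coprime.mul_left
    · exact (Nat.coprime_primes h.bp h.Bp).2 h.bB.ne
    · exact ne_of_dvd_pow hr h.Bp ((dvd_mul_left _ _).trans e1) hBn
  have h3 : ((b * r ^ i : ℕ) : ℤ) ∣ (n' : ℤ) - n :=
    dvd_sub (Int.natCast_dvd_natCast.2 e2) (Int.natCast_dvd_natCast.2 e1)
  have h4 : (B : ℤ) ∣ (n' : ℤ) - n := by
    have h5 := dvd_sub (Int.natCast_dvd_natCast.2 hB') (Int.natCast_dvd_natCast.2 hB)
    have h6 : ((n' + g : ℕ) : ℤ) - ((n + g : ℕ) : ℤ) = (n' : ℤ) - n := by push_cast; ring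
    rwa [h6] at h5
  have h7 := IsCoprime.mul_dvd (Nat.isCoprime_iff_coprime.2 hc) h3 h4
  have h8 : ((b * B * r ^ i : ℕ) : ℤ) = ((b * r ^ i : ℕ) : ℤ) * (B : ℤ) := by push_cast; ring
  rwa [h8]

/-- `r^i ∣ (n+g) / B`. -/
theorem congA' (h : EF b B s L D d) (hr : r.Prime) (i : ℕ) {g n n' : ℕ} (hg : 0 < g) (hgb : g < b)
    (hb : b ∣ n) (hB : B ∣ n + g) (hb' : b ∣ n') (hB' : B ∣ n' + g)
    (h1 : r ^ i ∣ (n + g) / B) (h2 : r ^ i ∣ (n' + g) / B) :
    ((b * B * r ^ i : ℕ) : ℤ) ∣ (n' : ℤ) - n := by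
  have e1 : B * r ^ i ∣ n + g := Nat.mul_dvd_of_dvd_div hB h1
  have e2 : B * r ^ i ∣ n' + g := Nat.mul_dvd_of_dvd_div hB' h2
  have hbn : ¬ b ∣ n + g := fun h' => by
    have := Nat.le_of_dvd hg ((Nat.dvd_add_right hb).1 h')
    omega
  have hc : Nat.Coprime (B * r ^ i) b := by
    apply Nat.Coprime.mul_left
    · exact (Nat.coprime_primes h.Bp h.bp).2 h.bB.ne'
    · exact ne_of_dvd_pow hr h.bp ((dvd_mul_left _ _).trans e1) hbn
  have h3 : ((B * r ^ i : ℕ) : ℤ) ∣ (n' : ℤ) - n := by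
    have h5 := dvd_sub (Int.natCast_dvd_natCast.2 e2) (Int.natCast_dvd_natCast.2 e1)
    have h6 : ((n' + g : ℕ) : ℤ) - ((n + g : ℕ) : ℤ) = (n' : ℤ) - n := by push_cast; ring
    rwa [h6] at h5
  have h4 : (b : ℤ) ∣ (n' : ℤ) - n :=
    dvd_sub (Int.natCast_dvd_natCast.2 hb') (Int.natCast_dvd_natCast.2 hb)
  have h7 := IsCoprime.mul_dvd (Nat.isCoprime_iff_coprime.2 hc) h3 h4
  have h8 : ((b * B * r ^ i : ℕ) : ℤ) = ((B * r ^ i : ℕ) : ℤ) * (b : ℤ) := by push_cast; ring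
  rwa [h8]

/-- `r^i ∣ p'`. -/
theorem congP (h : EF b B s L D d) (hr : r.Prime) (hrd : ¬ r ∣ d) (i : ℕ) {g n n' : ℕ}
    (hb : b ∣ n) (hB : B ∣ n + g) (hb' : b ∣ n') (hB' : B ∣ n' + g)
    (h1 : r ^ i ∣ L * ((n + g) / B) - s * (n / b))
    (h2 : r ^ i ∣ L * ((n' + g) / B) - s * (n' / b)) :
    ((b * B * r ^ i : ℕ) : ℤ) ∣ (n' : ℤ) - n := by
  have e1 : b * B * r ^ i ∣ d * n + b * L * g := by
    rw [← h.cp_eq hb hB]; exact Nat.mul_dvd_mul_left _ h1
  have e2 : b * B * r ^ i ∣ d * n' + b * L * g := by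
    rw [← h.cp_eq hb' hB']; exact Nat.mul_dvd_mul_left _ h2
  apply dvd_of_cop (k := d)
  · apply Nat.Coprime.mul_left
    · exact Nat.Coprime.mul_left ((Nat.Prime.coprime_iff_not_dvd h.bp).2 h.bd)
        ((Nat.Prime.coprime_iff_not_dvd h.Bp).2 h.Bd)
    · exact (cop_pow hrd hr i).symm
  · have h3 := dvd_sub (Int.natCast_dvd_natCast.2 e2) (Int.natCast_dvd_natCast.2 e1)
    have h4 : ((d * n' + b * L * g : ℕ) : ℤ) - ((d * n + b * L * g : ℕ) : ℤ) =
        d * ((n' : ℤ) - n) := by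
      push_cast; ring
    rwa [h4] at h3

/-- for `r ∣ d`, `r > g`, `r` does not divide `p'`. -/
theorem not_dvd_p (h : EF b B s L D d) (hr : r.Prime) (hrd : r ∣ d) {g n : ℕ} (hg : 0 < g)
    (hgr : g < r) (hb : b ∣ n) (hB : B ∣ n + g) : ¬ r ∣ L * ((n + g) / B) - s * (n / b) := by
  intro h1
  have hrb : ¬ r ∣ b := fun h' => by
    rcases (Nat.dvd_prime h.bp).1 h' with h2 | h2
    · exact hr.one_lt.ne' h2
    · exact h.bd (h2 ▸ hrd)
  have hrB : ¬ r ∣ B := fun h' => by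
    rcases (Nat.dvd_prime h.Bp).1 h' with h2 | h2
    · exact hr.one_lt.ne' h2
    · exact h.Bd (h2 ▸ hrd)
  have e1 : r ∣ d * n + b * L * g := by
    rw [← h.cp_eq hb hB]; exact Dvd.dvd.mul_left h1 _
  have e2 : r ∣ b * L * g := (Nat.dvd_add_right (Dvd.dvd.mul_right hrd n)).1 e1
  have hrg : ¬ r ∣ g := fun h' => by
    have := Nat.le_of_dvd hg h'
    omega
  have e3 : r ∣ L := by
    rcases (Nat.Prime.dvd_mul hr).1 e2 with h2 | h2
    · rcases (Nat.Prime.dvd_mul hr).1 h2 with h3 | h3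
      · exact absurd h3 hrb
      · exact h3
    · exact absurd h2 hrg
  have e4 : r ∣ B * s := by
    have h5 : r ∣ d + B * s := by rw [h.hd]; exact Dvd.dvd.mul_left e3 b
    exact (Nat.dvd_add_right hrd).1 h5
  have e5 : r ∣ s := by
    rcases (Nat.Prime.dvd_mul hr).1 e4 with h2 | h2
    · exact absurd h2 hrB
    · exact h2
  have h6 : r ∣ Nat.gcd s L := Nat.dvd_gcd e5 e3
  rw [h.sL] at h6
  exact hr.one_lt.ne' (Nat.dvd_one.1 h6)

end cong

/-! ### the count for one configuration and one prime -/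

section count

variable {b B s L D d r : ℕ}

theorem filt_le {F : Finset ℕ} {P Q : ℕ → Prop} [DecidablePred P] [DecidablePred Q] {β : ℝ}
    (h : ∀ n ∈ F, P n → Q n) (hQ : ((F.filter Q).card : ℝ) ≤ β) :
    ((F.filter P).card : ℝ) ≤ β := by
  refine le_trans ?_ hQ
  have : F.filter P ⊆ F.filter Q := fun n hn => by
    rw [Finset.mem_filter] at hn ⊢
    exact ⟨hn.1, h n hn.1 hn.2⟩
  exact_mod_cast Finset.card_le_card this

theorem filt_or {F : Finset ℕ} {P Q R : ℕ → Prop} [DecidablePred P] [DecidablePred Q]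
    [DecidablePred R] {β γ : ℝ} (h : ∀ n ∈ F, P n → Q n ∨ R n)
    (hQ : ((F.filter Q).card : ℝ) ≤ β) (hR : ((F.filter R).card : ℝ) ≤ γ) :
    ((F.filter P).card : ℝ) ≤ β + γ := by
  have : F.filter P ⊆ F.filter Q ∪ F.filter R := fun n hn => by
    rw [Finset.mem_filter] at hn
    rcases h n hn.1 hn.2 with h1 | h1
    · exact Finset.mem_union_left _ (Finset.mem_filter.2 ⟨hn.1, h1⟩)
    · exact Finset.mem_union_right _ (Finset.mem_filter.2 ⟨hn.1, h1⟩)
  have h2 := (Finset.card_le_card this).trans (Finset.card_union_le _ _)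
  have h3 : ((F.filter P).card : ℝ) ≤ (F.filter Q).card + (F.filter R).card := by
    exact_mod_cast h2
  linarith

/-- `r ‖ d`, `d ∣ x`, `r² ∣ x` imply `d r ∣ x`. -/
theorem dr_dvd (hr : r.Prime) (hrd : r ∣ d) (hrd2 : ¬ r ^ 2 ∣ d) {x : ℕ} (h1 : d ∣ x)
    (h2 : r ^ 2 ∣ x) : d * r ∣ x := by
  obtain ⟨d1, rfl⟩ := hrd
  have h3 : ¬ r ∣ d1 := fun h' => hrd2 (by rw [pow_two]; exact Nat.mul_dvd_mul_left r h')
  have h4 : Nat.Coprime d1 (r ^ 2) := cop_pow h3 hr 2
  have h5 : d1 * r ^ 2 ∣ x :=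
    Nat.Coprime.mul_dvd_of_dvd_of_dvd h4 ((dvd_mul_left d1 r).trans h1) h2
  have h6 : r * d1 * r = d1 * r ^ 2 := by ring
  rwa [h6]

theorem bad_le (h : EF b B s L D d) (hr : r.Prime) {g : ℕ} (hg : 0 < g) (hgr : g < r)
    (hgb : g < b) {S : Finset ℕ} {M : ℕ → ℕ} {A η : ℝ} (hA : 0 ≤ A) (hη : 0 ≤ η)
    (hS : ∀ n ∈ S, b ∣ n ∧ B ∣ n + g)
    (hcount : ∀ i j u v : ℕ, i ≤ 2 → j ≤ 2 →
      ((S.filter fun n => n % (b * B * r ^ i) = u ∧ M n % (d * r ^ j) = v).card : ℝ) ≤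
        A / (d * (r : ℝ) ^ (i + j)) + η)
    (F : Finset ℕ) (hF : F ⊆ S) (hU : ∀ n ∈ F, d ∣ b * M n + s * D) :
    ((F.filter fun n => r ^ 2 ∣ (n / b) * (b * M n + s * D) ∨
      r ^ 2 ∣ B * (L * ((n + g) / B) - s * (n / b)) * ((b * M n + s * D) / d) ∨
      r ^ 2 ∣ ((n + g) / B) * (B * M n + L * D) ∨
      r ^ 2 ∣ b * (L * ((n + g) / B) - s * (n / b)) * ((B * M n + L * D) / d)).card : ℝ) ≤
    A / d * (12 / (r : ℝ) ^ 2 + (if r ∣ d then 6 / (r : ℝ) else 0) +
      (if r ^ 2 ∣ d then 1 else 0) + (if r = b then 2 / (r : ℝ) else 0) +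
      (if r = B then 2 / (r : ℝ) else 0)) + 16 * η := by
  have hr0 : (0 : ℝ) < r := by exact_mod_cast hr.pos
  have hd0 : (0 : ℝ) < d := by exact_mod_cast h.d0
  have hgB : g < B := hgb.trans h.bB
  have hβ : ∀ k : ℕ, 0 ≤ A / (d * (r : ℝ) ^ k) + η := fun k => by positivity
  have c1 : ∀ i j, i ≤ 2 → j ≤ 2 → ∀ G ⊆ F, (∀ n ∈ G, r ^ i ∣ n / b ∧
      d * r ^ j ∣ b * M n + s * D) → (G.card : ℝ) ≤ A / (d * (r : ℝ) ^ (i + j)) + η := by
    intro i j hi hj G hG hGc
    refine cls_bound (hβ _) (fun u v => hcount i j u v hi hj) G (hG.trans hF) ?_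
    intro n hn n' hn'
    obtain ⟨a1, a2⟩ := hS n (hF (hG hn))
    obtain ⟨a1', a2'⟩ := hS n' (hF (hG hn'))
    exact ⟨congA h hr i hg hgB a1 a2 a1' a2' (hGc n hn).1 (hGc n' hn').1,
      congU h hr j (hGc n hn).2 (hGc n' hn').2⟩
  have c3 : ∀ i j, i ≤ 2 → j ≤ 2 → ∀ G ⊆ F, (∀ n ∈ G, r ^ i ∣ (n + g) / B ∧
      d * r ^ j ∣ B * M n + L * D) → (G.card : ℝ) ≤ A / (d * (r : ℝ) ^ (i + j)) + η := by
    intro i j hi hj G hG hGc
    refine cls_bound (hβ _) (fun u v => hcount i j u v hi hj) G (hG.trans hF) ?_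
    intro n hn n' hn'
    obtain ⟨a1, a2⟩ := hS n (hF (hG hn))
    obtain ⟨a1', a2'⟩ := hS n' (hF (hG hn'))
    exact ⟨congA' h hr i hg hgb a1 a2 a1' a2' (hGc n hn).1 (hGc n' hn').1,
      congV h hr j (hGc n hn).2 (hGc n' hn').2⟩
  have hV : ∀ n ∈ F, d ∣ B * M n + L * D := fun n hn => h.UV (hU n hn)
  by_cases hrd : r ∣ d
  · have hrb : r ≠ b := by rintro rfl; exact h.bd hrd
    have hrB : r ≠ B := by rintro rfl; exact h.Bd hrd
    rw [if_pos hrd, if_neg hrb, if_neg hrB]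
    by_cases hrd2 : r ^ 2 ∣ d
    · rw [if_pos hrd2]
      have h1 := c1 0 0 (by norm_num) (by norm_num) F (Finset.Subset.refl _)
        (fun n hn => ⟨by simp, by simpa using hU n hn⟩)
      have h2 : ((F.filter fun n => r ^ 2 ∣ (n / b) * (b * M n + s * D) ∨
        r ^ 2 ∣ B * (L * ((n + g) / B) - s * (n / b)) * ((b * M n + s * D) / d) ∨
        r ^ 2 ∣ ((n + g) / B) * (B * M n + L * D) ∨
        r ^ 2 ∣ b * (L * ((n + g) / B) - s * (n / b)) * ((B * M n + L * D) / d)).card : ℝ) ≤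
        F.card := by exact_mod_cast Finset.card_filter_le _ _
      refine (h2.trans h1).trans ?_
      have h3 : 0 ≤ A / d * (12 / (r : ℝ) ^ 2 + 6 / (r : ℝ)) := by positivity
      have h4 : A / (d * (r : ℝ) ^ (0 + 0)) = A / d := by simp
      rw [h4]
      linarith
    · rw [if_neg hrd2]
      set β : ℝ := A / (d * (r : ℝ) ^ 1) + η with hβd
      have hrbd : ¬ r ∣ b := fun h' => by
        rcases (Nat.dvd_prime h.bp).1 h' with h2 | h2
        · exact hr.one_lt.ne' h2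
        · exact hrb h2
      have hrBd : ¬ r ∣ B := fun h' => by
        rcases (Nat.dvd_prime h.Bp).1 h' with h2 | h2
        · exact hr.one_lt.ne' h2
        · exact hrB h2
      have sA : ((F.filter fun n => r ∣ n / b).card : ℝ) ≤ β :=
        c1 1 0 (by norm_num) (by norm_num) _ (Finset.filter_subset _ _) (fun n hn => by
          rw [Finset.mem_filter] at hn
          exact ⟨by simpa using hn.2, by simpa using hU n hn.1⟩)
      have sU : ((F.filter fun n => d * r ∣ b * M n + s * D).card : ℝ) ≤ β :=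
        c1 0 1 (by norm_num) (by norm_num) _ (Finset.filter_subset _ _) (fun n hn => by
          rw [Finset.mem_filter] at hn
          exact ⟨by simp, by simpa using hn.2⟩)
      have sA' : ((F.filter fun n => r ∣ (n + g) / B).card : ℝ) ≤ β :=
        c3 1 0 (by norm_num) (by norm_num) _ (Finset.filter_subset _ _) (fun n hn => by
          rw [Finset.mem_filter] at hn
          exact ⟨by simpa using hn.2, by simpa using hV n hn.1⟩)
      have sV : ((F.filter fun n => d * r ∣ B * M n + L * D).card : ℝ) ≤ β :=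
        c3 0 1 (by norm_num) (by norm_num) _ (Finset.filter_subset _ _) (fun n hn => by
          rw [Finset.mem_filter] at hn
          exact ⟨by simp, by simpa using hn.2⟩)
      have t1 : ((F.filter fun n => r ^ 2 ∣ (n / b) * (b * M n + s * D)).card : ℝ) ≤ β + β := by
        refine filt_or (fun n hn h1 => ?_) sA sU
        rcases two hr h1 with h2 | h2 | h2
        · exact Or.inl ((dvd_pow_self r two_ne_zero).trans h2)
        · exact Or.inl h2.1
        · exact Or.inr (dr_dvd hr hrd hrd2 (hU n hn) h2)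
      have t3 : ((F.filter fun n => r ^ 2 ∣ ((n + g) / B) * (B * M n + L * D)).card : ℝ) ≤
          β + β := by
        refine filt_or (fun n hn h1 => ?_) sA' sV
        rcases two hr h1 with h2 | h2 | h2
        · exact Or.inl ((dvd_pow_self r two_ne_zero).trans h2)
        · exact Or.inl h2.1
        · exact Or.inr (dr_dvd hr hrd hrd2 (hV n hn) h2)
      have t2 : ((F.filter fun n => r ^ 2 ∣ B * (L * ((n + g) / B) - s * (n / b)) *
          ((b * M n + s * D) / d)).card : ℝ) ≤ β := by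
        refine filt_le (fun n hn h1 => ?_) sU
        obtain ⟨a1, a2⟩ := hS n (hF hn)
        rcases two hr h1 with h2 | h2 | h2
        · exfalso
          rcases (Nat.Prime.dvd_mul hr).1 ((dvd_pow_self r two_ne_zero).trans h2) with h3 | h3
          · exact hrBd h3
          · exact not_dvd_p h hr hrd hg hgr a1 a2 h3
        · exact Nat.mul_dvd_of_dvd_div (hU n hn) h2.2
        · exact Nat.mul_dvd_of_dvd_div (hU n hn) ((dvd_pow_self r two_ne_zero).trans h2)
      have t4 : ((F.filter fun n => r ^ 2 ∣ b * (L * ((n + g) / B) - s * (n / b)) *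
          ((B * M n + L * D) / d)).card : ℝ) ≤ β := by
        refine filt_le (fun n hn h1 => ?_) sV
        obtain ⟨a1, a2⟩ := hS n (hF hn)
        rcases two hr h1 with h2 | h2 | h2
        · exfalso
          rcases (Nat.Prime.dvd_mul hr).1 ((dvd_pow_self r two_ne_zero).trans h2) with h3 | h3
          · exact hrbd h3
          · exact not_dvd_p h hr hrd hg hgr a1 a2 h3
        · exact Nat.mul_dvd_of_dvd_div (hV n hn) h2.2
        · exact Nat.mul_dvd_of_dvd_div (hV n hn) ((dvd_pow_self r two_ne_zero).trans h2)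
      have t := filt_or (F := F) (fun n _ h1 => h1) t1 (filt_or (F := F) (fun n _ h1 => h1) t2
        (filt_or (F := F) (fun n _ h1 => h1) t3 t4))
      refine t.trans ?_
      have e1 : β = A / d * (1 / r) + η := by
        rw [hβd, pow_one]; field_simp
      rw [e1]
      have e2 : 0 ≤ A / d * (12 / (r : ℝ) ^ 2) := by positivity
      have e3 : A / d * (6 / (r : ℝ)) = 6 * (A / d * (1 / r)) := by ring
      nlinarith
  · have hrd2 : ¬ r ^ 2 ∣ d := fun h' => hrd ((dvd_pow_self r two_ne_zero).trans h')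
    rw [if_neg hrd, if_neg hrd2]
    have c2 : ∀ i j, i ≤ 2 → j ≤ 2 → ∀ G ⊆ F, (∀ n ∈ G, r ^ i ∣ L * ((n + g) / B) - s * (n / b) ∧
        d * r ^ j ∣ b * M n + s * D) → (G.card : ℝ) ≤ A / (d * (r : ℝ) ^ (i + j)) + η := by
      intro i j hi hj G hG hGc
      refine cls_bound (hβ _) (fun u v => hcount i j u v hi hj) G (hG.trans hF) ?_
      intro n hn n' hn'
      obtain ⟨a1, a2⟩ := hS n (hF (hG hn))
      obtain ⟨a1', a2'⟩ := hS n' (hF (hG hn'))
      exact ⟨congP h hr hrd i a1 a2 a1' a2' (hGc n hn).1 (hGc n' hn').1,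
        congU h hr j (hGc n hn).2 (hGc n' hn').2⟩
    have c4 : ∀ i j, i ≤ 2 → j ≤ 2 → ∀ G ⊆ F, (∀ n ∈ G, r ^ i ∣ L * ((n + g) / B) - s * (n / b) ∧
        d * r ^ j ∣ B * M n + L * D) → (G.card : ℝ) ≤ A / (d * (r : ℝ) ^ (i + j)) + η := by
      intro i j hi hj G hG hGc
      refine cls_bound (hβ _) (fun u v => hcount i j u v hi hj) G (hG.trans hF) ?_
      intro n hn n' hn'
      obtain ⟨a1, a2⟩ := hS n (hF (hG hn))
      obtain ⟨a1', a2'⟩ := hS n' (hF (hG hn'))
      exact ⟨congP h hr hrd i a1 a2 a1' a2' (hGc n hn).1 (hGc n' hn').1,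
        congV h hr j (hGc n hn).2 (hGc n' hn').2⟩
    set β : ℝ := A / (d * (r : ℝ) ^ 2) + η with hβd
    set γ : ℝ := A / (d * (r : ℝ) ^ 1) + η with hγd
    have hβ0 : 0 ≤ β := hβ 2
    have hγ0 : 0 ≤ γ := hβ 1
    have t1 : ((F.filter fun n => r ^ 2 ∣ (n / b) * (b * M n + s * D)).card : ℝ) ≤ 3 * β := by
      refine prod3 F _ _ r hr β (fun i j hij => ?_)
      have := c1 i j (by omega) (by omega) _ (Finset.filter_subset
        (fun n => r ^ i ∣ n / b ∧ r ^ j ∣ b * M n + s * D) F) (fun n hn => by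
          rw [Finset.mem_filter] at hn
          exact ⟨hn.2.1, Nat.Coprime.mul_dvd_of_dvd_of_dvd (cop_pow hrd hr j) (hU n hn.1) hn.2.2⟩)
      rwa [hij] at this
    have t3 : ((F.filter fun n => r ^ 2 ∣ ((n + g) / B) * (B * M n + L * D)).card : ℝ) ≤
        3 * β := by
      refine prod3 F _ _ r hr β (fun i j hij => ?_)
      have := c3 i j (by omega) (by omega) _ (Finset.filter_subset
        (fun n => r ^ i ∣ (n + g) / B ∧ r ^ j ∣ B * M n + L * D) F) (fun n hn => by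
          rw [Finset.mem_filter] at hn
          exact ⟨hn.2.1, Nat.Coprime.mul_dvd_of_dvd_of_dvd (cop_pow hrd hr j) (hV n hn.1) hn.2.2⟩)
      rwa [hij] at this
    have t2 : ((F.filter fun n => r ^ 2 ∣ B * (L * ((n + g) / B) - s * (n / b)) *
        ((b * M n + s * D) / d)).card : ℝ) ≤ 3 * β + (if r = B then 2 * γ else 0) := by
      by_cases hrB : r = B
      · rw [if_pos hrB]
        have h1 : ((F.filter fun n => r ^ 2 ∣ B * (L * ((n + g) / B) - s * (n / b)) *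
          ((b * M n + s * D) / d)).card : ℝ) ≤ γ + γ := by
          refine filt_or (Q := fun n => r ∣ L * ((n + g) / B) - s * (n / b))
            (R := fun n => d * r ∣ b * M n + s * D) (fun n hn h1 => ?_) ?_ ?_
          · rw [← hrB, pow_two, mul_assoc] at h1
            have h2 := Nat.dvd_of_mul_dvd_mul_left hr.pos h1
            rw [hrB] at h2 ⊢
            rcases (Nat.Prime.dvd_mul h.Bp).1 h2 with h3 | h3
            · exact Or.inl h3
            · exact Or.inr (Nat.mul_dvd_of_dvd_div (hU n hn) h3)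
          · exact c2 1 0 (by norm_num) (by norm_num) _ (Finset.filter_subset _ _) (fun n hn => by
              rw [Finset.mem_filter] at hn
              exact ⟨by simpa using hn.2, by simpa using hU n hn.1⟩)
          · exact c2 0 1 (by norm_num) (by norm_num) _ (Finset.filter_subset _ _) (fun n hn => by
              rw [Finset.mem_filter] at hn
              exact ⟨by simp, by simpa using hn.2⟩)
        linarith
      · rw [if_neg hrB, add_zero]
        have h1 : ((F.filter fun n => r ^ 2 ∣ (L * ((n + g) / B) - s * (n / b)) *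
          ((b * M n + s * D) / d)).card : ℝ) ≤ 3 * β := by
          refine prod3 F _ _ r hr β (fun i j hij => ?_)
          have := c2 i j (by omega) (by omega) _ (Finset.filter_subset
            (fun n => r ^ i ∣ L * ((n + g) / B) - s * (n / b) ∧ r ^ j ∣ (b * M n + s * D) / d) F)
            (fun n hn => by
              rw [Finset.mem_filter] at hn
              exact ⟨hn.2.1, Nat.mul_dvd_of_dvd_div (hU n hn.1) hn.2.2⟩)
          rwa [hij] at this
        refine filt_le (fun n hn h2 => ?_) h1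
        rw [mul_assoc] at h2
        exact Nat.Coprime.dvd_of_dvd_mul_left
          (Nat.Coprime.pow_left 2 ((Nat.coprime_primes hr h.Bp).2 hrB)) h2
    have t4 : ((F.filter fun n => r ^ 2 ∣ b * (L * ((n + g) / B) - s * (n / b)) *
        ((B * M n + L * D) / d)).card : ℝ) ≤ 3 * β + (if r = b then 2 * γ else 0) := by
      by_cases hrB : r = b
      · rw [if_pos hrB]
        have h1 : ((F.filter fun n => r ^ 2 ∣ b * (L * ((n + g) / B) - s * (n / b)) *
          ((B * M n + L * D) / d)).card : ℝ) ≤ γ + γ := by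
          refine filt_or (Q := fun n => r ∣ L * ((n + g) / B) - s * (n / b))
            (R := fun n => d * r ∣ B * M n + L * D) (fun n hn h1 => ?_) ?_ ?_
          · rw [← hrB, pow_two, mul_assoc] at h1
            have h2 := Nat.dvd_of_mul_dvd_mul_left hr.pos h1
            rcases (Nat.Prime.dvd_mul hr).1 h2 with h3 | h3
            · rw [hrB] at h3 ⊢
              exact Or.inl h3
            · exact Or.inr (Nat.mul_dvd_of_dvd_div (hV n hn) h3)
          · exact c4 1 0 (by norm_num) (by norm_num) _ (Finset.filter_subset _ _) (fun n hn => by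
              rw [Finset.mem_filter] at hn
              exact ⟨by simpa using hn.2, by simpa using hV n hn.1⟩)
          · exact c4 0 1 (by norm_num) (by norm_num) _ (Finset.filter_subset _ _) (fun n hn => by
              rw [Finset.mem_filter] at hn
              exact ⟨by simp, by simpa using hn.2⟩)
        linarith
      · rw [if_neg hrB, add_zero]
        have h1 : ((F.filter fun n => r ^ 2 ∣ (L * ((n + g) / B) - s * (n / b)) *
          ((B * M n + L * D) / d)).card : ℝ) ≤ 3 * β := by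
          refine prod3 F _ _ r hr β (fun i j hij => ?_)
          have := c4 i j (by omega) (by omega) _ (Finset.filter_subset
            (fun n => r ^ i ∣ L * ((n + g) / B) - s * (n / b) ∧ r ^ j ∣ (B * M n + L * D) / d) F)
            (fun n hn => by
              rw [Finset.mem_filter] at hn
              exact ⟨hn.2.1, Nat.mul_dvd_of_dvd_div (hV n hn.1) hn.2.2⟩)
          rwa [hij] at this
        refine filt_le (fun n hn h2 => ?_) h1
        rw [mul_assoc] at h2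
        exact Nat.Coprime.dvd_of_dvd_mul_left
          (Nat.Coprime.pow_left 2 ((Nat.coprime_primes hr h.bp).2 hrB)) h2
    have t := filt_or (F := F) (fun n _ h1 => h1) t1 (filt_or (F := F) (fun n _ h1 => h1) t2
      (filt_or (F := F) (fun n _ h1 => h1) t3 t4))
    refine t.trans ?_
    have e1 : β = A / d * (1 / (r : ℝ) ^ 2) + η := by
      rw [hβd]; field_simp
    have e2 : γ = A / d * (1 / r) + η := by
      rw [hγd, pow_one]; field_simp
    have e3 : 0 ≤ A / d * (1 / (r : ℝ)) := by positivity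
    have e4 : 0 ≤ A / d * (1 / (r : ℝ) ^ 2) := by positivity
    have e5 : (if r = B then 2 * γ else 0) ≤
        A / d * (if r = B then 2 / (r : ℝ) else 0) + 2 * η := by
      split_ifs
      · rw [e2]; apply le_of_eq; ring
      · linarith
    have e6 : (if r = b then 2 * γ else 0) ≤
        A / d * (if r = b then 2 / (r : ℝ) else 0) + 2 * η := by
      split_ifs
      · rw [e2]; apply le_of_eq; ring
      · linarith
    have e7 : A / d * (12 / (r : ℝ) ^ 2 + 0 + 0 + (if r = b then 2 / (r : ℝ) else 0) +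
        (if r = B then 2 / (r : ℝ) else 0)) = 12 * (A / d * (1 / (r : ℝ) ^ 2)) +
        A / d * (if r = b then 2 / (r : ℝ) else 0) +
        A / d * (if r = B then 2 / (r : ℝ) else 0) := by ring
    rw [e7]
    linarith

end count

/-! ### the final count -/

theorem hf_mono {C0 C1 P0 b B W : ℕ} {PP : Finset ℕ} {κ f : ℝ} (hC : C0 ≤ C1)
    (h : HF C1 P0 b B W PP κ f) : HF C0 P0 b B W PP κ f ∧ 1 ≤ W := by
  have hP : 1 ≤ P0 * ∏ p ∈ PP, p :=
    Nat.mul_pos h.P0pos (Finset.prod_pos fun p hp => (h.PPp p hp).1.pos)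
  have hb1 : (1 : ℝ) ≤ ((P0 * ∏ p ∈ PP, p : ℕ) : ℝ) / κ := by
    rw [one_le_div h.κ0]
    have : (1 : ℝ) ≤ ((P0 * ∏ p ∈ PP, p : ℕ) : ℝ) := by exact_mod_cast hP
    have := h.κ1
    linarith
  have hW1 : (1 : ℝ) ≤ W := (one_le_pow₀ hb1).trans h.big
  refine ⟨⟨h.P0pos, h.PPp, h.κ0, h.κ1, h.f0, h.f1, h.bp, h.Bp, h.bB,
    (pow_le_pow_right₀ hb1 hC).trans h.big, (pow_le_pow_right₀ hW1 hC).trans h.Wb, h.BW⟩, ?_⟩
  exact_mod_cast hW1

theorem sum_inv_sq {z Y : ℝ} (hz : 1 ≤ z) (R : Finset ℕ)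
    (hR : ∀ r ∈ R, z < (r : ℝ) ∧ (r : ℝ) ≤ Y) : ∑ r ∈ R, 1 / (r : ℝ) ^ 2 ≤ 2 / z := by
  have hk : ⌊z⌋₊ ≠ 0 := by
    have := (Nat.one_le_floor_iff (x := z)).2 hz
    omega
  have hsub : R ⊆ Ioc ⌊z⌋₊ (max ⌊z⌋₊ ⌊Y⌋₊) := by
    intro r hr
    obtain ⟨h1, h2⟩ := hR r hr
    rw [Finset.mem_Ioc]
    exact ⟨(Nat.floor_lt (by linarith)).2 h1, (Nat.le_floor h2).trans (le_max_right _ _)⟩
  have h1 : ∑ r ∈ R, 1 / (r : ℝ) ^ 2 ≤ ∑ i ∈ Ioc ⌊z⌋₊ (max ⌊z⌋₊ ⌊Y⌋₊), ((i : ℝ) ^ 2)⁻¹ := by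
    refine le_trans (le_of_eq (Finset.sum_congr rfl fun r _ => one_div _)) ?_
    exact Finset.sum_le_sum_of_subset_of_nonneg hsub (fun _ _ _ => by positivity)
  have h2 := sum_Ioc_inv_sq_le_sub (α := ℝ) hk (le_max_left ⌊z⌋₊ ⌊Y⌋₊)
  have h3 : (0 : ℝ) ≤ ((max ⌊z⌋₊ ⌊Y⌋₊ : ℕ) : ℝ)⁻¹ := by positivity
  have h4 : ((⌊z⌋₊ : ℕ) : ℝ)⁻¹ ≤ 2 / z := by
    have h5 : (1 : ℝ) ≤ ⌊z⌋₊ := by exact_mod_cast (Nat.one_le_iff_ne_zero.2 hk)
    have h6 := Nat.lt_floor_add_one z
    rw [inv_eq_one_div, div_le_div_iff₀ (by linarith) (by linarith)]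
    linarith
  linarith

theorem mem_Fam {P0 : ℕ} {PP : Finset ℕ} {κ f : ℝ} {b B W M0 : ℕ} {x y : ℕ → ℤ}
    {e : ℕ × ℕ × ℕ} (he : e ∈ Fam P0 PP κ f b B W M0 x y) :
    Conf0 P0 κ f b B W e ∧ ∀ p ∈ PP, Siev b B M0 (x p) (y p) e p := by
  classical
  unfold Fam at he
  exact (Finset.mem_filter.1 he).2

theorem card_Fam (P0 : ℕ) (PP : Finset ℕ) (κ f : ℝ) (b B W M0 : ℕ) (x y : ℕ → ℤ) :
    (Fam P0 PP κ f b B W M0 x y).card ≤ W * (3 * B * W * b) := by
  classical
  unfold Fam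
  refine (Finset.card_filter_le _ _).trans ?_
  rw [Finset.card_product, Finset.card_product, Nat.card_Icc, Nat.card_Icc, Nat.card_Icc]
  simp

end SPS

open SPS in
theorem spoilS (hFP : FamPd) : SpoilS := by
  obtain ⟨C1, hC1, C2, hfp⟩ := hFP
  refine ⟨100 + 6 * C1, by linarith, max C2 20, ?_⟩
  intro P0 b B W PP κ f hHF M0 x y g z Y hz hzW hg hgz hzY hP0 hPP S M A η hA hη hS hcount T hT
  have hHF2 := (hf_mono (le_max_left C2 20) hHF).1
  have hHF20 := (hf_mono (le_max_right C2 20) hHF).1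
  have hW1 := (hf_mono (le_max_right C2 20) hHF).2
  have hfam := hfp P0 b B W PP κ f hHF2 M0 x y z hz hzW
  set Fm := Fam P0 PP κ f b B W M0 x y with hFm
  have hW1r : (1 : ℝ) ≤ W := by exact_mod_cast hW1
  have hz0 : 0 < z := by linarith
  have hzW' : z ≤ W := by
    calc z = z ^ 1 := (pow_one z).symm
      _ ≤ z ^ 16 := pow_le_pow_right₀ hz (by norm_num)
      _ ≤ W := hzW
  have hWb : (W : ℝ) ≤ b := by
    calc (W : ℝ) = (W : ℝ) ^ 1 := (pow_one _).symm
      _ ≤ (W : ℝ) ^ 20 := pow_le_pow_right₀ hW1r (by norm_num)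
      _ ≤ b := hHF20.Wb
  have hb2 : 2 ≤ b := hHF.bp.two_le
  have hbB : b < B := by
    have h1 : b ^ 3 = b * b * b := by ring
    have h2 : b * 2 ≤ b * b := Nat.mul_le_mul_left b hb2
    have h3 : b * b * 1 ≤ b * b * b := Nat.mul_le_mul_left _ (by omega)
    have := hHF.bB
    omega
  have hbBr : (b : ℝ) < B := by exact_mod_cast hbB
  have hgb : g < b := by
    have : (g : ℝ) < b := by linarith
    exact_mod_cast this
  have hb0 : (0 : ℝ) < b := by linarith
  have hB0 : (0 : ℝ) < B := by linarith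
  have hzb : z ≤ b := hzW'.trans hWb
  have hκ0 := hHF.κ0
  have hκ1 := hHF.κ1
  have hf1 := hHF.f1
  -- facts about e
  have hEF : ∀ e ∈ Fm, EF b B e.1 e.2.1 e.2.2 (cd b B e) := by
    intro e he
    obtain ⟨hc, _⟩ := mem_Fam he
    refine ⟨hHF.bp, hHF.Bp, hbB, hc.s_pos, hc.L_pos, hc.D_pos, ?_, ?_, hc.sL, ?_, ?_⟩
    · have h1 := hc.w2
      have h2 : (e.1 : ℝ) * e.2.2 / b < 1 := by linarith
      rw [div_lt_one hb0] at h2
      exact_mod_cast h2
    · have h1 := hc.w4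
      have h2 : (e.2.1 : ℝ) * e.2.2 / B < 1 := by linarith
      rw [div_lt_one hB0] at h2
      exact_mod_cast h2
    · exact Nat.sub_add_cancel hc.lt.le
    · exact Nat.sub_pos_of_lt hc.lt
  have hdB : ∀ e ∈ Fm, cd b B e ≤ B ^ 4 := by
    intro e he
    have h := hEF e he
    have h1 : cd b B e ≤ b * e.2.1 := by have := h.hd; omega
    have h2 : e.2.1 ≤ B := by
      have h3 : e.2.1 * 1 ≤ e.2.1 * e.2.2 := Nat.mul_le_mul_left _ h.D0
      have := h.LD
      omega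
    have hB1 : 1 ≤ B := h.Bp.one_lt.le
    calc cd b B e ≤ b * e.2.1 := h1
      _ ≤ B * B := Nat.mul_le_mul hbB.le h2
      _ = B ^ 2 := by ring
      _ ≤ B ^ 4 := Nat.pow_le_pow_right hB1 (by norm_num)
  have hcop : ∀ e ∈ Fm, (cd b B e).Coprime (P0 * ∏ p ∈ PP, p) := by
    intro e he
    have h := hEF e he
    obtain ⟨hc, hsv⟩ := mem_Fam he
    apply Nat.Coprime.mul_right
    · apply Nat.Coprime.symm
      by_contra hne
      obtain ⟨p, hp, hp1, hp2⟩ := Nat.Prime.not_coprime_iff_dvd.1 hne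
      have h1 : p ∣ b * e.2.1 := Dvd.dvd.mul_left (hp1.trans hc.P0L) b
      rw [← h.hd] at h1
      have h2 := (Nat.dvd_add_right hp2).1 h1
      rcases (Nat.Prime.dvd_mul hp).1 h2 with h3 | h3
      · rcases (Nat.dvd_prime h.Bp).1 h3 with h4 | h4
        · exact hp.one_lt.ne' h4
        · have h5 := hP0 p hp hp1
          rw [h4] at h5
          linarith
      · have h4 := Nat.dvd_gcd h3 hp1
        rw [hc.sP0] at h4
        exact hp.one_lt.ne' (Nat.dvd_one.1 h4)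
    · apply Nat.Coprime.prod_right
      intro p hp
      exact ((Nat.Prime.coprime_iff_not_dvd (hHF.PPp p hp).1).2 (hsv p hp).1).symm
  -- the primes
  set R : Finset ℕ := (Icc 1 ⌊Y⌋₊).filter (fun r => r.Prime ∧ z < (r : ℝ)) with hR
  have hRm : ∀ r ∈ R, r.Prime ∧ z < (r : ℝ) ∧ (r : ℝ) ≤ Y := by
    intro r hr
    rw [hR, Finset.mem_filter, Finset.mem_Icc] at hr
    exact ⟨hr.2.1, hr.2.2, (Nat.le_floor_iff (by linarith)).1 hr.1.2⟩
  have hRc : (R.card : ℝ) ≤ Y := by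
    have h1 : R.card ≤ ⌊Y⌋₊ := by
      rw [hR]
      refine (Finset.card_filter_le _ _).trans ?_
      rw [Nat.card_Icc]
      omega
    calc (R.card : ℝ) ≤ ⌊Y⌋₊ := by exact_mod_cast h1
      _ ≤ Y := Nat.floor_le (by linarith)
  have hper : ∀ e ∈ Fm, ((T e).card : ℝ) ≤ A / (cd b B e) * (28 / z) +
      6 * A * (1 / (cd b B e : ℝ) *
      (∑ r ∈ (cd b B e).primeFactors.filter (fun r : ℕ => z < r), 1 / (r : ℝ) +
        (((cd b B e).primeFactors.filter (fun r : ℕ => z < r ∧ r ^ 2 ∣ cd b B e)).card : ℝ))) +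
      16 * (η * Y) := by
    intro e he
    have h := hEF e he
    have hd0 : (0 : ℝ) < cd b B e := by exact_mod_cast h.d0
    set d := cd b B e with hd
    set Bad : ℕ → Finset ℕ := fun r => (T e).filter fun n =>
      r ^ 2 ∣ (n / b) * (b * M n + e.1 * e.2.2) ∨
      r ^ 2 ∣ B * (e.2.1 * ((n + g) / B) - e.1 * (n / b)) * ((b * M n + e.1 * e.2.2) / d) ∨
      r ^ 2 ∣ ((n + g) / B) * (B * M n + e.2.1 * e.2.2) ∨
      r ^ 2 ∣ b * (e.2.1 * ((n + g) / B) - e.1 * (n / b)) * ((B * M n + e.2.1 * e.2.2) / d)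
      with hBad
    have hsub : T e ⊆ R.biUnion Bad := by
      intro n hn
      obtain ⟨_, r, hr, hzr, hrY, N, hN, hrN⟩ := (hT e he).2 n hn
      rw [Finset.mem_biUnion]
      refine ⟨r, ?_, ?_⟩
      · rw [hR, Finset.mem_filter, Finset.mem_Icc]
        exact ⟨⟨hr.one_lt.le, Nat.le_floor hrY⟩, hr, hzr⟩
      · rw [hBad]
        simp only [Finset.mem_filter]
        refine ⟨hn, ?_⟩
        simp only [num, cU, cV, cp, Finset.mem_insert, Finset.mem_singleton] at hN
        rcases hN with h1 | h1 | h1 | h1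
        · rw [h1] at hrN; exact Or.inl hrN
        · rw [h1] at hrN; exact Or.inr (Or.inl hrN)
        · rw [h1] at hrN; exact Or.inr (Or.inr (Or.inl hrN))
        · rw [h1] at hrN; exact Or.inr (Or.inr (Or.inr hrN))
    have h1 : ((T e).card : ℝ) ≤ ∑ r ∈ R, ((Bad r).card : ℝ) := by
      have := (Finset.card_le_card hsub).trans Finset.card_biUnion_le
      exact_mod_cast this
    have h2 : ∀ r ∈ R, ((Bad r).card : ℝ) ≤ A / d * (12 / (r : ℝ) ^ 2 +
        (if r ∣ d then 6 / (r : ℝ) else 0) +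
        (if r ^ 2 ∣ d then 1 else 0) + (if r = b then 2 / (r : ℝ) else 0) +
        (if r = B then 2 / (r : ℝ) else 0)) + 16 * η := by
      intro r hr
      obtain ⟨hrp, hzr, hrY⟩ := hRm r hr
      have hgr : g < r := by
        have : (g : ℝ) < r := by linarith
        exact_mod_cast this
      exact bad_le h hrp hg hgr hgb hA hη (fun n hn => ⟨(hS n hn).2.1, (hS n hn).2.2⟩)
        (fun i j u v hi hj => hcount i j d r u v hi hj hrp hzr hrY h.d0 (hdB e he) (hcop e he))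
        (T e) (hT e he).1 (fun n hn => ((hT e he).2 n hn).1)
    have h3 : ((T e).card : ℝ) ≤ A / d * (12 * ∑ r ∈ R, 1 / (r : ℝ) ^ 2 +
        ∑ r ∈ R, (if r ∣ d then 6 / (r : ℝ) else 0) +
        ∑ r ∈ R, (if r ^ 2 ∣ d then (1 : ℝ) else 0) + ∑ r ∈ R, (if r = b then 2 / (r : ℝ) else 0) +
        ∑ r ∈ R, (if r = B then 2 / (r : ℝ) else 0)) + 16 * η * R.card := by
      refine h1.trans ((Finset.sum_le_sum h2).trans (le_of_eq ?_))
      rw [Finset.sum_add_distrib, ← Finset.mul_sum, Finset.sum_add_distrib,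
        Finset.sum_add_distrib, Finset.sum_add_distrib, Finset.sum_add_distrib, Finset.mul_sum,
        Finset.sum_const, nsmul_eq_mul]
      have e1 : ∑ i ∈ R, 12 / (i : ℝ) ^ 2 = ∑ i ∈ R, 12 * (1 / (i : ℝ) ^ 2) :=
        Finset.sum_congr rfl fun i _ => by ring
      rw [e1]
      ring
    have h4 : ∑ r ∈ R, 1 / (r : ℝ) ^ 2 ≤ 2 / z := sum_inv_sq hz R (fun r hr => (hRm r hr).2)
    have hd0n : d ≠ 0 := h.d0.ne'
    have h5 : ∑ r ∈ R, (if r ∣ d then 6 / (r : ℝ) else 0) ≤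
        6 * ∑ r ∈ d.primeFactors.filter (fun r : ℕ => z < r), 1 / (r : ℝ) := by
      rw [← Finset.sum_filter, Finset.mul_sum]
      refine le_trans (le_of_eq (Finset.sum_congr rfl fun r _ =>
        show 6 / (r : ℝ) = 6 * (1 / (r : ℝ)) by ring)) ?_
      refine Finset.sum_le_sum_of_subset_of_nonneg (fun r hr => ?_) (fun _ _ _ => by positivity)
      rw [Finset.mem_filter] at hr
      rw [Finset.mem_filter, Nat.mem_primeFactors]
      exact ⟨⟨(hRm r hr.1).1, hr.2, hd0n⟩, (hRm r hr.1).2.1⟩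
    have h6 : ∑ r ∈ R, (if r ^ 2 ∣ d then (1 : ℝ) else 0) ≤
        ((d.primeFactors.filter (fun r : ℕ => z < r ∧ r ^ 2 ∣ d)).card : ℝ) := by
      rw [← Finset.sum_filter, Finset.sum_const, nsmul_eq_mul, mul_one]
      have : R.filter (fun r => r ^ 2 ∣ d) ⊆
          d.primeFactors.filter (fun r : ℕ => z < r ∧ r ^ 2 ∣ d) := fun r hr => by
        rw [Finset.mem_filter] at hr
        rw [Finset.mem_filter, Nat.mem_primeFactors]
        exact ⟨⟨(hRm r hr.1).1, (dvd_pow_self r two_ne_zero).trans hr.2, hd0n⟩,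
          (hRm r hr.1).2.1, hr.2⟩
      exact_mod_cast Finset.card_le_card this
    have hone : ∀ c : ℕ, z ≤ (c : ℝ) → ∑ r ∈ R, (if r = c then 2 / (r : ℝ) else 0) ≤ 2 / z := by
      intro c hc
      rw [Finset.sum_ite_eq']
      split_ifs
      · exact div_le_div_of_nonneg_left (by norm_num) hz0 hc
      · positivity
    have h7 := hone b hzb
    have h8 := hone B (hzb.trans hbBr.le)
    have h9 : 16 * η * R.card ≤ 16 * (η * Y) := by nlinarith
    refine h3.trans (add_le_add ?_ h9)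
    have hAd : 0 ≤ A / d := by positivity
    set G1 := ∑ r ∈ d.primeFactors.filter (fun r : ℕ => z < r), 1 / (r : ℝ) with hG1
    set G2 : ℝ := ((d.primeFactors.filter (fun r : ℕ => z < r ∧ r ^ 2 ∣ d)).card : ℝ) with hG2
    have hG20 : 0 ≤ G2 := by positivity
    calc _ ≤ A / d * (12 * (2 / z) + 6 * G1 + G2 + 2 / z + 2 / z) :=
          mul_le_mul_of_nonneg_left (by linarith) hAd
      _ ≤ A / d * (28 / z + 6 * (G1 + G2)) := by
          refine mul_le_mul_of_nonneg_left ?_ hAd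
          have : 12 * (2 / z) + 2 / z + 2 / z = 28 / z := by ring
          linarith
      _ = A / d * (28 / z) + 6 * A * (1 / d * (G1 + G2)) := by ring
  -- summing over the family
  have hcard : (Fm.card : ℝ) ≤ 3 * (B : ℝ) ^ 4 := by
    have h1 : Fm.card ≤ W * (3 * B * W * b) := card_Fam _ _ _ _ _ _ _ _ _ _
    have h2 : (Fm.card : ℝ) ≤ W * (3 * B * W * b) := by exact_mod_cast h1
    have hWB : (W : ℝ) ≤ B := by linarith
    calc (Fm.card : ℝ) ≤ W * (3 * B * W * b) := h2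
      _ ≤ B * (3 * B * B * B) := by gcongr
      _ = 3 * (B : ℝ) ^ 4 := by ring
  have hsum := Finset.sum_le_sum hper
  rw [Finset.sum_add_distrib, Finset.sum_add_distrib, ← Finset.mul_sum, Finset.sum_const,
    nsmul_eq_mul] at hsum
  refine hsum.trans ?_
  have hE : ∑ e ∈ Fm, A / (cd b B e : ℝ) * (28 / z) =
      28 * A * EE P0 PP κ f b B W M0 x y / z := by
    rw [EE, ← hFm, Finset.mul_sum, Finset.sum_div]
    exact Finset.sum_congr rfl fun e _ => by ring
  have hEE0 : 0 ≤ EE P0 PP κ f b B W M0 x y := Finset.sum_nonneg fun e _ => by positivity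
  have hlogW : 0 ≤ Real.log W := Real.log_nonneg hW1r
  rw [hE]
  have k1 : 6 * A * ∑ e ∈ Fm, (1 / (cd b B e : ℝ) *
      (∑ r ∈ (cd b B e).primeFactors.filter (fun r : ℕ => z < r), 1 / (r : ℝ) +
        (((cd b B e).primeFactors.filter (fun r : ℕ => z < r ∧ r ^ 2 ∣ cd b B e)).card : ℝ))) ≤
      6 * A * (C1 * κ * Real.log W / z) := mul_le_mul_of_nonneg_left hfam (by positivity)
  have k2 : 28 * A * EE P0 PP κ f b B W M0 x y / z + 6 * A * (C1 * κ * Real.log W / z) ≤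
      (100 + 6 * C1) * A * (EE P0 PP κ f b B W M0 x y + κ * Real.log W) / z := by
    have e1 : (100 + 6 * C1) * A * (EE P0 PP κ f b B W M0 x y + κ * Real.log W) / z =
      28 * A * EE P0 PP κ f b B W M0 x y / z + 6 * A * (C1 * κ * Real.log W / z) +
      ((72 + 6 * C1) * A * EE P0 PP κ f b B W M0 x y / z + 100 * A * (κ * Real.log W) / z) := by
      ring
    rw [e1]
    have e2 : 0 ≤ (72 + 6 * C1) * A * EE P0 PP κ f b B W M0 x y / z +
      100 * A * (κ * Real.log W) / z := by positivity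
    linarith
  have hY0 : 0 ≤ Y := by linarith
  have k3 : (Fm.card : ℝ) * (16 * (η * Y)) ≤ η * Y * (B : ℝ) ^ max C2 20 := by
    have hB8 : (8 : ℝ) ≤ B := by
      have h1 : 2 ^ 3 ≤ b ^ 3 := Nat.pow_le_pow_left hb2 3
      have h2 : 8 ≤ B := by have := hHF.bB; omega
      exact_mod_cast h2
    have h1 : 48 * (B : ℝ) ^ 4 ≤ (B : ℝ) ^ max C2 20 := by
      calc 48 * (B : ℝ) ^ 4 ≤ (B : ℝ) ^ 2 * (B : ℝ) ^ 4 := by
            refine mul_le_mul_of_nonneg_right ?_ (by positivity)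
            nlinarith
        _ = (B : ℝ) ^ 6 := by ring
        _ ≤ (B : ℝ) ^ max C2 20 :=
            pow_le_pow_right₀ (by linarith) (le_trans (by norm_num) (le_max_right C2 20))
    have h2 : (0 : ℝ) ≤ η * Y := by positivity
    calc (Fm.card : ℝ) * (16 * (η * Y)) ≤ 3 * (B : ℝ) ^ 4 * (16 * (η * Y)) := by gcongr
      _ = η * Y * (48 * (B : ℝ) ^ 4) := by ring
      _ ≤ _ := mul_le_mul_of_nonneg_left h1 h2
  linarith

end

end Pool.Agent.MR2
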