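import Pool.Agent.Lib.MR2.Defs
import Pool.Agent.Lib.MRF.AT
import Pool.Agent.Lib.MRL.MV

/-! TANK MR2, row TR: the Gaussian tail with arbitrary coefficients, `TailR`. helper20. -/

set_option autoImplicit false

namespace Pool.Agent.MR2

open Finset MeasureTheory Pool.Agent.MRL Pool.Agent.MRF

namespace TR

/-- the mean square of `AF r Y`, uniform in the coefficients. -/
theorem AF_mean (h1 : MeanValue) : ∃ C : ℝ, 0 < C ∧ ∀ r : ℕ → ℂ, (∀ n, ‖r n‖ ≤ 1) →
    ∀ Y T : ℝ, 1 ≤ Y → 0 < T → T ≤ Y → ∫ t : ℝ, ‖AF r Y t‖ ^ 2 * g T t ≤ C := by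
  obtain ⟨C, hC, h⟩ := h1
  refine ⟨6 * C, by positivity, fun f hf Y T hY hT hTY => ?_⟩
  set N := ⌊2 * Y⌋₊ with hN
  have hN1 : 1 ≤ N := by
    rw [hN, Nat.one_le_floor_iff]
    linarith
  have hNY : (N : ℝ) ≤ 2 * Y := Nat.floor_le (by linarith)
  set a : ℕ → ℂ := fun n => if n ∈ Ioc ⌊Y⌋₊ N then ((1 / (n : ℝ) : ℝ) : ℂ) * f n else 0 with ha
  have hsub : Ioc ⌊Y⌋₊ N ⊆ Icc 1 N := by
    intro n hn
    rw [Finset.mem_Ioc] at hn
    rw [Finset.mem_Icc]
    omega
  have hA : ∀ t, AF f Y t = ∑ n ∈ Icc 1 N, a n * nt n t := by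
    intro t
    unfold AF
    rw [← Finset.sum_subset hsub]
    · refine Finset.sum_congr rfl fun n hn => ?_
      rw [ha]
      simp only [hn, if_true]
    · intro n _ hn
      rw [ha]
      simp only [hn, if_false, zero_mul]
  have h2 := h N T a hN1 hT
  have h3 : ∑ n ∈ Icc 1 N, ‖a n‖ ^ 2 ≤ 2 / Y := by
    have h4 : ∑ n ∈ Icc 1 N, ‖a n‖ ^ 2 = ∑ n ∈ Ioc ⌊Y⌋₊ N, ‖a n‖ ^ 2 := by
      rw [← Finset.sum_subset hsub]
      intro n _ hn
      rw [ha]
      simp only [hn, if_false, norm_zero]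
      norm_num
    rw [h4]
    have h5 : ∀ n ∈ Ioc ⌊Y⌋₊ N, ‖a n‖ ^ 2 ≤ 1 / Y ^ 2 := by
      intro n hn
      have hn' := Finset.mem_Ioc.mp hn
      have hYn : Y < n := (Nat.floor_lt (by linarith)).mp hn'.1
      have h6 : ‖a n‖ ≤ 1 / (n : ℝ) := by
        rw [ha]
        simp only [hn, if_true]
        exact norm_coef hf n
      calc ‖a n‖ ^ 2 ≤ (1 / (n : ℝ)) ^ 2 := pow_le_pow_left₀ (norm_nonneg _) h6 2
        _ = 1 / (n : ℝ) ^ 2 := by rw [div_pow, one_pow]
        _ ≤ 1 / Y ^ 2 := by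
            apply one_div_le_one_div_of_le (by positivity)
            exact pow_le_pow_left₀ (by linarith) hYn.le 2
    refine (Finset.sum_le_card_nsmul _ _ _ h5).trans ?_
    rw [nsmul_eq_mul, Nat.card_Ioc]
    have h6 : ((N - ⌊Y⌋₊ : ℕ) : ℝ) ≤ 2 * Y := by
      calc ((N - ⌊Y⌋₊ : ℕ) : ℝ) ≤ (N : ℝ) := by exact_mod_cast Nat.sub_le _ _
        _ ≤ 2 * Y := hNY
    calc ((N - ⌊Y⌋₊ : ℕ) : ℝ) * (1 / Y ^ 2) ≤ 2 * Y * (1 / Y ^ 2) := by gcongr
      _ = 2 / Y := by field_simp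
  simp_rw [hA]
  refine h2.trans ?_
  have h7 : T + N ≤ 3 * Y := by linarith
  have h8 : 0 ≤ ∑ n ∈ Icc 1 N, ‖a n‖ ^ 2 := by positivity
  calc C * (T + N) * ∑ n ∈ Icc 1 N, ‖a n‖ ^ 2 ≤ C * (3 * Y) * (2 / Y) := by gcongr
    _ = 6 * C := by field_simp; ring

end TR

/-- the Gaussian tail. -/
theorem tailR_of (h1 : MeanValue) : TailR := by
  obtain ⟨C, hC, hA⟩ := TR.AF_mean h1
  refine ⟨4 * C, by positivity, fun r hr X T h hX hT hh hTX => ?_⟩
  have hh0 : 0 < h := by linarith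
  have hTh : T * h ≤ X := (le_div_iff₀ hh0).1 hTX
  have hi1 : Integrable (fun t => ‖AF r X t‖ ^ 2 * g T t) := MRF.AT.integrable_AF hr X hT
  rcases le_total 2 h with hh2 | hh2
  · have h2T : 2 * T ≤ X := by nlinarith
    have hm := hA r hr X (2 * T) hX (by positivity) h2T
    have hexp : Real.exp (-h) * C ≤ 4 * C / h ^ 2 := by
      have e1 : h ^ 2 / 2 ≤ Real.exp h := by
        have := Real.quadratic_le_exp_of_nonneg hh0.le
        linarith
      rw [Real.exp_neg, inv_mul_eq_div, div_le_div_iff₀ (Real.exp_pos _) (by positivity)]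
      nlinarith
    have hmeas : MeasurableSet {t : ℝ | X < |t|} :=
      measurableSet_lt measurable_const measurable_id.abs
    have hpt : ∀ t ∈ {t : ℝ | X < |t|},
        ‖AF r X t‖ ^ 2 * g T t ≤ Real.exp (-h) * (‖AF r X t‖ ^ 2 * g (2 * T) t) := by
      intro t ht
      have ht' : X < |t| := ht
      have hg : g T t ≤ Real.exp (-h) * g (2 * T) t := by
        unfold g
        rw [← Real.exp_add, Real.exp_le_exp]
        have e2 : (t / (2 * T)) ^ 2 = (t / T) ^ 2 / 4 := by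
          rw [div_pow, div_pow, mul_pow]
          field_simp
          norm_num
        rw [e2]
        have e3 : h ≤ |t / T| := by
          rw [abs_div, abs_of_pos hT, le_div_iff₀ hT]
          linarith
        have e4 : h ^ 2 ≤ (t / T) ^ 2 := by
          rw [← sq_abs (t / T)]
          exact pow_le_pow_left₀ (by linarith) e3 2
        nlinarith
      calc ‖AF r X t‖ ^ 2 * g T t ≤ ‖AF r X t‖ ^ 2 * (Real.exp (-h) * g (2 * T) t) :=
            mul_le_mul_of_nonneg_left hg (by positivity)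
        _ = Real.exp (-h) * (‖AF r X t‖ ^ 2 * g (2 * T) t) := by ring
    have hi2 : Integrable (fun t => ‖AF r X t‖ ^ 2 * g (2 * T) t) :=
      MRF.AT.integrable_AF hr X (by positivity)
    calc ∫ t in {t : ℝ | X < |t|}, ‖AF r X t‖ ^ 2 * g T t
        ≤ ∫ t in {t : ℝ | X < |t|}, Real.exp (-h) * (‖AF r X t‖ ^ 2 * g (2 * T) t) :=
          setIntegral_mono_on hi1.integrableOn (hi2.const_mul _).integrableOn hmeas hpt
      _ ≤ ∫ t, Real.exp (-h) * (‖AF r X t‖ ^ 2 * g (2 * T) t) := by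
          refine setIntegral_le_integral (hi2.const_mul _) (Filter.Eventually.of_forall fun t => ?_)
          have := MRF.AT.g_nonneg (2 * T) t
          positivity
      _ = Real.exp (-h) * ∫ t, ‖AF r X t‖ ^ 2 * g (2 * T) t := integral_const_mul _ _
      _ ≤ Real.exp (-h) * C := by gcongr
      _ ≤ 4 * C / h ^ 2 := hexp
  · have hTX' : T ≤ X := by nlinarith
    have hm := hA r hr X T hX hT hTX'
    have h4 : C ≤ 4 * C / h ^ 2 := by
      rw [le_div_iff₀ (by positivity)]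
      have h5 : h ^ 2 ≤ 4 := by nlinarith
      calc C * h ^ 2 ≤ C * 4 := by gcongr
        _ = 4 * C := by ring
    calc ∫ t in {t : ℝ | X < |t|}, ‖AF r X t‖ ^ 2 * g T t
        ≤ ∫ t, ‖AF r X t‖ ^ 2 * g T t := by
          refine setIntegral_le_integral hi1 (Filter.Eventually.of_forall fun t => ?_)
          have := MRF.AT.g_nonneg T t
          positivity
      _ ≤ C := hm
      _ ≤ 4 * C / h ^ 2 := h4

/-- ROW TR. -/
theorem tailR : TailR := tailR_of meanValue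

end Pool.Agent.MR2
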