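import Pool.Agent.Lib.MR2.TopA
import Pool.Agent.Lib.MR2.NR2
import Pool.Agent.Lib.MR2.NRM
import Pool.Agent.Lib.MR2.SVA
import Pool.Agent.Lib.MR2.SFL
import Pool.Agent.Lib.MR2.LQAll
import Pool.Agent.Lib.MR2.LK2b
import Pool.Agent.Lib.MR2.EQ2
import Pool.Agent.Lib.MR2.SM2F
import Pool.Agent.Lib.MR2.Sieve2
import Pool.Agent.Lib.MR2.EN2

/-! # TANK MR2: stage 1 without hypotheses (`λ`, every class, a power of `log` below `√t`), and the
Matomäki–Radziwiłł input of stage 2.  helper67. -/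

set_option autoImplicit false

namespace Pool.Agent.MR2

theorem noRuns2_all : ∃ ω : ℝ, 0 < ω ∧ NoRuns2 ω :=
  NR2.noRuns2 mrw_all sieveWinA fun q _ => supW_lamChi_one lq_all q

theorem noRunsM_all : ∃ ω : ℝ, 0 < ω ∧ NoRunsM ω :=
  NRM.noRunsM mrw_all sieveWinA fun q _ => supW_lamChi lq_all q

theorem link2_all : Link2 := link2 secondMoment2 equi2 sieve2 mertensUp

/-- For some absolute `κ > 0`: every residue class, both parities in `(t, t + √t/(log t)^κ)`. -/
theorem final2_all : ∃ κ : ℝ, 0 < κ ∧ Final2 κ := by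
  obtain ⟨ω, hω, h⟩ := noRuns2_all
  refine ⟨min (ω / 4) (1 / 200), lt_min (by linarith) (by norm_num), ?_⟩
  refine end2 link2_all ω _ (lt_min (by linarith) (by norm_num)) ?_ ?_ h
  · exact lt_of_le_of_lt (min_le_right _ _) (by norm_num)
  · have := min_le_left (ω / 4) (1 / 200 : ℝ)
    linarith

end Pool.Agent.MR2
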