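import Pool.Agent.Lib.MR2.Top1
import Pool.Agent.Lib.MR2.LKM
import Pool.Agent.Lib.MR2.ENM
import Pool.Agent.Lib.MR2.GapM
import Pool.Agent.Lib.MR2.CHM
import Pool.Agent.Lib.MR2.SMMF
import Pool.Agent.Lib.MR2.SpoilS
import Pool.Agent.Lib.MR2.SpoilL
import Pool.Agent.Lib.MR2.FamPd
import Pool.Agent.Lib.MR2.CRT
import Pool.Agent.Lib.MR2.FL
import Pool.Agent.Lib.MR2.AllM

/-! # TANK MR2: stage 2 without hypotheses (the Möbius function, a power of `log` below `√t`).
helper67. -/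

set_option autoImplicit false

namespace Pool.Agent.MR2

theorem linkM_all : LinkM :=
  linkM equi2 smm (spoilS famPd) spoilL chainM (famLow crtCount) sieve2 mertensUp

/-- For some absolute `κ > 0`: both nonzero values of `μ` in every reduced class in
`(t, t + √t/(log t)^κ)`. -/
theorem finalM_all : ∃ κ : ℝ, 0 < κ ∧ FinalM κ := by
  obtain ⟨ω, hω, h⟩ := noRunsM_all
  refine ⟨min (ω / 4) (1 / 200), lt_min (by linarith) (by norm_num), ?_⟩
  refine endM linkM_all gapM ω _ (lt_min (by linarith) (by norm_num)) ?_ ?_ h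
  · exact lt_of_le_of_lt (min_le_right _ _) (by norm_num)
  · have := min_le_left (ω / 4) (1 / 200 : ℝ)
    linarith

/-- The same in every class that contains squarefree integers. -/
theorem finalM_classes_all : ∃ κ : ℝ, 0 < κ ∧ ∀ q a : ℕ, 1 ≤ q → Squarefree (a.gcd q) →
    ∃ t0 : ℝ, ∀ t : ℝ, t0 ≤ t →
    (∃ n : ℕ, t < n ∧ (n : ℝ) < t + √t / Real.log t ^ κ ∧ n ≡ a [MOD q] ∧
      ArithmeticFunction.moebius n = 1) ∧
    (∃ n : ℕ, t < n ∧ (n : ℝ) < t + √t / Real.log t ^ κ ∧ n ≡ a [MOD q] ∧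
      ArithmeticFunction.moebius n = -1) := by
  obtain ⟨κ, hκ, h⟩ := finalM_all
  exact ⟨κ / 2, by linarith, fun q a hq hsf => finalM_classes (by linarith) (by linarith) h q a hq hsf⟩

end Pool.Agent.MR2
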