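import Pool.Agent.Lib.MR2.MRW
import Pool.Agent.Lib.MR2.AU
import Pool.Agent.Lib.MR2.BT
import Pool.Agent.Lib.MR2.DR
import Pool.Agent.Lib.MR2.FR
import Pool.Agent.Lib.MR2.HI
import Pool.Agent.Lib.MR2.LL
import Pool.Agent.Lib.MR2.MO
import Pool.Agent.Lib.MR2.S1
import Pool.Agent.Lib.MR2.SJ
import Pool.Agent.Lib.MR2.SPV
import Pool.Agent.Lib.MR2.TR
import Pool.Agent.Lib.VMV.All
import Pool.Agent.Lib.MRL.VD

/-! TANK MR2: the mean square theorem of part A without hypotheses.  helper89. -/

set_option autoImplicit false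

namespace Pool.Agent.MR2

open Pool.Agent.MRL

theorem aur_all : AUR := aur largeL (hmInt vdc_row) (SPV.SPV_row vdc_row VMV.zsum_all)

theorem mrw_all : MRW :=
  mrw meanValue (decR btCell) (stepOneR meanValue) (stepJR meanValue momentR) tailR aur_all
    freeCount

end Pool.Agent.MR2
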