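import Pool.Agent.Lib.MR2.ZV
import Pool.Agent.Lib.MR2.HalL

/-! # MR2, row ZV: `ZetaQ`.  helper65 -/

set_option autoImplicit false

namespace Pool.Agent.MR2

theorem zetaQ (hZ : VMV.Zsum) : ZetaQ := by
  obtain ⟨C, hC, h⟩ := zetaV hZ MRL.vdc_row
  refine ⟨1 / 5, by norm_num, by norm_num, C, hC, fun a τ ha ha1 hτ => ?_⟩
  have h1 := h a τ ha ha1 hτ
  rw [show (1 : ℝ) - 1 / 5 = 4 / 5 by norm_num]
  exact h1

end Pool.Agent.MR2
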